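import Mathlib

set_option autoImplicit false
set_option linter.unusedSectionVars false

namespace Pool.Agent.P.MP_4f3dfd_co

open Finset

variable {V : Type*} [Fintype V] [DecidableEq V]

/-- Fractional families can be moved to an extreme point with at most `card V`
fractional members, keeping all degrees. -/
theorem exists_extreme (T : Finset (Finset V)) :
    ∀ (k : ℕ) (w : Finset V → ℝ), (∀ X ∈ T, 0 ≤ w X ∧ w X ≤ 1) →
      #{X ∈ T | 0 < w X ∧ w X < 1} = k →
      ∃ w' : Finset V → ℝ, (∀ X ∈ T, 0 ≤ w' X ∧ w' X ≤ 1) ∧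
        (∀ v, ∑ X ∈ T with v ∈ X, w' X = ∑ X ∈ T with v ∈ X, w X) ∧
        #{X ∈ T | 0 < w' X ∧ w' X < 1} ≤ Fintype.card V := by
  intro k
  induction k using Nat.strong_induction_on with
  | _ k ih =>
  intro w hw hk
  by_cases hle : k ≤ Fintype.card V
  · exact ⟨w, hw, fun _ => rfl, hk ▸ hle⟩
  set F : Finset (Finset V) := {X ∈ T | 0 < w X ∧ w X < 1} with hF
  have hdep : ¬ LinearIndependent ℝ
      (fun X : F => (fun v : V => if v ∈ (X : Finset V) then (1 : ℝ) else 0)) := by
    intro hli
    have := hli.fintype_card_le_finrank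
    rw [Module.finrank_fintype_fun_eq_card, Fintype.card_coe] at this
    omega
  rw [Fintype.not_linearIndependent_iff] at hdep
  obtain ⟨g0, hg0, i0, hi0⟩ := hdep
  let g : Finset V → ℝ := fun X => if h : X ∈ F then g0 ⟨X, h⟩ else 0
  have hgF : ∀ X, X ∉ F → g X = 0 := fun X h => by simp [g, h]
  have hgsum : ∀ v, ∑ X ∈ T with v ∈ X, g X = 0 := by
    intro v
    have h1 := congrFun hg0 v
    simp only [Finset.sum_apply, Pi.smul_apply, smul_eq_mul, Pi.zero_apply] at h1
    have h2 : ∑ X ∈ T with v ∈ X, g X = ∑ X ∈ F, g X * (if v ∈ X then (1:ℝ) else 0) := by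
      rw [Finset.sum_filter]
      symm
      have hsub : F ⊆ T := Finset.filter_subset _ _
      rw [← Finset.sum_subset hsub (f := fun X => if v ∈ X then g X else 0)]
      · apply Finset.sum_congr rfl
        intro X _
        split_ifs <;> simp
      · intro X _ hX
        simp [hgF X hX]
    rw [h2]
    refine Eq.trans ?_ h1
    rw [← Finset.sum_coe_sort F]
    apply Finset.sum_congr rfl
    intro X _
    simp [g]
  let G : Finset (Finset V) := {X ∈ F | g X ≠ 0}
  have hGne : G.Nonempty := ⟨i0, by
    simp only [G, Finset.mem_filter]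
    exact ⟨i0.2, by simpa [g] using hi0⟩⟩
  let r : Finset V → ℝ := fun X => if 0 < g X then (1 - w X) / g X else w X / (- g X)
  obtain ⟨X0, hX0, hmin⟩ := G.exists_min_image r hGne
  have hmemG : ∀ X ∈ G, X ∈ T ∧ 0 < w X ∧ w X < 1 ∧ g X ≠ 0 := by
    intro X hX
    simp only [G, hF, Finset.mem_filter] at hX
    exact ⟨hX.1.1, hX.1.2.1, hX.1.2.2, hX.2⟩
  have hrpos : ∀ X ∈ G, 0 < r X := by
    intro X hX
    obtain ⟨_, h1, h2, h3⟩ := hmemG X hX
    simp only [r]
    split_ifs with h
    · exact div_pos (by linarith) h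
    · have : g X < 0 := lt_of_le_of_ne (not_lt.mp h) h3
      exact div_pos h1 (by linarith)
  set t := r X0 with ht
  have htpos : 0 < t := hrpos X0 hX0
  let w1 : Finset V → ℝ := fun X => w X + t * g X
  have hw1 : ∀ X ∈ T, 0 ≤ w1 X ∧ w1 X ≤ 1 := by
    intro X hX
    by_cases hXG : X ∈ G
    · obtain ⟨_, h1, h2, h3⟩ := hmemG X hXG
      have hm := hmin X hXG
      simp only [r] at hm
      simp only [w1]
      split_ifs at hm with h
      · rw [le_div_iff₀ h] at hm
        constructor
        · positivity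
        · linarith
      · have hneg : 0 < - g X := by
          have : g X < 0 := lt_of_le_of_ne (not_lt.mp h) h3
          linarith
        rw [le_div_iff₀ hneg] at hm
        constructor
        · linarith
        · nlinarith
    · have : g X = 0 := by
        by_contra hne
        apply hXG
        simp only [G, Finset.mem_filter]
        refine ⟨?_, hne⟩
        by_contra hXF
        exact hne (hgF X hXF)
      simp only [w1, this]
      simpa using hw X hX
  have hsub : ({X ∈ T | 0 < w1 X ∧ w1 X < 1} : Finset (Finset V)) ⊆ F.erase X0 := by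
    intro X hX
    simp only [Finset.mem_filter] at hX
    obtain ⟨hXT, h1, h2⟩ := hX
    rw [Finset.mem_erase]
    constructor
    · rintro rfl
      obtain ⟨_, h3, h4, h5⟩ := hmemG X hX0
      simp only [w1, ht, r] at h1 h2
      split_ifs at h1 h2 with h
      · rw [div_mul_cancel₀ _ h5] at h2
        linarith
      · have : w X / (- g X) * g X = - w X := by field_simp
        rw [this] at h1
        linarith
    · by_contra hXF
      have h0 := hgF X hXF
      apply hXF
      simp only [w1, h0, mul_zero, add_zero] at h1 h2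
      simp only [hF, Finset.mem_filter]
      exact ⟨hXT, h1, h2⟩
  have hlt : #{X ∈ T | 0 < w1 X ∧ w1 X < 1} < k := by
    have h1 := Finset.card_le_card hsub
    have hX0F : X0 ∈ F := (Finset.mem_filter.mp hX0).1
    rw [Finset.card_erase_of_mem hX0F] at h1
    have : 0 < #F := Finset.card_pos.mpr ⟨X0, hX0F⟩
    omega
  obtain ⟨w', h1, h2, h3⟩ := ih _ hlt w1 hw1 rfl
  refine ⟨w', h1, fun v => ?_, h3⟩
  rw [h2 v]
  simp only [w1]
  rw [Finset.sum_add_distrib, ← Finset.mul_sum, hgsum v]
  ring

/-- double counting -/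
theorem sum_deg_weight (T : Finset (Finset V)) (c : ℕ) (hT : ∀ X ∈ T, #X = c)
    (w : Finset V → ℝ) :
    ∑ v, ∑ X ∈ T with v ∈ X, w X = c * ∑ X ∈ T, w X := by
  simp_rw [Finset.sum_filter]
  rw [Finset.sum_comm, Finset.mul_sum]
  apply Finset.sum_congr rfl
  intro X hX
  rw [← Finset.sum_filter]
  simp [hT X hX]

theorem sum_deg (J : Finset (Finset V)) (c : ℕ) (hJ : ∀ X ∈ J, #X = c) :
    ∑ v, (#{X ∈ J | v ∈ X} : ℝ) = c * #J := by
  have := sum_deg_weight J c hJ (fun _ => 1)
  simpa using this

/-- Rounding: a fractional `d`-regular family gives an integral family of the right size whose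
degrees deviate from `d` by at most `c * n` in total. -/
theorem exists_round (T : Finset (Finset V)) (c : ℕ) (hc : 0 < c) (hT : ∀ X ∈ T, #X = c)
    (w : Finset V → ℝ) (hw : ∀ X ∈ T, 0 ≤ w X ∧ w X ≤ 1) (d m : ℕ)
    (hdm : c * m = d * Fintype.card V)
    (hdeg : ∀ v, ∑ X ∈ T with v ∈ X, w X = d) :
    ∃ J ⊆ T, #J = m ∧ ∑ v, |(#{X ∈ J | v ∈ X} : ℝ) - d| ≤ c * Fintype.card V := by
  obtain ⟨w', hw', hdeg', hcard⟩ := exists_extreme T _ w hw rfl
  set F : Finset (Finset V) := {X ∈ T | 0 < w' X ∧ w' X < 1} with hF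
  set A : Finset (Finset V) := {X ∈ T | w' X = 1} with hA
  have hsplit : ∀ p : Finset V → Prop, ∀ [DecidablePred p],
      ∑ X ∈ T with p X, w' X = #{X ∈ A | p X} + ∑ X ∈ F with p X, w' X := by
    intro p _
    rw [Finset.card_eq_sum_ones]
    push_cast
    simp only [hA, hF, Finset.sum_filter]
    rw [← Finset.sum_add_distrib]
    apply Finset.sum_congr rfl
    intro X hX
    obtain ⟨h1, h2⟩ := hw' X hX
    by_cases hp : p X
    · by_cases e1 : w' X = 1
      · simp [hp, e1]
      · by_cases e0 : w' X = 0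
        · simp [hp, e0]
        · have : 0 < w' X ∧ w' X < 1 := ⟨lt_of_le_of_ne h1 (Ne.symm e0), lt_of_le_of_ne h2 e1⟩
          simp [hp, e1, this]
    · simp [hp]
  have htot : ∑ X ∈ T, w' X = m := by
    have h1 := sum_deg_weight T c hT w'
    simp_rw [hdeg', hdeg] at h1
    simp only [Finset.sum_const, Finset.card_univ, nsmul_eq_mul] at h1
    have h2 : (c : ℝ) * m = d * Fintype.card V := by exact_mod_cast hdm
    have hc' : (c : ℝ) ≠ 0 := by positivity
    apply mul_left_cancel₀ hc'
    linarith
  have hFb : ∀ p : Finset V → Prop, ∀ [DecidablePred p],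
      0 ≤ ∑ X ∈ F with p X, w' X ∧ ∑ X ∈ F with p X, w' X ≤ #{X ∈ F | p X} := by
    intro p _
    constructor
    · apply Finset.sum_nonneg
      intro X hX
      exact (Finset.mem_filter.mp (Finset.mem_filter.mp hX).1).2.1.le
    · rw [Finset.card_eq_sum_ones]
      push_cast
      apply Finset.sum_le_sum
      intro X hX
      exact (Finset.mem_filter.mp (Finset.mem_filter.mp hX).1).2.2.le
  have h1 := hsplit (fun _ => True)
  have h2 := hFb (fun _ => True)
  simp only [Finset.filter_true] at h1 h2
  rw [htot] at h1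
  have hAm : #A ≤ m := by
    have : (#A : ℝ) ≤ m := by linarith [h2.1]
    exact_mod_cast this
  have hmF : m - #A ≤ #F := by
    have : (m : ℝ) ≤ #A + #F := by linarith [h2.2]
    have : m ≤ #A + #F := by exact_mod_cast this
    omega
  obtain ⟨F', hF'sub, hF'card⟩ := Finset.exists_subset_card_eq hmF
  have hdisj : Disjoint A F' := by
    rw [Finset.disjoint_left]
    intro X hXA hXF
    have e1 := (Finset.mem_filter.mp hXA).2
    have e2 := (Finset.mem_filter.mp (hF'sub hXF)).2.2
    linarith
  refine ⟨A ∪ F', ?_, ?_, ?_⟩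
  · apply Finset.union_subset (Finset.filter_subset _ _)
    exact hF'sub.trans (Finset.filter_subset _ _)
  · rw [Finset.card_union_of_disjoint hdisj]
    omega
  · have hFc : ∀ X ∈ F, #X = c := fun X hX => hT X (Finset.mem_filter.mp hX).1
    have hs := sum_deg F c hFc
    calc ∑ v, |(#{X ∈ A ∪ F' | v ∈ X} : ℝ) - d| ≤ ∑ v, (#{X ∈ F | v ∈ X} : ℝ) := by
          apply Finset.sum_le_sum
          intro v _
          have e1 := hsplit (fun X => v ∈ X)
          have e2 := hFb (fun X => v ∈ X)
          rw [hdeg', hdeg] at e1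
          rw [Finset.filter_union, Finset.card_union_of_disjoint
            (Finset.disjoint_filter_filter hdisj)]
          have e3 : (#{X ∈ F' | v ∈ X} : ℝ) ≤ #{X ∈ F | v ∈ X} := by
            exact_mod_cast Finset.card_le_card (Finset.filter_subset_filter _ hF'sub)
          have e4 : (0 : ℝ) ≤ #{X ∈ F' | v ∈ X} := by positivity
          push_cast
          rw [abs_le]
          constructor <;> linarith [e2.1, e2.2]
      _ = c * #F := hs
      _ ≤ c * Fintype.card V := by
          have : (#F : ℝ) ≤ Fintype.card V := by exact_mod_cast hcard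
          gcongr

/-- One switch moves a unit of degree from `u` to `v`. -/
theorem exists_switch (J : Finset (Finset V)) (c : ℕ) (hJ : ∀ X ∈ J, #X = c) (u v : V)
    (huv : #{X ∈ J | v ∈ X} < #{X ∈ J | u ∈ X}) :
    ∃ J' : Finset (Finset V), (∀ X ∈ J', #X = c) ∧ #J' = #J ∧
      #(shadow J') ≤ #(shadow J) + c ∧
      #{X ∈ J' | u ∈ X} + 1 = #{X ∈ J | u ∈ X} ∧
      #{X ∈ J' | v ∈ X} = #{X ∈ J | v ∈ X} + 1 ∧
      ∀ x, x ≠ u → x ≠ v → #{X ∈ J' | x ∈ X} = #{X ∈ J | x ∈ X} := by
  have hne : u ≠ v := by rintro rfl; exact lt_irrefl _ huv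
  have hex : ∃ X ∈ J, u ∈ X ∧ v ∉ X ∧ insert v (X.erase u) ∉ J := by
    by_contra hcon
    push Not at hcon
    have : #{X ∈ J | u ∈ X} ≤ #{X ∈ J | v ∈ X} := by
      apply Finset.card_le_card_of_injOn
        (fun X => if v ∈ X then X else insert v (X.erase u))
      · intro X hX
        simp only [Finset.coe_filter, Set.mem_ofPred_eq] at hX ⊢
        split_ifs with h
        · exact ⟨hX.1, h⟩
        · exact ⟨hcon X hX.1 hX.2 h, Finset.mem_insert_self _ _⟩
      · intro X hX Y hY hXY
        simp only [Finset.coe_filter, Set.mem_ofPred_eq] at hX hY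
        simp only at hXY
        split_ifs at hXY with h1 h2 h2
        · exact hXY
        · exfalso
          have := hX.2
          rw [hXY] at this
          simp [hne] at this
        · exfalso
          have := hY.2
          rw [← hXY] at this
          simp [hne] at this
        · have e : X.erase u = Y.erase u := by
            have e1 : (insert v (X.erase u)).erase v = X.erase u :=
              Finset.erase_insert (by simp [h1])
            have e2 : (insert v (Y.erase u)).erase v = Y.erase u :=
              Finset.erase_insert (by simp [h2])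
            rw [← e1, ← e2, hXY]
          rw [← Finset.insert_erase hX.2, ← Finset.insert_erase hY.2, e]
    omega
  obtain ⟨X, hXJ, huX, hvX, hX'⟩ := hex
  set X' := insert v (X.erase u) with hX'def
  have hX'c : #X' = c := by
    rw [hX'def, Finset.card_insert_of_notMem (by simp [hvX]), Finset.card_erase_of_mem huX,
      hJ X hXJ]
    have : 0 < #X := Finset.card_pos.mpr ⟨u, huX⟩
    rw [hJ X hXJ] at this
    omega
  have hX'n : X' ∉ J.erase X := fun h => hX' (Finset.mem_of_mem_erase h)
  have key : ∀ x, #{Y ∈ insert X' (J.erase X) | x ∈ Y} + (if x ∈ X then 1 else 0) =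
      #{Y ∈ J | x ∈ Y} + (if x ∈ X' then 1 else 0) := by
    intro x
    have e1 : #{Y ∈ insert X' (J.erase X) | x ∈ Y} =
        #{Y ∈ J.erase X | x ∈ Y} + (if x ∈ X' then 1 else 0) := by
      rw [Finset.filter_insert]
      split_ifs with h
      · rw [Finset.card_insert_of_notMem (fun h' => hX'n (Finset.mem_filter.mp h').1)]
      · rfl
    have e2 : #{Y ∈ J | x ∈ Y} =
        #{Y ∈ J.erase X | x ∈ Y} + (if x ∈ X then 1 else 0) := by
      conv_lhs => rw [← Finset.insert_erase hXJ]
      rw [Finset.filter_insert]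
      split_ifs with h
      · rw [Finset.card_insert_of_notMem (fun h' => by simpa using (Finset.mem_filter.mp h').1)]
      · rfl
    omega
  refine ⟨insert X' (J.erase X), ?_, ?_, ?_, ?_, ?_, ?_⟩
  · intro Y hY
    rcases Finset.mem_insert.mp hY with rfl | h
    · exact hX'c
    · exact hJ Y (Finset.mem_of_mem_erase h)
  · rw [Finset.card_insert_of_notMem hX'n, Finset.card_erase_of_mem hXJ]
    have : 0 < #J := Finset.card_pos.mpr ⟨X, hXJ⟩
    omega
  · have hsub : shadow (insert X' (J.erase X)) ⊆ shadow J ∪ X'.image (fun a => X'.erase a) := by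
      intro Y hY
      rw [Finset.mem_shadow_iff] at hY
      obtain ⟨s, hs, a, ha, rfl⟩ := hY
      rcases Finset.mem_insert.mp hs with rfl | h
      · exact Finset.mem_union_right _ (Finset.mem_image_of_mem _ ha)
      · exact Finset.mem_union_left _ (Finset.erase_mem_shadow (Finset.mem_of_mem_erase h) ha)
    calc _ ≤ #(shadow J ∪ X'.image (fun a => X'.erase a)) := Finset.card_le_card hsub
      _ ≤ #(shadow J) + #(X'.image (fun a => X'.erase a)) := Finset.card_union_le _ _
      _ ≤ #(shadow J) + c := by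
        have := Finset.card_image_le (s := X') (f := fun a => X'.erase a)
        omega
  · have := key u
    have h2 : u ∉ X' := by simp [hX'def, hne]
    simp only [huX, h2, if_true, if_false] at this
    omega
  · have := key v
    have h2 : v ∈ X' := by simp [hX'def]
    simp only [hvX, h2, if_true, if_false] at this
    omega
  · intro x hxu hxv
    have := key x
    have h2 : x ∈ X' ↔ x ∈ X := by simp [hX'def, hxu, hxv]
    by_cases h : x ∈ X
    · simp only [h, h2.mpr h, if_true] at this
      omega
    · have h3 : x ∉ X' := fun h' => h (h2.mp h')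
      simp only [h, h3, if_false] at this
      omega

/-- Repeated switching makes a family regular at small cost in the shadow. -/
theorem exists_regularise (c d : ℕ) :
    ∀ (k : ℕ) (J : Finset (Finset V)), (∀ X ∈ J, #X = c) → c * #J = d * Fintype.card V →
      ∑ v, |(#{X ∈ J | v ∈ X} : ℝ) - d| ≤ k →
      ∃ J' : Finset (Finset V), (∀ X ∈ J', #X = c) ∧ #J' = #J ∧
        (∀ v, #{X ∈ J' | v ∈ X} = d) ∧ #(shadow J') ≤ #(shadow J) + c * k := by
  intro k
  induction k with
  | zero =>
    intro J hJ _ hk
    refine ⟨J, hJ, rfl, fun v => ?_, by simp⟩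
    have h0 : ∀ v ∈ (Finset.univ : Finset V), 0 ≤ |(#{X ∈ J | v ∈ X} : ℝ) - d| :=
      fun _ _ => abs_nonneg _
    have h1 := (Finset.single_le_sum h0 (Finset.mem_univ v)).trans hk
    have h2 : (#{X ∈ J | v ∈ X} : ℝ) - d = 0 := by
      have := abs_nonneg ((#{X ∈ J | v ∈ X} : ℝ) - d)
      simp only [Nat.cast_zero] at h1
      exact abs_eq_zero.mp (le_antisymm h1 this)
    have : (#{X ∈ J | v ∈ X} : ℝ) = d := by linarith
    exact_mod_cast this
  | succ k ih =>
    intro J hJ hdm hk
    by_cases hreg : ∀ v, #{X ∈ J | v ∈ X} = d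
    · exact ⟨J, hJ, rfl, hreg, by omega⟩
    have hs := sum_deg J c hJ
    have hdm' : (c : ℝ) * #J = d * Fintype.card V := by exact_mod_cast hdm
    have hs0 : ∑ v, ((#{X ∈ J | v ∈ X} : ℝ) - d) = 0 := by
      rw [Finset.sum_sub_distrib, hs]
      simp only [Finset.sum_const, Finset.card_univ, nsmul_eq_mul]
      linarith
    have hu : ∃ u, d < #{X ∈ J | u ∈ X} := by
      by_contra hcon
      push Not at hcon
      apply hreg
      intro v
      have := (Finset.sum_eq_zero_iff_of_nonpos (s := Finset.univ)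
        (f := fun v => ((#{X ∈ J | v ∈ X} : ℝ) - d)) (fun v _ => by
          have : (#{X ∈ J | v ∈ X} : ℝ) ≤ d := by exact_mod_cast hcon v
          linarith)).mp hs0 v (Finset.mem_univ v)
      have : (#{X ∈ J | v ∈ X} : ℝ) = d := by linarith
      exact_mod_cast this
    have hv : ∃ v, #{X ∈ J | v ∈ X} < d := by
      by_contra hcon
      push Not at hcon
      apply hreg
      intro v
      have := (Finset.sum_eq_zero_iff_of_nonneg (s := Finset.univ)
        (f := fun v => ((#{X ∈ J | v ∈ X} : ℝ) - d)) (fun v _ => by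
          have : (d : ℝ) ≤ #{X ∈ J | v ∈ X} := by exact_mod_cast hcon v
          linarith)).mp hs0 v (Finset.mem_univ v)
      have : (#{X ∈ J | v ∈ X} : ℝ) = d := by linarith
      exact_mod_cast this
    obtain ⟨u, hu⟩ := hu
    obtain ⟨v, hv⟩ := hv
    have hne : u ≠ v := by rintro rfl; omega
    obtain ⟨J1, h1, h2, h3, h4, h5, h6⟩ := exists_switch J c hJ u v (by omega)
    have hk1 : ∑ x, |(#{X ∈ J1 | x ∈ X} : ℝ) - d| ≤ k := by
      have e : ∀ x, |(#{X ∈ J1 | x ∈ X} : ℝ) - d| ≤
          |(#{X ∈ J | x ∈ X} : ℝ) - d| - (if x = u then 1 else 0) := by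
        intro x
        by_cases hxu : x = u
        · subst hxu
          have a1 : (#{X ∈ J1 | x ∈ X} : ℝ) + 1 = #{X ∈ J | x ∈ X} := by exact_mod_cast h4
          have a2 : (d : ℝ) + 1 ≤ #{X ∈ J | x ∈ X} := by exact_mod_cast hu
          rw [abs_of_nonneg (by linarith), abs_of_nonneg (by linarith)]
          simp only [if_true]
          linarith
        · by_cases hxv : x = v
          · subst hxv
            have a1 : (#{X ∈ J1 | x ∈ X} : ℝ) = #{X ∈ J | x ∈ X} + 1 := by exact_mod_cast h5
            have a2 : (#{X ∈ J | x ∈ X} : ℝ) + 1 ≤ d := by exact_mod_cast hv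
            rw [abs_of_nonpos (by linarith), abs_of_nonpos (by linarith)]
            simp only [hxu, if_false]
            linarith
          · rw [h6 x hxu hxv]
            simp [hxu]
      have := Finset.sum_le_sum (s := Finset.univ) (fun x _ => e x)
      rw [Finset.sum_sub_distrib] at this
      simp only [Finset.sum_ite_eq', Finset.mem_univ, if_true] at this
      push_cast at hk
      linarith
    obtain ⟨J', g1, g2, g3, g4⟩ := ih J1 h1 (by rw [h2]; exact hdm) hk1
    refine ⟨J', g1, by rw [g2, h2], g3, ?_⟩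
    rw [Nat.mul_succ]
    omega

/-- A fractional regular family supported on `T` yields a regular family whose shadow exceeds
that of `T` by at most `c ^ 2 * n`. -/
theorem exists_regular_of_fractional (T : Finset (Finset V)) (c : ℕ) (hc : 0 < c)
    (hT : ∀ X ∈ T, #X = c) (w : Finset V → ℝ) (hw : ∀ X ∈ T, 0 ≤ w X ∧ w X ≤ 1) (d m : ℕ)
    (hdm : c * m = d * Fintype.card V) (hdeg : ∀ v, ∑ X ∈ T with v ∈ X, w X = d) :
    ∃ J : Finset (Finset V), (∀ X ∈ J, #X = c) ∧ #J = m ∧ (∀ v, #{X ∈ J | v ∈ X} = d) ∧
      #(shadow J) ≤ #(shadow T) + c * (c * Fintype.card V) := by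
  obtain ⟨J0, h1, h2, h3⟩ := exists_round T c hc hT w hw d m hdm hdeg
  obtain ⟨J, g1, g2, g3, g4⟩ := exists_regularise c d (c * Fintype.card V) J0
    (fun X hX => hT X (h1 hX)) (by rw [h2]; exact hdm) (by push_cast; exact h3)
  refine ⟨J, g1, by rw [g2, h2], g3, g4.trans ?_⟩
  have := Finset.card_le_card (Finset.shadow_mono h1)
  omega

end Pool.Agent.P.MP_4f3dfd_co
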