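import Mathlib
import Pool.Agent.K.MP_4f3dfd_co.C0

-- part Pool.Agent.P.MP_4f3dfd_co.ALower
section

set_option autoImplicit false

namespace Pool.Agent.P.MP_4f3dfd_co.Asy

open Finset Finset.Colex

section
variable {V : Type*} [DecidableEq V]

/-- The members of the shadow below a fixed set X are the sets X minus a point. -/
theorem card_below (A : Finset (Finset V)) (k : ℕ) (hA : ∀ X ∈ A, #X = k) (X : Finset V)
    (hX : X ∈ A) : #((shadow A).bipartiteAbove (fun X Y : Finset V => Y ⊆ X) X) = k := by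
  have : (shadow A).bipartiteAbove (fun X Y : Finset V => Y ⊆ X) X = X.image (X.erase ·) := by
    ext Y
    simp only [mem_bipartiteAbove, mem_image]
    constructor
    · rintro ⟨hY, hYX⟩
      obtain ⟨Z, hZ, -, hc⟩ := mem_shadow_iff_exists_mem_card_add_one.1 hY
      have h1 : #X = #Y + 1 := by rw [hA X hX, ← hc, hA Z hZ]
      have h2 : #(X \ Y) = 1 := by rw [card_sdiff_of_subset hYX]; omega
      obtain ⟨a, ha⟩ := card_eq_one.1 h2
      have ha' : a ∈ X \ Y := by rw [ha]; exact mem_singleton_self a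
      rw [mem_sdiff] at ha'
      refine ⟨a, ha'.1, ?_⟩
      symm
      apply eq_of_subset_of_card_le
      · intro y hy
        exact mem_erase.2 ⟨fun h => ha'.2 (h ▸ hy), hYX hy⟩
      · rw [card_erase_of_mem ha'.1]; omega
    · rintro ⟨a, ha, rfl⟩
      exact ⟨erase_mem_shadow hX ha, erase_subset _ _⟩
  rw [this, card_image_of_injOn (fun a ha b hb h => erase_injOn X ha hb h), hA X hX]

/-- If every shadow member lies in at least r members, the shadow is small. -/
theorem shadow_mul_le (A : Finset (Finset V)) (k r : ℕ) (hA : ∀ X ∈ A, #X = k)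
    (h : ∀ Y ∈ shadow A, r ≤ #{X ∈ A | Y ⊆ X}) : #(shadow A) * r ≤ #A * k :=
  card_mul_le_card_mul' (fun X Y : Finset V => Y ⊆ X) (s := A) (t := shadow A)
    (fun Y hY => h Y hY) (fun X hX => (card_below A k hA X hX).le)

/-- If every shadow member lies in at most r members, the shadow is large. -/
theorem le_shadow_mul (A : Finset (Finset V)) (k r : ℕ) (hA : ∀ X ∈ A, #X = k)
    (h : ∀ Y ∈ shadow A, #{X ∈ A | Y ⊆ X} ≤ r) : #A * k ≤ #(shadow A) * r :=
  card_mul_le_card_mul (fun X Y : Finset V => Y ⊆ X) (s := A) (t := shadow A)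
    (fun X hX => (card_below A k hA X hX).ge) (fun Y hY => h Y hY)

/-- Inside a ground set P a shadow member has at most |P| - k + 1 extensions. -/
theorem le_shadow_of_subset (A : Finset (Finset V)) (k : ℕ) (P : Finset V)
    (hA : ∀ X ∈ A, #X = k) (hP : ∀ X ∈ A, X ⊆ P) : #A * k ≤ #(shadow A) * (#P + 1 - k) := by
  apply le_shadow_mul A k _ hA
  intro Y hY
  obtain ⟨Z, hZ, hYZ, hc⟩ := mem_shadow_iff_exists_mem_card_add_one.1 hY
  have hYP : Y ⊆ P := hYZ.trans (hP Z hZ)
  have hk : k = #Y + 1 := by rw [← hc, hA Z hZ]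
  have : {X ∈ A | Y ⊆ X} ⊆ (P \ Y).image (insert · Y) := by
    intro X hX
    rw [mem_filter] at hX
    have h2 : #(X \ Y) = 1 := by rw [card_sdiff_of_subset hX.2, hA X hX.1]; omega
    obtain ⟨a, ha⟩ := card_eq_one.1 h2
    have ha' : a ∈ X \ Y := by rw [ha]; exact mem_singleton_self a
    rw [mem_sdiff] at ha'
    refine mem_image.2 ⟨a, mem_sdiff.2 ⟨hP X hX.1 ha'.1, ha'.2⟩, ?_⟩
    apply eq_of_subset_of_card_le
    · exact insert_subset ha'.1 hX.2
    · rw [card_insert_of_notMem ha'.2, hA X hX.1]; omega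
  refine (card_le_card this).trans (card_image_le.trans ?_)
  rw [card_sdiff_of_subset hYP]
  omega

end

/-- Initial segments of every admissible size exist. -/
theorem exists_initSeg (n k : ℕ) : ∀ s : ℕ, s ≤ n.choose k →
    ∃ C : Finset (Finset (Fin n)), IsInitSeg C k ∧ #C = s := by
  intro s
  induction s with
  | zero => exact fun _ => ⟨∅, isInitSeg_empty, rfl⟩
  | succ s ih =>
    intro hs
    obtain ⟨C, hC, hc⟩ := ih (by omega)
    have hne : (powersetCard k (univ : Finset (Fin n)) \ C).Nonempty := by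
      rw [← card_pos]
      have := le_card_sdiff C (powersetCard k (univ : Finset (Fin n)))
      rw [card_powersetCard, card_univ, Fintype.card_fin, hc] at this
      omega
    obtain ⟨X, hX, hmin⟩ := exists_min_image _ (fun X : Finset (Fin n) => toColex X) hne
    rw [mem_sdiff, mem_powersetCard] at hX
    refine ⟨insert X C, ⟨?_, ?_⟩, by rw [card_insert_of_notMem hX.2, hc]⟩
    · intro Y hY
      rw [mem_coe, mem_insert] at hY
      rcases hY with rfl | hY
      · exact hX.1.2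
      · exact hC.1 hY
    · intro S T hS hT
      rw [mem_insert] at hS ⊢
      rcases hS with rfl | hS
      · right
        by_contra hTC
        have := hmin T (mem_sdiff.2 ⟨mem_powersetCard.2 ⟨subset_univ _, hT.2⟩, hTC⟩)
        exact absurd hT.1 (not_lt.2 this)
      · exact Or.inr (hC.2 hS hT)

/-- Ratio form of the Kruskal-Katona theorem. -/
theorem kk_ratio {n k x : ℕ} (hxn : x ≤ n) (A : Finset (Finset (Fin n)))
    (hA : ∀ X ∈ A, #X = k) (hx : #A ≤ x.choose k) : #A * k ≤ #(shadow A) * (x + 1 - k) := by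
  obtain ⟨C, hC, hc⟩ := exists_initSeg n k #A (hx.trans (Nat.choose_le_choose k hxn))
  set P : Finset (Fin n) :=
    attachFin (range x) fun m ↦ by rw [mem_range]; apply forall_lt_iff_le.2 hxn with hPdef
  have hP : #P = x := by rw [hPdef, card_attachFin, card_range]
  have hI : IsInitSeg (powersetCard k P) k := by
    refine ⟨Set.sized_powersetCard _ _, ?_⟩
    simp_rw [mem_powersetCard]
    rintro A B hA ⟨HB₁, HB₂⟩
    refine ⟨fun t ht ↦ ?_, ‹_›⟩
    rw [mem_attachFin, mem_range]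
    have : toColex (image Fin.val B) < toColex (image Fin.val A) := by
      rwa [toColex_image_lt_toColex_image Fin.val_strictMono]
    apply Colex.forall_lt_mono this.le _ t (mem_image.2 ⟨t, ht, rfl⟩)
    simp_rw [mem_image]
    rintro _ ⟨a, ha, hab⟩
    simpa [P, hab] using hA.1 ha
  have hsub : C ⊆ powersetCard k P := by
    rcases hC.total hI with h | h
    · exact h
    · have : powersetCard k P = C := by
        apply eq_of_subset_of_card_le h
        rw [card_powersetCard, hP, hc]; exact hx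
      rw [this]
  have h1 := le_shadow_of_subset C k P (fun X hX => hC.1 hX)
    (fun X hX => (mem_powersetCard.1 (hsub hX)).1)
  have h2 := kruskal_katona (𝒜 := A) (𝒞 := C) (r := k) (fun X hX => hA X hX) hc.le hC
  rw [hP, hc] at h1
  exact h1.trans (Nat.mul_le_mul_right _ h2)

theorem sum_deg_nat {V : Type*} [Fintype V] [DecidableEq V] (J : Finset (Finset V)) (c : ℕ)
    (hJ : ∀ X ∈ J, #X = c) : ∑ v, #{X ∈ J | v ∈ X} = c * #J := by
  simp_rw [card_filter]
  rw [sum_comm]
  have : ∀ X ∈ J, (∑ v : V, if v ∈ X then 1 else 0) = c := by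
    intro X hX
    rw [← card_filter]
    simp [hJ X hX]
  rw [sum_congr rfl this, sum_const, smul_eq_mul, mul_comm]

/-- Kruskal-Katona on the links of a regular family. -/
theorem lower {n k d x : ℕ} (hk : 1 ≤ k) (hxn : x ≤ n) (J : Finset (Finset (Fin n)))
    (hJ : ∀ X ∈ J, #X = k + 1) (hd : ∀ v, #{X ∈ J | v ∈ X} = d) (hx : d ≤ x.choose k) :
    n * d ≤ #(shadow J) * (x + 1 - k) := by
  have hS : ∀ Y ∈ shadow J, #Y = k := by
    intro Y hY
    obtain ⟨Z, hZ, -, hc⟩ := mem_shadow_iff_exists_mem_card_add_one.1 hY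
    have := hJ Z hZ
    omega
  have key : ∀ v, d * k ≤ #{Y ∈ shadow J | v ∈ Y} * (x + 1 - k) := by
    intro v
    set L : Finset (Finset (Fin n)) := {X ∈ J | v ∈ X}.image (·.erase v) with hL
    have hLc : #L = d := by
      rw [hL, card_image_of_injOn, hd]
      intro X hX Y hY h
      rw [mem_coe, mem_filter] at hX hY
      rw [← insert_erase hX.2, ← insert_erase hY.2]
      exact congrArg _ h
    have hLk : ∀ X ∈ L, #X = k := by
      intro X hX
      obtain ⟨Z, hZ, rfl⟩ := mem_image.1 hX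
      rw [mem_filter] at hZ
      rw [card_erase_of_mem hZ.2, hJ Z hZ.1]; rfl
    have h1 := kk_ratio hxn L hLk (hLc ▸ hx)
    rw [hLc] at h1
    refine h1.trans (Nat.mul_le_mul_right _ ?_)
    have hmem : ∀ Y ∈ shadow L, v ∉ Y ∧ insert v Y ∈ shadow J := by
      intro Y hY
      obtain ⟨X, hX, a, ha, rfl⟩ := mem_shadow_iff.1 hY
      obtain ⟨Z, hZ, rfl⟩ := mem_image.1 hX
      rw [mem_filter] at hZ
      rw [mem_erase] at ha
      refine ⟨by simp, ?_⟩
      have : insert v ((Z.erase v).erase a) = Z.erase a := by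
        rw [erase_right_comm, insert_erase (mem_erase.2 ⟨ha.1.symm, hZ.2⟩)]
      rw [this]
      exact erase_mem_shadow hZ.1 ha.2
    apply card_le_card_of_injOn (insert v)
    · intro Y hY
      rw [mem_coe, mem_filter]
      exact ⟨(hmem Y hY).2, mem_insert_self _ _⟩
    · intro Y hY Z hZ h
      rw [← erase_insert (hmem Y hY).1, ← erase_insert (hmem Z hZ).1]
      exact congrArg (·.erase v) h
  have hsum := sum_le_sum (s := (univ : Finset (Fin n))) (fun v _ => key v)
  rw [← sum_mul, ← sum_mul, sum_deg_nat _ k hS, sum_const, card_univ, Fintype.card_fin,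
    smul_eq_mul] at hsum
  have : k * (n * d) ≤ k * (#(shadow J) * (x + 1 - k)) := by
    calc k * (n * d) = n * d * k := by ring
      _ ≤ _ := hsum
      _ = _ := by ring
  exact Nat.le_of_mul_le_mul_left this hk

end Pool.Agent.P.MP_4f3dfd_co.Asy
end

-- part Pool.Agent.P.MP_4f3dfd_co.ANum
section

set_option autoImplicit false

namespace Pool.Agent.P.MP_4f3dfd_co.Asy

theorem choose_step (N k : ℕ) (h : k ≤ N) :
    ((N + 1).choose k : ℝ) * (N + 1 - k) = N.choose k * (N + 1) := by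
  have := Nat.choose_mul_succ_eq N k
  have h2 : ((N + 1 - k : ℕ) : ℝ) = N + 1 - k := by
    rw [Nat.cast_sub (by omega)]; push_cast; ring
  rw [← h2]
  exact_mod_cast this.symm

theorem choose_down (M k t : ℕ) (hM : k ≤ M) (ht : 0 < t) : ∀ s : ℕ, M + s ≤ k + t →
    (1 + (k : ℝ) / t) ^ s * M.choose k ≤ (M + s).choose k := by
  intro s
  induction s with
  | zero => intro _; simp
  | succ s ih =>
    intro h
    have h1 := ih (by omega)
    have h2 := choose_step (M + s) k (by omega)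
    have ht' : (0 : ℝ) < t := by exact_mod_cast ht
    have h3 : ((M + s : ℕ) : ℝ) + 1 - k ≤ t := by
      have : ((M + s : ℕ) : ℝ) + 1 ≤ k + t := by exact_mod_cast h
      linarith
    have h4 : (0 : ℝ) < ((M + s : ℕ) : ℝ) + 1 - k := by
      have : (k : ℝ) ≤ ((M + s : ℕ) : ℝ) := by exact_mod_cast (by omega : k ≤ M + s)
      linarith
    have h5 : (1 + (k : ℝ) / t) * (M + s).choose k ≤ (M + s + 1).choose k := by
      apply le_of_mul_le_mul_right _ h4
      rw [h2]
      have h6 : (k : ℝ) / t * (((M + s : ℕ) : ℝ) + 1 - k) ≤ k := by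
        rw [div_mul_eq_mul_div, div_le_iff₀ ht']
        exact mul_le_mul_of_nonneg_left h3 (by positivity)
      have h7 : (0 : ℝ) ≤ (M + s).choose k := by positivity
      nlinarith
    calc (1 + (k : ℝ) / t) ^ (s + 1) * M.choose k
        = (1 + (k : ℝ) / t) * ((1 + (k : ℝ) / t) ^ s * M.choose k) := by ring
      _ ≤ (1 + (k : ℝ) / t) * (M + s).choose k := by gcongr
      _ ≤ _ := h5

theorem choose_up (N j u : ℕ) (hu : 0 < u) (hN : j + u ≤ N + 1) : ∀ e : ℕ,
    ((N + e).choose j : ℝ) ≤ (1 + (j : ℝ) / u) ^ e * N.choose j := by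
  intro e
  induction e with
  | zero => simp
  | succ e ih =>
    have h2 := choose_step (N + e) j (by omega)
    have hu' : (0 : ℝ) < u := by exact_mod_cast hu
    have h3 : (u : ℝ) ≤ ((N + e : ℕ) : ℝ) + 1 - j := by
      have : (j : ℝ) + u ≤ ((N + e : ℕ) : ℝ) + 1 := by exact_mod_cast (by omega : j + u ≤ N + e + 1)
      linarith
    have h5 : ((N + e + 1).choose j : ℝ) ≤ (1 + (j : ℝ) / u) * (N + e).choose j := by
      apply le_of_mul_le_mul_right _ (hu'.trans_le h3)
      rw [h2]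
      have h6 : (j : ℝ) ≤ (j : ℝ) / u * (((N + e : ℕ) : ℝ) + 1 - j) := by
        rw [div_mul_eq_mul_div, le_div_iff₀ hu']
        exact mul_le_mul_of_nonneg_left h3 (by positivity)
      have h7 : (0 : ℝ) ≤ (N + e).choose j := by positivity
      nlinarith
    calc (((N + (e + 1)).choose j : ℕ) : ℝ) ≤ (1 + (j : ℝ) / u) * (N + e).choose j := h5
      _ ≤ (1 + (j : ℝ) / u) * ((1 + (j : ℝ) / u) ^ e * N.choose j) := by gcongr
      _ = _ := by ring

theorem pow_le_of_small (a : ℝ) (e : ℕ) (ha : 0 ≤ a) (h : a * e ≤ 1) :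
    (1 + a) ^ e ≤ 1 + 2 * (a * e) := by
  have h0 : 0 ≤ a * e := by positivity
  have h1 : (1 + a) ^ e ≤ Real.exp (a * e) := by
    rw [mul_comm, Real.exp_nat_mul]
    exact pow_le_pow_left₀ (by positivity) (by linarith [Real.add_one_le_exp a]) e
  have h2 := Real.abs_exp_sub_one_le (x := a * e) (by rwa [abs_of_nonneg h0])
  rw [abs_of_nonneg h0] at h2
  linarith [le_abs_self (Real.exp (a * e) - 1)]

/-- Dropping a small fraction of the free points loses more than a factor L (k+1). -/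
theorem num_one (L k t : ℕ) (hL : 1 ≤ L) (hk : 32 * L ^ 3 ≤ k) (ht : 4 * L ≤ t) :
    (L : ℝ) * (k + 1) * (k + t - 2 * (t / (2 * L))).choose k ≤ (k + t).choose k := by
  set r := t / (2 * L) with hr
  have hr1 : 2 * L * r ≤ t := Nat.mul_div_le t (2 * L)
  have hr2 : t < 2 * L * (r + 1) := Nat.lt_mul_div_succ t (by omega)
  have hr3 : 2 * r ≤ t := le_trans (by nlinarith) hr1
  have hr4 : 1 ≤ r := by
    by_contra h
    have : r = 0 := by omega
    rw [this] at hr2; omega
  have hr5 : t ≤ 4 * L * r := by nlinarith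
  have h1 := choose_down (k + t - 2 * r) k t (by omega) (by omega) (2 * r) (by omega)
  rw [show k + t - 2 * r + 2 * r = k + t by omega] at h1
  refine le_trans (mul_le_mul_of_nonneg_right ?_ (by positivity)) h1
  have ht' : (0 : ℝ) < t := by exact_mod_cast (by omega : 0 < t)
  have hL' : (1 : ℝ) ≤ L := by exact_mod_cast hL
  have hk' : 32 * (L : ℝ) ^ 3 ≤ k := by exact_mod_cast hk
  have h2 : 1 + (r : ℝ) * (k / t) ≤ (1 + (k : ℝ) / t) ^ r :=
    one_add_mul_le_pow (by have : (0 : ℝ) ≤ (k : ℝ) / t := by positivity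
                           linarith) r
  have h3 : (k : ℝ) / (4 * L) ≤ (r : ℝ) * (k / t) := by
    have : (t : ℝ) ≤ 4 * L * r := by exact_mod_cast hr5
    rw [← mul_div_assoc, div_le_div_iff₀ (by positivity) ht']
    have hk0 : (0 : ℝ) ≤ k := by positivity
    nlinarith
  have h4 : (k : ℝ) / (4 * L) ≤ (1 + (k : ℝ) / t) ^ r := by linarith
  have h5 : ((k : ℝ) / (4 * L)) ^ 2 ≤ (1 + (k : ℝ) / t) ^ (2 * r) := by
    rw [mul_comm 2 r, pow_mul]
    exact pow_le_pow_left₀ (by positivity) h4 2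
  refine le_trans ?_ h5
  rw [div_pow, le_div_iff₀ (by positivity)]
  have h6 : (1 : ℝ) ≤ L ^ 3 := one_le_pow₀ hL'
  have h7 : (1 : ℝ) ≤ k := by linarith
  calc (L : ℝ) * (k + 1) * (4 * L) ^ 2 = 16 * (L : ℝ) ^ 3 * ((k : ℝ) + 1) := by ring
    _ ≤ 16 * (L : ℝ) ^ 3 * (2 * (k : ℝ)) := by gcongr; linarith
    _ = (32 * (L : ℝ) ^ 3) * (k : ℝ) := by ring
    _ ≤ (k : ℝ) * k := by gcongr
    _ = _ := by ring

theorem num_two (L k t : ℕ) (hk : 12 * L ≤ k) (hk1 : 1 ≤ k) (ht : 5 ≤ t) :
    L * (k + 1) ^ 2 * (t + 1) ≤ (k + t).choose k := by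
  obtain ⟨i, rfl⟩ : ∃ i, k = i + 1 := ⟨k - 1, by omega⟩
  obtain ⟨u, rfl⟩ : ∃ u, t = u + 2 := ⟨t - 2, by omega⟩
  have h1 : (i + 3).choose i * u.choose 1 ≤ (i + 1 + (u + 2)).choose (i + 1) := by
    rw [show i + 1 + (u + 2) = (i + 3) + u by ring, Nat.add_choose_eq (i + 3) u (i + 1)]
    exact Finset.single_le_sum (f := fun p : ℕ × ℕ => (i + 3).choose p.1 * u.choose p.2)
      (fun _ _ => Nat.zero_le _) (a := (i, 1)) (Finset.HasAntidiagonal.mem_antidiagonal.2 rfl)
  refine le_trans ?_ h1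
  have h2 : 6 * (i + 3).choose i = (i + 3) * (i + 2) * (i + 1) := by
    rw [Nat.choose_symm_add]
    have := Nat.descFactorial_eq_factorial_mul_choose (i + 3) 3
    simp [Nat.descFactorial, Nat.factorial] at this
    rw [← this]; ring
  rw [Nat.choose_one_right]
  have h3 : u + 2 + 1 ≤ 2 * u := by omega
  have : 12 * (L * (i + 1 + 1) ^ 2 * (u + 2 + 1)) ≤ 12 * ((i + 3).choose i * u) := by
    calc 12 * (L * (i + 1 + 1) ^ 2 * (u + 2 + 1))
        = (12 * L) * (i + 2) * (i + 2) * (u + 2 + 1) := by ring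
      _ ≤ (i + 1) * (i + 2) * (i + 3) * (2 * u) := by gcongr; omega
      _ = 2 * (6 * (i + 3).choose i) * u := by rw [h2]; ring
      _ = _ := by ring
  omega

theorem num_three (L k t : ℕ) (hk : 2 ≤ k) (ht : 2 * L * (k + 1) ^ 2 ≤ t + 2) :
    L * (k + 1) ^ 2 * (t + 1) ≤ (k + t).choose k := by
  have h1 : (t + 2).choose 2 ≤ (k + t).choose k := by
    rw [Nat.choose_symm_add (a := k), ← Nat.choose_symm_add (a := t) (b := 2)]
    exact Nat.choose_le_choose _ (by omega)
  refine le_trans ?_ h1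
  have h2 : 2 * (t + 2).choose 2 = (t + 2) * (t + 1) := by
    have := Nat.descFactorial_eq_factorial_mul_choose (t + 2) 2
    simp [Nat.descFactorial, Nat.factorial] at this
    rw [← this]; ring
  have : 2 * (L * (k + 1) ^ 2 * (t + 1)) ≤ 2 * (t + 2).choose 2 := by
    rw [h2]
    calc 2 * (L * (k + 1) ^ 2 * (t + 1)) = (2 * L * (k + 1) ^ 2) * (t + 1) := by ring
      _ ≤ _ := by gcongr
  omega

end Pool.Agent.P.MP_4f3dfd_co.Asy
end

-- part Pool.Agent.P.MP_4f3dfd_co.BNum
section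

set_option autoImplicit false

namespace Pool.Agent.P.MP_4f3dfd_co.Off

theorem choose_mid {x s t : ℕ} (h1 : s ≤ t) (h2 : t + s ≤ x) : x.choose s ≤ x.choose t := by
  have key : ∀ t, s ≤ t → t ≤ x / 2 → x.choose s ≤ x.choose t := by
    intro t ht
    induction t, ht using Nat.le_induction with
    | base => exact fun _ => le_rfl
    | succ t _ ih =>
      exact fun h => (ih (by omega)).trans (Nat.choose_le_succ_of_lt_half_left (by omega))
  by_cases h : t ≤ x / 2
  · exact key t h1 h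
  · rw [← Nat.choose_symm (show t ≤ x by omega)]
    exact key _ (by omega) (by omega)

theorem big_choose (p D : ℕ) : ∃ K, ∀ n x t : ℕ, K ≤ n → n ≤ D * x → p + 1 ≤ t →
    t + (p + 1) ≤ x → n ^ p ≤ x.choose t := by
  refine ⟨(2 * D) ^ (p + 1) * (p + 1).factorial + 1, fun n x t h1 h2 h3 h4 => ?_⟩
  refine le_trans ?_ (choose_mid h3 h4)
  have hD : 0 < D := Nat.pos_of_ne_zero (by rintro rfl; omega)
  have a1 := Nat.pow_sub_le_descFactorial x (p + 1)
  rw [Nat.descFactorial_eq_factorial_mul_choose] at a1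
  have a2 : n ≤ 2 * D * (x + 1 - (p + 1)) :=
    h2.trans (by rw [mul_comm 2 D, mul_assoc]; exact Nat.mul_le_mul_left _ (by omega))
  apply Nat.le_of_mul_le_mul_left (c := (2 * D) ^ (p + 1) * (p + 1).factorial) _ (by positivity)
  calc _ ≤ n * n ^ p := Nat.mul_le_mul_right _ (by omega)
    _ = n ^ (p + 1) := by ring
    _ ≤ (2 * D * (x + 1 - (p + 1))) ^ (p + 1) := Nat.pow_le_pow_left a2 _
    _ = (2 * D) ^ (p + 1) * (x + 1 - (p + 1)) ^ (p + 1) := mul_pow _ _ _
    _ ≤ (2 * D) ^ (p + 1) * ((p + 1).factorial * x.choose (p + 1)) := by gcongr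
    _ = _ := by ring

theorem choose_scale {s c : ℕ} (h : s ≤ c) (j : ℕ) :
    (c + j).choose j * s ^ j ≤ (s + j).choose j * c ^ j := by
  induction j with
  | zero => simp
  | succ j ih =>
    apply Nat.le_of_mul_le_mul_right _ (Nat.succ_pos j)
    calc (c + (j + 1)).choose (j + 1) * s ^ (j + 1) * (j + 1)
        = ((c + j + 1).choose (j + 1) * (j + 1)) * s ^ (j + 1) := by ring_nf
      _ = ((c + j).choose j * s ^ j) * ((c + j + 1) * s) := by
          rw [← Nat.add_one_mul_choose_eq]; ring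
      _ ≤ ((s + j).choose j * c ^ j) * ((s + j + 1) * c) := by gcongr ?_ * ?_; nlinarith
      _ = ((s + j + 1).choose (j + 1) * (j + 1)) * c ^ (j + 1) := by
          rw [← Nat.add_one_mul_choose_eq]; ring
      _ = _ := by rw [Nat.succ_eq_add_one]; ring_nf

theorem ex_nat {x : ℝ} (hx : 0 ≤ x) : ∃ a : ℕ, (a : ℝ) ≤ x ∧ x < a + 1 :=
  ⟨⌊x⌋₊, Nat.floor_le hx, Nat.lt_floor_add_one x⟩

/-- Degrees on the blocks. -/
theorem num_block {γ β ε η m P t z : ℝ} (h1 : γ + β = 1) (hβ : 0 < β) (hε : 0 < ε)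
    (hε' : ε ≤ 1 / 4) (hη : η ≤ ε ^ 2 * β) (hm : 0 ≤ m) (hP0 : 0 ≤ P) (hP : P ≤ (1 - 2 * ε) * m)
    (t0 : 0 ≤ t) (t1 : t ≤ γ) (t2 : γ - 2 * η ≤ t) (z1 : z ≤ 1) (z2 : 1 - z ≤ ε ^ 2 * β) :
    P * t * z ≤ γ * P ∧ P - P * t * z ≤ (1 - ε) * (β * m) := by
  have a1 : t * z ≤ γ := by nlinarith
  have a2 : t * (1 - z) ≤ 1 * (ε ^ 2 * β) := by
    apply mul_le_mul _ z2 <;> linarith
  have a3 : 1 - t * z ≤ β * (1 + 3 * ε ^ 2) := by nlinarith
  have a4 : (1 - 2 * ε) * (1 + 3 * ε ^ 2) ≤ 1 - ε := by nlinarith [pow_pos hε 3]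
  constructor
  · nlinarith
  · calc P - P * t * z = P * (1 - t * z) := by ring
      _ ≤ P * (β * (1 + 3 * ε ^ 2)) := by gcongr
      _ ≤ (1 - 2 * ε) * m * (β * (1 + 3 * ε ^ 2)) := by gcongr
      _ = (1 - 2 * ε) * (1 + 3 * ε ^ 2) * (β * m) := by ring
      _ ≤ _ := by gcongr

/-- Degrees off the blocks. -/
theorem num_rest {γ β ε m N A t z : ℝ} (h1 : γ + β = 1) (hγ : 0 < γ) (hβ : 0 < β) (hε : 0 < ε)
    (hε' : ε ≤ 1 / 4) (hm : 0 ≤ m) (hN : 0 ≤ N) (hA : 0 ≤ A) (hP : N * A ≤ (1 - 2 * ε) * m)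
    (hA1 : A ≤ ε * (γ * m)) (hA2 : A ≤ ε * (β * m))
    (t1 : t ≤ N * (γ * (1 + 4 * ε ^ 2)) + 1) (t2 : N * γ - 1 ≤ t) (z0 : 0 ≤ z) (z1 : z ≤ 1)
    (z2 : 1 - z ≤ ε ^ 2 * β) :
    t * (A * z) ≤ γ * m ∧ N * A - t * (A * z) ≤ β * m := by
  constructor
  · have a4 : (1 - 2 * ε) * (1 + 4 * ε ^ 2) ≤ 1 - ε := by nlinarith [pow_pos hε 3]
    calc t * (A * z) ≤ (N * (γ * (1 + 4 * ε ^ 2)) + 1) * (A * 1) := by gcongr
      _ = N * A * (γ * (1 + 4 * ε ^ 2)) + A := by ring
      _ ≤ (1 - 2 * ε) * m * (γ * (1 + 4 * ε ^ 2)) + ε * (γ * m) := by gcongr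
      _ = (1 - 2 * ε) * (1 + 4 * ε ^ 2) * (γ * m) + ε * (γ * m) := by ring
      _ ≤ (1 - ε) * (γ * m) + ε * (γ * m) := by gcongr
      _ = _ := by ring
  · have a1 : (N * γ - 1) * (A * z) ≤ t * (A * z) := by gcongr
    have a2 : A * z ≤ A * 1 := by gcongr
    have a3 : γ * (1 - z) ≤ 1 * (ε ^ 2 * β) := by
      apply mul_le_mul _ z2 <;> linarith
    have a4 : N * A * (1 - γ * z) ≤ (1 - 2 * ε) * m * (β * (1 + ε ^ 2)) := by
      apply mul_le_mul hP <;> nlinarith
    have a5 : (1 - 2 * ε) * (1 + ε ^ 2) * (β * m) ≤ (1 - ε) * (β * m) := by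
      gcongr
      nlinarith [pow_pos hε 3]
    nlinarith

end Pool.Agent.P.MP_4f3dfd_co.Off
end

-- part Pool.Agent.P.MP_4f3dfd_co.ABlock
section

set_option autoImplicit false

namespace Pool.Agent.P.MP_4f3dfd_co.Asy

open Finset

/-- The number of (k+1)-subsets of P through a given point. -/
theorem card_through {V : Type*} [DecidableEq V] (P : Finset V) (v : V) (hv : v ∈ P) (k : ℕ) :
    #{X ∈ powersetCard (k + 1) P | v ∈ X} = (#P - 1).choose k := by
  rw [← card_erase_of_mem hv, ← card_powersetCard]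
  symm
  apply card_bij (fun Y _ => insert v Y)
  · intro Y hY
    rw [mem_powersetCard] at hY
    have hvY : v ∉ Y := fun h => by simpa using hY.1 h
    refine mem_filter.2 ⟨mem_powersetCard.2 ⟨insert_subset hv (hY.1.trans (erase_subset _ _)), ?_⟩,
      mem_insert_self _ _⟩
    rw [card_insert_of_notMem hvY, hY.2]
  · intro Y hY Z hZ h
    rw [mem_powersetCard] at hY hZ
    have hvY : v ∉ Y := fun h => by simpa using hY.1 h
    have hvZ : v ∉ Z := fun h => by simpa using hZ.1 h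
    rw [← erase_insert hvY, ← erase_insert hvZ, h]
  · intro X hX
    rw [mem_filter, mem_powersetCard] at hX
    refine ⟨X.erase v, mem_powersetCard.2 ⟨erase_subset_erase _ hX.1.1, ?_⟩, insert_erase hX.2⟩
    rw [card_erase_of_mem hX.2, hX.1.2]; rfl

/-- Upper bound from disjoint blocks of almost equal sizes. -/
theorem upper_block {V : Type*} [Fintype V] [DecidableEq V] (g : V → ℕ) (j a b m d : ℕ)
    (hsz : ∀ v, a + 1 ≤ #{u | g u = g v} ∧ #{u | g u = g v} ≤ b + 1)
    (hja : j + 1 ≤ a) (hd : d ≤ a.choose (j + 1)) (hdm : (j + 2) * m = d * Fintype.card V) :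
    ∃ J : Finset (Finset V), (∀ X ∈ J, #X = j + 2) ∧ #J = m ∧ (∀ v, #{X ∈ J | v ∈ X} = d) ∧
      (j + 1) * #(shadow J) ≤
        Fintype.card V * b.choose j + (j + 1) * ((j + 2) * ((j + 2) * Fintype.card V)) := by
  classical
  let F : V → Finset V := fun v => {u | g u = g v}
  let T : Finset (Finset V) := univ.filter fun X => #X = j + 2 ∧ ∀ u ∈ X, ∀ v ∈ X, g u = g v
  have hT : ∀ X ∈ T, #X = j + 2 := fun X hX => (mem_filter.1 hX).2.1
  have hvF : ∀ v, v ∈ F v := fun v => by simp [F]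
  have hfil : ∀ v, {X ∈ T | v ∈ X} = {X ∈ powersetCard (j + 2) (F v) | v ∈ X} := by
    intro v
    ext X
    simp only [T, F, mem_filter, mem_univ, true_and, mem_powersetCard, subset_iff]
    constructor
    · rintro ⟨⟨h1, h2⟩, h3⟩
      exact ⟨⟨fun u hu => h2 u hu v h3, h1⟩, h3⟩
    · rintro ⟨⟨h1, h2⟩, h3⟩
      exact ⟨⟨h2, fun u hu w hw => (h1 hu).trans (h1 hw).symm⟩, h3⟩
  let r : V → ℝ := fun v => (d : ℝ) / ((#(F v) - 1).choose (j + 1) : ℕ)
  have hle : ∀ v, a.choose (j + 1) ≤ (#(F v) - 1).choose (j + 1) := fun v =>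
    Nat.choose_le_choose _ (by have := (hsz v).1; simp only [F]; omega)
  have hpos : ∀ v, (0 : ℝ) < ((#(F v) - 1).choose (j + 1) : ℕ) := fun v => by
    exact_mod_cast (Nat.choose_pos hja).trans_le (hle v)
  let w : Finset V → ℝ := fun X => (∑ u ∈ X, r u) / (j + 2)
  have hw : ∀ X ∈ T, ∀ v ∈ X, w X = r v := by
    intro X hX v hv
    have h1 : ∀ u ∈ X, r u = r v := by
      intro u hu
      have : g u = g v := (mem_filter.1 hX).2.2 u hu v hv
      simp only [r, F, this]
    simp only [w]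
    rw [sum_congr rfl h1, sum_const, hT X hX, nsmul_eq_mul]
    push_cast
    field_simp
  obtain ⟨J, g1, g2, g3, g4⟩ := exists_regular_of_fractional T (j + 2) (by omega) hT w
    (fun X hX => by
      obtain ⟨v, hv⟩ : X.Nonempty := by rw [← card_pos, hT X hX]; omega
      rw [hw X hX v hv]
      refine ⟨by positivity, ?_⟩
      simp only [r]
      rw [div_le_one (hpos v)]
      exact_mod_cast hd.trans (hle v)) d m hdm
    (fun v => by
      rw [sum_congr rfl (fun X hX => hw X (mem_filter.1 hX).1 v (mem_filter.1 hX).2), sum_const,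
        hfil, card_through _ _ (hvF v), nsmul_eq_mul]
      simp only [r]
      have := hpos v
      field_simp)
  refine ⟨J, g1, g2, g3, ?_⟩
  have hS : ∀ Y ∈ shadow T, #Y = j + 1 := by
    intro Y hY
    obtain ⟨Z, hZ, -, hc⟩ := mem_shadow_iff_exists_mem_card_add_one.1 hY
    have := hT Z hZ
    omega
  have key : ∀ v, #{Y ∈ shadow T | v ∈ Y} ≤ b.choose j := by
    intro v
    have h1 : {Y ∈ shadow T | v ∈ Y} ⊆ {X ∈ powersetCard (j + 1) (F v) | v ∈ X} := by
      intro Y hY
      rw [mem_filter] at hY ⊢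
      refine ⟨mem_powersetCard.2 ⟨?_, hS Y hY.1⟩, hY.2⟩
      obtain ⟨Z, hZ, hYZ, -⟩ := mem_shadow_iff_exists_mem_card_add_one.1 hY.1
      intro u hu
      simp only [F, mem_filter, mem_univ, true_and]
      exact (mem_filter.1 hZ).2.2 u (hYZ hu) v (hYZ hY.2)
    refine (card_le_card h1).trans ?_
    rw [card_through _ _ (hvF v)]
    exact Nat.choose_le_choose _ (by have := (hsz v).2; simp only [F]; omega)
  have hsum := sum_le_sum (s := (univ : Finset V)) (fun v _ => key v)
  rw [sum_deg_nat _ _ hS, sum_const, card_univ, smul_eq_mul] at hsum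
  calc (j + 1) * #(shadow J)
      ≤ (j + 1) * (#(shadow T) + (j + 2) * ((j + 2) * Fintype.card V)) := Nat.mul_le_mul_left _ g4
    _ ≤ _ := by rw [mul_add]; omega

/-- Residue classes modulo q have almost equal sizes. -/
theorem card_res (n q : ℕ) (hq : 0 < q) (v : Fin n) :
    n / q ≤ #{u : Fin n | u.val % q = v.val % q} ∧
      #{u : Fin n | u.val % q = v.val % q} ≤ n / q + 1 := by
  have h1 : #{u : Fin n | u.val % q = v.val % q} = n.count (· ≡ v.val [MOD q]) := by
    rw [Nat.count_eq_card_filter_range, card_filter, card_filter,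
      ← Fin.sum_univ_eq_sum_range (fun i => if i ≡ v.val [MOD q] then 1 else 0) n]
    rfl
  rw [h1, Nat.count_modEq_card _ hq]
  split_ifs <;> omega

end Pool.Agent.P.MP_4f3dfd_co.Asy
end

-- part Pool.Agent.P.MP_4f3dfd_co.AChain
section

set_option autoImplicit false
set_option linter.unusedSectionVars false

namespace Pool.Agent.P.MP_4f3dfd_co.Asy

open Finset
open scoped Pointwise

variable {n : ℕ} [NeZero n]

/-- All c-sets inside a cyclic translate of a member of the collection. -/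
def cl (c : ℕ) (C : Finset (Finset (Fin n))) : Finset (Finset (Fin n)) :=
  univ.filter fun X => #X = c ∧ ∃ B ∈ C, ∃ s : Fin n, X ⊆ s +ᵥ B

theorem mem_cl {c : ℕ} {C : Finset (Finset (Fin n))} {X : Finset (Fin n)} :
    X ∈ cl c C ↔ #X = c ∧ ∃ B ∈ C, ∃ s : Fin n, X ⊆ s +ᵥ B := by
  simp [cl]

theorem vadd_mem_cl {c : ℕ} {C : Finset (Finset (Fin n))} {X : Finset (Fin n)} (a : Fin n)
    (h : X ∈ cl c C) : a +ᵥ X ∈ cl c C := by
  rw [mem_cl] at h ⊢
  obtain ⟨hc, B, hB, s, hs⟩ := h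
  refine ⟨by rw [card_vadd_finset, hc], B, hB, a + s, ?_⟩
  rw [add_vadd]
  exact vadd_finset_subset_vadd_finset hs

theorem deg_cl (c : ℕ) (C : Finset (Finset (Fin n))) (u v : Fin n) :
    #{X ∈ cl c C | u ∈ X} ≤ #{X ∈ cl c C | v ∈ X} := by
  apply card_le_card_of_injOn (fun X => (v - u) +ᵥ X)
  · intro X hX
    rw [mem_coe, mem_filter] at hX ⊢
    refine ⟨vadd_mem_cl _ hX.1, mem_vadd_finset.2 ⟨u, hX.2, ?_⟩⟩
    simp
  · intro X _ Y _ h
    exact AddAction.injective _ h

theorem deg_cl_mul (c : ℕ) (C : Finset (Finset (Fin n))) (v : Fin n) :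
    n * #{X ∈ cl c C | v ∈ X} = c * #(cl c C) := by
  rw [← sum_deg_nat (cl c C) c (fun X hX => (mem_cl.1 hX).1),
    sum_congr rfl (fun u _ => le_antisymm (deg_cl c C u v) (deg_cl c C v u)), sum_const,
    card_univ, Fintype.card_fin, smul_eq_mul]

theorem shadow_cl (c y : ℕ) (C : Finset (Finset (Fin n))) (hC : ∀ B ∈ C, #B = y) :
    #(shadow (cl c C)) * (y + 1 - c) ≤ #(cl c C) * c := by
  apply shadow_mul_le _ c _ (fun X hX => (mem_cl.1 hX).1)
  intro Y hY
  obtain ⟨Z, hZ, hYZ, hc⟩ := mem_shadow_iff_exists_mem_card_add_one.1 hY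
  obtain ⟨hZc, B, hB, s, hs⟩ := mem_cl.1 hZ
  have hYP : Y ⊆ s +ᵥ B := hYZ.trans hs
  have h1 : #((s +ᵥ B) \ Y) = y + 1 - c := by
    rw [card_sdiff_of_subset hYP, card_vadd_finset, hC B hB]; omega
  rw [← h1]
  apply card_le_card_of_injOn (insert · Y)
  · intro a ha
    rw [mem_coe, mem_sdiff] at ha
    rw [mem_coe, mem_filter, mem_cl]
    refine ⟨⟨by rw [card_insert_of_notMem ha.2]; omega, B, hB, s, insert_subset ha.1 hYP⟩,
      subset_insert _ _⟩
  · intro a ha b _ h
    rw [mem_coe, mem_sdiff] at ha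
    have : a ∈ insert b Y := by
      have h' : insert a Y = insert b Y := h
      rw [← h']; exact mem_insert_self _ _
    rcases mem_insert.1 this with h | h
    · exact h
    · exact absurd h ha.2

/-- The translates of the (k+1)-subsets of B through a fixed point. -/
def star (k : ℕ) (B : Finset (Fin n)) (z : Fin n) : Finset (Finset (Fin n)) :=
  (univ ×ˢ powersetCard k (B.erase z)).image fun p : Fin n × Finset (Fin n) => p.1 +ᵥ insert z p.2

theorem card_star (k : ℕ) (B : Finset (Fin n)) (z : Fin n) (hz : z ∈ B) :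
    #(star k B z) ≤ n * (#B - 1).choose k := by
  refine card_image_le.trans ?_
  rw [card_product, card_univ, Fintype.card_fin, card_powersetCard, card_erase_of_mem hz]

theorem mem_star {k : ℕ} {B X : Finset (Fin n)} {z : Fin n} (s : Fin n) (hX : #X = k + 1)
    (hz : z ∈ X) (hB : X ⊆ B) : s +ᵥ X ∈ star k B z := by
  refine mem_image.2 ⟨(s, X.erase z), mem_product.2 ⟨mem_univ _, mem_powersetCard.2
    ⟨erase_subset_erase _ hB, by rw [card_erase_of_mem hz, hX]; rfl⟩⟩, ?_⟩
  simp [insert_erase hz]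

theorem cl_insert (k : ℕ) (C : Finset (Finset (Fin n))) (B B' : Finset (Fin n)) (hB : B ∈ C)
    (z : Fin n) (h : B'.erase z ⊆ B) :
    cl (k + 1) (insert B' C) ⊆ cl (k + 1) C ∪ star k B' z := by
  intro X hX
  obtain ⟨hc, A, hA, s, hs⟩ := mem_cl.1 hX
  rw [mem_union]
  rcases mem_insert.1 hA with rfl | hA
  · have h0 : (-s) +ᵥ X ⊆ A := by
      have := vadd_finset_subset_vadd_finset (a := -s) hs
      rwa [neg_vadd_vadd] at this
    by_cases hz : z ∈ (-s) +ᵥ X
    · right
      have := mem_star (k := k) s (by rw [card_vadd_finset, hc]) hz h0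
      rwa [vadd_neg_vadd] at this
    · left
      refine mem_cl.2 ⟨hc, B, hB, s, ?_⟩
      have h1 : (-s) +ᵥ X ⊆ B := fun a ha => h (mem_erase.2 ⟨fun e => hz (e ▸ ha), h0 ha⟩)
      have := vadd_finset_subset_vadd_finset (a := s) h1
      rwa [vadd_neg_vadd] at this
  · exact Or.inl (mem_cl.2 ⟨hc, A, hA, s, hs⟩)

theorem cl_interval (k y : ℕ) :
    cl (k + 1) {(univ.filter fun i : Fin n => i.val < y)} ⊆
      star k (univ.filter fun i : Fin n => i.val < y) 0 := by
  intro X hX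
  obtain ⟨hc, A, hA, s, hs⟩ := mem_cl.1 hX
  rw [mem_singleton] at hA
  subst hA
  have h0 : (-s) +ᵥ X ⊆ univ.filter fun i : Fin n => i.val < y := by
    have := vadd_finset_subset_vadd_finset (a := -s) hs
    rwa [neg_vadd_vadd] at this
  have hne : ((-s) +ᵥ X).Nonempty := by
    rw [← card_pos, card_vadd_finset, hc]; omega
  set a := ((-s) +ᵥ X).min' hne with ha
  have h1 : (-a) +ᵥ ((-s) +ᵥ X) ⊆ univ.filter fun i : Fin n => i.val < y := by
    intro i hi
    obtain ⟨j, hj, rfl⟩ := mem_vadd_finset.1 hi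
    have hle : a ≤ j := min'_le _ _ hj
    have hjy := (mem_filter.1 (h0 hj)).2
    refine mem_filter.2 ⟨mem_univ _, ?_⟩
    have : (-a +ᵥ j : Fin n) = j - a := by simp [sub_eq_neg_add]
    rw [this, Fin.sub_val_of_le hle]
    omega
  have h2 : (0 : Fin n) ∈ (-a) +ᵥ ((-s) +ᵥ X) :=
    mem_vadd_finset.2 ⟨a, min'_mem _ _, by simp⟩
  have := mem_star (k := k) (s + a) (by rw [card_vadd_finset, card_vadd_finset, hc]) h2 h1
  rwa [add_vadd, vadd_neg_vadd, vadd_neg_vadd] at this

/-- The Johnson graph is connected. -/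
theorem exists_adj {V : Type*} [DecidableEq V] (y : ℕ) (C : Finset (Finset V))
    (hC : ∀ B ∈ C, #B = y) : ∀ (j : ℕ) (B B' : Finset V), B ∈ C → B' ∉ C → #B' = y →
      #(B' \ B) = j → ∃ A ∈ C, ∃ A' ∉ C, #A' = y ∧ ∃ z ∈ A', A'.erase z ⊆ A := by
  intro j
  induction j with
  | zero =>
    intro B B' hB hB' hc h
    rw [card_eq_zero, sdiff_eq_empty_iff_subset] at h
    have := eq_of_subset_of_card_le h (by rw [hC B hB, hc])
    exact absurd (this ▸ hB) hB'
  | succ j ih =>
    intro B B' hB hB' hc h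
    obtain ⟨z, hz⟩ : (B' \ B).Nonempty := by rw [← card_pos]; omega
    obtain ⟨w, hw⟩ : (B \ B').Nonempty := by
      rw [← card_pos, card_sdiff_comm (by rw [hC B hB, hc])]; omega
    rw [mem_sdiff] at hz hw
    have hcard : #(insert z (B.erase w)) = y := by
      rw [card_insert_of_notMem (fun h => hz.2 (mem_of_mem_erase h)), card_erase_of_mem hw.1,
        hC B hB]
      have : 0 < #B := card_pos.2 ⟨w, hw.1⟩
      rw [hC B hB] at this
      omega
    by_cases hin : insert z (B.erase w) ∈ C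
    · refine ih _ B' hin hB' hc ?_
      have : B' \ insert z (B.erase w) = (B' \ B).erase z := by
        ext a
        simp only [mem_sdiff, mem_insert, mem_erase]
        constructor
        · rintro ⟨h1, h2⟩
          push Not at h2
          exact ⟨h2.1, h1, h2.2 (fun e => hw.2 (e ▸ h1))⟩
        · rintro ⟨h1, h2, h3⟩
          exact ⟨h2, by tauto⟩
      rw [this, card_erase_of_mem (mem_sdiff.2 hz), h]; rfl
    · refine ⟨B, hB, _, hin, hcard, z, mem_insert_self _ _, ?_⟩
      intro a ha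
      rw [mem_erase, mem_insert] at ha
      rcases ha.2 with h | h
      · exact absurd h ha.1
      · exact mem_of_mem_erase h

/-- A translation invariant union of cliques of any prescribed approximate size. -/
theorem exists_cl (k y m : ℕ) (hky : k + 1 ≤ y) (hyn : y ≤ n) (hm : m ≤ n.choose (k + 1)) :
    ∃ C : Finset (Finset (Fin n)), (∀ B ∈ C, #B = y) ∧ m ≤ #(cl (k + 1) C) ∧
      #(cl (k + 1) C) ≤ m + n * (y - 1).choose k := by
  classical
  set I : Finset (Fin n) := univ.filter fun i : Fin n => i.val < y with hI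
  have hIc : #I = y := by
    rw [hI, Fin.card_filter_val_lt]; omega
  have hI0 : (0 : Fin n) ∈ I := by
    rw [hI, mem_filter]; exact ⟨mem_univ _, by simp; omega⟩
  have hIcl : #(cl (k + 1) {I}) ≤ n * (y - 1).choose k := by
    have := (card_le_card (cl_interval (n := n) k y)).trans (card_star k I 0 hI0)
    rwa [hIc] at this
  by_cases h0 : m ≤ #(cl (k + 1) {I})
  · exact ⟨{I}, by simpa using hIc, h0, by omega⟩
  let S : Finset (Finset (Finset (Fin n))) :=
    univ.filter fun C => (∀ B ∈ C, #B = y) ∧ I ∈ C ∧ #(cl (k + 1) C) < m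
  have hS : S.Nonempty := ⟨{I}, by
    refine mem_filter.2 ⟨mem_univ _, fun B hB => ?_, mem_singleton_self _, by omega⟩
    rw [mem_singleton.1 hB]; exact hIc⟩
  obtain ⟨C, hC, hmax⟩ := exists_max_image S card hS
  simp only [S, mem_filter, mem_univ, true_and] at hC
  obtain ⟨hCy, hIC, hlt⟩ := hC
  have hex : ∃ B' ∉ C, #B' = y := by
    by_contra hcon
    push Not at hcon
    have : powersetCard (k + 1) (univ : Finset (Fin n)) ⊆ cl (k + 1) C := by
      intro X hX
      rw [mem_powersetCard] at hX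
      obtain ⟨B, hXB, -, hB⟩ := exists_subsuperset_card_eq (subset_univ X) (n := y)
        (by rw [hX.2]; exact hky) (by simpa using hyn)
      refine mem_cl.2 ⟨hX.2, B, by_contra fun h => hcon B h hB, 0, by simpa using hXB⟩
    have := card_le_card this
    rw [card_powersetCard, card_univ, Fintype.card_fin] at this
    omega
  obtain ⟨B', hB', hB'c⟩ := hex
  obtain ⟨A, hA, A', hA', hA'c, z, hz, hsub⟩ := exists_adj y C hCy _ I B' hIC hB' hB'c rfl
  have hy' : ∀ B ∈ insert A' C, #B = y := by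
    intro B hB
    rcases mem_insert.1 hB with rfl | hB
    · exact hA'c
    · exact hCy B hB
  refine ⟨insert A' C, hy', ?_, ?_⟩
  · by_contra hcon
    have := hmax (insert A' C) (by
      simp only [S, mem_filter, mem_univ, true_and]
      exact ⟨hy', mem_insert_of_mem hIC, by omega⟩)
    rw [card_insert_of_notMem hA'] at this
    omega
  · have h1 := (card_le_card (cl_insert k C A A' hA z hsub)).trans (card_union_le _ _)
    have h2 := card_star k A' z hz
    rw [hA'c] at h2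
    omega

/-- Upper bound from cyclic unions of cliques on y points. -/
theorem upper_cl (k y m d : ℕ) (hky : k + 1 ≤ y) (hyn : y ≤ n) (hm : m ≤ n.choose (k + 1))
    (hm0 : 0 < m) (hd : (k + 1) * m = d * n) :
    ∃ J : Finset (Finset (Fin n)), (∀ X ∈ J, #X = k + 1) ∧ #J = m ∧
      (∀ v, #{X ∈ J | v ∈ X} = d) ∧
      (#(shadow J) : ℝ) * (y - k) ≤
        (k + 1) * (m + n * (y - 1).choose k) + (k + 1) ^ 2 * n * (y - k) := by
  obtain ⟨C, hC, h1, h2⟩ := exists_cl (n := n) k y m hky hyn hm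
  have hT : (0 : ℝ) < #(cl (k + 1) C) := by exact_mod_cast hm0.trans_le h1
  have hn : (0 : ℝ) < n := by exact_mod_cast Nat.pos_of_ne_zero (NeZero.ne n)
  obtain ⟨J, g1, g2, g3, g4⟩ := exists_regular_of_fractional (cl (k + 1) C) (k + 1) (by omega)
    (fun X hX => (mem_cl.1 hX).1) (fun _ => (m : ℝ) / #(cl (k + 1) C))
    (fun _ _ => ⟨by positivity, by rw [div_le_one hT]; exact_mod_cast h1⟩) d m
    (by simpa using hd) (fun v => by
      rw [sum_const, nsmul_eq_mul]
      have e1 : (n : ℝ) * #{X ∈ cl (k + 1) C | v ∈ X} = (k + 1) * #(cl (k + 1) C) := by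
        exact_mod_cast deg_cl_mul (k + 1) C v
      have e2 : ((k : ℝ) + 1) * m = d * n := by exact_mod_cast hd
      field_simp
      apply mul_left_cancel₀ hn.ne'
      linear_combination (m : ℝ) * e1 + (#(cl (k + 1) C) : ℝ) * e2)
  refine ⟨J, g1, g2, g3, ?_⟩
  have h3 := shadow_cl (k + 1) y C hC
  have hyk : y + 1 - (k + 1) = y - k := by omega
  rw [hyk] at h3
  have h3' : (#(shadow (cl (k + 1) C)) : ℝ) * (y - k) ≤ #(cl (k + 1) C) * (k + 1) := by
    rw [← Nat.cast_sub (by omega)]; exact_mod_cast h3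
  have h2' : (#(cl (k + 1) C) : ℝ) ≤ m + n * (y - 1).choose k := by exact_mod_cast h2
  have g4' : (#(shadow J) : ℝ) ≤ #(shadow (cl (k + 1) C)) + (k + 1) * ((k + 1) * n) := by
    rw [Fintype.card_fin] at g4; exact_mod_cast g4
  have hpos : (0 : ℝ) ≤ y - k := by
    have : (k : ℝ) + 1 ≤ y := by exact_mod_cast hky
    linarith
  have := mul_le_mul_of_nonneg_right g4' hpos
  have h4 := mul_le_mul_of_nonneg_right h2' (by positivity : (0 : ℝ) ≤ k + 1)
  nlinarith

end Pool.Agent.P.MP_4f3dfd_co.Asy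
end

-- part Pool.Agent.P.MP_4f3dfd_co.AFill
section

set_option autoImplicit false

namespace Pool.Agent.P.MP_4f3dfd_co.Asy

open Finset

variable {V : Type*} [DecidableEq V]

/-- Prescribed degrees are realised by M sets of almost equal sizes. -/
theorem exists_fill (M : ℕ) (δ : V → ℕ) (P : Finset V) : (∀ p ∈ P, δ p ≤ M) →
    ∃ Y : Fin M → Finset V, (∀ j, Y j ⊆ P) ∧ (∀ p ∈ P, #{j | p ∈ Y j} = δ p) ∧
      ∃ a, ∀ j, #(Y j) = a ∨ #(Y j) = a + 1 := by
  induction P using Finset.induction_on with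
  | empty => exact fun _ => ⟨fun _ => ∅, by simp, by simp, 0, by simp⟩
  | insert p P hp ih =>
    intro h
    obtain ⟨Y, h1, h2, a, h3⟩ := ih (fun q hq => h q (mem_insert_of_mem hq))
    have hδ := h p (mem_insert_self _ _)
    obtain ⟨I, hI, hc⟩ : ∃ I : Finset (Fin M), #I = δ p ∧
        (I ⊆ ({j | #(Y j) = a} : Finset (Fin M)) ∨ ({j | #(Y j) = a} : Finset (Fin M)) ⊆ I) := by
      by_cases hle : δ p ≤ #({j | #(Y j) = a} : Finset (Fin M))
      · obtain ⟨I, hI, hI'⟩ := exists_subset_card_eq hle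
        exact ⟨I, hI', Or.inl hI⟩
      · obtain ⟨I, hI, -, hI'⟩ := exists_subsuperset_card_eq
          (subset_univ ({j | #(Y j) = a} : Finset (Fin M))) (n := δ p) (by omega) (by simpa)
        exact ⟨I, hI', Or.inr hI⟩
    have hpY : ∀ j, p ∉ Y j := fun j hj => hp (h1 j hj)
    refine ⟨fun j => if j ∈ I then insert p (Y j) else Y j, ?_, ?_, ?_⟩
    · intro j
      dsimp only
      split_ifs
      · exact insert_subset_insert _ (h1 j)
      · exact (h1 j).trans (subset_insert _ _)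
    · intro q hq
      rcases mem_insert.1 hq with rfl | hq
      · rw [← hI]
        congr 1
        ext j
        by_cases hj : j ∈ I <;> simp [hj, hpY j]
      · rw [← h2 q hq]
        congr 1
        ext j
        have : q ≠ p := fun e => hp (e ▸ hq)
        by_cases hj : j ∈ I <;> simp [hj, this]
    · rcases hc with hc | hc
      · refine ⟨a, fun j => ?_⟩
        dsimp only
        split_ifs with hj
        · right
          rw [card_insert_of_notMem (hpY j), (mem_filter.1 (hc hj)).2]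
        · exact h3 j
      · refine ⟨a + 1, fun j => ?_⟩
        dsimp only
        split_ifs with hj
        · rw [card_insert_of_notMem (hpY j)]
          rcases h3 j with h | h <;> omega
        · left
          rcases h3 j with h | h
          · exact absurd (hc (mem_filter.2 ⟨mem_univ _, h⟩)) hj
          · exact h

theorem sum_deg_idx {M : ℕ} (R : Finset V) (S : Fin M → Finset V) (h : ∀ j, S j ⊆ R) :
    ∑ p ∈ R, #{j | p ∈ S j} = ∑ j, #(S j) := by
  simp_rw [card_filter]
  rw [sum_comm]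
  refine sum_congr rfl fun j _ => ?_
  rw [← card_filter, filter_mem_eq_inter, inter_eq_right.2 (h j)]

/-- A regular family of distinct sets with prescribed sizes. -/
theorem exists_regular_idx (M d : ℕ) (R : Finset V) (σ : Fin M → ℕ)
    (hσ : ∀ j, M ≤ (#R).choose (σ j)) (hsum : ∑ j, σ j = d * #R) :
    ∃ S : Fin M → Finset V, Function.Injective S ∧ (∀ j, S j ⊆ R ∧ #(S j) = σ j) ∧
      ∀ p ∈ R, #{j | p ∈ S j} = d := by
  classical
  have hex : ∃ N, ∃ S : Fin M → Finset V, Function.Injective S ∧ (∀ j, S j ⊆ R ∧ #(S j) = σ j) ∧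
      ∑ p ∈ R, #{j | p ∈ S j} ^ 2 = N := by
    obtain ⟨S, hS, hS'⟩ := (all_card_le_biUnion_card_iff_exists_injective
      (fun j : Fin M => powersetCard (σ j) R)).1 (fun s => by
        rcases s.eq_empty_or_nonempty with rfl | ⟨j, hj⟩
        · simp
        · refine le_trans ?_ (card_le_card (subset_biUnion_of_mem _ hj))
          rw [card_powersetCard]
          exact le_trans (by simpa using card_le_univ s) (hσ j))
    exact ⟨_, S, hS, fun j => mem_powersetCard.1 (hS' j), rfl⟩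
  obtain ⟨S, hS, hS', hN⟩ := Nat.find_spec hex
  refine ⟨S, hS, hS', ?_⟩
  have htot : ∑ p ∈ R, #{j | p ∈ S j} = ∑ _p ∈ R, d := by
    rw [sum_deg_idx R S (fun j => (hS' j).1), sum_congr rfl (fun j _ => (hS' j).2), hsum,
      sum_const, smul_eq_mul, mul_comm]
  by_contra hcon
  push Not at hcon
  obtain ⟨p, hp, hpd⟩ := hcon
  obtain ⟨u, hu, hud⟩ : ∃ u ∈ R, d < #{j | u ∈ S j} := by
    by_contra h
    push Not at h
    exact hpd ((sum_eq_sum_iff_of_le h).1 htot p hp)
  obtain ⟨v, hv, hvd⟩ : ∃ v ∈ R, #{j | v ∈ S j} < d := by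
    by_contra h
    push Not at h
    exact hpd ((sum_eq_sum_iff_of_le h).1 htot.symm p hp).symm
  have hne : u ≠ v := by rintro rfl; omega
  obtain ⟨j, hj1, hj2, hj3⟩ : ∃ j, u ∈ S j ∧ v ∉ S j ∧ ∀ i, S i ≠ insert v ((S j).erase u) := by
    by_contra h
    push Not at h
    have hch : ∀ j, ∃ i, u ∈ S j → S i = if v ∈ S j then S j else insert v ((S j).erase u) := by
      intro j
      by_cases h1 : u ∈ S j
      · by_cases h2 : v ∈ S j
        · exact ⟨j, fun _ => by simp [h2]⟩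
        · obtain ⟨i, hi⟩ := h j h1 h2
          exact ⟨i, fun _ => by simp [h2, hi]⟩
      · exact ⟨j, fun h => absurd h h1⟩
    choose φ hφ using hch
    have : #{j | u ∈ S j} ≤ #{j | v ∈ S j} := by
      apply card_le_card_of_injOn φ
      · intro j hj
        rw [mem_coe, mem_filter] at hj ⊢
        refine ⟨mem_univ _, ?_⟩
        rw [hφ j hj.2]
        split_ifs with h2
        · exact h2
        · exact mem_insert_self _ _
      · intro a ha b hb hab
        rw [mem_coe, mem_filter] at ha hb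
        have e := (hφ a ha.2).symm.trans (hab ▸ hφ b hb.2)
        apply hS
        by_cases h1 : v ∈ S a <;> by_cases h2 : v ∈ S b <;> simp only [h1, h2, if_true, if_false] at e
        · exact e
        · have := e ▸ ha.2
          simp [hne] at this
        · have := e ▸ hb.2
          simp [hne] at this
        · have e2 : (S a).erase u = (S b).erase u := by
            rw [← erase_insert (a := v) (s := (S a).erase u) (by simp [h1]), e,
              erase_insert (by simp [h2])]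
          rw [← insert_erase ha.2, e2, insert_erase hb.2]
    omega
  let S' : Fin M → Finset V := Function.update S j (insert v ((S j).erase u))
  have hmem : ∀ q i, q ∈ S' i ↔ if i = j then (q = v ∨ (q ≠ u ∧ q ∈ S j)) else q ∈ S i := by
    intro q i
    by_cases hi : i = j
    · subst hi; simp [S']
    · simp [S', hi]
  have du : #{i | u ∈ S' i} + 1 = #{i | u ∈ S i} := by
    have : ({i | u ∈ S i} : Finset (Fin M)) =
        insert j ({i | u ∈ S' i} : Finset (Fin M)) := by
      ext i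
      by_cases hi : i = j <;> simp [hmem, hi, hj1]
    rw [this, card_insert_of_notMem (by simp [hmem, hne])]
  have dv : #{i | v ∈ S' i} = #{i | v ∈ S i} + 1 := by
    have : ({i | v ∈ S' i} : Finset (Fin M)) =
        insert j ({i | v ∈ S i} : Finset (Fin M)) := by
      ext i
      by_cases hi : i = j <;> simp [hmem, hi]
    rw [this, card_insert_of_notMem (by simp [hj2])]
  have dw : ∀ q, q ≠ u → q ≠ v → #{i | q ∈ S' i} = #{i | q ∈ S i} := by
    intro q h1 h2
    congr 1
    ext i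
    by_cases hi : i = j <;> simp [hmem, hi, h1, h2]
  have hlt : ∑ p ∈ R, #{i | p ∈ S' i} ^ 2 < Nat.find hex := by
    have hv' : v ∈ R.erase u := mem_erase.2 ⟨hne.symm, hv⟩
    rw [← hN, ← add_sum_erase _ _ hu, ← add_sum_erase _ _ hu, ← add_sum_erase _ _ hv',
      ← add_sum_erase _ _ hv', sum_congr rfl (fun q hq => by
        rw [dw q (mem_erase.1 (mem_erase.1 hq).2).1 (mem_erase.1 hq).1]), dv, ← du]
    nlinarith
  refine Nat.find_min hex hlt ⟨S', ?_, ?_, rfl⟩
  · intro a b hab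
    by_cases ha : a = j <;> by_cases hb : b = j
    · rw [ha, hb]
    · subst ha
      simp only [S', Function.update_self, Function.update_of_ne hb] at hab
      exact absurd hab.symm (hj3 b)
    · subst hb
      simp only [S', Function.update_self, Function.update_of_ne ha] at hab
      exact absurd hab (hj3 a)
    · simp only [S', Function.update_of_ne ha, Function.update_of_ne hb] at hab
      exact hS hab
  · intro i
    by_cases hi : i = j
    · subst hi
      simp only [S', Function.update_self]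
      refine ⟨insert_subset hv ((erase_subset _ _).trans (hS' i).1), ?_⟩
      rw [card_insert_of_notMem (by simp [hj2]), card_erase_of_mem hj1, (hS' i).2]
      have : 0 < #(S i) := card_pos.2 ⟨u, hj1⟩
      rw [(hS' i).2] at this
      omega
    · simp only [S', Function.update_of_ne hi]
      exact hS' i

/-- A family with degrees at most d that misses a large set R is completed to a regular one. -/
theorem exists_completion [Fintype V] (c d M : ℕ) (J : Finset (Finset V)) (R : Finset V)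
    (hJ : ∀ X ∈ J, #X = c) (hdeg : ∀ v, #{X ∈ J | v ∈ X} ≤ d) (hR : ∀ X ∈ J, ∀ v ∈ R, v ∉ X)
    (hM : c * (#J + M) = d * Fintype.card V) (hdM : d ≤ M) (h2 : 2 * M ≤ d * #R)
    (hch : ∀ s, d * #R ≤ M * (s + 1) → M * s ≤ d * #R + M → M ≤ (#R).choose s) :
    ∃ J' : Finset (Finset V), (∀ X ∈ J', #X = c) ∧ #J' = #J + M ∧
      (∀ v, #{X ∈ J' | v ∈ X} = d) ∧ #(shadow J') ≤ #(shadow J) + c * M := by
  obtain ⟨Y, y1, y2, a, y3⟩ := exists_fill M (fun v => d - #{X ∈ J | v ∈ X}) Rᶜ
    (fun p _ => (Nat.sub_le _ _).trans hdM)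
  have hz : ∀ v ∈ R, #{X ∈ J | v ∈ X} = 0 := fun v hv => by
    rw [card_eq_zero, filter_eq_empty_iff]; exact fun X hX => hR X hX v hv
  have hY : ∑ j, #(Y j) + d * #R = c * M := by
    rw [← sum_deg_idx Rᶜ Y y1, sum_congr rfl y2]
    have e1 := sum_deg_nat J c hJ
    rw [← sum_add_sum_compl R, sum_eq_zero hz, zero_add] at e1
    have e2 : ∑ v ∈ Rᶜ, (d - #{X ∈ J | v ∈ X}) + ∑ v ∈ Rᶜ, #{X ∈ J | v ∈ X} = d * #Rᶜ := by
      rw [← sum_add_distrib, sum_congr rfl (fun v _ => Nat.sub_add_cancel (hdeg v)), sum_const,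
        smul_eq_mul, mul_comm]
    have e3 : d * #R + d * #Rᶜ = d * Fintype.card V := by rw [← mul_add, card_add_card_compl]
    rw [mul_add] at hM
    omega
  have lo : M * a ≤ ∑ j, #(Y j) := by
    have := card_nsmul_le_sum univ (fun j => #(Y j)) a (fun j _ => by rcases y3 j with h | h <;> omega)
    simpa using this
  have hi : ∑ j, #(Y j) ≤ M * (a + 1) := by
    have := sum_le_card_nsmul univ (fun j => #(Y j)) (a + 1)
      (fun j _ => by rcases y3 j with h | h <;> omega)
    simpa using this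
  have hac : ∀ _ : Fin M, a + 2 ≤ c := fun j => by
    have hM0 : 0 < M := j.pos
    apply Nat.le_of_mul_le_mul_left _ hM0
    rw [mul_add, mul_comm M c]; omega
  obtain ⟨S, s1, s2, s3⟩ := exists_regular_idx M d R (fun j => c - #(Y j)) (fun j => by
      have := hac j
      obtain ⟨b, rfl⟩ : ∃ b, c = a + 2 + b := ⟨c - (a + 2), by omega⟩
      apply hch
      · rcases y3 j with h | h <;> rw [h]
        · rw [show a + 2 + b - a + 1 = b + 3 by omega]; nlinarith
        · rw [show a + 2 + b - (a + 1) + 1 = b + 2 by omega]; nlinarith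
      · rcases y3 j with h | h <;> rw [h]
        · rw [show a + 2 + b - a = b + 2 by omega]; nlinarith
        · rw [show a + 2 + b - (a + 1) = b + 1 by omega]; nlinarith)
    (by
      have : ∑ j, (c - #(Y j)) + ∑ j, #(Y j) = c * M := by
        rw [← sum_add_distrib, sum_congr rfl (fun j _ => Nat.sub_add_cancel (by
          have := hac j
          rcases y3 j with h | h <;> omega))]
        simp [mul_comm]
      omega)
  have hdisj : ∀ j, Disjoint (S j) (Y j) := fun j =>
    disjoint_left.2 fun p h1 h2 => mem_compl.1 (y1 j h2) ((s2 j).1 h1)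
  have hint : ∀ j, (S j ∪ Y j) ∩ R = S j := fun j => by
    ext p
    simp only [mem_inter, mem_union]
    exact ⟨fun h => h.1.resolve_right fun h' => mem_compl.1 (y1 j h') h.2,
      fun h => ⟨Or.inl h, (s2 j).1 h⟩⟩
  have hinj : Function.Injective fun j => S j ∪ Y j := fun i j h =>
    s1 (by rw [← hint i, ← hint j]; exact congrArg (· ∩ R) h)
  set E : Finset (Finset V) := univ.image fun j => S j ∪ Y j with hE
  have hEc : ∀ X ∈ E, #X = c := by
    intro X hX
    obtain ⟨j, -, rfl⟩ := mem_image.1 hX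
    rw [card_union_of_disjoint (hdisj j), (s2 j).2]
    have := hac j
    rcases y3 j with h | h <;> omega
  have hEM : #E = M := by rw [hE, card_image_of_injective _ hinj]; simp
  have hJE : Disjoint J E := by
    rw [disjoint_right]
    intro X hX hXJ
    obtain ⟨j, -, rfl⟩ := mem_image.1 hX
    obtain ⟨p, hp⟩ : (S j).Nonempty := by
      rw [← card_pos, (s2 j).2]
      have := hac j
      rcases y3 j with h | h <;> omega
    exact hR _ hXJ p ((s2 j).1 hp) (mem_union_left _ hp)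
  refine ⟨J ∪ E, fun X hX => (mem_union.1 hX).elim (hJ X) (hEc X),
    by rw [card_union_of_disjoint hJE, hEM], fun v => ?_, ?_⟩
  · rw [filter_union, card_union_of_disjoint (disjoint_filter_filter hJE), hE, filter_image,
      card_image_of_injective _ hinj]
    by_cases hv : v ∈ R
    · rw [hz v hv, zero_add, ← s3 v hv]
      congr 1
      ext j
      simp only [mem_filter, mem_univ, true_and, mem_union]
      exact ⟨fun h => h.resolve_right fun h' => mem_compl.1 (y1 j h') hv, Or.inl⟩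
    · have : #{j | v ∈ S j ∪ Y j} = d - #{X ∈ J | v ∈ X} := by
        rw [← y2 v (mem_compl.2 hv)]
        congr 1
        ext j
        simp only [mem_filter, mem_univ, true_and, mem_union]
        exact ⟨fun h => h.resolve_left fun h' => hv ((s2 j).1 h'), Or.inr⟩
      rw [this]
      have := hdeg v
      omega
  · have h1 : shadow (J ∪ E) ⊆ shadow J ∪ shadow E := by
      intro Z hZ
      obtain ⟨X, hX, a, ha, rfl⟩ := mem_shadow_iff.1 hZ
      rcases mem_union.1 hX with h | h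
      · exact mem_union_left _ (erase_mem_shadow h ha)
      · exact mem_union_right _ (erase_mem_shadow h ha)
    have h3 := shadow_mul_le E c 1 hEc (fun Z hZ => by
      obtain ⟨X, hX, hZX, -⟩ := mem_shadow_iff_exists_mem_card_add_one.1 hZ
      exact card_pos.2 ⟨X, mem_filter.2 ⟨hX, hZX⟩⟩)
    have h4 := (card_le_card h1).trans (card_union_le _ _)
    rw [hEM, mul_one, mul_comm] at h3
    omega

end Pool.Agent.P.MP_4f3dfd_co.Asy
end

-- part Pool.Agent.P.MP_4f3dfd_co.BLower
section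

set_option autoImplicit false

namespace Pool.Agent.P.MP_4f3dfd_co.Off

open Finset Pool.Agent.P.MP_4f3dfd_co.Asy

variable {V : Type*} [DecidableEq V]

/-- The number of members containing a set. -/
def ex (G : Finset (Finset V)) (Y : Finset V) : ℕ := #{X ∈ G | Y ⊆ X}

/-- The number of members containing a set, counted only above a threshold. -/
def om (j : ℕ) (G : Finset (Finset V)) (Y : Finset V) : ℕ := if j + 1 ≤ ex G Y then ex G Y else 0

theorem eq_insert {X Y : Finset V} {w : V} (h : Y ⊆ X) (hc : #X = #Y + 1) (hw : w ∈ X)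
    (hY : w ∉ Y) : X = insert w Y :=
  (eq_of_subset_of_card_le (insert_subset hw h) (by rw [card_insert_of_notMem hY, hc])).symm

/-- Forbidding a point outside `Y` loses at most one extension. -/
theorem ex_avoid {G : Finset (Finset V)} {Y : Finset V} (hG : ∀ X ∈ G, #X = #Y + 1) {w : V}
    (hw : w ∉ Y) : ex G Y ≤ ex {X ∈ G | w ∉ X} Y + 1 := by
  have : {X ∈ G | Y ⊆ X} ⊆ insert (insert w Y) {X ∈ {X ∈ G | w ∉ X} | Y ⊆ X} := by
    intro X hX
    rw [mem_filter] at hX
    by_cases h : w ∈ X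
    · rw [eq_insert hX.2 (hG X hX.1) h hw]
      exact mem_insert_self _ _
    · exact mem_insert_of_mem (mem_filter.2 ⟨mem_filter.2 ⟨hX.1, h⟩, hX.2⟩)
  exact (card_le_card this).trans (card_insert_le _ _)

theorem ex_avoid' {G : Finset (Finset V)} {Y : Finset V} (hG : ∀ X ∈ G, #X = #Y + 1) {w : V}
    (hw : w ∉ Y) (h : insert w Y ∉ G) : ex {X ∈ G | w ∉ X} Y = ex G Y := by
  unfold ex
  congr 1
  ext X
  simp only [mem_filter]
  refine ⟨fun h => ⟨h.1.1, h.2⟩, fun h' => ⟨⟨h'.1, fun hw' => h ?_⟩, h'.2⟩⟩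
  rw [← eq_insert h'.2 (hG X h'.1) hw' hw]
  exact h'.1

theorem ex_contain (G : Finset (Finset V)) {Y : Finset V} {w : V} (hw : w ∈ Y) :
    ex {X ∈ G | w ∈ X} Y = ex G Y := by
  unfold ex
  congr 1
  ext X
  simp only [mem_filter]
  exact ⟨fun h => ⟨h.1.1, h.2⟩, fun h => ⟨⟨h.1, h.2 hw⟩, h.2⟩⟩

/-- A family in which every member has many rich subsets is large. -/
theorem core_size (c s : ℕ) : ∀ (j : ℕ) (H : Finset (Finset V)), (∀ X ∈ H, #X = c) →
    H.Nonempty → (∀ X ∈ H, s ≤ #{v ∈ X | j + 1 ≤ ex H (X.erase v)}) → (s + j).choose j ≤ #H := by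
  induction s with
  | zero => intro j H _ h _; simpa using h
  | succ s ihs =>
    intro j
    induction j with
    | zero => intro H _ h _; simpa using h
    | succ j ihj =>
      intro H hc ⟨X0, hX0⟩ h
      obtain ⟨v, hv⟩ : {v ∈ X0 | j + 1 + 1 ≤ ex H (X0.erase v)}.Nonempty :=
        card_pos.1 (by have := h X0 hX0; omega)
      obtain ⟨X1, h1, X2, h2, hne⟩ : ∃ a ∈ H, ∃ b ∈ H, a ≠ b := one_lt_card.1 (by
        have := (mem_filter.1 hv).2.trans (card_filter_le _ _)
        omega)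
      obtain ⟨w, hw1, hw2⟩ : ∃ w ∈ X1, w ∉ X2 := by
        by_contra hh
        push Not at hh
        exact hne (eq_of_subset_of_card_le hh (by rw [hc _ h1, hc _ h2]))
      have a1 := ihs (j + 1) {X ∈ H | w ∈ X} (fun X hX => hc X (mem_filter.1 hX).1)
        ⟨X1, mem_filter.2 ⟨h1, hw1⟩⟩ fun X hX => by
          rw [mem_filter] at hX
          have : {v ∈ X | j + 1 + 1 ≤ ex H (X.erase v)} ⊆
              insert w {v ∈ X | j + 1 + 1 ≤ ex {X ∈ H | w ∈ X} (X.erase v)} := by
            intro u hu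
            rw [mem_filter] at hu
            by_cases e : u = w
            · rw [e]; exact mem_insert_self _ _
            · refine mem_insert_of_mem (mem_filter.2 ⟨hu.1, ?_⟩)
              rw [ex_contain H (mem_erase.2 ⟨Ne.symm e, hX.2⟩)]
              exact hu.2
          have := ((h X hX.1).trans (card_le_card this)).trans (card_insert_le _ _)
          omega
      have a2 := ihj {X ∈ H | w ∉ X} (fun X hX => hc X (mem_filter.1 hX).1)
        ⟨X2, mem_filter.2 ⟨h2, hw2⟩⟩ fun X hX => by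
          rw [mem_filter] at hX
          refine (h X hX.1).trans (card_le_card fun u hu => ?_)
          rw [mem_filter] at hu ⊢
          have := ex_avoid (G := H) (Y := X.erase u) (w := w) (fun X' hX' => by
            rw [hc X' hX', card_erase_add_one hu.1, hc X hX.1])
            (fun e => hX.2 (mem_of_mem_erase e))
          exact ⟨hu.1, by omega⟩
      have a3 := card_filter_add_card_filter_not (s := H) fun X => w ∈ X
      rw [show s + 1 + (j + 1) = s + (j + 1) + 1 by omega, Nat.choose_succ_succ',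
        show s + (j + 1) = s + 1 + j by omega]
      rw [show s + (j + 1) = s + 1 + j by omega] at a1
      omega

/-- A small family has few rich pairs. -/
theorem few_rich (k s j : ℕ) (T : Finset (Finset V)) (hT : ∀ Y ∈ T, #Y = k) (N : ℕ) :
    ∀ G : Finset (Finset V), (∀ X ∈ G, #X = k + 1) → #G = N → N < (s + j).choose j →
      ∑ Y ∈ T, om j G Y ≤ (j + 1) * s * N := by
  induction N with
  | zero =>
    intro G _ h _
    rw [card_eq_zero.1 h]
    simp [om, ex]
  | succ N ih =>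
    intro G hG hN hlt
    obtain ⟨X0, hX0, hs⟩ : ∃ X ∈ G, #{v ∈ X | j + 1 ≤ ex G (X.erase v)} < s := by
      by_contra hh
      push Not at hh
      have := core_size (k + 1) s j G hG (card_pos.1 (by omega)) hh
      omega
    have a1 := ih (G.erase X0) (fun X hX => hG X (mem_of_mem_erase hX))
      (by rw [card_erase_of_mem hX0, hN]; rfl) (by omega)
    have a2 : ∀ Y ∈ T, om j G Y ≤
        om j (G.erase X0) Y + if Y ⊆ X0 ∧ j + 1 ≤ ex G Y then j + 1 else 0 := by
      intro Y _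
      have e : ex (G.erase X0) Y = if Y ⊆ X0 then ex G Y - 1 else ex G Y := by
        unfold ex
        rw [filter_erase]
        split_ifs with h
        · exact card_erase_of_mem (mem_filter.2 ⟨hX0, h⟩)
        · rw [erase_eq_of_notMem fun h' => h (mem_filter.1 h').2]
      unfold om
      rw [e]
      by_cases h : Y ⊆ X0 <;> simp only [h, true_and, false_and, if_true, if_false] <;>
        split_ifs <;> omega
    have a3 : #{Y ∈ T | Y ⊆ X0 ∧ j + 1 ≤ ex G Y} ≤ s := by
      refine le_trans ?_ hs.le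
      refine le_trans (card_le_card ?_)
        (card_image_le (s := {v ∈ X0 | j + 1 ≤ ex G (X0.erase v)}) (f := X0.erase))
      intro Y hY
      rw [mem_filter] at hY
      obtain ⟨w, hw1, hw2⟩ : ∃ w ∈ X0, w ∉ Y := by
        by_contra hh
        push Not at hh
        have := card_le_card (show X0 ⊆ Y from hh)
        rw [hG _ hX0, hT _ hY.1] at this
        omega
      have e : X0.erase w = Y := by
        rw [eq_insert hY.2.1 (by rw [hG _ hX0, hT _ hY.1]) hw1 hw2, erase_insert hw2]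
      exact mem_image.2 ⟨w, mem_filter.2 ⟨hw1, e ▸ hY.2.2⟩, e⟩
    have a4 := sum_le_sum a2
    rw [sum_add_distrib, ← sum_filter, sum_const, smul_eq_mul] at a4
    calc _ ≤ (j + 1) * s * N + s * (j + 1) := a4.trans (by gcongr)
      _ = _ := by ring

theorem card_shadow {J : Finset (Finset V)} {k : ℕ} (hJ : ∀ X ∈ J, #X = k + 1) :
    ∀ Y ∈ shadow J, #Y = k := by
  intro Y hY
  obtain ⟨Z, hZ, -, hc⟩ := mem_shadow_iff_exists_mem_card_add_one.1 hY
  have := hJ Z hZ
  omega

/-- Double counting with a threshold. -/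
theorem le_shadow_add (J : Finset (Finset V)) (k j : ℕ) (hJ : ∀ X ∈ J, #X = k + 1) :
    (k + 1) * #J ≤ j * #(shadow J) + ∑ Y ∈ shadow J, om j J Y := by
  have h1 := sum_card_bipartiteAbove_eq_sum_card_bipartiteBelow
    (r := fun X Y : Finset V => Y ⊆ X) (s := J) (t := shadow J)
  rw [sum_congr rfl (card_below J (k + 1) hJ), sum_const, smul_eq_mul, mul_comm] at h1
  rw [h1, mul_comm j, ← smul_eq_mul, ← sum_const, ← sum_add_distrib]
  refine sum_le_sum fun Y _ => ?_
  change ex J Y ≤ _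
  unfold om
  split_ifs <;> omega

variable [Fintype V]

/-- Rich pairs of a family with small degrees. -/
theorem rich_deg (J : Finset (Finset V)) (k s j d : ℕ) (hJ : ∀ X ∈ J, #X = k + 1)
    (hd : ∀ v, #{X ∈ J | v ∈ X} = d) (h : d < (s + j).choose j) :
    k * ∑ Y ∈ shadow J, om j J Y ≤ Fintype.card V * ((j + 1) * s * d) := by
  have a1 := sum_le_sum (s := (univ : Finset V)) fun v _ => few_rich k s j (shadow J)
    (card_shadow hJ) d {X ∈ J | v ∈ X} (fun X hX => hJ X (mem_filter.1 hX).1) (hd v) h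
  rw [sum_const, card_univ, smul_eq_mul, sum_comm] at a1
  refine le_trans ?_ a1
  rw [mul_sum]
  refine sum_le_sum fun Y hY => ?_
  refine le_trans ?_ (sum_le_sum_of_subset (subset_univ Y))
  rw [sum_congr rfl (g := fun _ => om j J Y) fun v hv => by simp only [om, ex_contain J hv],
    sum_const, card_shadow hJ Y hY, smul_eq_mul]

/-- Rich pairs of a family in which few members avoid any given point. -/
theorem rich_codeg (J : Finset (Finset V)) (k s j e r : ℕ) (hJ : ∀ X ∈ J, #X = k + 1)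
    (hd : ∀ v, #{X ∈ J | v ∉ X} = e) (h : e < (s + j).choose j) (hj : 1 ≤ j)
    (hr : k + j + 1 + r ≤ Fintype.card V) :
    r * ∑ Y ∈ shadow J, om j J Y ≤ 2 * (Fintype.card V * ((j + 1) * s * e)) := by
  have a1 := sum_le_sum (s := (univ : Finset V)) fun v _ => few_rich k s j (shadow J)
    (card_shadow hJ) e {X ∈ J | v ∉ X} (fun X hX => hJ X (mem_filter.1 hX).1) (hd v) h
  rw [sum_const, card_univ, smul_eq_mul, sum_comm] at a1
  refine le_trans ?_ (Nat.mul_le_mul_left 2 a1)
  rw [mul_sum, mul_sum]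
  refine sum_le_sum fun Y hY => ?_
  have hk := card_shadow hJ Y hY
  have hG : ∀ X ∈ J, #X = #Y + 1 := fun X hX => by rw [hJ X hX, hk]
  obtain ⟨U, hU, hU'⟩ : ∃ U : Finset V, r ≤ #U ∧
      ∀ u ∈ U, om j J Y ≤ 2 * om j {X ∈ J | u ∉ X} Y := by
    by_cases hm : ex J Y = j + 1
    · refine ⟨Yᶜ \ {u ∈ Yᶜ | insert u Y ∈ J}, ?_, fun u hu => ?_⟩
      · have b1 : #{u ∈ Yᶜ | insert u Y ∈ J} ≤ ex J Y := by
          apply card_le_card_of_injOn (insert · Y)
          · intro u hu
            rw [mem_coe, mem_filter] at hu ⊢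
            exact ⟨hu.2, subset_insert _ _⟩
          · intro a ha b _ hab
            rw [mem_coe, mem_filter, mem_compl] at ha
            have : a ∈ insert b Y := by
              have h' : insert a Y = insert b Y := hab
              rw [← h']; exact mem_insert_self _ _
            exact (mem_insert.1 this).resolve_right ha.1
        rw [card_sdiff_of_subset (filter_subset _ _), card_compl]
        omega
      · rw [mem_sdiff, mem_filter, mem_compl] at hu
        simp only [om, ex_avoid' hG hu.1 fun h' => hu.2 ⟨hu.1, h'⟩]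
        omega
    · refine ⟨Yᶜ, by rw [card_compl]; omega, fun u hu => ?_⟩
      have := ex_avoid hG (mem_compl.1 hu)
      unfold om
      split_ifs <;> omega
  calc r * om j J Y ≤ #U * om j J Y := by gcongr
    _ ≤ ∑ u ∈ U, 2 * om j {X ∈ J | u ∉ X} Y := by
        rw [← smul_eq_mul]; exact card_nsmul_le_sum _ _ _ hU'
    _ ≤ _ := by
        rw [← mul_sum]
        exact Nat.mul_le_mul_left 2 (sum_le_sum_of_subset (subset_univ U))

/-- The lower bound below a power. -/
theorem lower_off (J : Finset (Finset V)) (k s j m d q : ℕ) (hJ : ∀ X ∈ J, #X = k + 1)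
    (hm : #J = m) (hd : ∀ v, #{X ∈ J | v ∈ X} = d) (hk : 1 ≤ k) (hj : 1 ≤ j)
    (hn : Fintype.card V = k + 1 + q) (hq : j + 1 ≤ q) (h : min d (m - d) < (s + j).choose j) :
    (k + 1) * m ≤ j * #(shadow J) + 2 * (j + 1) ^ 2 * s * m := by
  have h0 := le_shadow_add J k j hJ
  have hdm : (k + 1) * m = Fintype.card V * d := by
    have := sum_deg_nat J (k + 1) hJ
    rwa [sum_congr rfl (fun v _ => hd v), sum_const, card_univ, smul_eq_mul, hm, eq_comm] at this
  rw [hm] at h0
  refine h0.trans (Nat.add_le_add_left ?_ _)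
  generalize hP : ∑ Y ∈ shadow J, om j J Y = P
  rcases min_lt_iff.1 h with h | h
  · have a := rich_deg J k s j d hJ hd h
    rw [hP] at a
    apply Nat.le_of_mul_le_mul_left _ hk
    calc k * P ≤ (j + 1) * s * (Fintype.card V * d) := a.trans_eq (by ring)
      _ = (j + 1) * s * m * (k + 1) := by rw [← hdm]; ring
      _ ≤ (j + 1) * s * m * (2 * (j + 1) * k) := by gcongr; nlinarith
      _ = _ := by ring
  · have he : ∀ v, #{X ∈ J | v ∉ X} = m - d := fun v => by
      have := card_filter_add_card_filter_not (s := J) fun X => v ∈ X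
      rw [hd v, hm] at this
      omega
    obtain ⟨r, rfl⟩ : ∃ r, q = j + 1 + r := ⟨q - (j + 1), by omega⟩
    have a := rich_codeg J k s j (m - d) (r + 1) hJ he h hj (by omega)
    rw [hP] at a
    have b : Fintype.card V * (m - d) = (j + 1 + r) * m := by
      rw [Nat.mul_sub, ← hdm, hn, add_mul (k + 1), Nat.add_sub_cancel_left]
    apply Nat.le_of_mul_le_mul_left _ (Nat.succ_pos r)
    calc (r + 1) * P ≤ 2 * (j + 1) * s * (Fintype.card V * (m - d)) := a.trans_eq (by ring)
      _ = 2 * (j + 1) * s * m * (j + 1 + r) := by rw [b]; ring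
      _ ≤ 2 * (j + 1) * s * m * ((j + 1) * (r + 1)) := by gcongr; nlinarith
      _ = _ := by rw [Nat.succ_eq_add_one]; ring

end Pool.Agent.P.MP_4f3dfd_co.Off
end

-- part Pool.Agent.P.MP_4f3dfd_co.ACone
section

set_option autoImplicit false

namespace Pool.Agent.P.MP_4f3dfd_co.Asy

open Finset Finset.Colex
open scoped Pointwise

/-- An optimal family lives on the first x points. -/
theorem exists_opt {n k x : ℕ} (hxn : x ≤ n) (A : Finset (Finset (Fin n)))
    (hA : ∀ X ∈ A, #X = k) (hx : #A ≤ x.choose k) :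
    ∃ C : Finset (Finset (Fin n)), (∀ X ∈ C, #X = k ∧ ∀ a ∈ X, a.val < x) ∧ #C = #A ∧
      #(shadow C) ≤ #(shadow A) := by
  obtain ⟨C, hC, hc⟩ := exists_initSeg n k #A (hx.trans (Nat.choose_le_choose k hxn))
  set P : Finset (Fin n) :=
    attachFin (range x) fun m ↦ by rw [mem_range]; apply forall_lt_iff_le.2 hxn with hPdef
  have hP : #P = x := by rw [hPdef, card_attachFin, card_range]
  have hI : IsInitSeg (powersetCard k P) k := by
    refine ⟨Set.sized_powersetCard _ _, ?_⟩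
    simp_rw [mem_powersetCard]
    rintro A B hA ⟨HB₁, HB₂⟩
    refine ⟨fun t ht ↦ ?_, ‹_›⟩
    rw [mem_attachFin, mem_range]
    have : toColex (image Fin.val B) < toColex (image Fin.val A) := by
      rwa [toColex_image_lt_toColex_image Fin.val_strictMono]
    apply Colex.forall_lt_mono this.le _ t (mem_image.2 ⟨t, ht, rfl⟩)
    simp_rw [mem_image]
    rintro _ ⟨a, ha, hab⟩
    simpa [P, hab] using hA.1 ha
  have hsub : C ⊆ powersetCard k P := by
    rcases hC.total hI with h | h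
    · exact h
    · have : powersetCard k P = C := by
        apply eq_of_subset_of_card_le h
        rw [card_powersetCard, hP, hc]; exact hx
      rw [this]
  refine ⟨C, fun X hX => ⟨hC.1 hX, fun a ha => ?_⟩, hc,
    kruskal_katona (𝒜 := A) (𝒞 := C) (r := k) (fun X hX => hA X hX) hc.le hC⟩
  simpa [P] using (mem_powersetCard.1 (hsub hX)).1 ha

/-- The cone over a family. -/
theorem exists_cone {n k x : ℕ} (hxn : x < n) (C : Finset (Finset (Fin n)))
    (hC : ∀ X ∈ C, #X = k ∧ ∀ a ∈ X, a.val < x) :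
    ∃ A : Finset (Finset (Fin n)), (∀ X ∈ A, #X = k + 1 ∧ ∀ a ∈ X, a.val < x + 1) ∧ #A = #C ∧
      #(shadow A) ≤ #(shadow C) + #C := by
  let z : Fin n := ⟨x, hxn⟩
  have hz : ∀ X ∈ C, z ∉ X := fun X hX h => by
    have := (hC X hX).2 z h
    simp [z] at this
  refine ⟨C.image (insert z), ?_, ?_, ?_⟩
  · intro X hX
    obtain ⟨Y, hY, rfl⟩ := mem_image.1 hX
    refine ⟨by rw [card_insert_of_notMem (hz Y hY), (hC Y hY).1], fun a ha => ?_⟩
    rcases mem_insert.1 ha with rfl | ha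
    · simp [z]
    · have := (hC Y hY).2 a ha
      omega
  · apply card_image_of_injOn
    intro X hX Y hY h
    rw [← erase_insert (hz X hX), ← erase_insert (hz Y hY)]
    exact congrArg (·.erase z) h
  · have : shadow (C.image (insert z)) ⊆ (shadow C).image (insert z) ∪ C := by
      intro Z hZ
      obtain ⟨X, hX, a, ha, rfl⟩ := mem_shadow_iff.1 hZ
      obtain ⟨Y, hY, rfl⟩ := mem_image.1 hX
      rw [mem_union]
      rcases mem_insert.1 ha with rfl | ha
      · right; rwa [erase_insert (hz Y hY)]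
      · left
        refine mem_image.2 ⟨Y.erase a, erase_mem_shadow hY ha, ?_⟩
        have hza : z ≠ a := fun e => hz Y hY (by rw [e]; exact ha)
        rw [erase_insert_of_ne hza]
    exact (card_le_card this).trans ((card_union_le _ _).trans
      (Nat.add_le_add_right card_image_le _))

/-- Disjoint translates of a family on the first b points. -/
theorem exists_blocks {n c b q : ℕ} [NeZero n] (hc : 1 ≤ c) (hq : q * b ≤ n)
    (A : Finset (Finset (Fin n))) (hA : ∀ X ∈ A, #X = c ∧ ∀ a ∈ X, a.val < b) :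
    ∃ J : Finset (Finset (Fin n)), (∀ X ∈ J, #X = c) ∧ #J = q * #A ∧
      (∀ v, #{X ∈ J | v ∈ X} ≤ #A) ∧ (∀ X ∈ J, ∀ v ∈ X, v.val < q * b) ∧
      #(shadow J) ≤ q * #(shadow A) := by
  rcases A.eq_empty_or_nonempty with rfl | ⟨X0, hX0⟩
  · exact ⟨∅, by simp⟩
  have hb : 0 < b := by
    obtain ⟨a, ha⟩ : X0.Nonempty := by rw [← card_pos, (hA X0 hX0).1]; omega
    have := (hA X0 hX0).2 a ha
    omega
  have hlt : ∀ (i : Fin q) (r : ℕ), r < b → i.val * b + r < q * b := fun i r hr => by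
    have : (i.val + 1) * b ≤ q * b := Nat.mul_le_mul_right _ i.2
    rw [add_mul, one_mul] at this
    omega
  let s : Fin q → Fin n := fun i => ⟨i.val * b, by have := hlt i 0 hb; omega⟩
  have hval : ∀ (i : Fin q) (a : Fin n), a.val < b → (s i +ᵥ a).val = i.val * b + a.val := by
    intro i a ha
    have := hlt i a.val ha
    rw [vadd_eq_add, Fin.val_add, Nat.mod_eq_of_lt (by simp only [s]; omega)]
  have hidx : ∀ (i : Fin q) (X : Finset (Fin n)), X ∈ A → ∀ v ∈ s i +ᵥ X, v.val / b = i.val ∧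
      v.val < q * b := by
    intro i X hX v hv
    obtain ⟨a, ha, rfl⟩ := mem_vadd_finset.1 hv
    have h1 := (hA X hX).2 a ha
    rw [hval i a h1]
    refine ⟨?_, hlt i _ h1⟩
    rw [add_comm, Nat.add_mul_div_right _ _ hb, Nat.div_eq_of_lt h1, zero_add]
  refine ⟨(univ ×ˢ A).image fun p : Fin q × Finset (Fin n) => s p.1 +ᵥ p.2, ?_, ?_, ?_, ?_, ?_⟩
  · intro X hX
    obtain ⟨p, hp, rfl⟩ := mem_image.1 hX
    rw [card_vadd_finset, (hA _ (mem_product.1 hp).2).1]
  · rw [card_image_of_injOn, card_product, card_univ, Fintype.card_fin]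
    rintro ⟨i, X⟩ hp ⟨j, Y⟩ hp' h
    have hX : X ∈ A := (mem_product.1 hp).2
    have hY : Y ∈ A := (mem_product.1 hp').2
    dsimp only at h
    obtain ⟨v, hv⟩ : (s i +ᵥ X).Nonempty := by
      rw [← card_pos, card_vadd_finset, (hA X hX).1]; omega
    have hij : i = j := Fin.ext ((hidx i X hX v hv).1.symm.trans (hidx j Y hY v (h ▸ hv)).1)
    subst hij
    rw [AddAction.injective _ h]
  · intro v
    by_cases h : v.val / b < q
    · refine le_trans (card_le_card ?_) (card_image_le (f := fun X => s ⟨_, h⟩ +ᵥ X))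
      intro X hX
      obtain ⟨hX, hv⟩ := mem_filter.1 hX
      obtain ⟨⟨i, Y⟩, hp, rfl⟩ := mem_image.1 hX
      have hY : Y ∈ A := (mem_product.1 hp).2
      have : (⟨_, h⟩ : Fin q) = i := Fin.ext (hidx i Y hY v hv).1
      exact mem_image.2 ⟨Y, hY, by rw [this]⟩
    · refine le_trans (le_of_eq ?_) (Nat.zero_le _)
      rw [card_eq_zero, filter_eq_empty_iff]
      intro X hX hv
      obtain ⟨⟨i, Y⟩, hp, rfl⟩ := mem_image.1 hX
      exact h ((hidx i Y (mem_product.1 hp).2 v hv).1 ▸ i.2)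
  · intro X hX v hv
    obtain ⟨⟨i, Y⟩, hp, rfl⟩ := mem_image.1 hX
    exact (hidx i Y (mem_product.1 hp).2 v hv).2
  · refine le_trans (card_le_card (t := (univ ×ˢ shadow A).image
      fun p : Fin q × Finset (Fin n) => s p.1 +ᵥ p.2) ?_) (card_image_le.trans ?_)
    · intro Z hZ
      obtain ⟨X, hX, v, hv, rfl⟩ := mem_shadow_iff.1 hZ
      obtain ⟨⟨i, Y⟩, hp, rfl⟩ := mem_image.1 hX
      obtain ⟨a, ha, rfl⟩ := mem_vadd_finset.1 hv
      refine mem_image.2 ⟨(i, Y.erase a), mem_product.2 ⟨mem_univ _,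
        erase_mem_shadow (mem_product.1 hp).2 ha⟩, ?_⟩
      ext w
      simp only [mem_vadd_finset, mem_erase]
      constructor
      · rintro ⟨y, ⟨h1, h2⟩, rfl⟩
        exact ⟨fun e => h1 (AddAction.injective _ e), y, h2, rfl⟩
      · rintro ⟨h1, y, h2, rfl⟩
        exact ⟨y, ⟨fun e => h1 (by rw [e]), h2⟩, rfl⟩
    · rw [card_product, card_univ, Fintype.card_fin]

theorem two_pow_le_choose (u : ℕ) : 2 ^ u ≤ (2 * u).choose u := by
  induction u with
  | zero => simp
  | succ u ih =>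
    have h1 : (2 * (u + 1)).choose (u + 1) = 2 * (2 * u + 1).choose u := by
      rw [show 2 * (u + 1) = 2 * u + 1 + 1 by ring, Nat.choose_succ_succ',
        Nat.choose_symm_half u]
      ring
    have h2 : (2 * u).choose u ≤ (2 * u + 1).choose u := Nat.choose_le_choose _ (by omega)
    rw [h1, pow_succ]
    omega

/-- Few free points, large uniformity, sparse range. -/
theorem upperC (n k t m d q : ℕ) (hk : 12 ≤ k) (hm : (k + 1) * m = d * n)
    (hq : (q + 12) * (k + 2 * t + 3) ≤ n) (hd : d ≤ (k + 1 + t).choose k)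
    (hd2 : d ≤ 2 ^ ((k + 1) / 4))
    (A : Finset (Finset (Fin n))) (hA : ∀ X ∈ A, #X = k) (hAd : #A = d) :
    ∃ J : Finset (Finset (Fin n)), (∀ X ∈ J, #X = k + 1) ∧ #J = m ∧
      (∀ v, #{X ∈ J | v ∈ X} = d) ∧
      #(shadow J) ≤ q * (#(shadow A) + d) + d * (n - (k + 1) * q) := by
  obtain ⟨w, hw⟩ : ∃ w, n = (k + 1) * q + w := ⟨n - (k + 1) * q, by
    have : (k + 1) * q ≤ n := by nlinarith only [hk, hq]
    omega⟩
  have hw1 : 2 * (q * (t + 1)) + 12 * (k + 2 * t + 3) ≤ w := by nlinarith only [hq, hw]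
  have hxn : k + 1 + t < n := by omega
  have : NeZero n := ⟨by omega⟩
  obtain ⟨C, c1, c2, c3⟩ := exists_opt hxn.le A hA (hAd ▸ hd)
  obtain ⟨B, b1, b2, b3⟩ := exists_cone hxn C c1
  have hqb : q * (k + 1 + t + 1) + w / 2 ≤ n := by
    have : q * (k + 1 + t + 1) = (k + 1) * q + q * (t + 1) := by ring
    omega
  obtain ⟨J, j1, j2, j3, j4, j5⟩ := exists_blocks (c := k + 1) (q := q) (by omega)
    (le_trans (Nat.le_add_right _ _) hqb) B b1
  rw [b2, c2, hAd] at j2 j3
  obtain ⟨R, hR, hRc⟩ := exists_subset_card_eq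
    (s := (univ.filter fun v : Fin n => v.val < q * (k + 1 + t + 1))ᶜ) (n := w / 2) (by
      rw [card_compl, Fin.card_filter_val_lt, Fintype.card_fin]; omega)
  obtain ⟨M, hM⟩ : ∃ M, m = q * d + M := ⟨m - q * d, by
    have : (k + 1) * (q * d) ≤ (k + 1) * m := by rw [hm, hw]; nlinarith only []
    have := Nat.le_of_mul_le_mul_left this (by omega)
    omega⟩
  have hMw : (k + 1) * M = d * w := by
    rw [hM, hw] at hm
    nlinarith only [hm]
  obtain ⟨ρ, hρ⟩ : ∃ ρ, ρ = w / 2 := ⟨_, rfl⟩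
  rw [← hρ] at hRc
  have hρ1 : 2 * ρ ≤ w := by omega
  have hρ2 : w ≤ 3 * ρ := by omega
  obtain ⟨J', k1, k2, k3, k4⟩ := exists_completion (k + 1) d M J R j1 j3
    (fun X hX v hv h => by
      have := hR hv
      rw [mem_compl, mem_filter] at this
      exact this ⟨mem_univ _, j4 X hX v h⟩)
    (by rw [j2, ← hM, Fintype.card_fin]; exact hm)
    (by
      apply Nat.le_of_mul_le_mul_left (c := k + 1) _ (by omega)
      rw [hMw, mul_comm]
      exact Nat.mul_le_mul_left _ (by omega))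
    (by
      rw [hRc]
      apply Nat.le_of_mul_le_mul_left (c := k + 1) _ (by omega)
      calc (k + 1) * (2 * M) = d * (2 * w) := by rw [mul_left_comm, hMw]; ring
        _ ≤ d * ((k + 1) * ρ) := Nat.mul_le_mul_left _ (by nlinarith only [hk, hρ2])
        _ = _ := by ring)
    (by
      intro s h1 h2
      rw [hRc] at h1 h2 ⊢
      rcases Nat.eq_zero_or_pos d with rfl | hd0
      · have : M = 0 := by simpa using hMw
        omega
      have e1 : (k + 1) * ρ ≤ w * (s + 1) := by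
        apply Nat.le_of_mul_le_mul_left _ hd0
        calc d * ((k + 1) * ρ) = (k + 1) * (d * ρ) := by ring
          _ ≤ (k + 1) * (M * (s + 1)) := Nat.mul_le_mul_left _ h1
          _ = _ := by rw [← mul_assoc, hMw]; ring
      have e2 : w * s ≤ (k + 1) * ρ + w := by
        apply Nat.le_of_mul_le_mul_left _ hd0
        calc d * (w * s) = (k + 1) * (M * s) := by rw [← mul_assoc, ← hMw]; ring
          _ ≤ (k + 1) * (d * ρ + M) := Nat.mul_le_mul_left _ h2
          _ = _ := by rw [mul_add, hMw]; ring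
      have hw0 : 0 < w := by omega
      have e3 : k + 1 ≤ 3 * (s + 1) := by
        apply Nat.le_of_mul_le_mul_left _ hw0
        nlinarith only [hρ2, e1]
      have e4 : 2 * s ≤ k + 3 := by
        apply Nat.le_of_mul_le_mul_left _ hw0
        nlinarith only [hρ1, e2]
      obtain ⟨u, hu⟩ : ∃ u, u = (k + 1) / 4 - 2 := ⟨_, rfl⟩
      obtain ⟨i, rfl⟩ : ∃ i, s = i + 1 := ⟨s - 1, by omega⟩
      obtain ⟨r, hr⟩ : ∃ r, ρ = 2 * i + r := ⟨ρ - 2 * i, by omega⟩
      have e5 : (2 * i).choose i * r.choose 1 ≤ ρ.choose (i + 1) := by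
        rw [hr, Nat.add_choose_eq (2 * i) r (i + 1)]
        exact single_le_sum (f := fun p : ℕ × ℕ => (2 * i).choose p.1 * r.choose p.2)
          (fun _ _ => Nat.zero_le _) (a := (i, 1)) (HasAntidiagonal.mem_antidiagonal.2 rfl)
      refine le_trans ?_ e5
      rw [Nat.choose_one_right]
      have e6 : 2 ^ ((k + 1) / 4) ≤ 2 * (2 * i).choose i := by
        calc 2 ^ ((k + 1) / 4) ≤ 2 ^ (i + 1) := Nat.pow_le_pow_right (by norm_num) (by omega)
          _ = 2 * 2 ^ i := by ring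
          _ ≤ _ := Nat.mul_le_mul_left _ (two_pow_le_choose i)
      have e7 : w ≤ 6 * r := by omega
      apply Nat.le_of_mul_le_mul_left (c := k + 1) _ (by omega)
      calc (k + 1) * M = d * w := hMw
        _ ≤ (2 * (2 * i).choose i) * (6 * r) := Nat.mul_le_mul (hd2.trans e6) e7
        _ = 12 * ((2 * i).choose i * r) := by ring
        _ ≤ _ := Nat.mul_le_mul_right _ (by omega))
  refine ⟨J', k1, by rw [k2, j2, hM], k3, k4.trans ?_⟩
  rw [hMw, show n - (k + 1) * q = w by omega]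
  have : #(shadow B) ≤ #(shadow A) + d := by rw [c2, hAd] at b3; omega
  exact Nat.add_le_add_right (j5.trans (Nat.mul_le_mul_left _ this)) _

end Pool.Agent.P.MP_4f3dfd_co.Asy
end

-- part Pool.Agent.P.MP_4f3dfd_co.AMain
section

set_option autoImplicit false

namespace Pool.Agent.P.MP_4f3dfd_co.Asy

open Finset

/-- Large uniformity. -/
theorem upperA (L n k t m d : ℕ) (hL : 2 ≤ L) (hk : 32 * L ^ 3 ≤ k) (ht : 4 * L ≤ t)
    (hxn : k + t + 1 ≤ n) (hm : m ≤ n.choose (k + 1)) (hm0 : 0 < m)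
    (hdm : (k + 1) * m = d * n) (hd : (k + t).choose k ≤ d) :
    ∃ J : Finset (Finset (Fin n)), (∀ X ∈ J, #X = k + 1) ∧ #J = m ∧
      (∀ v, #{X ∈ J | v ∈ X} = d) ∧ (#(shadow J) : ℝ) * (t + 1) ≤ (1 + 6 / L) * (n * d) := by
  have : NeZero n := ⟨by omega⟩
  set s := 2 * (t / (2 * L)) with hs
  have hs1 : L * s ≤ t := by
    have := Nat.mul_div_le t (2 * L)
    rw [hs]; nlinarith only [this]
  have hs2 : 2 * s ≤ t := le_trans (Nat.mul_le_mul_right s hL) hs1
  obtain ⟨J, g1, g2, g3, g4⟩ := upper_cl (n := n) k (k + t - s + 1) m d (by omega) (by omega)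
    hm hm0 hdm
  refine ⟨J, g1, g2, g3, ?_⟩
  have hL3 : L ≤ L ^ 3 := Nat.le_self_pow (by norm_num) L
  have h1 := num_one L k t (by omega) hk ht
  have h2 : (L : ℝ) * (k + 1) ^ 2 * (t + 1) ≤ (k + t).choose k := by
    exact_mod_cast num_two L k t (by omega) (by omega) (by omega)
  rw [← hs] at h1
  rw [Nat.add_sub_cancel] at g4
  have hc : ((k + t - s + 1 : ℕ) : ℝ) - k = t + 1 - s := by
    rw [Nat.cast_add, Nat.cast_sub (by omega)]; push_cast; ring
  rw [hc] at g4
  have hd' : ((k + t).choose k : ℝ) ≤ d := by exact_mod_cast hd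
  have hdm' : ((k : ℝ) + 1) * m = d * n := by exact_mod_cast hdm
  have hL' : (2 : ℝ) ≤ L := by exact_mod_cast hL
  have hs1' : (L : ℝ) * s ≤ t := by exact_mod_cast hs1
  have hs0 : (0 : ℝ) ≤ s := by positivity
  have hn0 : (0 : ℝ) ≤ n := by positivity
  have hLp : (0 : ℝ) < L := by linarith only [hL']
  set f : ℝ := ((#(shadow J) : ℕ) : ℝ) with hf
  have hf0 : 0 ≤ f := by positivity
  set C : ℝ := (((k + t - s).choose k : ℕ) : ℝ) with hC
  have e1 : ((k : ℝ) + 1) * C ≤ d / L := by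
    rw [le_div_iff₀ hLp]; nlinarith only [hd', h1]
  have e2 : ((k : ℝ) + 1) ^ 2 * (t + 1 - s) ≤ d / L := by
    rw [le_div_iff₀ hLp]
    have : ((k : ℝ) + 1) ^ 2 * (t + 1 - s) * L ≤ L * (k + 1) ^ 2 * (t + 1) := by
      have : 0 ≤ ((k : ℝ) + 1) ^ 2 * s * L := by positivity
      nlinarith only [this]
    linarith only [h2, hd', this]
  have e3 : f * (t + 1 - s) ≤ (1 + 2 / L) * (n * d) := by
    have a1 := mul_le_mul_of_nonneg_left e1 hn0
    have a2 := mul_le_mul_of_nonneg_left e2 hn0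
    calc f * (t + 1 - s) ≤ (k + 1) * (m + n * C) + (k + 1) ^ 2 * n * (t + 1 - s) := g4
      _ = (k + 1) * m + n * ((k + 1) * C) + n * ((k + 1) ^ 2 * (t + 1 - s)) := by ring
      _ ≤ d * n + n * (d / L) + n * (d / L) := by rw [hdm']; linarith only [a1, a2]
      _ = _ := by ring
  have e4 : ((t : ℝ) + 1) * (1 - 1 / L) ≤ t + 1 - s := by
    have : (s : ℝ) ≤ (t + 1) / L := by rw [le_div_iff₀ hLp]; linarith
    calc ((t : ℝ) + 1) * (1 - 1 / L) = t + 1 - (t + 1) / L := by ring
      _ ≤ _ := by linarith only [this]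
  have e5 : (0 : ℝ) < 1 - 1 / L := by
    have : 1 / (L : ℝ) ≤ 1 / 2 := one_div_le_one_div_of_le (by norm_num) hL'
    linarith only [this]
  apply le_of_mul_le_mul_right _ e5
  have e6 : (1 + 2 / (L : ℝ)) ≤ (1 + 6 / L) * (1 - 1 / L) := by
    have h3 : (1 + 6 / (L : ℝ)) * (1 - 1 / L) - (1 + 2 / L) = 3 * (L - 2) / L ^ 2 := by
      field_simp; ring
    have h4 : (0 : ℝ) ≤ 3 * (L - 2) / L ^ 2 := by
      apply div_nonneg _ (by positivity); linarith only [hL']
    linarith only [h3, h4]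
  calc f * (t + 1) * (1 - 1 / L) = f * ((t + 1) * (1 - 1 / L)) := by ring
    _ ≤ f * (t + 1 - s) := by gcongr
    _ ≤ (1 + 2 / L) * (n * d) := e3
    _ ≤ ((1 + 6 / L) * (1 - 1 / L)) * (n * d) := by gcongr
    _ = _ := by ring

/-- Bounded uniformity, sparse range. -/
theorem upperB (L Q n j t m d : ℕ) (hL : 1 ≤ L) (hQ : 4 * L * j ≤ Q) (hQ0 : 1 ≤ Q)
    (ht : Q ≤ t + 1) (hjt : j + 1 ≤ t) (ht2 : 2 * L * (j + 2) ^ 2 ≤ t + 2)
    (hn : Q * (j + t + 3) ≤ n) (hdm : (j + 2) * m = d * n) (hd : (j + 1 + t).choose (j + 1) ≤ d)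
    (hd2 : d ≤ (j + t + 2).choose (j + 1)) :
    ∃ J : Finset (Finset (Fin n)), (∀ X ∈ J, #X = j + 2) ∧ #J = m ∧
      (∀ v, #{X ∈ J | v ∈ X} = d) ∧ (#(shadow J) : ℝ) * (t + 1) ≤ (1 + 6 / L) * (n * d) := by
  set q := n / (j + t + 3) with hq
  have hQq : Q ≤ q := (Nat.le_div_iff_mul_le (by omega)).2 hn
  have hq0 : 0 < q := by omega
  have h1 : j + t + 3 ≤ n / q := by
    rw [Nat.le_div_iff_mul_le hq0, mul_comm]
    exact Nat.div_mul_le_self _ _
  have h2 : n < (j + t + 3) * (q + 1) := Nat.lt_mul_div_succ n (by omega)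
  obtain ⟨J, g1, g2, g3, g4⟩ := upper_block (V := Fin n) (fun v => v.val % q) j (j + t + 2)
    (n / q) m d (fun v => ⟨h1.trans (card_res n q hq0 v).1, (card_res n q hq0 v).2⟩) (by omega)
    hd2 (by simpa using hdm)
  refine ⟨J, g1, g2, g3, ?_⟩
  have hL' : (1 : ℝ) ≤ L := by exact_mod_cast hL
  have hLp : (0 : ℝ) < L := by linarith only [hL']
  have hn0 : (0 : ℝ) ≤ n := by positivity
  have hd' : ((j + 1 + t).choose (j + 1) : ℝ) ≤ d := by exact_mod_cast hd
  rcases Nat.eq_zero_or_pos j with rfl | hj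
  · have a1 : #(shadow J) ≤ n := by
      have : shadow J ⊆ powersetCard 1 univ := by
        intro Y hY
        obtain ⟨Z, hZ, -, hc⟩ := mem_shadow_iff_exists_mem_card_add_one.1 hY
        have := g1 Z hZ
        exact mem_powersetCard.2 ⟨subset_univ _, by omega⟩
      simpa using card_le_card this
    have a2 : (#(shadow J) : ℝ) ≤ n := by exact_mod_cast a1
    have a3 : (t : ℝ) + 1 ≤ d := by
      simp only [zero_add, Nat.choose_one_right] at hd'
      push_cast at hd'
      linarith only [hd']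
    have a4 : (0 : ℝ) ≤ 6 / L * (n * d) := by positivity
    calc (#(shadow J) : ℝ) * (t + 1) ≤ n * d := by gcongr
      _ ≤ _ := by linarith only [a4]
  obtain ⟨e, he⟩ : ∃ e, n / q = j + 1 + t + e := ⟨n / q - (j + 1 + t), by omega⟩
  have he2 : q * e ≤ 2 * q + 2 * (t + 1) := by
    have := Nat.mul_div_le n q
    rw [he] at this
    nlinarith only [hjt, h2, this]
  have hup := choose_up (j + 1 + t) j (t + 1) (by omega) (by omega) e
  have hq' : (0 : ℝ) < q := by exact_mod_cast hq0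
  have ht' : (0 : ℝ) < (t : ℝ) + 1 := by positivity
  have hsm : (j : ℝ) / ((t + 1 : ℕ) : ℝ) * e ≤ 1 / L := by
    have b1 : (q : ℝ) * e ≤ 2 * q + 2 * (t + 1) := by exact_mod_cast he2
    have b2 : 4 * (L : ℝ) * j ≤ q := by exact_mod_cast hQ.trans hQq
    have b3 : 4 * (L : ℝ) * j ≤ t + 1 := by exact_mod_cast hQ.trans ht
    push_cast
    rw [div_mul_eq_mul_div, div_le_div_iff₀ ht' hLp]
    apply le_of_mul_le_mul_right _ hq'
    have b4 : (0 : ℝ) ≤ j * L := by positivity
    calc (j : ℝ) * e * L * q = (j * L) * (q * e) := by ring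
      _ ≤ (j * L) * (2 * q + 2 * (t + 1)) := by gcongr
      _ = (4 * L * j) * q / 2 + (4 * L * j) * (t + 1) / 2 := by ring
      _ ≤ (t + 1) * q / 2 + q * (t + 1) / 2 := by gcongr
      _ = _ := by ring
  have hpw := pow_le_of_small ((j : ℝ) / ((t + 1 : ℕ) : ℝ)) e (by positivity)
    (hsm.trans (by rw [div_le_one hLp]; exact hL'))
  have c1 : ((n / q).choose j : ℝ) ≤ (1 + 2 / L) * (j + 1 + t).choose j := by
    rw [he]
    refine hup.trans (mul_le_mul_of_nonneg_right (hpw.trans ?_) (by positivity))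
    have : 2 / (L : ℝ) = 2 * (1 / L) := by ring
    rw [this]; linarith only [hsm]
  have c2 : ((j + 1 + t).choose (j + 1) : ℝ) * (j + 1) = (j + 1 + t).choose j * (t + 1) := by
    have := Nat.choose_succ_right_eq (j + 1 + t) j
    rw [show j + 1 + t - j = t + 1 by omega] at this
    exact_mod_cast this
  have c3 : (L : ℝ) * (j + 2) ^ 2 * (t + 1) ≤ (j + 1 + t).choose (j + 1) := by
    exact_mod_cast num_three L (j + 1) t (by omega) ht2
  have c4 : ((j : ℝ) + 2) ^ 2 * (t + 1) ≤ d / L := by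
    rw [le_div_iff₀ hLp]; nlinarith only [hd', c3]
  have g5 : ((j : ℝ) + 1) * #(shadow J) ≤
      n * (n / q).choose j + (j + 1) * ((j + 2) * ((j + 2) * n)) := by
    rw [Fintype.card_fin] at g4; exact_mod_cast g4
  have hj' : (0 : ℝ) < (j : ℝ) + 1 := by positivity
  apply le_of_mul_le_mul_left _ hj'
  have c5 : ((n / q).choose j : ℝ) * (t + 1) ≤ (1 + 2 / L) * (d * (j + 1)) := by
    calc ((n / q).choose j : ℝ) * (t + 1) ≤ (1 + 2 / L) * (j + 1 + t).choose j * (t + 1) := by
          gcongr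
      _ = (1 + 2 / L) * ((j + 1 + t).choose (j + 1) * (j + 1)) := by rw [c2]; ring
      _ ≤ _ := by gcongr
  have c6 : (0 : ℝ) ≤ (j + 1) * (3 / L * (n * d)) := by positivity
  calc ((j : ℝ) + 1) * (#(shadow J) * (t + 1)) = ((j + 1) * #(shadow J)) * (t + 1) := by ring
    _ ≤ (n * (n / q).choose j + (j + 1) * ((j + 2) * ((j + 2) * n))) * (t + 1) := by gcongr
    _ = n * ((n / q).choose j * (t + 1)) + (j + 1) * n * ((j + 2) ^ 2 * (t + 1)) := by ring
    _ ≤ n * ((1 + 2 / L) * (d * (j + 1))) + (j + 1) * n * (d / L) := by gcongr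
    _ = (j + 1) * ((1 + 6 / L) * (n * d)) - (j + 1) * (3 / L * (n * d)) := by ring
    _ ≤ _ := by linarith only [c6]

theorem asymptotic (ε : ℝ) (hε : 0 < ε) : ∃ K : ℕ, ∀ n c m d x : ℕ, 1 ≤ m → m ≤ n.choose c →
    c * m = d * n → (x - 1).choose (c - 1) ≤ d → d < x.choose (c - 1) → c + K ≤ x →
    (K ≤ c ∨ K * x ≤ n) →
    ∃ f : ℕ, IsLeast {k : ℕ | ∃ J : Finset (Finset (Fin n)), (∀ X ∈ J, X.card = c) ∧
        J.card = m ∧ (∃ d : ℕ, ∀ i : Fin n, (J.filter (fun X => i ∈ X)).card = d) ∧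
        (Finset.shadow J).card = k} f ∧
      |(f : ℝ) * (x - c + 1) / (c * m) - 1| ≤ ε := by
  obtain ⟨L, hL⟩ := exists_nat_ge (max 2 (6 / ε))
  have hL2 : 2 ≤ L := by exact_mod_cast (le_max_left _ _).trans hL
  have hL' : (2 : ℝ) ≤ L := by exact_mod_cast hL2
  have hLε : 6 / (L : ℝ) ≤ ε := by
    have := (le_max_right _ _).trans hL
    rw [div_le_iff₀ hε] at this
    rw [div_le_iff₀ (by linarith)]; linarith
  set K1 := 32 * L ^ 3 + 1 with hK1
  refine ⟨8 * L * K1 + 2 * L * (K1 + 2) ^ 2 + K1 + 4 * L, ?_⟩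
  intro n c m d x hm1 hm hdm hd1 hd2 hx hK
  have hc2 : 2 ≤ c := by
    by_contra h
    have : c - 1 = 0 := by omega
    rw [this, Nat.choose_zero_right] at hd1 hd2
    omega
  obtain ⟨j, rfl⟩ : ∃ j, c = j + 2 := ⟨c - 2, by omega⟩
  obtain ⟨t, rfl⟩ : ∃ t, x = j + 2 + t := ⟨x - (j + 2), by omega⟩
  rw [show j + 2 - 1 = j + 1 by omega] at hd1 hd2
  rw [show j + 2 + t - 1 = j + 1 + t by omega] at hd1
  have hcn : j + 2 ≤ n := by
    by_contra h
    rw [Nat.choose_eq_zero_of_lt (by omega)] at hm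
    omega
  have hxn : j + 2 + t ≤ n := by
    obtain ⟨N, rfl⟩ : ∃ N, n = N + 1 := ⟨n - 1, by omega⟩
    have h1 : d * (N + 1) ≤ N.choose (j + 1) * (N + 1) := by
      rw [← hdm, mul_comm (N.choose (j + 1)), Nat.add_one_mul_choose_eq, mul_comm]
      exact Nat.mul_le_mul_right _ hm
    have h2 : d ≤ N.choose (j + 1) := Nat.le_of_mul_le_mul_right h1 (by omega)
    by_contra h
    have h3 : (N + 1).choose (j + 1) ≤ (j + 1 + t).choose (j + 1) :=
      Nat.choose_le_choose _ (by omega)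
    have h4 : 0 < N.choose j := Nat.choose_pos (by omega)
    rw [Nat.choose_succ_succ'] at h3
    omega
  have hex : ∃ J : Finset (Finset (Fin n)), (∀ X ∈ J, #X = j + 2) ∧ #J = m ∧
      (∀ v, #{X ∈ J | v ∈ X} = d) ∧ (#(shadow J) : ℝ) * (t + 1) ≤ (1 + 6 / L) * (n * d) := by
    by_cases hj : K1 ≤ j + 2
    · exact upperA L n (j + 1) t m d hL2 (by omega) (by omega) (by omega) hm hm1 hdm hd1
    · have hK' := hK.resolve_left (by omega)
      have p1 : 2 * L * (j + 2) ^ 2 ≤ 2 * L * (K1 + 2) ^ 2 := by gcongr; omega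
      have p0 : 1 ≤ 4 * L * K1 := Nat.mul_pos (by omega) (by omega)
      have p2 : 8 * L * K1 = 2 * (4 * L * K1) := by ring
      refine upperB L (4 * L * K1) n j t m d (by omega) (by gcongr; omega) p0 (by omega)
        (by omega) (by omega) (le_trans ?_ hK') hdm hd1
        (by rw [show j + t + 2 = j + 2 + t by ring]; exact hd2.le)
      calc 4 * L * K1 * (j + t + 3) ≤ 4 * L * K1 * (2 * (j + 2 + t)) := by gcongr; omega
        _ = (8 * L * K1) * (j + 2 + t) := by ring
        _ ≤ _ := by gcongr; omega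
  obtain ⟨J0, g1, g2, g3, g4⟩ := hex
  set S := {k : ℕ | ∃ J : Finset (Finset (Fin n)), (∀ X ∈ J, X.card = j + 2) ∧
        J.card = m ∧ (∃ d : ℕ, ∀ i : Fin n, (J.filter (fun X => i ∈ X)).card = d) ∧
        (Finset.shadow J).card = k} with hS
  have hJ0 : #(shadow J0) ∈ S := ⟨J0, g1, g2, ⟨d, g3⟩, rfl⟩
  refine ⟨sInf S, ⟨Nat.sInf_mem ⟨_, hJ0⟩, fun k hk => Nat.sInf_le hk⟩, ?_⟩
  obtain ⟨J, k1, k2, ⟨d', k3⟩, k4⟩ := Nat.sInf_mem ⟨_, hJ0⟩
  have hdd : d' = d := by
    have := sum_deg_nat J (j + 2) k1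
    rw [sum_congr rfl (fun v _ => k3 v), sum_const, card_univ, Fintype.card_fin, smul_eq_mul, k2,
      hdm, mul_comm] at this
    exact Nat.eq_of_mul_eq_mul_right (by omega) this
  subst hdd
  have hlow := lower (k := j + 1) (by omega) hxn J k1 k3 hd2.le
  rw [k4, show j + 2 + t + 1 - (j + 1) = t + 2 by omega] at hlow
  have hlow' : (n : ℝ) * d' ≤ (sInf S : ℕ) * (t + 2) := by exact_mod_cast hlow
  have hup : ((sInf S : ℕ) : ℝ) ≤ #(shadow J0) := by exact_mod_cast Nat.sInf_le hJ0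
  have hdm' : ((j + 2 : ℕ) : ℝ) * m = n * d' := by
    rw [mul_comm (n : ℝ)]; exact_mod_cast hdm
  have hpos : (0 : ℝ) < n * d' := by
    rw [← hdm']
    have : (0 : ℝ) < m := by exact_mod_cast hm1
    positivity
  have hxc : ((j + 2 + t : ℕ) : ℝ) - (j + 2 : ℕ) + 1 = t + 1 := by push_cast; ring
  rw [hxc, hdm', abs_le]
  have htL : (L : ℝ) ≤ t := by exact_mod_cast (by omega : L ≤ t)
  set f : ℝ := ((sInf S : ℕ) : ℝ) with hf
  have hf0 : 0 ≤ f := by positivity
  constructor
  · have h1 : 1 - ε ≤ f * (t + 1) / (n * d') := by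
      rw [le_div_iff₀ hpos]
      have h2 : (1 - ε) * (t + 2) ≤ t + 1 := by
        have h3 : 6 ≤ ε * L := by rwa [div_le_iff₀ (by linarith only [hL'])] at hLε
        nlinarith only [hε, hL', htL, h3]
      have h4 : (0 : ℝ) < (t : ℝ) + 2 := by positivity
      apply le_of_mul_le_mul_right _ h4
      calc (1 - ε) * (n * d') * (t + 2) = ((1 - ε) * (t + 2)) * (n * d') := by ring
        _ ≤ (t + 1) * (n * d') := by gcongr
        _ ≤ (t + 1) * (f * (t + 2)) := by gcongr
        _ = _ := by ring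
    linarith only [h1]
  · have h1 : f * (t + 1) / (n * d') ≤ 1 + ε := by
      rw [div_le_iff₀ hpos]
      calc f * (t + 1) ≤ #(shadow J0) * (t + 1) := by gcongr
        _ ≤ (1 + 6 / L) * (n * d') := g4
        _ ≤ _ := by gcongr
    linarith only [h1]

end Pool.Agent.P.MP_4f3dfd_co.Asy
end

-- part Pool.Agent.P.MP_4f3dfd_co.BFill
section

set_option autoImplicit false

namespace Pool.Agent.P.MP_4f3dfd_co.Off

open Finset Pool.Agent.P.MP_4f3dfd_co.Asy

variable {V : Type*} [DecidableEq V]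

theorem shadow_union_le (J E : Finset (Finset V)) (c : ℕ) (hE : ∀ X ∈ E, #X = c) :
    #(shadow (J ∪ E)) ≤ #(shadow J) + c * #E := by
  have h3 := shadow_mul_le E c 1 hE (fun Z hZ => by
    obtain ⟨X, hX, hZX, -⟩ := mem_shadow_iff_exists_mem_card_add_one.1 hZ
    exact card_pos.2 ⟨X, mem_filter.2 ⟨hX, hZX⟩⟩)
  have h1 : shadow (J ∪ E) ⊆ shadow J ∪ shadow E := by
    intro Z hZ
    obtain ⟨X, hX, a, ha, rfl⟩ := mem_shadow_iff.1 hZ
    rcases mem_union.1 hX with h | h
    · exact mem_union_left _ (erase_mem_shadow h ha)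
    · exact mem_union_right _ (erase_mem_shadow h ha)
  have h4 := (card_le_card h1).trans (card_union_le _ _)
  rw [mul_one, mul_comm] at h3
  omega

/-- Completion of a family whose degrees are constant on a set R. -/
theorem complete [Fintype V] (c d M D : ℕ) (J : Finset (Finset V)) (R : Finset V)
    (hJ : ∀ X ∈ J, #X = c) (hdeg : ∀ v, #{X ∈ J | v ∈ X} ≤ d)
    (hco : ∀ v, d ≤ #{X ∈ J | v ∈ X} + M) (hD : ∀ v ∈ R, #{X ∈ J | v ∈ X} = D) (hDd : D ≤ d)
    (hM : c * (#J + M) = d * Fintype.card V) (h2 : 2 * M ≤ (d - D) * #R)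
    (hch : ∀ s, (d - D) * #R ≤ M * (s + 1) → M * s ≤ (d - D) * #R + M →
      M ≤ (#R).choose s ∧ ∀ X ∈ J, #(X ∩ R) ≠ s) :
    ∃ J' : Finset (Finset V), (∀ X ∈ J', #X = c) ∧ #J' = #J + M ∧
      (∀ v, #{X ∈ J' | v ∈ X} = d) ∧ #(shadow J') ≤ #(shadow J) + c * M := by
  obtain ⟨Y, y1, y2, a, y3⟩ := exists_fill M (fun v => d - #{X ∈ J | v ∈ X}) Rᶜ
    (fun p _ => by have := hco p; omega)
  obtain ⟨δ, rfl⟩ : ∃ δ, d = D + δ := ⟨d - D, by omega⟩
  rw [Nat.add_sub_cancel_left] at h2 hch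
  have hY : ∑ j, #(Y j) + δ * #R = c * M := by
    rw [← sum_deg_idx Rᶜ Y y1, sum_congr rfl y2]
    have e1 := sum_deg_nat J c hJ
    rw [← sum_add_sum_compl R, sum_congr rfl hD, sum_const, smul_eq_mul] at e1
    have e2 : ∑ v ∈ Rᶜ, (D + δ - #{X ∈ J | v ∈ X}) + ∑ v ∈ Rᶜ, #{X ∈ J | v ∈ X} =
        (D + δ) * #Rᶜ := by
      rw [← sum_add_distrib, sum_congr rfl (fun v _ => Nat.sub_add_cancel (hdeg v)), sum_const,
        smul_eq_mul, mul_comm]
    have e3 : #R * D + δ * #R + (D + δ) * #Rᶜ = (D + δ) * Fintype.card V := by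
      rw [← card_add_card_compl R]; ring
    rw [mul_add] at hM
    omega
  have lo : M * a ≤ ∑ j, #(Y j) := by
    have := card_nsmul_le_sum univ (fun j => #(Y j)) a
      (fun j _ => by rcases y3 j with h | h <;> omega)
    simpa using this
  have hi : ∑ j, #(Y j) ≤ M * (a + 1) := by
    have := sum_le_card_nsmul univ (fun j => #(Y j)) (a + 1)
      (fun j _ => by rcases y3 j with h | h <;> omega)
    simpa using this
  have hac : ∀ _ : Fin M, a + 2 ≤ c := fun j => by
    have hM0 : 0 < M := j.pos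
    apply Nat.le_of_mul_le_mul_left _ hM0
    rw [mul_add, mul_comm M c]; omega
  have hw : ∀ j, M ≤ (#R).choose (c - #(Y j)) ∧ ∀ X ∈ J, #(X ∩ R) ≠ c - #(Y j) := fun j => by
    have := hac j
    obtain ⟨b, rfl⟩ : ∃ b, c = a + 2 + b := ⟨c - (a + 2), by omega⟩
    apply hch
    · rcases y3 j with h | h <;> rw [h]
      · rw [show a + 2 + b - a + 1 = b + 3 by omega]; nlinarith
      · rw [show a + 2 + b - (a + 1) + 1 = b + 2 by omega]; nlinarith
    · rcases y3 j with h | h <;> rw [h]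
      · rw [show a + 2 + b - a = b + 2 by omega]; nlinarith
      · rw [show a + 2 + b - (a + 1) = b + 1 by omega]; nlinarith
  obtain ⟨S, s1, s2, s3⟩ := exists_regular_idx M δ R (fun j => c - #(Y j)) (fun j => (hw j).1)
    (by
      have : ∑ j, (c - #(Y j)) + ∑ j, #(Y j) = c * M := by
        rw [← sum_add_distrib, sum_congr rfl (fun j _ => Nat.sub_add_cancel (by
          have := hac j
          rcases y3 j with h | h <;> omega))]
        simp [mul_comm]
      omega)
  have hdisj : ∀ j, Disjoint (S j) (Y j) := fun j =>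
    disjoint_left.2 fun p h1 h2 => mem_compl.1 (y1 j h2) ((s2 j).1 h1)
  have hint : ∀ j, (S j ∪ Y j) ∩ R = S j := fun j => by
    ext p
    simp only [mem_inter, mem_union]
    exact ⟨fun h => h.1.resolve_right fun h' => mem_compl.1 (y1 j h') h.2,
      fun h => ⟨Or.inl h, (s2 j).1 h⟩⟩
  have hinj : Function.Injective fun j => S j ∪ Y j := fun i j h =>
    s1 (by rw [← hint i, ← hint j]; exact congrArg (· ∩ R) h)
  set E : Finset (Finset V) := univ.image fun j => S j ∪ Y j with hE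
  have hEc : ∀ X ∈ E, #X = c := by
    intro X hX
    obtain ⟨j, -, rfl⟩ := mem_image.1 hX
    rw [card_union_of_disjoint (hdisj j), (s2 j).2]
    have := hac j
    rcases y3 j with h | h <;> omega
  have hEM : #E = M := by rw [hE, card_image_of_injective _ hinj]; simp
  have hJE : Disjoint J E := by
    rw [disjoint_right]
    intro X hX hXJ
    obtain ⟨j, -, rfl⟩ := mem_image.1 hX
    exact (hw j).2 _ hXJ (by rw [hint, (s2 j).2])
  refine ⟨J ∪ E, fun X hX => (mem_union.1 hX).elim (hJ X) (hEc X),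
    by rw [card_union_of_disjoint hJE, hEM], fun v => ?_, hEM ▸ shadow_union_le J E c hEc⟩
  rw [filter_union, card_union_of_disjoint (disjoint_filter_filter hJE), hE, filter_image,
    card_image_of_injective _ hinj]
  by_cases hv : v ∈ R
  · rw [hD v hv, ← s3 v hv]
    congr 2
    ext j
    simp only [mem_filter, mem_univ, true_and, mem_union]
    exact ⟨fun h => h.resolve_right fun h' => mem_compl.1 (y1 j h') hv, Or.inl⟩
  · have : #{j | v ∈ S j ∪ Y j} = D + δ - #{X ∈ J | v ∈ X} := by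
      rw [← y2 v (mem_compl.2 hv)]
      congr 1
      ext j
      simp only [mem_filter, mem_univ, true_and, mem_union]
      exact ⟨fun h => h.resolve_left fun h' => hv ((s2 j).1 h'), Or.inr⟩
    rw [this]
    have := hdeg v
    omega

/-- Sets of equal size with almost equal degrees. -/
theorem exists_balanced (N w : ℕ) (P : Finset V) (hw : w ≤ #P) :
    ∃ W : Fin N → Finset V, (∀ j, W j ⊆ P ∧ #(W j) = w) ∧
      ∀ p ∈ P, #P * #{j | p ∈ W j} ≤ N * w + #P ∧ N * w ≤ #P * (#{j | p ∈ W j} + 1) := by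
  rcases P.eq_empty_or_nonempty with rfl | hP
  · exact ⟨fun _ => ∅, fun _ => ⟨subset_rfl, by simpa using hw.antisymm' (by simp)⟩, by simp⟩
  have h0 : 0 < #P := card_pos.2 hP
  have e1 := Nat.div_add_mod (N * w) #P
  have e2 := Nat.mod_lt (N * w) h0
  generalize N * w / #P = a at e1
  generalize N * w % #P = r at e1 e2
  obtain ⟨I, hI, hI'⟩ := exists_subset_card_eq e2.le
  have e3 : N * w ≤ #P * N := by rw [mul_comm]; exact Nat.mul_le_mul_right _ hw
  obtain ⟨Y, y1, y2, b, y3⟩ := exists_fill N (fun p => a + if p ∈ I then 1 else 0) P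
    (fun p _ => by
      split_ifs with h
      · have : 0 < r := hI' ▸ card_pos.2 ⟨p, h⟩
        exact Nat.lt_of_mul_lt_mul_left (a := #P) (by omega)
      · exact Nat.le_of_mul_le_mul_left (by rw [add_zero]; omega) h0)
  have e4 : ∑ j, #(Y j) = ∑ _j : Fin N, w := by
    rw [← sum_deg_idx P Y y1, sum_congr rfl y2, sum_add_distrib, ← card_filter,
      filter_mem_eq_inter, inter_eq_right.2 hI, hI']
    simpa using e1
  refine ⟨Y, fun j => ⟨y1 j, ?_⟩, fun p hp => ?_⟩
  · by_cases h : w ≤ b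
    · exact ((sum_eq_sum_iff_of_le fun j _ => by rcases y3 j with h | h <;> omega).1 e4.symm j
        (mem_univ j)).symm
    · exact (sum_eq_sum_iff_of_le fun j _ => by rcases y3 j with h | h <;> omega).1 e4 j
        (mem_univ j)
  · rw [y2 p hp]
    split_ifs <;> constructor <;> nlinarith

/-- A union of disjoint cliques which is regular on a set of blocks. -/
theorem exists_cliques [Fintype V] (k i N n₂ τ s w q : ℕ)
    (h1 : (i + 1) * n₂ + q = Fintype.card V) (hw : w ≤ q) (hy : (i + 1) * τ + w = k + 1 + i)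
    (hN : N ≤ n₂.choose τ) (hs : N * τ = s * n₂) :
    ∃ (J : Finset (Finset V)) (R : Finset V), (∀ X ∈ J, #X = k + 1) ∧
      #J = N * (k + 1 + i).choose (k + 1) ∧ #R = (i + 1) * n₂ ∧
      (∀ v ∈ R, #{X ∈ J | v ∈ X} = s * (k + i).choose k) ∧
      (∀ v ∉ R, ∃ t, q * t ≤ N * w + q ∧ N * w ≤ q * (t + 1) ∧
        #{X ∈ J | v ∈ X} = t * (k + i).choose k) ∧
      (∀ X ∈ J, #(X ∩ R) ≤ (i + 1) * τ) ∧ #(shadow J) ≤ N * (k + 1 + i).choose k := by
  obtain ⟨ι⟩ : Nonempty (Fin n₂ × Fin (i + 1) ↪ V) :=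
    Function.Embedding.nonempty_of_card_le (by simp [mul_comm n₂]; omega)
  let bl : Finset (Fin n₂) → Finset V := fun S => (S ×ˢ univ).map ι
  have hbl : ∀ S, #(bl S) = (i + 1) * #S := fun S => by simp [bl, mul_comm]
  have hmem : ∀ S p, ι p ∈ bl S ↔ p.1 ∈ S := fun S p => by simp [bl]
  have hsub : ∀ S, bl S ⊆ bl univ := fun S => map_subset_map.2 (by simp)
  have hR : #(bl univ) = (i + 1) * n₂ := by simp [hbl]
  have hq : #(bl univ)ᶜ = q := by rw [card_compl, hR]; omega
  obtain ⟨S, s1, s2, s3⟩ := exists_regular_idx N s (univ : Finset (Fin n₂)) (fun _ => τ)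
    (fun _ => by simpa using hN) (by simpa using hs)
  obtain ⟨W, w1, w2⟩ := exists_balanced N w (bl univ)ᶜ (hq ▸ hw)
  have hW : ∀ j v, v ∈ bl univ → v ∉ W j := fun j v h h' => mem_compl.1 ((w1 j).1 h') h
  let Z : Fin N → Finset V := fun j => bl (S j) ∪ W j
  have hZ : ∀ j, #(Z j) = k + 1 + i := fun j => by
    rw [card_union_of_disjoint (disjoint_left.2 fun v h => hW j v (hsub _ h)), hbl, (s2 j).2,
      (w1 j).2, hy]
  have hdis : ∀ j l, j ≠ l → Disjoint (powersetCard (k + 1) (Z j)) (powersetCard (k + 1) (Z l)) := by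
    intro j l hjl
    obtain ⟨p, hp1, hp2⟩ : ∃ p ∈ S j, p ∉ S l := by
      by_contra hh
      push Not at hh
      exact hjl (s1 (eq_of_subset_of_card_le hh (by rw [(s2 j).2, (s2 l).2])))
    rw [disjoint_left]
    intro X hj hl
    rw [mem_powersetCard] at hj hl
    have a1 : bl {p} ⊆ Z j := (map_subset_map.2
      (product_subset_product_left (singleton_subset_iff.2 hp1))).trans subset_union_left
    have a2 : Disjoint X (bl {p}) := by
      rw [disjoint_right]
      intro v hv hX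
      obtain ⟨z, hz, rfl⟩ := mem_map.1 hv
      rcases mem_union.1 (hl.1 hX) with h | h
      · rw [hmem] at h hv
        exact hp2 (mem_singleton.1 hv ▸ h)
      · exact hW l _ (hsub _ hv) h
    have a3 := card_le_card (union_subset hj.1 a1)
    rw [card_union_of_disjoint a2, hj.2, hbl, hZ, card_singleton] at a3
    omega
  have hdeg : ∀ v, #{X ∈ univ.biUnion fun j => powersetCard (k + 1) (Z j) | v ∈ X} =
      #{j | v ∈ Z j} * (k + i).choose k := by
    intro v
    rw [filter_biUnion, card_biUnion fun j _ l _ h => disjoint_filter_filter (hdis j l h),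
      ← smul_eq_mul, ← sum_const, sum_filter]
    refine sum_congr rfl fun j _ => ?_
    split_ifs with h
    · rw [card_through _ _ h, hZ, show k + 1 + i - 1 = k + i by omega]
    · rw [card_eq_zero, filter_eq_empty_iff]
      exact fun X hX hv => h ((mem_powersetCard.1 hX).1 hv)
  refine ⟨univ.biUnion fun j => powersetCard (k + 1) (Z j), bl univ, fun X hX => ?_, ?_, hR,
    fun v hv => ?_, fun v hv => ?_, fun X hX => ?_, ?_⟩
  · obtain ⟨j, -, hj⟩ := mem_biUnion.1 hX
    exact (mem_powersetCard.1 hj).2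
  · rw [card_biUnion fun j _ l _ h => hdis j l h]
    simp [hZ]
  · obtain ⟨z, -, rfl⟩ := mem_map.1 hv
    rw [hdeg, ← s3 z.1 (mem_univ _)]
    congr 2
    ext j
    simp only [mem_filter, mem_univ, true_and, Z, mem_union, hmem]
    exact ⟨fun h => h.resolve_right (hW j _ hv), Or.inl⟩
  · have e : #{j | v ∈ Z j} = #{j | v ∈ W j} := by
      congr 1
      ext j
      simp only [mem_filter, mem_univ, true_and, Z, mem_union]
      exact ⟨fun h => h.resolve_left fun h' => hv (hsub _ h'), Or.inr⟩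
    have := w2 v (mem_compl.2 hv)
    rw [hq] at this
    exact ⟨_, this.1, this.2, by rw [hdeg, e]⟩
  · obtain ⟨j, -, hj⟩ := mem_biUnion.1 hX
    rw [← (s2 j).2, ← hbl]
    refine card_le_card fun v hv => ?_
    rw [mem_inter] at hv
    exact (mem_union.1 ((mem_powersetCard.1 hj).1 hv.1)).resolve_right (hW j v hv.2)
  · have : shadow (univ.biUnion fun j => powersetCard (k + 1) (Z j)) ⊆
        univ.biUnion fun j => powersetCard k (Z j) := by
      intro Y hY
      obtain ⟨X, hX, hYX, hc⟩ := mem_shadow_iff_exists_mem_card_add_one.1 hY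
      obtain ⟨j, -, hj⟩ := mem_biUnion.1 hX
      rw [mem_powersetCard] at hj
      exact mem_biUnion.2 ⟨j, mem_univ _, mem_powersetCard.2 ⟨hYX.trans hj.1, by omega⟩⟩
    refine (card_le_card this).trans (card_biUnion_le.trans ?_)
    simp [hZ]

end Pool.Agent.P.MP_4f3dfd_co.Off
end

-- part Pool.Agent.P.MP_4f3dfd_co.AFinal
section

set_option autoImplicit false

namespace Pool.Agent.P.MP_4f3dfd_co.Asy

open Finset Filter Topology

/-- The link bound. -/
theorem link_lower {n k d g : ℕ} (J : Finset (Finset (Fin n)))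
    (hJ : ∀ X ∈ J, #X = k + 1) (hd : ∀ v, #{X ∈ J | v ∈ X} = d)
    (hg : ∀ L : Finset (Finset (Fin n)), (∀ X ∈ L, #X = k) → #L = d → g ≤ #(shadow L)) :
    n * g ≤ k * #(shadow J) := by
  have hS : ∀ Y ∈ shadow J, #Y = k := by
    intro Y hY
    obtain ⟨Z, hZ, -, hc⟩ := mem_shadow_iff_exists_mem_card_add_one.1 hY
    have := hJ Z hZ
    omega
  have key : ∀ v, g ≤ #{Y ∈ shadow J | v ∈ Y} := by
    intro v
    set L : Finset (Finset (Fin n)) := {X ∈ J | v ∈ X}.image (·.erase v) with hL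
    have hLc : #L = d := by
      rw [hL, card_image_of_injOn, hd]
      intro X hX Y hY h
      rw [mem_coe, mem_filter] at hX hY
      rw [← insert_erase hX.2, ← insert_erase hY.2]
      exact congrArg _ h
    have hLk : ∀ X ∈ L, #X = k := by
      intro X hX
      obtain ⟨Z, hZ, rfl⟩ := mem_image.1 hX
      rw [mem_filter] at hZ
      rw [card_erase_of_mem hZ.2, hJ Z hZ.1]; rfl
    refine (hg L hLk hLc).trans ?_
    have hmem : ∀ Y ∈ shadow L, v ∉ Y ∧ insert v Y ∈ shadow J := by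
      intro Y hY
      obtain ⟨X, hX, a, ha, rfl⟩ := mem_shadow_iff.1 hY
      obtain ⟨Z, hZ, rfl⟩ := mem_image.1 hX
      rw [mem_filter] at hZ
      rw [mem_erase] at ha
      refine ⟨by simp, ?_⟩
      have : insert v ((Z.erase v).erase a) = Z.erase a := by
        rw [erase_right_comm, insert_erase (mem_erase.2 ⟨ha.1.symm, hZ.2⟩)]
      rw [this]
      exact erase_mem_shadow hZ.1 ha.2
    apply card_le_card_of_injOn (insert v)
    · intro Y hY
      rw [mem_coe, mem_filter]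
      exact ⟨(hmem Y hY).2, mem_insert_self _ _⟩
    · intro Y hY Z hZ h
      rw [← erase_insert (hmem Y hY).1, ← erase_insert (hmem Z hZ).1]
      exact congrArg (·.erase v) h
  have hsum := sum_le_sum (s := (univ : Finset (Fin n))) (fun v _ => key v)
  rwa [sum_deg_nat _ k hS, sum_const, card_univ, Fintype.card_fin, smul_eq_mul] at hsum

theorem x_le {n k t m d : ℕ} (hk : 1 ≤ k) (hm1 : 1 ≤ m) (hm : m ≤ n.choose (k + 1))
    (hdm : (k + 1) * m = d * n) (hd1 : (k + t).choose k ≤ d) : k + 1 + t ≤ n := by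
  have hcn : k + 1 ≤ n := by
    by_contra h
    rw [Nat.choose_eq_zero_of_lt (by omega)] at hm
    omega
  obtain ⟨j, rfl⟩ : ∃ j, k = j + 1 := ⟨k - 1, by omega⟩
  obtain ⟨N, rfl⟩ : ∃ N, n = N + 1 := ⟨n - 1, by omega⟩
  have h1 : d * (N + 1) ≤ N.choose (j + 1) * (N + 1) := by
    rw [← hdm, mul_comm (N.choose (j + 1)), Nat.add_one_mul_choose_eq, mul_comm]
    exact Nat.mul_le_mul_right _ hm
  have h2 : d ≤ N.choose (j + 1) := Nat.le_of_mul_le_mul_right h1 (by omega)
  by_contra h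
  have h3 : (N + 1).choose (j + 1) ≤ (j + 1 + t).choose (j + 1) :=
    Nat.choose_le_choose _ (by omega)
  have h4 : 0 < N.choose j := Nat.choose_pos (by omega)
  rw [Nat.choose_succ_succ'] at h3
  omega

theorem poly_le_exp (T : ℕ) : ∃ K : ℕ, ∀ k t : ℕ, K ≤ k → t ≤ T →
    (k + 1 + t).choose k ≤ 2 ^ ((k + 1) / 4) := by
  have h := tendsto_pow_const_div_const_pow_of_one_lt (T + 1) (r := (2 : ℝ)) (by norm_num)
  have h2 := h.eventually (gt_mem_nhds (show (0 : ℝ) < 1 / 8 ^ (T + 1) by positivity))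
  obtain ⟨U, hU⟩ := eventually_atTop.1 h2
  refine ⟨4 * (U + T + 3), fun k t hk ht => ?_⟩
  obtain ⟨u, hu⟩ : ∃ u, u = (k + 1) / 4 := ⟨_, rfl⟩
  rw [← hu]
  have h3 := hU u (by omega)
  rw [div_lt_div_iff₀ (by positivity) (by positivity), one_mul, ← mul_pow] at h3
  have h4 : (u * 8) ^ (T + 1) ≤ 2 ^ u := by exact_mod_cast h3.le
  calc (k + 1 + t).choose k = (k + 1 + t).choose (t + 1) :=
        Nat.choose_symm_of_eq_add (by omega)
    _ ≤ (k + 1 + t) ^ (t + 1) := Nat.choose_le_pow _ _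
    _ ≤ (u * 8) ^ (t + 1) := Nat.pow_le_pow_left (by omega) _
    _ ≤ (u * 8) ^ (T + 1) := Nat.pow_le_pow_right (by omega) (by omega)
    _ ≤ _ := h4

/-- The third range in ratio form. -/
theorem upperC' (L T : ℕ) : ∃ K : ℕ, ∀ n k t m d : ℕ, K ≤ k + 1 → t ≤ T →
    K * (k + 1 + t) ≤ n → (k + 1) * m = d * n → d ≤ (k + 1 + t).choose k →
    ∀ A : Finset (Finset (Fin n)), (∀ X ∈ A, #X = k) → #A = d →
    ∃ J : Finset (Finset (Fin n)), (∀ X ∈ J, #X = k + 1) ∧ #J = m ∧
      (∀ v, #{X ∈ J | v ∈ X} = d) ∧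
      L * (k * #(shadow J)) ≤ (L + 2) * (n * #(shadow A)) := by
  obtain ⟨K1, hK1⟩ := poly_le_exp T
  refine ⟨K1 + 40 + 39 * (L * (T + 2)) + L * (T + 2) * (2 * T + 3), ?_⟩
  intro n k t m d hk ht hn hdm hd A hA hAd
  obtain ⟨P, hP⟩ : ∃ P, P = L * (T + 2) := ⟨_, rfl⟩
  rw [← hP] at hk hn
  obtain ⟨b, hb⟩ : ∃ b, b = k + 2 * t + 3 := ⟨_, rfl⟩
  have hb3 : b ≤ 3 * (k + 1 + t) := by omega
  have h12 : 12 ≤ n / b := by
    rw [Nat.le_div_iff_mul_le (by omega)]
    calc 12 * b ≤ 40 * (k + 1 + t) := by omega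
      _ ≤ _ := le_trans (Nat.mul_le_mul_right _ (by omega)) hn
  obtain ⟨q, hq⟩ : ∃ q, n / b = q + 12 := ⟨n / b - 12, by omega⟩
  have hq1 : (q + 12) * b ≤ n := by rw [← hq]; exact Nat.div_mul_le_self _ _
  have hq2 : n < b * (q + 12 + 1) := by rw [← hq]; exact Nat.lt_mul_div_succ n (by omega)
  obtain ⟨J, g1, g2, g3, g4⟩ := upperC n k t m d q (by omega) hdm (hb ▸ hq1) hd
    (hd.trans (hK1 k t (by omega) ht)) A hA hAd
  refine ⟨J, g1, g2, g3, ?_⟩
  have hxn : k + 1 + t ≤ n := le_trans (Nat.le_mul_of_pos_left _ (by omega)) hn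
  have hr := kk_ratio hxn A hA (hAd ▸ hd)
  rw [hAd, show k + 1 + t + 1 - k = t + 2 by omega] at hr
  obtain ⟨w, hw⟩ : ∃ w, n = (k + 1) * q + w := ⟨n - (k + 1) * q, by
    have : (k + 1) * q ≤ n := by rw [hb] at hq1; nlinarith
    omega⟩
  rw [show n - (k + 1) * q = w by omega] at g4
  set g := #(shadow A)
  have e1 : q + w ≤ q * (2 * t + 3) + 13 * b := by
    have : b * (q + 12 + 1) = k * q + q * (2 * t + 3) + 13 * b := by rw [hb]; ring
    have h2 : (k + 1) * q = k * q + q := by ring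
    omega
  have e2 : P * (q * (2 * t + 3)) ≤ n := by
    calc P * (q * (2 * t + 3)) = (P * (2 * t + 3)) * q := by ring
      _ ≤ (P * (2 * T + 3)) * q := by gcongr
      _ ≤ (k + 1) * q := Nat.mul_le_mul_right _ (by omega)
      _ ≤ n := by omega
  have e3 : P * (13 * b) ≤ n := by
    calc P * (13 * b) ≤ P * (13 * (3 * (k + 1 + t))) := by gcongr
      _ = (39 * P) * (k + 1 + t) := by ring
      _ ≤ _ := le_trans (Nat.mul_le_mul_right _ (by omega)) hn
  have e4 : P * (q + w) ≤ 2 * n := by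
    have := Nat.mul_le_mul_left P e1
    rw [mul_add P (q * (2 * t + 3))] at this
    omega
  have e5 : k * q ≤ n := by
    have h2 : (k + 1) * q = k * q + q := by ring
    omega
  calc L * (k * #(shadow J)) ≤ L * (k * (q * (g + d) + d * w)) := by gcongr
    _ = L * ((k * q) * g) + L * (q + w) * (d * k) := by ring
    _ ≤ L * (n * g) + L * (q + w) * (g * (T + 2)) :=
        Nat.add_le_add (Nat.mul_le_mul_left _ (Nat.mul_le_mul_right _ e5))
          (Nat.mul_le_mul_left _ (hr.trans (Nat.mul_le_mul_left _ (by omega))))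
    _ = L * (n * g) + (P * (q + w)) * g := by rw [hP]; ring
    _ ≤ L * (n * g) + (2 * n) * g := by gcongr
    _ = _ := by ring

theorem final (ε : ℝ) (hε : 0 < ε) : ∃ K : ℕ, ∀ n c m d x : ℕ, 1 ≤ m → m ≤ n.choose c →
    c * m = d * n → (x - 1).choose (c - 1) ≤ d → d < x.choose (c - 1) →
    ((K ≤ c ∧ c + K ≤ x) ∨ (c + K ≤ x ∧ K * x ≤ n) ∨ (K ≤ c ∧ K * x ≤ n)) →
    ∃ f g : ℕ, IsLeast {k : ℕ | ∃ J : Finset (Finset (Fin n)), (∀ X ∈ J, X.card = c) ∧
        J.card = m ∧ (∃ d : ℕ, ∀ i : Fin n, (J.filter (fun X => i ∈ X)).card = d) ∧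
        (Finset.shadow J).card = k} f ∧
      IsLeast {k : ℕ | ∃ A : Finset (Finset (Fin n)), (∀ X ∈ A, X.card = c - 1) ∧
        A.card = d ∧ (Finset.shadow A).card = k} g ∧
      n * g ≤ (c - 1) * f ∧ ((c : ℝ) - 1) * f ≤ (1 + ε) * (n * g) ∧
      (c + K ≤ x → |(f : ℝ) * (x - c + 1) / (c * m) - 1| ≤ ε) := by
  obtain ⟨L, hL⟩ := exists_nat_ge (max 1 (3 / ε))
  have hL1 : (1 : ℝ) ≤ L := (le_max_left _ _).trans hL
  have hLp : (0 : ℝ) < L := by linarith
  have hLε : 3 / (L : ℝ) ≤ ε := by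
    have := (le_max_right _ _).trans hL
    rw [div_le_iff₀ hε] at this
    rw [div_le_iff₀ hLp]; linarith
  obtain ⟨K0, hK0⟩ := asymptotic (1 / L) (by positivity)
  obtain ⟨K1, hK1⟩ := upperC' L (K0 + L)
  refine ⟨K0 + L + K1, ?_⟩
  intro n c m d x hm1 hm hdm hd1 hd2 hK
  have hc2 : 2 ≤ c := by
    by_contra h
    have : c - 1 = 0 := by omega
    rw [this, Nat.choose_zero_right] at hd1 hd2
    omega
  have hn0 : 0 < n := by
    rcases Nat.eq_zero_or_pos n with rfl | h
    · rw [Nat.choose_eq_zero_of_lt (by omega)] at hm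
      omega
    · exact h
  have hd0 : 0 < d := by
    rcases Nat.eq_zero_or_pos d with rfl | h
    · have : 0 < c * m := Nat.mul_pos (by omega) hm1
      omega
    · exact h
  have hcx : c ≤ x := by
    by_contra h
    rcases (show x = c - 1 ∨ x < c - 1 by omega) with e | e
    · rw [e, Nat.choose_self] at hd2
      omega
    · rw [Nat.choose_eq_zero_of_lt e] at hd2
      omega
  obtain ⟨k, rfl⟩ : ∃ k, c = k + 1 := ⟨c - 1, by omega⟩
  obtain ⟨t, rfl⟩ : ∃ t, x = k + 1 + t := ⟨x - (k + 1), by omega⟩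
  have hxn : k + 1 + t ≤ n := x_le (by omega) hm1 hm hdm
    (by rwa [show k + 1 + t - 1 = k + t by omega, Nat.add_sub_cancel] at hd1)
  simp only [Nat.add_sub_cancel] at hd2 ⊢
  set G := {s : ℕ | ∃ A : Finset (Finset (Fin n)), (∀ X ∈ A, X.card = k) ∧
        A.card = d ∧ (Finset.shadow A).card = s} with hG
  have hGne : G.Nonempty := by
    obtain ⟨C, hC, hc⟩ := exists_initSeg n k d (hd2.le.trans (Nat.choose_le_choose k hxn))
    exact ⟨_, C, fun X hX => hC.1 hX, hc, rfl⟩
  obtain ⟨A, a1, a2, a3⟩ := Nat.sInf_mem hGne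
  have hGl : IsLeast G (sInf G) := ⟨Nat.sInf_mem hGne, fun s hs => Nat.sInf_le hs⟩
  set S := {s : ℕ | ∃ J : Finset (Finset (Fin n)), (∀ X ∈ J, X.card = k + 1) ∧
        J.card = m ∧ (∃ d : ℕ, ∀ i : Fin n, (J.filter (fun X => i ∈ X)).card = d) ∧
        (Finset.shadow J).card = s} with hS
  have hlow : ∀ f ∈ S, n * sInf G ≤ k * f := by
    rintro f ⟨J, k1, k2, ⟨d', k3⟩, rfl⟩
    have hdd : d' = d := by
      have := sum_deg_nat J (k + 1) k1
      rw [sum_congr rfl (fun v _ => k3 v), sum_const, card_univ, Fintype.card_fin, smul_eq_mul,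
        k2, hdm, mul_comm] at this
      exact Nat.eq_of_mul_eq_mul_right hn0 this
    subst hdd
    exact link_lower J k1 k3 fun B b1 b2 => Nat.sInf_le ⟨B, b1, b2, rfl⟩
  have hcast : ((k + 1 : ℕ) : ℝ) - 1 = k := by push_cast; ring
  have hng : (0 : ℝ) ≤ (n : ℝ) * (sInf G : ℕ) := by positivity
  rw [hcast]
  by_cases ht : K0 + L ≤ t
  · obtain ⟨f, f1, f2⟩ := hK0 n (k + 1) m d (k + 1 + t) hm1 hm hdm hd1
      (by rwa [Nat.add_sub_cancel]) (by omega) (by
        rcases hK with h | h | h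
        · left; omega
        · right; exact le_trans (Nat.mul_le_mul_right _ (by omega)) h.2
        · left; omega)
    have hε1 : 1 / (L : ℝ) ≤ ε := le_trans (by gcongr; norm_num) hLε
    refine ⟨f, sInf G, f1, hGl, hlow f f1.1, ?_, fun _ => f2.trans hε1⟩
    have hr := kk_ratio hxn A a1 (a2 ▸ hd2.le)
    rw [a2, a3, show k + 1 + t + 1 - k = t + 2 by omega] at hr
    have hr' : (d : ℝ) * k ≤ (sInf G : ℕ) * (t + 2) := by exact_mod_cast hr
    have hdm' : ((k + 1 : ℕ) : ℝ) * m = n * d := by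
      rw [mul_comm (n : ℝ)]; exact_mod_cast hdm
    have hxc : ((k + 1 + t : ℕ) : ℝ) - (k + 1 : ℕ) + 1 = t + 1 := by push_cast; ring
    have hpos : (0 : ℝ) < n * d := by positivity
    rw [hxc, hdm'] at f2
    have f3 : (f : ℝ) * (t + 1) ≤ (1 + 1 / L) * (n * d) := by
      have := (abs_le.1 f2).2
      rw [← div_le_iff₀ hpos]; linarith
    have htL : (L : ℝ) ≤ t := by exact_mod_cast (by omega : L ≤ t)
    have f4 : (t : ℝ) + 2 ≤ (1 + 1 / L) * (t + 1) := by
      have : (1 : ℝ) ≤ (t + 1) / L := by rw [le_div_iff₀ hLp]; linarith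
      calc (t : ℝ) + 2 = t + 1 + 1 := by ring
        _ ≤ t + 1 + (t + 1) / L := by linarith
        _ = _ := by ring
    have f5 : (1 + 1 / (L : ℝ)) * (1 + 1 / L) ≤ 1 + ε := by
      have h1 : 1 / (L : ℝ) ≤ 1 := by rw [div_le_one hLp]; exact hL1
      have h2 : (0 : ℝ) ≤ 1 / L := by positivity
      have h3 : 3 / (L : ℝ) = 3 * (1 / L) := by ring
      nlinarith
    have ht1 : (0 : ℝ) < (t : ℝ) + 1 := by positivity
    apply le_of_mul_le_mul_right _ ht1
    calc (k : ℝ) * f * (t + 1) = k * (f * (t + 1)) := by ring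
      _ ≤ k * ((1 + 1 / L) * (n * d)) := by gcongr
      _ = (1 + 1 / L) * n * (d * k) := by ring
      _ ≤ (1 + 1 / L) * n * ((sInf G : ℕ) * (t + 2)) := by gcongr
      _ ≤ (1 + 1 / L) * n * ((sInf G : ℕ) * ((1 + 1 / L) * (t + 1))) := by gcongr
      _ = ((1 + 1 / L) * (1 + 1 / L)) * (n * (sInf G : ℕ)) * (t + 1) := by ring
      _ ≤ _ := by gcongr
  · have hK' : K0 + L + K1 ≤ k + 1 ∧ (K0 + L + K1) * (k + 1 + t) ≤ n := by
      rcases hK with h | h | h
      · omega
      · omega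
      · exact h
    obtain ⟨J, g1, g2, g3, g4⟩ := hK1 n k t m d (by omega) (by omega)
      (le_trans (Nat.mul_le_mul_right _ (by omega)) hK'.2) hdm hd2.le A a1 a2
    have hJ : #(shadow J) ∈ S := ⟨J, g1, g2, ⟨d, g3⟩, rfl⟩
    have hSl : IsLeast S (sInf S) := ⟨Nat.sInf_mem ⟨_, hJ⟩, fun s hs => Nat.sInf_le hs⟩
    refine ⟨sInf S, sInf G, hSl, hGl, hlow _ hSl.1, ?_, fun h => absurd h (by omega)⟩
    rw [a3] at g4
    have g5 : L * (k * sInf S) ≤ (L + 2) * (n * sInf G) :=
      le_trans (by gcongr; exact Nat.sInf_le hJ) g4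
    have g6 : (L : ℝ) * (k * (sInf S : ℕ)) ≤ (L + 2) * (n * (sInf G : ℕ)) := by exact_mod_cast g5
    have g7 : (L : ℝ) + 2 ≤ L * (1 + ε) := by
      rw [div_le_iff₀ hLp] at hLε
      nlinarith
    apply le_of_mul_le_mul_left _ hLp
    calc (L : ℝ) * (k * (sInf S : ℕ)) ≤ (L + 2) * (n * (sInf G : ℕ)) := g6
      _ ≤ (L * (1 + ε)) * (n * (sInf G : ℕ)) := by gcongr
      _ = _ := by ring

end Pool.Agent.P.MP_4f3dfd_co.Asy
end

-- part Pool.Agent.P.MP_4f3dfd_co.BCo
section

set_option autoImplicit false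

namespace Pool.Agent.P.MP_4f3dfd_co.Off

open Finset Pool.Agent.P.MP_4f3dfd_co.Asy

section
variable {V : Type*} [DecidableEq V]

/-- The preimage of a family under a permutation. -/
def mp (θ : V ≃ V) (G : Finset (Finset V)) : Finset (Finset V) :=
  G.image fun X => X.map θ.symm.toEmbedding

theorem card_mp_filter (θ : V ≃ V) (G : Finset (Finset V)) (v : V) :
    #{X ∈ mp θ G | v ∉ X} = #{X ∈ G | θ v ∉ X} := by
  rw [mp, filter_image, card_image_of_injective _ (map_injective _)]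
  simp

theorem card_mp (θ : V ≃ V) (G : Finset (Finset V)) : #(mp θ G) = #G :=
  card_image_of_injective _ (map_injective _)

theorem shadow_mp (θ : V ≃ V) (G : Finset (Finset V)) : #(shadow (mp θ G)) ≤ #(shadow G) := by
  rw [← card_mp θ (shadow G)]
  refine card_le_card fun Y hY => ?_
  obtain ⟨X', hX', a, ha, rfl⟩ := mem_shadow_iff.1 hY
  obtain ⟨X, hX, rfl⟩ := mem_image.1 hX'
  obtain ⟨b, hb, rfl⟩ := mem_map.1 ha
  exact mem_image.2 ⟨_, erase_mem_shadow hX hb, map_erase _ _ _⟩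

/-- A union of permuted copies of one family. -/
theorem exists_copies [Fintype V] {N : ℕ} (c : ℕ) (θ : Fin N → V ≃ V) (G : Finset (Finset V))
    (hG : ∀ X ∈ G, #X = c) (U : Finset V) (hU : ∀ X ∈ G, ∀ p ∈ U, p ∉ X)
    (hθ : ∀ l l' v, θ l v ∈ U → θ l' v ∈ U → l = l') (hc : Fintype.card V < c + 2 * #U) :
    ∃ J : Finset (Finset V), (∀ X ∈ J, #X = c) ∧ #J = N * #G ∧
      (∀ v, #{X ∈ J | v ∉ X} = ∑ l, #{X ∈ G | θ l v ∉ X}) ∧ #(shadow J) ≤ N * #(shadow G) := by
  have hm : ∀ l, ∀ X ∈ mp (θ l) G, #X = c ∧ Disjoint X (U.map (θ l).symm.toEmbedding) := by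
    intro l X' hX'
    obtain ⟨X, hX, rfl⟩ := mem_image.1 hX'
    exact ⟨by rw [card_map, hG X hX], (disjoint_map _).2 (disjoint_right.2 (hU X hX))⟩
  have hdis : ∀ l l', l ≠ l' → Disjoint (mp (θ l) G) (mp (θ l') G) := by
    intro l l' hl
    rw [disjoint_left]
    intro X h h'
    have a1 : Disjoint (U.map (θ l).symm.toEmbedding) (U.map (θ l').symm.toEmbedding) :=
      disjoint_left.2 fun v h1 h2 => hl (hθ l l' v (by simpa using h1) (by simpa using h2))
    have a2 := card_le_univ (X ∪ (U.map (θ l).symm.toEmbedding ∪ U.map (θ l').symm.toEmbedding))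
    rw [card_union_of_disjoint (disjoint_union_right.2 ⟨(hm l X h).2, (hm l' X h').2⟩),
      card_union_of_disjoint a1, card_map, card_map, (hm l X h).1] at a2
    omega
  refine ⟨univ.biUnion fun l => mp (θ l) G, fun X hX => ?_, ?_, fun v => ?_, ?_⟩
  · obtain ⟨l, -, hl⟩ := mem_biUnion.1 hX
    exact (hm l X hl).1
  · rw [card_biUnion fun l _ l' _ h => hdis l l' h]
    simp [card_mp]
  · rw [filter_biUnion, card_biUnion fun l _ l' _ h => disjoint_filter_filter (hdis l l' h)]
    simp only [card_mp_filter]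
  · have : shadow (univ.biUnion fun l => mp (θ l) G) ⊆
        univ.biUnion fun l => shadow (mp (θ l) G) := by
      intro Y hY
      obtain ⟨X, hX, a, ha, rfl⟩ := mem_shadow_iff.1 hY
      obtain ⟨l, -, hl⟩ := mem_biUnion.1 hX
      exact mem_biUnion.2 ⟨l, mem_univ _, erase_mem_shadow hl ha⟩
    refine (card_le_card this).trans (card_biUnion_le.trans ?_)
    simpa using sum_le_card_nsmul univ _ _ fun l _ => shadow_mp (θ l) G

end

theorem anti_mul {g : ℕ → ℕ} (hg : Antitone g) (a b : ℕ) :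
    b * g (a + b) ≤ ∑ s ∈ Ico a (a + b), g s := by
  have := card_nsmul_le_sum (Ico a (a + b)) g (g (a + b)) fun s hs => hg (mem_Ico.1 hs).2.le
  simpa using this

theorem anti_col {g : ℕ → ℕ} (hg : Antitone g) (Q b N : ℕ) :
    Q * ∑ r ∈ range (N + 1), g (b + Q * (r + 1)) ≤ Q * g Q + ∑ s ∈ Ico Q (Q * (N + 1)), g s := by
  induction N with
  | zero => simpa using Nat.mul_le_mul_left Q (hg (Nat.le_add_left Q b))
  | succ N ih =>
    have a1 := anti_mul hg (Q * (N + 1)) Q
    have a2 := Nat.mul_le_mul_left Q (hg (show Q * (N + 1) + Q ≤ b + Q * (N + 1 + 1) by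
      rw [mul_add Q (N + 1)]; omega))
    rw [sum_range_succ, mul_add, show Q * (N + 1 + 1) = Q * (N + 1) + Q by ring,
      ← sum_Ico_consecutive g (Nat.le_mul_of_pos_right Q (Nat.add_one_pos N)) (Nat.le_add_right _ _)]
    rw [show Q * (N + 1 + 1) = Q * (N + 1) + Q by ring] at a2
    omega

/-- Rotated copies of a family of sets on few points. -/
theorem exists_rot (N q H ρ c T e₁ : ℕ) (G : Finset (Finset (Fin ((N + 2) * (q + H) + ρ))))
    (hn : (N + 2) * (q + H) + ρ = c + q) (hT : 2 * T < q)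
    (hG : ∀ X ∈ G, #X = c ∧ ∀ a ∈ X, a.val < c + T)
    (he : (N + 1) * (q + H) * e₁ + ρ * (T * #G) ≤ (N + 1) * (q + H) * #G) (hG0 : 0 < #G) :
    ∃ (J : Finset (Finset (Fin ((N + 2) * (q + H) + ρ)))) (R : Finset (Fin ((N + 2) * (q + H) + ρ))),
      (∀ X ∈ J, #X = c) ∧ #J = (N + 2) * e₁ ∧ #R = ρ ∧ (∀ X ∈ J, R ⊆ X) ∧
      (∀ v, H * #{X ∈ J | v ∉ X} ≤ H * e₁ + 2 * (T * #G)) ∧
      #(shadow J) ≤ (N + 2) * #(shadow G) := by
  obtain ⟨Q, hQ⟩ : ∃ Q, Q = q + H := ⟨_, rfl⟩
  have hqQ : q ≤ Q := by omega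
  have hHQ : H ≤ Q := by omega
  have hq0 : 0 < q := by omega
  revert G
  rw [← hQ] at hn ⊢
  intro G hG he hG0
  obtain ⟨X0, hX0⟩ := card_pos.1 hG0
  let a : Fin ((N + 2) * Q + ρ) → ℕ := fun p => #{X ∈ G | p ∉ X}
  let σ := Tuple.sort fun p => OrderDual.toDual (a p)
  have hσ : ∀ s t, s ≤ t → a (σ t) ≤ a (σ s) := fun s t h =>
    Tuple.monotone_sort (fun p => OrderDual.toDual (a p)) h
  let g : ℕ → ℕ := fun s => if h : s < (N + 2) * Q + ρ then a (σ ⟨s, h⟩) else 0
  have hg : Antitone g := by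
    intro s t h
    simp only [g]
    split_ifs with h1 h2 h2
    · exact hσ _ _ h
    · omega
    · exact Nat.zero_le _
    · exact le_rfl
  have hga : ∀ s, a (σ s) = g s := fun s => by simp [g]
  let U : Finset (Fin ((N + 2) * Q + ρ)) := {p | c + T ≤ p.val}
  have hU : ∀ X ∈ G, ∀ p ∈ U, p ∉ X := fun X hX p hp h => by
    have := (hG X hX).2 p h
    have := (mem_filter.1 hp).2
    omega
  have hUc : #Uᶜ = c + T := by
    rw [show Uᶜ = univ.filter (fun p => p.val < c + T) by ext p; simp [U], Fin.card_filter_val_lt]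
    omega
  have hUq : ∀ s, σ s ∈ U → s.val < q := by
    intro s hs
    have a1 : ∀ t, t ≤ s → σ t ∉ X0 := by
      intro t ht
      have a2 : a (σ s) = #G := by
        simp only [a]
        rw [filter_true_of_mem fun X hX => hU X hX _ hs]
      have a3 : {X ∈ G | σ t ∉ X} = G :=
        eq_of_subset_of_card_le (filter_subset _ _) (a2 ▸ hσ t s ht)
      have a5 : X0 ∈ {X ∈ G | σ t ∉ X} := a3.symm ▸ hX0
      exact (mem_filter.1 a5).2
    have a4 : #(Iic s) ≤ #X0ᶜ := card_le_card_of_injOn σ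
      (fun t ht => mem_coe.2 (mem_compl.2 (a1 t (mem_Iic.1 ht)))) σ.injective.injOn
    rw [Fin.card_Iic, card_compl, Fintype.card_fin, (hG X0 hX0).1] at a4
    omega
  have hS : ∀ x y, q ≤ x → ∑ s ∈ Ico x y, g s ≤ T * #G := by
    intro x y hx
    have a1 : ∑ p ∈ Uᶜ, a p = T * #G := by
      simp only [a, card_filter]
      rw [sum_comm, sum_congr rfl (g := fun _ => T), sum_const, smul_eq_mul, mul_comm]
      intro X hX
      rw [← card_filter, ← sdiff_eq_filter,
        card_sdiff_of_subset fun p hp => mem_compl.2 fun h => hU X hX p h hp, hUc, (hG X hX).1]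
      omega
    have a2 : ∑ s ∈ Ico x y, g s ≤ ∑ s ∈ range ((N + 2) * Q + ρ), if q ≤ s then g s else 0 := by
      rw [← sum_filter]
      refine sum_le_sum_of_ne_zero fun s hs h0 => mem_filter.2 ⟨mem_range.2 ?_, ?_⟩
      · by_contra h
        exact h0 (dif_neg h)
      · exact hx.trans (mem_Ico.1 hs).1
    rw [← Fin.sum_univ_eq_sum_range (fun s => if q ≤ s then g s else 0)] at a2
    refine a2.trans ?_
    rw [← a1, ← sum_ite_mem_eq Uᶜ a, ← Equiv.sum_comp σ fun p => if p ∈ Uᶜ then a p else 0]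
    refine sum_le_sum fun s _ => ?_
    split_ifs with h1 h2
    · exact (hga s).ge
    · exact absurd (hUq s (by simpa using h2)) (by omega)
    · exact Nat.zero_le _
    · exact le_rfl
  let E : (Fin (N + 2) × Fin Q) ⊕ Fin ρ ≃ Fin ((N + 2) * Q + ρ) :=
    (Equiv.sumCongr finProdFinEquiv (Equiv.refl _)).trans finSumFinEquiv
  have hE1 : ∀ r b, (E (Sum.inl (r, b))).val = b + Q * r := fun r b => by simp [E]
  have hE2 : ∀ z, (E (Sum.inr z)).val = (N + 2) * Q + z := fun z => by simp [E]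
  have hG1 : e₁ ≤ #{X ∈ G | ∀ z, σ (E (Sum.inr z)) ∈ X} := by
    have a1 : G ⊆ {X ∈ G | ∀ z, σ (E (Sum.inr z)) ∈ X} ∪
        univ.biUnion fun z => {X ∈ G | σ (E (Sum.inr z)) ∉ X} := by
      intro X hX
      by_cases h : ∀ z, σ (E (Sum.inr z)) ∈ X
      · exact mem_union_left _ (mem_filter.2 ⟨hX, h⟩)
      · obtain ⟨z, hz⟩ := not_forall.1 h
        exact mem_union_right _ (mem_biUnion.2 ⟨z, mem_univ _, mem_filter.2 ⟨hX, hz⟩⟩)
    have a2 := (card_le_card a1).trans ((card_union_le _ _).trans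
      (Nat.add_le_add_left card_biUnion_le _))
    have a3 : (N + 1) * Q * ∑ z, a (σ (E (Sum.inr z))) ≤ ρ * (T * #G) := by
      rw [mul_sum]
      refine (sum_le_card_nsmul _ _ (T * #G) fun z _ => ?_).trans (by simp)
      rw [hga, hE2]
      refine le_trans (Nat.mul_le_mul_left _ (hg ?_))
        ((anti_mul hg Q ((N + 1) * Q)).trans (hS _ _ hqQ))
      rw [show (N + 2) * Q = Q + (N + 1) * Q by ring]
      omega
    have a4 := Nat.mul_le_mul_left ((N + 1) * Q) a2
    rw [mul_add] at a4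
    exact Nat.le_of_mul_le_mul_left (c := (N + 1) * Q) (by simp only [a] at a3; omega)
      (Nat.mul_pos (Nat.succ_pos N) (by omega))
  obtain ⟨G₁, g1, g2⟩ := exists_subset_card_eq hG1
  have g3 : G₁ ⊆ G := g1.trans (filter_subset _ _)
  let θ : Fin (N + 2) → Fin ((N + 2) * Q + ρ) ≃ Fin ((N + 2) * Q + ρ) := fun l =>
    (E.symm.trans (Equiv.sumCongr (Equiv.prodCongr (Equiv.addRight l) (Equiv.refl _))
      (Equiv.refl _))).trans (E.trans σ)
  have hθ1 : ∀ l r b, θ l (E (Sum.inl (r, b))) = σ (E (Sum.inl (r + l, b))) := fun l r b => by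
    simp [θ]
  have hθ2 : ∀ l z, θ l (E (Sum.inr z)) = σ (E (Sum.inr z)) := fun l z => by simp [θ]
  obtain ⟨J, j1, j2, j3, j4⟩ := exists_copies c θ G₁ (fun X hX => (hG X (g3 hX)).1) U
    (fun X hX => hU X (g3 hX)) (fun l l' v h h' => by
      obtain ⟨⟨r, b⟩ | z, rfl⟩ := E.surjective v
      · rw [hθ1] at h h'
        have k : ∀ x : Fin (N + 2), b.val + Q * x.val < q → x = 0 := fun x hx => by
          by_contra h0
          have : Q * 1 ≤ Q * x.val := Nat.mul_le_mul_left _ (Fin.pos_iff_ne_zero.2 h0)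
          omega
        exact add_left_cancel ((k _ (hE1 _ _ ▸ hUq _ h)).trans (k _ (hE1 _ _ ▸ hUq _ h')).symm)
      · rw [hθ2] at h
        have := hUq _ h
        rw [hE2, show (N + 2) * Q = Q + (N + 1) * Q by ring] at this
        omega)
    (by
      have := card_add_card_compl U
      rw [Fintype.card_fin] at this ⊢
      omega)
  have j5 : ∀ z, #{X ∈ J | E (Sum.inr z) ∉ X} = 0 := fun z => by
    rw [j3]
    refine sum_eq_zero fun l _ => ?_
    rw [hθ2, card_eq_zero, filter_eq_empty_iff]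
    exact fun X hX h => h ((mem_filter.1 (g1 hX)).2 z)
  refine ⟨J, univ.map ⟨fun z => E (Sum.inr z), E.injective.comp Sum.inr_injective⟩, j1,
    g2 ▸ j2, by simp, fun X hX v hv => ?_, fun v => ?_,
    j4.trans (Nat.mul_le_mul_left _ (card_le_card (shadow_mono g3)))⟩
  · obtain ⟨z, -, rfl⟩ := mem_map.1 hv
    by_contra h
    exact absurd (j5 z) (card_pos.2 ⟨X, mem_filter.2 ⟨hX, h⟩⟩).ne'
  · obtain ⟨⟨r, b⟩ | z, rfl⟩ := E.surjective v
    · rw [j3]
      simp only [hθ1]
      rw [show ∑ l, #{X ∈ G₁ | σ (E (Sum.inl (r + l, b))) ∉ X} = _ from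
        Equiv.sum_comp (Equiv.addLeft r) fun l => #{X ∈ G₁ | σ (E (Sum.inl (l, b))) ∉ X},
        Fin.sum_univ_succ]
      have a1 : ∑ l : Fin (N + 1), #{X ∈ G₁ | σ (E (Sum.inl (l.succ, b))) ∉ X} ≤
          ∑ l ∈ range (N + 1), g (b + Q * (l + 1)) := by
        rw [← Fin.sum_univ_eq_sum_range fun l => g (b + Q * (l + 1))]
        refine sum_le_sum fun l _ => (card_le_card (filter_subset_filter _ g3)).trans ?_
        exact (hga _).trans_le (by rw [hE1]; rfl)
      have a2 := (anti_col hg Q b N).trans (Nat.add_le_add_left (hS _ _ hqQ) _)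
      have a3 : H * g Q ≤ T * #G := (hQ ▸ anti_mul hg q H).trans (hS _ _ le_rfl)
      have a4 : #{X ∈ G₁ | σ (E (Sum.inl (0, b))) ∉ X} ≤ e₁ := g2 ▸ card_filter_le _ _
      have a5 : H * ∑ l ∈ range (N + 1), g (b + Q * (l + 1)) ≤ 2 * (T * #G) := by
        apply Nat.le_of_mul_le_mul_left (c := Q) _ (by omega)
        calc Q * (H * _) = H * (Q * _) := by ring
          _ ≤ H * (Q * g Q + T * #G) := Nat.mul_le_mul_left _ a2
          _ = Q * (H * g Q) + H * (T * #G) := by ring
          _ ≤ Q * (T * #G) + Q * (T * #G) := by gcongr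
          _ = _ := by ring
      calc _ ≤ H * (e₁ + ∑ l ∈ range (N + 1), g (b + Q * (l + 1))) := by gcongr
        _ ≤ _ := by rw [mul_add]; omega
    · rw [j5]
      simp

/-- The upper bound when the complements of the members are small. -/
theorem upper_co (L T : ℕ) (hL : 6 ≤ L) : ∃ K : ℕ, ∀ n c q m d e : ℕ,
    n = c + q → K ≤ q → K * q ≤ n → c * m = d * n → d + e = m → L ≤ e → e ≤ n ^ T →
    ∀ G : Finset (Finset (Fin n)), (∀ X ∈ G, #X = c ∧ ∀ a ∈ X, a.val < c + T) → #G = e →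
    ∃ J : Finset (Finset (Fin n)), (∀ X ∈ J, #X = c) ∧ #J = m ∧
      (∀ v, #{X ∈ J | v ∈ X} = d) ∧
      (#(shadow J) : ℝ) ≤ n * #(shadow G) / q + 5 / L * (c * m) := by
  obtain ⟨K0, hK0⟩ := big_choose (T + 1) (2 * L * (T + 1))
  refine ⟨K0 + 4 * (T + 1) * L * (L + T + 3), ?_⟩
  intro n c q m d e hn hq hqn hdm hde hLe heT G hG hGe
  have hqe : q * m = e * n := by
    have : c * m + q * m = d * n + e * n := by rw [← add_mul, ← add_mul, ← hn, hde, mul_comm]
    omega
  have k1 : 4 * (T + 1) * L * (L + T + 3) ≤ q := by omega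
  have k2 : 4 * (T + 1) * L * (L + T + 3) * q ≤ n :=
    (Nat.mul_le_mul_right _ (by omega)).trans hqn
  have k3 : 2 * T < q := by
    have : 4 * (T + 1) * 1 * 1 ≤ 4 * (T + 1) * L * (L + T + 3) := by gcongr <;> omega
    omega
  have hmn : m ≤ n ^ (T + 1) := by
    rw [pow_succ]
    exact (Nat.le_mul_of_pos_left m (by omega)).trans (hqe ▸ Nat.mul_le_mul_right _ heT)
  have LR : (6 : ℝ) ≤ L := by exact_mod_cast hL
  have T0 : (0 : ℝ) ≤ T := by positivity
  have L0 : (0 : ℝ) < L := by linarith only [LR]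
  have qR : 4 * ((T : ℝ) + 1) * L * (L + T + 3) ≤ q := by exact_mod_cast k1
  have nR : 4 * ((T : ℝ) + 1) * L * (L + T + 3) * q ≤ n := by exact_mod_cast k2
  have q1 : (1 : ℝ) ≤ q := by exact_mod_cast (show 1 ≤ q by omega)
  have q0 : (0 : ℝ) < q := by linarith only [q1]
  have n0 : (0 : ℝ) < n := lt_of_lt_of_le (by positivity) nR
  have eR : (L : ℝ) ≤ e := by exact_mod_cast hLe
  have e0 : (0 : ℝ) < e := by linarith only [LR, eR]
  have qe : (q : ℝ) * m = e * n := by exact_mod_cast hqe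
  have m0 : (0 : ℝ) < m := pos_of_mul_pos_right (qe ▸ mul_pos e0 n0) q0.le
  obtain ⟨ε, hε⟩ : ∃ ε : ℝ, ε = 1 / L := ⟨_, rfl⟩
  have ε0 : 0 < ε := by rw [hε]; positivity
  have εL : ε * L = 1 := by rw [hε]; field_simp
  have ε6 : ε ≤ 1 / 6 := hε ▸ one_div_le_one_div_of_le (by norm_num) LR
  obtain ⟨x, hx⟩ : ∃ x : ℝ, n = 2 * L * (T + 1) * x := ⟨n / (2 * L * (T + 1)), by field_simp⟩
  have x1 : 2 * ((L : ℝ) + T + 3) * q ≤ x :=
    le_of_mul_le_mul_left (a := 2 * (L : ℝ) * (T + 1)) (by linarith only [nR, hx]) (by positivity)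
  have x2 : 2 * (q : ℝ) ≤ x := by nlinarith only [x1, q0, LR, T0]
  have x3 : 2 * ((T : ℝ) + 3) ≤ x := by nlinarith only [x1, q1, LR, T0]
  have x4 : 2 * (T + 1) * x = ε * n := by rw [hx]; linear_combination -2 * (T + 1) * x * εL
  have x0 : 0 < x := by linarith only [ε0, ε6, x3]
  have x5 : 2 * x ≤ ε * n := by nlinarith only [x4, x0, T0]
  have x6 : 12 * x ≤ n := by nlinarith only [x5, ε6, n0]
  obtain ⟨H, hH⟩ : ∃ H, H = 4 * (T + 1) * L := ⟨_, rfl⟩
  have HR : (H : ℝ) = 4 * (T + 1) * L := by exact_mod_cast hH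
  have H0 : (0 : ℝ) < H := by rw [HR]; positivity
  have Hq : (H : ℝ) ≤ ε * q := by
    calc (H : ℝ) = ε * (H * L) := by linear_combination -(H : ℝ) * εL
      _ ≤ ε * (H * (L + T + 3)) := by gcongr; linarith only [ε0, ε6]
      _ ≤ _ := by rw [HR]; gcongr
  have εq : ε * q ≤ q := mul_le_of_le_one_left q0.le (by linarith only [ε0, ε6])
  obtain ⟨N', N1, N2⟩ := ex_nat (x := (n - x) / (q + H)) (div_nonneg (by linarith only [ε0, ε6, x3, x6]) (by positivity))
  rw [le_div_iff₀ (by positivity)] at N1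
  rw [div_lt_iff₀ (by positivity)] at N2
  obtain ⟨N, rfl⟩ : ∃ N, N' = N + 2 := by
    have : (2 : ℝ) < N' + 1 := lt_of_mul_lt_mul_right (a := (q : ℝ) + H) (by linarith only [ε0, ε6, x2, x3, x6, Hq, εq, N2]) (by positivity)
    have : 2 < N' + 1 := by exact_mod_cast this
    exact ⟨N' - 2, by omega⟩
  push_cast at N1 N2
  obtain ⟨ρ, hρ⟩ : ∃ ρ, (N + 2) * (q + H) + ρ = n := ⟨n - (N + 2) * (q + H), by
    have : (((N + 2) * (q + H) : ℕ) : ℝ) ≤ n := by push_cast; linarith only [ε0, ε6, x3, N1]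
    have : (N + 2) * (q + H) ≤ n := by exact_mod_cast this
    omega⟩
  have ρR : ((N : ℝ) + 2) * (q + H) + ρ = n := by exact_mod_cast hρ
  have ρ1 : x ≤ ρ := by linarith only [N1, ρR]
  have ρ2 : ρ ≤ 2 * x := by linarith only [x2, Hq, εq, N2, ρR]
  obtain ⟨e₁, e1, e2⟩ := ex_nat (x := (1 - 2 * ε) * e) (mul_nonneg (by linarith only [ε0, ε6]) e0.le)
  have εe : 1 ≤ ε * e := εL ▸ mul_le_mul_of_nonneg_left eR ε0.le
  obtain ⟨J, R, j1, j2, j3, j4, j5, j6⟩ : ∃ (J : Finset (Finset (Fin n))) (R : Finset (Fin n)),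
      (∀ X ∈ J, #X = c) ∧ #J = (N + 2) * e₁ ∧ #R = ρ ∧ (∀ X ∈ J, R ⊆ X) ∧
      (∀ v, H * #{X ∈ J | v ∉ X} ≤ H * e₁ + 2 * (T * #G)) ∧
      #(shadow J) ≤ (N + 2) * #(shadow G) := by
    have he : (N + 1) * (q + H) * e₁ + ρ * (T * #G) ≤ (N + 1) * (q + H) * #G := by
      have a1 : (n : ℝ) ≤ 2 * ((N + 1) * (q + H)) := by linarith only [ε0, ε6, x2, x3, x6, Hq, εq, N2]
      have a2 : (ρ : ℝ) * T ≤ ε * n := by
        calc (ρ : ℝ) * T ≤ 2 * x * (T + 1) := by gcongr; linarith only [ε0, ε6]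
          _ = _ := by linarith only [x4]
      have a3 : ε * n * e ≤ ε * (2 * ((N + 1) * (q + H))) * e := by gcongr
      have a4 : (ρ : ℝ) * T * e ≤ ε * n * e := by gcongr
      have a5 : ((N : ℝ) + 1) * (q + H) * e₁ ≤ (N + 1) * (q + H) * ((1 - 2 * ε) * e) := by gcongr
      have : ((N : ℝ) + 1) * (q + H) * e₁ + ρ * (T * e) ≤ (N + 1) * (q + H) * e := by linarith only [a3, a4, a5]
      rw [hGe]
      exact_mod_cast this
    have hG0 : 0 < #G := by omega
    subst hρ
    exact exists_rot N q H ρ c T e₁ G hn k3 hG he hG0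
  have Nq : ((N : ℝ) + 2) * q ≤ n := by nlinarith only [ρR, ρ1, x0, H0, Nat.cast_nonneg (α := ℝ) N]
  have P1 : ((N : ℝ) + 2) * e₁ ≤ (1 - 2 * ε) * m := by
    apply le_of_mul_le_mul_left _ q0
    have : 0 ≤ 1 - 2 * ε := by linarith only [ε0, ε6]
    calc q * (((N : ℝ) + 2) * e₁) = (N + 2) * q * e₁ := by ring
      _ ≤ n * ((1 - 2 * ε) * e) := by gcongr
      _ = _ := by linear_combination -(1 - 2 * ε) * qe
  have P2 : (1 - 5 * ε) * m ≤ ((N : ℝ) + 2) * e₁ := by
    apply le_of_mul_le_mul_left (a := (1 + ε) * q) _ (by positivity)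
    have a1 : (1 - ε) * n ≤ (N + 2) * ((1 + ε) * q) := by
      have : ((N : ℝ) + 2) * (q + H) ≤ (N + 2) * ((1 + ε) * q) := by gcongr; linarith only [Hq]
      linarith only [x2, x5, Hq, εq, N2, this]
    have a2 : 0 ≤ (1 - 3 * ε) * e := mul_nonneg (by linarith only [ε0, ε6]) e0.le
    calc (1 + ε) * q * ((1 - 5 * ε) * m) = (1 + ε) * (1 - 5 * ε) * (e * n) := by
          rw [← qe]; ring
      _ ≤ (1 - ε) * (1 - 3 * ε) * (e * n) := by gcongr ?_ * _; nlinarith only [ε0]
      _ = (1 - ε) * n * ((1 - 3 * ε) * e) := by ring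
      _ ≤ (N + 2) * ((1 + ε) * q) * e₁ := by gcongr; linarith only [e2, εe]
      _ = _ := by ring
  have εm : 0 < ε * m := by positivity
  have em : e ≤ ε * m := by
    apply le_of_mul_le_mul_left _ n0
    have : (q : ℝ) ≤ ε * n := by linarith only [ε0, ε6, x2, x3, x5]
    calc (n : ℝ) * e = q * m := by linarith only [qe]
      _ ≤ ε * n * m := by gcongr
      _ = _ := by ring
  obtain ⟨M, hM⟩ : ∃ M, #J + e + M = m := ⟨m - (#J + e), by
    have : ((#J + e : ℕ) : ℝ) ≤ m := by rw [j2]; push_cast; linarith only [LR, eR, ε0, ε6, P1, em]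
    have : #J + e ≤ m := by exact_mod_cast this
    omega⟩
  have MR : ((N : ℝ) + 2) * e₁ + e + M = m := by rw [j2] at hM; exact_mod_cast hM
  have M1 : (e : ℝ) ≤ M := by linarith only [P1, em, MR]
  have M2 : (e : ℝ) + M ≤ 5 * ε * m := by linarith only [P2, MR]
  have M1' : e ≤ M := by exact_mod_cast M1
  have ρ3 : 2 * (T + 3) ≤ ρ := by exact_mod_cast x3.trans ρ1
  have hco : ∀ v, #{X ∈ J | v ∉ X} ≤ e := fun v => by
    have a1 : (H : ℝ) * #{X ∈ J | v ∉ X} ≤ H * e₁ + 2 * (T * e) := by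
      rw [← hGe]; exact_mod_cast j5 v
    have a2 : (H : ℝ) * e₁ ≤ H * ((1 - 2 * ε) * e) := by gcongr
    have a3 : (H : ℝ) * (ε * e) = 4 * (T + 1) * e := by
      rw [HR]; linear_combination 4 * (T + 1) * e * εL
    have : (#{X ∈ J | v ∉ X} : ℝ) ≤ e :=
      le_of_mul_le_mul_left (by nlinarith only [a1, a2, a3, e0, T0]) H0
    exact_mod_cast this
  have hdJ : d - #J = M := by omega
  obtain ⟨J', g1, g2, g3, g4⟩ := complete c d (e + M) #J J R j1
    (fun v => (card_filter_le _ _).trans (by omega))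
    (fun v => by
      have := card_filter_add_card_filter_not (s := J) fun X => v ∈ X
      have := hco v
      omega)
    (fun v hv => by rw [filter_true_of_mem fun X hX => j4 X hX hv]) (by omega)
    (by rw [← add_assoc, hM, hdm, Fintype.card_fin])
    (by rw [hdJ, j3]; nlinarith only [M1', ρ3])
    (fun s s1 s2 => by
      rw [hdJ, j3] at s1 s2
      have s3 : ρ ≤ 2 * (s + 1) := by
        apply Nat.le_of_mul_le_mul_left (c := M) _ (by omega)
        nlinarith only [s1, M1', Nat.mul_le_mul_right (s + 1) M1']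
      have s4 : s + (T + 1 + 1) ≤ ρ := by
        have s2' : ((e : ℝ) + M) * s ≤ M * ρ + (e + M) := by exact_mod_cast s2
        have a1 : 10 * (T + 1) * (T + 3) ≤ (q : ℝ) := by
          calc 10 * ((T : ℝ) + 1) * (T + 3) ≤ 4 * (T + 1) * 6 * (T + 3) := by
                nlinarith only [T0]
            _ ≤ 4 * (T + 1) * L * (L + T + 3) := by gcongr; linarith only [LR, ε0, ε6]
            _ ≤ _ := qR
        have a2 : (e + M) * ((T : ℝ) + 3) ≤ e * ρ := by
          apply le_of_mul_le_mul_left _ q0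
          calc q * ((e + M) * ((T : ℝ) + 3)) ≤ q * (5 * ε * m * (T + 3)) := by gcongr
            _ = 5 * (T + 3) * e * (ε * n) := by linear_combination 5 * ε * (T + 3) * qe
            _ = 10 * (T + 1) * (T + 3) * (e * x) := by rw [← x4]; ring
            _ ≤ q * (e * ρ) := by gcongr
        have : (s : ℝ) + (T + 1 + 1) ≤ ρ :=
          le_of_mul_le_mul_left (a := (e : ℝ) + M) (by linarith only [s2', a2]) (by linarith only [LR, eR, ε0, ε6])
        exact_mod_cast this
      refine ⟨le_trans (by omega) (hmn.trans (j3 ▸ hK0 n _ _ (by omega) ?_ (by omega) s4)),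
        fun X hX h => ?_⟩
      · have : (n : ℝ) ≤ 2 * L * (T + 1) * ρ := by rw [hx]; gcongr
        exact_mod_cast this
      · rw [inter_eq_right.2 (j4 X hX), j3] at h
        omega)
  refine ⟨J', g1, by rw [g2, ← add_assoc, hM], g3, ?_⟩
  have f1 : (#(shadow J') : ℝ) ≤ (N + 2) * #(shadow G) + c * (e + M) := by
    exact_mod_cast g4.trans (Nat.add_le_add_right j6 _)
  calc _ ≤ _ := f1
    _ ≤ n / q * #(shadow G) + c * (5 * ε * m) := by gcongr; rwa [le_div_iff₀ q0]
    _ = _ := by rw [hε]; ring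

end Pool.Agent.P.MP_4f3dfd_co.Off
end
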