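import Pool.Agent.K.MP_4f3dfd_co.C1
import Pool.Agent.K.MP_4f3dfd_co.C2

-- part Pool.Agent.P.MP_4f3dfd_co.BOff
section

set_option autoImplicit false

namespace Pool.Agent.P.MP_4f3dfd_co.Off

open Finset Pool.Agent.P.MP_4f3dfd_co.Asy

/-- Shadow sizes of regular families. -/
def SR (n c m : ℕ) : Set ℕ := {k : ℕ | ∃ J : Finset (Finset (Fin n)), (∀ X ∈ J, X.card = c) ∧
  J.card = m ∧ (∃ e : ℕ, ∀ i : Fin n, (J.filter (fun X => i ∈ X)).card = e) ∧
  (Finset.shadow J).card = k}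

/-- Shadow sizes of arbitrary families. -/
def SG (n c d : ℕ) : Set ℕ := {k : ℕ | ∃ A : Finset (Finset (Fin n)), (∀ X ∈ A, X.card = c) ∧
  A.card = d ∧ (Finset.shadow A).card = k}

theorem shadow_le_mul {V : Type*} [DecidableEq V] (E : Finset (Finset V)) (c : ℕ)
    (hE : ∀ X ∈ E, #X = c) : #(shadow E) ≤ c * #E := by
  simpa using shadow_union_le ∅ E c hE

/-- Unions of cliques give families of every size with small shadow. -/
theorem exists_chain {n k i e : ℕ} (hn : k + 1 + i ≤ n) (he : e ≤ n.choose (k + 1)) :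
    ∃ s ∈ SG n (k + 1) e, s * (i + 1) ≤ (k + 1) * (e + (k + 1 + i).choose (k + 1) * (i + 1)) := by
  classical
  let P : Finset (Finset (Fin n)) := powersetCard (k + 1 + i) univ
  let F : Finset (Finset (Fin n)) → Finset (Finset (Fin n)) :=
    fun C => C.biUnion (powersetCard (k + 1))
  obtain ⟨C, hC, hmax⟩ := exists_max_image {C ∈ P.powerset | #(F C) ≤ e} card ⟨∅, by simp [F]⟩
  rw [mem_filter, mem_powerset] at hC
  have hF : ∀ X ∈ F C, #X = k + 1 := fun X hX => by
    obtain ⟨Z, -, h⟩ := mem_biUnion.1 hX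
    exact (mem_powersetCard.1 h).2
  have h1 : e ≤ #(F C) + (k + 1 + i).choose (k + 1) := by
    by_cases h : P ⊆ C
    · have : powersetCard (k + 1) univ ⊆ F C := fun X hX => by
        obtain ⟨Z, z1, -, z2⟩ := exists_subsuperset_card_eq (subset_univ X) (n := k + 1 + i)
          (by rw [(mem_powersetCard.1 hX).2]; omega) (by simpa using hn)
        exact mem_biUnion.2 ⟨Z, h (mem_powersetCard.2 ⟨subset_univ _, z2⟩),
          mem_powersetCard.2 ⟨z1, (mem_powersetCard.1 hX).2⟩⟩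
      have := card_le_card this
      rw [card_powersetCard, card_univ, Fintype.card_fin] at this
      omega
    · obtain ⟨Z, z1, z2⟩ := not_subset.1 h
      by_contra hh
      have a1 : #(F (insert Z C)) ≤ e := by
        simp only [F, biUnion_insert]
        refine (card_union_le _ _).trans ?_
        rw [card_powersetCard, (mem_powersetCard.1 z1).2]
        simp only [F] at hh
        omega
      have := hmax (insert Z C) (mem_filter.2 ⟨mem_powerset.2 (insert_subset z1 hC.1), a1⟩)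
      rw [card_insert_of_notMem z2] at this
      omega
  obtain ⟨A, a1, a2, a3⟩ := exists_subsuperset_card_eq (s := F C)
    (t := powersetCard (k + 1) univ) (n := e)
    (fun X hX => mem_powersetCard.2 ⟨subset_univ _, hF X hX⟩) hC.2 (by simpa using he)
  have hA : ∀ X ∈ A, #X = k + 1 := fun X hX => (mem_powersetCard.1 (a2 hX)).2
  refine ⟨_, ⟨A, hA, a3, rfl⟩, ?_⟩
  have b1 := shadow_union_le (F C) (A \ F C) (k + 1) fun X hX => hA X (mem_sdiff.1 hX).1
  rw [union_sdiff_of_subset a1, card_sdiff_of_subset a1, a3] at b1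
  have b2 := shadow_mul_le (F C) (k + 1) (i + 1) hF fun Y hY => by
    obtain ⟨X, hX, hYX, hc⟩ := mem_shadow_iff_exists_mem_card_add_one.1 hY
    obtain ⟨Z, z1, z2⟩ := mem_biUnion.1 hX
    rw [mem_powersetCard] at z2
    have hYZ := hYX.trans z2.1
    have : #(Z \ Y) = i + 1 := by
      rw [card_sdiff_of_subset hYZ, (mem_powersetCard.1 (hC.1 z1)).2]; omega
    rw [← this]
    apply card_le_card_of_injOn (insert · Y)
    · intro a ha
      rw [mem_coe, mem_sdiff] at ha
      exact mem_coe.2 (mem_filter.2 ⟨mem_biUnion.2 ⟨Z, z1, mem_powersetCard.2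
        ⟨insert_subset ha.1 hYZ, by rw [card_insert_of_notMem ha.2]; omega⟩⟩, subset_insert _ _⟩)
    · intro a ha b _ h
      have : a ∈ insert b Y := by
        have h' : insert a Y = insert b Y := h
        rw [← h']; exact mem_insert_self _ _
      exact (mem_insert.1 this).resolve_right (mem_sdiff.1 ha).2
  calc _ ≤ (#(shadow (F C)) + (k + 1) * (k + 1 + i).choose (k + 1)) * (i + 1) := by
        gcongr; exact b1.trans (by gcongr; omega)
    _ ≤ e * (k + 1) + (k + 1) * (k + 1 + i).choose (k + 1) * (i + 1) := by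
        rw [add_mul]
        exact Nat.add_le_add_right (b2.trans (Nat.mul_le_mul_right _ hC.2)) _
    _ = _ := by ring

theorem SR_deg {n c m d s : ℕ} (hdm : c * m = d * n) (h : s ∈ SR n c m) :
    ∃ J : Finset (Finset (Fin n)), (∀ X ∈ J, #X = c) ∧ #J = m ∧
      (∀ v, #{X ∈ J | v ∈ X} = d) ∧ #(shadow J) = s := by
  obtain ⟨J, k1, k2, ⟨d', k3⟩, k4⟩ := h
  refine ⟨J, k1, k2, fun v => ?_, k4⟩
  have := sum_deg_nat J c k1
  rw [sum_congr rfl (fun v _ => k3 v), sum_const, card_univ, Fintype.card_fin, smul_eq_mul,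
    k2, hdm, mul_comm] at this
  rw [k3, Nat.eq_of_mul_eq_mul_right v.pos this]

/-- The bound from the members that avoid a point. -/
theorem colink {n k q m d e f h : ℕ} (hn : n = k + 1 + q) (hdm : (k + 1) * m = d * n)
    (hde : d + e = m) (hf : f ∈ SR n (k + 1) m) (hh : IsLeast (SG n (k + 1) e) h) :
    n * h ≤ (q + 1) * f := by
  obtain ⟨J, j1, j2, j3, rfl⟩ := SR_deg hdm hf
  have key : ∀ v, h ≤ #{Y ∈ shadow J | v ∉ Y} := fun v => by
    refine (hh.2 ⟨{X ∈ J | v ∉ X}, fun X hX => j1 X (mem_filter.1 hX).1, ?_, rfl⟩).trans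
      (card_le_card fun Y hY => ?_)
    · have := card_filter_add_card_filter_not (s := J) fun X => v ∈ X
      rw [j3, j2] at this
      omega
    · obtain ⟨X, hX, a, ha, rfl⟩ := mem_shadow_iff.1 hY
      rw [mem_filter] at hX ⊢
      exact ⟨erase_mem_shadow hX.1 ha, fun h => hX.2 (mem_of_mem_erase h)⟩
  have a1 := sum_le_sum (s := univ) fun v _ => key v
  have a2 := sum_deg_nat (shadow J) k (card_shadow j1)
  have a3 : ∑ v, #{Y ∈ shadow J | v ∈ Y} + ∑ v, #{Y ∈ shadow J | v ∉ Y} = n * #(shadow J) := by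
    rw [← sum_add_distrib, sum_congr rfl fun v _ => card_filter_add_card_filter_not _]
    simp
  rw [sum_const, card_univ, Fintype.card_fin, smul_eq_mul] at a1
  have a4 : n * #(shadow J) = k * #(shadow J) + (q + 1) * #(shadow J) := by
    rw [← add_mul]; congr 1; omega
  omega

theorem SG_lower {n k s j d g : ℕ} (hg : g ∈ SG n (k + 1) d) (h : d < (s + j).choose j) :
    (k + 1) * d ≤ j * g + (j + 1) * s * d := by
  obtain ⟨A, a1, rfl, rfl⟩ := hg
  exact (le_shadow_add A k j a1).trans (Nat.add_le_add_left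
    (few_rich k s j _ (card_shadow a1) _ A a1 rfl h) _)

theorem large_c {K c i M : ℕ} (hM : 1 ≤ M) (h1 : i = 0 ∨ K * (c + i).choose i ≤ M)
    (h2 : K * M ≤ (c + i + 1).choose (i + 1)) : K ≤ c + 1 := by
  rcases h1 with rfl | h1
  · simpa using (Nat.le_mul_of_pos_right K hM).trans h2
  · have a0 : 0 < (c + i).choose i := Nat.choose_pos (by omega)
    have a1 := Nat.add_one_mul_choose_eq (c + i) i
    have a2 : K * K * (i + 1) * (c + i).choose i ≤ (c + i + 1) * (c + i).choose i := by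
      calc _ = K * (K * (c + i).choose i) * (i + 1) := by ring
        _ ≤ K * M * (i + 1) := by gcongr
        _ ≤ _ := by rw [a1]; gcongr
    have a3 := Nat.le_of_mul_le_mul_right a2 a0
    by_contra h
    have : (c + 2) * 2 * (i + 1) ≤ K * K * (i + 1) := by gcongr <;> omega
    nlinarith

/-- The upper bound between two powers. -/
theorem upper_off (i : ℕ) {δ : ℝ} (hδ : 0 < δ) : ∃ K : ℕ, ∀ n k q m d e f : ℕ,
    n = k + 1 + q → 1 ≤ m → m ≤ n.choose (k + 1) → (k + 1) * m = d * n → d + e = m → i + 1 ≤ q →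
    (i = 0 ∨ K * (k + 1 + i).choose i ≤ min d e) → K ≤ k + 2 →
    min d e ≤ (k + 1 + i + 1).choose (i + 1) → IsLeast (SR n (k + 1) m) f →
    (f : ℝ) * (i + 1) ≤ (1 + δ) * ((k + 1) * m) := by
  rcases Nat.eq_zero_or_pos i with rfl | hi
  · refine ⟨0, fun n k q m d e f _ _ _ _ _ _ _ _ _ hf => ?_⟩
    obtain ⟨J, j1, rfl, -, rfl⟩ := hf.1
    have : (#(shadow J) : ℝ) ≤ (k + 1) * #J := by exact_mod_cast shadow_le_mul J _ j1
    have : (0 : ℝ) ≤ δ * ((k + 1) * #J) := by positivity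
    push_cast
    linarith
  obtain ⟨L, hL⟩ := exists_nat_ge (3 * (i + 1) / δ + (i + 5))
  have i0 : (0 : ℝ) ≤ i := by positivity
  have hL0 : (0 : ℝ) ≤ 3 * (i + 1) / δ := by positivity
  have hL1 : i + 5 ≤ L := by exact_mod_cast (show (i : ℝ) + 5 ≤ L by linarith)
  have L0 : (0 : ℝ) < L := by linarith
  have hL2 : 3 * ((i : ℝ) + 1) ≤ δ * L := by
    rw [mul_comm δ, ← div_le_iff₀ hδ]; linarith
  obtain ⟨K1, hK1⟩ := upper_mid L i hi hL1
  refine ⟨(K1 + 1) * L, fun n k q m d e f hn hm1 hm hdm hde hq h1 hK h2 hf => ?_⟩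
  have h3 := h1.resolve_left hi.ne'
  rw [← Nat.choose_symm_add] at h3
  have hqe : q * m = e * n := by
    have : (k + 1) * m + q * m = d * n + e * n := by
      rw [← add_mul, ← add_mul, ← hn, hde, mul_comm]
    omega
  have hK' : K1 + 1 ≤ (K1 + 1) * L := Nat.le_mul_of_pos_right _ (by omega)
  have cm0 : (0 : ℝ) ≤ (k + 1) * m := by positivity
  by_cases hqK : K1 ≤ q
  · have a1 : K1 * (k + 1 + i).choose (k + 1) ≤ min d e :=
      (Nat.mul_le_mul_right _ (by omega)).trans h3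
    obtain ⟨J, j1, j2, j3, j4⟩ := hK1 n k q m d e hn (by omega) hqK hdm hde
      (a1.trans (min_le_left _ _)) (a1.trans (min_le_right _ _)) (by
        have b1 : m ≤ min d e * n := by
          rw [min_mul, ← hdm, ← hqe]
          exact le_min (Nat.le_mul_of_pos_left _ (by omega)) (Nat.le_mul_of_pos_left _ (by omega))
        have b2 := Nat.add_one_mul_choose_eq (k + 1 + i) i
        rw [← Nat.choose_symm_add] at b2
        have b3 : (k + 1 + i + 1).choose (i + 1) ≤ n * (k + 1 + i).choose (k + 1) :=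
          (Nat.le_mul_of_pos_right _ i.succ_pos).trans (b2 ▸ Nat.mul_le_mul_right _ (by omega))
        calc m ≤ n * (k + 1 + i).choose (k + 1) * n := b1.trans (by gcongr; exact h2.trans b3)
          _ = _ := by ring)
    have a2 : (f : ℝ) ≤ #(shadow J) := by exact_mod_cast hf.2 ⟨J, j1, j2, ⟨d, j3⟩, rfl⟩
    have a3 : 3 / (L : ℝ) * (i + 1) ≤ δ := by
      rw [div_mul_eq_mul_div, div_le_iff₀ L0]; exact hL2
    calc _ ≤ (1 / (i + 1) + 3 / L) * ((k + 1) * m) * ((i : ℝ) + 1) := by gcongr; exact a2.trans j4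
      _ = (1 + 3 / L * (i + 1)) * ((k + 1) * m) := by field_simp
      _ ≤ _ := by gcongr
  · have : NeZero n := ⟨by omega⟩
    obtain ⟨J, j1, j2, j3, j4⟩ := upper_cl (n := n) k (k + 1 + i) m d (by omega) (by omega) hm
      hm1 hdm
    have a2 : (f : ℝ) ≤ #(shadow J) := by exact_mod_cast hf.2 ⟨J, j1, j2, ⟨d, j3⟩, rfl⟩
    have a3 : L * (n * (k + 1 + i).choose (k + 1)) ≤ m := by
      apply Nat.le_of_mul_le_mul_left (c := K1 + 1) _ (by omega)
      calc _ = (K1 + 1) * L * (k + 1 + i).choose (k + 1) * n := by ring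
        _ ≤ e * n := Nat.mul_le_mul_right _ (h3.trans (min_le_right _ _))
        _ ≤ _ := by rw [← hqe]; gcongr; omega
    have a4 : (k + 1 + i - 1).choose k ≤ (k + 1 + i).choose (k + 1) := by
      rw [show k + 1 + i = k + i + 1 by omega, Nat.choose_succ_succ']
      exact Nat.le_add_right _ _
    have a5 : k + 1 ≤ (k + 1 + i).choose (k + 1) := by
      have := Nat.choose_le_choose (k + 1) (show k + 1 + 1 ≤ k + 1 + i by omega)
      rw [Nat.choose_succ_self_right] at this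
      omega
    have a6 : (L : ℝ) * (n * (k + 1 + i - 1).choose k) ≤ m := by
      exact_mod_cast le_trans (by gcongr) a3
    have a7 : (L : ℝ) * (n * (k + 1)) ≤ m := by exact_mod_cast le_trans (by gcongr) a3
    rw [show ((k + 1 + i : ℕ) : ℝ) - k = i + 1 by push_cast; ring] at j4
    apply le_of_mul_le_mul_left _ L0
    calc L * ((f : ℝ) * (i + 1)) ≤ L * ((k + 1) * (m + n * (k + 1 + i - 1).choose k) +
          (k + 1) ^ 2 * n * (i + 1)) := by gcongr; exact le_trans (by gcongr) j4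
      _ = L * ((k + 1) * m) + (k + 1) * (L * (n * (k + 1 + i - 1).choose k)) +
          (k + 1) * (L * (n * (k + 1))) * (i + 1) := by ring
      _ ≤ L * ((k + 1) * m) + (k + 1) * m + (k + 1) * m * (i + 1) := by gcongr
      _ = (L + (i + 2)) * ((k + 1) * m) := by ring
      _ ≤ (L + δ * L) * ((k + 1) * m) := by gcongr; linarith
      _ = _ := by ring

end Pool.Agent.P.MP_4f3dfd_co.Off
end

-- part Pool.Agent.P.MP_4f3dfd_co.BEnd
section

set_option autoImplicit false

namespace Pool.Agent.P.MP_4f3dfd_co.Off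

open Finset Pool.Agent.P.MP_4f3dfd_co.Asy

theorem small_s (L j : ℕ) (hL : 1 ≤ L) : ∃ K : ℕ, ∀ c M : ℕ, K ≤ c + 1 →
    K * M ≤ (c + j).choose j → ∃ s, M < (s + j).choose j ∧ L * s ≤ c := by
  refine ⟨(2 * L) ^ j + 2 * L + 1, fun c M h1 h2 => ⟨c / (2 * L) + 1, ?_, ?_⟩⟩
  all_goals
    have a1 : 2 * L * (c / (2 * L)) ≤ c := Nat.mul_div_le _ _
    have a2 : c < 2 * L * (c / (2 * L) + 1) := Nat.lt_mul_div_succ c (by omega)
    have a0 : 2 * L ≤ c := by have := Nat.zero_le ((2 * L) ^ j); omega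
    generalize c / (2 * L) = r at *
    have a3 : L * (r + 1) ≤ c := by nlinarith only [a0, a1]
  · have a4 := choose_scale (s := r + 1) (c := c) (le_trans (Nat.le_mul_of_pos_left _ hL) a3) j
    have a5 : (c + j).choose j ≤ (r + 1 + j).choose j * (2 * L) ^ j := by
      apply Nat.le_of_mul_le_mul_right (c := (r + 1) ^ j) _ (by positivity)
      rw [mul_assoc, ← mul_pow]
      exact a4.trans (by gcongr)
    have a6 : 0 < (r + 1 + j).choose j := Nat.choose_pos (by omega)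
    by_contra h
    have a7 : ((2 * L) ^ j + 2 * L + 1) * (r + 1 + j).choose j ≤ ((2 * L) ^ j + 2 * L + 1) * M := by
      gcongr; omega
    nlinarith only [Nat.zero_le (L * (r + 1 + j).choose j), h2, a5, a6, a7]
  · exact a3

/-- The two-sided estimate. -/
def Good (ε : ℝ) (n k q f g h : ℕ) : Prop :=
  max ((n : ℝ) * g / k) (n * h / q) ≤ (1 + ε) * f ∧
    (f : ℝ) ≤ (1 + ε) * max ((n : ℝ) * g / k) (n * h / q)

theorem link {n k m d f g : ℕ} (hdm : (k + 1) * m = d * n) (hf : f ∈ SR n (k + 1) m)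
    (hg : IsLeast (SG n k d) g) : n * g ≤ k * f := by
  obtain ⟨J, j1, -, j3, rfl⟩ := SR_deg hdm hf
  exact link_lower J j1 j3 fun B b1 b2 => hg.2 ⟨B, b1, b2, rfl⟩

theorem qm {n k q m d e : ℕ} (hn : n = k + 1 + q) (hdm : (k + 1) * m = d * n)
    (hde : d + e = m) : q * m = e * n := by
  have : (k + 1) * m + q * m = d * n + e * n := by
    rw [← add_mul, ← add_mul, ← hn, hde, mul_comm]
  omega

theorem fixed (i : ℕ) {ε : ℝ} (hε : 0 < ε) : ∃ K : ℕ, ∀ n k q m d e f g h : ℕ,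
    n = k + 1 + q → 1 ≤ k → 1 ≤ m → m ≤ n.choose (k + 1) → (k + 1) * m = d * n → d + e = m →
    i + 2 ≤ q → (i = 0 ∨ K * (k + 1 + i).choose i ≤ min d e) →
    K * min d e ≤ (k + 1 + i + 1).choose (i + 1) → IsLeast (SR n (k + 1) m) f →
    IsLeast (SG n k d) g → IsLeast (SG n (k + 1) e) h → Good ε n k q f g h := by
  obtain ⟨δ, hδ, hδ1, hδ2⟩ : ∃ δ : ℝ, 0 < δ ∧ δ < 1 ∧ 1 + δ = (1 + ε) * (1 - δ) :=
    ⟨ε / (2 + ε), by positivity, by rw [div_lt_one (by positivity)]; linarith, by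
      field_simp; ring⟩
  obtain ⟨K1, hK1⟩ := upper_off i hδ
  obtain ⟨L, hL⟩ := exists_nat_ge (2 * ((i : ℝ) + 2) ^ 2 / δ + 1)
  have i0 : (0 : ℝ) ≤ i := by positivity
  have hL0 : (0 : ℝ) ≤ 2 * ((i : ℝ) + 2) ^ 2 / δ := by positivity
  have hL1 : 1 ≤ L := by exact_mod_cast (show (1 : ℝ) ≤ L by linarith)
  have L0 : (0 : ℝ) < L := by linarith
  have hL2 : 2 * ((i : ℝ) + 2) ^ 2 ≤ δ * L := by
    rw [mul_comm δ, ← div_le_iff₀ hδ]; linarith
  obtain ⟨K2, hK2⟩ := small_s L (i + 1) hL1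
  refine ⟨K1 + K2 + L, fun n k q m d e f g h hn hk hm1 hm hdm hde hq h1 h2 hf hg hh => ?_⟩
  have hqe := qm hn hdm hde
  have hM : 1 ≤ min d e := by
    apply le_min <;> apply Nat.pos_of_ne_zero <;> rintro rfl
    · have : 0 < (k + 1) * m := by positivity
      omega
    · have : 0 < q * m := Nat.mul_pos (by omega) hm1
      omega
  have hc := large_c hM h1 h2
  obtain ⟨s, s1, s2⟩ := hK2 (k + 1) (min d e) (by omega)
    (le_trans (Nat.mul_le_mul_right _ (by omega)) h2)
  have u1 := hK1 n k q m d e f hn hm1 hm hdm hde (by omega)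
    (h1.imp id fun h => le_trans (Nat.mul_le_mul_right _ (by omega)) h) (by omega)
    (le_trans (Nat.le_mul_of_pos_left _ (by omega)) h2) hf
  have s3 : 2 * ((i : ℝ) + 2) ^ 2 * s ≤ δ * (k + 1) := by
    have : (L : ℝ) * s ≤ k + 1 := by exact_mod_cast s2
    calc _ ≤ δ * L * s := by gcongr
      _ = δ * (L * s) := by ring
      _ ≤ _ := by gcongr
  have k1 : (1 : ℝ) ≤ k := by exact_mod_cast hk
  have q0 : (0 : ℝ) < q := by exact_mod_cast (show 0 < q by omega)
  have s0 : (0 : ℝ) ≤ s := by positivity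
  have s4 : ((i : ℝ) + 2) * s ≤ δ * k := by
    have : 0 ≤ ((i : ℝ) + 2) * s * i := by positivity
    nlinarith only [hε, hδ2, s3, k1, this]
  have u2 : (1 - δ) * ((k + 1) * m) ≤ f * ((i : ℝ) + 1) := by
    obtain ⟨J, j1, j2, j3, rfl⟩ := SR_deg hdm hf.1
    have := lower_off J k s (i + 1) m d q j1 j2 j3 hk (by omega) (by simpa using hn) hq
      (by rwa [show m - d = e by omega])
    have a : ((k : ℝ) + 1) * m ≤ (i + 1) * #(shadow J) + 2 * (i + 2) ^ 2 * s * m := by
      exact_mod_cast this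
    have := mul_le_mul_of_nonneg_right s3 (Nat.cast_nonneg (α := ℝ) m)
    linarith only [a, this]
  have rdm : ((k : ℝ) + 1) * m = d * n := by exact_mod_cast hdm
  have rqe : (q : ℝ) * m = e * n := by exact_mod_cast hqe
  have n0 : (0 : ℝ) ≤ n := by positivity
  have u3 : (h : ℝ) * (i + 1) ≤ (1 + δ) * ((k + 1) * e) := by
    have e0 : (0 : ℝ) ≤ δ * ((k + 1) * e) := by positivity
    rcases h1 with rfl | h1
    · obtain ⟨A, a1, a2, rfl⟩ := hh.1
      have : (#(shadow A) : ℝ) ≤ (k + 1) * e := by exact_mod_cast a2 ▸ shadow_le_mul A _ a1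
      push_cast
      linarith only [e0, this]
    · obtain ⟨z, z1, z2⟩ := exists_chain (n := n) (k := k) (i := i) (e := e) (by omega) (by omega)
      rw [Nat.choose_symm_add] at z2
      have a1 : (h : ℝ) * (i + 1) ≤ (k + 1) * (e + (k + 1 + i).choose i * (i + 1)) := by
        exact_mod_cast (Nat.mul_le_mul_right _ (hh.2 z1)).trans z2
      have a2 : (L : ℝ) * (k + 1 + i).choose i ≤ e := by
        exact_mod_cast le_trans (Nat.mul_le_mul_right _ (by omega)) (h1.trans (min_le_right _ _))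
      have a3 : ((k + 1 + i).choose i : ℝ) * (i + 1) ≤ δ * e := by
        calc _ ≤ (k + 1 + i).choose i * (δ * L) := by gcongr; nlinarith only [hδ, hδ1, hL2]
          _ = δ * (L * (k + 1 + i).choose i) := by ring
          _ ≤ _ := by gcongr
      calc _ ≤ ((k : ℝ) + 1) * (e + δ * e) := a1.trans (by gcongr)
        _ = _ := by ring
  have u4 : (1 - δ) * ((k + 1) * m) ≤ max ((n : ℝ) * g / k) (n * h / q) * (i + 1) := by
    rcases min_choice d e with hM | hM <;> rw [hM] at s1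
    · refine le_trans ?_ (mul_le_mul_of_nonneg_right (le_max_left _ _) (by positivity))
      obtain ⟨r, rfl⟩ : ∃ r, k = r + 1 := ⟨k - 1, by omega⟩
      have a : (((r + 1 : ℕ) : ℝ)) * d ≤ (i + 1) * g + (i + 2) * s * d := by
        exact_mod_cast SG_lower hg.1 s1
      generalize r + 1 = k at *
      have a2 := mul_le_mul_of_nonneg_right s4 (Nat.cast_nonneg (α := ℝ) d)
      rw [div_mul_eq_mul_div, le_div_iff₀ (by linarith only [hδ, hδ1, k1]), rdm]
      calc _ = n * ((1 - δ) * (k * d)) := by ring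
        _ ≤ n * ((i + 1) * g) := mul_le_mul_of_nonneg_left (by linarith only [a, a2]) n0
        _ = _ := by ring
    · refine le_trans ?_ (mul_le_mul_of_nonneg_right (le_max_right _ _) (by positivity))
      have a : ((k : ℝ) + 1) * e ≤ (i + 1) * h + (i + 2) * s * e := by
        exact_mod_cast SG_lower hh.1 s1
      have a2 := mul_le_mul_of_nonneg_right s4 (Nat.cast_nonneg (α := ℝ) e)
      have a3 : (0 : ℝ) ≤ δ * e := by positivity
      rw [div_mul_eq_mul_div, le_div_iff₀ q0]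
      calc _ = (1 - δ) * (k + 1) * (q * m) := by ring
        _ = n * ((1 - δ) * ((k + 1) * e)) := by rw [rqe]; ring
        _ ≤ n * ((i + 1) * h) := mul_le_mul_of_nonneg_left (by linarith only [a, a2, a3]) n0
        _ = _ := by ring
  have i1 : (0 : ℝ) < i + 1 := by positivity
  have f0 : (0 : ℝ) ≤ f := by positivity
  refine ⟨max_le ?_ ?_, ?_⟩
  · have : (n : ℝ) * g ≤ k * f := by exact_mod_cast link hdm hf.1 hg
    rw [div_le_iff₀ (by linarith only [hδ, hδ1, k1])]
    have : 0 ≤ ε * f * k := by positivity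
    linarith
  · rw [div_le_iff₀ q0]
    apply le_of_mul_le_mul_right _ i1
    calc _ = n * (h * ((i : ℝ) + 1)) := by ring
      _ ≤ n * ((1 + δ) * ((k + 1) * e)) := by gcongr
      _ = (1 + δ) * (k + 1) * (e * n) := by ring
      _ = (1 + ε) * q * ((1 - δ) * ((k + 1) * m)) := by rw [← rqe, hδ2]; ring
      _ ≤ (1 + ε) * q * (f * (i + 1)) := by gcongr
      _ = _ := by ring
  · apply le_of_mul_le_mul_right _ i1
    calc _ ≤ (1 + ε) * ((1 - δ) * ((k + 1) * m)) := by rw [← mul_assoc, ← hδ2]; exact u1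
      _ ≤ (1 + ε) * (max ((n : ℝ) * g / k) (n * h / q) * (i + 1)) := by gcongr
      _ = _ := by ring

theorem good_left {ε : ℝ} {L n k q m d e f g h : ℕ} (hε : 0 < ε) (hL : 1 ≤ ε * L) (hq : L ≤ q)
    (hn : n = k + 1 + q) (hk : 1 ≤ k) (hdm : (k + 1) * m = d * n) (hde : d + e = m)
    (hf : f ∈ SR n (k + 1) m) (hg : IsLeast (SG n k d) g) (hh : IsLeast (SG n (k + 1) e) h) :
    max ((n : ℝ) * g / k) (n * h / q) ≤ (1 + ε) * f := by
  have k1 : (1 : ℝ) ≤ k := by exact_mod_cast hk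
  have q1 : (1 : ℝ) ≤ ε * q := hL.trans (by gcongr)
  have q0 : (0 : ℝ) < q := by
    by_contra h
    nlinarith only [hε, q1, h]
  have f0 : (0 : ℝ) ≤ f := by positivity
  refine max_le ?_ ?_
  · have : (n : ℝ) * g ≤ k * f := by exact_mod_cast link hdm hf hg
    rw [div_le_iff₀ (by linarith)]
    have : 0 ≤ ε * f * k := by positivity
    linarith
  · have : (n : ℝ) * h ≤ (q + 1) * f := by exact_mod_cast colink hn hdm hde hf hh
    rw [div_le_iff₀ q0]
    nlinarith only [q1, this]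

/-- The three ranges of the link bound. -/
theorem links {ε : ℝ} (hε : 0 < ε) : ∃ K : ℕ, ∀ n k q m d e x f g h : ℕ,
    n = k + 1 + q → 1 ≤ k → 1 ≤ m → m ≤ n.choose (k + 1) → (k + 1) * m = d * n → d + e = m →
    (k + x).choose k ≤ d → d < (k + 1 + x).choose k → IsLeast (SR n (k + 1) m) f →
    IsLeast (SG n k d) g → IsLeast (SG n (k + 1) e) h →
    ((K ≤ k + 1 ∧ K ≤ x) ∨ (K ≤ x ∧ K * (k + 1 + x) ≤ n) ∨
      (K ≤ k + 1 ∧ K * (k + 1 + x) ≤ n)) →
    (k : ℝ) * f ≤ (1 + ε) * (n * g) ∧ Good ε n k q f g h := by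
  obtain ⟨K, hK⟩ := final ε hε
  obtain ⟨L, hL⟩ := exists_nat_ge (1 / ε)
  rw [div_le_iff₀' hε] at hL
  refine ⟨K + L + 1, fun n k q m d e x f g h hn hk hm1 hm hdm hde h1 h2 hf hg hh hR => ?_⟩
  have hx := x_le hk hm1 hm hdm h1
  have a0 : (K + L + 1) * (k + 1 + x) ≤ n → K * (k + 1 + x) ≤ n ∧ L ≤ q := fun h => by
    have : L ≤ L * (k + 1 + x) := Nat.le_mul_of_pos_right _ (by omega)
    rw [add_mul, add_mul] at h
    omega
  obtain ⟨f', g', a1, a2, -, a3, -⟩ := hK n (k + 1) m d (k + 1 + x) hm1 hm hdm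
    (by rwa [show k + 1 + x - 1 = k + x by omega]) h2 (by
      rcases hR with h | h | h
      · left; omega
      · exact .inr (.inl ⟨by omega, (a0 h.2).1⟩)
      · exact .inr (.inr ⟨by omega, (a0 h.2).1⟩))
  obtain rfl := hf.unique a1
  obtain rfl := hg.unique a2
  rw [show ((k + 1 : ℕ) : ℝ) - 1 = k by push_cast; ring] at a3
  refine ⟨a3, good_left hε hL (by
    rcases hR with h | h | h
    · omega
    · exact (a0 h.2).2
    · exact (a0 h.2).2) hn hk hdm hde hf.1 hg hh, ?_⟩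
  have k1 : (0 : ℝ) < k := by exact_mod_cast hk
  refine le_trans ?_ (mul_le_mul_of_nonneg_left (le_max_left _ _) (by linarith only [hε]))
  rw [← mul_div_assoc, le_div_iff₀' k1]
  exact a3

theorem x_ge {k x d T : ℕ} (h1 : (k + 1 + T).choose (k + 1) ≤ d) (h2 : d < (k + 1 + x).choose k) :
    T ≤ x := by
  by_contra h
  have a1 : (k + 1 + x).choose k ≤ (k + T).choose k := Nat.choose_le_choose _ (by omega)
  rw [show k + 1 + T = k + T + 1 by omega, Nat.choose_succ_succ'] at h1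
  omega

/-- Between two consecutive binomials. -/
theorem offwin {ε : ℝ} (hε : 0 < ε) : ∃ K : ℕ, ∀ n k q m d e x f g h i : ℕ,
    n = k + 1 + q → 1 ≤ k → 1 ≤ m → m ≤ n.choose (k + 1) → (k + 1) * m = d * n → d + e = m →
    (k + x).choose k ≤ d → d < (k + 1 + x).choose k → IsLeast (SR n (k + 1) m) f →
    IsLeast (SG n k d) g → IsLeast (SG n (k + 1) e) h → i + 2 ≤ q →
    (i = 0 ∨ K * (k + 1 + i).choose i ≤ min d e) →
    K * min d e ≤ (k + 1 + i + 1).choose (i + 1) → Good ε n k q f g h := by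
  obtain ⟨T, hT⟩ := links hε
  choose Kf hKf using fun i => fixed i hε
  refine ⟨∑ j ∈ range (T + 1), Kf j + T + 1,
    fun n k q m d e x f g h i hn hk hm1 hm hdm hde h1 h2 hf hg hh hq h3 h4 => ?_⟩
  by_cases hi : i ≤ T
  · have : Kf i ≤ ∑ j ∈ range (T + 1), Kf j :=
      single_le_sum (fun _ _ => Nat.zero_le _) (mem_range.2 (by omega))
    exact hKf i n k q m d e f g h hn hk hm1 hm hdm hde hq
      (h3.imp id fun h => le_trans (Nat.mul_le_mul_right _ (by omega)) h)
      (le_trans (Nat.mul_le_mul_right _ (by omega)) h4) hf hg hh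
  · have a1 : (k + 1 + i).choose i ≤ min d e :=
      le_trans (Nat.le_mul_of_pos_left _ (by omega)) (h3.resolve_left (by omega))
    have := large_c (le_trans (Nat.choose_pos (by omega)) a1) h3 h4
    have := x_ge (Nat.choose_symm_add.trans_le (a1.trans (min_le_left _ _))) h2
    exact (hT n k q m d e x f g h hn hk hm1 hm hdm hde h1 h2 hf hg hh (.inl (by omega))).2

/-- Few points outside a member. -/
theorem colinks {ε : ℝ} (hε : 0 < ε) : ∃ K : ℕ, ∀ n k q m d e x f g h : ℕ,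
    n = k + 1 + q → 1 ≤ k → 1 ≤ m → m ≤ n.choose (k + 1) → (k + 1) * m = d * n → d + e = m →
    (k + x).choose k ≤ d → d < (k + 1 + x).choose k → IsLeast (SR n (k + 1) m) f →
    IsLeast (SG n k d) g → IsLeast (SG n (k + 1) e) h → K ≤ q → K * q ≤ n →
    Good ε n k q f g h := by
  obtain ⟨T, hT⟩ := links hε
  obtain ⟨K1, hK1⟩ := offwin hε
  obtain ⟨L, hL⟩ := exists_nat_ge (5 * ((T : ℝ) + 1) / ε + 6)
  have T0 : (0 : ℝ) ≤ T := by positivity
  have hL0 : (0 : ℝ) ≤ 5 * ((T : ℝ) + 1) / ε := by positivity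
  have hL1 : 6 ≤ L := by exact_mod_cast (show (6 : ℝ) ≤ L by linarith)
  have L0 : (0 : ℝ) < L := by linarith
  have hL2 : 5 * ((T : ℝ) + 1) ≤ ε * L := by
    rw [mul_comm ε, ← div_le_iff₀ hε]; linarith
  obtain ⟨K2, hK2⟩ := upper_co L T hL1
  refine ⟨T + K1 * L + K2 + L,
    fun n k q m d e x f g h hn hk hm1 hm hdm hde h1 h2 hf hg hh hq hqn => ?_⟩
  have hqe := qm hn hdm hde
  have hcq : q ≤ k + 1 := by
    have : 2 * q ≤ n := le_trans (Nat.mul_le_mul_right _ (by omega)) hqn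
    omega
  have hed : e ≤ d := Nat.le_of_mul_le_mul_right (c := n)
    (by rw [← hqe, ← hdm]; exact Nat.mul_le_mul_right _ hcq) (by omega)
  by_cases he : (k + 1 + T).choose (k + 1) ≤ e
  · have := x_ge (he.trans hed) h2
    exact (hT n k q m d e x f g h hn hk hm1 hm hdm hde h1 h2 hf hg hh (.inl (by omega))).2
  by_cases hLe : L ≤ e
  · refine ⟨good_left (L := L) hε (by linarith only [hL2]) (by omega) hn hk hdm hde hf.1 hg hh, ?_⟩
    obtain ⟨A, a1, a2, a3⟩ := hh.1
    have hTn : k + 1 + T ≤ n := by omega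
    obtain ⟨G, g1, g2, g3⟩ := exists_opt hTn A a1 (by omega)
    have hr := kk_ratio hTn A a1 (by omega)
    rw [a2, a3, show k + 1 + T + 1 - (k + 1) = T + 1 by omega] at hr
    obtain ⟨J, j1, j2, j3, j4⟩ := hK2 n (k + 1) q m d e hn (by omega)
      (le_trans (Nat.mul_le_mul_right _ (by omega)) hqn) hdm hde hLe (by
        rw [Nat.choose_symm_add] at he
        exact (not_le.1 he).le.trans ((Nat.choose_le_pow _ _).trans (Nat.pow_le_pow_left hTn _)))
      G g1 (g2.trans a2)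
    have b1 : (f : ℝ) ≤ #(shadow J) := by exact_mod_cast hf.2 ⟨J, j1, j2, ⟨d, j3⟩, rfl⟩
    have b2 : (#(shadow G) : ℝ) ≤ h := by exact_mod_cast a3 ▸ g3
    have q0 : (0 : ℝ) < q := by exact_mod_cast (show 0 < q by omega)
    have b3 : ((k + 1 : ℕ) : ℝ) * m ≤ (T + 1) * (n * h / q) := by
      rw [← mul_div_assoc, le_div_iff₀ q0]
      have : (k + 1) * m * q ≤ (T + 1) * (n * h) := by
        calc _ = n * (e * (k + 1)) := by rw [mul_assoc, mul_comm m, hqe]; ring
          _ ≤ n * (h * (T + 1)) := Nat.mul_le_mul_left _ hr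
          _ = _ := by ring
      exact_mod_cast this
    refine le_trans ?_ (mul_le_mul_of_nonneg_left (le_max_right _ _) (by linarith only [hε]))
    calc _ ≤ n * h / q + 5 / L * ((T + 1) * ((n : ℝ) * h / q)) :=
          b1.trans (j4.trans (by gcongr))
      _ = (1 + 5 * (T + 1) / L) * ((n : ℝ) * h / q) := by ring
      _ ≤ _ := by gcongr; rwa [div_le_iff₀ L0]
  · refine hK1 n k q m d e x f g h 0 hn hk hm1 hm hdm hde h1 h2 hf hg hh (by omega) (.inl rfl) ?_
    have : K1 * min d e ≤ K1 * L := Nat.mul_le_mul_left _ ((min_le_right _ _).trans (by omega))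
    rw [zero_add, Nat.choose_one_right]
    omega

/-- The link bound is always of the right order. -/
theorem uniform : ∃ C : ℝ, ∀ n k q m d e x f g h : ℕ,
    n = k + 1 + q → 1 ≤ k → 1 ≤ m → m ≤ n.choose (k + 1) → (k + 1) * m = d * n → d + e = m →
    (k + x).choose k ≤ d → d < (k + 1 + x).choose k → IsLeast (SR n (k + 1) m) f →
    IsLeast (SG n k d) g → IsLeast (SG n (k + 1) e) h → (k : ℝ) * f ≤ C * (n * g) := by
  obtain ⟨K, hK⟩ := links one_pos
  refine ⟨(K + 2 + 2 * (K * K + 1) ^ K : ℕ),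
    fun n k q m d e x f g h hn hk hm1 hm hdm hde h1 h2 hf hg hh => ?_⟩
  have hx := x_le hk hm1 hm hdm h1
  obtain ⟨A, a1, a2, a3⟩ := hg.1
  have hr := kk_ratio hx A a1 (by omega)
  rw [a2, a3, show k + 1 + x + 1 - k = x + 2 by omega] at hr
  by_cases hR : K ≤ x ∧ (K ≤ k + 1 ∨ K * (k + 1 + x) ≤ n)
  · refine (hK n k q m d e x f g h hn hk hm1 hm hdm hde h1 h2 hf hg hh (by tauto)).1.trans ?_
    gcongr
    exact_mod_cast (show 1 + 1 ≤ K + 2 + 2 * (K * K + 1) ^ K by omega)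
  obtain ⟨J, j1, j2, -, j4⟩ := hf.1
  norm_cast
  by_cases hxK : x < K
  · calc k * f ≤ k * ((k + 1) * m) := Nat.mul_le_mul_left _ (j4 ▸ j2 ▸ shadow_le_mul J _ j1)
      _ = n * (d * k) := by rw [hdm]; ring
      _ ≤ n * (g * (K + 2 + 2 * (K * K + 1) ^ K)) :=
          Nat.mul_le_mul_left _ (hr.trans (Nat.mul_le_mul_left _ (by omega)))
      _ = _ := by ring
  have b1 : f ≤ n.choose k := by
    have := card_le_card (s := shadow J) (t := powersetCard k univ) fun Y hY =>
      mem_powersetCard.2 ⟨subset_univ _, card_shadow j1 Y hY⟩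
    simpa [j4] using this
  have b2 : n ≤ (K * K + 1) * (x + 1) := by
    have : K * (k + 1 + x) ≤ K * (K * (x + 1)) := Nat.mul_le_mul_left _ (by
      have : k + 1 ≤ K := by omega
      nlinarith only [hk, hxK, this])
    have : n ≤ K * (k + 1 + x) := by omega
    nlinarith
  obtain ⟨r, rfl⟩ : ∃ r, k = r + 1 := ⟨k - 1, by omega⟩
  have b3 : (r + 1).factorial * f ≤ n * ((K * K + 1) ^ K * (x + 1) ^ r) := by
    calc _ ≤ n.descFactorial (r + 1) := by
          rw [Nat.descFactorial_eq_factorial_mul_choose]; gcongr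
      _ ≤ n * n ^ r := by rw [← pow_succ']; exact Nat.descFactorial_le_pow _ _
      _ ≤ n * ((K * K + 1) ^ r * (x + 1) ^ r) := by rw [← mul_pow]; gcongr
      _ ≤ _ := by gcongr <;> omega
  have b4 : (x + 1) ^ (r + 1) ≤ (r + 1).factorial * d := by
    have := Nat.pow_sub_le_descFactorial (r + 1 + x) (r + 1)
    rw [show r + 1 + x + 1 - (r + 1) = x + 1 by omega,
      Nat.descFactorial_eq_factorial_mul_choose] at this
    exact this.trans (Nat.mul_le_mul_left _ h1)
  apply Nat.le_of_mul_le_mul_left (c := (r + 1).factorial * (x + 1)) _ (by positivity)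
  calc _ = (r + 1) * (x + 1) * ((r + 1).factorial * f) := by ring
    _ ≤ (r + 1) * (x + 1) * (n * ((K * K + 1) ^ K * (x + 1) ^ r)) := by gcongr
    _ = (r + 1) * n * (K * K + 1) ^ K * (x + 1) ^ (r + 1) := by ring
    _ ≤ (r + 1) * n * (K * K + 1) ^ K * ((r + 1).factorial * d) := by gcongr
    _ = n * (K * K + 1) ^ K * (r + 1).factorial * (d * (r + 1)) := by ring
    _ ≤ n * (K * K + 1) ^ K * (r + 1).factorial * (g * (2 * (x + 1))) :=
        Nat.mul_le_mul_left _ (hr.trans (Nat.mul_le_mul_left _ (by omega)))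
    _ = (r + 1).factorial * (x + 1) * (2 * (K * K + 1) ^ K * (n * g)) := by ring
    _ ≤ _ := by gcongr; omega

theorem least {S : Set ℕ} (h : S.Nonempty) : ∃ f, IsLeast S f :=
  ⟨_, Nat.sInf_mem h, fun _ hs => Nat.sInf_le hs⟩

theorem SG_least {n c d : ℕ} (h : d ≤ n.choose c) : ∃ g, IsLeast (SG n c d) g := by
  obtain ⟨C, hC, hc⟩ := exists_initSeg n c d h
  exact least ⟨_, C, fun X hX => hC.1 hX, hc, rfl⟩

theorem master : ∃ C : ℝ, ∀ ε : ℝ, 0 < ε → ∃ K : ℕ, ∀ n c m d x : ℕ, 1 ≤ m → m ≤ n.choose c →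
    c < n → c * m = d * n → (x - 1).choose (c - 1) ≤ d → d < x.choose (c - 1) →
    ∃ f g h : ℕ, IsLeast (SR n c m) f ∧ IsLeast (SG n (c - 1) d) g ∧
      IsLeast (SG n c (m - d)) h ∧
      n * g ≤ (c - 1) * f ∧ n * h ≤ (n - c + 1) * f ∧ ((c : ℝ) - 1) * f ≤ C * (n * g) ∧
      (((K ≤ c ∧ c + K ≤ x) ∨ (c + K ≤ x ∧ K * x ≤ n) ∨ (K ≤ c ∧ K * x ≤ n) ∨
        (c + K ≤ n ∧ K * (n - c) ≤ n) ∨
        ∃ i : ℕ, c + i + 2 ≤ n ∧ (i = 0 ∨ K * (c + i).choose i ≤ min d (m - d)) ∧
          K * min d (m - d) ≤ (c + i + 1).choose (i + 1)) →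
        max ((n : ℝ) * g / (c - 1)) (n * h / (n - c)) ≤ (1 + ε) * f ∧
        (f : ℝ) ≤ (1 + ε) * max ((n : ℝ) * g / (c - 1)) (n * h / (n - c))) := by
  obtain ⟨C, hC⟩ := uniform
  refine ⟨C, fun ε hε => ?_⟩
  obtain ⟨K1, hK1⟩ := links hε
  obtain ⟨K2, hK2⟩ := offwin hε
  obtain ⟨K3, hK3⟩ := colinks hε
  refine ⟨K1 + K2 + K3, fun n c m d x hm1 hm hcn hdm hd1 hd2 => ?_⟩
  have hc2 : 2 ≤ c := by
    by_contra h
    have : c - 1 = 0 := by omega
    rw [this, Nat.choose_zero_right] at hd1 hd2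
    omega
  have hd0 : 0 < d := by
    rcases Nat.eq_zero_or_pos d with rfl | h
    · have : 0 < c * m := Nat.mul_pos (by omega) hm1
      omega
    · exact h
  have hcx : c ≤ x := by
    by_contra h
    rcases (show x = c - 1 ∨ x < c - 1 by omega) with e | e
    · rw [e, Nat.choose_self] at hd2
      omega
    · rw [Nat.choose_eq_zero_of_lt e] at hd2
      omega
  obtain ⟨k, rfl⟩ : ∃ k, c = k + 1 := ⟨c - 1, by omega⟩
  obtain ⟨t, rfl⟩ : ∃ t, x = k + 1 + t := ⟨x - (k + 1), by omega⟩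
  obtain ⟨q, hn⟩ : ∃ q, n = k + 1 + q := ⟨n - (k + 1), by omega⟩
  rw [show k + 1 + t - 1 = k + t by omega] at hd1
  simp only [Nat.add_sub_cancel] at hd1 hd2 ⊢
  have hk : 1 ≤ k := by omega
  have hdm' : d ≤ m := Nat.le_of_mul_le_mul_right (c := n)
    (by rw [← hdm, mul_comm]; exact Nat.mul_le_mul_left _ hcn.le) (by omega)
  obtain ⟨e, hde⟩ : ∃ e, d + e = m := ⟨m - d, by omega⟩
  have : NeZero n := ⟨by omega⟩
  obtain ⟨J, j1, j2, j3, -⟩ := upper_cl (n := n) k (k + 1) m d le_rfl hcn.le hm hm1 hdm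
  obtain ⟨f, hf⟩ := least (S := SR n (k + 1) m) ⟨_, J, j1, j2, ⟨d, j3⟩, rfl⟩
  obtain ⟨g, hg⟩ := SG_least
    (hd2.le.trans (Nat.choose_le_choose k (x_le hk hm1 hm hdm hd1)))
  obtain ⟨h, hh⟩ := SG_least (n := n) (c := k + 1) (d := e) (by omega)
  have e1 : ((k + 1 : ℕ) : ℝ) - 1 = k := by push_cast; ring
  have e2 : (n : ℝ) - (k + 1 : ℕ) = q := by rw [hn]; push_cast; ring
  rw [show m - d = e by omega, show n - (k + 1) = q by omega, e1, e2]
  refine ⟨f, g, h, hf, hg, hh, link hdm hf.1 hg, colink hn hdm hde hf.1 hh,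
    hC n k q m d e t f g h hn hk hm1 hm hdm hde hd1 hd2 hf hg hh, fun hR => ?_⟩
  have a1 := fun h => (hK1 n k q m d e t f g _ hn hk hm1 hm hdm hde hd1 hd2 hf hg hh h).2
  have a2 : ∀ {a b y z : ℕ}, a ≤ b → b * y ≤ z → a * y ≤ z := fun h1 h2 =>
    (Nat.mul_le_mul_right _ h1).trans h2
  rcases hR with r | r | r | r | ⟨i, r1, r2, r3⟩
  · exact a1 (.inl (by omega))
  · exact a1 (.inr (.inl ⟨by omega, a2 (by omega) r.2⟩))
  · exact a1 (.inr (.inr ⟨by omega, a2 (by omega) r.2⟩))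
  · exact hK3 n k q m d e t f g h hn hk hm1 hm hdm hde hd1 hd2 hf hg hh (by omega)
      (a2 (by omega) r.2)
  · exact hK2 n k q m d e t f g h i hn hk hm1 hm hdm hde hd1 hd2 hf hg hh (by omega)
      (r2.imp id (a2 (by omega))) (a2 (by omega) r3)

end Pool.Agent.P.MP_4f3dfd_co.Off
end
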