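import Mathlib
import Pool.Agent.K.MP_4f3dfd_co.C1
import Pool.Agent.K.MP_4f3dfd_co.C3

-- part Pool.Agent.P.MP_4f3dfd_co.EDefs
section

set_option autoImplicit false
set_option linter.unusedSectionVars false
set_option linter.unusedVariables false

namespace Pool.Agent.P.MP_4f3dfd_co.Ex

open Finset Real

variable {V : Type*} [DecidableEq V]

/-- Number of members of `E` whose trace on `S` is `x`. -/
def cnt (E : Finset (Finset V)) (S x : Finset V) : ℕ := #{X ∈ E | X ∩ S = x}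

/-- The fibre of `E` over the trace `x` on `S`. -/
def fib (E : Finset (Finset V)) (S x : Finset V) : Finset (Finset V) :=
  ({X ∈ E | X ∩ S = x}).image (· \ S)

/-- Number of all `c`-subsets of `G` with trace `x` on `S` (when `x` has at most `c` points). -/
def tot (G : Finset V) (c : ℕ) (S x : Finset V) : ℕ := (#G - #S).choose (c - #x)

/-- Average over the `r`-subsets `S` of `G` of the sum over all traces `x` on `S`. -/
noncomputable def Av (G : Finset V) (r : ℕ) (Φ : Finset V → Finset V → ℝ) : ℝ :=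
  (∑ S ∈ powersetCard r G, ∑ x ∈ S.powerset, Φ S x) / ((#G).choose r : ℝ)

/-- `T * (b / T) ^ p`. -/
noncomputable def wp (T b : ℕ) (p : ℝ) : ℝ := (T : ℝ) * ((b : ℝ) / T) ^ p

/-- The weighted `p`-th power of the conditional density. -/
noncomputable def pw (E : Finset (Finset V)) (G : Finset V) (c : ℕ) (p : ℝ) (S x : Finset V) : ℝ :=
  wp (tot G c S x) (cnt E S x) p

/-- Members of `D` avoiding `k` whose extension by `k` is not in `J`. -/
def blk (J D : Finset (Finset V)) (k : V) : Finset (Finset V) :=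
  {Y ∈ D | k ∉ Y ∧ insert k Y ∉ J}

/-- The excess of a pair. -/
def exc (G : Finset V) (J D : Finset (Finset V)) : ℕ := ∑ k ∈ G, #(blk J D k)

/-- Degree of a point. -/
def deg (A : Finset (Finset V)) (i : V) : ℕ := #{X ∈ A | i ∈ X}

/-- `J` is a family of `c`-subsets of `G`, `D` a family of `(c-1)`-subsets containing its shadow. -/
structure Pair (G : Finset V) (c : ℕ) (J D : Finset (Finset V)) : Prop where
  pos : 1 ≤ c
  hJ : J ⊆ powersetCard c G
  hD : D ⊆ powersetCard (c - 1) G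
  sh : ∀ X ∈ J, ∀ i ∈ X, X.erase i ∈ D

/-- Binary relative entropy. -/
noncomputable def kl (q u : ℝ) : ℝ := q * log (q / u) + (1 - q) * log ((1 - q) / (1 - u))

/-- Mass of the atypical states. -/
noncomputable def atyp (G : Finset V) (c : ℕ) (η : ℝ) (S x : Finset V) : ℝ :=
  if #x ≤ c ∧ η * ((#G : ℝ) - #S) < |(c : ℝ) - #x - c / #G * ((#G : ℝ) - #S)| then tot G c S x else 0

/-- Bound for the atypical mass. -/
noncomputable def zeta (n : ℕ) (η N : ℝ) : ℝ := 2 * √n * (n + 1) * exp (-(η ^ 2 * N / 2))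

/-- Product measure of a set. -/
noncomputable def pm (H : Finset V) (q : V → ℝ) (X : Finset V) : ℝ :=
  (∏ i ∈ X, q i) * ∏ i ∈ H \ X, (1 - q i)

/-- Complements of non-members. -/
def co {n : ℕ} (k : ℕ) (F : Finset (Finset (Fin n))) : Finset (Finset (Fin n)) :=
  {Z ∈ powersetCard k univ | Zᶜ ∉ F}

/-- Regular `c`-families of size `m`. -/
def Reg (n c m : ℕ) (J : Finset (Finset (Fin n))) : Prop :=
  (∀ X ∈ J, #X = c) ∧ #J = m ∧ ∃ d : ℕ, ∀ i : Fin n, #{X ∈ J | i ∈ X} = d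

/-- Excess of the shadow over the local LYM bound. -/
noncomputable def ex (n c m f : ℕ) : ℝ := ((n : ℝ) - c + 1) * f - c * m

/-- Predicted excess, small families. -/
noncomputable def eLo (n c m x : ℕ) : ℝ := c * m * ((n : ℝ) - x) / ((x : ℝ) - c + 1)

/-- Predicted excess, large families. -/
noncomputable def eHi (n c m y : ℕ) : ℝ := ((n.choose c : ℝ) - m) * ((n : ℝ) - y)

end Pool.Agent.P.MP_4f3dfd_co.Ex
end

-- part Pool.Agent.P.MP_4f3dfd_co.EA1
section

set_option autoImplicit false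
set_option linter.unusedSectionVars false
set_option linter.unusedVariables false

namespace Pool.Agent.P.MP_4f3dfd_co.Ex

open Finset Real

variable {V : Type*} [DecidableEq V]

theorem ea1_pow {z θ : ℝ} (hz : 0 ≤ z) (h0 : 0 < θ) : z ^ (1 + θ) = z * z ^ θ := by
  rw [Real.rpow_add' hz (by linarith), Real.rpow_one]

theorem ea1_tangent {x z θ : ℝ} (hx : 0 ≤ x) (hz : 0 ≤ z) (h0 : 0 < θ) :
    z ^ (1 + θ) + (1 + θ) * z ^ θ * (x - z) ≤ x ^ (1 + θ) := by
  rcases hz.eq_or_lt with rfl | hz'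
  · rw [Real.zero_rpow (by linarith), Real.zero_rpow h0.ne']
    simpa using Real.rpow_nonneg hx _
  · have hb := one_add_mul_self_le_rpow_one_add (s := x / z - 1)
      (by linarith [div_nonneg hx hz]) (p := 1 + θ) (by linarith)
    rw [add_sub_cancel, Real.div_rpow hx hz, le_div_iff₀ (Real.rpow_pos_of_pos hz' _)] at hb
    refine le_trans (le_of_eq ?_) hb
    rw [ea1_pow hz h0]
    field_simp

theorem ea1_scale {a v h θ : ℝ} (ha : 0 < a) (h1 : a ≤ v) (h2 : v ≤ 1) (hθ0 : 0 < θ)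
    (hθ1 : θ ≤ 1) : v * |h| ^ (1 + θ) ≤ 1 / a * |v * h| ^ (1 + θ) := by
  have hv : 0 < v := by linarith
  have h3 : v ≤ v ^ θ := by
    simpa using Real.rpow_le_rpow_of_exponent_ge hv h2 hθ1
  have h4 : 0 ≤ |h| ^ (1 + θ) := Real.rpow_nonneg (abs_nonneg _) _
  rw [abs_mul, abs_of_pos hv, Real.mul_rpow hv.le (abs_nonneg _), ea1_pow hv.le hθ0,
    one_div, ← div_eq_inv_mul, le_div_iff₀ ha]
  have h5 : 0 ≤ v * |h| ^ (1 + θ) := mul_nonneg hv.le h4
  calc v * |h| ^ (1 + θ) * a ≤ v * |h| ^ (1 + θ) * v ^ θ :=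
        mul_le_mul_of_nonneg_left (h1.trans h3) h5
    _ = v * v ^ θ * |h| ^ (1 + θ) := by ring

theorem vbe {x h θ : ℝ} (hx : 0 ≤ x) (hxh : 0 ≤ x + h) (h0 : 0 < θ) (h1 : θ ≤ 1) :
    (x + h) ^ (1 + θ) ≤ x ^ (1 + θ) + (1 + θ) * x ^ θ * h + 2 * |h| ^ (1 + θ) := by
  have ht := ea1_tangent hx hxh h0
  have hp := ea1_pow (abs_nonneg h) h0
  have key : ((x + h) ^ θ - x ^ θ) * h ≤ |h| ^ (1 + θ) := by
    rw [hp]
    rcases le_total 0 h with hh | hh
    · have := Real.rpow_add_le_add_rpow hx hh h0.le h1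
      rw [abs_of_nonneg hh]
      nlinarith
    · have := Real.rpow_add_le_add_rpow hxh (neg_nonneg.mpr hh) h0.le h1
      rw [add_neg_cancel_right] at this
      rw [abs_of_nonpos hh]
      nlinarith
  have h4 : 0 ≤ |h| ^ (1 + θ) := Real.rpow_nonneg (abs_nonneg _) _
  have h5 : (1 + θ) * (((x + h) ^ θ - x ^ θ) * h) ≤ (1 + θ) * |h| ^ (1 + θ) :=
    mul_le_mul_of_nonneg_left key (by linarith)
  have h6 : (1 + θ) * |h| ^ (1 + θ) ≤ 2 * |h| ^ (1 + θ) :=
    mul_le_mul_of_nonneg_right (by linarith) h4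
  nlinarith

theorem two_point {a u θ M1 M0 : ℝ} (ha : 0 < a) (h1 : a ≤ u) (h2 : u ≤ 1 - a) (hθ0 : 0 < θ)
    (hθ1 : θ ≤ 1) (hM1 : 0 ≤ M1) (hM0 : 0 ≤ M0) :
    u * M1 ^ (1 + θ) + (1 - u) * M0 ^ (1 + θ) ≤
      (u * M1 + (1 - u) * M0) ^ (1 + θ) +
        4 / a * |u * (M1 - (u * M1 + (1 - u) * M0))| ^ (1 + θ) := by
  have hu0 : 0 ≤ u := by linarith
  have hu1 : 0 ≤ 1 - u := by linarith
  obtain ⟨M, hM⟩ : ∃ M, M = u * M1 + (1 - u) * M0 := ⟨_, rfl⟩
  rw [← hM]
  have hMn : 0 ≤ M := by rw [hM]; positivity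
  have e1 := vbe (x := M) (h := M1 - M) hMn (by linarith) hθ0 hθ1
  have e0 := vbe (x := M) (h := M0 - M) hMn (by linarith) hθ0 hθ1
  rw [add_sub_cancel] at e1 e0
  have s1 := ea1_scale (h := M1 - M) ha h1 (by linarith) hθ0 hθ1
  have s0 := ea1_scale (v := 1 - u) (h := M0 - M) ha (by linarith) (by linarith) hθ0 hθ1
  have hy : (1 - u) * (M0 - M) = -(u * (M1 - M)) := by linarith
  rw [hy, abs_neg] at s0
  have f1 := mul_le_mul_of_nonneg_left e1 hu0
  have f0 := mul_le_mul_of_nonneg_left e0 hu1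
  have hz : u * ((1 + θ) * M ^ θ * (M1 - M)) + (1 - u) * ((1 + θ) * M ^ θ * (M0 - M)) = 0 := by
    have : u * ((1 + θ) * M ^ θ * (M1 - M)) + (1 - u) * ((1 + θ) * M ^ θ * (M0 - M))
        = (1 + θ) * M ^ θ * (u * (M1 - M) + (1 - u) * (M0 - M)) := by ring
    rw [this, hy]
    ring
  have h4 : 4 / a * |u * (M1 - M)| ^ (1 + θ) = 4 * (1 / a * |u * (M1 - M)| ^ (1 + θ)) := by ring
  rw [h4]
  linarith

end Pool.Agent.P.MP_4f3dfd_co.Ex
end

-- part Pool.Agent.P.MP_4f3dfd_co.EA2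
section

set_option autoImplicit false
set_option linter.unusedSectionVars false
set_option linter.unusedVariables false

namespace Pool.Agent.P.MP_4f3dfd_co.Ex

open Finset Real

variable {V : Type*} [DecidableEq V]

theorem ea2_ent {w : ℝ} (hw : 0 ≤ w) : (w - 1) ^ 2 ≤ w ^ 2 * log (w ^ 2) - w ^ 2 + 1 := by
  rcases hw.eq_or_lt with h | h
  · subst h; norm_num
  · have h1 := Real.one_sub_inv_le_log_of_pos h
    have h2 : w * (1 - w⁻¹) ≤ w * log w := mul_le_mul_of_nonneg_left h1 hw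
    have h3 : w * (1 - w⁻¹) = w - 1 := by field_simp
    rw [h3] at h2
    have h4 : w * (w - 1) ≤ w * (w * log w) := mul_le_mul_of_nonneg_left h2 hw
    rw [Real.log_pow]
    push_cast
    nlinarith

theorem ea2_sq {w b : ℝ} (hw : 0 ≤ w) (hb1 : 1 ≤ b) (hb : w ^ 2 ≤ b) :
    (w * log w) ^ 2 ≤ b * (w - 1) ^ 2 := by
  rcases hw.eq_or_lt with h | h
  · subst h; simp; linarith
  · rcases le_total w 1 with h1 | h1
    · have h2 := Real.one_sub_inv_le_log_of_pos h
      have h3 : w * (1 - w⁻¹) ≤ w * log w := mul_le_mul_of_nonneg_left h2 hw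
      have h4 : w * (1 - w⁻¹) = w - 1 := by field_simp
      rw [h4] at h3
      have h5 : w * log w ≤ 0 := mul_nonpos_of_nonneg_of_nonpos hw (Real.log_nonpos hw h1)
      have h6 : (w * log w) ^ 2 ≤ (w - 1) ^ 2 := by nlinarith
      nlinarith [sq_nonneg (w - 1)]
    · have h2 := Real.log_le_sub_one_of_pos h
      have h3 := Real.log_nonneg h1
      have h4 : (log w) ^ 2 ≤ (w - 1) ^ 2 := pow_le_pow_left₀ h3 h2 2
      rw [mul_pow]
      exact mul_le_mul hb h4 (sq_nonneg _) (by linarith)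

theorem ea2_half {q u : ℝ} (hq0 : 0 ≤ q) (hq1 : q ≤ 1) (h0 : 0 < u) (h1 : u ≤ 1) :
    (q - u) ^ 2 / 4 ≤ q * log (q / u) - q + u := by
  have hr : 0 ≤ q / u := div_nonneg hq0 h0.le
  obtain ⟨w, hw, hw2⟩ : ∃ w : ℝ, 0 ≤ w ∧ w ^ 2 = q / u := ⟨√(q / u), sqrt_nonneg _, sq_sqrt hr⟩
  have hq : q = u * w ^ 2 := by rw [hw2]; field_simp
  have h2 := mul_le_mul_of_nonneg_left (ea2_ent hw) h0.le
  have h3 : u * (w + 1) ^ 2 ≤ 4 := by nlinarith [mul_nonneg h0.le (sq_nonneg (w - 1))]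
  have h4 : 0 ≤ u * (w - 1) ^ 2 := mul_nonneg h0.le (sq_nonneg _)
  have h5 : (q - u) ^ 2 = (u * (w - 1) ^ 2) * (u * (w + 1) ^ 2) := by rw [hq]; ring
  have h6 := mul_le_mul_of_nonneg_left h3 h4
  rw [← hw2]
  have h7 : u * (w ^ 2 * log (w ^ 2) - w ^ 2 + 1) = q * log (w ^ 2) - q + u := by rw [hq]; ring
  linarith

theorem ea2_exp {y : ℝ} (hy : y ≤ 1) : exp y ≤ 1 + y + y ^ 2 := by
  rcases le_total (-1) y with h | h
  · have := Real.abs_exp_sub_one_sub_id_le (x := y) (abs_le.2 ⟨h, hy⟩)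
    have h2 := (abs_le.1 this).2
    linarith
  · have h1 : exp y ≤ 1 := Real.exp_le_one_iff.2 (by linarith)
    nlinarith

theorem ea2_one {a r θ : ℝ} (ha : 0 < a) (ha1 : a ≤ 1) (hr0 : 0 ≤ r) (hr : r ≤ 1 / a)
    (hθ0 : 0 < θ) (hθ : θ ≤ a) :
    r ^ (1 + θ) ≤ r + θ * (r * log r) + θ ^ 2 * (4 / a) * (r * log r - r + 1) := by
  rcases hr0.eq_or_lt with h | h
  · subst h
    rw [Real.zero_rpow (by linarith)]
    have : 0 ≤ θ ^ 2 * (4 / a) := by positivity
    simpa using this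
  · have hy : θ * log r ≤ 1 := by
      have h1 := Real.log_le_sub_one_of_pos h
      have h2 : θ * log r ≤ θ * (1 / a) := mul_le_mul_of_nonneg_left (by linarith) hθ0.le
      have h3 : θ * (1 / a) ≤ 1 := by rw [mul_one_div, div_le_one ha]; exact hθ
      linarith
    have h1 : r ^ (1 + θ) = r * exp (θ * log r) := by
      rw [Real.rpow_add h, Real.rpow_one, Real.rpow_def_of_pos h, mul_comm (log r)]
    have h2 := mul_le_mul_of_nonneg_left (ea2_exp hy) hr0
    obtain ⟨w, hw, hw2⟩ : ∃ w : ℝ, 0 ≤ w ∧ w ^ 2 = r := ⟨√r, sqrt_nonneg _, sq_sqrt hr0⟩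
    have hb1 : 1 ≤ 1 / a := by rw [le_div_iff₀ ha]; linarith
    have h3 := ea2_sq hw hb1 (hw2.trans_le hr)
    have h4 := ea2_ent hw
    have h5 : r * (log r) ^ 2 = 4 * (w * log w) ^ 2 := by
      rw [← hw2, Real.log_pow]; push_cast; ring
    rw [hw2] at h4
    have h6 : 1 / a * (w - 1) ^ 2 ≤ 1 / a * (r * log r - r + 1) :=
      mul_le_mul_of_nonneg_left h4 (by positivity)
    have h7 : r * (log r) ^ 2 ≤ 4 / a * (r * log r - r + 1) := by
      have : 4 / a * (r * log r - r + 1) = 4 * (1 / a * (r * log r - r + 1)) := by ring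
      linarith
    have h8 := mul_le_mul_of_nonneg_left h7 (sq_nonneg θ)
    rw [h1]
    nlinarith

theorem kl_ge {q u : ℝ} (hq0 : 0 ≤ q) (hq1 : q ≤ 1) (h0 : 0 < u) (h1 : u < 1) :
    (q - u) ^ 2 / 2 ≤ kl q u := by
  have a1 := ea2_half hq0 hq1 h0 h1.le
  have a2 := ea2_half (q := 1 - q) (u := 1 - u) (by linarith) (by linarith) (by linarith)
    (by linarith)
  unfold kl
  nlinarith

theorem renyi_le_kl {a u q θ : ℝ} (ha : 0 < a) (h1 : a ≤ u) (h2 : u ≤ 1 - a) (hq0 : 0 ≤ q)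
    (hq1 : q ≤ 1) (hθ0 : 0 < θ) (hθ : θ ≤ a) :
    u * (q / u) ^ (1 + θ) + (1 - u) * ((1 - q) / (1 - u)) ^ (1 + θ) ≤
      1 + θ * (1 + 4 * θ / a) * kl q u := by
  have hu0 : 0 < u := by linarith
  have hu1 : 0 < 1 - u := by linarith
  have ha1 : a ≤ 1 := by linarith
  have b1 : q / u ≤ 1 / a := div_le_div₀ zero_le_one hq1 ha h1
  have b2 : (1 - q) / (1 - u) ≤ 1 / a := div_le_div₀ zero_le_one (by linarith) ha (by linarith)
  have a1 := mul_le_mul_of_nonneg_left (ea2_one ha ha1 (div_nonneg hq0 hu0.le) b1 hθ0 hθ) hu0.le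
  have a2 := mul_le_mul_of_nonneg_left
    (ea2_one ha ha1 (div_nonneg (by linarith : 0 ≤ 1 - q) hu1.le) b2 hθ0 hθ) hu1.le
  refine (add_le_add a1 a2).trans (le_of_eq ?_)
  unfold kl
  generalize log (q / u) = L1
  generalize log ((1 - q) / (1 - u)) = L2
  field_simp
  ring

end Pool.Agent.P.MP_4f3dfd_co.Ex
end

-- part Pool.Agent.P.MP_4f3dfd_co.EB1
section

set_option autoImplicit false
set_option linter.unusedSectionVars false
set_option linter.unusedVariables false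

namespace Pool.Agent.P.MP_4f3dfd_co.Ex

open Finset Real

variable {V : Type*} [DecidableEq V]

theorem eb1_pm_nonneg (H : Finset V) (q : V → ℝ) (hq : ∀ i ∈ H, 0 ≤ q i ∧ q i ≤ 1)
    (X : Finset V) (hX : X ⊆ H) : 0 ≤ pm H q X := by
  unfold pm
  refine mul_nonneg (prod_nonneg fun i hi => (hq i (hX hi)).1) (prod_nonneg fun i hi => ?_)
  have := (hq i (mem_sdiff.1 hi).1).2
  linarith

theorem sum_pm_le_one (H : Finset V) (q : V → ℝ) (hq : ∀ i ∈ H, 0 ≤ q i ∧ q i ≤ 1) (j : ℕ) :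
    ∑ X ∈ powersetCard j H, pm H q X ≤ 1 := by
  have h1 : ∑ X ∈ H.powerset, pm H q X = 1 := by
    unfold pm
    rw [← Finset.prod_add]
    simp
  rw [← h1]
  refine sum_le_sum_of_subset_of_nonneg ?_ ?_
  · intro X hX
    exact mem_powerset.2 (mem_powersetCard.1 hX).1
  · intro X hX _
    exact eb1_pm_nonneg H q hq X (mem_powerset.1 hX)

theorem eb1_orth (k : ℤ) :
    ∫ t in (-π)..π, Complex.exp ((k : ℂ) * Complex.I * (t : ℂ)) =
      if k = 0 then ((2 * π : ℝ) : ℂ) else 0 := by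
  split_ifs with hk
  · subst hk
    simp
    ring
  · have hc : (k : ℂ) * Complex.I ≠ 0 := mul_ne_zero (by exact_mod_cast hk) Complex.I_ne_zero
    rw [integral_exp_mul_complex hc]
    have : Complex.exp ((k : ℂ) * Complex.I * ((π : ℝ) : ℂ)) =
        Complex.exp ((k : ℂ) * Complex.I * ((-π : ℝ) : ℂ)) := by
      have h2 := Complex.exp_int_mul_two_pi_mul_I k
      have h3 : (k : ℂ) * Complex.I * ((π : ℝ) : ℂ) =
          (k : ℂ) * Complex.I * ((-π : ℝ) : ℂ) + (k : ℂ) * (2 * (π : ℂ) * Complex.I) := by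
        push_cast
        ring
      rw [h3, Complex.exp_add, h2, mul_one]
    rw [this, sub_self, zero_div]

theorem eb1_factor (x t : ℝ) (h0 : 0 ≤ x) (h1 : x ≤ 1) (ht : |t| ≤ π) :
    ‖(x : ℂ) * Complex.exp (Complex.I * (t : ℂ)) + ((1 - x : ℝ) : ℂ)‖ ≤
      Real.exp (-(2 / π ^ 2 * (x * (1 - x)) * t ^ 2)) := by
  have hc : cos t ≤ 1 - 2 / π ^ 2 * t ^ 2 := Real.cos_le_one_sub_mul_cos_sq ht
  have hsq : ‖(x : ℂ) * Complex.exp (Complex.I * (t : ℂ)) + ((1 - x : ℝ) : ℂ)‖ ^ 2 =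
      1 - 2 * (x * (1 - x)) * (1 - cos t) := by
    rw [Complex.sq_norm, Complex.normSq_apply, mul_comm Complex.I]
    simp only [Complex.add_re, Complex.add_im, Complex.mul_re, Complex.mul_im,
      Complex.ofReal_re, Complex.ofReal_im, Complex.exp_ofReal_mul_I_re,
      Complex.exp_ofReal_mul_I_im]
    have := Real.sin_sq_add_cos_sq t
    linear_combination x ^ 2 * this
  have hx : 0 ≤ x * (1 - x) := mul_nonneg h0 (by linarith)
  have h2 : 1 - 2 * (x * (1 - x)) * (1 - cos t) ≤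
      Real.exp (-(2 / π ^ 2 * (x * (1 - x)) * t ^ 2)) ^ 2 := by
    rw [← Real.exp_nat_mul]
    have h3 := Real.add_one_le_exp (((2 : ℕ) : ℝ) * -(2 / π ^ 2 * (x * (1 - x)) * t ^ 2))
    have h4 : 2 * (x * (1 - x)) * (2 / π ^ 2 * t ^ 2) ≤ 2 * (x * (1 - x)) * (1 - cos t) :=
      mul_le_mul_of_nonneg_left (by linarith) (by linarith)
    push_cast at h3 ⊢
    linarith
  rw [← hsq] at h2
  exact (pow_le_pow_iff_left₀ (norm_nonneg _) (Real.exp_pos _).le two_ne_zero).1 h2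

theorem eb1_expand (H : Finset V) (q : V → ℝ) (j : ℕ) (t : ℝ) :
    Complex.exp (-(j : ℂ) * Complex.I * (t : ℂ)) *
      ∏ i ∈ H, ((q i : ℂ) * Complex.exp (Complex.I * (t : ℂ)) + ((1 - q i : ℝ) : ℂ)) =
    ∑ X ∈ H.powerset, (pm H q X : ℂ) *
      Complex.exp ((((#X : ℤ) - j : ℤ) : ℂ) * Complex.I * (t : ℂ)) := by
  rw [Finset.prod_add, mul_sum]
  refine sum_congr rfl fun X hX => ?_
  rw [prod_mul_distrib, prod_const, ← Complex.exp_nat_mul]
  have : (((#X : ℤ) - j : ℤ) : ℂ) * Complex.I * (t : ℂ) =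
      -(j : ℂ) * Complex.I * (t : ℂ) + (#X : ℕ) * (Complex.I * (t : ℂ)) := by
    push_cast
    ring
  rw [this, Complex.exp_add]
  unfold pm
  push_cast
  ring

theorem eb1_integral (H : Finset V) (q : V → ℝ) (j : ℕ) :
    ∫ t in (-π)..π, Complex.exp (-(j : ℂ) * Complex.I * (t : ℂ)) *
      ∏ i ∈ H, ((q i : ℂ) * Complex.exp (Complex.I * (t : ℂ)) + ((1 - q i : ℝ) : ℂ)) =
    ((2 * π * ∑ X ∈ powersetCard j H, pm H q X : ℝ) : ℂ) := by
  simp_rw [eb1_expand]
  rw [intervalIntegral.integral_finsetSum]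
  · simp_rw [intervalIntegral.integral_const_mul, eb1_orth]
    rw [powersetCard_eq_filter, sum_filter]
    push_cast
    rw [mul_sum]
    refine sum_congr rfl fun X hX => ?_
    by_cases h : #X = j
    · simp [h, mul_comm]
    · have : ¬ ((#X : ℤ) - j = 0) := by omega
      simp [h, this]
  · intro X _
    apply Continuous.intervalIntegrable
    fun_prop

/-- Point masses of a Poisson binomial law. -/
theorem sum_pm_le (H : Finset V) (q : V → ℝ) (hq : ∀ i ∈ H, 0 ≤ q i ∧ q i ≤ 1) (j : ℕ) {σ : ℝ}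
    (hσ : 1 ≤ σ) (h : σ ^ 2 ≤ ∑ i ∈ H, q i * (1 - q i)) :
    ∑ X ∈ powersetCard j H, pm H q X ≤ 6 / σ := by
  have hπ : 0 < π := Real.pi_pos
  have hσ0 : 0 < σ := by linarith
  set b : ℝ := 2 / π ^ 2 * σ ^ 2 with hb
  have hb0 : 0 < b := by positivity
  have hle : -π ≤ π := by linarith
  have hbound : ∀ t ∈ Set.Ioc (-π) π, ‖Complex.exp (-(j : ℂ) * Complex.I * (t : ℂ)) *
      ∏ i ∈ H, ((q i : ℂ) * Complex.exp (Complex.I * (t : ℂ)) + ((1 - q i : ℝ) : ℂ))‖ ≤
      Real.exp (-b * t ^ 2) := by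
    intro t ht
    have ht' : |t| ≤ π := abs_le.2 ⟨ht.1.le, ht.2⟩
    have e1 : ‖Complex.exp (-(j : ℂ) * Complex.I * (t : ℂ))‖ = 1 := by
      have : -(j : ℂ) * Complex.I * (t : ℂ) = ((-(j : ℝ) * t : ℝ) : ℂ) * Complex.I := by
        push_cast
        ring
      rw [this, Complex.norm_exp_ofReal_mul_I]
    rw [norm_mul, e1, one_mul, norm_prod]
    calc ∏ i ∈ H, ‖(q i : ℂ) * Complex.exp (Complex.I * (t : ℂ)) + ((1 - q i : ℝ) : ℂ)‖
        ≤ ∏ i ∈ H, Real.exp (-(2 / π ^ 2 * (q i * (1 - q i)) * t ^ 2)) :=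
          prod_le_prod (fun i _ => norm_nonneg _)
            (fun i hi => eb1_factor (q i) t (hq i hi).1 (hq i hi).2 ht')
      _ = Real.exp (-(2 / π ^ 2 * (∑ i ∈ H, q i * (1 - q i)) * t ^ 2)) := by
          rw [← Real.exp_sum, mul_sum, sum_mul, ← sum_neg_distrib]
      _ ≤ Real.exp (-b * t ^ 2) := by
          apply Real.exp_le_exp.2
          have h1 : 2 / π ^ 2 * σ ^ 2 * t ^ 2 ≤ 2 / π ^ 2 * (∑ i ∈ H, q i * (1 - q i)) * t ^ 2 :=
            mul_le_mul_of_nonneg_right (mul_le_mul_of_nonneg_left h (by positivity)) (sq_nonneg t)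
          rw [hb]
          linarith
  have hint := integrable_exp_neg_mul_sq hb0
  have h1 := intervalIntegral.norm_integral_le_of_norm_le hle
    (MeasureTheory.ae_of_all _ hbound) hint.intervalIntegrable
  rw [eb1_integral, Complex.norm_real] at h1
  have h2 : ∫ t in (-π)..π, Real.exp (-b * t ^ 2) ≤ √(π / b) := by
    rw [← integral_gaussian, intervalIntegral.integral_of_le hle]
    exact MeasureTheory.setIntegral_le_integral hint
      (MeasureTheory.ae_of_all _ fun t => (Real.exp_pos _).le)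
  have h3 : √(π / b) ≤ 2 * π * (6 / σ) := by
    apply Real.sqrt_le_iff.2
    refine ⟨by positivity, ?_⟩
    rw [div_le_iff₀ hb0, hb]
    have : (2 * π * (6 / σ)) ^ 2 * (2 / π ^ 2 * σ ^ 2) = 288 := by
      field_simp
      ring
    rw [this]
    linarith [Real.pi_le_four]
  have h4 : 2 * π * ∑ X ∈ powersetCard j H, pm H q X ≤ 2 * π * (6 / σ) :=
    (le_abs_self _).trans (h1.trans (h2.trans h3))
  exact le_of_mul_le_mul_left h4 (by positivity)

end Pool.Agent.P.MP_4f3dfd_co.Ex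
end

-- part Pool.Agent.P.MP_4f3dfd_co.EC1
section

set_option autoImplicit false
set_option linter.unusedSectionVars false
set_option linter.unusedVariables false

namespace Pool.Agent.P.MP_4f3dfd_co.Ex

open Finset Real

variable {V : Type*} [DecidableEq V]

theorem ec1_deg_le (A : Finset (Finset V)) (i : V) : deg A i ≤ #A := card_filter_le _ _

theorem ec1_deg_pos {A : Finset (Finset V)} {X : Finset V} (hX : X ∈ A) {i : V} (hi : i ∈ X) :
    0 < deg A i := card_pos.2 ⟨X, mem_filter.2 ⟨hX, hi⟩⟩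

theorem ec1_deg_lt {A : Finset (Finset V)} {X : Finset V} (hX : X ∈ A) {i : V} (hi : i ∉ X) :
    deg A i < #A := by
  refine card_lt_card ⟨filter_subset _ _, fun h => hi (mem_filter.1 (h hX)).2⟩

theorem ec1_log (H X : Finset V) (hXH : X ⊆ H) (q : V → ℝ) {u : ℝ} (h0 : 0 < u) (h1 : u < 1)
    (hq0 : ∀ i ∈ X, 0 < q i) (hq1 : ∀ i ∈ H \ X, q i < 1) :
    log (pm H q X / (u ^ #X * (1 - u) ^ (#H - #X))) =
      ∑ i ∈ H, if i ∈ X then log (q i / u) else log ((1 - q i) / (1 - u)) := by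
  have hu1 : 0 < 1 - u := by linarith
  have e1 : pm H q X / (u ^ #X * (1 - u) ^ (#H - #X)) =
      (∏ i ∈ X, q i / u) * ∏ i ∈ H \ X, (1 - q i) / (1 - u) := by
    rw [prod_div_distrib, prod_div_distrib, prod_const, prod_const, card_sdiff_of_subset hXH, pm,
      div_mul_div_comm]
  have a1 : ∀ i ∈ X, q i / u ≠ 0 := fun i hi => (div_pos (hq0 i hi) h0).ne'
  have a2 : ∀ i ∈ H \ X, (1 - q i) / (1 - u) ≠ 0 := fun i hi =>
    (div_pos (by linarith [hq1 i hi]) hu1).ne'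
  rw [e1, log_mul (prod_ne_zero_iff.2 a1) (prod_ne_zero_iff.2 a2), log_prod a1, log_prod a2,
    ← sum_sdiff hXH, add_comm]
  congr 1
  · exact sum_congr rfl fun i hi => by rw [if_neg (mem_sdiff.1 hi).2]
  · exact sum_congr rfl fun i hi => by rw [if_pos hi]

/-- Subadditivity of entropy on a slice. -/
theorem sum_kl_le_log (H : Finset V) (j : ℕ) (A : Finset (Finset V)) (hA : A ⊆ powersetCard j H)
    (hne : A.Nonempty) {u P : ℝ} (h0 : 0 < u) (h1 : u < 1)
    (hP : ∑ X ∈ powersetCard j H, pm H (fun i => (deg A i : ℝ) / #A) X ≤ P) :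
    ∑ i ∈ H, kl ((deg A i : ℝ) / #A) u ≤ log (P / (#A * (u ^ j * (1 - u) ^ (#H - j)))) := by
  have hu1 : 0 < 1 - u := by linarith
  have hm : (0 : ℝ) < #A := by exact_mod_cast card_pos.2 hne
  set q : V → ℝ := fun i => (deg A i : ℝ) / #A with hq
  set w : ℝ := u ^ j * (1 - u) ^ (#H - j) with hw
  have hw0 : 0 < w := mul_pos (pow_pos h0 _) (pow_pos hu1 _)
  have q0 : ∀ i, 0 ≤ q i := fun i => div_nonneg (Nat.cast_nonneg _) hm.le
  have q1 : ∀ i, q i ≤ 1 := fun i => (div_le_one hm).2 (by exact_mod_cast ec1_deg_le A i)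
  have qp : ∀ X ∈ A, ∀ i ∈ X, 0 < q i := fun X hX i hi =>
    div_pos (by exact_mod_cast ec1_deg_pos hX hi) hm
  have ql : ∀ X ∈ A, ∀ i ∈ H \ X, q i < 1 := fun X hX i hi =>
    (div_lt_one hm).2 (by exact_mod_cast ec1_deg_lt hX (mem_sdiff.1 hi).2)
  have pp : ∀ X ∈ A, 0 < pm H q X := fun X hX =>
    mul_pos (prod_pos (qp X hX)) (prod_pos fun i hi => by linarith [ql X hX i hi])
  have pn : ∀ X, 0 ≤ pm H q X := fun X =>
    mul_nonneg (prod_nonneg fun i _ => q0 i) (prod_nonneg fun i _ => by linarith [q1 i])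
  have hsum : ∑ X ∈ A, pm H q X ≤ P :=
    (sum_le_sum_of_subset_of_nonneg hA fun X _ _ => pn X).trans hP
  have hP0 : 0 < P := lt_of_lt_of_le (sum_pos pp hne) hsum
  set t : ℝ := P / (#A * w) with ht
  have ht0 : 0 < t := div_pos hP0 (mul_pos hm hw0)
  have key : ∑ X ∈ A, log (pm H q X / w) = #A * ∑ i ∈ H, kl (q i) u := by
    have e : ∀ X ∈ A, log (pm H q X / w) =
        ∑ i ∈ H, if i ∈ X then log (q i / u) else log ((1 - q i) / (1 - u)) := by
      intro X hX
      have h := mem_powersetCard.1 (hA hX)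
      have := ec1_log H X h.1 q h0 h1 (qp X hX) (ql X hX)
      rw [h.2] at this
      exact this
    rw [sum_congr rfl e, sum_comm, mul_sum]
    refine sum_congr rfl fun i _ => ?_
    rw [sum_ite, sum_const, sum_const, nsmul_eq_mul, nsmul_eq_mul]
    have c1 : ((#{X ∈ A | i ∈ X} : ℕ) : ℝ) = #A * q i := by
      rw [hq]; simp only [deg]; field_simp
    have c2 : ((#{X ∈ A | ¬ i ∈ X} : ℕ) : ℝ) = #A * (1 - q i) := by
      have := card_filter_add_card_filter_not (s := A) (fun X => i ∈ X)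
      have h2 : ((#{X ∈ A | i ∈ X} : ℕ) : ℝ) + ((#{X ∈ A | ¬ i ∈ X} : ℕ) : ℝ) = #A := by
        exact_mod_cast this
      linarith
    rw [c1, c2, kl]
    ring
  have ub : ∀ X ∈ A, log (pm H q X / w) ≤ log t + (pm H q X / (w * t) - 1) := by
    intro X hX
    have hz : 0 < pm H q X / (w * t) := div_pos (pp X hX) (mul_pos hw0 ht0)
    have e : pm H q X / w = t * (pm H q X / (w * t)) := by field_simp
    rw [e, log_mul ht0.ne' hz.ne']
    linarith [log_le_sub_one_of_pos hz]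
  have h3 := sum_le_sum ub
  rw [key, sum_add_distrib, sum_sub_distrib, sum_const, sum_const, nsmul_eq_mul, nsmul_eq_mul,
    ← sum_div] at h3
  have h4 : (∑ X ∈ A, pm H q X) / (w * t) ≤ #A := by
    rw [div_le_iff₀ (mul_pos hw0 ht0)]
    have : (#A : ℝ) * (w * t) = P := by rw [ht]; field_simp
    linarith
  have h5 : (#A : ℝ) * ∑ i ∈ H, kl (q i) u ≤ #A * log t := by linarith
  exact le_of_mul_le_mul_left h5 hm

end Pool.Agent.P.MP_4f3dfd_co.Ex
end

-- part Pool.Agent.P.MP_4f3dfd_co.ED1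
section

set_option autoImplicit false
set_option linter.unusedSectionVars false
set_option linter.unusedVariables false

namespace Pool.Agent.P.MP_4f3dfd_co.Ex

open Finset Real

variable {V : Type*} [DecidableEq V]

theorem Av_zero (G : Finset V) (Φ : Finset V → Finset V → ℝ) : Av G 0 Φ = Φ ∅ ∅ := by
  simp [Av]

theorem Av_mono (G : Finset V) (r : ℕ) {Φ Ψ : Finset V → Finset V → ℝ}
    (h : ∀ S ⊆ G, #S = r → ∀ x ⊆ S, Φ S x ≤ Ψ S x) : Av G r Φ ≤ Av G r Ψ := by
  unfold Av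
  apply div_le_div_of_nonneg_right _ (Nat.cast_nonneg _)
  refine sum_le_sum fun S hS => sum_le_sum fun x hx => ?_
  rw [mem_powersetCard] at hS
  exact h S hS.1 hS.2 x (mem_powerset.1 hx)

theorem Av_nonneg (G : Finset V) (r : ℕ) {Φ : Finset V → Finset V → ℝ}
    (h : ∀ S ⊆ G, #S = r → ∀ x ⊆ S, 0 ≤ Φ S x) : 0 ≤ Av G r Φ := by
  unfold Av
  apply div_nonneg _ (Nat.cast_nonneg _)
  refine sum_nonneg fun S hS => sum_nonneg fun x hx => ?_
  rw [mem_powersetCard] at hS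
  exact h S hS.1 hS.2 x (mem_powerset.1 hx)

theorem Av_add (G : Finset V) (r : ℕ) (Φ Ψ : Finset V → Finset V → ℝ) :
    Av G r (fun S x => Φ S x + Ψ S x) = Av G r Φ + Av G r Ψ := by
  unfold Av
  simp only [sum_add_distrib, add_div]

theorem Av_mul (G : Finset V) (r : ℕ) (t : ℝ) (Φ : Finset V → Finset V → ℝ) :
    Av G r (fun S x => t * Φ S x) = t * Av G r Φ := by
  unfold Av
  simp only [← mul_sum, mul_div_assoc]

theorem Av_cnt (G : Finset V) {r : ℕ} (hr : r ≤ #G) (E : Finset (Finset V)) :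
    Av G r (fun S x => (cnt E S x : ℝ)) = #E := by
  unfold Av
  have h1 : ∀ S ∈ powersetCard r G, ∑ x ∈ S.powerset, (cnt E S x : ℝ) = #E := by
    intro S _
    have := card_eq_sum_card_fiberwise (s := E) (t := S.powerset) (f := fun X => X ∩ S)
      (fun X _ => by simp)
    rw [this]
    push_cast
    rfl
  rw [sum_congr rfl h1, sum_const, card_powersetCard, nsmul_eq_mul]
  have : ((#G).choose r : ℝ) ≠ 0 := by exact_mod_cast (Nat.choose_pos hr).ne'
  field_simp

theorem ed1_pairs (G : Finset V) (r : ℕ) (F : Finset V → ℝ) :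
    ((r : ℝ) + 1) * ∑ S ∈ powersetCard (r + 1) G, F S =
      ∑ S ∈ powersetCard r G, ∑ i ∈ G \ S, F (insert i S) := by
  have h1 : ∀ S ∈ powersetCard (r + 1) G, ((r : ℝ) + 1) * F S = ∑ i ∈ S, F S := by
    intro S hS
    rw [sum_const, (mem_powersetCard.1 hS).2, nsmul_eq_mul]
    push_cast
    ring
  rw [mul_sum, sum_congr rfl h1, sum_sigma', sum_sigma']
  refine sum_nbij' (fun p => ⟨p.1.erase p.2, p.2⟩) (fun p => ⟨insert p.2 p.1, p.2⟩) ?_ ?_ ?_ ?_ ?_
  · rintro ⟨S, i⟩ hp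
    simp only [mem_sigma, mem_powersetCard, mem_sdiff] at hp ⊢
    refine ⟨⟨(erase_subset _ _).trans hp.1.1, ?_⟩, hp.1.1 hp.2, notMem_erase _ _⟩
    rw [card_erase_of_mem hp.2, hp.1.2]
    rfl
  · rintro ⟨S, i⟩ hp
    simp only [mem_sigma, mem_powersetCard, mem_sdiff] at hp ⊢
    refine ⟨⟨insert_subset hp.2.1 hp.1.1, ?_⟩, mem_insert_self _ _⟩
    rw [card_insert_of_notMem hp.2.2, hp.1.2]
  · rintro ⟨S, i⟩ hp
    simp only [mem_sigma] at hp
    simp only [insert_erase hp.2]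
  · rintro ⟨S, i⟩ hp
    simp only [mem_sigma, mem_sdiff] at hp
    simp only [erase_insert hp.2.2]
  · rintro ⟨S, i⟩ hp
    simp only [mem_sigma] at hp
    simp only [insert_erase hp.2]

theorem Av_step (G : Finset V) {r : ℕ} (hr : r < #G) {Φ Ψ : Finset V → Finset V → ℝ}
    (h : ∀ S ⊆ G, #S = r → ∀ x ⊆ S,
      ∑ i ∈ G \ S, (Φ (insert i S) (insert i x) + Φ (insert i S) x) ≤ ((#G : ℝ) - r) * Ψ S x) :
    Av G (r + 1) Φ ≤ Av G r Ψ := by
  unfold Av
  have hc : (0 : ℝ) < (#G).choose r := by exact_mod_cast Nat.choose_pos hr.le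
  have hc1 : (0 : ℝ) < (#G).choose (r + 1) := by exact_mod_cast Nat.choose_pos hr
  have hch : (((#G).choose (r + 1) : ℕ) : ℝ) * (r + 1) = (#G).choose r * ((#G : ℝ) - r) := by
    have := Nat.choose_succ_right_eq (#G) r
    have h2 : (((#G).choose (r + 1) * (r + 1) : ℕ) : ℝ) = (((#G).choose r * (#G - r) : ℕ) : ℝ) := by
      rw [this]
    push_cast [Nat.cast_sub hr.le] at h2
    exact h2
  have key := ed1_pairs G r (fun S => ∑ x ∈ S.powerset, Φ S x)
  have h2 : ∑ S ∈ powersetCard r G, ∑ i ∈ G \ S, ∑ x ∈ (insert i S).powerset, Φ (insert i S) x ≤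
      ((#G : ℝ) - r) * ∑ S ∈ powersetCard r G, ∑ x ∈ S.powerset, Ψ S x := by
    rw [mul_sum]
    refine sum_le_sum fun S hS => ?_
    rw [mem_powersetCard] at hS
    have h3 : ∀ i ∈ G \ S, ∑ x ∈ (insert i S).powerset, Φ (insert i S) x =
        ∑ x ∈ S.powerset, (Φ (insert i S) (insert i x) + Φ (insert i S) x) := by
      intro i hi
      rw [sum_powerset_insert (mem_sdiff.1 hi).2, sum_add_distrib, add_comm]
    rw [sum_congr rfl h3, sum_comm, mul_sum]
    exact sum_le_sum fun x hx => h S hS.1 hS.2 x (mem_powerset.1 hx)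
  rw [div_le_div_iff₀ hc1 hc]
  have hr1 : (0 : ℝ) < r + 1 := by positivity
  refine le_of_mul_le_mul_right ?_ hr1
  rw [← key] at h2
  calc (∑ S ∈ powersetCard (r + 1) G, ∑ x ∈ S.powerset, Φ S x) * (#G).choose r * (r + 1)
      = ((r + 1) * ∑ S ∈ powersetCard (r + 1) G, ∑ x ∈ S.powerset, Φ S x) * (#G).choose r := by ring
    _ ≤ (((#G : ℝ) - r) * ∑ S ∈ powersetCard r G, ∑ x ∈ S.powerset, Ψ S x) * (#G).choose r :=
        mul_le_mul_of_nonneg_right h2 hc.le
    _ = (∑ S ∈ powersetCard r G, ∑ x ∈ S.powerset, Ψ S x) * ((#G).choose r * ((#G : ℝ) - r)) := by ring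
    _ = _ := by rw [← hch]; ring

theorem Av_erase (G : Finset V) {r : ℕ} (hr : r < #G) (Ψ : V → Finset V → Finset V → ℝ) :
    Av G r (fun S x => ∑ k ∈ G \ S, Ψ k S x) =
      ((#G : ℝ) - r) / #G * ∑ k ∈ G, Av (G.erase k) r (Ψ k) := by
  unfold Av
  have hc : (0 : ℝ) < (#G).choose r := by exact_mod_cast Nat.choose_pos hr.le
  have hn : (0 : ℝ) < #G := by exact_mod_cast (Nat.zero_le r).trans_lt hr
  have hnr : (0 : ℝ) < (#G : ℝ) - r := by
    have : (r : ℝ) < #G := by exact_mod_cast hr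
    linarith
  have hch : (((#G - 1).choose r : ℕ) : ℝ) * #G = (#G).choose r * ((#G : ℝ) - r) := by
    have := Nat.choose_mul_succ_eq (#G - 1) r
    have e : #G - 1 + 1 = #G := by omega
    rw [e] at this
    have h2 : (((#G - 1).choose r * #G : ℕ) : ℝ) = (((#G).choose r * (#G - r) : ℕ) : ℝ) := by
      rw [this]
    push_cast [Nat.cast_sub hr.le] at h2
    exact h2
  have h1 : ∑ S ∈ powersetCard r G, ∑ x ∈ S.powerset, ∑ k ∈ G \ S, Ψ k S x =
      ∑ k ∈ G, ∑ S ∈ powersetCard r (G.erase k), ∑ x ∈ S.powerset, Ψ k S x := by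
    rw [sum_congr rfl fun S _ => sum_comm]
    refine sum_comm' fun S k => ?_
    simp only [mem_powersetCard, mem_sdiff, subset_erase]
    tauto
  rw [h1, mul_sum, sum_div]
  refine sum_congr rfl fun k hk => ?_
  rw [card_erase_of_mem hk]
  have hc' : (((#G - 1).choose r : ℕ) : ℝ) = (#G).choose r * ((#G : ℝ) - r) / #G := by
    rw [← hch]; field_simp
  rw [hc']
  field_simp

end Pool.Agent.P.MP_4f3dfd_co.Ex
end

-- part Pool.Agent.P.MP_4f3dfd_co.ED2
section

set_option autoImplicit false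
set_option linter.unusedSectionVars false
set_option linter.unusedVariables false

namespace Pool.Agent.P.MP_4f3dfd_co.Ex

open Finset Real

variable {V : Type*} [DecidableEq V]

theorem card_fib (E : Finset (Finset V)) (S x : Finset V) : #(fib E S x) = cnt E S x := by
  refine card_image_of_injOn fun X hX Y hY h => ?_
  have h1 : X ∩ S = x := (mem_filter.1 hX).2
  have h2 : Y ∩ S = x := (mem_filter.1 hY).2
  have h3 : X \ S = Y \ S := h
  rw [← sdiff_union_inter X S, ← sdiff_union_inter Y S, h1, h2, h3]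

theorem fib_subset {G : Finset V} {c : ℕ} {E : Finset (Finset V)} (hE : E ⊆ powersetCard c G)
    (S x : Finset V) : fib E S x ⊆ powersetCard (c - #x) (G \ S) := by
  intro Z hZ
  obtain ⟨X, hX, rfl⟩ := mem_image.1 hZ
  obtain ⟨h1, h2⟩ := mem_filter.1 hX
  obtain ⟨h3, h4⟩ := mem_powersetCard.1 (hE h1)
  refine mem_powersetCard.2 ⟨sdiff_subset_sdiff h3 Subset.rfl, ?_⟩
  have h5 := card_sdiff_add_card_inter X S
  rw [h2, h4] at h5
  omega

theorem cnt_eq_zero {G : Finset V} {c : ℕ} {E : Finset (Finset V)} (hE : E ⊆ powersetCard c G)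
    (S : Finset V) {x : Finset V} (hx : c < #x) : cnt E S x = 0 := by
  refine card_eq_zero.2 (filter_eq_empty_iff.2 fun X hX h => ?_)
  have h1 := (mem_powersetCard.1 (hE hX)).2
  have h2 : #(X ∩ S) ≤ #X := card_le_card inter_subset_left
  rw [h, h1] at h2
  omega

theorem cnt_le_tot {G : Finset V} {c : ℕ} {E : Finset (Finset V)} (hE : E ⊆ powersetCard c G)
    {S : Finset V} (hS : S ⊆ G) (x : Finset V) : cnt E S x ≤ tot G c S x := by
  have h := card_le_card (fib_subset hE S x)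
  rwa [card_fib, card_powersetCard, card_sdiff_of_subset hS] at h

theorem ed2_in {S x : Finset V} (hx : x ⊆ S) {i : V} (hi : i ∉ S) (X : Finset V) :
    X ∩ insert i S = insert i x ↔ i ∈ X ∧ X ∩ S = x := by
  constructor
  · intro h
    have h1 : i ∈ X := (mem_inter.1 (h ▸ mem_insert_self i x)).1
    refine ⟨h1, ?_⟩
    rw [inter_insert_of_mem h1] at h
    rw [← erase_insert (s := X ∩ S) (a := i) fun h => hi (mem_inter.1 h).2, h,
      erase_insert fun h => hi (hx h)]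
  · rintro ⟨h1, rfl⟩
    exact inter_insert_of_mem h1

theorem ed2_out {S x : Finset V} (hx : x ⊆ S) {i : V} (hi : i ∉ S) (X : Finset V) :
    X ∩ insert i S = x ↔ i ∉ X ∧ X ∩ S = x := by
  constructor
  · intro h
    have h1 : i ∉ X := fun h1 => hi (hx (h ▸ mem_inter.2 ⟨h1, mem_insert_self i S⟩))
    rw [inter_insert_of_notMem h1] at h
    exact ⟨h1, h⟩
  · rintro ⟨h1, rfl⟩
    exact inter_insert_of_notMem h1

theorem cnt_in (E : Finset (Finset V)) {S x : Finset V} (hx : x ⊆ S) {i : V} (hi : i ∉ S) :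
    cnt E (insert i S) (insert i x) = deg (fib E S x) i := by
  have e : ({Z ∈ fib E S x | i ∈ Z} : Finset (Finset V)) = fib ({X ∈ E | i ∈ X}) S x := by
    ext Z
    simp only [fib, mem_filter, mem_image]
    constructor
    · rintro ⟨⟨X, ⟨h1, h2⟩, rfl⟩, h3⟩
      exact ⟨X, ⟨⟨h1, (mem_sdiff.1 h3).1⟩, h2⟩, rfl⟩
    · rintro ⟨X, ⟨⟨h1, h2⟩, h3⟩, rfl⟩
      exact ⟨⟨X, ⟨h1, h3⟩, rfl⟩, mem_sdiff.2 ⟨h2, hi⟩⟩
  rw [deg, e, card_fib, cnt, cnt, filter_filter]
  exact congrArg card (filter_congr fun X _ => ed2_in hx hi X)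

theorem cnt_split (E : Finset (Finset V)) {S x : Finset V} (hx : x ⊆ S) {i : V} (hi : i ∉ S) :
    cnt E (insert i S) (insert i x) + cnt E (insert i S) x = cnt E S x := by
  have h := card_filter_add_card_filter_not (s := {X ∈ E | X ∩ S = x}) (fun X => i ∈ X)
  rw [filter_filter, filter_filter] at h
  rw [cnt, cnt, cnt, ← h, filter_congr fun X _ => ed2_in hx hi X,
    filter_congr fun X _ => ed2_out hx hi X]
  exact congrArg₂ (· + ·) (congrArg card (filter_congr fun X _ => and_comm))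
    (congrArg card (filter_congr fun X _ => and_comm))

theorem cnt_empty (E : Finset (Finset V)) : cnt E ∅ ∅ = #E := by
  simp [cnt]

theorem wp_nonneg (T b : ℕ) (p : ℝ) : 0 ≤ wp T b p := by
  unfold wp
  positivity

theorem wp_le {T b : ℕ} (h : b ≤ T) {p : ℝ} (hp : 1 ≤ p) : wp T b p ≤ b := by
  rcases Nat.eq_zero_or_pos T with rfl | hT
  · simp [wp]
  have hT' : (0 : ℝ) < T := by exact_mod_cast hT
  have h1 : (b : ℝ) / T ≤ 1 := div_le_one_of_le₀ (by exact_mod_cast h) hT'.le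
  have h2 := Real.rpow_le_rpow_of_exponent_ge' (by positivity : (0 : ℝ) ≤ (b : ℝ) / T) h1
    zero_le_one hp
  rw [Real.rpow_one] at h2
  calc wp T b p ≤ T * ((b : ℝ) / T) := mul_le_mul_of_nonneg_left h2 hT'.le
    _ = b := by field_simp

theorem wp_anti {T b : ℕ} (h : b ≤ T) {p q : ℝ} (hp : 0 < p) (hpq : p ≤ q) :
    wp T b q ≤ wp T b p := by
  have h1 : (b : ℝ) / T ≤ 1 := div_le_one_of_le₀ (by exact_mod_cast h) (Nat.cast_nonneg T)
  exact mul_le_mul_of_nonneg_left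
    (Real.rpow_le_rpow_of_exponent_ge' (by positivity) h1 hp.le hpq) (Nat.cast_nonneg T)

/-- The two children of a state, in terms of the fibre. -/
theorem pw_children (E : Finset (Finset V)) {G S x : Finset V} (hS : S ⊆ G) (hx : x ⊆ S) (c : ℕ)
    (p : ℝ) {i : V} (hi : i ∈ G \ S) :
    pw E G c p (insert i S) (insert i x) + pw E G c p (insert i S) x =
      wp ((#(G \ S) - 1).choose (c - #x - 1)) (deg (fib E S x) i) p +
        wp ((#(G \ S) - 1).choose (c - #x)) (#(fib E S x) - deg (fib E S x) i) p := by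
  have hiS : i ∉ S := (mem_sdiff.1 hi).2
  have hix : i ∉ x := fun h => hiS (hx h)
  have h1 := cnt_in E hx hiS
  have h2 := cnt_split E hx hiS
  have h3 : cnt E (insert i S) x = #(fib E S x) - deg (fib E S x) i := by
    rw [card_fib]
    omega
  simp only [pw, tot]
  rw [h1, h3, card_insert_of_notMem hiS, card_insert_of_notMem hix, card_sdiff_of_subset hS,
    Nat.sub_sub, Nat.sub_sub]

theorem pw_eq (E : Finset (Finset V)) {G S : Finset V} (hS : S ⊆ G) (x : Finset V) (c : ℕ) (p : ℝ) :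
    pw E G c p S x = wp ((#(G \ S)).choose (c - #x)) (#(fib E S x)) p := by
  rw [pw, tot, card_fib, card_sdiff_of_subset hS]

/-- On any state the children are bounded by the parent count. -/
theorem pw_children_le {G : Finset V} {c : ℕ} {E : Finset (Finset V)} (hE : E ⊆ powersetCard c G)
    {S x : Finset V} (hS : S ⊆ G) (hx : x ⊆ S) {p : ℝ} (hp : 1 ≤ p) {i : V} (hi : i ∈ G \ S) :
    pw E G c p (insert i S) (insert i x) + pw E G c p (insert i S) x ≤ cnt E S x := by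
  have h1 : insert i S ⊆ G := insert_subset (mem_sdiff.1 hi).1 hS
  rw [← cnt_split E hx (mem_sdiff.1 hi).2, Nat.cast_add]
  exact add_le_add (wp_le (cnt_le_tot hE h1 _) hp) (wp_le (cnt_le_tot hE h1 _) hp)

/-- A state is atypical (and then dominated by `atyp`) or lies in the window. -/
theorem typ_or {G : Finset V} {c : ℕ} {E : Finset (Finset V)} (hE : E ⊆ powersetCard c G)
    {S : Finset V} (hS : S ⊆ G) (x : Finset V) (η : ℝ) :
    (cnt E S x : ℝ) ≤ atyp G c η S x ∨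
      (#x ≤ c ∧ |((c - #x : ℕ) : ℝ) - c / #G * #(G \ S)| ≤ η * #(G \ S)) := by
  by_cases hx : #x ≤ c
  · by_cases h : η * ((#G : ℝ) - #S) < |(c : ℝ) - #x - c / #G * ((#G : ℝ) - #S)|
    · left
      rw [atyp, if_pos ⟨hx, h⟩]
      exact_mod_cast cnt_le_tot hE hS x
    · right
      rw [card_sdiff_of_subset hS, Nat.cast_sub hx, Nat.cast_sub (card_le_card hS)]
      exact ⟨hx, not_lt.1 h⟩
  · left
    rw [cnt_eq_zero hE S (not_le.1 hx), atyp, if_neg fun h => hx h.1, Nat.cast_zero]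

theorem atyp_nonneg (G : Finset V) (c : ℕ) (η : ℝ) (S x : Finset V) : 0 ≤ atyp G c η S x := by
  unfold atyp
  split_ifs
  · exact Nat.cast_nonneg _
  · exact le_rfl

end Pool.Agent.P.MP_4f3dfd_co.Ex
end

-- part Pool.Agent.P.MP_4f3dfd_co.EF1
section

set_option autoImplicit false
set_option linter.unusedSectionVars false
set_option linter.unusedVariables false

namespace Pool.Agent.P.MP_4f3dfd_co.Ex

open Finset Real

variable {V : Type*} [DecidableEq V]

theorem ef1_sum {G : Finset V} {m : ℕ} {A : Finset (Finset V)} (h : A ⊆ powersetCard m G) :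
    ∑ k ∈ G, (#{X ∈ A | k ∈ X} : ℝ) = m * #A := by
  have : ∑ k ∈ G, #{X ∈ A | k ∈ X} = m * #A := by
    simp_rw [card_filter]
    rw [sum_comm, mul_comm, ← smul_eq_mul, ← sum_const]
    refine sum_congr rfl fun X hX => ?_
    obtain ⟨h1, h2⟩ := mem_powersetCard.1 (h hX)
    rw [← card_filter, filter_mem_eq_inter, inter_eq_right.2 h1, h2]
  exact_mod_cast this

theorem ef1_not (A : Finset (Finset V)) (k : V) :
    (#{X ∈ A | k ∉ X} : ℝ) = #A - #{X ∈ A | k ∈ X} := by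
  have := card_filter_add_card_filter_not (s := A) (fun X => k ∈ X)
  rw [← this]
  push_cast
  ring

theorem ef1_one {G : Finset V} {c : ℕ} {J D : Finset (Finset V)} (h : Pair G c J D)
    (P : Finset V → Prop) [DecidablePred P] (k : V) :
    (#{Y ∈ {Y ∈ D | P Y} | k ∉ Y} : ℝ) =
      #{X ∈ J | k ∈ X ∧ P (X.erase k)} + #{Y ∈ blk J D k | P Y} := by
  have e := card_filter_add_card_filter_not (s := {Y ∈ {Y ∈ D | P Y} | k ∉ Y})
    (fun Y => insert k Y ∈ J)
  have e1 : #{Y ∈ {Y ∈ {Y ∈ D | P Y} | k ∉ Y} | insert k Y ∈ J} =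
      #{X ∈ J | k ∈ X ∧ P (X.erase k)} := by
    refine card_nbij' (insert k) (·.erase k) ?_ ?_ ?_ ?_
    · intro Y hY
      simp only [coe_filter, mem_filter, Set.mem_ofPred_eq] at hY ⊢
      refine ⟨hY.2, mem_insert_self _ _, ?_⟩
      rw [erase_insert hY.1.2]
      exact hY.1.1.2
    · intro X hX
      simp only [coe_filter, mem_filter, Set.mem_ofPred_eq] at hX ⊢
      refine ⟨⟨⟨h.sh X hX.1 k hX.2.1, hX.2.2⟩, notMem_erase _ _⟩, ?_⟩
      rw [insert_erase hX.2.1]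
      exact hX.1
    · intro Y hY
      simp only [coe_filter, mem_filter, Set.mem_ofPred_eq] at hY
      exact erase_insert hY.1.2
    · intro X hX
      simp only [coe_filter, mem_filter, Set.mem_ofPred_eq] at hX
      exact insert_erase hX.2.1
  have e2 : {Y ∈ {Y ∈ {Y ∈ D | P Y} | k ∉ Y} | ¬ insert k Y ∈ J} = {Y ∈ blk J D k | P Y} := by
    ext Y
    simp only [blk, mem_filter]
    tauto
  rw [← e, e1, e2]
  push_cast
  ring

theorem ef1_key {G : Finset V} {c : ℕ} {J D : Finset (Finset V)} (h : Pair G c J D)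
    (P : Finset V → Prop) [DecidablePred P] :
    ((#G : ℝ) - c + 1) * #{Y ∈ D | P Y} =
      ∑ k ∈ G, (#{X ∈ J | k ∈ X ∧ P (X.erase k)} : ℝ) + ∑ k ∈ G, (#{Y ∈ blk J D k | P Y} : ℝ) := by
  rw [← sum_add_distrib, ← sum_congr rfl fun k _ => ef1_one h P k]
  simp_rw [ef1_not]
  rw [sum_sub_distrib, ef1_sum ((filter_subset _ _).trans h.hD), Nat.cast_sub h.pos, sum_const,
    nsmul_eq_mul]
  push_cast
  ring

theorem ef1_deg {G : Finset V} {c : ℕ} {J D : Finset (Finset V)} (h : Pair G c J D) (i : V) :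
    (#{Y ∈ D | i ∉ Y} : ℝ) = deg J i + #(blk J D i) := by
  simpa [deg] using ef1_one h (fun _ => True) i

theorem ef1_reg {G : Finset V} {m d : ℕ} {A : Finset (Finset V)} (h : A ⊆ powersetCard m G)
    (hd : ∀ i ∈ G, deg A i = d) : (#G : ℝ) * d = m * #A := by
  rw [← ef1_sum h, ← nsmul_eq_mul, ← sum_const]
  exact sum_congr rfl fun k hk => by rw [← hd k hk, deg]

theorem pair_card {G : Finset V} {c : ℕ} {J D : Finset (Finset V)} (h : Pair G c J D) :
    ((#G : ℝ) - c + 1) * #D = c * #J + exc G J D := by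
  have := ef1_key h (fun _ => True)
  simp only [filter_true, and_true] at this
  rw [this, ef1_sum h.hJ, exc]
  push_cast
  rfl

theorem pair_deg {G : Finset V} {c : ℕ} {J D : Finset (Finset V)} (h : Pair G c J D) {i : V}
    (hi : i ∈ G) : ∃ R : ℝ, 0 ≤ R ∧ R ≤ exc G J D ∧
      (#G : ℝ) * deg J i - c * #J = R - ((#G : ℝ) - c + 1) * #(blk J D i) := by
  refine ⟨∑ k ∈ G, (#{Y ∈ blk J D k | i ∉ Y} : ℝ), sum_nonneg fun k _ => Nat.cast_nonneg _, ?_, ?_⟩
  · rw [exc]
    push_cast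
    exact sum_le_sum fun k _ => by exact_mod_cast card_filter_le _ _
  · have e := ef1_key h (fun Y => i ∉ Y)
    have e1 : ∀ k ∈ G, (#{X ∈ J | k ∈ X ∧ i ∉ X.erase k} : ℝ) =
        (if k = i then (deg J i : ℝ) else 0) + #{X ∈ {X ∈ J | i ∉ X} | k ∈ X} := by
      intro k _
      split_ifs with hk
      · subst hk
        have : {X ∈ {X ∈ J | k ∉ X} | k ∈ X} = ∅ := by
          ext X
          simp only [mem_filter, notMem_empty]
          tauto
        simp [this, deg]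
      · rw [zero_add, filter_filter]
        refine congrArg (fun s : Finset (Finset V) => (#s : ℝ)) (filter_congr fun X _ => ?_)
        simp only [mem_erase, ne_eq, Ne.symm hk, not_false_eq_true, true_and]
        tauto
    rw [sum_congr rfl e1, sum_add_distrib, sum_ite_eq' G i, if_pos hi,
      ef1_sum ((filter_subset _ _).trans h.hJ), ef1_deg h i, ef1_not J i] at e
    simp only [deg] at e ⊢
    linarith

theorem blk_le_of_regJ {G : Finset V} {c : ℕ} {J D : Finset (Finset V)} (h : Pair G c J D) {d : ℕ}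
    (hd : ∀ i ∈ G, deg J i = d) {i : V} (hi : i ∈ G) :
    ((#G : ℝ) - c + 1) * #(blk J D i) ≤ exc G J D := by
  obtain ⟨R, h0, h1, h2⟩ := pair_deg h hi
  have := ef1_reg h.hJ hd
  rw [hd i hi] at h2
  linarith

theorem blk_le_of_regD {G : Finset V} {c : ℕ} {J D : Finset (Finset V)} (h : Pair G c J D) {d : ℕ}
    (hd : ∀ i ∈ G, deg D i = d) {i : V} (hi : i ∈ G) :
    ((c : ℝ) - 1) * #(blk J D i) ≤ exc G J D := by
  obtain ⟨R, h0, h1, h2⟩ := pair_deg h hi
  have h3 := ef1_reg h.hD hd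
  have h4 := ef1_deg h i
  have h5 := pair_card h
  have h6 : (#{X ∈ D | i ∈ X} : ℝ) = d := by rw [← hd i hi, deg]
  rw [ef1_not, h6] at h4
  rw [Nat.cast_sub h.pos, Nat.cast_one] at h3
  have h7 : (#G : ℝ) * (#D - d) = #G * (deg J i + #(blk J D i)) := by rw [h4]
  linarith

theorem pair_shadow {n c : ℕ} (hc : 1 ≤ c) {J : Finset (Finset (Fin n))} (hJ : ∀ X ∈ J, #X = c) :
    Pair univ c J (shadow J) := by
  refine ⟨hc, fun X hX => mem_powersetCard.2 ⟨subset_univ _, hJ X hX⟩, fun Y hY => ?_,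
    fun X hX i hi => erase_mem_shadow hX hi⟩
  obtain ⟨X, hX, i, hi, rfl⟩ := mem_shadow_iff.1 hY
  exact mem_powersetCard.2 ⟨subset_univ _, by rw [card_erase_of_mem hi, hJ X hX]⟩

theorem shadow_subset {G : Finset V} {c : ℕ} {J D : Finset (Finset V)} (h : Pair G c J D) :
    shadow J ⊆ D := by
  intro Y hY
  obtain ⟨X, hX, i, hi, rfl⟩ := mem_shadow_iff.1 hY
  exact h.sh X hX i hi

theorem exc_shadow {n c m : ℕ} (hc : 1 ≤ c) {J : Finset (Finset (Fin n))} (hJ : Reg n c m J) :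
    (exc univ J (shadow J) : ℝ) = ex n c m #(shadow J) := by
  have := pair_card (pair_shadow hc hJ.1)
  rw [card_univ, Fintype.card_fin, hJ.2.1] at this
  rw [ex]
  linarith

end Pool.Agent.P.MP_4f3dfd_co.Ex
end

-- part Pool.Agent.P.MP_4f3dfd_co.ENum1
section

set_option autoImplicit false
set_option linter.unusedSectionVars false
set_option linter.unusedVariables false

namespace Pool.Agent.P.MP_4f3dfd_co.Ex

open Finset Real

variable {V : Type*} [DecidableEq V]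

theorem enum1_step_le {n k m : ℕ} (hn : 0 < n) (hk : k ≤ n) (h : m + 1 ≤ n) :
    (m.choose k : ℝ) ≤ (m + 1).choose k * (1 - (k : ℝ) / n) := by
  have hn' : (0 : ℝ) < n := by exact_mod_cast hn
  have hkn : (k : ℝ) ≤ n := by exact_mod_cast hk
  have h0 : (0 : ℝ) ≤ 1 - (k : ℝ) / n := by
    rw [sub_nonneg, div_le_one hn']; exact hkn
  by_cases hm : k ≤ m + 1
  · have e := Nat.choose_mul_succ_eq m k
    have e' : (m.choose k : ℝ) * ((m : ℝ) + 1) = ((m + 1).choose k : ℝ) * ((m : ℝ) + 1 - k) := by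
      have := congrArg (Nat.cast : ℕ → ℝ) e
      push_cast [Nat.cast_sub hm] at this
      exact this
    have hm1 : (0 : ℝ) < (m : ℝ) + 1 := by positivity
    have hmn : (m : ℝ) + 1 ≤ n := by exact_mod_cast h
    have hc : (0 : ℝ) ≤ ((m + 1).choose k : ℝ) := by positivity
    have hk0 : (0 : ℝ) ≤ k := by positivity
    have hd : (k : ℝ) / n ≤ k / ((m : ℝ) + 1) := div_le_div_of_nonneg_left hk0 hm1 hmn
    have e2 : (m.choose k : ℝ) = ((m + 1).choose k : ℝ) * (1 - k / ((m : ℝ) + 1)) := by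
      field_simp
      linarith
    rw [e2]
    exact mul_le_mul_of_nonneg_left (by linarith) hc
  · have : m.choose k = 0 := Nat.choose_eq_zero_of_lt (by omega)
    rw [this]
    push_cast
    exact mul_nonneg (by positivity) h0

theorem choose_le_mul_pow {n k z w : ℕ} (hn : 0 < n) (hk : k ≤ n) (h : z + w ≤ n) :
    (z.choose k : ℝ) ≤ (z + w).choose k * (1 - (k : ℝ) / n) ^ w := by
  have hn' : (0 : ℝ) < n := by exact_mod_cast hn
  have hkn : (k : ℝ) ≤ n := by exact_mod_cast hk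
  have h0 : (0 : ℝ) ≤ 1 - (k : ℝ) / n := by
    rw [sub_nonneg, div_le_one hn']; exact hkn
  induction w with
  | zero => simp
  | succ w ih =>
    have h1 := ih (by omega)
    have h2 := enum1_step_le (m := z + w) hn hk (by omega)
    calc (z.choose k : ℝ) ≤ (z + w).choose k * (1 - (k : ℝ) / n) ^ w := h1
      _ ≤ ((z + w + 1).choose k * (1 - (k : ℝ) / n)) * (1 - (k : ℝ) / n) ^ w :=
          mul_le_mul_of_nonneg_right h2 (pow_nonneg h0 w)
      _ = (z + (w + 1)).choose k * (1 - (k : ℝ) / n) ^ (w + 1) := by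
          rw [← add_assoc]; ring

theorem enum1_step_ge {n k z m : ℕ} (hn : 0 < n) (hk : k ≤ z) (hz : z ≤ m) (h : m + 1 ≤ n) :
    ((m + 1).choose k : ℝ) * (((z : ℝ) + 1 - k) / n) ≤ m.choose k := by
  have hn' : (0 : ℝ) < n := by exact_mod_cast hn
  have hm : k ≤ m + 1 := by omega
  have e := Nat.choose_mul_succ_eq m k
  have e' : (m.choose k : ℝ) * ((m : ℝ) + 1) = ((m + 1).choose k : ℝ) * ((m : ℝ) + 1 - k) := by
    have := congrArg (Nat.cast : ℕ → ℝ) e
    push_cast [Nat.cast_sub hm] at this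
    exact this
  have hm1 : (0 : ℝ) < (m : ℝ) + 1 := by positivity
  have hmn : (m : ℝ) + 1 ≤ n := by exact_mod_cast h
  have hc : (0 : ℝ) ≤ ((m + 1).choose k : ℝ) := by positivity
  have hkz : (k : ℝ) ≤ z := by exact_mod_cast hk
  have hzm : (z : ℝ) ≤ m := by exact_mod_cast hz
  have e2 : (m.choose k : ℝ) = ((m + 1).choose k : ℝ) * (((m : ℝ) + 1 - k) / ((m : ℝ) + 1)) := by
    field_simp
    linarith
  rw [e2]
  refine mul_le_mul_of_nonneg_left ?_ hc
  exact div_le_div₀ (by linarith) (by linarith) hm1 hmn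

theorem mul_pow_le_choose {n k z w : ℕ} (hn : 0 < n) (hk : k ≤ z) (h : z + w ≤ n) :
    ((z + w).choose k : ℝ) * (((z : ℝ) + 1 - k) / n) ^ w ≤ z.choose k := by
  have hn' : (0 : ℝ) < n := by exact_mod_cast hn
  have hkz : (k : ℝ) ≤ z := by exact_mod_cast hk
  have h0 : (0 : ℝ) ≤ ((z : ℝ) + 1 - k) / n := div_nonneg (by linarith) hn'.le
  induction w with
  | zero => simp
  | succ w ih =>
    have h1 := ih (by omega)
    have h2 := enum1_step_ge (m := z + w) hn hk (by omega) (by omega)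
    calc ((z + (w + 1)).choose k : ℝ) * (((z : ℝ) + 1 - k) / n) ^ (w + 1)
        = (((z + w + 1).choose k : ℝ) * (((z : ℝ) + 1 - k) / n)) * (((z : ℝ) + 1 - k) / n) ^ w := by
          rw [← add_assoc]; ring
      _ ≤ ((z + w).choose k : ℝ) * (((z : ℝ) + 1 - k) / n) ^ w :=
          mul_le_mul_of_nonneg_right h2 (pow_nonneg h0 w)
      _ ≤ z.choose k := h1

theorem enum1_two_pow {k u : ℕ} (h1 : u ≤ k) : 2 ^ u ≤ (k + u).choose k := by
  induction u with
  | zero => simp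
  | succ u ih =>
    have h2 := ih (by omega)
    have e := Nat.choose_mul_succ_eq (k + u) k
    have e1 : k + u + 1 - k = u + 1 := by omega
    rw [e1] at e
    have h3 : 2 ^ (u + 1) * (u + 1) ≤ (k + u + 1).choose k * (u + 1) := by
      rw [← e]
      calc 2 ^ (u + 1) * (u + 1) = 2 ^ u * (2 * (u + 1)) := by ring
        _ ≤ (k + u).choose k * (k + u + 1) := Nat.mul_le_mul h2 (by omega)
    exact Nat.le_of_mul_le_mul_right h3 (by omega)

theorem two_pow_le_choose {z k u : ℕ} (h1 : u ≤ k) (h2 : k + u ≤ z) : 2 ^ u ≤ z.choose k :=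
  (enum1_two_pow h1).trans (Nat.choose_le_choose k h2)

theorem choose_pred {z k : ℕ} (hk : 1 ≤ k) :
    (k : ℝ) * z.choose k = ((z : ℝ) - k + 1) * z.choose (k - 1) := by
  obtain ⟨j, rfl⟩ : ∃ j, k = j + 1 := ⟨k - 1, by omega⟩
  rw [Nat.add_sub_cancel]
  by_cases hj : j ≤ z
  · have e := Nat.choose_succ_right_eq z j
    have := congrArg (Nat.cast : ℕ → ℝ) e
    push_cast [Nat.cast_sub hj] at this
    push_cast
    linarith
  · rw [Nat.choose_eq_zero_of_lt (by omega : z < j + 1), Nat.choose_eq_zero_of_lt (by omega : z < j)]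
    simp

theorem choose_pred_pred {n c : ℕ} (hn : 1 ≤ n) (hc : 1 ≤ c) :
    (n : ℝ) * (n - 1).choose (c - 1) = c * n.choose c := by
  obtain ⟨j, rfl⟩ : ∃ j, c = j + 1 := ⟨c - 1, by omega⟩
  obtain ⟨m, rfl⟩ : ∃ m, n = m + 1 := ⟨n - 1, by omega⟩
  rw [Nat.add_sub_cancel, Nat.add_sub_cancel]
  have e := Nat.add_one_mul_choose_eq m j
  have := congrArg (Nat.cast : ℕ → ℝ) e
  push_cast at this
  push_cast
  linarith

theorem le_of_mul_choose_le {n k z M : ℕ} (hn : 1 ≤ n) (h1 : n * (z - 1).choose k ≤ M)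
    (h2 : M < n.choose k) : z ≤ n := by
  by_contra hz
  have h3 : n.choose k ≤ (z - 1).choose k := Nat.choose_le_choose k (by omega)
  have h4 : (z - 1).choose k ≤ n * (z - 1).choose k := Nat.le_mul_of_pos_left _ hn
  omega

theorem le_of_lt_mul_choose {n k z M : ℕ} (h : M < n * z.choose k) : k ≤ z := by
  by_contra hz
  rw [Nat.choose_eq_zero_of_lt (by omega : z < k)] at h
  simp at h

/-- The width is at most a logarithm of the inverse density. -/
theorem width_le {n k z M : ℕ} (hk0 : 0 < k) (hk : k < n) (hz : z ≤ n) (hM : 0 < M)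
    (h : M ≤ n * z.choose k) :
    ((n : ℝ) - z) * log (n / ((n : ℝ) - k)) ≤ log (n * (n.choose k : ℝ) / M) := by
  obtain ⟨w, rfl⟩ : ∃ w, n = z + w := ⟨n - z, by omega⟩
  set n := z + w with hn
  have hn0 : 0 < n := by omega
  have hn' : (0 : ℝ) < n := by exact_mod_cast hn0
  have hkn : (k : ℝ) < n := by exact_mod_cast hk
  have hM' : (0 : ℝ) < M := by exact_mod_cast hM
  have h1 := choose_le_mul_pow (n := n) (k := k) (z := z) (w := w) hn0 hk.le le_rfl
  rw [← hn] at h1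
  have h2 : (M : ℝ) ≤ n * (z.choose k : ℝ) := by exact_mod_cast h
  have hw : (n : ℝ) - z = w := by rw [hn]; push_cast; ring
  have hd : (0 : ℝ) < (n : ℝ) - k := by linarith
  have hq : (0 : ℝ) < n / ((n : ℝ) - k) := div_pos hn' hd
  rw [hw, ← Real.log_pow]
  refine Real.log_le_log (pow_pos hq w) ?_
  rw [le_div_iff₀ hM']
  have h3 : (n / ((n : ℝ) - k)) ^ w * (1 - (k : ℝ) / n) ^ w = 1 := by
    rw [← mul_pow]
    have : (n / ((n : ℝ) - k)) * (1 - (k : ℝ) / n) = 1 := by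
      field_simp
    rw [this, one_pow]
  have h4 : (M : ℝ) ≤ n * ((n.choose k : ℝ) * (1 - (k : ℝ) / n) ^ w) :=
    h2.trans (mul_le_mul_of_nonneg_left h1 hn'.le)
  calc (n / ((n : ℝ) - k)) ^ w * M
      ≤ (n / ((n : ℝ) - k)) ^ w * (n * ((n.choose k : ℝ) * (1 - (k : ℝ) / n) ^ w)) :=
        mul_le_mul_of_nonneg_left h4 (pow_pos hq w).le
    _ = n * (n.choose k : ℝ) * ((n / ((n : ℝ) - k)) ^ w * (1 - (k : ℝ) / n) ^ w) := by ring
    _ = n * (n.choose k : ℝ) := by rw [h3, mul_one]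

end Pool.Agent.P.MP_4f3dfd_co.Ex
end

-- part Pool.Agent.P.MP_4f3dfd_co.EU1
section

set_option autoImplicit false
set_option linter.unusedSectionVars false
set_option linter.unusedVariables false

namespace Pool.Agent.P.MP_4f3dfd_co.Ex

open Finset Real

variable {V : Type*} [DecidableEq V]

open scoped Pointwise in
theorem eu1_step {n : ℕ} [NeZero n] (l : ℕ) (C1 C2 : Finset (Finset (Fin n)))
    (B : Finset (Fin n)) :
    #(Asy.cl l (C1 ∪ insert B C2)) ≤ #(Asy.cl l (C1 ∪ C2)) + n * (#B).choose l := by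
  have hsub : Asy.cl l (C1 ∪ insert B C2) ⊆ Asy.cl l (C1 ∪ C2) ∪
      (univ : Finset (Fin n)).biUnion fun s => powersetCard l (s +ᵥ B) := by
    intro X hX
    obtain ⟨hc, A, hA, s, hs⟩ := Asy.mem_cl.1 hX
    rw [mem_union]
    rcases mem_union.1 hA with hA | hA
    · exact Or.inl (Asy.mem_cl.2 ⟨hc, A, mem_union_left _ hA, s, hs⟩)
    · rcases mem_insert.1 hA with rfl | hA
      · exact Or.inr (mem_biUnion.2 ⟨s, mem_univ _, mem_powersetCard.2 ⟨hs, hc⟩⟩)
      · exact Or.inl (Asy.mem_cl.2 ⟨hc, A, mem_union_right _ hA, s, hs⟩)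
  refine (card_le_card hsub).trans ((card_union_le _ _).trans (Nat.add_le_add_left ?_ _))
  refine card_biUnion_le.trans (le_of_eq ?_)
  simp only [card_powersetCard, card_vadd_finset, sum_const, card_univ, Fintype.card_fin,
    smul_eq_mul]

open scoped Pointwise in
theorem eu1_full {n : ℕ} [NeZero n] {l y2 : ℕ} (h1 : l ≤ y2) (C1 C2 : Finset (Finset (Fin n)))
    (B0 : Finset (Fin n)) (h2 : y2 ≤ #B0) (hall : ∀ B, B ⊆ B0 → #B = y2 → B ∈ C2) :
    Asy.cl l (insert B0 C1) ⊆ Asy.cl l (C1 ∪ C2) := by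
  intro X hX
  obtain ⟨hc, A, hA, s, hs⟩ := Asy.mem_cl.1 hX
  rcases mem_insert.1 hA with rfl | hA
  · have h0 : (-s) +ᵥ X ⊆ A := by
      have := vadd_finset_subset_vadd_finset (a := -s) hs
      rwa [neg_vadd_vadd] at this
    obtain ⟨B, hXB, hBA, hB⟩ := exists_subsuperset_card_eq h0 (n := y2)
      (by rw [card_vadd_finset, hc]; exact h1) h2
    refine Asy.mem_cl.2 ⟨hc, B, mem_union_right _ (hall B hBA hB), s, ?_⟩
    have := vadd_finset_subset_vadd_finset (a := s) hXB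
    rwa [vadd_neg_vadd] at this
  · exact Asy.mem_cl.2 ⟨hc, A, mem_union_left _ hA, s, hs⟩

open scoped Pointwise in
/-- A two-scale chain of translation invariant families. -/
theorem chain2 {n : ℕ} [NeZero n] {l y1 y2 t : ℕ} (h1 : l ≤ y2) (h2 : y2 ≤ y1) (h3 : y1 ≤ n)
    (ht : t ≤ n.choose l) : ∃ (C1 C2 : Finset (Finset (Fin n))) (B0 : Finset (Fin n)),
      (∀ B ∈ C1, #B = y1) ∧ #B0 = y1 ∧ (∀ B ∈ C2, #B = y2 ∧ B ⊆ B0) ∧
      #(Asy.cl l (C1 ∪ C2)) ≤ t ∧ t ≤ #(Asy.cl l (C1 ∪ C2)) + n * y2.choose l := by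
  classical
  let S : Finset (Finset (Finset (Fin n))) :=
    univ.filter fun C => (∀ B ∈ C, #B = y1) ∧ #(Asy.cl l C) ≤ t
  have hS : S.Nonempty := ⟨∅, by
    refine mem_filter.2 ⟨mem_univ _, fun B hB => absurd hB (notMem_empty _), ?_⟩
    have : Asy.cl l (∅ : Finset (Finset (Fin n))) = ∅ := by
      ext X
      simp [Asy.mem_cl]
    rw [this, card_empty]
    exact Nat.zero_le _⟩
  obtain ⟨C1, hC1, hmax⟩ := exists_max_image S card hS
  simp only [S, mem_filter, mem_univ, true_and] at hC1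
  obtain ⟨hCy, hle⟩ := hC1
  by_cases hex : ∃ B0 ∉ C1, #B0 = y1
  · obtain ⟨B0, hB0, hB0c⟩ := hex
    have hgt : t < #(Asy.cl l (insert B0 C1)) := by
      by_contra hcon
      have := hmax (insert B0 C1) (by
        simp only [S, mem_filter, mem_univ, true_and]
        refine ⟨fun B hB => ?_, by omega⟩
        rcases mem_insert.1 hB with rfl | hB
        · exact hB0c
        · exact hCy B hB)
      rw [card_insert_of_notMem hB0] at this
      omega
    let S2 : Finset (Finset (Finset (Fin n))) :=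
      univ.filter fun C => (∀ B ∈ C, #B = y2 ∧ B ⊆ B0) ∧ #(Asy.cl l (C1 ∪ C)) ≤ t
    have hS2 : S2.Nonempty := ⟨∅, by
      refine mem_filter.2 ⟨mem_univ _, fun B hB => absurd hB (notMem_empty _), ?_⟩
      rw [union_empty]
      exact hle⟩
    obtain ⟨C2, hC2, hmax2⟩ := exists_max_image S2 card hS2
    simp only [S2, mem_filter, mem_univ, true_and] at hC2
    obtain ⟨hC2y, hle2⟩ := hC2
    refine ⟨C1, C2, B0, hCy, hB0c, hC2y, hle2, ?_⟩
    have hex2 : ∃ B, B ⊆ B0 ∧ #B = y2 ∧ B ∉ C2 := by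
      by_contra hcon
      push Not at hcon
      have := card_le_card (eu1_full h1 C1 C2 B0 (by omega) hcon)
      omega
    obtain ⟨B, hBs, hBc, hB⟩ := hex2
    have hstep := eu1_step l C1 C2 B
    rw [hBc] at hstep
    by_contra hcon
    have := hmax2 (insert B C2) (by
      simp only [S2, mem_filter, mem_univ, true_and]
      refine ⟨fun A hA => ?_, by omega⟩
      rcases mem_insert.1 hA with rfl | hA
      · exact ⟨hBc, hBs⟩
      · exact hC2y A hA)
    rw [card_insert_of_notMem hB] at this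
    omega
  · push Not at hex
    obtain ⟨B0, -, hB0⟩ := exists_subset_card_eq (s := (univ : Finset (Fin n))) (n := y1)
      (by simpa using h3)
    refine ⟨C1, ∅, B0, hCy, hB0, fun B hB => absurd hB (notMem_empty _), ?_, ?_⟩
    · rw [union_empty]
      exact hle
    · rw [union_empty]
      have : powersetCard l (univ : Finset (Fin n)) ⊆ Asy.cl l C1 := by
        intro X hX
        rw [mem_powersetCard] at hX
        obtain ⟨B, hXB, -, hB⟩ := exists_subsuperset_card_eq (subset_univ X) (n := y1)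
          (by rw [hX.2]; omega) (by simpa using h3)
        refine Asy.mem_cl.2 ⟨hX.2, B, by_contra fun h => hex B h hB, 0, by simpa using hXB⟩
      have := card_le_card this
      rw [card_powersetCard, card_univ, Fintype.card_fin] at this
      omega

end Pool.Agent.P.MP_4f3dfd_co.Ex
end

-- part Pool.Agent.P.MP_4f3dfd_co.FDefs
section

set_option autoImplicit false
set_option linter.unusedSectionVars false
set_option linter.unusedVariables false

namespace Pool.Agent.P.MP_4f3dfd_co.Ex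

open Finset Real
open scoped Pointwise

variable {V : Type*} [DecidableEq V]

/-- A third of the distance of `c / n` from the ends of the unit interval. -/
noncomputable def aa (n c : ℕ) : ℝ := min (c : ℝ) ((n : ℝ) - c) / (3 * n)

/-- The logarithmic loss of hypercontractivity near the ends. -/
noncomputable def bt (a : ℝ) : ℝ := 30 + 2 * log (1 / a)

/-- The surviving exponent. -/
noncomputable def tt (a θ : ℝ) : ℝ := θ / (1 + 6 * θ * bt a)

/-- The one-step inequality for the density martingale. -/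
def Step (G : Finset V) (c : ℕ) (J D : Finset (Finset V)) (a θ θ' Γ : ℝ) : Prop :=
  ∀ r < #G, Av G (r + 1) (pw J G c (1 + θ')) ≤ Av G r (pw J G c (1 + θ')) +
    Γ / #G * ∑ k ∈ G, Av (G.erase k) r (pw (blk J D k) (G.erase k) (c - 1) (1 + θ)) +
      zeta #G 1 (a * ((#G : ℝ) - r) / 6) * (#G).choose c

/-- Logarithm of the inverse density, from the degree. -/
noncomputable def lg (n c d : ℕ) : ℝ := log (((n - 1).choose (c - 1) : ℝ) / d)

/-- The cap on the multiplicity. -/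
noncomputable def Lam (n c d : ℕ) : ℝ := exp (lg n c d * log c / log (n / c))

/-- The multiplicity at width `w`. -/
noncomputable def lam (n c d : ℕ) (w : ℝ) : ℝ := min (n / w) (Lam n c d)

/-- `log (n ^ 2 / (c (n - c)))`. -/
noncomputable def bb (n c : ℕ) : ℝ := log ((n : ℝ) ^ 2 / (c * ((n : ℝ) - c)))

/-- `x` is the clique size that belongs to the degree `d`. -/
structure Par (n c d x : ℕ) : Prop where
  hc : 2 ≤ c
  hcn : c + 2 ≤ n
  hd : 1 ≤ d
  hdC : d < (n - 1).choose (c - 1)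
  hx : x < n
  lo : lam n c d ((n : ℝ) - x + 1) * (x - 1).choose (c - 1) ≤ d
  hi : (d : ℝ) < lam n c d ((n : ℝ) - x) * x.choose (c - 1)

/-- Predicted excess, small families. -/
noncomputable def eL (n c m x : ℕ) : ℝ := c * m * ((n : ℝ) - x) / ((x : ℝ) - c + 2)

/-- The `l`-sets containing no translate of a pattern. -/
def nc {n : ℕ} [NeZero n] (l : ℕ) (Q : Finset (Finset (Fin n))) : Finset (Finset (Fin n)) :=
  univ.filter fun X => #X = l ∧ ∀ P ∈ Q, ∀ s : Fin n, ¬ s +ᵥ P ⊆ X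

/-- The `r`-sets with a translate inside `X`. -/
def hits {n : ℕ} [NeZero n] (r : ℕ) (X : Finset (Fin n)) : Finset (Finset (Fin n)) :=
  {P ∈ powersetCard r univ | ∃ s : Fin n, s +ᵥ P ⊆ X}

/-- Number of `r`-subsets of `X` with another translate inside `X`. -/
def ov {n : ℕ} [NeZero n] (r : ℕ) (X : Finset (Fin n)) : ℕ :=
  #{P ∈ powersetCard r X | ∃ s : Fin n, s ≠ 0 ∧ s +ᵥ P ⊆ X}

/-- The overlap error. -/
noncomputable def eps (n l ρ : ℕ) : ℝ :=
  ((l : ℝ) / n) ^ (3 * ρ) + (2 * ((6 * ρ : ℕ) : ℝ) ^ 2 / n) ^ ρ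

/-- A family of patterns whose avoiders have small excess. -/
def Good {n : ℕ} [NeZero n] (l r : ℕ) (Q : Finset (Finset (Fin n))) : Prop :=
  (∀ P ∈ Q, #P = r) ∧ (exc univ (nc l Q) (nc (l - 1) Q) : ℝ) ≤
    8 * r * (#(nc l Q) * (1 + log ((n.choose l : ℝ) / #(nc l Q))))

theorem bt_ge {a : ℝ} (ha : 0 < a) (h1 : a ≤ 1) : 30 ≤ bt a := by
  have : 0 ≤ log (1 / a) := log_nonneg (by rw [le_div_iff₀ ha]; linarith)
  unfold bt; linarith

theorem log_le_bt (a : ℝ) : 2 * log (1 / a) ≤ bt a := by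
  unfold bt; linarith

theorem bt_anti {a b : ℝ} (ha : 0 < a) (h : a ≤ b) : bt b ≤ bt a := by
  have : log (1 / b) ≤ log (1 / a) :=
    log_le_log (by have := ha.trans_le h; positivity) (one_div_le_one_div_of_le ha h)
  unfold bt; linarith

theorem three_aa {n : ℕ} (hn : 0 < n) (c : ℕ) :
    3 * aa n c = min ((c : ℝ) / n) (1 - (c : ℝ) / n) := by
  have h : (0 : ℝ) < n := by exact_mod_cast hn
  have e : (1 : ℝ) - c / n = ((n : ℝ) - c) / n := by field_simp
  rw [e, min_div_div_right h.le]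
  unfold aa; field_simp

theorem aa_mul {n : ℕ} (hn : 0 < n) (c : ℕ) : 3 * aa n c * n = min (c : ℝ) ((n : ℝ) - c) := by
  have h : (0 : ℝ) < n := by exact_mod_cast hn
  unfold aa; field_simp

theorem aa_lo {n : ℕ} (hn : 0 < n) (c : ℕ) : 3 * aa n c * n ≤ c := by
  rw [aa_mul hn]; exact min_le_left _ _

theorem aa_hi {n : ℕ} (hn : 0 < n) (c : ℕ) : (c : ℝ) ≤ (1 - 3 * aa n c) * n := by
  have := aa_mul hn c
  have := min_le_right (c : ℝ) ((n : ℝ) - c)
  linarith

theorem aa_le {n : ℕ} (hn : 0 < n) (c : ℕ) : aa n c ≤ 1 / 6 := by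
  have h : (0 : ℝ) < n := by exact_mod_cast hn
  have h1 := aa_lo hn c
  have h2 := aa_hi hn c
  by_contra hh
  have hh := not_le.1 hh
  nlinarith

theorem tt_bounds {a θ : ℝ} (ha : 0 < a) (h1 : a ≤ 1) (hθ0 : 0 < θ) (hθ : θ * bt a ≤ 1) :
    θ / 7 ≤ tt a θ ∧ tt a θ ≤ θ ∧ 0 < tt a θ ∧ θ ≤ 1 / 30 := by
  have hb := bt_ge ha h1
  have h2 : 0 ≤ θ * bt a := by positivity
  unfold tt
  refine ⟨div_le_div_of_nonneg_left hθ0.le (by linarith) (by linarith),
    div_le_self hθ0.le (by linarith), div_pos hθ0 (by linarith), by nlinarith⟩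

end Pool.Agent.P.MP_4f3dfd_co.Ex
end

-- part Pool.Agent.P.MP_4f3dfd_co.EB2
section

set_option autoImplicit false
set_option linter.unusedSectionVars false
set_option linter.unusedVariables false

namespace Pool.Agent.P.MP_4f3dfd_co.Ex

open Finset Real

variable {V : Type*} [DecidableEq V]

lemma eb2_fact {n : ℕ} (hn : 0 < n) :
    (n.factorial : ℝ) = Stirling.stirlingSeq n * (√(2 * n) * ((n : ℝ) / exp 1) ^ n) := by
  have h : (0 : ℝ) < n := by exact_mod_cast hn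
  unfold Stirling.stirlingSeq
  field_simp

lemma eb2_le {n : ℕ} (hn : 0 < n) : Stirling.stirlingSeq n ≤ exp 1 / √2 := by
  obtain ⟨m, rfl⟩ := Nat.exists_eq_succ_of_ne_zero hn.ne'
  rw [← Stirling.stirlingSeq_one]
  exact Stirling.stirlingSeq'_antitone (Nat.zero_le m)

lemma eb2_pos {n : ℕ} (hn : 0 < n) : 0 < Stirling.stirlingSeq n := by
  obtain ⟨m, rfl⟩ := Nat.exists_eq_succ_of_ne_zero hn.ne'
  exact Stirling.stirlingSeq'_pos m

lemma eb2_pow {x α : ℝ} {m : ℕ} (hα : 0 < α) (hx : 0 ≤ x) (h : x = 0 → m = 0) :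
    α ^ m = x ^ m * exp (-(m * log (x / α))) := by
  rcases hx.eq_or_lt with h0 | h0
  · rw [h h0.symm]
    simp
  · rw [exp_neg, exp_nat_mul, exp_log (div_pos h0 hα), div_pow]
    field_simp

theorem binom_ge {N j : ℕ} (h0 : 0 < j) (h1 : j < N) :
    1 / (2 * √N) ≤ (N.choose j : ℝ) * (((j : ℝ) / N) ^ j * (1 - (j : ℝ) / N) ^ (N - j)) := by
  obtain ⟨k, rfl⟩ := Nat.exists_eq_add_of_le h1.le
  have hk : 0 < k := by omega
  have hN : 0 < j + k := by omega
  have hj' : (0 : ℝ) < j := by exact_mod_cast h0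
  have hk' : (0 : ℝ) < k := by exact_mod_cast hk
  have he : 0 < exp 1 := exp_pos 1
  have e1 : 1 - (j : ℝ) / ((j + k : ℕ) : ℝ) = k / ((j + k : ℕ) : ℝ) := by
    push_cast
    field_simp
    ring
  rw [Nat.add_sub_cancel_left, e1, Nat.cast_add_choose, eb2_fact hN, eb2_fact h0, eb2_fact hk]
  have p1 := eb2_pos h0
  have p2 := eb2_pos hk
  have l1 := eb2_le h0
  have l2 := eb2_le hk
  have l3 := Stirling.sqrt_pi_le_stirlingSeq hN.ne'
  set N : ℝ := ((j + k : ℕ) : ℝ) with hNdef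
  have hNe : N = j + k := by rw [hNdef]; push_cast; rfl
  have hN' : 0 < N := by rw [hNe]; positivity
  set sN := Stirling.stirlingSeq (j + k)
  set sj := Stirling.stirlingSeq j
  set sk := Stirling.stirlingSeq k
  have q1 : 0 < √(2 * (j : ℝ)) := by positivity
  have q2 : 0 < √(2 * (k : ℝ)) := by positivity
  have q3 : 0 < √N := by positivity
  have e2 : sN * (√(2 * N) * (N / exp 1) ^ (j + k)) /
      (sj * (√(2 * j) * ((j : ℝ) / exp 1) ^ j) * (sk * (√(2 * k) * ((k : ℝ) / exp 1) ^ k))) *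
      (((j : ℝ) / N) ^ j * ((k : ℝ) / N) ^ k) =
      sN * √(2 * N) / (sj * sk * (√(2 * j) * √(2 * k))) := by
    simp only [div_pow, pow_add]
    field_simp
  rw [e2, div_le_div_iff₀ (by positivity) (by positivity), one_mul]
  have a1 : √(2 * (j : ℝ)) * √(2 * k) ≤ N := by
    have s1 := sq_sqrt (show (0 : ℝ) ≤ 2 * j by positivity)
    have s2 := sq_sqrt (show (0 : ℝ) ≤ 2 * k by positivity)
    nlinarith [sq_nonneg (√(2 * (j : ℝ)) - √(2 * k))]
  have a2 : sj * sk ≤ 4 := by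
    have s2 : √2 * √2 = (2 : ℝ) := mul_self_sqrt (by norm_num)
    have h3 : exp 1 < 2.72 := exp_one_lt_d9.trans (by norm_num)
    calc sj * sk ≤ exp 1 / √2 * (exp 1 / √2) := mul_le_mul l1 l2 p2.le (by positivity)
      _ = exp 1 * exp 1 / 2 := by rw [div_mul_div_comm, s2]
      _ ≤ 4 := by nlinarith
  have a3 : (1.7 : ℝ) ≤ sN := by
    refine le_trans ?_ l3
    exact le_sqrt_of_sq_le (by nlinarith [pi_gt_three])
  have a4 : (1.4 : ℝ) * √N ≤ √(2 * N) := by
    rw [sqrt_mul (by norm_num)]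
    exact mul_le_mul_of_nonneg_right (le_sqrt_of_sq_le (by norm_num)) q3.le
  have a5 : √N * √N = N := mul_self_sqrt hN'.le
  calc sj * sk * (√(2 * (j : ℝ)) * √(2 * k)) ≤ 4 * N :=
        mul_le_mul a2 a1 (by positivity) (by norm_num)
    _ ≤ 1.7 * (1.4 * √N) * (2 * √N) := by nlinarith
    _ ≤ sN * √(2 * N) * (2 * √N) := by
        refine mul_le_mul_of_nonneg_right ?_ (by positivity)
        exact mul_le_mul a3 a4 (by positivity) (by linarith)

theorem binom_le_one {N j : ℕ} {α : ℝ} (hj : j ≤ N) (h0 : 0 ≤ α) (h1 : α ≤ 1) :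
    (N.choose j : ℝ) * (α ^ j * (1 - α) ^ (N - j)) ≤ 1 := by
  have h2 : 0 ≤ 1 - α := by linarith
  have h := add_pow α (1 - α) N
  rw [add_sub_cancel, one_pow] at h
  rw [mul_comm]
  refine le_trans ?_ h.ge
  exact single_le_sum (f := fun m => α ^ m * (1 - α) ^ (N - m) * (N.choose m : ℝ))
    (fun m _ => by positivity) (mem_range.2 (Nat.lt_succ_of_le hj))

theorem binom_le_exp {N j : ℕ} {α η : ℝ} (hj : j ≤ N) (h0 : 0 < α) (h1 : α < 1) (hη : 0 ≤ η)
    (h : η * N ≤ |(j : ℝ) - α * N|) :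
    (N.choose j : ℝ) * (α ^ j * (1 - α) ^ (N - j)) ≤ exp (-(η ^ 2 * N / 2)) := by
  rcases Nat.eq_zero_or_pos N with rfl | hN
  · obtain rfl : j = 0 := by omega
    simp
  have hN' : (0 : ℝ) < N := by exact_mod_cast hN
  have hjN : (j : ℝ) ≤ N := by exact_mod_cast hj
  have u0 : 0 ≤ (j : ℝ) / N := by positivity
  have u1 : (j : ℝ) / N ≤ 1 := (div_le_one hN').2 hjN
  have e1 := eb2_pow (x := (j : ℝ) / N) (m := j) h0 u0 (fun h => by
    rw [div_eq_zero_iff] at h
    rcases h with h | h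
    · exact_mod_cast h
    · exact absurd h hN'.ne')
  have e2 := eb2_pow (x := 1 - (j : ℝ) / N) (α := 1 - α) (m := N - j) (by linarith) (by linarith)
    (fun h => by
      have h2 : (j : ℝ) / N = 1 := by linarith
      rw [div_eq_one_iff_eq hN'.ne'] at h2
      have : j = N := by exact_mod_cast h2
      omega)
  have hb := binom_le_one hj u0 u1
  have hk := kl_ge u0 u1 h0 h1
  have e3 : (j : ℝ) * log ((j : ℝ) / N / α) +
      ((N - j : ℕ) : ℝ) * log ((1 - (j : ℝ) / N) / (1 - α)) = N * kl ((j : ℝ) / N) α := by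
    rw [Nat.cast_sub hj, kl]
    field_simp
  have h4 : η ^ 2 ≤ ((j : ℝ) / N - α) ^ 2 := by
    have e4 : (j : ℝ) - α * N = ((j : ℝ) / N - α) * N := by field_simp
    rw [e4, abs_mul, abs_of_pos hN'] at h
    rw [← sq_abs ((j : ℝ) / N - α)]
    exact pow_le_pow_left₀ hη (le_of_mul_le_mul_right h hN') 2
  have h5 : exp (-((j : ℝ) * log ((j : ℝ) / N / α))) *
      exp (-(((N - j : ℕ) : ℝ) * log ((1 - (j : ℝ) / N) / (1 - α)))) ≤
      exp (-(η ^ 2 * N / 2)) := by
    rw [← exp_add, exp_le_exp, ← neg_add, e3]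
    nlinarith
  rw [e1, e2]
  calc _ = (N.choose j : ℝ) * (((j : ℝ) / N) ^ j * (1 - (j : ℝ) / N) ^ (N - j)) *
        (exp (-((j : ℝ) * log ((j : ℝ) / N / α))) *
          exp (-(((N - j : ℕ) : ℝ) * log ((1 - (j : ℝ) / N) / (1 - α))))) := by ring
    _ ≤ 1 * exp (-(η ^ 2 * N / 2)) := mul_le_mul hb h5 (by positivity) zero_le_one
    _ = _ := one_mul _

end Pool.Agent.P.MP_4f3dfd_co.Ex
end

-- part Pool.Agent.P.MP_4f3dfd_co.ED3
section

set_option autoImplicit false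
set_option linter.unusedSectionVars false
set_option linter.unusedVariables false

namespace Pool.Agent.P.MP_4f3dfd_co.Ex

open Finset Real

variable {V : Type*} [DecidableEq V]

theorem blk_subset {G : Finset V} {c : ℕ} {J D : Finset (Finset V)} (h : Pair G c J D) (k : V) :
    blk J D k ⊆ powersetCard (c - 1) (G.erase k) := by
  intro Y hY
  obtain ⟨h1, h2, -⟩ := mem_filter.1 hY
  obtain ⟨h3, h4⟩ := mem_powersetCard.1 (h.hD h1)
  exact mem_powersetCard.2 ⟨subset_erase.2 ⟨h3, h2⟩, h4⟩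

theorem pair_fib {G : Finset V} {c : ℕ} {J D : Finset (Finset V)} (h : Pair G c J D)
    {S x : Finset V} (hx : x ⊆ S) (hc : #x < c) :
    Pair (G \ S) (c - #x) (fib J S x) (fib D S x) := by
  refine ⟨by omega, fib_subset h.hJ S x, ?_, fun Z hZ i hi => ?_⟩
  · rw [Nat.sub_right_comm]
    exact fib_subset h.hD S x
  · obtain ⟨X, hX, rfl⟩ := mem_image.1 hZ
    obtain ⟨h1, h2⟩ := mem_filter.1 hX
    obtain ⟨h3, h4⟩ := mem_sdiff.1 hi
    refine mem_image.2 ⟨X.erase i, mem_filter.2 ⟨h.sh X h1 i h3, ?_⟩, ?_⟩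
    · rw [erase_inter, h2, erase_eq_of_notMem fun h5 => h4 (hx h5)]
    · exact erase_sdiff_comm _ _ _

theorem card_blk_fib (J D : Finset (Finset V)) {S x : Finset V} (hx : x ⊆ S) {k : V}
    (hk : k ∉ S) : #(blk (fib J S x) (fib D S x) k) = cnt (blk J D k) S x := by
  rw [← card_fib]
  refine congrArg card (Finset.ext fun Z => ⟨fun hZ => ?_, fun hZ => ?_⟩)
  · obtain ⟨h1, h2, h3⟩ := mem_filter.1 hZ
    obtain ⟨Y, hY, rfl⟩ := mem_image.1 h1
    obtain ⟨h4, h5⟩ := mem_filter.1 hY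
    refine mem_image.2 ⟨Y, mem_filter.2 ⟨mem_filter.2 ⟨h4, fun h6 => h2 (mem_sdiff.2 ⟨h6, hk⟩),
      fun h6 => h3 (mem_image.2 ⟨insert k Y, mem_filter.2 ⟨h6, ?_⟩, ?_⟩)⟩, h5⟩, rfl⟩
    · rw [insert_inter_of_notMem hk, h5]
    · exact insert_sdiff_of_notMem _ hk
  · obtain ⟨Y, hY, rfl⟩ := mem_image.1 hZ
    obtain ⟨h1, h5⟩ := mem_filter.1 hY
    obtain ⟨h4, h2, h3⟩ := mem_filter.1 h1
    refine mem_filter.2 ⟨mem_image.2 ⟨Y, mem_filter.2 ⟨h4, h5⟩, rfl⟩,
      fun h6 => h2 (mem_sdiff.1 h6).1, fun h6 => h3 ?_⟩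
    obtain ⟨X, hX, e⟩ := mem_image.1 h6
    obtain ⟨h7, h8⟩ := mem_filter.1 hX
    have e2 : X = insert k Y := by
      rw [← sdiff_union_inter X S, e, h8, insert_union, ← h5, sdiff_union_inter]
    exact e2 ▸ h7

end Pool.Agent.P.MP_4f3dfd_co.Ex
end

-- part Pool.Agent.P.MP_4f3dfd_co.ENum2
section

set_option autoImplicit false
set_option linter.unusedSectionVars false
set_option linter.unusedVariables false

namespace Pool.Agent.P.MP_4f3dfd_co.Ex

open Finset Real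

variable {V : Type*} [DecidableEq V]

theorem enum2_log (K : ℝ) :
    ∃ N : ℕ, ∀ n : ℕ, N ≤ n → 1 ≤ log n ∧ K ≤ log n ∧ K * log n ^ 3 ≤ n := by
  have h1 := tendsto_log_atTop.comp tendsto_natCast_atTop_atTop
  have h2 := tendsto_natCast_atTop_atTop.eventually
    (((isLittleO_pow_log_id_atTop (n := 3)).const_mul_left K).bound one_pos)
  refine Filter.eventually_atTop.1 ?_
  filter_upwards [h1.eventually_ge_atTop 1, h1.eventually_ge_atTop K, h2] with n a1 a2 a3
  refine ⟨a1, a2, (le_abs_self _).trans ?_⟩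
  rw [one_mul, id, norm_eq_abs, norm_eq_abs, Nat.abs_cast] at a3
  exact a3

theorem enum2_pos {n : ℕ} (h : 1 ≤ log n) : 1 ≤ n := by
  rcases Nat.eq_zero_or_pos n with rfl | hn
  · rw [Nat.cast_zero, log_zero] at h
    linarith
  · exact hn

/-- Small width gives polynomially large density. -/
theorem dens_ge (a K : ℝ) (ha : 0 < a) (hK : 0 < K) : ∃ P : ℝ, 0 < P ∧ ∃ N : ℕ,
    ∀ n k z M : ℕ, N ≤ n → (k : ℝ) ≤ (1 - a) * n → z ≤ n → (n : ℝ) - z ≤ K * log n →
      n * (z - 1).choose k ≤ M → (n : ℝ) ^ (-P) * n.choose k ≤ M := by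
  obtain ⟨N, hN⟩ := enum2_log (2 * (K + 1) / a)
  have hl : 0 ≤ |log (a / 2)| := abs_nonneg _
  refine ⟨(K + 1) * |log (a / 2)| + 1, by positivity, N, fun n k z M hn hk hz hw hM => ?_⟩
  obtain ⟨h1, -, h2⟩ := hN n hn
  have hn1 := enum2_pos h1
  have hn1' : (1 : ℝ) ≤ n := by exact_mod_cast hn1
  have hn0 : (0 : ℝ) < n := by linarith
  have h3 : 2 * (K + 1) * log n ≤ a * n := by
    have b1 : log n ≤ log n ^ 3 := le_self_pow₀ h1 (by norm_num)
    have b2 := (mul_le_mul_of_nonneg_left b1 (show 0 ≤ 2 * (K + 1) / a by positivity)).trans h2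
    rw [div_mul_eq_mul_div, div_le_iff₀ ha] at b2
    linarith
  have h4 : a * n / 2 + 1 ≤ (z : ℝ) - k := by linarith
  have h5 : k + 1 ≤ z := by
    have : (k : ℝ) + 1 ≤ z := by linarith [mul_pos ha hn0]
    exact_mod_cast this
  have h6 := mul_pow_le_choose (n := n) (k := k) (z := z - 1) (w := n - z + 1) hn1 (by omega)
    (by omega)
  rw [show z - 1 + (n - z + 1) = n by omega, Nat.cast_sub (by omega), Nat.cast_one,
    sub_add_cancel] at h6
  have h7 : (a / 2) ^ (n - z + 1) ≤ (((z : ℝ) - k) / n) ^ (n - z + 1) :=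
    pow_le_pow_left₀ (by positivity) (by rw [le_div_iff₀ hn0]; linarith) _
  have h8 : (n : ℝ) ^ (-((K + 1) * |log (a / 2)| + 1)) ≤ (a / 2) ^ (n - z + 1) := by
    rw [rpow_def_of_pos hn0, ← exp_log (show 0 < (a / 2) ^ (n - z + 1) by positivity), log_pow]
    refine exp_le_exp.2 ?_
    have b1 : ((n - z + 1 : ℕ) : ℝ) ≤ (K + 1) * log n := by
      rw [Nat.cast_add, Nat.cast_sub hz, Nat.cast_one]
      linarith
    have b2 := mul_le_mul_of_nonneg_right b1 hl
    have b3 := mul_le_mul_of_nonneg_left (neg_abs_le (log (a / 2)))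
      (Nat.cast_nonneg (α := ℝ) (n - z + 1))
    linarith
  have h9 : (n : ℝ) * (z - 1).choose k ≤ M := by exact_mod_cast hM
  have h10 := mul_le_mul_of_nonneg_right (h8.trans h7) (Nat.cast_nonneg (α := ℝ) (n.choose k))
  have h11 := mul_le_mul_of_nonneg_right hn1' (Nat.cast_nonneg (α := ℝ) ((z - 1).choose k))
  linarith

theorem ev_log (K : ℝ) : ∃ N : ℕ, ∀ n : ℕ, N ≤ n → 1 ≤ log n ∧ K ≤ log n ∧ K * log n ^ 3 ≤ n := by
  exact enum2_log K

theorem ev_zeta (η K P ε : ℝ) (hη : 0 < η) (hK : 0 < K) (hε : 0 < ε) : ∃ N : ℕ, ∀ n : ℕ, N ≤ n →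
    ∀ u : ℝ, (n : ℝ) ≤ K * log n * u → (n : ℝ) ^ 2 * zeta n η u ≤ ε * (n : ℝ) ^ (-P) := by
  obtain ⟨Q, hQ⟩ : ∃ Q, Q = |P| + 4 + |log (ε / 4)| := ⟨_, rfl⟩
  have hQ0 : 0 ≤ Q := by
    rw [hQ]
    positivity
  obtain ⟨N, hN⟩ := enum2_log (2 * Q * K / η ^ 2)
  refine ⟨N, fun n hn u hu => ?_⟩
  obtain ⟨h1, -, h2⟩ := hN n hn
  have hn1 : (1 : ℝ) ≤ n := by exact_mod_cast enum2_pos h1
  have hn0 : (0 : ℝ) < n := by linarith
  have h3 : Q * log n ≤ η ^ 2 * u / 2 := by
    have b1 := h2.trans hu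
    rw [div_mul_eq_mul_div, div_le_iff₀ (by positivity)] at b1
    have b2 : 2 * Q * log n ^ 2 ≤ η ^ 2 * u :=
      le_of_mul_le_mul_left (by linarith) (show 0 < K * log n by positivity)
    have b3 := mul_le_mul_of_nonneg_left (le_self_pow₀ h1 two_ne_zero) hQ0
    linarith
  have h4 : √n ≤ n := by
    rw [sqrt_le_iff]
    exact ⟨hn0.le, le_self_pow₀ hn1 two_ne_zero⟩
  have h5 : (n : ℝ) ^ 2 * (2 * √n * (n + 1)) ≤ 4 * n ^ 4 := by
    have b1 : √n * ((n : ℝ) + 1) ≤ n * (2 * n) :=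
      mul_le_mul h4 (by linarith) (by positivity) hn0.le
    have b2 := mul_le_mul_of_nonneg_left b1 (show (0 : ℝ) ≤ 2 * n ^ 2 by positivity)
    linarith
  have h6 : (n : ℝ) ^ 4 * exp (-(η ^ 2 * u / 2)) ≤ ε / 4 * (n : ℝ) ^ (-P) := by
    rw [rpow_def_of_pos hn0, ← exp_log (show (0 : ℝ) < n ^ 4 by positivity), log_pow,
      ← exp_log (show 0 < ε / 4 by positivity), ← exp_add, ← exp_add]
    refine exp_le_exp.2 ?_
    have b1 := mul_le_mul_of_nonneg_right (le_abs_self P) (zero_le_one.trans h1)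
    have b2 := mul_le_mul_of_nonneg_left h1 (abs_nonneg (log (ε / 4)))
    have b3 := neg_abs_le (log (ε / 4))
    rw [hQ] at h3
    push_cast
    linarith
  have h7 := mul_le_mul_of_nonneg_right h5 (exp_pos (-(η ^ 2 * u / 2))).le
  unfold zeta
  linarith

theorem zeta_nonneg (n : ℕ) (η N : ℝ) : 0 ≤ zeta n η N := by
  unfold zeta
  positivity

theorem zeta_mono {n n' : ℕ} (hn : n ≤ n') (η : ℝ) {N N' : ℝ} (hN : N' ≤ N) :
    zeta n η N ≤ zeta n' η N' := by
  unfold zeta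
  have h1 : (n : ℝ) ≤ n' := by exact_mod_cast hn
  have h2 := mul_le_mul_of_nonneg_left hN (sq_nonneg η)
  refine mul_le_mul (mul_le_mul (mul_le_mul_of_nonneg_left (sqrt_le_sqrt h1) zero_le_two)
    (by linarith) (by positivity) (by positivity)) (exp_le_exp.2 (by linarith)) (exp_pos _).le
    (by positivity)

end Pool.Agent.P.MP_4f3dfd_co.Ex
end

-- part Pool.Agent.P.MP_4f3dfd_co.EU2
section

set_option autoImplicit false
set_option linter.unusedSectionVars false
set_option linter.unusedVariables false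

namespace Pool.Agent.P.MP_4f3dfd_co.Ex

open Finset Real
open scoped Pointwise

variable {V : Type*} [DecidableEq V]

theorem pair_cl {n : ℕ} [NeZero n] {c : ℕ} (hc : 1 ≤ c) (C : Finset (Finset (Fin n))) :
    Pair univ c (Asy.cl c C) (Asy.cl (c - 1) C) := by
  refine ⟨hc, ?_, ?_, ?_⟩
  · intro X hX
    exact mem_powersetCard.2 ⟨subset_univ _, (Asy.mem_cl.1 hX).1⟩
  · intro X hX
    exact mem_powersetCard.2 ⟨subset_univ _, (Asy.mem_cl.1 hX).1⟩
  · intro X hX i hi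
    obtain ⟨h1, B, hB, s, hs⟩ := Asy.mem_cl.1 hX
    exact Asy.mem_cl.2 ⟨by rw [card_erase_of_mem hi, h1], B, hB, s, (erase_subset _ _).trans hs⟩

theorem reg_cl {n : ℕ} [NeZero n] (c : ℕ) (C : Finset (Finset (Fin n))) :
    ∃ d : ℕ, ∀ i, deg (Asy.cl c C) i = d := by
  exact ⟨deg (Asy.cl c C) 0, fun i => le_antisymm (Asy.deg_cl c C i 0) (Asy.deg_cl c C 0 i)⟩

theorem cl_mono {n : ℕ} [NeZero n] (c : ℕ) {C C' : Finset (Finset (Fin n))} (h : C ⊆ C') :
    Asy.cl c C ⊆ Asy.cl c C' := by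
  intro X hX
  obtain ⟨h1, B, hB, s, hs⟩ := Asy.mem_cl.1 hX
  exact Asy.mem_cl.2 ⟨h1, B, h hB, s, hs⟩

theorem card_cl_single {n : ℕ} [NeZero n] (c : ℕ) (B : Finset (Fin n)) :
    #(Asy.cl c {B}) ≤ n * (#B).choose c := by
  have h1 : Asy.cl c {B} ⊆ (univ : Finset (Fin n)).biUnion fun s => powersetCard c (s +ᵥ B) := by
    intro X hX
    obtain ⟨h1, A, hA, s, hs⟩ := Asy.mem_cl.1 hX
    rw [mem_singleton] at hA
    subst hA
    exact mem_biUnion.2 ⟨s, mem_univ _, mem_powersetCard.2 ⟨hs, h1⟩⟩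
  refine (card_le_card h1).trans (card_biUnion_le.trans (le_of_eq ?_))
  rw [sum_congr rfl (fun s _ => by rw [card_powersetCard, card_vadd_finset]), sum_const,
    card_univ, Fintype.card_fin, smul_eq_mul]

theorem exc_cl {n : ℕ} [NeZero n] {c y1 y2 : ℕ} (hc : 1 ≤ c) (C1 C2 : Finset (Finset (Fin n)))
    (B0 : Finset (Fin n)) (h1 : ∀ B ∈ C1, #B = y1) (h0 : #B0 = y1)
    (h2 : ∀ B ∈ C2, #B = y2 ∧ B ⊆ B0) :
    exc univ (Asy.cl c (C1 ∪ C2)) (Asy.cl (c - 1) (C1 ∪ C2)) ≤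
      (n - y1) * #(Asy.cl (c - 1) C1) + (n - y2) * (n * y1.choose (c - 1)) := by
  classical
  have key : ∀ (Y B : Finset (Fin n)) (s : Fin n), #Y = c - 1 → B ∈ C1 ∪ C2 → Y ⊆ s +ᵥ B →
      #{k ∈ (univ : Finset (Fin n)) | k ∉ Y ∧ insert k Y ∉ Asy.cl c (C1 ∪ C2)} ≤ n - #B := by
    intro Y B s hY hB hs
    have e : #((univ : Finset (Fin n)) \ (s +ᵥ B)) = n - #B := by
      rw [card_sdiff_of_subset (subset_univ _), card_univ, Fintype.card_fin, card_vadd_finset]
    rw [← e]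
    apply card_le_card
    intro k hk
    rw [mem_filter] at hk
    refine mem_sdiff.2 ⟨mem_univ _, fun hin => hk.2.2 ?_⟩
    exact Asy.mem_cl.2 ⟨by rw [card_insert_of_notMem hk.2.1]; omega, B, hB, s,
      insert_subset hin hs⟩
  have swap : exc univ (Asy.cl c (C1 ∪ C2)) (Asy.cl (c - 1) (C1 ∪ C2)) =
      ∑ Y ∈ Asy.cl (c - 1) (C1 ∪ C2),
        #{k ∈ (univ : Finset (Fin n)) | k ∉ Y ∧ insert k Y ∉ Asy.cl c (C1 ∪ C2)} := by
    unfold exc blk
    simp only [card_filter]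
    exact sum_comm
  rw [swap, ← sum_filter_add_sum_filter_not _ (fun Y => Y ∈ Asy.cl (c - 1) C1)]
  apply Nat.add_le_add
  · refine (sum_le_card_nsmul _ _ (n - y1) ?_).trans ?_
    · intro Y hY
      obtain ⟨hc1, B, hB, s, hs⟩ := Asy.mem_cl.1 (mem_filter.1 hY).2
      have := key Y B s hc1 (mem_union_left _ hB) hs
      rwa [h1 B hB] at this
    · rw [smul_eq_mul, mul_comm]
      exact Nat.mul_le_mul_left _ (card_le_card fun Y hY => (mem_filter.1 hY).2)
  · have aux : ∀ Y ∈ {Y ∈ Asy.cl (c - 1) (C1 ∪ C2) | ¬ Y ∈ Asy.cl (c - 1) C1},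
        #Y = c - 1 ∧ ∃ B ∈ C2, ∃ s : Fin n, Y ⊆ s +ᵥ B := by
      intro Y hY
      obtain ⟨hY1, hY2⟩ := mem_filter.1 hY
      obtain ⟨hc1, B, hB, s, hs⟩ := Asy.mem_cl.1 hY1
      rcases mem_union.1 hB with hB | hB
      · exact absurd (Asy.mem_cl.2 ⟨hc1, B, hB, s, hs⟩) hY2
      · exact ⟨hc1, B, hB, s, hs⟩
    refine (sum_le_card_nsmul _ _ (n - y2) ?_).trans ?_
    · intro Y hY
      obtain ⟨hc1, B, hB, s, hs⟩ := aux Y hY
      have := key Y B s hc1 (mem_union_right _ hB) hs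
      rwa [(h2 B hB).1] at this
    · rw [smul_eq_mul, mul_comm]
      apply Nat.mul_le_mul_left
      have := card_cl_single (c - 1) B0
      rw [h0] at this
      refine le_trans (card_le_card fun Y hY => ?_) this
      obtain ⟨hc1, B, hB, s, hs⟩ := aux Y hY
      exact Asy.mem_cl.2 ⟨hc1, B0, mem_singleton_self _, s,
        hs.trans (vadd_finset_subset_vadd_finset (h2 B hB).2)⟩

theorem card_cl_pred {n : ℕ} [NeZero n] {c y : ℕ} (hc : 1 ≤ c) (C : Finset (Finset (Fin n)))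
    (h : ∀ B ∈ C, #B = y) : #(Asy.cl (c - 1) C) * (y + 1 - c) ≤ c * #(Asy.cl c C) := by
  rw [mul_comm c]
  apply card_mul_le_card_mul (fun Y X => Y ⊆ X)
  · intro Y hY
    obtain ⟨hYc, B, hB, s, hYP⟩ := Asy.mem_cl.1 hY
    have h1 : #((s +ᵥ B) \ Y) = y + 1 - c := by
      have := card_le_card hYP
      rw [card_vadd_finset, h B hB] at this
      rw [card_sdiff_of_subset hYP, card_vadd_finset, h B hB]; omega
    rw [← h1]
    apply card_le_card_of_injOn (insert · Y)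
    · intro a ha
      rw [mem_coe, mem_sdiff] at ha
      rw [mem_coe, mem_bipartiteAbove, Asy.mem_cl]
      refine ⟨⟨by rw [card_insert_of_notMem ha.2]; omega, B, hB, s, insert_subset ha.1 hYP⟩,
        subset_insert _ _⟩
    · intro a ha b _ h
      rw [mem_coe, mem_sdiff] at ha
      have : a ∈ insert b Y := by
        have h' : insert a Y = insert b Y := h
        rw [← h']; exact mem_insert_self _ _
      rcases mem_insert.1 this with h | h
      · exact h
      · exact absurd h ha.2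
  · intro X hX
    have hXc := (Asy.mem_cl.1 hX).1
    have e : #(powersetCard (c - 1) X) = c := by
      rw [card_powersetCard, hXc]
      obtain ⟨d, rfl⟩ : ∃ d, c = d + 1 := ⟨c - 1, by omega⟩
      simp
    refine le_trans (card_le_card ?_) e.le
    intro Y hY
    rw [mem_bipartiteBelow] at hY
    exact mem_powersetCard.2 ⟨hY.2, (Asy.mem_cl.1 hY.1).1⟩

end Pool.Agent.P.MP_4f3dfd_co.Ex
end

-- part Pool.Agent.P.MP_4f3dfd_co.FA1
section

set_option autoImplicit false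
set_option linter.unusedSectionVars false
set_option linter.unusedVariables false

namespace Pool.Agent.P.MP_4f3dfd_co.Ex

open Finset Real

variable {V : Type*} [DecidableEq V]

theorem fa1_half {q u : ℝ} (hq0 : 0 ≤ q) (h0 : 0 < u) :
    (√q - √u) ^ 2 ≤ q * log (q / u) - q + u := by
  have hz : 0 < √u := sqrt_pos.2 h0
  have hw : 0 ≤ √q / √u := div_nonneg (sqrt_nonneg _) hz.le
  have hw2 : (√q / √u) ^ 2 = q / u := by rw [div_pow, sq_sqrt hq0, sq_sqrt h0.le]
  have h2 := mul_le_mul_of_nonneg_left (ea2_ent hw) h0.le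
  rw [hw2] at h2
  have h3 : u * (√q / √u - 1) ^ 2 = (√q - √u) ^ 2 := by
    have e : √q - √u = √u * (√q / √u - 1) := by field_simp
    rw [e, mul_pow, sq_sqrt h0.le]
  have h4 : u * (q / u * log (q / u) - q / u + 1) = q * log (q / u) - q + u := by
    field_simp
  linarith

theorem hell_le_kl {q u : ℝ} (hq0 : 0 ≤ q) (hq1 : q ≤ 1) (h0 : 0 < u) (h1 : u < 1) :
    (√q - √u) ^ 2 + (√(1 - q) - √(1 - u)) ^ 2 ≤ kl q u := by
  have a1 := fa1_half hq0 h0
  have a2 := fa1_half (q := 1 - q) (u := 1 - u) (by linarith) (by linarith)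
  unfold kl
  linarith

theorem fa1_rel {q u η : ℝ} (hq0 : 0 ≤ q) (h0 : 0 < u) (hη0 : 0 ≤ η) (hη : η ≤ 1)
    (h : η * u ≤ |q - u|) : η ^ 2 * u / 6 ≤ (√q - √u) ^ 2 := by
  obtain ⟨y, hy, rfl⟩ : ∃ y : ℝ, 0 ≤ y ∧ q = y ^ 2 := ⟨√q, sqrt_nonneg _, (sq_sqrt hq0).symm⟩
  obtain ⟨z, hz, rfl⟩ : ∃ z : ℝ, 0 < z ∧ u = z ^ 2 := ⟨√u, sqrt_pos.2 h0, (sq_sqrt h0.le).symm⟩
  rw [sqrt_sq hy, sqrt_sq hz.le]
  have hη2 : η ^ 2 ≤ 1 := by nlinarith
  rcases le_total y (1449 / 1000 * z) with hc | hc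
  · have h1 : (η * z ^ 2) ^ 2 ≤ (y ^ 2 - z ^ 2) ^ 2 := by
      rw [← sq_abs (y ^ 2 - z ^ 2)]
      exact pow_le_pow_left₀ (by positivity) h 2
    have h2 : (y + z) ^ 2 ≤ 6 * z ^ 2 := by nlinarith
    have h3 : (y ^ 2 - z ^ 2) ^ 2 = (y - z) ^ 2 * (y + z) ^ 2 := by ring
    have h4 := mul_le_mul_of_nonneg_left h2 (sq_nonneg (y - z))
    have h5 : (η ^ 2 * z ^ 2 / 6) * (6 * z ^ 2) ≤ (y - z) ^ 2 * (6 * z ^ 2) := by
      have e : (η ^ 2 * z ^ 2 / 6) * (6 * z ^ 2) = (η * z ^ 2) ^ 2 := by ring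
      linarith
    exact le_of_mul_le_mul_right h5 (by positivity)
  · have h1 : (449 / 1000 * z) ^ 2 ≤ (y - z) ^ 2 :=
      pow_le_pow_left₀ (by positivity) (by linarith) 2
    have h2 := mul_le_mul_of_nonneg_right hη2 (sq_nonneg z)
    nlinarith [sq_nonneg z]

theorem kl_ge_rel {q u : ℝ} (hq0 : 0 ≤ q) (hq1 : q ≤ 1) (h0 : 0 < u) (h1 : u < 1) {η : ℝ}
    (hη0 : 0 ≤ η) (hη : η ≤ 1) (h : η * min u (1 - u) ≤ |q - u|) :
    η ^ 2 * min u (1 - u) / 6 ≤ kl q u := by
  have hh := hell_le_kl hq0 hq1 h0 h1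
  rcases le_total u (1 - u) with hc | hc
  · rw [min_eq_left hc] at h ⊢
    have := fa1_rel hq0 h0 hη0 hη h
    linarith [sq_nonneg (√(1 - q) - √(1 - u))]
  · rw [min_eq_right hc] at h ⊢
    have e : |q - u| = |1 - q - (1 - u)| := by
      rw [← abs_neg]; congr 1; ring
    rw [e] at h
    have := fa1_rel (q := 1 - q) (u := 1 - u) (by linarith) (by linarith) hη0 hη h
    linarith [sq_nonneg (√q - √u)]

theorem fa1_var {a b c d : ℝ} (ha : a ^ 2 ≤ 1) (hd : d ^ 2 ≤ 1) :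
    c ^ 2 * d ^ 2 ≤ 2 * (a ^ 2 * b ^ 2) + 4 * ((a - c) ^ 2 + (b - d) ^ 2) := by
  have h1 : (c * d - a * b) ^ 2 ≤ ((a - c) ^ 2 + (b - d) ^ 2) * (d ^ 2 + a ^ 2) := by
    nlinarith [sq_nonneg ((a - c) * a - (b - d) * d)]
  have h2 : ((a - c) ^ 2 + (b - d) ^ 2) * (d ^ 2 + a ^ 2) ≤ ((a - c) ^ 2 + (b - d) ^ 2) * 2 :=
    mul_le_mul_of_nonneg_left (by linarith) (by positivity)
  nlinarith [sq_nonneg (c * d - 2 * (a * b))]

theorem var_ge {q u : ℝ} (hq0 : 0 ≤ q) (hq1 : q ≤ 1) (h0 : 0 < u) (h1 : u < 1) :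
    u * (1 - u) / 2 - 3 * kl q u ≤ q * (1 - q) := by
  have hh := hell_le_kl hq0 hq1 h0 h1
  have ea := sq_sqrt hq0
  have eb := sq_sqrt (show 0 ≤ 1 - q by linarith)
  have ec := sq_sqrt h0.le
  have ed := sq_sqrt (show 0 ≤ 1 - u by linarith)
  have hv := fa1_var (a := √q) (b := √(1 - q)) (c := √u) (d := √(1 - u)) (by linarith)
    (by linarith)
  rw [ea, eb, ec, ed] at hv
  linarith [sq_nonneg (√q - √u), sq_nonneg (√(1 - q) - √(1 - u))]

end Pool.Agent.P.MP_4f3dfd_co.Ex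
end

-- part Pool.Agent.P.MP_4f3dfd_co.FA2
section

set_option autoImplicit false
set_option linter.unusedSectionVars false
set_option linter.unusedVariables false

namespace Pool.Agent.P.MP_4f3dfd_co.Ex

open Finset Real

variable {V : Type*} [DecidableEq V]

theorem fa2_sq {a r : ℝ} (ha : 0 < a) (ha1 : a ≤ 1) (h : 0 < r) (hr : r ≤ 1 / a) :
    r * log r ^ 2 ≤ bt a * (r * log r - r + 1) := by
  have hb := bt_ge ha ha1
  rcases le_total (log r) 2 with h2 | h2
  · have h3 : r ≤ 15 / 2 := by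
      have h4 : r ≤ exp (1 + 1) := by
        rw [← exp_log h]; exact exp_le_exp.2 (by linarith)
      rw [exp_add] at h4
      nlinarith [exp_one_lt_d9, exp_pos 1]
    obtain ⟨w, hw, hw2⟩ : ∃ w : ℝ, 0 ≤ w ∧ w ^ 2 = r := ⟨√r, sqrt_nonneg _, sq_sqrt h.le⟩
    have h4 := ea2_sq hw (b := 15 / 2) (by norm_num) (hw2.trans_le h3)
    have h5 := ea2_ent hw
    have h6 : r * log r ^ 2 = 4 * (w * log w) ^ 2 := by
      rw [← hw2, Real.log_pow]; push_cast; ring
    rw [hw2] at h5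
    have h7 := mul_le_mul_of_nonneg_right hb ((sq_nonneg _).trans h5)
    linarith
  · have h3 : 2 * log r ≤ bt a := by
      have := log_le_log h hr
      have := log_le_bt a
      linarith
    have h4 := mul_le_mul_of_nonneg_left h2 h.le
    have h5 : 0 ≤ r * log r := by linarith
    have h6 := mul_le_mul_of_nonneg_right h3 h5
    have h7 : bt a * (r * log r / 2) ≤ bt a * (r * log r - r + 1) :=
      mul_le_mul_of_nonneg_left (by linarith) (by linarith)
    nlinarith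

theorem fa2_one {a r θ : ℝ} (ha : 0 < a) (ha1 : a ≤ 1) (hr0 : 0 ≤ r) (hr : r ≤ 1 / a)
    (hθ0 : 0 < θ) (hθ : θ * bt a ≤ 1) :
    r ^ (1 + θ) ≤ r + θ * (r * log r) + θ ^ 2 * bt a * (r * log r - r + 1) := by
  have hb := bt_ge ha ha1
  rcases hr0.eq_or_lt with h | h
  · subst h
    rw [Real.zero_rpow (by linarith)]
    have : 0 ≤ θ ^ 2 * bt a := mul_nonneg (sq_nonneg _) (by linarith)
    simpa using this
  · have hy : θ * log r ≤ 1 := by
      have h1 := log_le_log h hr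
      have h2 := log_le_bt a
      have h3 : θ * log r ≤ θ * bt a := mul_le_mul_of_nonneg_left (by linarith) hθ0.le
      linarith
    have h1 : r ^ (1 + θ) = r * exp (θ * log r) := by
      rw [Real.rpow_add h, Real.rpow_one, Real.rpow_def_of_pos h, mul_comm (log r)]
    have h2 := mul_le_mul_of_nonneg_left (ea2_exp hy) hr0
    have h8 := mul_le_mul_of_nonneg_left (fa2_sq ha ha1 h hr) (sq_nonneg θ)
    rw [h1]
    nlinarith

theorem renyiU {a u q θ : ℝ} (ha : 0 < a) (h1 : a ≤ u) (h2 : u ≤ 1 - a) (hq0 : 0 ≤ q)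
    (hq1 : q ≤ 1) (hθ0 : 0 < θ) (hθ : θ * bt a ≤ 1) :
    u * (q / u) ^ (1 + θ) + (1 - u) * ((1 - q) / (1 - u)) ^ (1 + θ) ≤
      1 + θ * (1 + θ * bt a) * kl q u := by
  have hu0 : 0 < u := by linarith
  have hu1 : 0 < 1 - u := by linarith
  have ha1 : a ≤ 1 := by linarith
  have b1 : q / u ≤ 1 / a := div_le_div₀ zero_le_one hq1 ha h1
  have b2 : (1 - q) / (1 - u) ≤ 1 / a := div_le_div₀ zero_le_one (by linarith) ha (by linarith)
  have a1 := mul_le_mul_of_nonneg_left (fa2_one ha ha1 (div_nonneg hq0 hu0.le) b1 hθ0 hθ) hu0.le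
  have a2 := mul_le_mul_of_nonneg_left
    (fa2_one ha ha1 (div_nonneg (by linarith : 0 ≤ 1 - q) hu1.le) b2 hθ0 hθ) hu1.le
  refine (add_le_add a1 a2).trans (le_of_eq ?_)
  unfold kl
  generalize log (q / u) = L1
  generalize log ((1 - q) / (1 - u)) = L2
  field_simp
  ring

end Pool.Agent.P.MP_4f3dfd_co.Ex
end

-- part Pool.Agent.P.MP_4f3dfd_co.FC0
section

set_option autoImplicit false
set_option linter.unusedSectionVars false
set_option linter.unusedVariables false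

namespace Pool.Agent.P.MP_4f3dfd_co.Ex

open Finset Real

variable {V : Type*} [DecidableEq V]

theorem pair_degU {G : Finset V} {c : ℕ} {J D : Finset (Finset V)} (h : Pair G c J D) :
    ∃ R : V → ℝ, (∀ i ∈ G, 0 ≤ R i ∧ R i ≤ exc G J D ∧
      (#G : ℝ) * deg J i - c * #J = R i - ((#G : ℝ) - c + 1) * #(blk J D i)) ∧
      ∑ i ∈ G, R i = ((#G : ℝ) - c + 1) * exc G J D := by
  refine ⟨fun i => (#G : ℝ) * deg J i - c * #J + ((#G : ℝ) - c + 1) * #(blk J D i),
    fun i hi => ?_, ?_⟩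
  · obtain ⟨R, h1, h2, h3⟩ := pair_deg h hi
    refine ⟨by linarith, by linarith, by ring⟩
  · have e := ef1_sum h.hJ
    rw [sum_add_distrib, sum_sub_distrib, sum_const, nsmul_eq_mul, ← mul_sum, ← mul_sum]
    unfold deg exc
    push_cast
    rw [e]
    ring

end Pool.Agent.P.MP_4f3dfd_co.Ex
end

-- part Pool.Agent.P.MP_4f3dfd_co.FD1
section

set_option autoImplicit false
set_option linter.unusedSectionVars false
set_option linter.unusedVariables false

namespace Pool.Agent.P.MP_4f3dfd_co.Ex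

open Finset Real

variable {V : Type*} [DecidableEq V]

theorem fd1_wp {t b : ℕ} (hb : b ≤ t) {T θ : ℝ} (hT : 0 < T) (hθ : 0 < θ)
    (h : T * t < b) : (b : ℝ) ≤ T ^ (-θ) * wp t b (1 + θ) := by
  have ht0 : (0 : ℝ) ≤ t := Nat.cast_nonneg _
  have hb0 : (0 : ℝ) < b := lt_of_le_of_lt (mul_nonneg hT.le ht0) h
  have ht : (0 : ℝ) < t := lt_of_lt_of_le hb0 (by exact_mod_cast hb)
  have hq : 0 < (b : ℝ) / t := div_pos hb0 ht
  have h1 : T ≤ (b : ℝ) / t := by rw [le_div_iff₀ ht]; exact h.le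
  have h2 : T ^ θ ≤ ((b : ℝ) / t) ^ θ := Real.rpow_le_rpow hT.le h1 hθ.le
  have h3 : wp t b (1 + θ) = b * ((b : ℝ) / t) ^ θ := by
    unfold wp
    rw [Real.rpow_add hq, Real.rpow_one]
    field_simp
  have h4 : 0 < T ^ θ := Real.rpow_pos_of_pos hT θ
  rw [h3, Real.rpow_neg hT.le, ← div_eq_inv_mul, le_div_iff₀ h4]
  exact mul_le_mul_of_nonneg_left h2 hb0.le

theorem markovU {G : Finset V} {c : ℕ} {J D : Finset (Finset V)} (h : Pair G c J D) {r : ℕ}
    (hr : r < #G) {η β T θ Z : ℝ} (hβ : 0 ≤ β) (hT : 0 < T) (hθ : 0 < θ)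
    (hZ : Av G r (atyp G c η) ≤ Z)
    (hfib : ∀ S ⊆ G, #S = r → ∀ x ⊆ S, #x ≤ c →
      |((c - #x : ℕ) : ℝ) - c / #G * #(G \ S)| ≤ η * #(G \ S) →
      (cnt J S x : ℝ) ≤ T * tot G c S x →
      β * cnt J S x ≤ ∑ k ∈ G \ S, (cnt (blk J D k) S x : ℝ)) :
    β * (#J - T ^ (-θ) * Av G r (pw J G c (1 + θ)) - Z) ≤
      ((#G : ℝ) - r) / #G * exc G J D := by
  have hTθ : 0 ≤ T ^ (-θ) := Real.rpow_nonneg hT.le _
  have key : Av G r (fun S x => β * (cnt J S x : ℝ)) ≤
      Av G r (fun S x => (∑ k ∈ G \ S, (cnt (blk J D k) S x : ℝ) +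
        (β * T ^ (-θ)) * pw J G c (1 + θ) S x) + β * atyp G c η S x) := by
    refine Av_mono G r fun S hS hSr x hx => ?_
    have e1 : 0 ≤ ∑ k ∈ G \ S, (cnt (blk J D k) S x : ℝ) :=
      sum_nonneg fun k _ => Nat.cast_nonneg _
    have e2 : 0 ≤ (β * T ^ (-θ)) * pw J G c (1 + θ) S x :=
      mul_nonneg (mul_nonneg hβ hTθ) (wp_nonneg _ _ _)
    have e3 : 0 ≤ β * atyp G c η S x := mul_nonneg hβ (atyp_nonneg _ _ _ _ _)
    rcases typ_or h.hJ hS x η with h1 | ⟨h1, h2⟩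
    · have := mul_le_mul_of_nonneg_left h1 hβ
      linarith
    · rcases le_or_gt (cnt J S x : ℝ) (T * tot G c S x) with h3 | h3
      · have := hfib S hS hSr x hx h1 h2 h3
        linarith
      · have h4 := mul_le_mul_of_nonneg_left (fd1_wp (cnt_le_tot h.hJ hS x) hT hθ h3) hβ
        have h5 : β * (T ^ (-θ) * wp (tot G c S x) (cnt J S x) (1 + θ)) =
            (β * T ^ (-θ)) * pw J G c (1 + θ) S x := by unfold pw; ring
        linarith
  have a1 : Av G r (fun S x => β * (cnt J S x : ℝ)) = β * #J := by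
    rw [Av_mul G r β (fun S x => (cnt J S x : ℝ)), Av_cnt G hr.le]
  have a2 : Av G r (fun S x => ∑ k ∈ G \ S, (cnt (blk J D k) S x : ℝ)) =
      ((#G : ℝ) - r) / #G * exc G J D := by
    rw [Av_erase G hr (fun k S x => (cnt (blk J D k) S x : ℝ))]
    congr 1
    unfold exc
    push_cast
    refine sum_congr rfl fun k hk => Av_cnt _ ?_ _
    rw [card_erase_of_mem hk]
    omega
  rw [a1, Av_add G r (fun S x => ∑ k ∈ G \ S, (cnt (blk J D k) S x : ℝ) +
      (β * T ^ (-θ)) * pw J G c (1 + θ) S x) (fun S x => β * atyp G c η S x),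
    Av_add G r (fun S x => ∑ k ∈ G \ S, (cnt (blk J D k) S x : ℝ))
      (fun S x => (β * T ^ (-θ)) * pw J G c (1 + θ) S x), a2,
    Av_mul G r (β * T ^ (-θ)) (pw J G c (1 + θ)), Av_mul G r β (atyp G c η)] at key
  have a3 := mul_le_mul_of_nonneg_left hZ hβ
  nlinarith

end Pool.Agent.P.MP_4f3dfd_co.Ex
end

-- part Pool.Agent.P.MP_4f3dfd_co.EF2
section

set_option autoImplicit false
set_option linter.unusedSectionVars false
set_option linter.unusedVariables false

namespace Pool.Agent.P.MP_4f3dfd_co.Ex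

open Finset Real

variable {V : Type*} [DecidableEq V]

theorem ef2_alg {C0 C1 J0 J1 B0 B1 D0 : ℝ} (hC0 : 0 < C0) (hC1 : 0 < C1)
    (h0 : J0 * (C0 - J0) ≤ B0 * C0) (h1 : J1 * (C1 - J1) ≤ B1 * C1) (hD : J0 * C1 ≤ D0 * C0)
    (hM : J1 * C0 ≤ J0 * C1) (hJ0 : J0 ≤ C0) (hJ1 : 0 ≤ J1) :
    (J0 + J1) * (C1 + C0 - (J0 + J1)) ≤ (B0 + B1 + (D0 - J1)) * (C1 + C0) := by
  obtain ⟨M0, rfl⟩ : ∃ M0, J0 = M0 * C0 := ⟨J0 / C0, by field_simp⟩
  obtain ⟨M1, rfl⟩ : ∃ M1, J1 = M1 * C1 := ⟨J1 / C1, by field_simp⟩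
  have a0 : M0 * (C0 - M0 * C0) ≤ B0 := le_of_mul_le_mul_right (by linarith) hC0
  have a1 : M1 * (C1 - M1 * C1) ≤ B1 := le_of_mul_le_mul_right (by linarith) hC1
  have a2 : M0 * C1 ≤ D0 := le_of_mul_le_mul_right (by linarith) hC0
  have a3 : M1 ≤ M0 := le_of_mul_le_mul_right (by linarith) (mul_pos hC0 hC1)
  have a4 : M0 ≤ 1 := le_of_mul_le_mul_right (by linarith) hC0
  have a5 : 0 ≤ M1 := le_of_mul_le_mul_right (by linarith) hC1
  have a6 : 0 ≤ C1 + C0 - C0 * (M0 - M1) := by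
    have := mul_le_mul_of_nonneg_left (show M0 - M1 ≤ 1 by linarith) hC0.le
    linarith
  have a7 := mul_nonneg (mul_nonneg hC1.le (sub_nonneg.2 a3)) a6
  have a8 := mul_le_mul_of_nonneg_right
    (show M0 * (C0 - M0 * C0) + M1 * (C1 - M1 * C1) + (M0 * C1 - M1 * C1) ≤
      B0 + B1 + (D0 - M1 * C1) by linarith) (add_pos hC1 hC0).le
  linarith

theorem ef2_le {G : Finset V} {c : ℕ} {J D : Finset (Finset V)} (h : Pair G c J D) :
    #J ≤ (#G).choose c := (card_le_card h.hJ).trans (card_powersetCard c G).le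

theorem ef2_big {G : Finset V} {c : ℕ} {J D : Finset (Finset V)} (h : Pair G c J D)
    (hc : #G ≤ c) : (#J : ℝ) * (((#G).choose c : ℝ) - #J) ≤ exc G J D * ((#G).choose c : ℝ) := by
  have h1 := ef2_le h
  have h2 : (#G).choose c ≤ 1 := by
    rcases hc.lt_or_eq with hc | hc
    · rw [Nat.choose_eq_zero_of_lt hc]
      exact zero_le_one
    · rw [hc, Nat.choose_self]
  have h3 : (0 : ℝ) ≤ exc G J D * ((#G).choose c : ℝ) := by positivity
  rcases (show #J = 0 ∨ #J = (#G).choose c by omega) with h4 | h4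
  · rw [h4, Nat.cast_zero, zero_mul]
    exact h3
  · rw [h4, sub_self, mul_zero]
    exact h3

theorem ef2_one {G : Finset V} {J D : Finset (Finset V)} (h : Pair G 1 J D) :
    (#J : ℝ) * (((#G).choose 1 : ℝ) - #J) ≤ exc G J D * ((#G).choose 1 : ℝ) := by
  rcases J.eq_empty_or_nonempty with rfl | ⟨X, hX⟩
  · rw [card_empty, Nat.cast_zero, zero_mul]
    positivity
  obtain ⟨i, hi⟩ : X.Nonempty := card_pos.1 (by rw [(mem_powersetCard.1 (h.hJ hX)).2]; omega)
  have h1 : (1 : ℝ) ≤ #D := by exact_mod_cast card_pos.2 ⟨_, h.sh X hX i hi⟩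
  have h2 := pair_card h
  have h3 : (#J : ℝ) ≤ #G := by
    have := ef2_le h
    rw [Nat.choose_one_right] at this
    exact_mod_cast this
  have h4 : (0 : ℝ) ≤ #G := Nat.cast_nonneg _
  rw [Nat.choose_one_right]
  push_cast at h2
  have h5 : (#G : ℝ) - #J ≤ exc G J D := by
    have := mul_le_mul_of_nonneg_left h1 h4
    linarith
  have h6 := mul_le_mul_of_nonneg_right h5 h4
  have h7 := mul_le_mul_of_nonneg_right h3 (sub_nonneg.2 h3)
  linarith

theorem ef2_sum {G : Finset V} {c : ℕ} {J : Finset (Finset V)} (hJ : J ⊆ powersetCard c G) :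
    ∑ i ∈ G, deg J i = c * #J := by
  simp only [deg, card_filter]
  rw [sum_comm, mul_comm, ← smul_eq_mul, ← sum_const]
  refine sum_congr rfl fun X hX => ?_
  obtain ⟨h1, h2⟩ := mem_powersetCard.1 (hJ hX)
  rw [← card_filter, filter_mem_eq_inter, inter_eq_right.2 h1, h2]

theorem ef2_split (E : Finset (Finset V)) (i : V) :
    #E = #(fib E {i} ∅) + #(fib E {i} {i}) := by
  have := cnt_split E (S := ∅) (x := ∅) subset_rfl (notMem_empty i)
  rw [cnt_empty, insert_empty_eq] at this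
  rw [card_fib, card_fib]
  omega

theorem ef2_deg (E : Finset (Finset V)) (i : V) : #(fib E {i} {i}) = deg E i := by
  rw [card_fib, cnt, deg]
  congr 1
  exact filter_congr fun X _ => by rw [inter_eq_right, singleton_subset_iff]

theorem ef2_ind (n : ℕ) : ∀ {G : Finset V} {c : ℕ} {J D : Finset (Finset V)}, #G = n →
    Pair G c J D → (#J : ℝ) * (((#G).choose c : ℝ) - #J) ≤ exc G J D * ((#G).choose c : ℝ) := by
  induction n with
  | zero => exact fun hn h => ef2_big h (by omega)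
  | succ n ih =>
    intro G c J D hn h
    by_cases hc : #G ≤ c
    · exact ef2_big h hc
    obtain ⟨k, rfl⟩ : ∃ k, c = k + 1 := ⟨c - 1, by have := h.pos; omega⟩
    rcases Nat.eq_zero_or_pos k with rfl | hk
    · exact ef2_one h
    obtain ⟨i, hi, hmin⟩ := exists_min_image G (deg J) (card_pos.1 (by omega))
    have hd : (n + 1) * deg J i ≤ (k + 1) * #J := by
      rw [← ef2_sum h.hJ, ← hn, ← smul_eq_mul]
      exact card_nsmul_le_sum _ _ _ hmin
    have hG : #(G \ {i}) = n := by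
      rw [card_sdiff_of_subset (singleton_subset_iff.2 hi), card_singleton, hn]
      rfl
    have p0 : Pair (G \ {i}) (k + 1) (fib J {i} ∅) (fib D {i} ∅) :=
      pair_fib h (empty_subset _) (by rw [card_empty]; omega)
    have p1 : Pair (G \ {i}) k (fib J {i} {i}) (fib D {i} {i}) :=
      pair_fib h subset_rfl (by rw [card_singleton]; omega)
    have i0 := ih hG p0
    have i1 := ih hG p1
    have l0 := ef2_le p0
    have c0 := pair_card p0
    have c1 := pair_card p1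
    have c2 := pair_card h
    rw [← ef2_deg, ef2_split J i] at hd
    rw [hG] at i0 i1 l0 c0 c1
    rw [hn, ef2_split J i, ef2_split D i] at c2
    rw [hn, ef2_split J i, Nat.choose_succ_succ']
    have hkn : k < n := by omega
    have e : (n.choose (k + 1) : ℝ) * (k + 1) = n.choose k * (n - k) := by
      have := congrArg (Nat.cast (R := ℝ)) (Nat.choose_succ_right_eq n k)
      rw [Nat.cast_mul, Nat.cast_mul, Nat.cast_sub hkn.le] at this
      exact_mod_cast this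
    have hC0 : (0 : ℝ) < n.choose (k + 1) := by exact_mod_cast Nat.choose_pos hkn
    have hC1 : (0 : ℝ) < n.choose k := by exact_mod_cast Nat.choose_pos hkn.le
    have hd' : ((n : ℝ) + 1) * #(fib J {i} {i}) ≤
        (k + 1) * (#(fib J {i} ∅) + #(fib J {i} {i})) := by exact_mod_cast hd
    have hk' : (0 : ℝ) < k + 1 := by positivity
    have hB0 : (0 : ℝ) ≤ exc (G \ {i}) (fib J {i} ∅) (fib D {i} ∅) := Nat.cast_nonneg _
    push_cast at c0 c1 c2 ⊢
    have eB : (exc G J D : ℝ) = exc (G \ {i}) (fib J {i} ∅) (fib D {i} ∅) +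
        exc (G \ {i}) (fib J {i} {i}) (fib D {i} {i}) +
        ((#(fib D {i} ∅) : ℝ) - #(fib J {i} {i})) := by linarith
    rw [eB]
    refine ef2_alg hC0 hC1 i0 i1 (le_of_mul_le_mul_right ?_ hk') (le_of_mul_le_mul_right ?_ hk')
      (by exact_mod_cast l0) (Nat.cast_nonneg _)
    · have a := mul_le_mul_of_nonneg_left (show ((k : ℝ) + 1) * #(fib J {i} ∅) ≤
        (n - k) * #(fib D {i} ∅) by linarith) hC1.le
      rw [mul_assoc (#(fib D {i} ∅) : ℝ), e]
      linarith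
    · have a := mul_le_mul_of_nonneg_left (show ((n : ℝ) - k) * #(fib J {i} {i}) ≤
        (k + 1) * #(fib J {i} ∅) by linarith) hC1.le
      rw [mul_assoc (#(fib J {i} {i}) : ℝ), e]
      linarith

/-- Spectral type lower bound for the excess. -/
theorem exc_ge_var {G : Finset V} {c : ℕ} {J D : Finset (Finset V)} (h : Pair G c J D) :
    (#J : ℝ) * (((#G).choose c : ℝ) - #J) ≤ exc G J D * ((#G).choose c : ℝ) :=
  ef2_ind _ rfl h

end Pool.Agent.P.MP_4f3dfd_co.Ex
end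

-- part Pool.Agent.P.MP_4f3dfd_co.ENum
section

end

-- part Pool.Agent.P.MP_4f3dfd_co.FA3
section

set_option autoImplicit false
set_option linter.unusedSectionVars false
set_option linter.unusedVariables false

namespace Pool.Agent.P.MP_4f3dfd_co.Ex

open Finset Real

variable {V : Type*} [DecidableEq V]

theorem binom_geU {N j : ℕ} (h0 : 0 < j) (h1 : j < N) :
    1 / (3 * √(N * ((j : ℝ) / N * (1 - (j : ℝ) / N)))) ≤
      (N.choose j : ℝ) * (((j : ℝ) / N) ^ j * (1 - (j : ℝ) / N) ^ (N - j)) := by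
  obtain ⟨k, rfl⟩ := Nat.exists_eq_add_of_le h1.le
  have hk : 0 < k := by omega
  have hN : 0 < j + k := by omega
  have hj' : (0 : ℝ) < j := by exact_mod_cast h0
  have hk' : (0 : ℝ) < k := by exact_mod_cast hk
  have he : 0 < exp 1 := exp_pos 1
  have e1 : 1 - (j : ℝ) / ((j + k : ℕ) : ℝ) = k / ((j + k : ℕ) : ℝ) := by
    push_cast
    field_simp
    ring
  rw [Nat.add_sub_cancel_left, e1, Nat.cast_add_choose, eb2_fact hN, eb2_fact h0, eb2_fact hk]
  have p1 := eb2_pos h0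
  have p2 := eb2_pos hk
  have l1 := eb2_le h0
  have l2 := eb2_le hk
  have l3 := Stirling.sqrt_pi_le_stirlingSeq hN.ne'
  set N : ℝ := ((j + k : ℕ) : ℝ) with hNdef
  have hNe : N = j + k := by rw [hNdef]; push_cast; rfl
  have hN' : 0 < N := by rw [hNe]; positivity
  set sN := Stirling.stirlingSeq (j + k)
  set sj := Stirling.stirlingSeq j
  set sk := Stirling.stirlingSeq k
  have q1 : 0 < √(2 * (j : ℝ)) := by positivity
  have q2 : 0 < √(2 * (k : ℝ)) := by positivity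
  have q3 : 0 < √((j : ℝ) * k) := by positivity
  have e2 : sN * (√(2 * N) * (N / exp 1) ^ (j + k)) /
      (sj * (√(2 * j) * ((j : ℝ) / exp 1) ^ j) * (sk * (√(2 * k) * ((k : ℝ) / exp 1) ^ k))) *
      (((j : ℝ) / N) ^ j * ((k : ℝ) / N) ^ k) =
      sN * √(2 * N) / (sj * sk * (√(2 * j) * √(2 * k))) := by
    simp only [div_pow, pow_add]
    field_simp
  rw [e2, div_le_div_iff₀ (by positivity) (by positivity), one_mul]
  have s2 : √2 * √2 = (2 : ℝ) := mul_self_sqrt (by norm_num)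
  have a1 : √(2 * (j : ℝ)) * √(2 * k) = 2 * √((j : ℝ) * k) := by
    rw [sqrt_mul (by norm_num), sqrt_mul (by norm_num), sqrt_mul hj'.le]
    linear_combination (√(j : ℝ) * √(k : ℝ)) * s2
  have a2 : sj * sk ≤ 3.7 := by
    have h3 : exp 1 < 2.72 := exp_one_lt_d9.trans (by norm_num)
    calc sj * sk ≤ exp 1 / √2 * (exp 1 / √2) := mul_le_mul l1 l2 p2.le (by positivity)
      _ = exp 1 * exp 1 / 2 := by rw [div_mul_div_comm, s2]
      _ ≤ 3.7 := by nlinarith
  have a3 : (1.77 : ℝ) ≤ sN := by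
    refine le_trans ?_ l3
    exact le_sqrt_of_sq_le (by nlinarith [pi_gt_d2])
  have a4 : √(2 * N) * √(N * ((j : ℝ) / N * (k / N))) = √2 * √((j : ℝ) * k) := by
    rw [← sqrt_mul (by positivity), ← sqrt_mul (by norm_num)]
    congr 1
    field_simp
  have a5 : (1.41 : ℝ) ≤ √2 := le_sqrt_of_sq_le (by norm_num)
  calc sj * sk * (√(2 * (j : ℝ)) * √(2 * k)) ≤ 3.7 * (2 * √((j : ℝ) * k)) := by
        rw [a1]
        exact mul_le_mul_of_nonneg_right a2 (by positivity)
    _ ≤ 3 * (1.77 * (1.41 * √((j : ℝ) * k))) := by linarith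
    _ ≤ 3 * (sN * (√2 * √((j : ℝ) * k))) := by gcongr
    _ = _ := by rw [← a4]; ring

theorem binom_le_expU {N j : ℕ} {α η : ℝ} (hj : j ≤ N) (h0 : 0 < α) (h1 : α < 1) (hη0 : 0 ≤ η)
    (hη : η ≤ 1) (h : η * min α (1 - α) * N ≤ |(j : ℝ) - α * N|) :
    (N.choose j : ℝ) * (α ^ j * (1 - α) ^ (N - j)) ≤ exp (-(η ^ 2 * min α (1 - α) * N / 6)) := by
  rcases Nat.eq_zero_or_pos N with rfl | hN
  · obtain rfl : j = 0 := by omega
    simp
  have hN' : (0 : ℝ) < N := by exact_mod_cast hN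
  have hjN : (j : ℝ) ≤ N := by exact_mod_cast hj
  have u0 : 0 ≤ (j : ℝ) / N := by positivity
  have u1 : (j : ℝ) / N ≤ 1 := (div_le_one hN').2 hjN
  have e1 := eb2_pow (x := (j : ℝ) / N) (m := j) h0 u0 (fun h => by
    rw [div_eq_zero_iff] at h
    rcases h with h | h
    · exact_mod_cast h
    · exact absurd h hN'.ne')
  have e2 := eb2_pow (x := 1 - (j : ℝ) / N) (α := 1 - α) (m := N - j) (by linarith) (by linarith)
    (fun h => by
      have h2 : (j : ℝ) / N = 1 := by linarith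
      rw [div_eq_one_iff_eq hN'.ne'] at h2
      have : j = N := by exact_mod_cast h2
      omega)
  have hb := binom_le_one hj u0 u1
  have h4 : η * min α (1 - α) ≤ |(j : ℝ) / N - α| := by
    have e4 : (j : ℝ) - α * N = ((j : ℝ) / N - α) * N := by field_simp
    rw [e4, abs_mul, abs_of_pos hN'] at h
    exact le_of_mul_le_mul_right h hN'
  have hk := mul_le_mul_of_nonneg_left (kl_ge_rel u0 u1 h0 h1 hη0 hη h4) hN'.le
  have e3 : (j : ℝ) * log ((j : ℝ) / N / α) +
      ((N - j : ℕ) : ℝ) * log ((1 - (j : ℝ) / N) / (1 - α)) = N * kl ((j : ℝ) / N) α := by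
    rw [Nat.cast_sub hj, kl]
    field_simp
  have h5 : exp (-((j : ℝ) * log ((j : ℝ) / N / α))) *
      exp (-(((N - j : ℕ) : ℝ) * log ((1 - (j : ℝ) / N) / (1 - α)))) ≤
      exp (-(η ^ 2 * min α (1 - α) * N / 6)) := by
    rw [← exp_add, exp_le_exp, ← neg_add, e3]
    linarith
  rw [e1, e2]
  calc _ = (N.choose j : ℝ) * (((j : ℝ) / N) ^ j * (1 - (j : ℝ) / N) ^ (N - j)) *
        (exp (-((j : ℝ) * log ((j : ℝ) / N / α))) *
          exp (-(((N - j : ℕ) : ℝ) * log ((1 - (j : ℝ) / N) / (1 - α))))) := by ring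
    _ ≤ 1 * exp (-(η ^ 2 * min α (1 - α) * N / 6)) :=
        mul_le_mul hb h5 (by positivity) zero_le_one
    _ = _ := one_mul _

end Pool.Agent.P.MP_4f3dfd_co.Ex
end

-- part Pool.Agent.P.MP_4f3dfd_co.EDual
section

set_option autoImplicit false
set_option linter.unusedSectionVars false
set_option linter.unusedVariables false

namespace Pool.Agent.P.MP_4f3dfd_co.Ex

open Finset Real

variable {V : Type*} [DecidableEq V]

theorem edual_mem {n k : ℕ} {F : Finset (Finset (Fin n))} {Z : Finset (Fin n)} :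
    Z ∈ co k F ↔ #Z = k ∧ Zᶜ ∉ F := by
  simp [co, mem_powersetCard]

theorem edual_filter {n k l : ℕ} (h : k + l = n) {F : Finset (Finset (Fin n))}
    (hF : F ⊆ powersetCard l univ) (p : Finset (Fin n) → Prop) [DecidablePred p] :
    #{Z ∈ co k F | p Z} + #{X ∈ F | p Xᶜ} = #{Z ∈ powersetCard k univ | p Z} := by
  rw [← card_filter_add_card_filter_not (s := {Z ∈ powersetCard k univ | p Z})
    (fun Z => Zᶜ ∉ F)]
  congr 1
  · congr 1
    ext Z
    simp only [co, mem_filter]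
    tauto
  · refine card_nbij' compl compl (fun X hX => ?_) (fun Z hZ => ?_) (fun X _ => compl_compl X)
      fun Z _ => compl_compl Z
    · simp only [coe_filter, Set.mem_ofPred_eq, mem_filter, mem_powersetCard, subset_univ, true_and,
        compl_compl, not_not] at hX ⊢
      have := (mem_powersetCard.1 (hF hX.1)).2
      refine ⟨⟨?_, hX.2⟩, hX.1⟩
      rw [card_compl, Fintype.card_fin]
      omega
    · simp only [coe_filter, Set.mem_ofPred_eq, mem_filter, mem_powersetCard, subset_univ, true_and,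
        compl_compl, not_not] at hZ ⊢
      exact ⟨hZ.2, hZ.1.2⟩

theorem edual_through (n k : ℕ) :
    ∃ e : ℕ, ∀ i : Fin n, #{Z ∈ powersetCard k (univ : Finset (Fin n)) | i ∈ Z} = e := by
  cases k with
  | zero => exact ⟨0, fun i => by simp [filter_singleton]⟩
  | succ k =>
    refine ⟨(n - 1).choose k, fun i => ?_⟩
    have e : n - 1 = #((univ : Finset (Fin n)).erase i) := by
      rw [card_erase_of_mem (mem_univ i), card_univ, Fintype.card_fin]
    rw [e, ← card_powersetCard]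
    refine card_nbij' (fun Z => Z.erase i) (fun Y => insert i Y) (fun Z hZ => ?_) (fun Y hY => ?_)
      (fun Z hZ => ?_) fun Y hY => ?_
    · simp only [coe_filter, Set.mem_ofPred_eq, mem_powersetCard, subset_univ, true_and,
        mem_coe] at hZ ⊢
      exact ⟨erase_subset_erase _ (subset_univ _), by rw [card_erase_of_mem hZ.2, hZ.1]; rfl⟩
    · simp only [coe_filter, Set.mem_ofPred_eq, mem_powersetCard, subset_univ, true_and,
        mem_coe] at hY ⊢
      have hi : i ∉ Y := fun hi => notMem_erase i univ (hY.1 hi)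
      exact ⟨by rw [card_insert_of_notMem hi, hY.2], mem_insert_self _ _⟩
    · simp only [coe_filter, Set.mem_ofPred_eq] at hZ
      exact insert_erase hZ.2
    · simp only [mem_coe, mem_powersetCard] at hY
      exact erase_insert fun hi => notMem_erase i univ (hY.1 hi)

theorem edual_ins {n : ℕ} {k : Fin n} {Y : Finset (Fin n)} (h : k ∉ Y) :
    insert k (insert k Y)ᶜ = Yᶜ := by
  ext j
  by_cases hj : j = k
  · subst hj; simpa using h
  · simp [hj]

theorem card_co {n k l : ℕ} (h : k + l = n) {F : Finset (Finset (Fin n))}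
    (hF : F ⊆ powersetCard l univ) : #(co k F) + #F = n.choose k := by
  have := edual_filter h hF fun _ => True
  simpa using this

theorem reg_co {n k l : ℕ} (h : k + l = n) {F : Finset (Finset (Fin n))}
    (hF : F ⊆ powersetCard l univ) {d : ℕ} (hd : ∀ i, deg F i = d) :
    ∃ d' : ℕ, ∀ i, deg (co k F) i = d' := by
  obtain ⟨e, he⟩ := edual_through n k
  refine ⟨e - (#F - d), fun i => ?_⟩
  have h1 := edual_filter h hF fun Z => i ∈ Z
  have h2 := card_filter_add_card_filter_not (s := F) (fun X => i ∈ X)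
  have h3 := hd i
  rw [he i] at h1
  simp only [mem_compl] at h1
  unfold deg at h3 ⊢
  omega

theorem pair_co {n c : ℕ} (hc : c ≤ n) {J D : Finset (Finset (Fin n))} (h : Pair univ c J D) :
    Pair univ (n - c + 1) (co (n - c + 1) D) (co (n - c) J) := by
  refine ⟨by omega, filter_subset _ _, ?_, fun X hX i hi => ?_⟩
  · rw [Nat.add_sub_cancel]
    exact filter_subset _ _
  · obtain ⟨h1, h2⟩ := edual_mem.1 hX
    refine edual_mem.2 ⟨by rw [card_erase_of_mem hi, h1]; rfl, fun h3 => h2 ?_⟩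
    have h4 := h.sh _ h3 i (by simp)
    rwa [compl_erase, erase_insert (by simpa using hi)] at h4

theorem exc_co {n c : ℕ} (hc : c ≤ n) {J D : Finset (Finset (Fin n))} (h : Pair univ c J D) :
    exc univ (co (n - c + 1) D) (co (n - c) J) = exc univ J D := by
  refine sum_congr rfl fun k _ => ?_
  have hp := h.pos
  refine card_nbij' (fun Y => (insert k Y)ᶜ) (fun Y => (insert k Y)ᶜ) (fun Y hY => ?_)
    (fun Y hY => ?_) (fun Y hY => ?_) fun Y hY => ?_
  · simp only [blk, coe_filter, Set.mem_ofPred_eq, edual_mem] at hY ⊢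
    obtain ⟨⟨h1, h2⟩, h3, h4⟩ := hY
    refine ⟨?_, by simp, by rwa [edual_ins h3]⟩
    by_contra h5
    exact h4 ⟨by rw [card_insert_of_notMem h3, h1], h5⟩
  · simp only [blk, coe_filter, Set.mem_ofPred_eq, edual_mem] at hY ⊢
    obtain ⟨h1, h3, h4⟩ := hY
    have h5 := (mem_powersetCard.1 (h.hD h1)).2
    refine ⟨⟨?_, by rwa [compl_compl]⟩, by simp, ?_⟩
    · rw [card_compl, Fintype.card_fin, card_insert_of_notMem h3]
      omega
    · rw [edual_ins h3, compl_compl]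
      exact fun h6 => h6.2 h1
  · simp only [blk, coe_filter, Set.mem_ofPred_eq] at hY
    show (insert k (insert k Y)ᶜ)ᶜ = Y
    rw [edual_ins hY.2.1, compl_compl]
  · simp only [blk, coe_filter, Set.mem_ofPred_eq] at hY
    show (insert k (insert k Y)ᶜ)ᶜ = Y
    rw [edual_ins hY.2.1, compl_compl]

/-- Thinning a regular family to an exact size. -/
theorem round {n c m : ℕ} {T D : Finset (Finset (Fin n))} (h : Pair univ c T D) {d : ℕ}
    (hd : ∀ i, deg T i = d) (hm0 : 1 ≤ m) (hm : m ≤ #T) (hdvd : n ∣ c * m) :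
    ∃ J : Finset (Finset (Fin n)), Reg n c m J ∧ #(shadow J) ≤ #D + c * (c * n) := by
  obtain ⟨d0, hd0⟩ := hdvd
  have hTc : ∀ X ∈ T, #X = c := fun X hX => (mem_powersetCard.1 (h.hJ hX)).2
  have hp := h.pos
  have e0 : n * d = c * #T := by
    have hd' : ∀ v, #{X ∈ T | v ∈ X} = d := hd
    rw [← Asy.sum_deg_nat T c hTc, sum_congr rfl fun v _ => hd' v, sum_const, card_univ,
      Fintype.card_fin, smul_eq_mul]
  have hn0 : 0 < n := by
    have := Nat.mul_pos hp (hm0.trans hm)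
    rw [← e0] at this
    exact Nat.pos_of_mul_pos_right this
  have hT : (0 : ℝ) < #T := by exact_mod_cast hm0.trans hm
  have hn : (0 : ℝ) < n := by exact_mod_cast hn0
  obtain ⟨J, g1, g2, g3, g4⟩ := exists_regular_of_fractional T c hp hTc
    (fun _ => (m : ℝ) / #T)
    (fun _ _ => ⟨by positivity, by rw [div_le_one hT]; exact_mod_cast hm⟩) d0 m
    (by rw [Fintype.card_fin, hd0, mul_comm]) (fun v => by
      rw [sum_const, nsmul_eq_mul]
      have e3 : #{X ∈ T | v ∈ X} = d := hd v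
      rw [e3]
      have e1 : (n : ℝ) * d = c * #T := by exact_mod_cast e0
      have e2 : (c : ℝ) * m = n * d0 := by exact_mod_cast hd0
      field_simp
      apply mul_left_cancel₀ hn.ne'
      linear_combination (m : ℝ) * e1 + (#T : ℝ) * e2)
  refine ⟨J, ⟨g1, g2, d0, g3⟩, ?_⟩
  rw [Fintype.card_fin] at g4
  have := card_le_card (shadow_subset h)
  omega

theorem exists_reg {n c m : ℕ} (hc : 1 ≤ c) (hm0 : 1 ≤ m) (hm : m ≤ n.choose c)
    (hdvd : n ∣ c * m) : ∃ J : Finset (Finset (Fin n)), Reg n c m J ∧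
      #(shadow J) ≤ c * m ∧ #(shadow J) ≤ n.choose (c - 1) := by
  have hP : Pair (univ : Finset (Fin n)) c (powersetCard c univ) (powersetCard (c - 1) univ) :=
    ⟨hc, Subset.rfl, Subset.rfl, fun X hX i hi => mem_powersetCard.2 ⟨subset_univ _, by
      rw [card_erase_of_mem hi, (mem_powersetCard.1 hX).2]⟩⟩
  obtain ⟨e, he⟩ := edual_through n c
  obtain ⟨J, hJ, -⟩ := round hP (d := e) he hm0
    (by rwa [card_powersetCard, card_univ, Fintype.card_fin]) hdvd
  refine ⟨J, hJ, ?_, ?_⟩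
  · have h1 : shadow J ⊆ J.biUnion fun X => X.image X.erase := by
      intro Y hY
      obtain ⟨X, hX, i, hi, rfl⟩ := mem_shadow_iff.1 hY
      exact mem_biUnion.2 ⟨X, hX, mem_image_of_mem _ hi⟩
    refine (card_le_card h1).trans (card_biUnion_le.trans ?_)
    refine (sum_le_card_nsmul _ _ c fun X hX => card_image_le.trans (hJ.1 X hX).le).trans ?_
    rw [hJ.2.1, smul_eq_mul, mul_comm]
  · have h1 : shadow J ⊆ powersetCard (c - 1) univ := by
      intro Y hY
      obtain ⟨X, hX, i, hi, rfl⟩ := mem_shadow_iff.1 hY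
      exact mem_powersetCard.2 ⟨subset_univ _, by rw [card_erase_of_mem hi, hJ.1 X hX]⟩
    have := card_le_card h1
    rwa [card_powersetCard, card_univ, Fintype.card_fin] at this

end Pool.Agent.P.MP_4f3dfd_co.Ex
end

-- part Pool.Agent.P.MP_4f3dfd_co.EF3
section

set_option autoImplicit false
set_option linter.unusedSectionVars false
set_option linter.unusedVariables false

namespace Pool.Agent.P.MP_4f3dfd_co.Ex

open Finset Real

variable {V : Type*} [DecidableEq V]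

theorem ef3_exc {G : Finset V} (J D : Finset (Finset V)) {S x : Finset V} (hx : x ⊆ S) :
    (exc (G \ S) (fib J S x) (fib D S x) : ℝ) = ∑ k ∈ G \ S, (cnt (blk J D k) S x : ℝ) := by
  rw [exc, Nat.cast_sum]
  refine sum_congr rfl fun k hk => ?_
  rw [card_blk_fib J D hx (mem_sdiff.1 hk).2]

/-- Kruskal-Katona for a pair. -/
theorem exc_ge_kk {n0 : ℕ} {H : Finset (Fin n0)} {j w : ℕ} {A D : Finset (Finset (Fin n0))}
    (h : Pair H j A D) (hw : j + w ≤ #H) (hA : #A ≤ (#H - w).choose j) :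
    (j : ℝ) * w * #A ≤ ((#H : ℝ) - j + 1) * exc H A D := by
  have hHn : #H ≤ n0 := by simpa using card_le_univ H
  have hk := Asy.kk_ratio (n := n0) (k := j) (x := #H - w) (by omega) A
    (fun X hX => (mem_powersetCard.1 (h.hJ hX)).2) hA
  have hsh : #(shadow A) ≤ #D := card_le_card (shadow_subset h)
  have hk2 : #A * j ≤ #D * (#H - w + 1 - j) := hk.trans (Nat.mul_le_mul_right _ hsh)
  have ht : ((#H - w + 1 - j : ℕ) : ℝ) = (#H : ℝ) - w + 1 - j := by
    have e : #H - w + 1 - j + j + w = #H + 1 := by omega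
    have e2 : ((#H - w + 1 - j : ℕ) : ℝ) + j + w = (#H : ℝ) + 1 := by exact_mod_cast e
    linarith
  have hk3 : (#A : ℝ) * j ≤ #D * ((#H : ℝ) - w + 1 - j) := by
    rw [← ht]; exact_mod_cast hk2
  have hp := pair_card h
  have hB : (0 : ℝ) ≤ exc H A D := Nat.cast_nonneg _
  have hw0 : (0 : ℝ) ≤ w := Nat.cast_nonneg _
  have hw' : (j : ℝ) + w ≤ #H := by exact_mod_cast hw
  have h1 : (w : ℝ) * #D ≤ exc H A D := by nlinarith
  have h2 : (j : ℝ) * #A ≤ ((#H : ℝ) - j + 1) * #D := by linarith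
  have h3 : (0 : ℝ) ≤ (#H : ℝ) - j + 1 := by linarith
  calc (j : ℝ) * w * #A = w * (j * #A) := by ring
    _ ≤ w * (((#H : ℝ) - j + 1) * #D) := mul_le_mul_of_nonneg_left h2 hw0
    _ = ((#H : ℝ) - j + 1) * (w * #D) := by ring
    _ ≤ ((#H : ℝ) - j + 1) * exc H A D := mul_le_mul_of_nonneg_left h1 h3

/-- Fibre bound from Kruskal-Katona. -/
theorem fib_kk {n0 : ℕ} {G : Finset (Fin n0)} {c : ℕ} {J D : Finset (Finset (Fin n0))}
    (h : Pair G c J D) {S x : Finset (Fin n0)} (hS : S ⊆ G) (hx : x ⊆ S) (hxc : #x ≤ c)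
    {α η T : ℝ} {w : ℕ} (hη : 0 < η) (hα1 : η < α) (hα2 : α + 2 * η < 1)
    (ht : |((c - #x : ℕ) : ℝ) - α * #(G \ S)| ≤ η * #(G \ S)) (hN : 1 ≤ η * #(G \ S))
    (hw : (w : ℝ) ≤ η * #(G \ S)) (hT : T ≤ (1 - α - 2 * η) ^ w)
    (hM : (cnt J S x : ℝ) ≤ T * tot G c S x) :
    w * (α - η) / (1 - α + 2 * η) * cnt J S x ≤ ∑ k ∈ G \ S, (cnt (blk J D k) S x : ℝ) := by
  have hNpos : (0 : ℝ) < #(G \ S) := by
    by_contra hc
    have : η * (#(G \ S) : ℝ) ≤ 0 := mul_nonpos_of_nonneg_of_nonpos hη.le (not_lt.1 hc)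
    linarith
  have hNpos' : 0 < #(G \ S) := by exact_mod_cast hNpos
  obtain ⟨hlo, hhi⟩ := abs_le.1 ht
  have hjlo : (α - η) * #(G \ S) ≤ ((c - #x : ℕ) : ℝ) := by linarith
  have hjpos : (0 : ℝ) < ((c - #x : ℕ) : ℝ) := lt_of_lt_of_le (mul_pos (by linarith) hNpos) hjlo
  have hjpos' : 0 < c - #x := by exact_mod_cast hjpos
  have hp := pair_fib h hx (by omega : #x < c)
  have hjw : ((c - #x : ℕ) : ℝ) + w ≤ (α + 2 * η) * #(G \ S) := by linarith
  have hjw2 : ((c - #x : ℕ) : ℝ) + w ≤ #(G \ S) := by nlinarith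
  have hjw' : c - #x + w ≤ #(G \ S) := by exact_mod_cast hjw2
  have htot : tot G c S x = (#(G \ S)).choose (c - #x) := by
    rw [tot, card_sdiff_of_subset hS]
  have hmp := mul_pow_le_choose (n := #(G \ S)) (k := c - #x) (z := #(G \ S) - w) (w := w) hNpos'
    (by omega) (by omega)
  rw [Nat.sub_add_cancel (by omega : w ≤ #(G \ S)), Nat.cast_sub (by omega : w ≤ #(G \ S))] at hmp
  have hγ : 1 - α - 2 * η ≤ ((#(G \ S) : ℝ) - w + 1 - ((c - #x : ℕ) : ℝ)) / #(G \ S) := by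
    rw [le_div_iff₀ hNpos]; linarith
  have hpow : (1 - α - 2 * η) ^ w ≤
      (((#(G \ S) : ℝ) - w + 1 - ((c - #x : ℕ) : ℝ)) / #(G \ S)) ^ w :=
    pow_le_pow_left₀ (by linarith) hγ w
  have hC : (0 : ℝ) ≤ ((#(G \ S)).choose (c - #x) : ℝ) := Nat.cast_nonneg _
  have hA : (#(fib J S x) : ℝ) ≤ ((#(G \ S) - w).choose (c - #x) : ℝ) := by
    rw [card_fib]
    rw [htot] at hM
    calc (cnt J S x : ℝ) ≤ T * ((#(G \ S)).choose (c - #x) : ℝ) := hM
      _ ≤ (((#(G \ S) : ℝ) - w + 1 - ((c - #x : ℕ) : ℝ)) / #(G \ S)) ^ w *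
          ((#(G \ S)).choose (c - #x) : ℝ) := mul_le_mul_of_nonneg_right (hT.trans hpow) hC
      _ ≤ _ := by rw [mul_comm]; exact hmp
  have hk := exc_ge_kk hp hjw' (by exact_mod_cast hA)
  rw [card_fib, ef3_exc J D hx] at hk
  set B : ℝ := ∑ k ∈ G \ S, (cnt (blk J D k) S x : ℝ) with hBdef
  have hB : 0 ≤ B := sum_nonneg fun k _ => Nat.cast_nonneg _
  have hw0 : (0 : ℝ) ≤ w := Nat.cast_nonneg _
  have hc0 : (0 : ℝ) ≤ cnt J S x := Nat.cast_nonneg _
  have hden : 0 < 1 - α + 2 * η := by linarith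
  have hup : (#(G \ S) : ℝ) - ((c - #x : ℕ) : ℝ) + 1 ≤ (1 - α + 2 * η) * #(G \ S) := by linarith
  have h1 : (α - η) * #(G \ S) * (w * cnt J S x) ≤ ((c - #x : ℕ) : ℝ) * (w * cnt J S x) :=
    mul_le_mul_of_nonneg_right hjlo (mul_nonneg hw0 hc0)
  have h2 : ((#(G \ S) : ℝ) - ((c - #x : ℕ) : ℝ) + 1) * B ≤ (1 - α + 2 * η) * #(G \ S) * B :=
    mul_le_mul_of_nonneg_right hup hB
  have h3 : (w * (α - η) * cnt J S x) * #(G \ S) ≤ (B * (1 - α + 2 * η)) * #(G \ S) := by
    linarith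
  have h4 := le_of_mul_le_mul_right h3 hNpos
  rw [div_mul_eq_mul_div, div_le_iff₀ hden]
  exact h4

/-- Fibre bound from the spectral inequality. -/
theorem fib_var {G : Finset V} {c : ℕ} {J D : Finset (Finset V)} (h : Pair G c J D)
    {S x : Finset V} (hS : S ⊆ G) (hx : x ⊆ S) (hxc : #x < c)
    (hM : (cnt J S x : ℝ) ≤ 3 / 4 * tot G c S x) :
    1 / 4 * (cnt J S x : ℝ) ≤ ∑ k ∈ G \ S, (cnt (blk J D k) S x : ℝ) := by
  have hp := pair_fib h hx hxc
  have hv := exc_ge_var hp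
  have htot : tot G c S x = (#(G \ S)).choose (c - #x) := by
    rw [tot, card_sdiff_of_subset hS]
  rw [card_fib, ef3_exc J D hx, ← htot] at hv
  set B : ℝ := ∑ k ∈ G \ S, (cnt (blk J D k) S x : ℝ) with hBdef
  have hB : 0 ≤ B := sum_nonneg fun k _ => Nat.cast_nonneg _
  have hc0 : (0 : ℝ) ≤ cnt J S x := Nat.cast_nonneg _
  have hC : (0 : ℝ) ≤ tot G c S x := Nat.cast_nonneg _
  rcases hC.eq_or_lt with h0 | h0
  · rw [← h0] at hM
    linarith
  · have h1 : (cnt J S x : ℝ) * (1 / 4 * tot G c S x) ≤ cnt J S x * (tot G c S x - cnt J S x) :=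
      mul_le_mul_of_nonneg_left (by linarith) hc0
    have h2 : (1 / 4 * (cnt J S x : ℝ)) * tot G c S x ≤ B * tot G c S x := by linarith
    exact le_of_mul_le_mul_right h2 h0

end Pool.Agent.P.MP_4f3dfd_co.Ex
end

-- part Pool.Agent.P.MP_4f3dfd_co.EG1
section

set_option autoImplicit false
set_option linter.unusedSectionVars false
set_option linter.unusedVariables false

namespace Pool.Agent.P.MP_4f3dfd_co.Ex

open Finset Real

variable {V : Type*} [DecidableEq V]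

theorem eg1_wp_anti {T T1 b θ : ℝ} (h1 : 0 < T1) (h : T1 ≤ T) (hb : 0 ≤ b) (hθ : 0 < θ) :
    T * (b / T) ^ (1 + θ) ≤ T1 * (b / T1) ^ (1 + θ) := by
  have hT : 0 < T := h1.trans_le h
  have e1 : ∀ S : ℝ, 0 < S → S * (b / S) ^ (1 + θ) = b * (b / S) ^ θ := by
    intro S hS
    rw [rpow_one_add' (div_nonneg hb hS.le) (by linarith), ← mul_assoc,
      mul_div_cancel₀ _ hS.ne']
  rw [e1 T hT, e1 T1 h1]
  exact mul_le_mul_of_nonneg_left
    (rpow_le_rpow (div_nonneg hb hT.le) (div_le_div_of_nonneg_left hb h1 h) hθ.le) hb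

theorem eg1_jensen (H : Finset V) (hH : 0 < #H) (z : V → ℝ) (hz : ∀ i, 0 ≤ z i) {p : ℝ}
    (hp : 1 ≤ p) : (#H : ℝ) * ((∑ i ∈ H, z i) / #H) ^ p ≤ ∑ i ∈ H, z i ^ p := by
  have hN : (0 : ℝ) < #H := by exact_mod_cast hH
  have h := Real.rpow_arith_mean_le_arith_mean_rpow H (fun _ => (1 / #H : ℝ)) z
    (fun _ _ => by positivity) (by rw [sum_const, nsmul_eq_mul]; field_simp) (fun i _ => hz i) hp
  rw [← mul_sum, ← mul_sum] at h
  have e : (∑ i ∈ H, z i) / #H = 1 / #H * ∑ i ∈ H, z i := by ring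
  rw [e]
  calc (#H : ℝ) * (1 / #H * ∑ i ∈ H, z i) ^ p ≤ #H * (1 / #H * ∑ i ∈ H, z i ^ p) :=
        mul_le_mul_of_nonneg_left h hN.le
    _ = ∑ i ∈ H, z i ^ p := by field_simp

theorem eg1_abs {y s t p : ℝ} (hs : 0 ≤ s) (ht : 0 ≤ t) (h1 : y ≤ t) (h2 : -s ≤ y) (hp : 0 ≤ p) :
    |y| ^ p ≤ s ^ p + t ^ p := by
  have hs' : 0 ≤ s ^ p := rpow_nonneg hs p
  have ht' : 0 ≤ t ^ p := rpow_nonneg ht p
  rcases le_total 0 y with h | h
  · have : |y| ^ p ≤ t ^ p := rpow_le_rpow (abs_nonneg y) (by rw [abs_of_nonneg h]; exact h1) hp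
    linarith
  · have : |y| ^ p ≤ s ^ p :=
      rpow_le_rpow (abs_nonneg y) (by rw [abs_of_nonpos h]; linarith) hp
    linarith

theorem eg1_term {a θ N j C d m R B b : ℝ} (ha : 0 < a) (hN : 0 < N) (h1 : a * N ≤ j)
    (h2 : j ≤ (1 - a) * N) (hj1 : 1 ≤ j) (hθ0 : 0 < θ) (hθ : θ ≤ 1) (hC : 0 < C) (hd : 0 ≤ d)
    (hdm : d ≤ m) (hR : 0 ≤ R) (hRB : R ≤ B) (hb : 0 ≤ b)
    (he : N * d - j * m = R - (N - j + 1) * b) :
    j / N * C * (d / (j / N * C)) ^ (1 + θ) +
        (1 - j / N) * C * ((m - d) / ((1 - j / N) * C)) ^ (1 + θ) ≤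
      C * (m / C) ^ (1 + θ) + 4 / a * (C * (b / C) ^ (1 + θ) + C * (B / C / N) ^ (1 + θ)) := by
  have hu1 : a ≤ j / N := by rw [le_div_iff₀ hN]; exact h1
  have hu2 : j / N ≤ 1 - a := by rw [div_le_iff₀ hN]; exact h2
  have hu0 : 0 < j / N := ha.trans_le hu1
  have hu3 : 0 < 1 - j / N := by linarith
  have hj0 : 0 < j := by linarith
  have hjN : j < N := by nlinarith
  have hNj : N - j ≠ 0 := by linarith
  have hM1 : 0 ≤ d / (j / N * C) := div_nonneg hd (mul_pos hu0 hC).le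
  have hM0 : 0 ≤ (m - d) / ((1 - j / N) * C) := div_nonneg (by linarith) (mul_pos hu3 hC).le
  have h := two_point ha hu1 hu2 hθ0 hθ hM1 hM0
  have e1 : j / N * (d / (j / N * C)) = d / C := by field_simp
  have e0 : (1 - j / N) * ((m - d) / ((1 - j / N) * C)) = (m - d) / C := by
    have := hu3.ne'
    field_simp
  have e2 : d / C + (m - d) / C = m / C := by ring
  rw [e1, e0, e2, mul_sub, e1] at h
  have e3 : d / C - j / N * (m / C) = (R - (N - j + 1) * b) / (N * C) := by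
    rw [← he]; field_simp
  have hNC : 0 < N * C := mul_pos hN hC
  have h3 : |d / C - j / N * (m / C)| ^ (1 + θ) ≤ (b / C) ^ (1 + θ) + (B / C / N) ^ (1 + θ) := by
    refine eg1_abs (div_nonneg hb hC.le) (div_nonneg (div_nonneg (hR.trans hRB) hC.le) hN.le)
      ?_ ?_ (by linarith)
    · rw [e3, div_div, mul_comm C N]
      refine div_le_div_of_nonneg_right ?_ hNC.le
      have : 0 ≤ (N - j + 1) * b := mul_nonneg (by linarith) hb
      linarith
    · rw [e3, le_div_iff₀ hNC]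
      have e4 : -(b / C) * (N * C) = -(N * b) := by field_simp
      rw [e4]
      have : (N - j + 1) * b ≤ N * b := mul_le_mul_of_nonneg_right (by linarith) hb
      linarith
  have h4 : 0 ≤ 4 / a := by positivity
  have h5 := mul_le_mul_of_nonneg_left h3 h4
  have h6 := mul_le_mul_of_nonneg_left (h.trans (add_le_add_right h5 _)) hC.le
  calc _ = C * (j / N * (d / (j / N * C)) ^ (1 + θ) +
        (1 - j / N) * ((m - d) / ((1 - j / N) * C)) ^ (1 + θ)) := by ring
    _ ≤ _ := h6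
    _ = _ := by ring

/-- One step of the density martingale of a pair. -/
theorem mart_step {H : Finset V} {j : ℕ} {A D : Finset (Finset V)} (h : Pair H j A D) {a θ : ℝ}
    (ha : 0 < a) (hH : 0 < #H) (h1 : a * #H ≤ j) (h2 : (j : ℝ) ≤ (1 - a) * #H) (hθ0 : 0 < θ)
    (hθ : θ ≤ 1) :
    ∑ i ∈ H, (wp ((#H - 1).choose (j - 1)) (deg A i) (1 + θ) +
        wp ((#H - 1).choose j) (#A - deg A i) (1 + θ)) ≤
      #H * wp ((#H).choose j) #A (1 + θ) +
        8 / a * ∑ k ∈ H, wp ((#H - 1).choose (j - 1)) #(blk A D k) (1 + θ) := by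
  have hN : (0 : ℝ) < #H := by exact_mod_cast hH
  have hj1 : 1 ≤ j := h.pos
  have hj1' : (1 : ℝ) ≤ j := by exact_mod_cast hj1
  have hjN' : (j : ℝ) < #H := by nlinarith
  have hjN : j < #H := by exact_mod_cast hjN'
  have hC : (0 : ℝ) < (#H).choose j := by exact_mod_cast Nat.choose_pos hjN.le
  have hC1 : (((#H - 1).choose (j - 1) : ℕ) : ℝ) = j / #H * (#H).choose j := by
    have := choose_pred_pred (n := #H) (c := j) hH hj1
    field_simp
    linarith
  have hpas : (#H).choose j = (#H - 1).choose (j - 1) + (#H - 1).choose j := by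
    obtain ⟨n, hn⟩ : ∃ n, #H = n + 1 := ⟨#H - 1, by omega⟩
    obtain ⟨k, rfl⟩ : ∃ k, j = k + 1 := ⟨j - 1, by omega⟩
    rw [hn, Nat.add_sub_cancel, Nat.add_sub_cancel, Nat.choose_succ_succ']
  have hC0 : (((#H - 1).choose j : ℕ) : ℝ) = (1 - j / #H) * (#H).choose j := by
    have : (((#H).choose j : ℕ) : ℝ) = (#H - 1).choose (j - 1) + (#H - 1).choose j := by
      exact_mod_cast hpas
    rw [sub_mul, ← hC1]
    linarith
  have hC1pos : (0 : ℝ) < (#H - 1).choose (j - 1) := by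
    rw [hC1]; positivity
  have hC1le : (((#H - 1).choose (j - 1) : ℕ) : ℝ) ≤ (#H).choose j := by
    exact_mod_cast (by omega : (#H - 1).choose (j - 1) ≤ (#H).choose j)
  set C : ℝ := (((#H).choose j : ℕ) : ℝ) with hCdef
  have hterm : ∀ i ∈ H, wp ((#H - 1).choose (j - 1)) (deg A i) (1 + θ) +
      wp ((#H - 1).choose j) (#A - deg A i) (1 + θ) ≤
      C * (#A / C) ^ (1 + θ) + 4 / a * (C * (#(blk A D i) / C) ^ (1 + θ) +
        C * (exc H A D / C / #H) ^ (1 + θ)) := by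
    intro i hi
    obtain ⟨R, hR0, hRB, he⟩ := pair_deg h hi
    have hd : deg A i ≤ #A := card_filter_le _ _
    unfold wp
    rw [hC1, hC0, Nat.cast_sub hd]
    exact eg1_term ha hN h1 h2 hj1' hθ0 hθ hC (Nat.cast_nonneg _) (by exact_mod_cast hd) hR0 hRB
      (Nat.cast_nonneg _) he
  have hJ : (#H : ℝ) * (exc H A D / C / #H) ^ (1 + θ) ≤
      ∑ k ∈ H, (#(blk A D k) / C) ^ (1 + θ) := by
    have := eg1_jensen H hH (fun k => (#(blk A D k) : ℝ) / C)
      (fun k => div_nonneg (Nat.cast_nonneg _) hC.le) (p := 1 + θ) (by linarith)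
    rw [← sum_div] at this
    unfold exc
    push_cast
    exact this
  have hW : ∑ k ∈ H, C * (#(blk A D k) / C) ^ (1 + θ) ≤
      ∑ k ∈ H, wp ((#H - 1).choose (j - 1)) #(blk A D k) (1 + θ) :=
    sum_le_sum fun k _ => eg1_wp_anti hC1pos hC1le (Nat.cast_nonneg _) hθ0
  refine (sum_le_sum hterm).trans ?_
  rw [sum_add_distrib, sum_const, nsmul_eq_mul, ← mul_sum, sum_add_distrib, sum_const,
    nsmul_eq_mul]
  have hJ' := mul_le_mul_of_nonneg_left hJ hC.le
  rw [mul_sum] at hJ'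
  have h4 : 0 ≤ 4 / a := by positivity
  have h5 : ∑ k ∈ H, C * (#(blk A D k) / C) ^ (1 + θ) +
      #H * (C * (exc H A D / C / #H) ^ (1 + θ)) ≤
      2 * ∑ k ∈ H, wp ((#H - 1).choose (j - 1)) #(blk A D k) (1 + θ) := by
    have e : (#H : ℝ) * (C * (exc H A D / C / #H) ^ (1 + θ)) =
        C * (#H * (exc H A D / C / #H) ^ (1 + θ)) := by ring
    rw [e]
    linarith
  have h6 := mul_le_mul_of_nonneg_left h5 h4
  have e8 : 8 / a * ∑ k ∈ H, wp ((#H - 1).choose (j - 1)) #(blk A D k) (1 + θ) =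
      4 / a * (2 * ∑ k ∈ H, wp ((#H - 1).choose (j - 1)) #(blk A D k) (1 + θ)) := by ring
  rw [e8]
  have e9 : wp ((#H).choose j) #A (1 + θ) = C * (#A / C) ^ (1 + θ) := rfl
  rw [e9]
  linarith

end Pool.Agent.P.MP_4f3dfd_co.Ex
end

-- part Pool.Agent.P.MP_4f3dfd_co.EL1
section

set_option autoImplicit false
set_option linter.unusedSectionVars false
set_option linter.unusedVariables false

namespace Pool.Agent.P.MP_4f3dfd_co.Ex

open Finset Real

variable {V : Type*} [DecidableEq V]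

theorem el1_deg_lt {n k y s d M : ℕ} (hk : 1 ≤ k) (hkn : k ≤ n) (hd : n * d = k * M)
    (hm : M < n * y.choose k) (hys : y + s ≤ n)
    (hs : ((y : ℝ) - k + 1) * (1 - ((k : ℝ) - 1) / n) ^ s ≤ 1) :
    d < (y + s).choose (k - 1) := by
  have hn : 0 < n := by omega
  have hky : k ≤ y := le_of_lt_mul_choose hm
  have h1 : d < k * y.choose k := by
    have : n * d < n * (k * y.choose k) := by
      rw [hd]
      calc k * M < k * (n * y.choose k) := Nat.mul_lt_mul_of_pos_left hm hk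
        _ = _ := by ring
    exact Nat.lt_of_mul_lt_mul_left this
  have h2 : (d : ℝ) < (k : ℝ) * y.choose k := by exact_mod_cast h1
  rw [choose_pred hk] at h2
  have h3 := choose_le_mul_pow (n := n) (k := k - 1) (z := y) (w := s) hn (by omega) hys
  have hc : ((k - 1 : ℕ) : ℝ) = (k : ℝ) - 1 := by
    rw [Nat.cast_sub hk, Nat.cast_one]
  rw [hc] at h3
  have hy : (0 : ℝ) ≤ (y : ℝ) - k + 1 := by
    have : (k : ℝ) ≤ y := by exact_mod_cast hky
    linarith
  have h4 := mul_le_mul_of_nonneg_left h3 hy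
  have h5 : (0 : ℝ) ≤ ((y + s).choose (k - 1) : ℝ) := Nat.cast_nonneg _
  have h6 := mul_le_mul_of_nonneg_left hs h5
  have h7 : (d : ℝ) < ((y + s).choose (k - 1) : ℝ) := by
    calc (d : ℝ) < _ := h2
      _ ≤ _ := h4
      _ = ((y + s).choose (k - 1) : ℝ) *
            (((y : ℝ) - k + 1) * (1 - ((k : ℝ) - 1) / n) ^ s) := by ring
      _ ≤ _ := h6
      _ = _ := mul_one _
  exact_mod_cast h7

theorem el1_ratio {n k z d : ℕ} (hk : 1 ≤ k) (hkz : k ≤ z) (hzn : z ≤ n)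
    (A : Finset (Finset (Fin n))) (hA : ∀ X ∈ A, #X = k) (hsh : #(shadow A) ≤ d)
    (hd : d < z.choose (k - 1)) : #A * k ≤ d * (z + 1 - k) := by
  rcases le_or_gt #A (z.choose k) with h | h
  · exact (Asy.kk_ratio hzn A hA h).trans (Nat.mul_le_mul_right _ hsh)
  · exfalso
    obtain ⟨B, hBA, hB⟩ := exists_subset_card_eq h.le
    have h1 := Asy.kk_ratio hzn B (fun X hX => hA X (hBA hX)) hB.le
    have h2 : #(shadow B) ≤ d := (card_le_card (shadow_mono hBA)).trans hsh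
    have h3 : z.choose k * k ≤ d * (z + 1 - k) := by
      rw [← hB]
      exact h1.trans (Nat.mul_le_mul_right _ h2)
    have h4 : z.choose k * k = z.choose (k - 1) * (z + 1 - k) := by
      obtain ⟨j, rfl⟩ : ∃ j, k = j + 1 := ⟨k - 1, by omega⟩
      rw [Nat.choose_succ_right_eq, Nat.add_sub_cancel]
      congr 1
      omega
    rw [h4] at h3
    have h5 : 0 < z + 1 - k := by omega
    have := Nat.le_of_mul_le_mul_right h3 h5
    omega

/-- Kruskal-Katona on the links, small side. -/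
theorem link_lo {n c m x s : ℕ} (hc : 2 ≤ c) (hcn : c ≤ n) {J : Finset (Finset (Fin n))}
    (hJ : Reg n c m J) (hm : m < n * x.choose c) (hxs : x + s ≤ n)
    (hs : ((x : ℝ) - c + 1) * (1 - ((c : ℝ) - 1) / n) ^ s ≤ 1) :
    (c : ℝ) * m ≤ #(shadow J) * ((x : ℝ) + s - c + 2) := by
  obtain ⟨hc', hm', d, hd⟩ := hJ
  have hsum := Asy.sum_deg_nat J c hc'
  rw [sum_congr rfl (fun v _ => hd v), sum_const, card_univ, Fintype.card_fin, smul_eq_mul,
    hm'] at hsum
  have hlt := el1_deg_lt (by omega) hcn hsum hm hxs hs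
  have hcx : c ≤ x := le_of_lt_mul_choose hm
  have h1 := Asy.lower (k := c - 1) (by omega) hxs J
    (fun X hX => by rw [hc' X hX]; omega) hd hlt.le
  rw [hsum] at h1
  have h2 : x + s + 1 - (c - 1) + c = x + s + 2 := by omega
  have h3 : ((x + s + 1 - (c - 1) : ℕ) : ℝ) = (x : ℝ) + s - c + 2 := by
    have : ((x + s + 1 - (c - 1) + c : ℕ) : ℝ) = ((x + s + 2 : ℕ) : ℝ) := by rw [h2]
    push_cast at this
    linarith
  rw [← h3]
  exact_mod_cast h1

/-- Kruskal-Katona on the links, large side. -/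
theorem link_hi {n k y s : ℕ} (hk : 2 ≤ k) (hkn : k ≤ n) {J D : Finset (Finset (Fin n))}
    (h : Pair univ (k + 1) J D) {d : ℕ} (hd : ∀ i, deg D i = d) (hm : #D < n * y.choose k)
    (hys : y + s ≤ n) (hs : ((y : ℝ) - k + 1) * (1 - ((k : ℝ) - 1) / n) ^ s ≤ 1) :
    ((k : ℝ) + 1) * #J ≤ #D * ((y : ℝ) + s - k + 1) := by
  have hDk : ∀ Y ∈ D, #Y = k := fun Y hY => by
    have := (mem_powersetCard.1 (h.hD hY)).2
    omega
  have hJk : ∀ X ∈ J, #X = k + 1 := fun X hX => (mem_powersetCard.1 (h.hJ hX)).2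
  have hd' : ∀ i, #{Y ∈ D | i ∈ Y} = d := hd
  have hsum := Asy.sum_deg_nat D k hDk
  rw [sum_congr rfl (fun v _ => hd' v), sum_const, card_univ, Fintype.card_fin,
    smul_eq_mul] at hsum
  have hlt := el1_deg_lt (by omega) hkn hsum hm hys hs
  have hky : k ≤ y := le_of_lt_mul_choose hm
  have key : ∀ v, #{X ∈ J | v ∈ X} * k ≤ d * (y + s + 1 - k) := by
    intro v
    set L : Finset (Finset (Fin n)) := {X ∈ J | v ∈ X}.image (·.erase v) with hL
    have hLc : #L = #{X ∈ J | v ∈ X} := by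
      rw [hL, card_image_of_injOn]
      intro X hX Y hY h
      rw [mem_coe, mem_filter] at hX hY
      rw [← insert_erase hX.2, ← insert_erase hY.2]
      exact congrArg _ h
    have hLk : ∀ X ∈ L, #X = k := by
      intro X hX
      obtain ⟨Z, hZ, rfl⟩ := mem_image.1 hX
      rw [mem_filter] at hZ
      rw [card_erase_of_mem hZ.2, hJk Z hZ.1]; rfl
    have hmem : ∀ Y ∈ shadow L, v ∉ Y ∧ insert v Y ∈ D := by
      intro Y hY
      obtain ⟨X, hX, a, ha, rfl⟩ := mem_shadow_iff.1 hY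
      obtain ⟨Z, hZ, rfl⟩ := mem_image.1 hX
      rw [mem_filter] at hZ
      rw [mem_erase] at ha
      refine ⟨by simp, ?_⟩
      have : insert v ((Z.erase v).erase a) = Z.erase a := by
        rw [erase_right_comm, insert_erase (mem_erase.2 ⟨ha.1.symm, hZ.2⟩)]
      rw [this]
      exact h.sh Z hZ.1 a ha.2
    have hsh : #(shadow L) ≤ d := by
      rw [← hd' v]
      apply card_le_card_of_injOn (insert v)
      · intro Y hY
        rw [mem_coe, mem_filter]
        exact ⟨(hmem Y hY).2, mem_insert_self _ _⟩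
      · intro Y hY Z hZ h
        rw [← erase_insert (hmem Y hY).1, ← erase_insert (hmem Z hZ).1]
        exact congrArg (·.erase v) h
    rw [← hLc]
    exact el1_ratio (by omega) (by omega) hys L hLk hsh hlt
  have hs2 := sum_le_sum (s := (univ : Finset (Fin n))) (fun v _ => key v)
  rw [← sum_mul, Asy.sum_deg_nat _ (k + 1) hJk, sum_const, card_univ, Fintype.card_fin,
    smul_eq_mul, ← mul_assoc, hsum] at hs2
  have h1 : k * ((k + 1) * #J) ≤ k * (#D * (y + s + 1 - k)) := by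
    calc k * ((k + 1) * #J) = (k + 1) * #J * k := by ring
      _ ≤ _ := hs2
      _ = _ := by ring
  have h2 := Nat.le_of_mul_le_mul_left h1 (by omega)
  have h3 : ((y + s + 1 - k : ℕ) : ℝ) = (y : ℝ) + s - k + 1 := by
    rw [Nat.cast_sub (by omega)]
    push_cast
    ring
  rw [← h3]
  exact_mod_cast h2

theorem exists_shift {n k : ℕ} {a t : ℝ} (ha : 0 < a) (hn : 0 < n) (hkn : k ≤ n)
    (hk : a * n ≤ (k : ℝ) - 1) (ht : 1 ≤ t) :
    ∃ s : ℕ, (s : ℝ) ≤ log t / a + 1 ∧ t * (1 - ((k : ℝ) - 1) / n) ^ s ≤ 1 := by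
  have hlog : 0 ≤ log t := log_nonneg ht
  have hn' : (0 : ℝ) < n := by exact_mod_cast hn
  have hq : 0 ≤ log t / a := div_nonneg hlog ha.le
  refine ⟨⌈log t / a⌉₊, (Nat.ceil_lt_add_one hq).le, ?_⟩
  set s : ℕ := ⌈log t / a⌉₊ with hs
  have h1 : log t / a ≤ s := Nat.le_ceil _
  have h2 : log t ≤ s * a := by rwa [div_le_iff₀ ha] at h1
  have h3 : a ≤ ((k : ℝ) - 1) / n := by rwa [le_div_iff₀ hn']
  have h4 : (0 : ℝ) ≤ 1 - ((k : ℝ) - 1) / n := by
    have : (k : ℝ) ≤ n := by exact_mod_cast hkn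
    have : ((k : ℝ) - 1) / n ≤ 1 := by rw [div_le_one hn']; linarith
    linarith
  have h5 : 1 - ((k : ℝ) - 1) / n ≤ exp (-a) := by
    have := add_one_le_exp (-a)
    linarith
  have h6 : (1 - ((k : ℝ) - 1) / n) ^ s ≤ exp (-a) ^ s := pow_le_pow_left₀ h4 h5 s
  have h7 : exp (-a) ^ s ≤ exp (-log t) := by
    rw [← exp_nat_mul]
    apply exp_le_exp.2
    linarith
  have ht0 : 0 < t := by linarith
  rw [exp_neg (log t), exp_log ht0] at h7
  calc t * (1 - ((k : ℝ) - 1) / n) ^ s ≤ t * t⁻¹ :=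
        mul_le_mul_of_nonneg_left (h6.trans h7) ht0.le
    _ = 1 := mul_inv_cancel₀ ht0.ne'

end Pool.Agent.P.MP_4f3dfd_co.Ex
end

-- part Pool.Agent.P.MP_4f3dfd_co.FA4
section

set_option autoImplicit false
set_option linter.unusedSectionVars false
set_option linter.unusedVariables false

namespace Pool.Agent.P.MP_4f3dfd_co.Ex

open Finset Real

variable {V : Type*} [DecidableEq V]

theorem fa4_term {r N c t : ℕ} {η : ℝ} (h0 : 0 < c) (h1 : c < r + N) (ht : t ≤ r) (htc : t ≤ c)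
    (hη : 0 ≤ η) (hη1 : η ≤ 1)
    (h : η * (3 * aa (r + N) c) * (N : ℝ) < |(c : ℝ) - t - c / ((r + N : ℕ) : ℝ) * (N : ℝ)|) :
    (r.choose t : ℝ) * (N.choose (c - t) : ℝ) ≤
      2 * √((r + N : ℕ) : ℝ) * exp (-(η ^ 2 * aa (r + N) c * N / 2)) * ((r + N).choose c : ℝ) := by
  by_cases hj : N < c - t
  · rw [Nat.choose_eq_zero_of_lt hj]
    simp only [Nat.cast_zero, mul_zero]
    positivity
  have hj' : c - t ≤ N := not_lt.mp hj
  have hn : (0 : ℝ) < ((r + N : ℕ) : ℝ) := by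
    have : 0 < r + N := by omega
    exact_mod_cast this
  have hc : (0 : ℝ) < c := by exact_mod_cast h0
  have hcn : (c : ℝ) < ((r + N : ℕ) : ℝ) := by exact_mod_cast h1
  set α : ℝ := (c : ℝ) / ((r + N : ℕ) : ℝ) with hα
  have a0 : 0 < α := div_pos hc hn
  have a1 : α < 1 := (div_lt_one hn).mpr hcn
  have a2 : 0 < 1 - α := by linarith
  have b1 := binom_le_one (N := r) (j := t) (α := α) ht a0.le a1.le
  have hcast : ((c - t : ℕ) : ℝ) = (c : ℝ) - t := by
    rw [Nat.cast_sub htc]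
  have h3 := three_aa (n := r + N) (by omega) c
  rw [← hα] at h3
  have b2 := binom_le_expU (N := N) (j := c - t) (α := α) (η := η) hj' a0 a1 hη hη1
    (by rw [hcast, ← h3]; exact h.le)
  have h4 : η ^ 2 * min α (1 - α) * N / 6 = η ^ 2 * aa (r + N) c * N / 2 := by
    rw [← h3]; ring
  rw [h4] at b2
  have b3 := binom_ge (N := r + N) (j := c) h0 h1
  rw [← hα] at b3
  have hW : α ^ c * (1 - α) ^ (r + N - c) =
      (α ^ t * (1 - α) ^ (r - t)) * (α ^ (c - t) * (1 - α) ^ (N - (c - t))) := by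
    have e1 : c = t + (c - t) := by omega
    have e2 : r + N - c = (r - t) + (N - (c - t)) := by omega
    rw [e2, pow_add]
    nth_rewrite 1 [e1]
    rw [pow_add]
    ring
  set W : ℝ := α ^ c * (1 - α) ^ (r + N - c) with hWd
  have W0 : 0 < W := by positivity
  have s0 : 0 < √((r + N : ℕ) : ℝ) := Real.sqrt_pos.mpr hn
  set E : ℝ := exp (-(η ^ 2 * aa (r + N) c * N / 2)) with hE
  have E0 : 0 < E := exp_pos _
  have b4 : 1 ≤ 2 * √((r + N : ℕ) : ℝ) * (((r + N).choose c : ℝ) * W) := by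
    have := (div_le_iff₀ (by positivity : (0 : ℝ) < 2 * √((r + N : ℕ) : ℝ))).mp b3
    linarith
  have b5 : (r.choose t : ℝ) * (N.choose (c - t) : ℝ) * W ≤ E := by
    have p2 : 0 ≤ (N.choose (c - t) : ℝ) * (α ^ (c - t) * (1 - α) ^ (N - (c - t))) := by
      positivity
    calc (r.choose t : ℝ) * (N.choose (c - t) : ℝ) * W
        = ((r.choose t : ℝ) * (α ^ t * (1 - α) ^ (r - t))) *
          ((N.choose (c - t) : ℝ) * (α ^ (c - t) * (1 - α) ^ (N - (c - t)))) := by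
          rw [hW]; ring
      _ ≤ 1 * E := mul_le_mul b1 b2 p2 zero_le_one
      _ = E := one_mul _
  have b6 : E ≤ 2 * √((r + N : ℕ) : ℝ) * E * ((r + N).choose c : ℝ) * W := by
    have := mul_le_mul_of_nonneg_left b4 E0.le
    calc E = E * 1 := (mul_one _).symm
      _ ≤ E * (2 * √((r + N : ℕ) : ℝ) * (((r + N).choose c : ℝ) * W)) := this
      _ = _ := by ring
  exact le_of_mul_le_mul_right (b5.trans b6) W0

theorem fa4_fix (G S : Finset V) {c r : ℕ} {η : ℝ} (h0 : 0 < c) (h1 : c < #G) (hr : r ≤ #G)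
    (hη : 0 ≤ η) (hη1 : η ≤ 1) (hS : #S = r) :
    ∑ x ∈ S.powerset, atyp G c (η * (3 * aa #G c)) S x ≤
      zeta #G 1 (η ^ 2 * aa #G c * ((#G : ℝ) - r)) * (#G).choose c := by
  obtain ⟨N, hN⟩ : ∃ N, #G = r + N := ⟨#G - r, by omega⟩
  have hNr : ((#G : ℕ) : ℝ) - r = N := by
    rw [hN]; push_cast; ring
  let f : ℕ → ℝ := fun t =>
    if t ≤ c ∧ η * (3 * aa (r + N) c) * (N : ℝ) < |(c : ℝ) - t - c / ((r + N : ℕ) : ℝ) * (N : ℝ)| then
      (N.choose (c - t) : ℝ) else 0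
  have e1 : ∀ x : Finset V, atyp G c (η * (3 * aa #G c)) S x = f #x := by
    intro x
    have e2 : #G - r = N := by omega
    simp only [atyp, tot, f, hS, hNr, e2]
    rw [hN]
  simp only [e1]
  rw [Finset.sum_powerset_apply_card f, hS, hNr, hN]
  set B : ℝ := 2 * √((r + N : ℕ) : ℝ) * exp (-(η ^ 2 * aa (r + N) c * N / 2)) * ((r + N).choose c : ℝ) with hB
  have B0 : 0 ≤ B := by positivity
  have e3 : ∀ t ∈ range (r + 1), (r.choose t) • f t ≤ B := by
    intro t ht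
    have ht' : t ≤ r := Nat.lt_succ_iff.mp (mem_range.mp ht)
    rw [nsmul_eq_mul]
    simp only [f]
    split_ifs with hc
    · exact fa4_term h0 (hN ▸ h1) ht' hc.1 hη hη1 hc.2
    · simpa using B0
  have e4 := Finset.sum_le_card_nsmul _ _ _ e3
  rw [card_range, nsmul_eq_mul] at e4
  refine e4.trans ?_
  have e5 : ((r + 1 : ℕ) : ℝ) ≤ ((r + N : ℕ) : ℝ) + 1 := by
    push_cast
    have : (0 : ℝ) ≤ N := Nat.cast_nonneg _
    linarith
  calc ((r + 1 : ℕ) : ℝ) * B ≤ (((r + N : ℕ) : ℝ) + 1) * B := mul_le_mul_of_nonneg_right e5 B0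
    _ = _ := by rw [hB, zeta, one_pow, one_mul]; ring

theorem Av_atypU (G : Finset V) {c r : ℕ} {η : ℝ} (h0 : 0 < c) (h1 : c < #G) (hr : r ≤ #G)
    (hη0 : 0 ≤ η) (hη : η ≤ 1) : Av G r (atyp G c (η * (3 * aa #G c))) ≤
      zeta #G 1 (η ^ 2 * aa #G c * ((#G : ℝ) - r)) * (#G).choose c := by
  have hp : (0 : ℝ) < ((#G).choose r : ℝ) := by exact_mod_cast Nat.choose_pos hr
  rw [Av, div_le_iff₀ hp]
  have e := Finset.sum_le_card_nsmul (powersetCard r G)
    (fun S => ∑ x ∈ S.powerset, atyp G c (η * (3 * aa #G c)) S x)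
    (zeta #G 1 (η ^ 2 * aa #G c * ((#G : ℝ) - r)) * (#G).choose c)
    (fun S hS => fa4_fix G S h0 h1 hr hη0 hη (mem_powersetCard.mp hS).2)
  rw [card_powersetCard, nsmul_eq_mul] at e
  linarith

end Pool.Agent.P.MP_4f3dfd_co.Ex
end

-- part Pool.Agent.P.MP_4f3dfd_co.FA5
section

set_option autoImplicit false
set_option linter.unusedSectionVars false
set_option linter.unusedVariables false

namespace Pool.Agent.P.MP_4f3dfd_co.Ex

open Finset Real

variable {V : Type*} [DecidableEq V]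

theorem fa5_key (H : Finset V) (j : ℕ) (A : Finset (Finset V)) (hA : A ⊆ powersetCard j H)
    (hne : A.Nonempty) (hj0 : 0 < j) (hj1 : j < #H) {P s : ℝ} (hP0 : 0 < P) (hs : 0 < s)
    (hb : 1 / s ≤ ((#H).choose j : ℝ) * (((j : ℝ) / #H) ^ j * (1 - (j : ℝ) / #H) ^ (#H - j)))
    (hP : ∑ X ∈ powersetCard j H, pm H (fun i => (deg A i : ℝ) / #A) X ≤ P) :
    ∑ i ∈ H, kl ((deg A i : ℝ) / #A) ((j : ℝ) / #H) ≤
      log (((#H).choose j : ℝ) / #A) + log (s * P) := by
  have hN : (0 : ℝ) < #H := by exact_mod_cast (lt_trans hj0 hj1)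
  have hu0 : (0 : ℝ) < (j : ℝ) / #H := div_pos (by exact_mod_cast hj0) hN
  have hu1 : (j : ℝ) / #H < 1 := (div_lt_one hN).2 (by exact_mod_cast hj1)
  have hA0 : (0 : ℝ) < #A := by exact_mod_cast hne.card_pos
  have hC : (0 : ℝ) < ((#H).choose j : ℝ) := by exact_mod_cast Nat.choose_pos hj1.le
  refine (sum_kl_le_log H j A hA hne hu0 hu1 hP).trans ?_
  set W : ℝ := ((j : ℝ) / #H) ^ j * (1 - (j : ℝ) / #H) ^ (#H - j) with hW
  have hW0 : 0 < W := mul_pos (pow_pos hu0 _) (pow_pos (by linarith) _)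
  rw [← log_mul (by positivity) (by positivity)]
  refine log_le_log (by positivity) ?_
  rw [div_le_iff₀ hs] at hb
  rw [div_le_iff₀ (by positivity)]
  have : ((#H).choose j : ℝ) / #A * (s * P) * (#A * W) =
      P * (((#H).choose j : ℝ) * W * s) := by field_simp
  rw [this]
  exact le_mul_of_one_le_right hP0.le hb

theorem sum_kl_leU (H : Finset V) (j : ℕ) (A : Finset (Finset V)) (hA : A ⊆ powersetCard j H)
    (hne : A.Nonempty) {a g : ℝ} (ha : 0 < a) (hH : 0 < #H) (h1 : a * #H ≤ j)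
    (h2 : (j : ℝ) ≤ (1 - a) * #H) (hg0 : 0 < g) (hg1 : g ≤ 1)
    (hN : 48 * log (2 * √(#H)) ≤ g * a * #H) :
    ∑ i ∈ H, kl ((deg A i : ℝ) / #A) ((j : ℝ) / #H) ≤
      (1 + g) * log (((#H).choose j : ℝ) / #A) + log 36 := by
  have hN0 : (0 : ℝ) < #H := by exact_mod_cast hH
  have hN1 : (1 : ℝ) ≤ #H := by exact_mod_cast hH
  have ha2 : a ≤ 1 / 2 := by
    have : a * #H ≤ (1 - a) * #H := h1.trans h2
    have := le_of_mul_le_mul_right this hN0
    linarith
  have hj0 : 0 < j := by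
    have : (0 : ℝ) < j := lt_of_lt_of_le (mul_pos ha hN0) h1
    exact_mod_cast this
  have hj1 : j < #H := by
    have : (j : ℝ) < #H := by nlinarith
    exact_mod_cast this
  have hu1 : a ≤ (j : ℝ) / #H := (le_div_iff₀ hN0).2 h1
  have hu2 : (j : ℝ) / #H ≤ 1 - a := (div_le_iff₀ hN0).2 h2
  have hA0 : (0 : ℝ) < #A := by exact_mod_cast hne.card_pos
  have hq : ∀ i ∈ H, 0 ≤ (deg A i : ℝ) / #A ∧ (deg A i : ℝ) / #A ≤ 1 := by
    intro i _
    refine ⟨by positivity, (div_le_one hA0).2 ?_⟩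
    exact_mod_cast card_filter_le _ _
  have hZ : 0 ≤ log (((#H).choose j : ℝ) / #A) := by
    refine log_nonneg ((one_le_div hA0).2 ?_)
    have := card_le_card hA
    rw [card_powersetCard] at this
    exact_mod_cast this
  have hL : 0 ≤ log (36 : ℝ) := log_nonneg (by norm_num)
  have hs1 : (1 : ℝ) ≤ √(#H) := Real.one_le_sqrt.2 hN1
  have hlog : 1 / 2 ≤ log (2 * √(#H)) := by
    have e1 : log 2 ≤ log (2 * √(#H)) := log_le_log (by norm_num) (by linarith)
    have := Real.log_two_gt_d9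
    linarith
  have haN0 : 0 < a * #H := mul_pos ha hN0
  have haN : 24 ≤ a * #H := by
    have e1 : g * (a * #H) ≤ 1 * (a * #H) := mul_le_mul_of_nonneg_right hg1 haN0.le
    linarith
  have hb1 := binom_ge hj0 hj1
  have hb2 := binom_geU hj0 hj1
  have hvar : ∑ i ∈ H, ((j : ℝ) / #H * (1 - (j : ℝ) / #H) / 2 -
        3 * kl ((deg A i : ℝ) / #A) ((j : ℝ) / #H)) ≤
      ∑ i ∈ H, (deg A i : ℝ) / #A * (1 - (deg A i : ℝ) / #A) :=
    sum_le_sum fun i hi => var_ge (hq i hi).1 (hq i hi).2 (by linarith) (by linarith)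
  rw [sum_sub_distrib, sum_const, ← mul_sum, nsmul_eq_mul] at hvar
  have huv : a / 2 ≤ (j : ℝ) / #H * (1 - (j : ℝ) / #H) := by nlinarith
  have hv : a * #H / 2 ≤ #H * ((j : ℝ) / #H * (1 - (j : ℝ) / #H)) := by
    have := mul_le_mul_of_nonneg_left huv hN0.le
    linarith
  set v : ℝ := #H * ((j : ℝ) / #H * (1 - (j : ℝ) / #H)) with hvd
  set K := ∑ i ∈ H, kl ((deg A i : ℝ) / #A) ((j : ℝ) / #H) with hK
  set Z := log (((#H).choose j : ℝ) / #A) with hZd
  have hv0 : 0 < v := by linarith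
  by_cases hc : v / 12 ≤ K
  · have e := fa5_key H j A hA hne hj0 hj1 one_pos (by positivity) hb1 (sum_pm_le_one H _ hq j)
    rw [mul_one, ← hK, ← hZd] at e
    have hK0 : 0 ≤ K := le_trans (by positivity) hc
    have e2 : log (2 * √(#H)) ≤ g * K / 2 := by
      have : g * (a * #H / 24) ≤ g * K := mul_le_mul_of_nonneg_left (by linarith) hg0.le
      linarith
    have e3 : (1 - g / 2) * K ≤ Z := by linarith
    have e4 : (1 + g) * ((1 - g / 2) * K) ≤ (1 + g) * Z :=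
      mul_le_mul_of_nonneg_left e3 (by linarith)
    have e5 : 0 ≤ g * (1 - g) * K := mul_nonneg (mul_nonneg hg0.le (by linarith)) hK0
    linarith
  · rw [not_le] at hc
    have hsum : v / 4 ≤ ∑ i ∈ H, (deg A i : ℝ) / #A * (1 - (deg A i : ℝ) / #A) := by
      have e1 : (#H : ℝ) * ((j : ℝ) / #H * (1 - (j : ℝ) / #H) / 2) = v / 2 := by rw [hvd]; ring
      rw [e1] at hvar
      linarith
    have hσ2 : (√v / 2) ^ 2 = v / 4 := by
      rw [div_pow, sq_sqrt hv0.le]; norm_num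
    have hσ1 : 1 ≤ √v / 2 := by
      have : (2 : ℝ) ≤ √v := Real.le_sqrt_of_sq_le (by linarith)
      linarith
    have hP := sum_pm_le H _ hq j hσ1 (by rw [hσ2]; exact hsum)
    have hsv : 0 < √v := by linarith
    have e := fa5_key H j A hA hne hj0 hj1 (by positivity) (by positivity) hb2 hP
    have e3 : 3 * √v * (6 / (√v / 2)) = 36 := by field_simp; norm_num
    rw [← hK, ← hZd, e3] at e
    linarith [mul_nonneg hg0.le hZ]

end Pool.Agent.P.MP_4f3dfd_co.Ex
end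

-- part Pool.Agent.P.MP_4f3dfd_co.FC5
section

set_option autoImplicit false
set_option linter.unusedSectionVars false
set_option linter.unusedVariables false

namespace Pool.Agent.P.MP_4f3dfd_co.Ex

open Finset Real

variable {V : Type*} [DecidableEq V]

theorem ev_pow (K : ℝ) : ∃ N : ℕ, ∀ n : ℕ, N ≤ n →
    1 ≤ log n ∧ K ≤ log n ∧ K * log n ^ 3 ≤ (n : ℝ) ^ (1 / 18 : ℝ) := by
  have h1 : Filter.Tendsto (fun n : ℕ => log (n : ℝ)) Filter.atTop Filter.atTop :=
    tendsto_log_atTop.comp tendsto_natCast_atTop_atTop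
  obtain ⟨N, hN⟩ := Filter.eventually_atTop.1
    (((h1.eventually_ge_atTop 1).and (h1.eventually_ge_atTop K)).and
      ((h1.eventually_ge_atTop (K * (24 * 18 ^ 4))).and (Filter.eventually_ge_atTop 1)))
  refine ⟨N, fun n hn => ?_⟩
  obtain ⟨⟨ha, hb⟩, hc, hd⟩ := hN n hn
  refine ⟨ha, hb, ?_⟩
  have hn0 : (0 : ℝ) < n := by exact_mod_cast hd
  have hy : 0 ≤ log (n : ℝ) * (1 / 18) := by positivity
  rw [rpow_def_of_pos hn0]
  have h4 := Real.pow_div_factorial_le_exp _ hy 4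
  have h5 : ((Nat.factorial 4 : ℕ) : ℝ) = 24 := by norm_num [Nat.factorial]
  rw [h5] at h4
  refine le_trans ?_ h4
  have h3 : 0 ≤ log (n : ℝ) ^ 3 := by positivity
  have h6 : (log (n : ℝ) * (1 / 18)) ^ 4 / 24 = log n / (24 * 18 ^ 4) * log (n : ℝ) ^ 3 := by
    ring
  rw [h6]
  refine mul_le_mul_of_nonneg_right ?_ h3
  rw [le_div_iff₀ (by norm_num)]
  exact hc

theorem ev_zetaU (K P ε : ℝ) (hK : 0 < K) (hε : 0 < ε) : ∃ N : ℕ, ∀ n : ℕ, N ≤ n →
    ∀ u : ℝ, (n : ℝ) ^ (5 / 6 : ℝ) ≤ K * log n * u →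
      (n : ℝ) ^ 2 * zeta n 1 u ≤ ε * (n : ℝ) ^ (-P) := by
  obtain ⟨N, hN⟩ := ev_pow (2 * K * (|P| + 4 + |log (4 / ε)|))
  refine ⟨max N 1, fun n hn u hu => ?_⟩
  obtain ⟨ha, -, hc⟩ := hN n (le_trans (le_max_left _ _) hn)
  have hn1 : (1 : ℝ) ≤ n := by exact_mod_cast le_trans (le_max_right _ _) hn
  have hn0 : (0 : ℝ) < n := by linarith
  have h1 : (n : ℝ) ^ (1 / 18 : ℝ) ≤ (n : ℝ) ^ (5 / 6 : ℝ) :=
    rpow_le_rpow_of_exponent_le hn1 (by norm_num)
  set l := log (n : ℝ) with hl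
  set M := |P| + 4 + |log (4 / ε)| with hM
  have hM0 : 0 ≤ M := by positivity
  have hl0 : 0 < l := by linarith
  have h2 : K * l * (2 * M * l ^ 2) ≤ K * l * u := by
    calc K * l * (2 * M * l ^ 2) = 2 * K * M * l ^ 3 := by ring
      _ ≤ _ := hc.trans (h1.trans hu)
  have h3 : 2 * M * l ^ 2 ≤ u := le_of_mul_le_mul_left h2 (by positivity)
  have h4 : M * l ≤ M * l ^ 2 := mul_le_mul_of_nonneg_left (by nlinarith) hM0
  have h5 : (P + 4) * l + log (4 / ε) ≤ M * l := by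
    have a1 : P * l ≤ |P| * l := mul_le_mul_of_nonneg_right (le_abs_self P) hl0.le
    have a2 : log (4 / ε) ≤ |log (4 / ε)| * l :=
      (le_abs_self _).trans (le_mul_of_one_le_right (abs_nonneg _) ha)
    rw [hM]; nlinarith
  have h6 : exp (-(1 ^ 2 * u / 2)) ≤ exp (-((P + 4) * l + log (4 / ε))) :=
    exp_le_exp.2 (by linarith)
  have h7 : exp (-((P + 4) * l + log (4 / ε))) = ε / 4 * ((n : ℝ) ^ (-P) / (n : ℝ) ^ 4) := by
    have e1 : -((P + 4) * l + log (4 / ε)) = l * (-P) - (4 : ℕ) * l - log (4 / ε) := by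
      push_cast; ring
    rw [e1, exp_sub, exp_sub, exp_log (by positivity), exp_nat_mul, hl, exp_log hn0,
      ← rpow_def_of_pos hn0]
    field_simp
  have h8 : √(n : ℝ) ≤ n := by
    rw [sqrt_le_left hn0.le]; nlinarith
  have h9 : (n : ℝ) ^ 2 * (2 * √n * (n + 1)) ≤ 4 * (n : ℝ) ^ 4 := by
    have a1 : 2 * √(n : ℝ) * (n + 1) ≤ 2 * n * (2 * n) :=
      mul_le_mul (by linarith) (by linarith) (by positivity) (by positivity)
    calc (n : ℝ) ^ 2 * (2 * √n * (n + 1)) ≤ (n : ℝ) ^ 2 * (2 * n * (2 * n)) :=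
          mul_le_mul_of_nonneg_left a1 (by positivity)
      _ = 4 * (n : ℝ) ^ 4 := by ring
  unfold zeta
  calc (n : ℝ) ^ 2 * (2 * √n * (n + 1) * exp (-(1 ^ 2 * u / 2)))
      = (n : ℝ) ^ 2 * (2 * √n * (n + 1)) * exp (-(1 ^ 2 * u / 2)) := by ring
    _ ≤ 4 * (n : ℝ) ^ 4 * (ε / 4 * ((n : ℝ) ^ (-P) / (n : ℝ) ^ 4)) :=
        mul_le_mul h9 (h6.trans h7.le) (exp_pos _).le (by positivity)
    _ = ε * (n : ℝ) ^ (-P) := by field_simp

end Pool.Agent.P.MP_4f3dfd_co.Ex
end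

-- part Pool.Agent.P.MP_4f3dfd_co.FD2
section

set_option autoImplicit false
set_option linter.unusedSectionVars false
set_option linter.unusedVariables false

namespace Pool.Agent.P.MP_4f3dfd_co.Ex

open Finset Real

variable {V : Type*} [DecidableEq V]

theorem fd2_alg {n κ c C0 C1 J0 J1 B0 B1 D0 : ℝ} (hC0 : 0 < C0) (hC1 : 0 < C1) (hn : 0 < n)
    (hk : 1 ≤ κ) (hc : 0 ≤ c) (hs : c + κ = n + 1) (e : C0 * c = C1 * κ)
    (h0 : n * (J0 * (C0 - J0)) ≤ (κ - 1) * (B0 * C0))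
    (h1 : n * (J1 * (C1 - J1)) ≤ κ * (B1 * C1)) (hD : κ * D0 = c * J0 + B0)
    (hM : J1 * C0 ≤ J0 * C1) (hJ0 : J0 ≤ C0) (hJ1 : 0 ≤ J1) (hB0 : 0 ≤ B0) :
    (n + 1) * ((J0 + J1) * (C1 + C0 - (J0 + J1))) ≤
      κ * ((B0 + B1 + (D0 - J1)) * (C1 + C0)) := by
  obtain ⟨M0, rfl⟩ : ∃ M0, J0 = M0 * C0 := ⟨J0 / C0, by field_simp⟩
  obtain ⟨M1, rfl⟩ : ∃ M1, J1 = M1 * C1 := ⟨J1 / C1, by field_simp⟩
  have hκ : 0 < κ := by linarith
  have a0 : n * (C0 * (M0 * (1 - M0))) ≤ (κ - 1) * B0 :=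
    le_of_mul_le_mul_right (by linarith) hC0
  have a1 : n * (C1 * (M1 * (1 - M1))) ≤ κ * B1 := le_of_mul_le_mul_right (by linarith) hC1
  have a3 : M1 ≤ M0 := le_of_mul_le_mul_right (by linarith) (mul_pos hC0 hC1)
  have a4 : M0 ≤ 1 := le_of_mul_le_mul_right (by linarith) hC0
  have a5 : 0 ≤ M1 := le_of_mul_le_mul_right (by linarith) hC1
  have hV0 : 0 ≤ M0 * (1 - M0) := mul_nonneg (by linarith) (by linarith)
  have b0 : C0 * (M0 * (1 - M0)) ≤ B0 := by
    refine le_of_mul_le_mul_left ?_ hn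
    have := mul_le_mul_of_nonneg_right (show κ - 1 ≤ n by linarith) hB0
    linarith
  have b1 : (n + 1) * (C0 * (M0 * (1 - M0))) ≤ κ * B0 := by linarith
  have eS : (n + 1) * C0 = κ * (C1 + C0) := by
    rw [← hs]
    linarith
  have b2 : (C1 + C0) * (M0 * (1 - M0)) ≤ B0 := by
    refine le_of_mul_le_mul_left ?_ hκ
    have : κ * ((C1 + C0) * (M0 * (1 - M0))) = (n + 1) * (C0 * (M0 * (1 - M0))) := by
      rw [← mul_assoc, ← eS]
      ring
    linarith
  have b3 : C1 * (M0 * (1 - M0)) ≤ B0 := by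
    have := mul_nonneg hC0.le hV0
    linarith
  have hδ : 0 ≤ (M0 - M1) * (1 - (M0 - M1)) := mul_nonneg (by linarith) (by linarith)
  have b4 : M1 * (1 - M1) ≤ M0 * (1 - M0) + (M0 - M1) * (1 - (M0 - M1)) := by
    have := mul_nonneg (show 0 ≤ M0 - M1 by linarith) (show 0 ≤ 1 - M0 by linarith)
    linarith
  have b5 := mul_le_mul_of_nonneg_left b4 hC1.le
  have b6 : C1 * ((M0 - M1) * (1 - (M0 - M1))) ≤ κ * (C1 * ((M0 - M1) * (1 - (M0 - M1)))) :=
    le_mul_of_one_le_left (mul_nonneg hC1.le hδ) hk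
  have eD : κ * D0 = κ * (C1 * M0) + B0 := by
    have : c * (M0 * C0) = C0 * c * M0 := by ring
    rw [hD, this, e]
    ring
  have key : (n + 1) * (C0 * (M0 * (1 - M0))) + (n + 1) * (C1 * (M1 * (1 - M1))) +
      κ * (C1 * (M0 - M1) ^ 2) ≤ κ * (B0 + B1 + (D0 - M1 * C1)) := by
    linarith
  have k2 := mul_le_mul_of_nonneg_right key (add_pos hC1 hC0).le
  have k3 : (n + 1) * ((M0 * C0 + M1 * C1) * (C1 + C0 - (M0 * C0 + M1 * C1))) =
      ((n + 1) * (C0 * (M0 * (1 - M0))) + (n + 1) * (C1 * (M1 * (1 - M1)))) * (C1 + C0) +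
        (n + 1) * C0 * (C1 * (M0 - M1) ^ 2) := by ring
  rw [k3, eS]
  linarith

theorem fd2_big {G : Finset V} {c : ℕ} {J D : Finset (Finset V)} (h : Pair G c J D)
    (hc : #G ≤ c) : (#G : ℝ) * (#J * (((#G).choose c : ℝ) - #J)) ≤
      ((#G : ℝ) - c) * (exc G J D * ((#G).choose c : ℝ)) := by
  have h1 := ef2_le h
  rcases hc.lt_or_eq with hc | hc
  · rw [Nat.choose_eq_zero_of_lt hc] at h1 ⊢
    have h4 : #J = 0 := by omega
    rw [h4]
    simp
  · rw [hc, Nat.choose_self] at h1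
    rw [hc, Nat.choose_self]
    rcases (show #J = 0 ∨ #J = 1 by omega) with h4 | h4
    · rw [h4]
      simp
    · rw [h4]
      simp

theorem fd2_one {G : Finset V} {J D : Finset (Finset V)} (h : Pair G 1 J D) (hG : 1 ≤ #G) :
    (#G : ℝ) * (#J * (((#G).choose 1 : ℝ) - #J)) ≤
      ((#G : ℝ) - (1 : ℕ)) * (exc G J D * ((#G).choose 1 : ℝ)) := by
  have hG' : (1 : ℝ) ≤ #G := by exact_mod_cast hG
  have hB : (0 : ℝ) ≤ exc G J D := Nat.cast_nonneg _
  have h4 : (0 : ℝ) ≤ #G := Nat.cast_nonneg _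
  rw [Nat.choose_one_right]
  push_cast
  rcases J.eq_empty_or_nonempty with rfl | ⟨X, hX⟩
  · rw [card_empty, Nat.cast_zero, zero_mul, mul_zero]
    exact mul_nonneg (by linarith) (mul_nonneg hB h4)
  obtain ⟨i, hi⟩ : X.Nonempty := card_pos.1 (by rw [(mem_powersetCard.1 (h.hJ hX)).2]; omega)
  have h1 : (1 : ℝ) ≤ #D := by exact_mod_cast card_pos.2 ⟨_, h.sh X hX i hi⟩
  have h2 := pair_card h
  have h3 : #J ≤ #G := by
    have := ef2_le h
    rwa [Nat.choose_one_right] at this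
  push_cast at h2
  have h5 : (#G : ℝ) - #J ≤ exc G J D := by
    have := mul_le_mul_of_nonneg_left h1 h4
    linarith
  rcases h3.lt_or_eq with h3 | h3
  · have h6 : (#J : ℝ) + 1 ≤ #G := by exact_mod_cast h3
    have h7 : (#J : ℝ) * (#G - #J) ≤ (#G - 1) * exc G J D :=
      mul_le_mul (by linarith) h5 (by linarith) (by linarith)
    have h8 := mul_le_mul_of_nonneg_left h7 h4
    linarith
  · rw [h3, sub_self, mul_zero, mul_zero]
    exact mul_nonneg (by linarith) (mul_nonneg hB h4)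

theorem fd2_ind (n : ℕ) : ∀ {G : Finset V} {c : ℕ} {J D : Finset (Finset V)}, #G = n →
    Pair G c J D → (#G : ℝ) * (#J * (((#G).choose c : ℝ) - #J)) ≤
      ((#G : ℝ) - c) * (exc G J D * ((#G).choose c : ℝ)) := by
  induction n with
  | zero => exact fun hn h => fd2_big h (by omega)
  | succ n ih =>
    intro G c J D hn h
    by_cases hc : #G ≤ c
    · exact fd2_big h hc
    obtain ⟨k, rfl⟩ : ∃ k, c = k + 1 := ⟨c - 1, by have := h.pos; omega⟩
    rcases Nat.eq_zero_or_pos k with rfl | hk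
    · exact fd2_one h (by omega)
    obtain ⟨i, hi, hmin⟩ := exists_min_image G (deg J) (card_pos.1 (by omega))
    have hd : (n + 1) * deg J i ≤ (k + 1) * #J := by
      rw [← ef2_sum h.hJ, ← hn, ← smul_eq_mul]
      exact card_nsmul_le_sum _ _ _ hmin
    have hG : #(G \ {i}) = n := by
      rw [card_sdiff_of_subset (singleton_subset_iff.2 hi), card_singleton, hn]
      rfl
    have p0 : Pair (G \ {i}) (k + 1) (fib J {i} ∅) (fib D {i} ∅) :=
      pair_fib h (empty_subset _) (by rw [card_empty]; omega)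
    have p1 : Pair (G \ {i}) k (fib J {i} {i}) (fib D {i} {i}) :=
      pair_fib h subset_rfl (by rw [card_singleton]; omega)
    have i0 := ih hG p0
    have i1 := ih hG p1
    have l0 := ef2_le p0
    have c0 := pair_card p0
    have c1 := pair_card p1
    have c2 := pair_card h
    rw [← ef2_deg, ef2_split J i] at hd
    rw [hG] at i0 i1 l0 c0 c1
    rw [hn, ef2_split J i, ef2_split D i] at c2
    rw [hn, ef2_split J i, Nat.choose_succ_succ']
    have hkn : k < n := by omega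
    have hkn' : (k : ℝ) + 1 ≤ n := by exact_mod_cast hkn
    have hk0 : (0 : ℝ) ≤ k := Nat.cast_nonneg _
    have e : (n.choose (k + 1) : ℝ) * (k + 1) = n.choose k * (n - k) := by
      have := congrArg (Nat.cast (R := ℝ)) (Nat.choose_succ_right_eq n k)
      rw [Nat.cast_mul, Nat.cast_mul, Nat.cast_sub hkn.le] at this
      exact_mod_cast this
    have hC0 : (0 : ℝ) < n.choose (k + 1) := by exact_mod_cast Nat.choose_pos hkn
    have hC1 : (0 : ℝ) < n.choose k := by exact_mod_cast Nat.choose_pos hkn.le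
    have hd' : ((n : ℝ) + 1) * #(fib J {i} {i}) ≤
        (k + 1) * (#(fib J {i} ∅) + #(fib J {i} {i})) := by exact_mod_cast hd
    have hk' : (0 : ℝ) < k + 1 := by positivity
    have hB0 : (0 : ℝ) ≤ exc (G \ {i}) (fib J {i} ∅) (fib D {i} ∅) := Nat.cast_nonneg _
    push_cast at c0 c1 c2 i0 ⊢
    have eB : (exc G J D : ℝ) = exc (G \ {i}) (fib J {i} ∅) (fib D {i} ∅) +
        exc (G \ {i}) (fib J {i} {i}) (fib D {i} {i}) +
        ((#(fib D {i} ∅) : ℝ) - #(fib J {i} {i})) := by linarith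
    have e1 : (n : ℝ) + 1 - (k + 1) = n - k := by ring
    have e2 : (n : ℝ) - (k + 1) = n - k - 1 := by ring
    rw [eB, e1]
    rw [e2] at i0
    refine fd2_alg (c := (k : ℝ) + 1) hC0 hC1 (by linarith) (by linarith) hk'.le (by ring) e i0 i1
      (by linarith) (le_of_mul_le_mul_right ?_ hk') (by exact_mod_cast l0) (Nat.cast_nonneg _) hB0
    have a := mul_le_mul_of_nonneg_left (show ((n : ℝ) - k) * #(fib J {i} {i}) ≤
      (k + 1) * #(fib J {i} ∅) by linarith) hC1.le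
    rw [mul_assoc (#(fib J {i} {i}) : ℝ), e]
    linarith

/-- Spectral type lower bound for the excess, with the factor `n / (n - c)`. -/
theorem exc_ge_varU {G : Finset V} {c : ℕ} {J D : Finset (Finset V)} (h : Pair G c J D) :
    (#G : ℝ) * (#J * (((#G).choose c : ℝ) - #J)) ≤
      ((#G : ℝ) - c) * (exc G J D * ((#G).choose c : ℝ)) :=
  fd2_ind _ rfl h

end Pool.Agent.P.MP_4f3dfd_co.Ex
end

-- part Pool.Agent.P.MP_4f3dfd_co.FN1
section

set_option autoImplicit false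
set_option linter.unusedSectionVars false
set_option linter.unusedVariables false

namespace Pool.Agent.P.MP_4f3dfd_co.Ex

open Finset Real

variable {V : Type*} [DecidableEq V]

theorem fn1_step {q z m : ℕ} (hq : q ≤ z) (hz : z ≤ m) :
    ((m + 1).choose q : ℝ) * (1 - (q : ℝ) / ((z : ℝ) + 1)) ≤ m.choose q := by
  have hm : q ≤ m + 1 := by omega
  have e := Nat.choose_mul_succ_eq m q
  have e' : (m.choose q : ℝ) * ((m : ℝ) + 1) = ((m + 1).choose q : ℝ) * ((m : ℝ) + 1 - q) := by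
    have := congrArg (Nat.cast : ℕ → ℝ) e
    push_cast [Nat.cast_sub hm] at this
    exact this
  have hm1 : (0 : ℝ) < (m : ℝ) + 1 := by positivity
  have hz1 : (0 : ℝ) < (z : ℝ) + 1 := by positivity
  have hzm : (z : ℝ) + 1 ≤ (m : ℝ) + 1 := by
    have : (z : ℝ) ≤ m := by exact_mod_cast hz
    linarith
  have hc : (0 : ℝ) ≤ ((m + 1).choose q : ℝ) := by positivity
  have hq0 : (0 : ℝ) ≤ q := by positivity
  have hd : (q : ℝ) / ((m : ℝ) + 1) ≤ q / ((z : ℝ) + 1) := div_le_div_of_nonneg_left hq0 hz1 hzm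
  have e2 : (m.choose q : ℝ) = ((m + 1).choose q : ℝ) * (1 - q / ((m : ℝ) + 1)) := by
    field_simp
    linarith
  rw [e2]
  exact mul_le_mul_of_nonneg_left (by linarith) hc

theorem fn1_rho_pos {q z : ℕ} (hq : q ≤ z) : (0 : ℝ) < 1 - (q : ℝ) / ((z : ℝ) + 1) := by
  have hz1 : (0 : ℝ) < (z : ℝ) + 1 := by positivity
  have : (q : ℝ) ≤ z := by exact_mod_cast hq
  rw [sub_pos, div_lt_one hz1]; linarith

theorem fn1_ge {q z : ℕ} (hq : q ≤ z) (w : ℕ) :
    ((z + w).choose q : ℝ) * (1 - (q : ℝ) / ((z : ℝ) + 1)) ^ w ≤ z.choose q := by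
  have h0 := fn1_rho_pos hq
  induction w with
  | zero => simp
  | succ w ih =>
    have h2 := fn1_step (m := z + w) hq (by omega)
    calc ((z + (w + 1)).choose q : ℝ) * (1 - (q : ℝ) / ((z : ℝ) + 1)) ^ (w + 1)
        = (((z + w + 1).choose q : ℝ) * (1 - (q : ℝ) / ((z : ℝ) + 1))) *
            (1 - (q : ℝ) / ((z : ℝ) + 1)) ^ w := by rw [← add_assoc]; ring
      _ ≤ ((z + w).choose q : ℝ) * (1 - (q : ℝ) / ((z : ℝ) + 1)) ^ w :=
          mul_le_mul_of_nonneg_right h2 (pow_nonneg h0.le w)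
      _ ≤ z.choose q := ih

theorem fn1_log {q z N : ℕ} {Y : ℝ} (hq : q ≤ z) (hz : z ≤ N)
    (h : (z.choose q : ℝ) ≤ exp (-Y) * N.choose q) :
    ((N : ℝ) - z) * log (1 - (q : ℝ) / ((z : ℝ) + 1)) ≤ -Y := by
  obtain ⟨w, rfl⟩ := Nat.exists_eq_add_of_le hz
  have h0 := fn1_rho_pos hq
  have h1 := fn1_ge hq w
  have hC : (0 : ℝ) < ((z + w).choose q : ℝ) := by
    exact_mod_cast Nat.choose_pos (by omega)
  have h2 : (1 - (q : ℝ) / ((z : ℝ) + 1)) ^ w ≤ exp (-Y) := by
    have h3 := h1.trans h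
    rw [mul_comm (exp (-Y))] at h3
    exact le_of_mul_le_mul_left h3 hC
  have h4 := log_le_log (pow_pos h0 w) h2
  rw [log_exp, log_pow] at h4
  have e : (((z + w : ℕ) : ℝ) - z) = w := by push_cast; ring
  rw [e]; exact h4

/-- Log-concavity of `z ↦ C(z, q)`. -/
theorem decay {q z N s : ℕ} {Y : ℝ} (hz : z < N) (hs : s ≤ z)
    (h : (z.choose q : ℝ) ≤ exp (-Y) * N.choose q) :
    ((z - s).choose q : ℝ) ≤ exp (-(Y * s / ((N : ℝ) - z))) * z.choose q := by
  by_cases hq : q ≤ z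
  · have h0 := fn1_rho_pos hq
    have h1 := fn1_log hq hz.le h
    have h2 := choose_le_mul_pow (n := z + 1) (k := q) (z := z - s) (w := s) (by omega) (by omega)
      (by omega)
    rw [Nat.sub_add_cancel hs] at h2
    push_cast at h2
    have hN : (0 : ℝ) < (N : ℝ) - z := by
      have : (z : ℝ) < N := by exact_mod_cast hz
      linarith
    have hs0 : (0 : ℝ) ≤ s := by positivity
    have h3 : (1 - (q : ℝ) / ((z : ℝ) + 1)) ^ s ≤ exp (-(Y * s / ((N : ℝ) - z))) := by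
      rw [← exp_log (pow_pos h0 s), log_pow]
      apply exp_le_exp.2
      have h4 : log (1 - (q : ℝ) / ((z : ℝ) + 1)) ≤ -Y / ((N : ℝ) - z) := by
        rw [le_div_iff₀ hN]; linarith
      calc (s : ℝ) * log (1 - (q : ℝ) / ((z : ℝ) + 1)) ≤ s * (-Y / ((N : ℝ) - z)) :=
            mul_le_mul_of_nonneg_left h4 hs0
        _ = -(Y * s / ((N : ℝ) - z)) := by ring
    calc ((z - s).choose q : ℝ) ≤ z.choose q * (1 - (q : ℝ) / ((z : ℝ) + 1)) ^ s := h2
      _ ≤ z.choose q * exp (-(Y * s / ((N : ℝ) - z))) :=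
          mul_le_mul_of_nonneg_left h3 (by positivity)
      _ = _ := mul_comm _ _
  · have : (z - s).choose q = 0 := Nat.choose_eq_zero_of_lt (by omega)
    rw [this]
    push_cast
    positivity

theorem width_ge {q z N : ℕ} {Y : ℝ} (hq : q ≤ z) (hz : z ≤ N)
    (h : (z.choose q : ℝ) ≤ exp (-Y) * N.choose q) :
    Y ≤ ((N : ℝ) - z) * log (((z : ℝ) + 1) / ((z : ℝ) + 1 - q)) := by
  have h1 := fn1_log hq hz h
  have hz1 : (0 : ℝ) < (z : ℝ) + 1 := by positivity
  have e : ((z : ℝ) + 1) / ((z : ℝ) + 1 - q) = (1 - (q : ℝ) / ((z : ℝ) + 1))⁻¹ := by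
    rw [← inv_div]
    congr 1
    field_simp
  rw [e, log_inv]
  linarith

theorem width_leU {q z N : ℕ} {Y : ℝ} (hq : q < N) (hz : z ≤ N)
    (h : exp (-Y) * N.choose q ≤ (z.choose q : ℝ)) :
    ((N : ℝ) - z) * log (N / ((N : ℝ) - q)) ≤ Y := by
  obtain ⟨w, rfl⟩ := Nat.exists_eq_add_of_le hz
  have h2 := choose_le_mul_pow (n := z + w) (k := q) (z := z) (w := w) (by omega) hq.le le_rfl
  have hC : (0 : ℝ) < ((z + w).choose q : ℝ) := by
    exact_mod_cast Nat.choose_pos hq.le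
  have hN : (0 : ℝ) < ((z + w : ℕ) : ℝ) := by
    have : 0 < z + w := by omega
    exact_mod_cast this
  have hqN : (q : ℝ) < ((z + w : ℕ) : ℝ) := by exact_mod_cast hq
  have h3 : exp (-Y) ≤ (1 - (q : ℝ) / ((z + w : ℕ) : ℝ)) ^ w := by
    have h4 := h.trans h2
    rw [mul_comm (exp (-Y))] at h4
    exact le_of_mul_le_mul_left h4 hC
  have h4 := log_le_log (exp_pos _) h3
  rw [log_exp, log_pow] at h4
  have e : (((z + w : ℕ) : ℝ) - z) = w := by push_cast; ring
  have e2 : ((z + w : ℕ) : ℝ) / (((z + w : ℕ) : ℝ) - q) =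
      (1 - (q : ℝ) / ((z + w : ℕ) : ℝ))⁻¹ := by
    rw [← inv_div]
    congr 1
    field_simp
  rw [e, e2, log_inv]
  linarith

end Pool.Agent.P.MP_4f3dfd_co.Ex
end

-- part Pool.Agent.P.MP_4f3dfd_co.FN2
section

set_option autoImplicit false
set_option linter.unusedSectionVars false
set_option linter.unusedVariables false

namespace Pool.Agent.P.MP_4f3dfd_co.Ex

open Finset Real

variable {V : Type*} [DecidableEq V]

theorem fn2_step (q j : ℕ) :
    (q + j + 1).choose q * (j + 1) = (q + j).choose q * (q + j + 1) := by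
  have h := Nat.choose_mul_succ_eq (q + j) q
  have e : q + j + 1 - q = j + 1 := by omega
  rw [e] at h
  exact h.symm

theorem grow {q t : ℕ} (s : ℕ) (ht : 1 ≤ t) :
    (1 + (q : ℝ) * s / (t + s)) * (q + t - 1).choose q ≤ (q + t - 1 + s).choose q := by
  obtain ⟨u, rfl⟩ : ∃ u, t = u + 1 := ⟨t - 1, by omega⟩
  have e0 : q + (u + 1) - 1 = q + u := by omega
  rw [e0]
  induction s with
  | zero => simp
  | succ s ih =>
    have h := fn2_step q (u + s)
    have e1 : q + u + (s + 1) = q + (u + s) + 1 := by omega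
    have e2 : q + u + s = q + (u + s) := by omega
    rw [e1]
    rw [e2] at ih
    have h' : ((q + (u + s) + 1).choose q : ℝ) * ((u : ℝ) + s + 1) =
        ((q + (u + s)).choose q : ℝ) * ((q : ℝ) + (u + s) + 1) := by exact_mod_cast h
    have hp : (0 : ℝ) < (u : ℝ) + s + 1 := by positivity
    have hq : (0 : ℝ) ≤ q := Nat.cast_nonneg q
    have hs : (0 : ℝ) ≤ s := Nat.cast_nonneg s
    have hA : (0 : ℝ) ≤ ((q + u).choose q : ℝ) := Nat.cast_nonneg _
    have e3 : ((q + (u + s) + 1).choose q : ℝ) =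
        ((q + (u + s)).choose q : ℝ) * (1 + q / ((u : ℝ) + s + 1)) := by
      field_simp
      linarith
    have ih' : (1 + (q : ℝ) * s / ((u : ℝ) + s + 1)) * ((q + u).choose q : ℝ) ≤
        ((q + (u + s)).choose q : ℝ) := by
      have e4 : ((u + 1 : ℕ) : ℝ) + s = (u : ℝ) + s + 1 := by push_cast; ring
      rw [e4] at ih
      exact ih
    have h5 : (q : ℝ) * ((s + 1 : ℕ) : ℝ) / (((u + 1 : ℕ) : ℝ) + ((s + 1 : ℕ) : ℝ)) ≤
        (q : ℝ) * s / ((u : ℝ) + s + 1) + q / ((u : ℝ) + s + 1) := by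
      rw [← add_div]
      push_cast
      have e5 : (q : ℝ) * s + q = q * (s + 1) := by ring
      rw [e5]
      exact div_le_div_of_nonneg_left (by positivity) hp (by linarith)
    have h6 : (0 : ℝ) ≤ (q : ℝ) * s / ((u : ℝ) + s + 1) := by positivity
    have h7 : (0 : ℝ) ≤ (q : ℝ) / ((u : ℝ) + s + 1) := by positivity
    rw [e3]
    calc (1 + (q : ℝ) * ((s + 1 : ℕ) : ℝ) / (((u + 1 : ℕ) : ℝ) + ((s + 1 : ℕ) : ℝ))) *
          ((q + u).choose q : ℝ)
        ≤ ((1 + (q : ℝ) * s / ((u : ℝ) + s + 1)) * (1 + q / ((u : ℝ) + s + 1))) *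
          ((q + u).choose q : ℝ) := by
          refine mul_le_mul_of_nonneg_right ?_ hA
          nlinarith [mul_nonneg h6 h7]
      _ = ((1 + (q : ℝ) * s / ((u : ℝ) + s + 1)) * ((q + u).choose q : ℝ)) *
          (1 + q / ((u : ℝ) + s + 1)) := by ring
      _ ≤ _ := mul_le_mul_of_nonneg_right ih' (by linarith)

theorem choose_le_succ_pow (q j : ℕ) : (q + j).choose q ≤ (q + 1) ^ j := by
  induction j with
  | zero => simp
  | succ j ih =>
    have h := fn2_step q j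
    have h1 : (q + j + 1).choose q * (j + 1) ≤ (q + 1) ^ (j + 1) * (j + 1) := by
      rw [h, pow_succ, mul_assoc]
      exact Nat.mul_le_mul ih (by nlinarith [Nat.zero_le (q * j)])
    exact Nat.le_of_mul_le_mul_right h1 (Nat.succ_pos j)

theorem fn2_four (M : ℕ) : 24 * (M + 4).choose 4 = (M + 1) * (M + 2) * (M + 3) * (M + 4) := by
  have h := Nat.descFactorial_eq_factorial_mul_choose (M + 4) 4
  have e : Nat.factorial 4 = 24 := by decide
  rw [e] at h
  rw [← h]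
  simp only [Nat.descFactorial_succ, Nat.descFactorial_zero]
  have e1 : M + 4 - 3 = M + 1 := by omega
  have e2 : M + 4 - 2 = M + 2 := by omega
  have e3 : M + 4 - 1 = M + 3 := by omega
  have e4 : M + 4 - 0 = M + 4 := by omega
  rw [e1, e2, e3, e4]
  ring

theorem fn2_five (M : ℕ) :
    120 * (M + 5).choose 5 = (M + 1) * (M + 2) * (M + 3) * (M + 4) * (M + 5) := by
  have h := Nat.descFactorial_eq_factorial_mul_choose (M + 5) 5
  have e : Nat.factorial 5 = 120 := by decide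
  rw [e] at h
  rw [← h]
  simp only [Nat.descFactorial_succ, Nat.descFactorial_zero]
  have e0 : M + 5 - 4 = M + 1 := by omega
  have e1 : M + 5 - 3 = M + 2 := by omega
  have e2 : M + 5 - 2 = M + 3 := by omega
  have e3 : M + 5 - 1 = M + 4 := by omega
  have e4 : M + 5 - 0 = M + 5 := by omega
  rw [e0, e1, e2, e3, e4]
  ring

theorem err_base {q τ : ℕ} (hq : 1 ≤ q) (hτ : 4 ≤ τ) :
    (q + 1) ^ 3 * (q + τ) ≤ 64 * (q + τ).choose q := by
  rcases le_or_gt q 3 with h3 | h3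
  · have h1 : (q + τ).choose 1 ≤ (q + τ).choose q := Off.choose_mid hq (by omega)
    rw [Nat.choose_one_right] at h1
    have h2 : (q + 1) ^ 3 ≤ 4 ^ 3 := Nat.pow_le_pow_left (by omega) 3
    exact Nat.mul_le_mul (by simpa using h2) h1
  · have h1 : (q + τ).choose 4 ≤ (q + τ).choose q := Off.choose_mid h3 (by omega)
    obtain ⟨M, hM⟩ : ∃ M, q + τ = M + 4 := ⟨q + τ - 4, by omega⟩
    have h4 := fn2_four M
    rw [hM] at h1 ⊢
    have h5 : (q + 1) ^ 3 ≤ (M + 1) ^ 3 := Nat.pow_le_pow_left (by omega) 3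
    have h6 : (M + 1) ^ 3 ≤ (M + 1) * (M + 2) * (M + 3) := by
      rw [pow_succ, pow_two]
      exact Nat.mul_le_mul (Nat.mul_le_mul le_rfl (by omega)) (by omega)
    have h7 : (q + 1) ^ 3 * (M + 4) ≤ (M + 1) * (M + 2) * (M + 3) * (M + 4) :=
      Nat.mul_le_mul (h5.trans h6) le_rfl
    omega

theorem err_five {q τ : ℕ} (hq : 5 ≤ q) (hτ : 5 ≤ τ) : (q + τ) ^ 5 ≤ 1000 * (q + τ).choose q := by
  have h1 : (q + τ).choose 5 ≤ (q + τ).choose q := Off.choose_mid hq (by omega)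
  obtain ⟨M, hM⟩ : ∃ M, q + τ = M + 5 := ⟨q + τ - 5, by omega⟩
  have hM5 : 5 ≤ M := by omega
  have h4 := fn2_five M
  rw [hM] at h1 ⊢
  have a1 : 6 * (M + 5) ≤ 10 * (M + 1) := by omega
  have a2 : 7 * (M + 5) ≤ 10 * (M + 2) := by omega
  have a3 : 8 * (M + 5) ≤ 10 * (M + 3) := by omega
  have a4 : 9 * (M + 5) ≤ 10 * (M + 4) := by omega
  have a5 := Nat.mul_le_mul (Nat.mul_le_mul (Nat.mul_le_mul (Nat.mul_le_mul a1 a2) a3) a4)
    (le_refl (M + 5))
  have e1 : 6 * (M + 5) * (7 * (M + 5)) * (8 * (M + 5)) * (9 * (M + 5)) * (M + 5) =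
      3024 * (M + 5) ^ 5 := by ring
  have e2 : 10 * (M + 1) * (10 * (M + 2)) * (10 * (M + 3)) * (10 * (M + 4)) * (M + 5) =
      10000 * ((M + 1) * (M + 2) * (M + 3) * (M + 4) * (M + 5)) := by ring
  rw [e1, e2, ← h4] at a5
  omega

theorem sparse_num (K0 : ℕ) : ∃ K : ℝ, 0 < K ∧ ∀ n c d x : ℕ, 2 ≤ c → c ≤ K0 → 1 ≤ d → x < n →
    2 * c ≤ x → (x - 1).choose (c - 1) ≤ d → K ≤ lg n c d → K0 * x ≤ n := by
  have hP : (1 : ℝ) < (((2 * K0) ^ K0 + 2 : ℕ) : ℝ) := by
    exact_mod_cast (by omega : 1 < (2 * K0) ^ K0 + 2)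
  refine ⟨log (((2 * K0) ^ K0 + 2 : ℕ) : ℝ), log_pos hP, ?_⟩
  intro n c d x hc hcK hd hx h2 hlo hK
  by_contra hh
  have hh : n < K0 * x := not_le.1 hh
  obtain ⟨q, rfl⟩ : ∃ q, c = q + 1 := ⟨c - 1, by omega⟩
  unfold lg at hK
  simp only [Nat.add_sub_cancel] at hlo hK
  have hd' : (0 : ℝ) < d := by exact_mod_cast hd
  have hC : 0 < (n - 1).choose q := Nat.choose_pos (by omega)
  have hC' : (0 : ℝ) < ((n - 1).choose q : ℝ) := by exact_mod_cast hC
  have h3 := (log_le_log_iff (by linarith) (div_pos hC' hd')).1 hK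
  rw [le_div_iff₀ hd'] at h3
  have h4 : ((2 * K0) ^ K0 + 2) * d ≤ (n - 1).choose q := by exact_mod_cast h3
  have h5 : (x - 1 + 1 - q) ^ q ≤ (x - 1).descFactorial q := Nat.pow_sub_le_descFactorial _ _
  have h6 : (n - 1).descFactorial q ≤ (n - 1) ^ q := Nat.descFactorial_le_pow _ _
  rw [Nat.descFactorial_eq_factorial_mul_choose] at h5 h6
  obtain ⟨y, hy⟩ : ∃ y, x - 1 + 1 - q = y := ⟨_, rfl⟩
  rw [hy] at h5
  have hy0 : 0 < y := by omega
  have hy2 : x ≤ 2 * y := by omega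
  have h7 : n - 1 ≤ 2 * K0 * y := by
    have := Nat.mul_le_mul_left K0 hy2
    have e : K0 * (2 * y) = 2 * K0 * y := by ring
    omega
  have h8 : (n - 1) ^ q ≤ (2 * K0) ^ K0 * y ^ q := by
    refine (Nat.pow_le_pow_left h7 q).trans ?_
    rw [mul_pow]
    exact Nat.mul_le_mul_right _ (Nat.pow_le_pow_right (by omega) (by omega))
  have h9 : ((2 * K0) ^ K0 + 2) * y ^ q ≤ (2 * K0) ^ K0 * y ^ q := by
    calc ((2 * K0) ^ K0 + 2) * y ^ q ≤ ((2 * K0) ^ K0 + 2) * (q.factorial * d) :=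
          Nat.mul_le_mul_left _ (h5.trans (Nat.mul_le_mul_left _ hlo))
      _ = q.factorial * (((2 * K0) ^ K0 + 2) * d) := by ring
      _ ≤ q.factorial * (n - 1).choose q := Nat.mul_le_mul_left _ h4
      _ ≤ _ := h6.trans h8
  have h10 := Nat.le_of_mul_le_mul_right h9 (pow_pos hy0 q)
  omega

end Pool.Agent.P.MP_4f3dfd_co.Ex
end

-- part Pool.Agent.P.MP_4f3dfd_co.FT1
section

set_option autoImplicit false
set_option linter.unusedSectionVars false
set_option linter.unusedVariables false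

namespace Pool.Agent.P.MP_4f3dfd_co.Ex

open Finset Real
open scoped Pointwise

variable {n : ℕ} [NeZero n]

theorem ft1_choose {N l r : ℕ} (hN : 0 < N) (hl : l ≤ N) (j : ℕ) (hj : r + j ≤ l) :
    ((N - (r + j)).choose (l - (r + j)) : ℝ) ≤ (N - r).choose (l - r) * ((l : ℝ) / N) ^ j := by
  induction j with
  | zero => simp
  | succ j ih =>
    have ih := ih (by omega)
    obtain ⟨p, hp⟩ : ∃ p, l = r + j + 1 + p := ⟨l - (r + j + 1), by omega⟩
    obtain ⟨q, hq⟩ : ∃ q, N = r + j + 1 + q := ⟨N - (r + j + 1), by omega⟩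
    have e1 : N - (r + (j + 1)) = q := by omega
    have e2 : l - (r + (j + 1)) = p := by omega
    have e3 : N - (r + j) = q + 1 := by omega
    have e4 : l - (r + j) = p + 1 := by omega
    rw [e3, e4] at ih
    rw [e1, e2]
    have key : ((q : ℝ) + 1) * q.choose p = (q + 1).choose (p + 1) * ((p : ℝ) + 1) := by
      exact_mod_cast Nat.add_one_mul_choose_eq q p
    have hN' : (0 : ℝ) < N := by exact_mod_cast hN
    have hq1 : (0 : ℝ) < (q : ℝ) + 1 := by positivity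
    have hpq : (p : ℝ) ≤ q := by exact_mod_cast (by omega : p ≤ q)
    have hlR : (l : ℝ) = (r + j : ℕ) + (p + 1) := by rw [hp]; push_cast; ring
    have hNR : (N : ℝ) = (r + j : ℕ) + (q + 1) := by rw [hq]; push_cast; ring
    have ha : (0 : ℝ) ≤ (r + j : ℕ) := Nat.cast_nonneg _
    have hfrac : ((p : ℝ) + 1) / ((q : ℝ) + 1) ≤ (l : ℝ) / N := by
      rw [div_le_div_iff₀ hq1 hN', hlR, hNR]
      nlinarith [mul_le_mul_of_nonneg_left hpq ha]
    have e5 : (q.choose p : ℝ) = (q + 1).choose (p + 1) * (((p : ℝ) + 1) / ((q : ℝ) + 1)) := by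
      rw [← mul_div_assoc, eq_div_iff hq1.ne', ← key]; ring
    rw [e5, pow_succ, ← mul_assoc]
    exact mul_le_mul ih hfrac (by positivity) (by positivity)

theorem ft1_count {l : ℕ} (U : Finset (Fin n)) :
    #{X ∈ powersetCard l (univ : Finset (Fin n)) | U ⊆ X} ≤ (n - #U).choose (l - #U) := by
  have h : #(powersetCard (l - #U) ((univ : Finset (Fin n)) \ U)) = (n - #U).choose (l - #U) := by
    rw [card_powersetCard, card_sdiff_of_subset (subset_univ U), card_univ, Fintype.card_fin]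
  rw [← h]
  refine card_le_card_of_injOn (fun X => X \ U) ?_ ?_
  · intro X hX
    rw [mem_coe, mem_filter, mem_powersetCard] at hX
    rw [mem_coe, mem_powersetCard]
    exact ⟨sdiff_subset_sdiff (subset_univ X) Subset.rfl, by
      rw [card_sdiff_of_subset hX.2, hX.1.2]⟩
  · intro X hX Y hY hXY
    rw [mem_coe, mem_filter] at hX hY
    have hXY' : X \ U = Y \ U := hXY
    rw [← sdiff_union_of_subset hX.2, ← sdiff_union_of_subset hY.2, hXY']

theorem supersets_le {l r j : ℕ} (hr : r ≤ l) (hl : l ≤ n) (U : Finset (Fin n))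
    (hU : r + j ≤ #U) : (#{X ∈ powersetCard l (univ : Finset (Fin n)) | U ⊆ X} : ℝ) ≤
      (n - r).choose (l - r) * ((l : ℝ) / n) ^ j := by
  have hn : 0 < n := Nat.pos_of_ne_zero (NeZero.ne n)
  by_cases hj : r + j ≤ l
  · obtain ⟨U', hU', hc⟩ := exists_subset_card_eq hU
    have h1 : #{X ∈ powersetCard l (univ : Finset (Fin n)) | U ⊆ X} ≤
        #{X ∈ powersetCard l (univ : Finset (Fin n)) | U' ⊆ X} := by
      refine card_le_card ?_
      intro X hX
      rw [mem_filter] at hX ⊢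
      exact ⟨hX.1, hU'.trans hX.2⟩
    have h2 := ft1_count (l := l) U'
    rw [hc] at h2
    refine le_trans ?_ (ft1_choose hn hl j hj)
    exact_mod_cast h1.trans h2
  · have h0 : {X ∈ powersetCard l (univ : Finset (Fin n)) | U ⊆ X} = ∅ := by
      refine filter_eq_empty_iff.2 ?_
      intro X hX hUX
      have := card_le_card hUX
      rw [(mem_powersetCard.1 hX).2] at this
      omega
    rw [h0, card_empty, Nat.cast_zero]
    positivity

theorem hits_le (r : ℕ) (X : Finset (Fin n)) : #(hits r X) ≤ n * (#X).choose r := by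
  have h : hits r X ⊆ ((univ : Finset (Fin n)) ×ˢ powersetCard r X).image
      fun z : Fin n × Finset (Fin n) => (-z.1) +ᵥ z.2 := by
    intro P hP
    unfold hits at hP
    rw [mem_filter, mem_powersetCard] at hP
    obtain ⟨⟨_, hc⟩, s, hs⟩ := hP
    refine mem_image.2 ⟨(s, s +ᵥ P), ?_, neg_vadd_vadd s P⟩
    rw [mem_product, mem_powersetCard]
    exact ⟨mem_univ _, hs, by rw [card_vadd_finset, hc]⟩
  refine (card_le_card h).trans (card_image_le.trans ?_)
  rw [card_product, card_univ, Fintype.card_fin, card_powersetCard]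

theorem hits_ge (r : ℕ) (X : Finset (Fin n)) :
    n * (#X).choose r ≤ #(hits r X) + n * ov r X := by
  have h1 := card_filter_add_card_filter_not (s := powersetCard r X)
    (fun P => ∃ s : Fin n, s ≠ 0 ∧ s +ᵥ P ⊆ X)
  rw [card_powersetCard] at h1
  have h2 : #((univ : Finset (Fin n)) ×ˢ
      {P ∈ powersetCard r X | ¬ ∃ s : Fin n, s ≠ 0 ∧ s +ᵥ P ⊆ X}) ≤ #(hits r X) := by
    refine card_le_card_of_injOn (fun z : Fin n × Finset (Fin n) => z.1 +ᵥ z.2) ?_ ?_
    · rintro ⟨s, Q⟩ hz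
      rw [mem_coe, mem_product, mem_filter, mem_powersetCard] at hz
      obtain ⟨_, ⟨hQ, hc⟩, _⟩ := hz
      unfold hits
      rw [mem_coe, mem_filter, mem_powersetCard]
      refine ⟨⟨subset_univ _, by rw [card_vadd_finset]; exact hc⟩, -s, ?_⟩
      rw [neg_vadd_vadd]
      exact hQ
    · rintro ⟨s, Q⟩ hz ⟨s', Q'⟩ hz' he
      rw [mem_coe, mem_product, mem_filter, mem_powersetCard] at hz hz'
      have he' : s +ᵥ Q = s' +ᵥ Q' := he
      have hQ' : (-s' + s) +ᵥ Q = Q' := by rw [add_vadd, he', neg_vadd_vadd]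
      have hs : -s' + s = 0 := by
        by_contra hne
        exact hz.2.2 ⟨-s' + s, hne, by rw [hQ']; exact hz'.2.1.1⟩
      rw [hs, zero_vadd] at hQ'
      have hss : s = s' := (neg_add_eq_zero.1 hs).symm
      exact Prod.ext hss hQ'
  rw [card_product, card_univ, Fintype.card_fin] at h2
  unfold ov
  rw [← h1, mul_add]
  omega

end Pool.Agent.P.MP_4f3dfd_co.Ex
end

-- part Pool.Agent.P.MP_4f3dfd_co.FT3
section

set_option autoImplicit false
set_option linter.unusedSectionVars false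
set_option linter.unusedVariables false

namespace Pool.Agent.P.MP_4f3dfd_co.Ex

open Finset Real
open scoped Pointwise

variable {n : ℕ} [NeZero n]

theorem ft3_greedy {s : Fin n} (hs : s ≠ 0) (k : ℕ) : ∀ I : Finset (Fin n), 3 * k ≤ #I →
    ∃ F ⊆ I, #F = k ∧ ∀ a ∈ F, ∀ b ∈ F, a ≠ s + b := by
  induction k with
  | zero => intro I _; exact ⟨∅, empty_subset _, rfl, by simp⟩
  | succ k ih =>
    intro I hI
    obtain ⟨f, hf⟩ : I.Nonempty := card_pos.1 (by omega)
    have h3 : #({f, s + f, f - s} : Finset (Fin n)) ≤ 3 := card_le_three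
    have h4 : 3 * k ≤ #(I \ {f, s + f, f - s}) := by
      have := le_card_sdiff ({f, s + f, f - s} : Finset (Fin n)) I
      omega
    obtain ⟨F, hF, hc, hp⟩ := ih _ h4
    have hn : ∀ x ∈ F, x ≠ f ∧ x ≠ s + f ∧ x ≠ f - s := by
      intro x hx
      have := (mem_sdiff.1 (hF hx)).2
      simpa only [mem_insert, mem_singleton, not_or] using this
    have hfF : f ∉ F := fun h => (hn f h).1 rfl
    refine ⟨insert f F, ?_, by rw [card_insert_of_notMem hfF, hc], ?_⟩
    · exact insert_subset hf (hF.trans sdiff_subset)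
    · intro a ha b hb
      rcases mem_insert.1 ha with rfl | ha'
      · rcases mem_insert.1 hb with rfl | hb'
        · intro h
          exact hs (by simpa using h)
        · intro h
          exact (hn b hb').2.2 (by rw [h]; abel)
      · rcases mem_insert.1 hb with rfl | hb'
        · exact (hn a ha').2.1
        · exact hp a ha' b hb'

theorem ft3_count {ρ : ℕ} {s : Fin n} (hs : s ≠ 0) :
    #{P ∈ powersetCard (6 * ρ) (univ : Finset (Fin n)) | 3 * ρ ≤ #(P ∩ (s +ᵥ P))} ≤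
      n.choose (5 * ρ) * (5 * ρ).choose ρ := by
  have hsub : {P ∈ powersetCard (6 * ρ) (univ : Finset (Fin n)) | 3 * ρ ≤ #(P ∩ (s +ᵥ P))} ⊆
      (powersetCard (5 * ρ) (univ : Finset (Fin n))).biUnion
        fun R => (powersetCard ρ (s +ᵥ R)).image fun F => R ∪ F := by
    intro P hP
    obtain ⟨hP1, hP2⟩ := mem_filter.1 hP
    have hPc : #P = 6 * ρ := (mem_powersetCard.1 hP1).2
    obtain ⟨F, hF, hc, hp⟩ := ft3_greedy hs ρ _ hP2
    have hFP : F ⊆ P := hF.trans inter_subset_left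
    refine mem_biUnion.2 ⟨P \ F, mem_powersetCard.2 ⟨subset_univ _, ?_⟩,
      mem_image.2 ⟨F, mem_powersetCard.2 ⟨?_, hc⟩, sdiff_union_of_subset hFP⟩⟩
    · rw [card_sdiff_of_subset hFP]; omega
    · intro f hf
      obtain ⟨p, hp1, hp2⟩ := mem_vadd_finset.1 (mem_inter.1 (hF hf)).2
      refine mem_vadd_finset.2 ⟨p, mem_sdiff.2 ⟨hp1, fun h => hp f hf p h ?_⟩, hp2⟩
      rw [← hp2, vadd_eq_add]
  refine (card_le_card hsub).trans (card_biUnion_le.trans ?_)
  refine (sum_le_card_nsmul _ _ ((5 * ρ).choose ρ) ?_).trans ?_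
  · intro R hR
    refine card_image_le.trans ?_
    rw [card_powersetCard, card_vadd_finset, (mem_powersetCard.1 hR).2]
  · rw [card_powersetCard, card_univ, Fintype.card_fin, smul_eq_mul]

theorem ft3_choose {ρ : ℕ} (h : 12 * ρ ≤ n) (j : ℕ) (hj : j ≤ 6 * ρ) :
    (n.choose (6 * ρ - j) : ℝ) ≤ n.choose (6 * ρ) * (12 * ρ / n) ^ j := by
  have hn : (0 : ℝ) < n := by exact_mod_cast Nat.pos_of_ne_zero (NeZero.ne n)
  induction j with
  | zero => simp
  | succ j ih =>
    have ih := ih (by omega)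
    obtain ⟨i, hi⟩ : ∃ i, 6 * ρ - (j + 1) = i := ⟨_, rfl⟩
    have e : 6 * ρ - j = i + 1 := by omega
    rw [hi]
    rw [e] at ih
    have h1 : (n.choose (i + 1) : ℝ) * (i + 1) = n.choose i * ((n : ℝ) - i) := by
      have := Nat.choose_succ_right_eq n i
      have h2 : i ≤ n := by omega
      exact_mod_cast (by rw [← Nat.cast_sub h2]; exact_mod_cast this :
        (n.choose (i + 1) : ℝ) * (i + 1) = n.choose i * ((n : ℝ) - i))
    have h2 : (i : ℝ) + 1 ≤ 6 * ρ := by exact_mod_cast (by omega : i + 1 ≤ 6 * ρ)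
    have h3 : (12 : ℝ) * ρ ≤ n := by exact_mod_cast h
    have h4 : (n.choose i : ℝ) ≤ n.choose (i + 1) * (12 * ρ / n) := by
      rw [← mul_div_assoc, le_div_iff₀ hn]
      have a0 : (0 : ℝ) ≤ n.choose i := Nat.cast_nonneg _
      have a1 : (0 : ℝ) ≤ n.choose (i + 1) := Nat.cast_nonneg _
      have b1 : (n.choose i : ℝ) * n ≤ n.choose i * (2 * ((n : ℝ) - i)) :=
        mul_le_mul_of_nonneg_left (by linarith) a0
      have b2 : (n.choose (i + 1) : ℝ) * (2 * ((i : ℝ) + 1)) ≤ n.choose (i + 1) * (12 * ρ) :=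
        mul_le_mul_of_nonneg_left (by linarith) a1
      linarith
    calc (n.choose i : ℝ) ≤ n.choose (i + 1) * (12 * ρ / n) := h4
      _ ≤ n.choose (6 * ρ) * (12 * ρ / n) ^ j * (12 * ρ / n) :=
        mul_le_mul_of_nonneg_right ih (by positivity)
      _ = _ := by rw [pow_succ, mul_assoc]

/-- Few sets overlap much with a fixed translate of themselves. -/
theorem few_overlap {ρ : ℕ} (h : 12 * ρ ≤ n) {s : Fin n} (hs : s ≠ 0) :
    (#{P ∈ powersetCard (6 * ρ) (univ : Finset (Fin n)) | 3 * ρ ≤ #(P ∩ (s +ᵥ P))} : ℝ) ≤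
      n.choose (6 * ρ) * (2 * ((6 * ρ : ℕ) : ℝ) ^ 2 / n) ^ ρ := by
  have hn : (0 : ℝ) < n := by exact_mod_cast Nat.pos_of_ne_zero (NeZero.ne n)
  have h1 : (#{P ∈ powersetCard (6 * ρ) (univ : Finset (Fin n)) | 3 * ρ ≤ #(P ∩ (s +ᵥ P))} : ℝ) ≤
      n.choose (5 * ρ) * (5 * ρ).choose ρ := by exact_mod_cast ft3_count (ρ := ρ) hs
  have h2 := ft3_choose h ρ (by omega)
  rw [show 6 * ρ - ρ = 5 * ρ by omega] at h2
  have h3 : ((5 * ρ).choose ρ : ℝ) ≤ (6 * ρ : ℝ) ^ ρ := by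
    have : (5 * ρ).choose ρ ≤ (6 * ρ) ^ ρ :=
      (Nat.choose_le_pow _ _).trans (Nat.pow_le_pow_left (by omega) _)
    exact_mod_cast this
  refine h1.trans ((mul_le_mul h2 h3 (Nat.cast_nonneg _) (by positivity)).trans (le_of_eq ?_))
  rw [mul_assoc, ← mul_pow]
  congr 2
  push_cast
  ring

end Pool.Agent.P.MP_4f3dfd_co.Ex
end

-- part Pool.Agent.P.MP_4f3dfd_co.EU3
section

set_option autoImplicit false
set_option linter.unusedSectionVars false
set_option linter.unusedVariables false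

namespace Pool.Agent.P.MP_4f3dfd_co.Ex

open Finset Real

variable {V : Type*} [DecidableEq V]

theorem eu3_core {n c m : ℕ} (hcn : c ≤ n) {T D : Finset (Finset (Fin n))} (h : Pair univ c T D)
    {d : ℕ} (hd : ∀ i, deg T i = d) (hm0 : 1 ≤ m) (hm : m ≤ #T) (hdvd : n ∣ c * m) :
    ∃ J : Finset (Finset (Fin n)), Reg n c m J ∧ ex n c m #(shadow J) ≤
      c * ((#T : ℝ) - m) + exc univ T D + (n : ℝ) ^ 4 := by
  obtain ⟨J, hJ, hs⟩ := round h hd hm0 hm hdvd
  refine ⟨J, hJ, ?_⟩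
  have hp := pair_card h
  rw [card_univ, Fintype.card_fin] at hp
  have hc1 : (1 : ℝ) ≤ c := by exact_mod_cast h.pos
  have hcn' : (c : ℝ) ≤ n := by exact_mod_cast hcn
  have hs' : ((#(shadow J) : ℕ) : ℝ) ≤ #D + c * (c * n) := by exact_mod_cast hs
  have h0 : (0 : ℝ) ≤ (n : ℝ) - c + 1 := by linarith
  have h1 := mul_le_mul_of_nonneg_left hs' h0
  have h2 : ((n : ℝ) - c + 1) * (c * (c * n)) ≤ (n : ℝ) ^ 4 := by
    have : ((n : ℝ) - c + 1) * (c * (c * n)) ≤ n * (n * (n * n)) := by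
      gcongr
      linarith
    calc _ ≤ _ := this
      _ = _ := by ring
  unfold ex
  nlinarith

theorem upper_lo_raw {n c m y1 y2 : ℕ} (hc : 1 ≤ c) (h1 : c ≤ y2) (h2 : y2 ≤ y1) (h3 : y1 ≤ n)
    (hm0 : 1 ≤ m) (hm : m + n * y2.choose c ≤ n.choose c) (hdvd : n ∣ c * m) :
    ∃ J : Finset (Finset (Fin n)), Reg n c m J ∧ ex n c m #(shadow J) ≤
      c * (n * y2.choose c) +
        ((n : ℝ) - y1) * (c * (m + n * y2.choose c) / ((y1 : ℝ) - c + 1)) +
        ((n : ℝ) - y2) * (n * y1.choose (c - 1)) + (n : ℝ) ^ 4 := by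
  have hcn : c ≤ n := by omega
  have : NeZero n := ⟨by omega⟩
  obtain ⟨C1, C2, B0, a1, a0, a2, t1, t2⟩ := chain2 (n := n) h1 h2 h3 hm
  obtain ⟨d, hd⟩ := reg_cl c (C1 ∪ C2)
  obtain ⟨J, hJ, hb⟩ := eu3_core hcn (pair_cl hc (C1 ∪ C2)) hd hm0 (by omega) hdvd
  refine ⟨J, hJ, hb.trans ?_⟩
  have e1 := exc_cl hc C1 C2 B0 a1 a0 a2
  have e2 := card_cl_pred hc C1 a1
  have e3 : #(Asy.cl c C1) ≤ #(Asy.cl c (C1 ∪ C2)) := card_le_card (cl_mono c subset_union_left)
  have hy2 : y2 ≤ n := h2.trans h3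
  have e1' : (exc univ (Asy.cl c (C1 ∪ C2)) (Asy.cl (c - 1) (C1 ∪ C2)) : ℝ) ≤
      ((n : ℝ) - y1) * #(Asy.cl (c - 1) C1) + ((n : ℝ) - y2) * (n * y1.choose (c - 1)) := by
    rw [← Nat.cast_sub h3, ← Nat.cast_sub hy2]
    exact_mod_cast e1
  have e4 : #(Asy.cl (c - 1) C1) * (y1 + 1 - c) ≤ c * (m + n * y2.choose c) :=
    e2.trans (Nat.mul_le_mul_left _ (e3.trans t1))
  have hpos : (0 : ℝ) < (y1 : ℝ) - c + 1 := by
    have : (c : ℝ) ≤ y1 := by exact_mod_cast h1.trans h2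
    linarith
  have e5 : ((#(Asy.cl (c - 1) C1) : ℕ) : ℝ) ≤
      c * (m + n * y2.choose c) / ((y1 : ℝ) - c + 1) := by
    rw [le_div_iff₀ hpos]
    have hc' : ((y1 + 1 - c : ℕ) : ℝ) = (y1 : ℝ) - c + 1 := by
      rw [Nat.cast_sub (by omega)]; push_cast; ring
    rw [← hc']
    exact_mod_cast e4
  have hn1 : (0 : ℝ) ≤ (n : ℝ) - y1 := sub_nonneg.2 (by exact_mod_cast h3)
  have e6 := mul_le_mul_of_nonneg_left e5 hn1
  have t1' : ((#(Asy.cl c (C1 ∪ C2)) : ℕ) : ℝ) ≤ m + n * y2.choose c := by exact_mod_cast t1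
  have e7 : (c : ℝ) * (((#(Asy.cl c (C1 ∪ C2)) : ℕ) : ℝ) - m) ≤ c * (n * y2.choose c) :=
    mul_le_mul_of_nonneg_left (by linarith) (Nat.cast_nonneg _)
  linarith

theorem upper_hi_raw {n c m y1 y2 : ℕ} (hc : 1 ≤ c) (hcn : c ≤ n) (h1 : n - c ≤ y2) (h2 : y2 ≤ y1)
    (h3 : y1 ≤ n) (hm0 : 1 ≤ m) (hm : m ≤ n.choose c) (hdvd : n ∣ c * m) :
    ∃ J : Finset (Finset (Fin n)), Reg n c m J ∧ ex n c m #(shadow J) ≤
      c * (n * y2.choose (n - c)) + ((n : ℝ) - y1) * ((n.choose c : ℝ) - m) +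
        ((n : ℝ) - y2) * (n * y1.choose (n - c)) + (n : ℝ) ^ 4 := by
  have : NeZero n := ⟨by omega⟩
  obtain ⟨k, hk⟩ : ∃ k, k = n - c := ⟨_, rfl⟩
  rw [← hk] at h1 ⊢
  have hsym : n.choose k = n.choose c := by rw [hk, Nat.choose_symm hcn]
  obtain ⟨C1, C2, B0, a1, a0, a2, t1, t2⟩ :=
    chain2 (n := n) (t := n.choose c - m) h1 h2 h3 (by omega)
  have hp := pair_cl (c := k + 1) (by omega) (C1 ∪ C2)
  have hkn : k + 1 ≤ n := by omega
  have hq := pair_co hkn hp
  have hx := exc_co hkn hp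
  have e1 := exc_cl (c := k + 1) (by omega) C1 C2 B0 a1 a0 a2
  have hD := hp.hD
  have r1 : n - (k + 1) + 1 = c := by omega
  simp only [Nat.add_sub_cancel] at hq hx e1 hD
  rw [r1] at hq hx
  obtain ⟨d, hd⟩ := reg_cl k (C1 ∪ C2)
  obtain ⟨d', hd'⟩ := reg_co (k := c) (l := k) (by omega) hD hd
  have hcard := card_co (k := c) (l := k) (by omega) hD
  obtain ⟨J, hJ, hb⟩ := eu3_core hcn hq hd' hm0 (by omega) hdvd
  refine ⟨J, hJ, hb.trans ?_⟩
  rw [hx]
  have e3 : #(Asy.cl k C1) ≤ #(Asy.cl k (C1 ∪ C2)) := card_le_card (cl_mono k subset_union_left)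
  have hy2 : y2 ≤ n := h2.trans h3
  have e1' : (exc univ (Asy.cl (k + 1) (C1 ∪ C2)) (Asy.cl k (C1 ∪ C2)) : ℝ) ≤
      ((n : ℝ) - y1) * #(Asy.cl k C1) + ((n : ℝ) - y2) * (n * y1.choose k) := by
    rw [← Nat.cast_sub h3, ← Nat.cast_sub hy2]
    exact_mod_cast e1
  have e5 : ((#(Asy.cl k C1) : ℕ) : ℝ) ≤ (n.choose c : ℝ) - m := by
    rw [← Nat.cast_sub hm]
    exact_mod_cast e3.trans t1
  have hn1 : (0 : ℝ) ≤ (n : ℝ) - y1 := sub_nonneg.2 (by exact_mod_cast h3)
  have e6 := mul_le_mul_of_nonneg_left e5 hn1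
  have t3 : #(co c (Asy.cl k (C1 ∪ C2))) ≤ m + n * y2.choose k := by omega
  have t3' : ((#(co c (Asy.cl k (C1 ∪ C2))) : ℕ) : ℝ) ≤ m + n * y2.choose k := by
    exact_mod_cast t3
  have e7 : (c : ℝ) * (((#(co c (Asy.cl k (C1 ∪ C2))) : ℕ) : ℝ) - m) ≤ c * (n * y2.choose k) :=
    mul_le_mul_of_nonneg_left (by linarith) (Nat.cast_nonneg _)
  linarith

end Pool.Agent.P.MP_4f3dfd_co.Ex
end

-- part Pool.Agent.P.MP_4f3dfd_co.FB1
section

set_option autoImplicit false
set_option linter.unusedSectionVars false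
set_option linter.unusedVariables false

namespace Pool.Agent.P.MP_4f3dfd_co.Ex

open Finset Real

variable {V : Type*} [DecidableEq V]

theorem fb1_wp {T b : ℕ} {C m u p : ℝ} (hC : 0 < C) (hm : 0 < m) (hu : 0 < u)
    (hT : (T : ℝ) = u * C) {q : ℝ} (hq : 0 ≤ q) (hb : (b : ℝ) = q * m) :
    wp T b p = C * (m / C) ^ p * (u * (q / u) ^ p) := by
  unfold wp
  rw [hT, hb]
  have h : q * m / (u * C) = (m / C) * (q / u) := by
    field_simp
  rw [h, Real.mul_rpow (by positivity) (by positivity)]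
  ring

theorem fb1_choose {N j : ℕ} (hj : 0 < j) (hjN : j < N) :
    (((N - 1).choose (j - 1) : ℕ) : ℝ) = (j : ℝ) / N * (N.choose j : ℝ) ∧
      (((N - 1).choose j : ℕ) : ℝ) = (1 - (j : ℝ) / N) * (N.choose j : ℝ) := by
  obtain ⟨n, rfl⟩ : ∃ n, N = n + 1 := ⟨N - 1, by omega⟩
  obtain ⟨k, rfl⟩ : ∃ k, j = k + 1 := ⟨j - 1, by omega⟩
  simp only [Nat.add_sub_cancel]
  have h1 : (n + 1) * n.choose k = (n + 1).choose (k + 1) * (k + 1) :=
    Nat.add_one_mul_choose_eq n k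
  have h2 : (n + 1).choose (k + 1) = n.choose k + n.choose (k + 1) := Nat.choose_succ_succ' n k
  have h1R : ((n : ℝ) + 1) * (n.choose k : ℝ) = ((n + 1).choose (k + 1) : ℝ) * ((k : ℝ) + 1) := by
    exact_mod_cast h1
  have h2R : ((n + 1).choose (k + 1) : ℝ) = (n.choose k : ℝ) + (n.choose (k + 1) : ℝ) := by
    exact_mod_cast h2
  have hn : (0 : ℝ) < (n : ℝ) + 1 := by positivity
  have h3 : (n.choose k : ℝ) = ((k : ℝ) + 1) / ((n : ℝ) + 1) * ((n + 1).choose (k + 1) : ℝ) := by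
    field_simp
    linarith only [h1R]
  push_cast
  refine ⟨h3, ?_⟩
  linarith only [h2R, h3]

theorem fb1_log : log (36 : ℝ) ≤ 4 := by
  rw [Real.log_le_iff_le_exp (by norm_num)]
  have h1 : (2.7 : ℝ) ≤ exp 1 := by
    have := Real.exp_one_gt_d9
    linarith only [this]
  have h2 : exp 4 = exp 1 ^ 4 := by
    rw [← Real.exp_nat_mul]
    norm_num
  rw [h2]
  calc (36 : ℝ) ≤ 2.7 ^ 4 := by norm_num
    _ ≤ exp 1 ^ 4 := by gcongr

/-- One step of erasure hypercontractivity on a slice. -/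
theorem hc_stepU (H : Finset V) (j : ℕ) (A : Finset (Finset V)) (hA : A ⊆ powersetCard j H)
    {a θ τ : ℝ} (ha : 0 < a) (hH : 0 < #H) (h1 : a * #H ≤ j) (h2 : (j : ℝ) ≤ (1 - a) * #H)
    (hθ0 : 0 < θ) (hθ : θ * bt a ≤ 1) (hN : 48 * log (2 * √(#H)) ≤ θ * a * #H) (hτ0 : 0 ≤ τ)
    (hτ : τ ≤ θ * (1 - (1 + 3 * θ * bt a) / #H)) :
    ∑ i ∈ H, (wp ((#H - 1).choose (j - 1)) (deg A i) (1 + θ) +
        wp ((#H - 1).choose j) (#A - deg A i) (1 + θ)) ≤
      #H * (exp (8 * θ / #H) * wp ((#H).choose j) #A (1 + τ)) := by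
  have hNpos : (0 : ℝ) < #H := by exact_mod_cast hH
  have hjpos : (0 : ℝ) < j := lt_of_lt_of_le (by positivity) h1
  have hjlt : (j : ℝ) < #H := by nlinarith only [ha, h2, hNpos]
  have hj : 0 < j := by exact_mod_cast hjpos
  have hjN : j < #H := by exact_mod_cast hjlt
  have ha2 : a ≤ 1 / 2 := by
    have : 2 * a * #H ≤ 1 * #H := by linarith
    have := le_of_mul_le_mul_right this hNpos
    linarith
  rcases A.eq_empty_or_nonempty with rfl | hne
  · have hp : (1 + θ) ≠ 0 := by positivity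
    have hp' : (1 + τ) ≠ 0 := by positivity
    simp [wp, deg, Real.zero_rpow hp, Real.zero_rpow hp']
  obtain ⟨hc1, hc0⟩ := fb1_choose hj hjN
  set N : ℝ := (#H : ℝ) with hNdef
  set C : ℝ := ((#H).choose j : ℝ) with hCdef
  set m : ℝ := (#A : ℝ) with hmdef
  set u : ℝ := (j : ℝ) / N with hudef
  have hC : 0 < C := by
    rw [hCdef]
    exact_mod_cast Nat.choose_pos hjN.le
  have hm : 0 < m := by
    rw [hmdef]
    exact_mod_cast hne.card_pos
  have hmC : m ≤ C := by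
    have := Finset.card_le_card hA
    rw [Finset.card_powersetCard] at this
    rw [hmdef, hCdef]
    exact_mod_cast this
  have hu1 : a ≤ u := by
    rw [hudef, le_div_iff₀ hNpos]
    exact h1
  have hu2 : u ≤ 1 - a := by
    rw [hudef, div_le_iff₀ hNpos]
    exact h2
  have hu0 : 0 < u := lt_of_lt_of_le ha hu1
  have hu3 : 0 < 1 - u := by linarith only [ha, hu2]
  have hM0 : 0 < m / C := div_pos hm hC
  have hM1 : m / C ≤ 1 := (div_le_one hC).2 hmC
  have hMp : 0 < (m / C) ^ (1 + θ) := Real.rpow_pos_of_pos hM0 _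
  have hterm : ∀ i ∈ H, wp ((#H - 1).choose (j - 1)) (deg A i) (1 + θ) +
      wp ((#H - 1).choose j) (#A - deg A i) (1 + θ) ≤
      C * (m / C) ^ (1 + θ) * (1 + θ * (1 + θ * bt a) * kl ((deg A i : ℝ) / m) u) := by
    intro i _
    have hd : deg A i ≤ #A := Finset.card_filter_le _ _
    have hdR : (deg A i : ℝ) ≤ m := by
      rw [hmdef]
      exact_mod_cast hd
    have hq0 : 0 ≤ (deg A i : ℝ) / m := by positivity
    have hq1 : (deg A i : ℝ) / m ≤ 1 := (div_le_one hm).2 hdR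
    have e1 := fb1_wp (b := deg A i) (p := 1 + θ) hC hm hu0 hc1 hq0 (by field_simp)
    have e2 := fb1_wp (b := #A - deg A i) (p := 1 + θ) (q := 1 - (deg A i : ℝ) / m) hC hm hu3 hc0
      (by linarith only [hq1]) (by
        rw [Nat.cast_sub hd, ← hmdef]
        field_simp)
    rw [e1, e2, ← mul_add]
    exact mul_le_mul_of_nonneg_left (renyiU ha hu1 hu2 hq0 hq1 hθ0 hθ) (by positivity)
  have hb30 : 30 ≤ bt a := bt_ge ha (by linarith)
  have ht0 : 0 < θ * bt a := by positivity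
  have hK := sum_kl_leU H j A hA hne ha hH h1 h2 ht0 hθ (by
    have g1 : θ ≤ θ * bt a := by nlinarith only [hθ0, hb30]
    have g2 : θ * (a * N) ≤ θ * bt a * (a * N) :=
      mul_le_mul_of_nonneg_right g1 (by positivity)
    calc 48 * log (2 * √N) ≤ θ * a * N := hN
      _ = θ * (a * N) := by ring
      _ ≤ θ * bt a * (a * N) := g2
      _ = θ * bt a * a * N := by ring)
  rw [← hmdef, ← hCdef, ← hNdef, ← hudef] at hK
  have hZ : 0 ≤ log (C / m) := Real.log_nonneg ((one_le_div hm).2 hmC)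
  have hL : 0 ≤ log (36 : ℝ) := Real.log_nonneg (by norm_num)
  have hL4 : log (36 : ℝ) ≤ 4 := fb1_log
  set Z := log (C / m) with hZdef
  set L := log (36 : ℝ) with hLdef
  have h9 : 3 * θ * bt a = 3 * (θ * bt a) := by ring
  rw [h9] at hτ
  set t := θ * bt a with htdef
  have hy : θ * (1 + t) * ∑ i ∈ H, kl ((deg A i : ℝ) / m) u ≤
      8 * θ + θ * (1 + 3 * t) * Z := by
    have g1 : θ * (1 + t) * ∑ i ∈ H, kl ((deg A i : ℝ) / m) u ≤
        θ * (1 + t) * ((1 + t) * Z + L) := mul_le_mul_of_nonneg_left hK (by positivity)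
    have g2 : (1 + t) * (1 + t) ≤ 1 + 3 * t := by nlinarith only [ha, ha2, hθ, ht0]
    have g3 : (1 + t) * (1 + t) * Z ≤ (1 + 3 * t) * Z := mul_le_mul_of_nonneg_right g2 hZ
    have g4 : (1 + t) * L ≤ 8 := by nlinarith only [ha, ha2, hL, hL4, hθ]
    have g5 : θ * ((1 + t) * (1 + t) * Z + (1 + t) * L) ≤
        θ * ((1 + 3 * t) * Z + 8) := mul_le_mul_of_nonneg_left (by linarith only [g3, g4]) hθ0.le
    calc _ ≤ θ * (1 + t) * ((1 + t) * Z + L) := g1
      _ = θ * ((1 + t) * (1 + t) * Z + (1 + t) * L) := by ring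
      _ ≤ θ * ((1 + 3 * t) * Z + 8) := g5
      _ = _ := by ring
  have hexp : 1 + (8 * θ / N + θ * (1 + 3 * t) / N * Z) ≤
      exp (8 * θ / N) * exp (θ * (1 + 3 * t) / N * Z) := by
    rw [← Real.exp_add, add_comm 1]
    exact Real.add_one_le_exp _
  have hpow : (m / C) ^ (1 + θ) * exp (θ * (1 + 3 * t) / N * Z) ≤ (m / C) ^ (1 + τ) := by
    have e1 : exp (θ * (1 + 3 * t) / N * Z) = (m / C) ^ (-(θ * (1 + 3 * t) / N)) := by
      rw [Real.rpow_def_of_pos hM0]
      congr 1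
      have : log (m / C) = -Z := by
        rw [hZdef, ← Real.log_inv, inv_div]
      rw [this]
      ring
    rw [e1, ← Real.rpow_add hM0]
    refine Real.rpow_le_rpow_of_exponent_ge hM0 hM1 ?_
    have : θ * (1 - (1 + 3 * t) / N) = θ + -(θ * (1 + 3 * t) / N) := by ring
    linarith only [hτ, this]
  have hwp : wp ((#H).choose j) #A (1 + τ) = C * (m / C) ^ (1 + τ) := rfl
  calc _ ≤ ∑ i ∈ H, C * (m / C) ^ (1 + θ) *
        (1 + θ * (1 + t) * kl ((deg A i : ℝ) / m) u) := Finset.sum_le_sum hterm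
    _ = C * (m / C) ^ (1 + θ) * (N + θ * (1 + t) * ∑ i ∈ H, kl ((deg A i : ℝ) / m) u) := by
      rw [← Finset.mul_sum, Finset.sum_add_distrib, ← Finset.mul_sum]
      simp [hNdef]
    _ ≤ C * (m / C) ^ (1 + θ) * (N + (8 * θ + θ * (1 + 3 * t) * Z)) :=
      mul_le_mul_of_nonneg_left (by linarith only [hy]) (by positivity)
    _ = C * (m / C) ^ (1 + θ) * (N * (1 + (8 * θ / N + θ * (1 + 3 * t) / N * Z))) := by
      congr 1
      field_simp
    _ ≤ C * (m / C) ^ (1 + θ) * (N * (exp (8 * θ / N) * exp (θ * (1 + 3 * t) / N * Z))) :=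
      mul_le_mul_of_nonneg_left (mul_le_mul_of_nonneg_left hexp hNpos.le) (by positivity)
    _ = N * (exp (8 * θ / N) * (C * ((m / C) ^ (1 + θ) * exp (θ * (1 + 3 * t) / N * Z)))) := by
      ring
    _ ≤ N * (exp (8 * θ / N) * (C * (m / C) ^ (1 + τ))) := by
      gcongr
    _ = _ := by rw [hwp]

end Pool.Agent.P.MP_4f3dfd_co.Ex
end

-- part Pool.Agent.P.MP_4f3dfd_co.FC1
section

set_option autoImplicit false
set_option linter.unusedSectionVars false
set_option linter.unusedVariables false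

namespace Pool.Agent.P.MP_4f3dfd_co.Ex

open Finset Real

variable {V : Type*} [DecidableEq V]

theorem fc1_deg1 {H : Finset V} {j : ℕ} {A : Finset (Finset V)} (h : A ⊆ powersetCard j H)
    {i : V} (hi : i ∈ H) : deg A i ≤ (#H - 1).choose (j - 1) := by
  rw [← card_erase_of_mem hi, ← card_powersetCard]
  refine card_le_card_of_injOn (fun X => X.erase i) (fun X hX => ?_) (fun X hX Y hY e => ?_)
  · obtain ⟨h1, h2⟩ := mem_filter.1 (mem_coe.1 hX)
    obtain ⟨h3, h4⟩ := mem_powersetCard.1 (h h1)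
    exact mem_coe.2 (mem_powersetCard.2 ⟨erase_subset_erase _ h3, by
      rw [card_erase_of_mem h2, h4]⟩)
  · have h1 := (mem_filter.1 (mem_coe.1 hX)).2
    have h2 := (mem_filter.1 (mem_coe.1 hY)).2
    have e' : X.erase i = Y.erase i := e
    rw [← insert_erase h1, ← insert_erase h2, e']

theorem fc1_deg0 {H : Finset V} {j : ℕ} {A : Finset (Finset V)} (h : A ⊆ powersetCard j H)
    {i : V} (hi : i ∈ H) : #A - deg A i ≤ (#H - 1).choose j := by
  have e := card_filter_add_card_filter_not (s := A) (fun X => i ∈ X)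
  have h1 : #{X ∈ A | ¬ i ∈ X} ≤ (#H - 1).choose j := by
    rw [← card_erase_of_mem hi, ← card_powersetCard]
    refine card_le_card fun X hX => ?_
    obtain ⟨h1, h2⟩ := mem_filter.1 hX
    obtain ⟨h3, h4⟩ := mem_powersetCard.1 (h h1)
    exact mem_powersetCard.2 ⟨subset_erase.2 ⟨h3, h2⟩, h4⟩
  unfold deg
  omega

theorem fc1_scale {κ v h θ θ' : ℝ} (hv : 0 < v) (hκ : 1 ≤ κ * v ^ θ) (hh : |h| ≤ 1)
    (hθ0 : 0 < θ) (hθ : θ ≤ θ') : v * |h| ^ (1 + θ') ≤ κ * |v * h| ^ (1 + θ) := by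
  have h3 : |h| ^ (1 + θ') ≤ |h| ^ (1 + θ) :=
    Real.rpow_le_rpow_of_exponent_ge' (abs_nonneg _) hh (by linarith) (by linarith)
  have h4 : 0 ≤ |h| ^ (1 + θ) := Real.rpow_nonneg (abs_nonneg _) _
  rw [abs_mul, abs_of_pos hv, Real.mul_rpow hv.le (abs_nonneg _), ea1_pow hv.le hθ0]
  have h5 : 0 ≤ v * |h| ^ (1 + θ) := mul_nonneg hv.le h4
  calc v * |h| ^ (1 + θ') ≤ 1 * (v * |h| ^ (1 + θ)) := by
        rw [one_mul]
        exact mul_le_mul_of_nonneg_left h3 hv.le
    _ ≤ κ * v ^ θ * (v * |h| ^ (1 + θ)) := mul_le_mul_of_nonneg_right hκ h5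
    _ = _ := by ring

theorem fc1_three {a v θ : ℝ} (ha : 0 < a) (h1 : a ≤ v) (hθ0 : 0 < θ)
    (hθa : θ * log (1 / a) ≤ 1) : 1 ≤ 3 * v ^ θ := by
  have h2 : a ^ θ ≤ v ^ θ := rpow_le_rpow ha.le h1 hθ0.le
  have h3 : exp (-1) ≤ a ^ θ := by
    rw [rpow_def_of_pos ha, exp_le_exp]
    rw [one_div, log_inv] at hθa
    linarith
  have h4 : 1 ≤ 3 * exp (-1) := by
    have h5 := exp_one_lt_d9
    have h6 : exp 1 * exp (-1) = 1 := by rw [← exp_add]; simp
    have h7 := exp_pos (-1)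
    nlinarith
  linarith

theorem fc1_half {v θ : ℝ} (h1 : 1 / 2 ≤ v) (h2 : v ≤ 1) (hθ1 : θ ≤ 1) : 1 ≤ 2 * v ^ θ := by
  have h3 : v ≤ v ^ θ := by
    simpa using Real.rpow_le_rpow_of_exponent_ge (by linarith : 0 < v) h2 hθ1
  linarith

theorem fc1_two {a u θ θ' M1 M0 : ℝ} (ha : 0 < a) (h1 : a ≤ u) (h2 : u ≤ 1 - a) (hθ0 : 0 < θ)
    (hθ : θ ≤ θ') (hθ' : θ' ≤ 1) (hθa : θ * log (1 / a) ≤ 1) (hM1 : 0 ≤ M1) (hM0 : 0 ≤ M0)
    (hM1' : M1 ≤ 1) (hM0' : M0 ≤ 1) :
    u * M1 ^ (1 + θ') + (1 - u) * M0 ^ (1 + θ') ≤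
      (u * M1 + (1 - u) * M0) ^ (1 + θ') +
        10 * |u * (M1 - (u * M1 + (1 - u) * M0))| ^ (1 + θ) := by
  have hu0 : 0 < u := by linarith
  have hu1 : 0 < 1 - u := by linarith
  obtain ⟨M, hM⟩ : ∃ M, M = u * M1 + (1 - u) * M0 := ⟨_, rfl⟩
  rw [← hM]
  have hMn : 0 ≤ M := by rw [hM]; positivity
  have hM' : M ≤ 1 := by
    have a1 := mul_le_mul_of_nonneg_left hM1' hu0.le
    have a0 := mul_le_mul_of_nonneg_left hM0' hu1.le
    linarith
  have e1 := vbe (x := M) (h := M1 - M) hMn (by linarith) (hθ0.trans_le hθ) hθ'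
  have e0 := vbe (x := M) (h := M0 - M) hMn (by linarith) (hθ0.trans_le hθ) hθ'
  rw [add_sub_cancel] at e1 e0
  have b1 : |M1 - M| ≤ 1 := abs_le.2 ⟨by linarith, by linarith⟩
  have b0 : |M0 - M| ≤ 1 := abs_le.2 ⟨by linarith, by linarith⟩
  have hy : (1 - u) * (M0 - M) = -(u * (M1 - M)) := by linarith
  have s : u * |M1 - M| ^ (1 + θ') + (1 - u) * |M0 - M| ^ (1 + θ') ≤
      5 * |u * (M1 - M)| ^ (1 + θ) := by
    rcases le_total (1 / 2) u with hc | hc
    · have s1 := fc1_scale hu0 (fc1_half hc (by linarith) (hθ.trans hθ')) b1 hθ0 hθ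
      have s0 := fc1_scale hu1 (fc1_three ha (by linarith) hθ0 hθa) b0 hθ0 hθ
      rw [hy, abs_neg] at s0
      linarith
    · have s1 := fc1_scale hu0 (fc1_three ha h1 hθ0 hθa) b1 hθ0 hθ
      have s0 := fc1_scale hu1 (fc1_half (by linarith) (by linarith) (hθ.trans hθ')) b0 hθ0 hθ
      rw [hy, abs_neg] at s0
      linarith
  have f1 := mul_le_mul_of_nonneg_left e1 hu0.le
  have f0 := mul_le_mul_of_nonneg_left e0 hu1.le
  have hz : u * ((1 + θ') * M ^ θ' * (M1 - M)) + (1 - u) * ((1 + θ') * M ^ θ' * (M0 - M)) = 0 := by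
    have : u * ((1 + θ') * M ^ θ' * (M1 - M)) + (1 - u) * ((1 + θ') * M ^ θ' * (M0 - M))
        = (1 + θ') * M ^ θ' * (u * (M1 - M) + (1 - u) * (M0 - M)) := by ring
    rw [this, hy]
    ring
  linarith

theorem fc1_term {a θ θ' N j C d m R B b : ℝ} (ha : 0 < a) (hN : 0 < N) (h1 : a * N ≤ j)
    (h2 : j ≤ (1 - a) * N) (hj1 : 1 ≤ j) (hθ0 : 0 < θ) (hθ : θ ≤ θ') (hθ' : θ' ≤ 1)
    (hθa : θ * log (1 / a) ≤ 1) (hC : 0 < C) (hd : 0 ≤ d) (hdm : d ≤ m)
    (hd1 : d ≤ j / N * C) (hd0 : m - d ≤ (1 - j / N) * C) (hR : 0 ≤ R) (hRB : R ≤ B)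
    (hb : 0 ≤ b) (he : N * d - j * m = R - (N - j + 1) * b) :
    j / N * C * (d / (j / N * C)) ^ (1 + θ') +
        (1 - j / N) * C * ((m - d) / ((1 - j / N) * C)) ^ (1 + θ') ≤
      C * (m / C) ^ (1 + θ') + 10 * ((N - j + 1) / N * (C * (b / C) ^ (1 + θ)) +
        R * ((B / C / N) ^ θ / N)) := by
  have hu1 : a ≤ j / N := by rw [le_div_iff₀ hN]; exact h1
  have hu2 : j / N ≤ 1 - a := by rw [div_le_iff₀ hN]; exact h2
  have hu0 : 0 < j / N := ha.trans_le hu1
  have hu3 : 0 < 1 - j / N := by linarith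
  have hj0 : 0 < j := by linarith
  have hjN : j < N := by nlinarith
  have hNj : N - j ≠ 0 := by linarith
  have hM1 : 0 ≤ d / (j / N * C) := div_nonneg hd (mul_pos hu0 hC).le
  have hM0 : 0 ≤ (m - d) / ((1 - j / N) * C) := div_nonneg (by linarith) (mul_pos hu3 hC).le
  have h := fc1_two ha hu1 hu2 hθ0 hθ hθ' hθa hM1 hM0 ((div_le_one (mul_pos hu0 hC)).2 hd1)
    ((div_le_one (mul_pos hu3 hC)).2 hd0)
  have e1 : j / N * (d / (j / N * C)) = d / C := by field_simp
  have e0 : (1 - j / N) * ((m - d) / ((1 - j / N) * C)) = (m - d) / C := by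
    have := hu3.ne'
    field_simp
  have e2 : d / C + (m - d) / C = m / C := by ring
  rw [e1, e0, e2, mul_sub, e1] at h
  have e3 : d / C - j / N * (m / C) = (R - (N - j + 1) * b) / (N * C) := by
    rw [← he]; field_simp
  have hNC : 0 < N * C := mul_pos hN hC
  have hs0 : 0 < (N - j + 1) / N := div_pos (by linarith) hN
  have hs1 : (N - j + 1) / N ≤ 1 := (div_le_one hN).2 (by linarith)
  have hbC : 0 ≤ b / C := div_nonneg hb hC.le
  have hRC : 0 ≤ R / C / N := div_nonneg (div_nonneg hR hC.le) hN.le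
  have h3 : |d / C - j / N * (m / C)| ^ (1 + θ) ≤
      ((N - j + 1) / N * (b / C)) ^ (1 + θ) + (R / C / N) ^ (1 + θ) := by
    refine eg1_abs (mul_nonneg hs0.le hbC) hRC ?_ ?_ (by linarith)
    · rw [e3, div_div, mul_comm C N]
      refine div_le_div_of_nonneg_right ?_ hNC.le
      have : 0 ≤ (N - j + 1) * b := mul_nonneg (by linarith) hb
      linarith
    · rw [e3, le_div_iff₀ hNC]
      have e4 : -((N - j + 1) / N * (b / C)) * (N * C) = -((N - j + 1) * b) := by field_simp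
      rw [e4]
      linarith
  have h4 : ((N - j + 1) / N * (b / C)) ^ (1 + θ) ≤ (N - j + 1) / N * (b / C) ^ (1 + θ) := by
    rw [mul_rpow hs0.le hbC]
    refine mul_le_mul_of_nonneg_right ?_ (rpow_nonneg hbC _)
    simpa using Real.rpow_le_rpow_of_exponent_ge hs0 hs1 (by linarith : (1 : ℝ) ≤ 1 + θ)
  have h5 : (R / C / N) ^ (1 + θ) ≤ R / C / N * (B / C / N) ^ θ := by
    rw [ea1_pow hRC hθ0]
    refine mul_le_mul_of_nonneg_left (rpow_le_rpow hRC ?_ hθ0.le) hRC
    exact div_le_div_of_nonneg_right (div_le_div_of_nonneg_right hRB hC.le) hN.le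
  have h6 : j / N * (d / (j / N * C)) ^ (1 + θ') +
      (1 - j / N) * ((m - d) / ((1 - j / N) * C)) ^ (1 + θ') ≤ (m / C) ^ (1 + θ') +
      10 * ((N - j + 1) / N * (b / C) ^ (1 + θ) + R / C / N * (B / C / N) ^ θ) := by linarith
  calc _ = C * (j / N * (d / (j / N * C)) ^ (1 + θ') +
        (1 - j / N) * ((m - d) / ((1 - j / N) * C)) ^ (1 + θ')) := by ring
    _ ≤ _ := mul_le_mul_of_nonneg_left h6 hC.le
    _ = _ := by field_simp

/-- One step of the density martingale, gain `1 - j / N`. -/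
theorem mart_stepG {H : Finset V} {j : ℕ} {A D : Finset (Finset V)} (h : Pair H j A D)
    {a θ θ' : ℝ} (ha : 0 < a) (hH : 0 < #H) (h1 : a * #H ≤ j) (h2 : (j : ℝ) ≤ (1 - a) * #H)
    (hθ0 : 0 < θ) (hθ : θ ≤ θ') (hθ' : θ' ≤ 1) (hθa : θ * log (1 / a) ≤ 1) :
    ∑ i ∈ H, (wp ((#H - 1).choose (j - 1)) (deg A i) (1 + θ') +
        wp ((#H - 1).choose j) (#A - deg A i) (1 + θ')) ≤
      #H * wp ((#H).choose j) #A (1 + θ') +
        40 * (1 - (j : ℝ) / #H) *
          ∑ k ∈ H, wp ((#H - 1).choose (j - 1)) #(blk A D k) (1 + θ) := by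
  have hN : (0 : ℝ) < #H := by exact_mod_cast hH
  have hj1 : 1 ≤ j := h.pos
  have hj1' : (1 : ℝ) ≤ j := by exact_mod_cast hj1
  have hjN' : (j : ℝ) < #H := by nlinarith
  have hjN : j < #H := by exact_mod_cast hjN'
  have hjN1 : (j : ℝ) + 1 ≤ #H := by exact_mod_cast hjN
  have hC : (0 : ℝ) < (#H).choose j := by exact_mod_cast Nat.choose_pos hjN.le
  have hC1 : (((#H - 1).choose (j - 1) : ℕ) : ℝ) = j / #H * (#H).choose j := by
    have := choose_pred_pred (n := #H) (c := j) hH hj1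
    field_simp
    linarith
  have hpas : (#H).choose j = (#H - 1).choose (j - 1) + (#H - 1).choose j := by
    obtain ⟨n, hn⟩ : ∃ n, #H = n + 1 := ⟨#H - 1, by omega⟩
    obtain ⟨k, rfl⟩ : ∃ k, j = k + 1 := ⟨j - 1, by omega⟩
    rw [hn, Nat.add_sub_cancel, Nat.add_sub_cancel, Nat.choose_succ_succ']
  have hC0 : (((#H - 1).choose j : ℕ) : ℝ) = (1 - j / #H) * (#H).choose j := by
    have : (((#H).choose j : ℕ) : ℝ) = (#H - 1).choose (j - 1) + (#H - 1).choose j := by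
      exact_mod_cast hpas
    rw [sub_mul, ← hC1]
    linarith
  have hC1pos : (0 : ℝ) < (#H - 1).choose (j - 1) := by
    rw [hC1]; positivity
  have hC1le : (((#H - 1).choose (j - 1) : ℕ) : ℝ) ≤ (#H).choose j := by
    exact_mod_cast (by omega : (#H - 1).choose (j - 1) ≤ (#H).choose j)
  set C : ℝ := (((#H).choose j : ℕ) : ℝ) with hCdef
  obtain ⟨R, hR, hsum⟩ := pair_degU h
  have hterm : ∀ i ∈ H, wp ((#H - 1).choose (j - 1)) (deg A i) (1 + θ') +
      wp ((#H - 1).choose j) (#A - deg A i) (1 + θ') ≤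
      C * (#A / C) ^ (1 + θ') + 10 * (((#H : ℝ) - j + 1) / #H * (C * (#(blk A D i) / C) ^ (1 + θ)) +
        R i * ((exc H A D / C / #H) ^ θ / #H)) := by
    intro i hi
    obtain ⟨hR0, hRB, he⟩ := hR i hi
    have hd : deg A i ≤ #A := card_filter_le _ _
    have d1 : ((deg A i : ℕ) : ℝ) ≤ ((#H - 1).choose (j - 1) : ℕ) := by
      exact_mod_cast fc1_deg1 h.hJ hi
    have d0 : ((#A - deg A i : ℕ) : ℝ) ≤ ((#H - 1).choose j : ℕ) := by
      exact_mod_cast fc1_deg0 h.hJ hi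
    unfold wp
    rw [hC1] at d1
    rw [hC0, Nat.cast_sub hd] at d0
    rw [hC1, hC0, Nat.cast_sub hd]
    exact fc1_term ha hN h1 h2 hj1' hθ0 hθ hθ' hθa hC (Nat.cast_nonneg _) (by exact_mod_cast hd)
      d1 d0 hR0 hRB (Nat.cast_nonneg _) he
  have hJ : (#H : ℝ) * (exc H A D / C / #H) ^ (1 + θ) ≤
      ∑ k ∈ H, (#(blk A D k) / C) ^ (1 + θ) := by
    have := eg1_jensen H hH (fun k => (#(blk A D k) : ℝ) / C)
      (fun k => div_nonneg (Nat.cast_nonneg _) hC.le) (p := 1 + θ) (by linarith)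
    rw [← sum_div] at this
    unfold exc
    push_cast
    exact this
  have hW : ∑ k ∈ H, C * (#(blk A D k) / C) ^ (1 + θ) ≤
      ∑ k ∈ H, wp ((#H - 1).choose (j - 1)) #(blk A D k) (1 + θ) :=
    sum_le_sum fun k _ => eg1_wp_anti hC1pos hC1le (Nat.cast_nonneg _) hθ0
  refine (sum_le_sum hterm).trans ?_
  rw [sum_add_distrib, sum_const, nsmul_eq_mul, ← mul_sum, sum_add_distrib, ← mul_sum, ← sum_mul,
    hsum]
  have hJ' := mul_le_mul_of_nonneg_left hJ hC.le
  rw [mul_sum] at hJ'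
  have hB0 : (0 : ℝ) ≤ exc H A D / C / #H :=
    div_nonneg (div_nonneg (Nat.cast_nonneg _) hC.le) hN.le
  have e1 : ((#H : ℝ) - j + 1) * exc H A D * ((exc H A D / C / #H) ^ θ / #H) =
      ((#H : ℝ) - j + 1) / #H * (C * (#H * (exc H A D / C / #H) ^ (1 + θ))) := by
    rw [ea1_pow hB0 hθ0]
    field_simp
  have e9 : wp ((#H).choose j) #A (1 + θ') = C * (#A / C) ^ (1 + θ') := rfl
  rw [e1, e9]
  have hs0 : (0 : ℝ) ≤ ((#H : ℝ) - j + 1) / #H := div_nonneg (by linarith) hN.le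
  have hs1 : ((#H : ℝ) - j + 1) / #H ≤ 2 * (1 - j / #H) := by
    rw [div_le_iff₀ hN]
    have : 2 * (1 - (j : ℝ) / #H) * #H = 2 * (#H - j) := by field_simp
    rw [this]
    linarith
  have hW0 : 0 ≤ ∑ k ∈ H, wp ((#H - 1).choose (j - 1)) #(blk A D k) (1 + θ) :=
    sum_nonneg fun k _ => by unfold wp; positivity
  have g1 := mul_le_mul_of_nonneg_left hW hs0
  have g2 := mul_le_mul_of_nonneg_left (hJ'.trans hW) hs0
  have g3 := mul_le_mul_of_nonneg_right hs1 hW0
  linarith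

end Pool.Agent.P.MP_4f3dfd_co.Ex
end

-- part Pool.Agent.P.MP_4f3dfd_co.FC2
section

set_option autoImplicit false
set_option linter.unusedSectionVars false
set_option linter.unusedVariables false

namespace Pool.Agent.P.MP_4f3dfd_co.Ex

open Finset Real

variable {V : Type*} [DecidableEq V]

theorem fc2_pt {x h θ : ℝ} (hx : 0 < x) (hh : 0 ≤ x + h) (hθ0 : 0 < θ) (hθ : θ ≤ 1) :
    (x + h) ^ (1 + θ) ≤ x ^ (1 + θ) + (1 + θ) * x ^ θ * h + θ * (h ^ 2 * x ^ (θ - 1)) := by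
  have hz : -1 ≤ h / x := by
    rw [le_div_iff₀ hx]
    linarith
  have h1 := rpow_one_add_le_one_add_mul_self hz hθ0.le hθ
  have e1 : (x + h) ^ θ = x ^ θ * (1 + h / x) ^ θ := by
    rw [← mul_rpow hx.le (by linarith)]
    congr 1
    field_simp
  have h2 := mul_le_mul_of_nonneg_left h1 (mul_nonneg hh (rpow_nonneg hx.le θ))
  rw [rpow_one_add' hh (by linarith), rpow_one_add' hx.le (by linarith), rpow_sub_one hx.ne', e1,
    ← mul_assoc]
  refine h2.trans (le_of_eq ?_)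
  field_simp
  ring

theorem fc2_term {u C d m θ : ℝ} (hu0 : 0 < u) (hu : 4 * u ≤ 3) (hC : 0 < C) (hd : 0 ≤ d)
    (hdm : d ≤ m) (hm : 0 < m) (hθ0 : 0 < θ) (hθ : θ ≤ 1) :
    u * C * (d / (u * C)) ^ (1 + θ) + (1 - u) * C * ((m - d) / ((1 - u) * C)) ^ (1 + θ) ≤
      C * (m / C) ^ (1 + θ) +
        4 * θ * (u * C) * ((d / (u * C) - m / C) ^ 2 * (m / C) ^ (θ - 1)) := by
  have hv : 0 < 1 - u := by linarith
  have hM : 0 < m / C := div_pos hm hC
  obtain ⟨h, hh⟩ : ∃ h, h = d / (u * C) - m / C := ⟨_, rfl⟩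
  have e1 : d / (u * C) = m / C + h := by rw [hh]; ring
  have e0 : (m - d) / ((1 - u) * C) = m / C + -(u / (1 - u) * h) := by
    rw [hh]
    field_simp
    ring
  have a1 := fc2_pt hM (h := h) (by rw [← e1]; positivity) hθ0 hθ
  have a0 := fc2_pt hM (h := -(u / (1 - u) * h))
    (by rw [← e0]; exact div_nonneg (by linarith) (by positivity)) hθ0 hθ
  rw [← hh, e1, e0]
  have b1 := mul_le_mul_of_nonneg_left a1 (mul_pos hu0 hC).le
  have b0 := mul_le_mul_of_nonneg_left a0 (mul_pos hv hC).le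
  have r3 : u / (1 - u) ≤ 3 := by
    rw [div_le_iff₀ hv]
    linarith
  have b2 := mul_le_mul_of_nonneg_right r3
    (by positivity : 0 ≤ θ * (u * C) * (h ^ 2 * (m / C) ^ (θ - 1)))
  have e2 : (1 - u) * C * ((m / C) ^ (1 + θ) + (1 + θ) * (m / C) ^ θ * -(u / (1 - u) * h) +
      θ * ((-(u / (1 - u) * h)) ^ 2 * (m / C) ^ (θ - 1))) =
      (1 - u) * C * (m / C) ^ (1 + θ) - u * C * ((1 + θ) * (m / C) ^ θ * h) +
        u / (1 - u) * (θ * (u * C) * (h ^ 2 * (m / C) ^ (θ - 1))) := by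
    field_simp
    ring
  rw [e2] at b0
  linarith

theorem fc2_sum (H : Finset V) (hH : 0 < #H) (h β : V → ℝ) {M θ : ℝ} (hM : 0 < M) (hθ0 : 0 < θ)
    (hθ : θ ≤ 1) (hβ : ∀ i, 0 ≤ β i) (h0 : ∑ i ∈ H, h i = 0) (h1 : ∀ i ∈ H, -M ≤ h i)
    (h2 : ∀ i ∈ H, -β i ≤ h i) (h3 : ∀ i ∈ H, h i ≤ (∑ k ∈ H, β k) / #H) :
    ∑ i ∈ H, h i ^ 2 * M ^ (θ - 1) ≤ 2 * ∑ i ∈ H, β i ^ (1 + θ) := by
  have hN : (0 : ℝ) < #H := by exact_mod_cast hH
  have hJ := eg1_jensen H hH β hβ (p := 1 + θ) (by linarith)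
  obtain ⟨t, ht⟩ : ∃ t, t = (∑ k ∈ H, β k) / #H := ⟨_, rfl⟩
  have t0 : 0 ≤ t := by
    rw [ht]
    exact div_nonneg (sum_nonneg fun k _ => hβ k) hN.le
  rw [← ht] at hJ h3
  have hP : 0 ≤ M ^ (θ - 1) := rpow_nonneg hM.le _
  have a1 : ∀ i ∈ H, h i ^ 2 * M ^ (θ - 1) ≤
      β i ^ (1 + θ) + t * M ^ (θ - 1) * (h i + max (-h i) 0) := by
    intro i hi
    have p1 : 0 ≤ β i ^ (1 + θ) := rpow_nonneg (hβ i) _
    rcases lt_or_ge (h i) 0 with k | k
    · rw [max_eq_left (by linarith), add_neg_cancel, mul_zero, add_zero]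
      have k' : 0 < -h i := by linarith
      have c1 : M ^ (θ - 1) ≤ (-h i) ^ (θ - 1) :=
        rpow_le_rpow_of_nonpos k' (by linarith [h1 i hi]) (by linarith)
      have c2 : h i ^ 2 * (-h i) ^ (θ - 1) = (-h i) ^ (1 + θ) := by
        rw [rpow_one_add' k'.le (by linarith), rpow_sub_one k'.ne']
        field_simp
      refine (mul_le_mul_of_nonneg_left c1 (sq_nonneg _)).trans (c2.trans_le ?_)
      exact rpow_le_rpow k'.le (by linarith [h2 i hi]) (by linarith)
    · rw [max_eq_right (by linarith), add_zero]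
      have := mul_le_mul_of_nonneg_right (h3 i hi) (mul_nonneg k hP)
      nlinarith
  have a2 : ∑ i ∈ H, max (-h i) 0 ≤ #H * M := by
    rw [← nsmul_eq_mul]
    exact sum_le_card_nsmul _ _ _ fun i hi => max_le (by linarith [h1 i hi]) hM.le
  have a3 : ∑ i ∈ H, max (-h i) 0 ≤ #H * t := by
    rw [ht, mul_div_cancel₀ _ hN.ne']
    exact sum_le_sum fun i hi => max_le (by linarith [h2 i hi]) (hβ i)
  have a4 : M ^ (θ - 1) * ∑ i ∈ H, max (-h i) 0 ≤ #H * t ^ θ := by
    rcases le_total M t with k | k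
    · refine (mul_le_mul_of_nonneg_left a2 hP).trans ?_
      have c1 : M ^ (θ - 1) * (#H * M) = #H * M ^ θ := by
        rw [rpow_sub_one hM.ne']
        field_simp
      rw [c1]
      exact mul_le_mul_of_nonneg_left (rpow_le_rpow hM.le k hθ0.le) hN.le
    · refine (mul_le_mul_of_nonneg_left a3 hP).trans ?_
      rcases t0.eq_or_lt with z | z
      · rw [← z, mul_zero, mul_zero]
        positivity
      · have c1 : t ^ (θ - 1) * (#H * t) = #H * t ^ θ := by
          rw [rpow_sub_one z.ne']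
          field_simp
        rw [← c1]
        exact mul_le_mul_of_nonneg_right (rpow_le_rpow_of_nonpos z k (by linarith))
          (by positivity)
  refine (sum_le_sum a1).trans ?_
  rw [sum_add_distrib, ← mul_sum, sum_add_distrib, h0, zero_add, mul_assoc]
  rw [rpow_one_add' t0 (by linarith)] at hJ
  have a5 := mul_le_mul_of_nonneg_left a4 t0
  linarith

/-- One step of the density martingale, gain `θ'`. -/
theorem mart_stepS {H : Finset V} {j : ℕ} {A D : Finset (Finset V)} (h : Pair H j A D)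
    {θ θ' : ℝ} (hj : 4 * j ≤ 3 * #H) (hθ0 : 0 < θ) (hθ : θ ≤ θ') (hθ' : θ' ≤ 1) :
    ∑ i ∈ H, (wp ((#H - 1).choose (j - 1)) (deg A i) (1 + θ') +
        wp ((#H - 1).choose j) (#A - deg A i) (1 + θ')) ≤
      #H * wp ((#H).choose j) #A (1 + θ') +
        10 * θ' * ∑ k ∈ H, wp ((#H - 1).choose (j - 1)) #(blk A D k) (1 + θ) := by
  have hj1 : 1 ≤ j := h.pos
  have hH : 0 < #H := by omega
  have hjN : j < #H := by omega
  have t0 : 0 < θ' := hθ0.trans_le hθ
  have hN : (0 : ℝ) < #H := by exact_mod_cast hH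
  have hj1' : (1 : ℝ) ≤ j := by exact_mod_cast hj1
  have hW : 0 ≤ ∑ k ∈ H, wp ((#H - 1).choose (j - 1)) #(blk A D k) (1 + θ) :=
    sum_nonneg fun k _ => by unfold wp; positivity
  rcases Nat.eq_zero_or_pos #A with hA | hA
  · have z : ∀ T : ℕ, wp T 0 (1 + θ') = 0 := fun T => by
      unfold wp
      rw [Nat.cast_zero, zero_div, zero_rpow (by linarith), mul_zero]
    have z1 : ∀ i, deg A i = 0 := fun i => Nat.le_zero.1 ((card_filter_le _ _).trans hA.le)
    simp only [hA, z1, Nat.sub_self, z, add_zero, sum_const_zero, mul_zero, zero_add]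
    positivity
  have hm : (0 : ℝ) < #A := by exact_mod_cast hA
  have hC : (0 : ℝ) < (#H).choose j := by exact_mod_cast Nat.choose_pos hjN.le
  have hC1 : (((#H - 1).choose (j - 1) : ℕ) : ℝ) = j / #H * (#H).choose j := by
    have := choose_pred_pred (n := #H) (c := j) hH hj1
    field_simp
    linarith
  have hpas : (#H).choose j = (#H - 1).choose (j - 1) + (#H - 1).choose j := by
    obtain ⟨n, hn⟩ : ∃ n, #H = n + 1 := ⟨#H - 1, by omega⟩
    obtain ⟨k, rfl⟩ : ∃ k, j = k + 1 := ⟨j - 1, by omega⟩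
    rw [hn, Nat.add_sub_cancel, Nat.add_sub_cancel, Nat.choose_succ_succ']
  have hC0 : (((#H - 1).choose j : ℕ) : ℝ) = (1 - j / #H) * (#H).choose j := by
    have : (((#H).choose j : ℕ) : ℝ) = (#H - 1).choose (j - 1) + (#H - 1).choose j := by
      exact_mod_cast hpas
    rw [sub_mul, ← hC1]
    linarith
  have hb : ∀ k ∈ H, (#(blk A D k) : ℝ) ≤ (#H - 1).choose (j - 1) := fun k hk => by
    have := card_le_card (blk_subset h k)
    rw [card_powersetCard, card_erase_of_mem hk] at this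
    exact_mod_cast this
  obtain ⟨R, hR, hRs⟩ := pair_degU h
  have hB : (exc H A D : ℝ) = ∑ k ∈ H, (#(blk A D k) : ℝ) := by
    unfold exc
    push_cast
    rfl
  set C : ℝ := (((#H).choose j : ℕ) : ℝ) with hCdef
  set C1 : ℝ := (((#H - 1).choose (j - 1) : ℕ) : ℝ) with hC1def
  have c1 : 0 < C1 := by
    rw [hC1]
    positivity
  have hu : 4 * ((j : ℝ) / #H) ≤ 3 := by
    rw [← mul_div_assoc, div_le_iff₀ hN]
    exact_mod_cast hj
  have hterm : ∀ i ∈ H, wp ((#H - 1).choose (j - 1)) (deg A i) (1 + θ') +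
      wp ((#H - 1).choose j) (#A - deg A i) (1 + θ') ≤ C * (#A / C) ^ (1 + θ') +
        4 * θ' * C1 * ((deg A i / C1 - #A / C) ^ 2 * (#A / C) ^ (θ' - 1)) := by
    intro i hi
    have hd : deg A i ≤ #A := card_filter_le _ _
    unfold wp
    rw [← hC1def, hC1, hC0, Nat.cast_sub hd]
    exact fc2_term (by positivity) hu hC (Nat.cast_nonneg _) (by exact_mod_cast hd) hm t0 hθ'
  have he : ∀ i ∈ H, (deg A i : ℝ) / C1 - #A / C =
      (R i - ((#H : ℝ) - j + 1) * #(blk A D i)) / (#H * C1) := fun i hi => by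
    rw [← (hR i hi).2.2, hC1]
    field_simp
  have hS := fc2_sum H hH (fun i => (deg A i : ℝ) / C1 - #A / C) (fun i => #(blk A D i) / C1)
    (div_pos hm hC) t0 hθ' (fun i => by positivity)
    (by rw [sum_congr rfl he, ← sum_div, sum_sub_distrib, ← mul_sum, hRs, hB, sub_self, zero_div])
    (fun i _ => by
      have : 0 ≤ (deg A i : ℝ) / C1 := by positivity
      linarith)
    (fun i hi => by
      rw [he i hi, le_div_iff₀ (by positivity)]
      have e : -((#(blk A D i) : ℝ) / C1) * (#H * C1) = -(#H * #(blk A D i)) := by field_simp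
      have := mul_le_mul_of_nonneg_right (show (#H : ℝ) - j + 1 ≤ #H by linarith)
        (Nat.cast_nonneg (α := ℝ) #(blk A D i))
      rw [e]
      linarith [(hR i hi).1])
    (fun i hi => by
      rw [he i hi, ← sum_div, ← hB, div_div, mul_comm C1]
      refine div_le_div_of_nonneg_right ?_ (by positivity)
      have hjN' : (j : ℝ) < #H := by exact_mod_cast hjN
      have := mul_nonneg (show (0 : ℝ) ≤ #H - j + 1 by linarith)
        (Nat.cast_nonneg (α := ℝ) #(blk A D i))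
      linarith [(hR i hi).2.1])
  have hL : C1 * ∑ k ∈ H, ((#(blk A D k) : ℝ) / C1) ^ (1 + θ') ≤
      ∑ k ∈ H, wp ((#H - 1).choose (j - 1)) #(blk A D k) (1 + θ) := by
    rw [mul_sum]
    exact sum_le_sum fun k hk => mul_le_mul_of_nonneg_left
      (rpow_le_rpow_of_exponent_ge' (by positivity) ((div_le_one c1).2 (hb k hk)) (by linarith)
        (by linarith)) c1.le
  refine (sum_le_sum hterm).trans ?_
  rw [sum_add_distrib, sum_const, nsmul_eq_mul, ← mul_sum]
  have e9 : wp ((#H).choose j) #A (1 + θ') = C * (#A / C) ^ (1 + θ') := rfl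
  rw [e9]
  have k1 := mul_le_mul_of_nonneg_left hS (by positivity : 0 ≤ 4 * θ' * C1)
  have k2 := mul_le_mul_of_nonneg_left hL t0.le
  have k3 := mul_nonneg t0.le hW
  linarith

end Pool.Agent.P.MP_4f3dfd_co.Ex
end

-- part Pool.Agent.P.MP_4f3dfd_co.FD3
section

set_option autoImplicit false
set_option linter.unusedSectionVars false
set_option linter.unusedVariables false

namespace Pool.Agent.P.MP_4f3dfd_co.Ex

open Finset Real

variable {V : Type*} [DecidableEq V]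

theorem fib_varU {G : Finset V} {c : ℕ} {J D : Finset (Finset V)} (h : Pair G c J D)
    {S x : Finset V} (hS : S ⊆ G) (hx : x ⊆ S) (hxc : #x < c) {α : ℝ} (hα : α < 1)
    (hN : 0 < #(G \ S))
    (ht : (#(G \ S) : ℝ) - ((c - #x : ℕ) : ℝ) ≤ 3 / 2 * (1 - α) * #(G \ S))
    (hM : (cnt J S x : ℝ) ≤ 3 / 4 * tot G c S x) :
    1 / (6 * (1 - α)) * (cnt J S x : ℝ) ≤ ∑ k ∈ G \ S, (cnt (blk J D k) S x : ℝ) := by
  have hp := pair_fib h hx hxc
  have hv := exc_ge_varU hp
  have htot : tot G c S x = (#(G \ S)).choose (c - #x) := by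
    rw [tot, card_sdiff_of_subset hS]
  rw [card_fib, ef3_exc J D hx, ← htot] at hv
  set B : ℝ := ∑ k ∈ G \ S, (cnt (blk J D k) S x : ℝ) with hBdef
  have hB : 0 ≤ B := sum_nonneg fun k _ => Nat.cast_nonneg _
  have hc0 : (0 : ℝ) ≤ cnt J S x := Nat.cast_nonneg _
  have hC : (0 : ℝ) ≤ tot G c S x := Nat.cast_nonneg _
  have hN' : (0 : ℝ) < #(G \ S) := by exact_mod_cast hN
  have ha : 0 < 1 - α := by linarith
  rw [one_div, inv_mul_le_iff₀ (by positivity)]
  rcases hC.eq_or_lt with h0 | h0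
  · rw [← h0] at hM
    have : 0 ≤ 6 * (1 - α) * B := by positivity
    linarith
  · have h1 : (cnt J S x : ℝ) * (1 / 4 * tot G c S x) ≤ cnt J S x * (tot G c S x - cnt J S x) :=
      mul_le_mul_of_nonneg_left (by linarith) hc0
    have h2 := mul_le_mul_of_nonneg_left h1 hN'.le
    have h3 := mul_le_mul_of_nonneg_right ht (mul_nonneg hB hC)
    have h4 : (cnt J S x : ℝ) * (#(G \ S) * tot G c S x) ≤
        6 * (1 - α) * B * (#(G \ S) * tot G c S x) := by linarith
    exact le_of_mul_le_mul_right h4 (mul_pos hN' h0)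

theorem choose_ge_ratio {k z w : ℕ} (hk : k ≤ z) :
    ((z + w).choose k : ℝ) * (1 - (k : ℝ) / (z + 1)) ^ w ≤ z.choose k := by
  have hz : (0 : ℝ) < (z : ℝ) + 1 := by positivity
  have hk' : (k : ℝ) ≤ z := by exact_mod_cast hk
  have h0 : 0 ≤ 1 - (k : ℝ) / (z + 1) := by
    rw [sub_nonneg, div_le_one hz]; linarith
  induction w with
  | zero => simp
  | succ w ih =>
    have h1 : ((z + w).choose k : ℝ) * ((z + w : ℕ) + 1) =
        (z + w + 1).choose k * (((z + w : ℕ) : ℝ) + 1 - k) := by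
      have e := Nat.choose_mul_succ_eq (z + w) k
      have h2 : k ≤ z + w + 1 := by omega
      have e2 : (((z + w + 1 - k : ℕ) : ℝ)) = ((z + w : ℕ) : ℝ) + 1 - k := by
        rw [Nat.cast_sub h2, Nat.cast_succ]
      rw [← e2]
      exact_mod_cast e
    have hy : (0 : ℝ) < ((z + w : ℕ) : ℝ) + 1 := by positivity
    have h3 : (k : ℝ) / (((z + w : ℕ) : ℝ) + 1) ≤ k / (z + 1) := by
      refine div_le_div_of_nonneg_left (Nat.cast_nonneg _) hz ?_
      push_cast
      have : (0 : ℝ) ≤ w := Nat.cast_nonneg _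
      linarith
    have h4 : ((z + w + 1).choose k : ℝ) * (1 - (k : ℝ) / (z + 1)) ≤ (z + w).choose k := by
      have e : ((z + w).choose k : ℝ) =
          (z + w + 1).choose k * (1 - (k : ℝ) / (((z + w : ℕ) : ℝ) + 1)) := by
        rw [one_sub_div hy.ne', ← mul_div_assoc, eq_div_iff hy.ne', h1]
      rw [e]
      exact mul_le_mul_of_nonneg_left (by linarith) (Nat.cast_nonneg _)
    calc ((z + (w + 1)).choose k : ℝ) * (1 - (k : ℝ) / (z + 1)) ^ (w + 1)
        = (z + w + 1).choose k * (1 - (k : ℝ) / (z + 1)) * (1 - (k : ℝ) / (z + 1)) ^ w := by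
          rw [pow_succ', mul_assoc, add_assoc]
      _ ≤ (z + w).choose k * (1 - (k : ℝ) / (z + 1)) ^ w :=
          mul_le_mul_of_nonneg_right h4 (pow_nonneg h0 _)
      _ ≤ _ := ih

theorem log_ratio_le {α η N j w : ℝ} (hη0 : 0 < η) (hη : η ≤ 1 / 4) (hα0 : 0 < α) (hα1 : α < 1)
    (hN : 0 < N) (hj0 : 0 ≤ j) (hj : j ≤ α * N + η * min α (1 - α) * N) (hw0 : 0 ≤ w)
    (hw : w ≤ η * (1 - α) * N) :
    exp (-((1 + 6 * η) * log (1 / (1 - α)))) ≤ 1 - j / (N - w + 1) := by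
  have ha : 0 < 1 - α := by linarith
  have e0 : exp (-log (1 / (1 - α))) = 1 - α := by
    rw [exp_neg, exp_log (by positivity), one_div, inv_inv]
  have e1 : exp (-((1 + 6 * η) * log (1 / (1 - α)))) =
      (1 - α) * exp (-(6 * η * log (1 / (1 - α)))) := by
    conv_rhs => rw [← e0]
    rw [← exp_add, e0]
    congr 1
    ring
  rw [e1]
  set l : ℝ := log (1 / (1 - α)) with hl
  set E : ℝ := exp (-(6 * η * l)) with hE
  have hE0 : 0 < E := exp_pos _
  have hE1 : E * (1 + 6 * η * l) ≤ 1 := by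
    have h1 : 6 * η * l + 1 ≤ exp (6 * η * l) := add_one_le_exp _
    have h2 : E * exp (6 * η * l) = 1 := by rw [hE, ← exp_add]; simp
    have := mul_le_mul_of_nonneg_left h1 hE0.le
    linarith
  have hηa : η * (1 - α) ≤ 1 / 4 := by nlinarith
  have hwN : w ≤ 1 / 4 * N := hw.trans (mul_le_mul_of_nonneg_right hηa hN.le)
  have hz : 0 < N - w + 1 := by linarith
  rw [le_sub_comm, div_le_iff₀ hz]
  rcases le_total α (1 / 2) with h | h
  · rw [min_eq_left (by linarith)] at hj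
    have hlα : α ≤ l := by
      have := log_le_sub_one_of_pos ha
      rw [hl, one_div, log_inv]
      linarith
    have h1 : E * (1 + 6 * η * α) ≤ 1 := by
      have : E * (6 * η * α) ≤ E * (6 * η * l) :=
        mul_le_mul_of_nonneg_left (mul_le_mul_of_nonneg_left hlα (by positivity)) hE0.le
      linarith
    have hD : 0 < 1 - η * (1 - α) := by linarith
    have h2 : (1 - α) * (1 - η * (1 - α)) ≤ (1 - α - η) * (1 + 6 * η * α) := by
      have : η * α * (2 - α) ≤ η * α * (6 * (1 - α - η)) :=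
        mul_le_mul_of_nonneg_left (by linarith) (by positivity)
      nlinarith
    have h3 : (1 - α) * E * (1 - η * (1 - α)) ≤ 1 - α - η := by
      have a1 := mul_le_mul_of_nonneg_left h2 hE0.le
      have a2 := mul_le_mul_of_nonneg_left h1 (by linarith : 0 ≤ 1 - α - η)
      linarith
    have h4 : α * (1 + η) ≤ (1 - (1 - α) * E) * (1 - η * (1 - α)) := by linarith
    have h5 : 0 ≤ 1 - (1 - α) * E := by
      have : 0 < α * (1 + η) := by positivity
      exact nonneg_of_mul_nonneg_left (by linarith) hD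
    have h6 : (1 - η * (1 - α)) * N ≤ N - w + 1 := by linarith
    have h7 := mul_le_mul_of_nonneg_left h6 h5
    have h8 := mul_le_mul_of_nonneg_right h4 hN.le
    linarith
  · rw [min_eq_right (by linarith)] at hj
    have hl2 : 2 / 3 ≤ l := by
      have h1 : log 2 ≤ l := log_le_log (by norm_num) (by rw [le_div_iff₀ ha]; linarith)
      have := log_two_gt_d9
      linarith
    have h1 : E * (1 + 4 * η) ≤ 1 := by
      have : E * (6 * η * (2 / 3)) ≤ E * (6 * η * l) :=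
        mul_le_mul_of_nonneg_left (mul_le_mul_of_nonneg_left hl2 (by positivity)) hE0.le
      linarith
    have h2 : E ≤ 1 - 2 * η := by
      have a1 : 1 ≤ (1 - 2 * η) * (1 + 4 * η) := by nlinarith
      exact le_of_mul_le_mul_right (h1.trans a1) (by positivity)
    have h3 : (1 - α) * E ≤ (1 - α) * (1 - 2 * η) := mul_le_mul_of_nonneg_left h2 ha.le
    have h4 : (1 - α) * (1 - 2 * η) ≤ 1 := by nlinarith
    have h5 : 0 ≤ (1 - α) * (1 - 2 * η) := mul_nonneg ha.le (by linarith)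
    have h6 := mul_le_mul_of_nonneg_right h3 hz.le
    have h7 : (1 - α) * (1 - 2 * η) * (N - w + 1) ≤ (1 - α) * (1 - 2 * η) * (N + 1) :=
      mul_le_mul_of_nonneg_left (by linarith) h5
    linarith

end Pool.Agent.P.MP_4f3dfd_co.Ex
end

-- part Pool.Agent.P.MP_4f3dfd_co.FDual
section

set_option autoImplicit false
set_option linter.unusedSectionVars false
set_option linter.unusedVariables false

namespace Pool.Agent.P.MP_4f3dfd_co.Ex

open Finset Real

theorem ex_nonneg' {n c m : ℕ} (hc : 1 ≤ c) {J : Finset (Finset (Fin n))} (hJ : Reg n c m J) :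
    0 ≤ ex n c m #(shadow J) := by
  rw [← exc_shadow hc hJ]; positivity

/-- The dual pair of a regular family. -/
theorem dual_pack {n c k m m' : ℕ} (hk : c + k = n) (hc : 1 ≤ c) (hm : m + m' = n.choose c)
    {J : Finset (Finset (Fin n))} (hJ : Reg n c m J) :
    ∃ (Js Ds : Finset (Finset (Fin n))) (μ : ℝ),
      Pair univ (k + 1) Js Ds ∧ (exc univ Js Ds : ℝ) = ex n c m #(shadow J) ∧
      #Ds = m' ∧ (∃ d : ℕ, ∀ i, deg Ds i = d) ∧
      (∀ i, (k : ℝ) * #(blk Js Ds i) ≤ exc univ Js Ds) ∧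
      μ * n.choose (k + 1) = #Js ∧
      ((k : ℝ) + 1) * #Js = c * m' - exc univ Js Ds ∧
      μ * (c * n.choose c) = c * m' - exc univ Js Ds := by
  have hcn : c ≤ n := by omega
  obtain rfl : k = n - c := by omega
  have hp := pair_shadow hc hJ.1
  have hp' := pair_co hcn hp
  have hcast0 : ((n - c : ℕ) : ℝ) = (n : ℝ) - c := Nat.cast_sub hcn
  have hcast : ((n - c + 1 : ℕ) : ℝ) = (n : ℝ) - c + 1 := by
    rw [Nat.cast_add, Nat.cast_sub hcn, Nat.cast_one]
  have hk : n - c + c = n := Nat.sub_add_cancel hcn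
  obtain ⟨d, hd⟩ := hJ.2.2
  obtain ⟨d', hd'⟩ := reg_co hk hp.hJ (d := d) hd
  have h1 := card_co hk hp.hJ
  rw [hJ.2.1, Nat.choose_symm hcn] at h1
  have h1' : #(co (n - c) J) = m' := by omega
  have h2 := pair_card hp'
  rw [card_fin, hcast, h1'] at h2
  have h3 := choose_pred (z := n) (k := n - c + 1) (by omega)
  rw [hcast, Nat.add_sub_cancel, Nat.choose_symm hcn] at h3
  have hpos : (0 : ℝ) < n.choose (n - c + 1) := by
    exact_mod_cast Nat.choose_pos (by omega)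
  have h4 : (#(co (n - c + 1) (shadow J)) : ℝ) / n.choose (n - c + 1) * n.choose (n - c + 1) =
      #(co (n - c + 1) (shadow J)) := div_mul_cancel₀ _ hpos.ne'
  refine ⟨_, _, _, hp', ?_, h1', ⟨d', hd'⟩, fun k => ?_, h4, by rw [hcast0]; linarith, ?_⟩
  · rw [exc_co hcn hp, exc_shadow hc hJ]
  · have := blk_le_of_regD hp' (fun i _ => hd' i) (mem_univ k)
    rw [hcast] at this
    rw [hcast0]
    linarith
  · have h5 : (c : ℝ) * n.choose c = ((n : ℝ) - c + 1) * n.choose (n - c + 1) := by linarith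
    rw [h5, mul_left_comm, h4]
    linarith

end Pool.Agent.P.MP_4f3dfd_co.Ex
end

-- part Pool.Agent.P.MP_4f3dfd_co.FN3
section

set_option autoImplicit false
set_option linter.unusedSectionVars false
set_option linter.unusedVariables false

namespace Pool.Agent.P.MP_4f3dfd_co.Ex

open Finset Real

variable {V : Type*} [DecidableEq V]

theorem fn3_real {n c d x : ℕ} (h : Par n c d x) :
    (2 : ℝ) ≤ c ∧ (c : ℝ) + 2 ≤ n ∧ (1 : ℝ) ≤ d ∧ (d : ℝ) < (n - 1).choose (c - 1) ∧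
      (x : ℝ) + 1 ≤ n :=
  ⟨by exact_mod_cast h.hc, by exact_mod_cast h.hcn, by exact_mod_cast h.hd,
    by exact_mod_cast h.hdC, by exact_mod_cast h.hx⟩

theorem fn3_log {n c d x : ℕ} (h : Par n c d x) : 0 < log ((n : ℝ) / c) := by
  obtain ⟨h1, h2, -⟩ := fn3_real h
  exact log_pos (by rw [one_lt_div (by linarith)]; linarith)

theorem Par.c_le {n c d x : ℕ} (h : Par n c d x) : c ≤ x + 1 := by
  by_contra hc
  have h1 := h.hi
  have h2 : (0 : ℝ) ≤ d := Nat.cast_nonneg _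
  rw [Nat.choose_eq_zero_of_lt (by omega), Nat.cast_zero, mul_zero] at h1
  linarith

theorem Par.lg_pos {n c d x : ℕ} (h : Par n c d x) : 0 < lg n c d := by
  obtain ⟨-, -, h3, h4, -⟩ := fn3_real h
  exact log_pos (by rw [one_lt_div (by linarith)]; exact h4)

theorem Par.one_le_Lam {n c d x : ℕ} (h : Par n c d x) : 1 ≤ Lam n c d := by
  obtain ⟨h1, -⟩ := fn3_real h
  exact one_le_exp (div_nonneg (mul_nonneg h.lg_pos.le (log_nonneg (by linarith))) (fn3_log h).le)

theorem Par.one_le_lam {n c d x : ℕ} (h : Par n c d x) {w : ℝ} (h0 : 0 < w) (hw : w ≤ n) :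
    1 ≤ lam n c d w := by
  exact le_min ((one_le_div h0).2 hw) h.one_le_Lam

theorem Par.lo' {n c d x : ℕ} (h : Par n c d x) : (x - 1).choose (c - 1) ≤ d := by
  obtain ⟨h1, h2, h3, h4, h5⟩ := fn3_real h
  have h6 : (c : ℝ) ≤ x + 1 := by exact_mod_cast h.c_le
  have h7 := h.one_le_lam (w := (n : ℝ) - x + 1) (by linarith) (by linarith)
  have h8 : (0 : ℝ) ≤ (x - 1).choose (c - 1) := Nat.cast_nonneg _
  have h9 := h.lo
  have h10 : ((x - 1).choose (c - 1) : ℝ) ≤ d := by nlinarith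
  exact_mod_cast h10

theorem Par.d_eq {n c d x : ℕ} (h : Par n c d x) :
    (d : ℝ) = exp (-lg n c d) * (n - 1).choose (c - 1) := by
  obtain ⟨-, -, h3, h4, -⟩ := fn3_real h
  have h5 : (0 : ℝ) < d := by linarith
  have h6 : (0 : ℝ) < (n - 1).choose (c - 1) := by linarith
  rw [exp_neg, lg, exp_log (div_pos h6 h5)]
  field_simp

theorem Par.log_two_le {n c d x : ℕ} (h : Par n c d x) (h2 : 2 * d ≤ (n - 1).choose (c - 1)) :
    log 2 ≤ lg n c d := by
  obtain ⟨-, -, h3, h4, -⟩ := fn3_real h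
  have h5 : (2 : ℝ) * d ≤ (n - 1).choose (c - 1) := by exact_mod_cast h2
  exact log_le_log two_pos (by rw [le_div_iff₀ (by linarith)]; exact h5)

theorem Par.lg_add_log_Lam {n c d x : ℕ} (h : Par n c d x) :
    lg n c d + log (Lam n c d) = lg n c d * log n / log (n / c) := by
  obtain ⟨h1, h2, -⟩ := fn3_real h
  have h3 := fn3_log h
  have h4 : log (n : ℝ) = log ((n : ℝ) / c) + log c := by
    rw [log_div (by linarith) (by linarith)]; ring
  rw [Lam, log_exp, h4]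
  field_simp

theorem Par.log_two_le_bb {n c d x : ℕ} (h : Par n c d x) : 2 * log 2 ≤ bb n c := by
  obtain ⟨h1, h2, -⟩ := fn3_real h
  have h3 : 2 * log 2 = log 4 := by
    rw [show (4 : ℝ) = 2 ^ 2 by norm_num, log_pow]; norm_num
  rw [h3]
  refine log_le_log (by norm_num) ?_
  rw [le_div_iff₀ (mul_pos (by linarith) (by linarith))]
  nlinarith [sq_nonneg ((n : ℝ) - 2 * c)]

theorem Par.link {n c d x : ℕ} (h : Par n c d x) :
    ∃ z : ℕ, x ≤ z ∧ z < n ∧ (z - 1).choose (c - 1) ≤ d ∧ d < z.choose (c - 1) := by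
  have hex : ∃ z : ℕ, d < z.choose (c - 1) := ⟨n - 1, h.hdC⟩
  have h1 := Nat.find_spec hex
  have h2 : Nat.find hex ≤ n - 1 := Nat.find_min' hex h.hdC
  have h3 := h.hc
  have h4 := h.hcn
  refine ⟨Nat.find hex, ?_, by omega, ?_, h1⟩
  · by_contra hc
    have h5 : (Nat.find hex).choose (c - 1) ≤ (x - 1).choose (c - 1) :=
      Nat.choose_le_choose _ (by omega)
    have h6 := h.lo'
    omega
  · have h5 : Nat.find hex ≠ 0 := by
      intro h0
      rw [h0, Nat.choose_eq_zero_of_lt (by omega)] at h1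
      omega
    exact not_lt.1 (Nat.find_min hex (by omega))

theorem Par.size {n c d x : ℕ} (h : Par n c d x) {m : ℕ} (hm : c * m = d * n) :
    1 ≤ m ∧ m < n.choose c ∧ d ≤ m ∧ lg n c d = log ((n.choose c : ℝ) / m) ∧
      (2 * m ≤ n.choose c ↔ 2 * d ≤ (n - 1).choose (c - 1)) := by
  obtain ⟨h1, h2, h3, h4, h5⟩ := fn3_real h
  have h6 := h.hc
  have h7 := h.hcn
  have hp := choose_pred_pred (n := n) (c := c) (by omega) (by omega)
  have hm' : (c : ℝ) * m = d * n := by exact_mod_cast hm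
  have hc0 : (0 : ℝ) < c := by linarith
  have hn0 : (0 : ℝ) < n := by linarith
  have hd0 : (0 : ℝ) < d := by linarith
  have hdm : (d : ℝ) ≤ m := le_of_mul_le_mul_left (by nlinarith) hc0
  have hmC : (m : ℝ) < n.choose c := lt_of_mul_lt_mul_left (by nlinarith) hc0.le
  have hm0 : (0 : ℝ) < m := by linarith
  refine ⟨by exact_mod_cast h3.trans hdm, by exact_mod_cast hmC, by exact_mod_cast hdm, ?_, ?_⟩
  · rw [lg]
    congr 1
    rw [div_eq_div_iff hd0.ne' hm0.ne']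
    refine mul_left_cancel₀ hc0.ne' ?_
    calc (c : ℝ) * ((n - 1).choose (c - 1) * m) = (n - 1).choose (c - 1) * (c * m) := by ring
      _ = (n * (n - 1).choose (c - 1)) * d := by rw [hm']; ring
      _ = c * (n.choose c * d) := by rw [hp]; ring
  · constructor
    · intro h8
      have h9 : (2 : ℝ) * m ≤ n.choose c := by exact_mod_cast h8
      have h10 : (2 : ℝ) * d ≤ (n - 1).choose (c - 1) :=
        le_of_mul_le_mul_left (by nlinarith) hn0
      exact_mod_cast h10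
    · intro h8
      have h9 : (2 : ℝ) * d ≤ (n - 1).choose (c - 1) := by exact_mod_cast h8
      have h10 : (2 : ℝ) * m ≤ n.choose c := le_of_mul_le_mul_left (by nlinarith) hc0
      exact_mod_cast h10

end Pool.Agent.P.MP_4f3dfd_co.Ex
end

-- part Pool.Agent.P.MP_4f3dfd_co.FT2
section

set_option autoImplicit false
set_option linter.unusedSectionVars false
set_option linter.unusedVariables false

namespace Pool.Agent.P.MP_4f3dfd_co.Ex

open Finset Real
open scoped Pointwise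

variable {n : ℕ} [NeZero n]

theorem mem_nc {l : ℕ} {Q : Finset (Finset (Fin n))} {X : Finset (Fin n)} :
    X ∈ nc l Q ↔ #X = l ∧ ∀ P ∈ Q, ∀ s : Fin n, ¬ s +ᵥ P ⊆ X := by
  unfold nc
  rw [mem_filter]
  exact ⟨fun h => h.2, fun h => ⟨mem_univ _, h⟩⟩

theorem ft2_vadd {l : ℕ} {Q : Finset (Finset (Fin n))} {X : Finset (Fin n)} (t : Fin n)
    (hX : X ∈ nc l Q) : t +ᵥ X ∈ nc l Q := by
  obtain ⟨h1, h2⟩ := mem_nc.1 hX
  refine mem_nc.2 ⟨by rw [card_vadd_finset, h1], fun P hP s hs => h2 P hP (-t + s) ?_⟩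
  have h3 : (-t) +ᵥ (s +ᵥ P) ⊆ (-t) +ᵥ (t +ᵥ X) := vadd_finset_subset_vadd_finset hs
  rwa [neg_vadd_vadd, vadd_vadd] at h3

theorem ft2_insert (l : ℕ) (Q : Finset (Finset (Fin n))) (P : Finset (Fin n)) :
    nc l (insert P Q) = {X ∈ nc l Q | ¬ ∃ s : Fin n, s +ᵥ P ⊆ X} := by
  ext X
  rw [mem_filter, mem_nc, mem_nc]
  constructor
  · rintro ⟨h1, h2⟩
    exact ⟨⟨h1, fun R hR => h2 R (mem_insert_of_mem hR)⟩,
      fun ⟨s, hs⟩ => h2 P (mem_insert_self _ _) s hs⟩
  · rintro ⟨⟨h1, h2⟩, h3⟩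
    refine ⟨h1, fun R hR s hs => ?_⟩
    rcases mem_insert.1 hR with rfl | hR
    · exact h3 ⟨s, hs⟩
    · exact h2 R hR s hs

theorem nc_empty (l : ℕ) : nc l (∅ : Finset (Finset (Fin n))) = powersetCard l univ := by
  ext X
  rw [mem_nc, mem_powersetCard]
  exact ⟨fun h => ⟨subset_univ _, h.1⟩, fun h => ⟨h.2, fun P hP => absurd hP (notMem_empty _)⟩⟩

theorem pair_nc {l : ℕ} (hl : 1 ≤ l) (Q : Finset (Finset (Fin n))) :
    Pair univ l (nc l Q) (nc (l - 1) Q) := by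
  refine ⟨hl, ?_, ?_, ?_⟩
  · intro X hX
    exact mem_powersetCard.2 ⟨subset_univ _, (mem_nc.1 hX).1⟩
  · intro X hX
    exact mem_powersetCard.2 ⟨subset_univ _, (mem_nc.1 hX).1⟩
  · intro X hX i hi
    obtain ⟨h1, h2⟩ := mem_nc.1 hX
    refine mem_nc.2 ⟨by rw [card_erase_of_mem hi, h1], fun P hP s hs => ?_⟩
    exact h2 P hP s (hs.trans (erase_subset _ _))

theorem reg_nc (l : ℕ) (Q : Finset (Finset (Fin n))) : ∃ d : ℕ, ∀ i, deg (nc l Q) i = d := by
  have key : ∀ u v : Fin n, deg (nc l Q) u ≤ deg (nc l Q) v := by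
    intro u v
    unfold deg
    apply card_le_card_of_injOn (fun X => (v - u) +ᵥ X)
    · intro X hX
      rw [mem_coe, mem_filter] at hX ⊢
      refine ⟨ft2_vadd _ hX.1, mem_vadd_finset.2 ⟨u, hX.2, ?_⟩⟩
      simp
    · intro X _ Y _ h
      exact AddAction.injective _ h
  exact ⟨deg (nc l Q) 0, fun i => le_antisymm (key i 0) (key 0 i)⟩

theorem card_nc_insert (l : ℕ) (Q : Finset (Finset (Fin n))) (P : Finset (Fin n)) :
    #(nc l (insert P Q)) + #{X ∈ nc l Q | ∃ s : Fin n, s +ᵥ P ⊆ X} = #(nc l Q) := by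
  rw [ft2_insert, add_comm]
  exact card_filter_add_card_filter_not _

theorem nc_step {l : ℕ} (hl : l ≤ n) (Q : Finset (Finset (Fin n))) (P : Finset (Fin n)) :
    (#{X ∈ nc l Q | ∃ s : Fin n, s +ᵥ P ⊆ X} : ℝ) ≤ n * (n.choose l * ((l : ℝ) / n) ^ #P) := by
  have h1 : {X ∈ nc l Q | ∃ s : Fin n, s +ᵥ P ⊆ X} ⊆ (univ : Finset (Fin n)).biUnion
      fun s => {X ∈ powersetCard l (univ : Finset (Fin n)) | s +ᵥ P ⊆ X} := by
    intro X hX
    obtain ⟨hX1, s, hs⟩ := mem_filter.1 hX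
    exact mem_biUnion.2 ⟨s, mem_univ _, mem_filter.2
      ⟨mem_powersetCard.2 ⟨subset_univ _, (mem_nc.1 hX1).1⟩, hs⟩⟩
  have h2 := (card_le_card h1).trans card_biUnion_le
  have h3 : (#{X ∈ nc l Q | ∃ s : Fin n, s +ᵥ P ⊆ X} : ℝ) ≤
      ∑ s : Fin n, (#{X ∈ powersetCard l (univ : Finset (Fin n)) | s +ᵥ P ⊆ X} : ℝ) := by
    exact_mod_cast h2
  refine h3.trans ?_
  have h4 : ∀ s ∈ (univ : Finset (Fin n)),
      (#{X ∈ powersetCard l (univ : Finset (Fin n)) | s +ᵥ P ⊆ X} : ℝ) ≤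
        n.choose l * ((l : ℝ) / n) ^ #P := by
    intro s _
    have := supersets_le (l := l) (r := 0) (j := #P) (Nat.zero_le _) hl (s +ᵥ P)
      (by rw [card_vadd_finset, zero_add])
    simpa using this
  refine (sum_le_sum h4).trans ?_
  rw [sum_const, card_univ, Fintype.card_fin, nsmul_eq_mul]

theorem exc_insert (l : ℕ) (Q : Finset (Finset (Fin n))) (P : Finset (Fin n)) :
    exc univ (nc l (insert P Q)) (nc (l - 1) (insert P Q)) +
        ∑ k, #{Y ∈ blk (nc l Q) (nc (l - 1) Q) k | ∃ s : Fin n, s +ᵥ P ⊆ Y} ≤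
      exc univ (nc l Q) (nc (l - 1) Q) + #P * #{X ∈ nc l Q | ∃ s : Fin n, s +ᵥ P ⊆ X} := by
  have h1 : ∀ k : Fin n, #(blk (nc l (insert P Q)) (nc (l - 1) (insert P Q)) k) +
      #{Y ∈ blk (nc l Q) (nc (l - 1) Q) k | ∃ s : Fin n, s +ᵥ P ⊆ Y} ≤
      #(blk (nc l Q) (nc (l - 1) Q) k) +
      #{X ∈ ({X ∈ nc l Q | ∃ s : Fin n, s +ᵥ P ⊆ X} : Finset (Finset (Fin n))) |
        k ∈ X ∧ ¬ ∃ s : Fin n, s +ᵥ P ⊆ X.erase k} := by
    intro k
    have e1 := card_filter_add_card_filter_not (s := blk (nc l Q) (nc (l - 1) Q) k)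
      (fun Y => ∃ s : Fin n, s +ᵥ P ⊆ Y)
    have e2 := card_filter_add_card_filter_not
      (s := blk (nc l (insert P Q)) (nc (l - 1) (insert P Q)) k)
      (fun Y => insert k Y ∈ nc l Q)
    have e3 : #{Y ∈ blk (nc l (insert P Q)) (nc (l - 1) (insert P Q)) k | ¬ insert k Y ∈ nc l Q} ≤
        #{Y ∈ blk (nc l Q) (nc (l - 1) Q) k | ¬ ∃ s : Fin n, s +ᵥ P ⊆ Y} := by
      apply card_le_card
      intro Y hY
      obtain ⟨hY1, hY2⟩ := mem_filter.1 hY
      unfold blk at hY1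
      obtain ⟨hD, hk, _⟩ := mem_filter.1 hY1
      rw [ft2_insert] at hD
      obtain ⟨hD1, hD2⟩ := mem_filter.1 hD
      refine mem_filter.2 ⟨?_, hD2⟩
      unfold blk
      exact mem_filter.2 ⟨hD1, hk, hY2⟩
    have e4 : #{Y ∈ blk (nc l (insert P Q)) (nc (l - 1) (insert P Q)) k | insert k Y ∈ nc l Q} ≤
        #{X ∈ ({X ∈ nc l Q | ∃ s : Fin n, s +ᵥ P ⊆ X} : Finset (Finset (Fin n))) |
          k ∈ X ∧ ¬ ∃ s : Fin n, s +ᵥ P ⊆ X.erase k} := by
      apply card_le_card_of_injOn (fun Y => insert k Y)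
      · intro Y hY
        rw [mem_coe] at hY ⊢
        obtain ⟨hY1, hY2⟩ := mem_filter.1 hY
        unfold blk at hY1
        obtain ⟨hD, hk, hJ⟩ := mem_filter.1 hY1
        rw [ft2_insert] at hD hJ
        obtain ⟨hD1, hD2⟩ := mem_filter.1 hD
        refine mem_filter.2 ⟨mem_filter.2 ⟨hY2, ?_⟩, mem_insert_self _ _, ?_⟩
        · by_contra hh
          exact hJ (mem_filter.2 ⟨hY2, hh⟩)
        · rw [erase_insert hk]
          exact hD2
      · intro Y hY Z hZ h
        rw [mem_coe] at hY hZ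
        have hY1 := (mem_filter.1 hY).1
        have hZ1 := (mem_filter.1 hZ).1
        unfold blk at hY1 hZ1
        have hkY := (mem_filter.1 hY1).2.1
        have hkZ := (mem_filter.1 hZ1).2.1
        have h' : insert k Y = insert k Z := h
        rw [← erase_insert hkY, h', erase_insert hkZ]
    omega
  have h2 : ∑ k : Fin n,
      #{X ∈ ({X ∈ nc l Q | ∃ s : Fin n, s +ᵥ P ⊆ X} : Finset (Finset (Fin n))) |
        k ∈ X ∧ ¬ ∃ s : Fin n, s +ᵥ P ⊆ X.erase k} ≤
      #P * #{X ∈ nc l Q | ∃ s : Fin n, s +ᵥ P ⊆ X} := by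
    have e := sum_card_bipartiteAbove_eq_sum_card_bipartiteBelow
      (s := (univ : Finset (Fin n)))
      (t := ({X ∈ nc l Q | ∃ s : Fin n, s +ᵥ P ⊆ X} : Finset (Finset (Fin n))))
      (r := fun k X => k ∈ X ∧ ¬ ∃ s : Fin n, s +ᵥ P ⊆ X.erase k)
    unfold bipartiteAbove bipartiteBelow at e
    rw [e]
    rw [mul_comm, ← smul_eq_mul, ← sum_const]
    apply sum_le_sum
    intro X hX
    obtain ⟨_, s, hs⟩ := mem_filter.1 hX
    rw [← card_vadd_finset s P]
    apply card_le_card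
    intro k hk
    have hk2 := (mem_filter.1 hk).2.2
    by_contra hh
    exact hk2 ⟨s, subset_erase.2 ⟨hs, hh⟩⟩
  unfold exc
  rw [← sum_add_distrib]
  refine (sum_le_sum fun k _ => h1 k).trans ?_
  rw [sum_add_distrib]
  exact Nat.add_le_add_left h2 _

end Pool.Agent.P.MP_4f3dfd_co.Ex
end

-- part Pool.Agent.P.MP_4f3dfd_co.FT4
section

set_option autoImplicit false
set_option linter.unusedSectionVars false
set_option linter.unusedVariables false

namespace Pool.Agent.P.MP_4f3dfd_co.Ex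

open Finset Real
open scoped Pointwise

variable {n : ℕ} [NeZero n]

theorem ft4_ov (r : ℕ) (X : Finset (Fin n)) :
    (ov r X : ℝ) ≤ ∑ s ∈ (univ : Finset (Fin n)).erase 0,
      ∑ P ∈ powersetCard r (univ : Finset (Fin n)), if P ∪ (s +ᵥ P) ⊆ X then (1 : ℝ) else 0 := by
  have h : {P ∈ powersetCard r X | ∃ s : Fin n, s ≠ 0 ∧ s +ᵥ P ⊆ X} ⊆
      ((univ : Finset (Fin n)).erase 0).biUnion fun s =>
        {P ∈ powersetCard r (univ : Finset (Fin n)) | P ∪ (s +ᵥ P) ⊆ X} := by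
    intro P hP
    obtain ⟨h1, s, hs, h2⟩ := mem_filter.1 hP
    obtain ⟨h3, h4⟩ := mem_powersetCard.1 h1
    exact mem_biUnion.2 ⟨s, mem_erase.2 ⟨hs, mem_univ _⟩, mem_filter.2
      ⟨mem_powersetCard.2 ⟨subset_univ _, h4⟩, union_subset h3 h2⟩⟩
  have h2 := (card_le_card h).trans card_biUnion_le
  simp only [sum_boole]
  exact_mod_cast h2

theorem ft4_shift {l ρ : ℕ} (h : 12 * ρ ≤ n) (hr : 6 * ρ ≤ l) (hl : l ≤ n) {s : Fin n}
    (hs : s ≠ 0) :
    ∑ P ∈ powersetCard (6 * ρ) (univ : Finset (Fin n)),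
      (#{X ∈ powersetCard l (univ : Finset (Fin n)) | P ∪ (s +ᵥ P) ⊆ X} : ℝ) ≤
      n.choose l * l.choose (6 * ρ) * eps n l ρ := by
  have hD : (0 : ℝ) ≤ (n - 6 * ρ).choose (l - 6 * ρ) := Nat.cast_nonneg _
  have h1 : ∀ P ∈ powersetCard (6 * ρ) (univ : Finset (Fin n)),
      (#{X ∈ powersetCard l (univ : Finset (Fin n)) | P ∪ (s +ᵥ P) ⊆ X} : ℝ) ≤
        (n - 6 * ρ).choose (l - 6 * ρ) * (((l : ℝ) / n) ^ (3 * ρ) +
          if 3 * ρ ≤ #(P ∩ (s +ᵥ P)) then (1 : ℝ) else 0) := by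
    intro P hP
    have hc := (mem_powersetCard.1 hP).2
    have hu := card_union_add_card_inter P (s +ᵥ P)
    rw [card_vadd_finset, hc] at hu
    split_ifs with hb
    · have h2 := supersets_le (j := 0) hr hl (P ∪ (s +ᵥ P))
        (hc.ge.trans (card_le_card subset_union_left))
      rw [pow_zero] at h2
      exact h2.trans (mul_le_mul_of_nonneg_left (le_add_of_nonneg_left (by positivity)) hD)
    · rw [add_zero]
      exact supersets_le hr hl _ (by omega)
  refine (sum_le_sum h1).trans ?_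
  have e : (n.choose l : ℝ) * l.choose (6 * ρ) =
      n.choose (6 * ρ) * (n - 6 * ρ).choose (l - 6 * ρ) := by
    exact_mod_cast Nat.choose_mul hr
  rw [← mul_sum, sum_add_distrib, sum_const, sum_boole, card_powersetCard, card_univ,
    Fintype.card_fin, nsmul_eq_mul, e, eps, mul_comm (n.choose (6 * ρ) : ℝ) (Nat.cast _), mul_assoc]
  refine mul_le_mul_of_nonneg_left ?_ hD
  rw [mul_add]
  exact add_le_add le_rfl (few_overlap h hs)

theorem ft4_eps (l ρ : ℕ) : 0 ≤ eps n l ρ := by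
  unfold eps; positivity

theorem sum_ov {l ρ : ℕ} (h : 12 * ρ ≤ n) (hr : 6 * ρ ≤ l) (hl : l ≤ n) :
    ∑ X ∈ powersetCard l (univ : Finset (Fin n)), (ov (6 * ρ) X : ℝ) ≤
      n.choose l * l.choose (6 * ρ) * (n * eps n l ρ) := by
  refine (sum_le_sum fun X _ => ft4_ov (6 * ρ) X).trans ?_
  rw [sum_comm]
  have h1 : ∀ s ∈ (univ : Finset (Fin n)).erase 0,
      (∑ X ∈ powersetCard l (univ : Finset (Fin n)),
        ∑ P ∈ powersetCard (6 * ρ) (univ : Finset (Fin n)),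
          if P ∪ (s +ᵥ P) ⊆ X then (1 : ℝ) else 0) ≤
        n.choose l * l.choose (6 * ρ) * eps n l ρ := by
    intro s hs
    rw [sum_comm]
    simp only [sum_boole]
    exact ft4_shift h hr hl (mem_erase.1 hs).1
  refine (sum_le_card_nsmul _ _ _ h1).trans ?_
  have h2 : (#((univ : Finset (Fin n)).erase 0) : ℝ) ≤ n := by
    exact_mod_cast card_erase_le.trans (by simp)
  have h3 := ft4_eps (n := n) l ρ
  rw [nsmul_eq_mul, mul_left_comm _ (n : ℝ)]
  exact mul_le_mul_of_nonneg_right h2 (by positivity)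

theorem eps_mono {l l' : ℕ} (h : l ≤ l') (ρ : ℕ) : eps n l ρ ≤ eps n l' ρ := by
  unfold eps
  gcongr

theorem pow_le_eps {l : ℕ} (hl : l ≤ n) (ρ : ℕ) : ((l : ℝ) / n) ^ (6 * ρ) ≤ eps n l ρ := by
  have h1 : (l : ℝ) / n ≤ 1 := div_le_one_of_le₀ (by exact_mod_cast hl) (Nat.cast_nonneg _)
  exact (pow_le_pow_of_le_one (by positivity) h1 (by omega)).trans
    (le_add_of_nonneg_right (by positivity))

theorem ent_diff {C z z' : ℝ} (hC : 0 < C) (h0 : 0 < z') (h1 : z' ≤ z) :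
    z * (1 + log (C / z)) - z' * (1 + log (C / z')) ≤ (z - z') * log (C / z') := by
  have hz : 0 < z := h0.trans_le h1
  have h2 := mul_le_mul_of_nonneg_left (log_le_sub_one_of_pos (div_pos h0 hz)) hz.le
  rw [log_div h0.ne' hz.ne', mul_sub z (z' / z), mul_div_cancel₀ _ hz.ne'] at h2
  rw [log_div hC.ne' hz.ne', log_div hC.ne' h0.ne']
  nlinarith

theorem ent_mono {C z z' : ℝ} (h0 : 0 ≤ z') (h1 : z' ≤ z) (h2 : z ≤ C) :
    z' * (1 + log (C / z')) ≤ z * (1 + log (C / z)) := by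
  rcases (h0.trans h1).eq_or_lt with rfl | hz
  · rw [le_antisymm h1 h0]
  have h3 : 0 ≤ log (C / z) := log_nonneg ((one_le_div hz).2 h2)
  rcases h0.eq_or_lt with rfl | h0
  · rw [zero_mul]; positivity
  have hC : 0 < C := hz.trans_le h2
  have h4 := mul_le_mul_of_nonneg_left (log_le_sub_one_of_pos (div_pos hz h0)) h0.le
  rw [log_div hz.ne' h0.ne', mul_sub z' (z / z'), mul_div_cancel₀ _ h0.ne'] at h4
  have h5 := mul_nonneg (sub_nonneg.2 h1) h3
  rw [log_div hC.ne' hz.ne'] at h5 ⊢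
  rw [log_div hC.ne' h0.ne']
  nlinarith

end Pool.Agent.P.MP_4f3dfd_co.Ex
end

-- part Pool.Agent.P.MP_4f3dfd_co.FB2
section

set_option autoImplicit false
set_option linter.unusedSectionVars false
set_option linter.unusedVariables false

namespace Pool.Agent.P.MP_4f3dfd_co.Ex

open Finset Real

variable {V : Type*} [DecidableEq V]

theorem hc_levelU (G : Finset V) (c r : ℕ) (E : Finset (Finset V)) (hE : E ⊆ powersetCard c G)
    {a θ τ : ℝ} (ha : 0 < a) (h1 : 2 * a * #G ≤ c) (h2 : (c : ℝ) ≤ (1 - 2 * a) * #G) (hr : r < #G)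
    (hθ0 : 0 < θ) (hθ : θ * bt a ≤ 1)
    (hN : 48 * log (2 * √((#G : ℝ) - r)) ≤ θ * a * ((#G : ℝ) - r))
    (hτ0 : 0 ≤ τ) (hτ : τ ≤ θ * (1 - (1 + 3 * θ * bt a) / ((#G : ℝ) - r))) :
    Av G (r + 1) (pw E G c (1 + θ)) ≤
      exp (8 * θ / ((#G : ℝ) - r)) * Av G r (pw E G c (1 + τ)) +
        zeta #G 1 (a * ((#G : ℝ) - r) / 6) * (#G).choose c := by
  have hn : (0 : ℝ) < #G := Nat.cast_pos.2 (by omega)
  have hc0 : 0 < c := Nat.cast_pos.1 (lt_of_lt_of_le (by positivity) h1)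
  have hc1 : c < #G := Nat.cast_lt.1 (h2.trans_lt (by nlinarith [mul_pos ha hn]))
  have hlo : 2 * a ≤ c / #G := (le_div_iff₀ hn).2 h1
  have hhi : (c : ℝ) / #G ≤ 1 - 2 * a := (div_le_iff₀ hn).2 h2
  have h3a := three_aa (n := #G) (by omega) c
  have m0 : 2 * a ≤ 3 * aa #G c := by rw [h3a]; exact le_min hlo (by linarith)
  have m1 : 3 * aa #G c ≤ c / #G := by rw [h3a]; exact min_le_left _ _
  have m2 : 3 * aa #G c ≤ 1 - c / #G := by rw [h3a]; exact min_le_right _ _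
  refine (Av_step G hr (Ψ := fun S x => exp (8 * θ / ((#G : ℝ) - r)) *
    pw E G c (1 + τ) S x + atyp G c (1 / 2 * (3 * aa #G c)) S x) fun S hS hSr x hx => ?_).trans ?_
  · have hcard : (#(G \ S) : ℝ) = (#G : ℝ) - r := by
      rw [card_sdiff_of_subset hS, hSr, Nat.cast_sub hr.le]
    have hpos : 0 < #(G \ S) := by
      rw [card_sdiff_of_subset hS, hSr]
      omega
    have hpos' : (0 : ℝ) < #(G \ S) := Nat.cast_pos.2 hpos
    rw [← hcard] at hN hτ ⊢
    rcases typ_or hE hS x (1 / 2 * (3 * aa #G c)) with h | ⟨-, h⟩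
    · refine (sum_le_card_nsmul _ _ _ fun i hi =>
        pw_children_le hE hS hx (by linarith) hi).trans ?_
      rw [nsmul_eq_mul]
      refine mul_le_mul_of_nonneg_left (h.trans (le_add_of_nonneg_left ?_)) hpos'.le
      exact mul_nonneg (exp_pos _).le (wp_nonneg _ _ _)
    · obtain ⟨h3, h4⟩ := abs_le.1 h
      rw [sum_congr rfl fun i hi => pw_children E hS hx c (1 + θ) hi, pw_eq E hS]
      refine (hc_stepU (G \ S) (c - #x) (fib E S x) (fib_subset hE S x) ha hpos ?_ ?_ hθ0 hθ hN hτ0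
        hτ).trans (mul_le_mul_of_nonneg_left
          (le_add_of_nonneg_right (atyp_nonneg G c _ S x)) hpos'.le)
      · nlinarith [mul_le_mul_of_nonneg_right m0 hpos'.le, mul_le_mul_of_nonneg_right m1 hpos'.le]
      · nlinarith [mul_le_mul_of_nonneg_right m0 hpos'.le, mul_le_mul_of_nonneg_right m2 hpos'.le]
  · rw [Av_add, Av_mul]
    refine add_le_add le_rfl ((Av_atypU G hc0 hc1 hr.le (by norm_num) (by norm_num)).trans ?_)
    have hr' : (0 : ℝ) ≤ (#G : ℝ) - r := sub_nonneg.2 (by exact_mod_cast hr.le)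
    refine mul_le_mul_of_nonneg_right (zeta_mono le_rfl 1 ?_) (Nat.cast_nonneg _)
    nlinarith [mul_le_mul_of_nonneg_right m0 hr']

end Pool.Agent.P.MP_4f3dfd_co.Ex
end

-- part Pool.Agent.P.MP_4f3dfd_co.FC3
section

set_option autoImplicit false
set_option linter.unusedSectionVars false
set_option linter.unusedVariables false

namespace Pool.Agent.P.MP_4f3dfd_co.Ex

open Finset Real

variable {V : Type*} [DecidableEq V]

theorem fc3_level {G : Finset V} {c : ℕ} {J D : Finset (Finset V)} (h : Pair G c J D)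
    {a θ θ' Γ : ℝ} (hc1 : c < #G) (ha : 2 * a ≤ 3 * aa #G c) (hθ' : 0 ≤ θ') (hΓ : 0 ≤ Γ)
    (hm : ∀ (H : Finset V) (j : ℕ) (A B : Finset (Finset V)), Pair H j A B → 0 < #H →
      |(j : ℝ) - c / #G * #H| ≤ 1 / 2 * (3 * aa #G c) * #H →
      ∑ i ∈ H, (wp ((#H - 1).choose (j - 1)) (deg A i) (1 + θ') +
        wp ((#H - 1).choose j) (#A - deg A i) (1 + θ')) ≤
      #H * wp ((#H).choose j) #A (1 + θ') +
        Γ * ∑ k ∈ H, wp ((#H - 1).choose (j - 1)) #(blk A B k) (1 + θ)) :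
    Step G c J D a θ θ' Γ := by
  intro r hr
  have hG : 0 < #G := (Nat.zero_le r).trans_lt hr
  have hn : (0 : ℝ) < #G := by exact_mod_cast hG
  have hN : (0 : ℝ) < (#G : ℝ) - r := sub_pos.2 (by exact_mod_cast hr)
  have hc0 : 0 < c := h.pos
  have hα : (0 : ℝ) < c / #G := div_pos (by exact_mod_cast hc0) hn
  have hlo : 3 * aa #G c ≤ c / #G := by rw [three_aa hG]; exact min_le_left _ _
  have key := Av_step G hr (Φ := pw J G c (1 + θ')) (Ψ := fun S x => (pw J G c (1 + θ') S x +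
      Γ / ((#G : ℝ) - r) *
        ∑ k ∈ G \ S, pw (blk J D k) (G.erase k) (c - 1) (1 + θ) S x) +
          atyp G c (1 / 2 * (3 * aa #G c)) S x)
    fun S hS hSr x hx => by
      have hH : (#(G \ S) : ℝ) = (#G : ℝ) - r := by
        rw [card_sdiff_of_subset hS, Nat.cast_sub (card_le_card hS), hSr]
      have p1 : 0 ≤ pw J G c (1 + θ') S x := wp_nonneg _ _ _
      have p2 : 0 ≤ Γ / ((#G : ℝ) - r) *
          ∑ k ∈ G \ S, pw (blk J D k) (G.erase k) (c - 1) (1 + θ) S x :=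
        mul_nonneg (by positivity) (sum_nonneg fun k _ => wp_nonneg _ _ _)
      have p3 := atyp_nonneg G c (1 / 2 * (3 * aa #G c)) S x
      rcases typ_or h.hJ hS x (1 / 2 * (3 * aa #G c)) with ht | ⟨hxc, ht⟩
      · refine (sum_le_sum fun i hi => pw_children_le h.hJ hS hx (by linarith) hi).trans ?_
        rw [sum_const, nsmul_eq_mul, hH]
        exact mul_le_mul_of_nonneg_left (by linarith) hN.le
      · have hH0 : (0 : ℝ) < #(G \ S) := hH ▸ hN
        have q5 : #x < c := by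
          have t1 := (abs_le.1 ht).1
          have q1 := mul_le_mul_of_nonneg_right hlo hH0.le
          have q2 := mul_pos hα hH0
          have : (0 : ℝ) < ((c - #x : ℕ) : ℝ) := by linarith
          exact Nat.sub_pos_iff_lt.1 (by exact_mod_cast this)
        have hm' := hm _ _ _ _ (pair_fib h hx q5) (by exact_mod_cast hH0) ht
        have e1 : ∑ k ∈ G \ S, wp ((#(G \ S) - 1).choose (c - #x - 1))
            #(blk (fib J S x) (fib D S x) k) (1 + θ) =
            ∑ k ∈ G \ S, pw (blk J D k) (G.erase k) (c - 1) (1 + θ) S x :=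
          sum_congr rfl fun k hk => by
            rw [card_blk_fib J D hx (mem_sdiff.1 hk).2, pw, tot, card_sdiff_of_subset hS,
              card_erase_of_mem (mem_sdiff.1 hk).1, Nat.sub_right_comm (#G), Nat.sub_right_comm c]
        rw [e1, ← pw_eq J hS, hH] at hm'
        rw [sum_congr rfl fun i hi => pw_children J hS hx c (1 + θ') hi]
        refine hm'.trans ?_
        have e2 : ((#G : ℝ) - r) * (Γ / ((#G : ℝ) - r)) = Γ := by field_simp
        have p4 := mul_nonneg hN.le p3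
        rw [mul_add, mul_add, ← mul_assoc, e2]
        linarith
  rw [Av_add, Av_add, Av_mul, Av_erase G hr, ← mul_assoc] at key
  have e3 : Γ / ((#G : ℝ) - r) * (((#G : ℝ) - r) / #G) = Γ / #G := by field_simp
  rw [e3] at key
  refine key.trans (add_le_add le_rfl ((Av_atypU G hc0 hc1 hr.le (η := 1 / 2) (by norm_num)
    (by norm_num)).trans (mul_le_mul_of_nonneg_right (zeta_mono le_rfl 1 ?_) (Nat.cast_nonneg _))))
  have := mul_le_mul_of_nonneg_right ha hN.le
  linarith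

theorem stepG {G : Finset V} {c : ℕ} {J D : Finset (Finset V)} (h : Pair G c J D) {a θ θ' : ℝ}
    (ha : 0 < a) (hG : 0 < #G) (h1 : 2 * a * #G ≤ c) (h2 : (c : ℝ) ≤ (1 - 2 * a) * #G)
    (hθ0 : 0 < θ) (hθ : θ ≤ θ') (hθ' : θ' ≤ 1) (hθa : θ * log (1 / a) ≤ 1) :
    Step G c J D a θ θ' (60 * (1 - (c : ℝ) / #G)) := by
  have hn : (0 : ℝ) < #G := by exact_mod_cast hG
  have han : 0 < a * #G := mul_pos ha hn
  have hc1 : c < #G := by
    have : (c : ℝ) < #G := by linarith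
    exact_mod_cast this
  have b1 : 2 * a ≤ (c : ℝ) / #G := (le_div_iff₀ hn).2 h1
  have b2 : (c : ℝ) / #G ≤ 1 - 2 * a := (div_le_iff₀ hn).2 h2
  have hlo : 3 * aa #G c ≤ c / #G := by rw [three_aa hG]; exact min_le_left _ _
  have hhi : 3 * aa #G c ≤ 1 - c / #G := by rw [three_aa hG]; exact min_le_right _ _
  have ha2 : 2 * a ≤ 3 * aa #G c := by rw [three_aa hG]; exact le_min b1 (by linarith)
  refine fc3_level h hc1 ha2 (by linarith) (by linarith) fun H j A B hp hH ht => ?_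
  have hH0 : (0 : ℝ) < #H := by exact_mod_cast hH
  obtain ⟨t1, t2⟩ := abs_le.1 ht
  have q1 := mul_le_mul_of_nonneg_right hlo hH0.le
  have q2 := mul_le_mul_of_nonneg_right hhi hH0.le
  have q3 := mul_le_mul_of_nonneg_right b1 hH0.le
  have q4 := mul_le_mul_of_nonneg_right b2 hH0.le
  refine (mart_stepG hp ha hH (by linarith) (by linarith) hθ0 hθ hθ' hθa).trans
    (add_le_add le_rfl (mul_le_mul_of_nonneg_right ?_ (sum_nonneg fun k _ => wp_nonneg _ _ _)))
  have q5 : (c : ℝ) / #G - 1 / 2 * (1 - c / #G) ≤ j / #H := by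
    rw [le_div_iff₀ hH0]
    linarith
  linarith

theorem stepS {G : Finset V} {c : ℕ} {J D : Finset (Finset V)} (h : Pair G c J D) {a θ θ' : ℝ}
    (ha : 0 < a) (h1 : 2 * a * #G ≤ c) (h2 : 2 * c ≤ #G)
    (hθ0 : 0 < θ) (hθ : θ ≤ θ') (hθ' : θ' ≤ 1) : Step G c J D a θ θ' (10 * θ') := by
  have hc0 : 0 < c := h.pos
  have hG : 0 < #G := by omega
  have hn : (0 : ℝ) < #G := by exact_mod_cast hG
  have h2' : 2 * (c : ℝ) ≤ #G := by exact_mod_cast h2
  have b1 : 2 * a ≤ (c : ℝ) / #G := (le_div_iff₀ hn).2 h1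
  have b2 : (c : ℝ) / #G ≤ 1 / 2 := (div_le_iff₀ hn).2 (by linarith)
  have hlo : 3 * aa #G c ≤ c / #G := by rw [three_aa hG]; exact min_le_left _ _
  have ha2 : 2 * a ≤ 3 * aa #G c := by rw [three_aa hG]; exact le_min b1 (by linarith)
  refine fc3_level h (by omega) ha2 (by linarith) (by linarith) fun H j A B hp hH ht => ?_
  have hH0 : (0 : ℝ) < #H := by exact_mod_cast hH
  have t2 := (abs_le.1 ht).2
  have q1 := mul_le_mul_of_nonneg_right hlo hH0.le
  have q4 := mul_le_mul_of_nonneg_right b2 hH0.le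
  have q5 : 4 * (j : ℝ) ≤ 3 * #H := by linarith
  exact mart_stepS hp (by exact_mod_cast q5) hθ0 hθ hθ'

end Pool.Agent.P.MP_4f3dfd_co.Ex
end

-- part Pool.Agent.P.MP_4f3dfd_co.FD4
section

set_option autoImplicit false
set_option linter.unusedSectionVars false
set_option linter.unusedVariables false

namespace Pool.Agent.P.MP_4f3dfd_co.Ex

open Finset Real

variable {V : Type*} [DecidableEq V]

/-- Fibre bound from Kruskal-Katona, uniformly in the level. -/
theorem fib_kkU {n0 : ℕ} {G : Finset (Fin n0)} {c : ℕ} {J D : Finset (Finset (Fin n0))}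
    (h : Pair G c J D) {S x : Finset (Fin n0)} (hS : S ⊆ G) (hx : x ⊆ S) (hxc : #x ≤ c)
    {α η T : ℝ} {w : ℕ} (hη0 : 0 < η) (hη : η ≤ 1 / 4) (hα0 : 0 < α) (hα1 : α < 1)
    (ht : |((c - #x : ℕ) : ℝ) - α * #(G \ S)| ≤ η * min α (1 - α) * #(G \ S))
    (hN : 1 ≤ η * (1 - α) * #(G \ S)) (hw : (w : ℝ) ≤ η * (1 - α) * #(G \ S))
    (hT : T ≤ exp (-((1 + 6 * η) * w * log (1 / (1 - α)))))
    (hM : (cnt J S x : ℝ) ≤ T * tot G c S x) :
    (1 - 3 * η) * w * (α / (1 - α)) * cnt J S x ≤ ∑ k ∈ G \ S, (cnt (blk J D k) S x : ℝ) := by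
  have h1α : 0 < 1 - α := by linarith
  have hNpos : (0 : ℝ) < #(G \ S) := by
    by_contra hc
    have : η * (1 - α) * (#(G \ S) : ℝ) ≤ 0 :=
      mul_nonpos_of_nonneg_of_nonpos (mul_pos hη0 h1α).le (not_lt.1 hc)
    linarith
  obtain ⟨hlo, hhi⟩ := abs_le.1 ht
  have hm1 : η * min α (1 - α) * (#(G \ S) : ℝ) ≤ η * α * #(G \ S) :=
    mul_le_mul_of_nonneg_right (mul_le_mul_of_nonneg_left (min_le_left _ _) hη0.le) hNpos.le
  have hm2 : η * min α (1 - α) * (#(G \ S) : ℝ) ≤ η * (1 - α) * #(G \ S) :=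
    mul_le_mul_of_nonneg_right (mul_le_mul_of_nonneg_left (min_le_right _ _) hη0.le) hNpos.le
  have hjlo : α * (1 - η) * #(G \ S) ≤ ((c - #x : ℕ) : ℝ) := by linarith
  have hjpos : (0 : ℝ) < ((c - #x : ℕ) : ℝ) :=
    lt_of_lt_of_le (mul_pos (mul_pos hα0 (by linarith)) hNpos) hjlo
  have hjpos' : 0 < c - #x := by exact_mod_cast hjpos
  have hp := pair_fib h hx (by omega : #x < c)
  have hm3 : η * ((1 - α) * (#(G \ S) : ℝ)) ≤ 1 / 4 * ((1 - α) * #(G \ S)) :=
    mul_le_mul_of_nonneg_right hη (mul_pos h1α hNpos).le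
  have hm4 : 0 < (1 - α) * (#(G \ S) : ℝ) := mul_pos h1α hNpos
  have hjw2 : ((c - #x : ℕ) : ℝ) + w ≤ #(G \ S) := by linarith
  have hjw' : c - #x + w ≤ #(G \ S) := by exact_mod_cast hjw2
  have htot : tot G c S x = (#(G \ S)).choose (c - #x) := by
    rw [tot, card_sdiff_of_subset hS]
  have hw0 : (0 : ℝ) ≤ w := Nat.cast_nonneg _
  have hmp := choose_ge_ratio (k := c - #x) (z := #(G \ S) - w) (w := w) (by omega)
  rw [Nat.sub_add_cancel (by omega : w ≤ #(G \ S)), Nat.cast_sub (by omega : w ≤ #(G \ S))] at hmp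
  have hγ := log_ratio_le (N := (#(G \ S) : ℝ)) (j := ((c - #x : ℕ) : ℝ)) (w := (w : ℝ)) hη0 hη hα0
    hα1 hNpos hjpos.le (by linarith) hw0 hw
  have hpow : exp (-((1 + 6 * η) * w * log (1 / (1 - α)))) ≤
      (1 - ((c - #x : ℕ) : ℝ) / ((#(G \ S) : ℝ) - w + 1)) ^ w := by
    have e : -((1 + 6 * η) * w * log (1 / (1 - α))) =
        (w : ℝ) * (-((1 + 6 * η) * log (1 / (1 - α)))) := by ring
    rw [e, exp_nat_mul]
    exact pow_le_pow_left₀ (exp_pos _).le hγ w
  have hC : (0 : ℝ) ≤ ((#(G \ S)).choose (c - #x) : ℝ) := Nat.cast_nonneg _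
  have hA : (#(fib J S x) : ℝ) ≤ ((#(G \ S) - w).choose (c - #x) : ℝ) := by
    rw [card_fib]
    rw [htot] at hM
    calc (cnt J S x : ℝ) ≤ T * ((#(G \ S)).choose (c - #x) : ℝ) := hM
      _ ≤ (1 - ((c - #x : ℕ) : ℝ) / ((#(G \ S) : ℝ) - w + 1)) ^ w *
          ((#(G \ S)).choose (c - #x) : ℝ) := mul_le_mul_of_nonneg_right (hT.trans hpow) hC
      _ ≤ _ := by rw [mul_comm]; exact hmp
  have hk := exc_ge_kk hp hjw' (by exact_mod_cast hA)
  rw [card_fib, ef3_exc J D hx] at hk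
  set B : ℝ := ∑ k ∈ G \ S, (cnt (blk J D k) S x : ℝ) with hBdef
  have hB : 0 ≤ B := sum_nonneg fun k _ => Nat.cast_nonneg _
  have hc0 : (0 : ℝ) ≤ cnt J S x := Nat.cast_nonneg _
  have hup : (#(G \ S) : ℝ) - ((c - #x : ℕ) : ℝ) + 1 ≤ (1 - α) * (1 + 2 * η) * #(G \ S) := by
    linarith
  have h1 : α * (1 - η) * #(G \ S) * (w * cnt J S x) ≤ ((c - #x : ℕ) : ℝ) * (w * cnt J S x) :=
    mul_le_mul_of_nonneg_right hjlo (mul_nonneg hw0 hc0)
  have h2 : ((#(G \ S) : ℝ) - ((c - #x : ℕ) : ℝ) + 1) * B ≤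
      (1 - α) * (1 + 2 * η) * #(G \ S) * B :=
    mul_le_mul_of_nonneg_right hup hB
  have h3 : (α * (1 - η) * (w * cnt J S x)) * #(G \ S) ≤
      (B * ((1 - α) * (1 + 2 * η))) * #(G \ S) := by
    linarith
  have h4 := le_of_mul_le_mul_right h3 hNpos
  have hP : 0 ≤ α * (w * (cnt J S x : ℝ)) := mul_nonneg hα0.le (mul_nonneg hw0 hc0)
  have h5 : (1 - 3 * η) * (1 + 2 * η) ≤ 1 - η := by nlinarith [sq_nonneg η]
  have h6 := mul_le_mul_of_nonneg_right h5 hP
  have h7 : ((1 - 3 * η) * w * α * cnt J S x) * (1 + 2 * η) ≤ (B * (1 - α)) * (1 + 2 * η) := by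
    linarith
  have h8 := le_of_mul_le_mul_right h7 (by linarith)
  have e : (1 - 3 * η) * w * (α / (1 - α)) * cnt J S x =
      ((1 - 3 * η) * w * α * cnt J S x) / (1 - α) := by ring
  rw [e, div_le_iff₀ h1α]
  exact h8

end Pool.Agent.P.MP_4f3dfd_co.Ex
end

-- part Pool.Agent.P.MP_4f3dfd_co.FL1
section

set_option autoImplicit false
set_option linter.unusedSectionVars false
set_option linter.unusedVariables false

namespace Pool.Agent.P.MP_4f3dfd_co.Ex

open Finset Real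

variable {V : Type*} [DecidableEq V]

theorem fl1_hi {n k z : ℕ} (hk : 2 ≤ k) (hkz : k ≤ z) (hzn : z ≤ n)
    {J D : Finset (Finset (Fin n))} (h : Pair univ (k + 1) J D) {d : ℕ} (hd : ∀ i, deg D i = d)
    (hlt : d < z.choose (k - 1)) :
    ((k : ℝ) + 1) * #J ≤ #D * ((z : ℝ) - k + 1) := by
  have hDk : ∀ Y ∈ D, #Y = k := fun Y hY => by
    have := (mem_powersetCard.1 (h.hD hY)).2
    omega
  have hJk : ∀ X ∈ J, #X = k + 1 := fun X hX => (mem_powersetCard.1 (h.hJ hX)).2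
  have hd' : ∀ i, #{Y ∈ D | i ∈ Y} = d := hd
  have hsum := Asy.sum_deg_nat D k hDk
  rw [sum_congr rfl (fun v _ => hd' v), sum_const, card_univ, Fintype.card_fin,
    smul_eq_mul] at hsum
  have key : ∀ v, #{X ∈ J | v ∈ X} * k ≤ d * (z + 1 - k) := by
    intro v
    set L : Finset (Finset (Fin n)) := {X ∈ J | v ∈ X}.image (·.erase v) with hL
    have hLc : #L = #{X ∈ J | v ∈ X} := by
      rw [hL, card_image_of_injOn]
      intro X hX Y hY h
      rw [mem_coe, mem_filter] at hX hY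
      rw [← insert_erase hX.2, ← insert_erase hY.2]
      exact congrArg _ h
    have hLk : ∀ X ∈ L, #X = k := by
      intro X hX
      obtain ⟨Z, hZ, rfl⟩ := mem_image.1 hX
      rw [mem_filter] at hZ
      rw [card_erase_of_mem hZ.2, hJk Z hZ.1]; rfl
    have hmem : ∀ Y ∈ shadow L, v ∉ Y ∧ insert v Y ∈ D := by
      intro Y hY
      obtain ⟨X, hX, a, ha, rfl⟩ := mem_shadow_iff.1 hY
      obtain ⟨Z, hZ, rfl⟩ := mem_image.1 hX
      rw [mem_filter] at hZ
      rw [mem_erase] at ha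
      refine ⟨by simp, ?_⟩
      have : insert v ((Z.erase v).erase a) = Z.erase a := by
        rw [erase_right_comm, insert_erase (mem_erase.2 ⟨ha.1.symm, hZ.2⟩)]
      rw [this]
      exact h.sh Z hZ.1 a ha.2
    have hsh : #(shadow L) ≤ d := by
      rw [← hd' v]
      apply card_le_card_of_injOn (insert v)
      · intro Y hY
        rw [mem_coe, mem_filter]
        exact ⟨(hmem Y hY).2, mem_insert_self _ _⟩
      · intro Y hY Z hZ h
        rw [← erase_insert (hmem Y hY).1, ← erase_insert (hmem Z hZ).1]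
        exact congrArg (·.erase v) h
    rw [← hLc]
    exact el1_ratio (by omega) hkz hzn L hLk hsh hlt
  have hs2 := sum_le_sum (s := (univ : Finset (Fin n))) (fun v _ => key v)
  rw [← sum_mul, Asy.sum_deg_nat _ (k + 1) hJk, sum_const, card_univ, Fintype.card_fin,
    smul_eq_mul, ← mul_assoc, hsum] at hs2
  have h1 : k * ((k + 1) * #J) ≤ k * (#D * (z + 1 - k)) := by
    calc k * ((k + 1) * #J) = (k + 1) * #J * k := by ring
      _ ≤ _ := hs2
      _ = _ := by ring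
  have h2 := Nat.le_of_mul_le_mul_left h1 (by omega)
  have h3 : ((z + 1 - k : ℕ) : ℝ) = (z : ℝ) - k + 1 := by
    rw [Nat.cast_sub (by omega)]
    push_cast
    ring
  rw [← h3]
  exact_mod_cast h2

theorem link_loU {n c m d z : ℕ} (hc : 2 ≤ c) {J : Finset (Finset (Fin n))} (hJ : Reg n c m J)
    (hd : c * m = d * n) (hz : z < n) (h : d < z.choose (c - 1)) :
    c * m * ((n : ℝ) - z - 1) / ((z : ℝ) - c + 2) ≤ ex n c m #(shadow J) := by
  obtain ⟨hc', hm', e, he⟩ := hJ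
  have hsum := Asy.sum_deg_nat J c hc'
  rw [sum_congr rfl (fun v _ => he v), sum_const, card_univ, Fintype.card_fin, smul_eq_mul,
    hm'] at hsum
  have hn : 0 < n := by omega
  have hed : e = d := by
    have : n * e = n * d := by rw [hsum, hd, mul_comm]
    exact Nat.eq_of_mul_eq_mul_left hn this
  subst hed
  have hcz : c - 1 ≤ z := by
    by_contra hh
    rw [Nat.choose_eq_zero_of_lt (by omega)] at h
    omega
  have h1 := Asy.lower (k := c - 1) (by omega) hz.le J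
    (fun X hX => by rw [hc' X hX]; omega) he h.le
  rw [hsum] at h1
  have h2 : z + 1 - (c - 1) + c = z + 2 := by omega
  have h3 : ((z + 1 - (c - 1) : ℕ) : ℝ) = (z : ℝ) - c + 2 := by
    have : ((z + 1 - (c - 1) + c : ℕ) : ℝ) = ((z + 2 : ℕ) : ℝ) := by rw [h2]
    push_cast at this
    linarith
  have h4 : (c : ℝ) * m ≤ #(shadow J) * ((z : ℝ) - c + 2) := by
    rw [← h3]
    exact_mod_cast h1
  have ht : (0 : ℝ) < (z : ℝ) - c + 2 := by
    rw [← h3]
    exact_mod_cast (by omega : 0 < z + 1 - (c - 1))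
  have hw : (0 : ℝ) ≤ (n : ℝ) - z - 1 := by
    have : ((z + 1 : ℕ) : ℝ) ≤ n := by exact_mod_cast hz
    push_cast at this
    linarith
  have h5 : c * m * ((n : ℝ) - z - 1) / ((z : ℝ) - c + 2) ≤ #(shadow J) * ((n : ℝ) - z - 1) := by
    rw [div_le_iff₀ ht]
    have := mul_le_mul_of_nonneg_right h4 hw
    linarith
  rw [ex]
  linarith

theorem link_hiU {n c k m m' d z : ℕ} (hk : c + k = n) (hc : 1 ≤ c) (hk2 : 2 ≤ k)
    (hm : m + m' = n.choose c) {J : Finset (Finset (Fin n))} (hJ : Reg n c m J)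
    (hd : k * m' = d * n) (hz : z < n) (h : d < z.choose (k - 1)) :
    m' * ((n : ℝ) - z - 1) ≤ ex n c m #(shadow J) := by
  obtain ⟨Js, Ds, μ, hp, hex, hD, ⟨e, he⟩, -, -, hJs, -⟩ := dual_pack hk hc hm hJ
  have hn : 0 < n := by omega
  have hB : (0 : ℝ) ≤ exc univ Js Ds := Nat.cast_nonneg _
  rw [← hex]
  rcases le_or_gt k z with hkz | hkz
  · have hDk : ∀ Y ∈ Ds, #Y = k := fun Y hY => by
      have := (mem_powersetCard.1 (hp.hD hY)).2
      omega
    have he' : ∀ i, #{Y ∈ Ds | i ∈ Y} = e := he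
    have hsum := Asy.sum_deg_nat Ds k hDk
    rw [sum_congr rfl (fun v _ => he' v), sum_const, card_univ, Fintype.card_fin,
      smul_eq_mul, hD] at hsum
    have hed : e = d := by
      have : n * e = n * d := by rw [hsum, hd, mul_comm]
      exact Nat.eq_of_mul_eq_mul_left hn this
    subst hed
    have h1 := fl1_hi hk2 hkz hz.le hp he h
    rw [hD] at h1
    have h2 : (n : ℝ) = c + k := by exact_mod_cast hk.symm
    rw [h2]
    linarith
  · have hd0 : d = 0 := by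
      rcases eq_or_lt_of_le (show z ≤ k - 1 by omega) with h1 | h1
      · rw [← h1, Nat.choose_self] at h
        omega
      · rw [Nat.choose_eq_zero_of_lt h1] at h
        omega
    have hm0 : m' = 0 := by
      rw [hd0, zero_mul] at hd
      rcases Nat.mul_eq_zero.1 hd with h1 | h1 <;> omega
    rw [hm0]
    simp

theorem var_lo {n c m : ℕ} (hc : 1 ≤ c) (hcn : c ≤ n) {J : Finset (Finset (Fin n))}
    (hJ : Reg n c m J) (h2 : 2 * m ≤ n.choose c) :
    (n : ℝ) * m ≤ 2 * (((n : ℝ) - c) * ex n c m #(shadow J)) := by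
  have h1 := exc_ge_varU (pair_shadow hc hJ.1)
  rw [card_univ, Fintype.card_fin, hJ.2.1, exc_shadow hc hJ] at h1
  have hC : (0 : ℝ) < n.choose c := by exact_mod_cast Nat.choose_pos hcn
  have h3 : 2 * (m : ℝ) ≤ n.choose c := by exact_mod_cast h2
  have h4 : (0 : ℝ) ≤ (n : ℝ) * m := by positivity
  have h5 := mul_le_mul_of_nonneg_left h3 h4
  refine le_of_mul_le_mul_right ?_ hC
  linarith

theorem var_hi {n c m m' : ℕ} (hc : 1 ≤ c) (hcn : c ≤ n) (hm : m + m' = n.choose c)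
    {J : Finset (Finset (Fin n))} (hJ : Reg n c m J) (h2 : 2 * m' ≤ n.choose c) :
    (m' : ℝ) ≤ 2 * ex n c m #(shadow J) := by
  have h1 := exc_ge_var (pair_shadow hc hJ.1)
  rw [card_univ, Fintype.card_fin, hJ.2.1, exc_shadow hc hJ] at h1
  have hC : (0 : ℝ) < n.choose c := by exact_mod_cast Nat.choose_pos hcn
  have h3 : 2 * (m' : ℝ) ≤ n.choose c := by exact_mod_cast h2
  have h6 : (m : ℝ) = n.choose c - m' := by
    have : ((m + m' : ℕ) : ℝ) = n.choose c := by rw [hm]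
    push_cast at this
    linarith
  have h4 : (0 : ℝ) ≤ m' := by positivity
  have h5 := mul_le_mul_of_nonneg_left h3 h4
  refine le_of_mul_le_mul_right ?_ hC
  set B := ex n c m #(shadow J)
  rw [h6] at h1
  linarith

end Pool.Agent.P.MP_4f3dfd_co.Ex
end

-- part Pool.Agent.P.MP_4f3dfd_co.FN4
section

set_option autoImplicit false
set_option linter.unusedSectionVars false
set_option linter.unusedVariables false

namespace Pool.Agent.P.MP_4f3dfd_co.Ex

open Finset Real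

variable {V : Type*} [DecidableEq V]

theorem fn4_x1 {n c d x : ℕ} (h : Par n c d x) : 1 ≤ x := by
  have := h.c_le
  have := h.hc
  omega

theorem fn4_lamp {n c d x : ℕ} (h : Par n c d x) : 1 ≤ lam n c d ((n : ℝ) - x + 1) := by
  have h1 : (1 : ℝ) ≤ x := by exact_mod_cast fn4_x1 h
  have h2 : (x : ℝ) < n := by exact_mod_cast h.hx
  exact h.one_le_lam (by linarith) (by linarith)

theorem fn4_lam {n c d x : ℕ} (h : Par n c d x) : 1 ≤ lam n c d ((n : ℝ) - x) := by
  have h1 : (1 : ℝ) ≤ x := by exact_mod_cast fn4_x1 h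
  have h2 : (x : ℝ) < n := by exact_mod_cast h.hx
  exact h.one_le_lam (by linarith) (by linarith)

theorem fn4_exp (L l : ℝ) (hl : 0 < l) : exp (-(L + log l)) = exp (-L) / l := by
  rw [neg_add, exp_add, exp_neg (log l), exp_log hl, div_eq_mul_inv]

theorem fn4_key {n c d x : ℕ} (h : Par n c d x) :
    ((x - 1).choose (c - 1) : ℝ) ≤
      exp (-(lg n c d + log (lam n c d ((n : ℝ) - x + 1)))) * (n - 1).choose (c - 1) := by
  have hl := fn4_lamp h
  have hl0 : 0 < lam n c d ((n : ℝ) - x + 1) := by linarith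
  rw [fn4_exp _ _ hl0, div_mul_eq_mul_div, ← h.d_eq, le_div_iff₀ hl0, mul_comm]
  exact h.lo

theorem Par.wlog {n c d x : ℕ} (h : Par n c d x) (hx : c ≤ x) :
    lg n c d + log (lam n c d ((n : ℝ) - x + 1)) ≤ ((n : ℝ) - x) * log (x / ((x : ℝ) - c + 1)) := by
  have h1 := fn4_x1 h
  have h2 := h.hx
  have h3 := h.hc
  have key := width_ge (q := c - 1) (z := x - 1) (N := n - 1) (by omega) (by omega) (fn4_key h)
  have e1 : ((x - 1 : ℕ) : ℝ) = x - 1 := by rw [Nat.cast_sub h1]; simp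
  have e2 : ((n - 1 : ℕ) : ℝ) = n - 1 := by rw [Nat.cast_sub (by omega)]; simp
  have e3 : ((c - 1 : ℕ) : ℝ) = c - 1 := by rw [Nat.cast_sub (by omega)]; simp
  rw [e1, e2, e3] at key
  have e4 : (n : ℝ) - 1 - (x - 1) = n - x := by ring
  have e5 : (x : ℝ) - 1 + 1 = x := by ring
  have e6 : (x : ℝ) - (c - 1) = x - c + 1 := by ring
  rw [e4, e5, e6] at key
  exact key

theorem Par.tL {n c d x : ℕ} (h : Par n c d x) :
    ((x : ℝ) - c + 1) * (lg n c d + log (lam n c d ((n : ℝ) - x + 1))) ≤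
      ((n : ℝ) - x) * ((c : ℝ) - 1) := by
  have h2 : (x : ℝ) < n := by exact_mod_cast h.hx
  have h3 : (2 : ℝ) ≤ c := by exact_mod_cast h.hc
  rcases Nat.lt_or_ge x c with hlt | hge
  · have e : c = x + 1 := by have := h.c_le; omega
    have e' : (x : ℝ) - c + 1 = 0 := by rw [e]; push_cast; ring
    rw [e', zero_mul]
    exact mul_nonneg (by linarith) (by linarith)
  · have hw := h.wlog hge
    have h4 : (c : ℝ) ≤ x := by exact_mod_cast hge
    have hu : (0 : ℝ) < (x : ℝ) - c + 1 := by linarith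
    have hl : log (x / ((x : ℝ) - c + 1)) ≤ x / ((x : ℝ) - c + 1) - 1 :=
      log_le_sub_one_of_pos (div_pos (by linarith) hu)
    have e : (x : ℝ) / ((x : ℝ) - c + 1) - 1 = ((c : ℝ) - 1) / ((x : ℝ) - c + 1) := by
      field_simp
      ring
    rw [e] at hl
    have h5 : lg n c d + log (lam n c d ((n : ℝ) - x + 1)) ≤
        ((n : ℝ) - x) * (((c : ℝ) - 1) / ((x : ℝ) - c + 1)) :=
      hw.trans (mul_le_mul_of_nonneg_left hl (by linarith))
    calc ((x : ℝ) - c + 1) * (lg n c d + log (lam n c d ((n : ℝ) - x + 1)))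
        ≤ ((x : ℝ) - c + 1) * (((n : ℝ) - x) * (((c : ℝ) - 1) / ((x : ℝ) - c + 1))) :=
          mul_le_mul_of_nonneg_left h5 hu.le
      _ = ((n : ℝ) - x) * ((c : ℝ) - 1) := by field_simp

theorem Par.wL {n c d x : ℕ} (h : Par n c d x) : lg n c d ≤ ((n : ℝ) - x) * log c := by
  have h2 : (x : ℝ) < n := by exact_mod_cast h.hx
  have h3 : (2 : ℝ) ≤ c := by exact_mod_cast h.hc
  have hlc : 0 ≤ log (c : ℝ) := log_nonneg (by linarith)
  rcases Nat.lt_or_ge x c with hlt | hge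
  · have e : c = x + 1 := by have := h.c_le; omega
    have hx := h.hx
    have hd : (1 : ℝ) ≤ d := by exact_mod_cast h.hd
    have hb := choose_le_succ_pow x (n - 1 - x)
    have e1 : x + (n - 1 - x) = n - 1 := by omega
    have e2 : c - 1 = x := by omega
    rw [e1, ← e] at hb
    have hb' : (((n - 1).choose (c - 1) : ℕ) : ℝ) ≤ (c : ℝ) ^ (n - 1 - x) := by
      rw [e2]; exact_mod_cast hb
    have hpos : (0 : ℝ) < (((n - 1).choose (c - 1) : ℕ) : ℝ) := by
      have := h.hdC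
      have : 0 < (n - 1).choose (c - 1) := by omega
      exact_mod_cast this
    have h5 : lg n c d ≤ log ((c : ℝ) ^ (n - 1 - x)) := by
      unfold lg
      refine log_le_log (div_pos hpos (by linarith)) ?_
      exact (div_le_self hpos.le hd).trans hb'
    rw [log_pow] at h5
    have h6 : ((n - 1 - x : ℕ) : ℝ) ≤ (n : ℝ) - x := by
      have : n - 1 - x + x ≤ n := by omega
      have : ((n - 1 - x : ℕ) : ℝ) + x ≤ n := by exact_mod_cast this
      linarith
    exact h5.trans (mul_le_mul_of_nonneg_right h6 hlc)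
  · have hw := h.wlog hge
    have h4 : (c : ℝ) ≤ x := by exact_mod_cast hge
    have hu : (0 : ℝ) < (x : ℝ) - c + 1 := by linarith
    have hl0 : 0 ≤ log (lam n c d ((n : ℝ) - x + 1)) := log_nonneg (fn4_lamp h)
    have hl : log (x / ((x : ℝ) - c + 1)) ≤ log c := by
      refine log_le_log (div_pos (by linarith) hu) ?_
      rw [div_le_iff₀ hu]
      nlinarith [mul_nonneg (show (0 : ℝ) ≤ (c : ℝ) - 1 by linarith)
        (show (0 : ℝ) ≤ (x : ℝ) - c by linarith)]
    have := mul_le_mul_of_nonneg_left hl (show (0 : ℝ) ≤ (n : ℝ) - x by linarith)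
    linarith

theorem Par.dec {n c d x : ℕ} (h : Par n c d x) (s : ℕ) :
    ((x - 1 - s).choose (c - 1) : ℝ) * lam n c d ((n : ℝ) - x + 1) ≤
      exp (-((lg n c d + log (lam n c d ((n : ℝ) - x + 1))) * s / ((n : ℝ) - x))) * d := by
  have h1 := fn4_x1 h
  have h2 := h.hx
  have h3 := h.hc
  have hl := fn4_lamp h
  rcases Nat.lt_or_ge (x - 1) s with hlt | hge
  · have e : x - 1 - s = 0 := by omega
    have e' : Nat.choose 0 (c - 1) = 0 := Nat.choose_eq_zero_of_lt (by omega)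
    rw [e, e']
    simp only [Nat.cast_zero, zero_mul]
    positivity
  · have key := decay (q := c - 1) (z := x - 1) (N := n - 1) (s := s) (by omega) hge (fn4_key h)
    have e1 : ((x - 1 : ℕ) : ℝ) = x - 1 := by rw [Nat.cast_sub h1]; simp
    have e2 : ((n - 1 : ℕ) : ℝ) = n - 1 := by rw [Nat.cast_sub (by omega)]; simp
    rw [e1, e2] at key
    have e4 : (n : ℝ) - 1 - (x - 1) = n - x := by ring
    rw [e4] at key
    have hlo := h.lo
    calc ((x - 1 - s).choose (c - 1) : ℝ) * lam n c d ((n : ℝ) - x + 1)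
        ≤ (exp (-((lg n c d + log (lam n c d ((n : ℝ) - x + 1))) * s / ((n : ℝ) - x))) *
            ((x - 1).choose (c - 1) : ℝ)) * lam n c d ((n : ℝ) - x + 1) :=
          mul_le_mul_of_nonneg_right key (by linarith)
      _ = exp (-((lg n c d + log (lam n c d ((n : ℝ) - x + 1))) * s / ((n : ℝ) - x))) *
            (lam n c d ((n : ℝ) - x + 1) * ((x - 1).choose (c - 1) : ℝ)) := by ring
      _ ≤ _ := mul_le_mul_of_nonneg_left hlo (exp_pos _).le

theorem Par.wid {n c d x : ℕ} (h : Par n c d x) :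
    ((n : ℝ) - x - 1) * log (((n : ℝ) - 1) / ((n : ℝ) - c)) ≤
      lg n c d + log (lam n c d ((n : ℝ) - x)) := by
  have h1 := fn4_x1 h
  have h2 := h.hx
  have h3 := h.hc
  have h4 := h.hcn
  have hl := fn4_lam h
  have hl0 : 0 < lam n c d ((n : ℝ) - x) := by linarith
  have hk : exp (-(lg n c d + log (lam n c d ((n : ℝ) - x)))) * ((n - 1).choose (c - 1) : ℕ) ≤
      (x.choose (c - 1) : ℝ) := by
    rw [fn4_exp _ _ hl0, div_mul_eq_mul_div, ← h.d_eq, div_le_iff₀ hl0, mul_comm]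
    exact h.hi.le
  have key := width_leU (q := c - 1) (z := x) (N := n - 1) (by omega) (by omega) hk
  have e2 : ((n - 1 : ℕ) : ℝ) = n - 1 := by rw [Nat.cast_sub (by omega)]; simp
  have e3 : ((c - 1 : ℕ) : ℝ) = c - 1 := by rw [Nat.cast_sub (by omega)]; simp
  rw [e2, e3] at key
  have e4 : (n : ℝ) - 1 - x = n - x - 1 := by ring
  have e5 : (n : ℝ) - 1 - (c - 1) = n - c := by ring
  rw [e4, e5] at key
  exact key

theorem Par.wid' {n c d x : ℕ} (h : Par n c d x) :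
    ((n : ℝ) - x - 1) * (((c : ℝ) - 1) / n) ≤ lg n c d + log (lam n c d ((n : ℝ) - x)) := by
  have h2 : (x : ℝ) + 1 ≤ n := by exact_mod_cast h.hx
  have h3 : (2 : ℝ) ≤ c := by exact_mod_cast h.hc
  have h4 : (c : ℝ) + 2 ≤ n := by exact_mod_cast h.hcn
  refine le_trans (mul_le_mul_of_nonneg_left ?_ (by linarith)) h.wid
  have hp : (0 : ℝ) < ((n : ℝ) - 1) / ((n : ℝ) - c) := div_pos (by linarith) (by linarith)
  have h5 := one_sub_inv_le_log_of_pos hp
  rw [inv_div] at h5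
  refine le_trans ?_ h5
  have e : 1 - ((n : ℝ) - c) / ((n : ℝ) - 1) = ((c : ℝ) - 1) / ((n : ℝ) - 1) := by
    have : (n : ℝ) - 1 ≠ 0 := by linarith
    field_simp
    ring
  rw [e]
  exact div_le_div_of_nonneg_left (by linarith) (by linarith) (by linarith)

theorem Par.cw {n c d x : ℕ} (h : Par n c d x) (h2 : log 2 ≤ lg n c d) :
    c * ((n : ℝ) - x + 1) ≤ 10 * n * (lg n c d + log (n / ((n : ℝ) - x + 1))) := by
  have h0 : (1 : ℝ) ≤ x := by exact_mod_cast fn4_x1 h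
  have h1 : (x : ℝ) + 1 ≤ n := by exact_mod_cast h.hx
  have h3 : (2 : ℝ) ≤ c := by exact_mod_cast h.hc
  have h4 : (c : ℝ) + 2 ≤ n := by exact_mod_cast h.hcn
  have hn : (0 : ℝ) < n := by linarith
  have hw := h.wid'
  have hl := fn4_lam h
  have hA : 0 ≤ log (n / ((n : ℝ) - x + 1)) :=
    log_nonneg (by rw [le_div_iff₀ (by linarith)]; linarith)
  have hB : log (lam n c d ((n : ℝ) - x)) ≤ log 2 + log (n / ((n : ℝ) - x + 1)) := by
    rw [← log_mul (by norm_num) (div_pos hn (by linarith)).ne']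
    refine log_le_log (by linarith) ((min_le_left _ _).trans ?_)
    rw [← mul_div_assoc, div_le_div_iff₀ (by linarith) (by linarith)]
    nlinarith
  have hlog : (2 : ℝ) / 3 ≤ log 2 := by linarith [log_two_gt_d9]
  set L' := lg n c d + log (n / ((n : ℝ) - x + 1)) with hL'
  have hC : ((n : ℝ) - x - 1) * (((c : ℝ) - 1) / n) ≤ 2 * L' := by linarith
  have hD : ((n : ℝ) - x - 1) * ((c : ℝ) - 1) ≤ 2 * L' * n := by
    rw [← mul_div_assoc, div_le_iff₀ hn] at hC
    exact hC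
  have hE : 2 / 3 ≤ L' := by linarith
  have hF : 4 * (n : ℝ) ≤ 6 * n * L' := by nlinarith
  have hG : c * ((n : ℝ) - x + 1) ≤ 2 * ((c : ℝ) - 1) * ((n : ℝ) - x + 1) :=
    mul_le_mul_of_nonneg_right (by linarith) (by linarith)
  nlinarith

end Pool.Agent.P.MP_4f3dfd_co.Ex
end

-- part Pool.Agent.P.MP_4f3dfd_co.FT5
section

set_option autoImplicit false
set_option linter.unusedSectionVars false
set_option linter.unusedVariables false

namespace Pool.Agent.P.MP_4f3dfd_co.Ex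

open Finset Real
open scoped Pointwise

variable {n : ℕ} [NeZero n]

theorem ft5_filter {l r : ℕ} {Q : Finset (Finset (Fin n))} {X : Finset (Fin n)}
    (hX : X ∈ nc l Q) :
    {P ∈ powersetCard r (univ : Finset (Fin n)) \ Q | ∃ s : Fin n, s +ᵥ P ⊆ X} = hits r X := by
  ext P
  simp only [hits, mem_filter, mem_sdiff]
  constructor
  · rintro ⟨⟨h1, _⟩, h2⟩
    exact ⟨h1, h2⟩
  · rintro ⟨h1, s, hs⟩
    exact ⟨⟨h1, fun hP => (mem_nc.1 hX).2 P hP s hs⟩, s, hs⟩

theorem ft5_swap {l r : ℕ} {Q : Finset (Finset (Fin n))} {T : Finset (Finset (Fin n))}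
    (hT : T ⊆ nc l Q) :
    ∑ P ∈ powersetCard r (univ : Finset (Fin n)) \ Q, #{Y ∈ T | ∃ s : Fin n, s +ᵥ P ⊆ Y} =
      ∑ Y ∈ T, #(hits r Y) := by
  have h : ∀ Y ∈ T, #(hits r Y) =
      ∑ P ∈ powersetCard r (univ : Finset (Fin n)) \ Q, if ∃ s : Fin n, s +ᵥ P ⊆ Y then 1 else 0 := by
    intro Y hY
    rw [← ft5_filter (hT hY), card_filter]
  rw [sum_congr rfl h, sum_comm]
  refine sum_congr rfl fun P _ => ?_
  rw [card_filter]

theorem ft5_blk_sub (J D : Finset (Finset (Fin n))) (k : Fin n) : blk J D k ⊆ D :=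
  filter_subset _ _

theorem ft5_ov_blk {l r : ℕ} (hl1 : 1 ≤ l) (hl : l ≤ n) (Q : Finset (Finset (Fin n))) :
    ∑ k, ∑ Y ∈ blk (nc l Q) (nc (l - 1) Q) k, (ov r Y : ℝ) ≤
      ((n : ℝ) - l + 1) * ∑ Y ∈ powersetCard (l - 1) (univ : Finset (Fin n)), (ov r Y : ℝ) := by
  have h1 : ∀ k : Fin n, ∑ Y ∈ blk (nc l Q) (nc (l - 1) Q) k, (ov r Y : ℝ) ≤
      ∑ Y ∈ powersetCard (l - 1) (univ : Finset (Fin n)), if k ∉ Y then (ov r Y : ℝ) else 0 := by
    intro k
    rw [← sum_filter]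
    refine sum_le_sum_of_subset_of_nonneg ?_ fun _ _ _ => by positivity
    intro Y hY
    have h := mem_filter.1 hY
    refine mem_filter.2 ⟨mem_powersetCard.2 ⟨subset_univ _, (mem_nc.1 h.1).1⟩, h.2.1⟩
  refine (sum_le_sum fun k _ => h1 k).trans ?_
  rw [sum_comm, mul_sum]
  refine sum_le_sum fun Y hY => le_of_eq ?_
  have hc := (mem_powersetCard.1 hY).2
  rw [← sum_filter, sum_const, nsmul_eq_mul]
  have e : ({k ∈ (univ : Finset (Fin n)) | k ∉ Y}) = Yᶜ := by
    ext k; simp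
  rw [e, card_compl, Fintype.card_fin, hc, Nat.cast_sub (by omega), Nat.cast_sub hl1]
  push_cast; ring

theorem ft5_one {C z Δ A B kil E r : ℝ} (hC : 0 < C) (hz : 0 < z) (hΔ0 : 0 ≤ Δ)
    (hΔ : 96 * Δ ≤ z) (hr : 0 ≤ r) (hA : A = 8 * r)
    (h1 : A * ((z - Δ) * (1 + log (C / (z - Δ)))) < E) (h2 : E + kil ≤ B + r * Δ) :
    A * (z * (1 + log (C / z))) - B ≤ A * (log (C / z) + 3 / 8) * Δ - kil := by
  have hz' : 0 < z - Δ := by linarith
  have h3 := ent_diff hC hz' (by linarith : z - Δ ≤ z)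
  have h4 : log (C / (z - Δ)) ≤ log (C / z) + 1 / 4 := by
    have e : C / (z - Δ) = C / z * (z / (z - Δ)) := by field_simp
    rw [e, log_mul (by positivity) (by positivity)]
    have h5 := log_le_sub_one_of_pos (show 0 < z / (z - Δ) by positivity)
    have h6 : z / (z - Δ) ≤ 5 / 4 := by
      rw [div_le_iff₀ hz']; linarith
    linarith
  have hA0 : 0 ≤ A := by rw [hA]; positivity
  have h7 : (z - (z - Δ)) * log (C / (z - Δ)) ≤ Δ * (log (C / z) + 1 / 4) := by
    rw [sub_sub_cancel]; exact mul_le_mul_of_nonneg_left h4 hΔ0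
  have h8 := mul_le_mul_of_nonneg_left (h3.trans h7) hA0
  have e2 : A * (log (C / z) + 3 / 8) * Δ = A * (Δ * (log (C / z) + 1 / 4)) + r * Δ := by
    rw [hA]; ring
  rw [e2]
  rw [mul_sub] at h8
  linarith

theorem ft5_fin {z h0 h1 A B L r l s SD SK : ℝ} (hz : 0 < z) (hh0 : 0 < h0) (hl : 0 < l)
    (hr : 1 ≤ r) (hA : A = 8 * r) (hL : 0 ≤ L) (hrl : 8 * r * (1 + L) ≤ l)
    (hh1 : h1 * l = h0 * (l - r)) (hs : h1 ≤ s) (hB : B ≤ A * (z * (1 + L)))
    (hsum : s * (A * (z * (1 + L)) - B) ≤ A * (L + 3 / 8) * SD - SK)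
    (hSD : SD ≤ z * h0) (hSK : B * h1 - z * h0 / 2 ≤ SK) : False := by
  have hA0 : 0 ≤ A := by rw [hA]; positivity
  have h1' : h1 * (A * (z * (1 + L)) - B) ≤ s * (A * (z * (1 + L)) - B) :=
    mul_le_mul_of_nonneg_right hs (by linarith)
  have h2 : A * (L + 3 / 8) * SD ≤ A * (L + 3 / 8) * (z * h0) :=
    mul_le_mul_of_nonneg_left hSD (by positivity)
  have h3 : h1 * (A * (z * (1 + L))) ≤ A * (L + 3 / 8) * (z * h0) + z * h0 / 2 := by
    have e : h1 * (A * (z * (1 + L)) - B) = h1 * (A * (z * (1 + L))) - B * h1 := by ring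
    linarith
  have e1 : h1 = h0 * (1 - r / l) := by
    field_simp; linarith
  have h4 : r / l * (1 + L) ≤ 1 / 8 := by
    rw [div_mul_eq_mul_div, div_le_iff₀ hl]; linarith
  have hzh : 0 < z * h0 := by positivity
  have h5 : (z * h0) * (A * ((1 + L) - r / l * (1 + L))) ≤ (z * h0) * (A * (L + 3 / 8) + 1 / 2) := by
    have e2 : (z * h0) * (A * ((1 + L) - r / l * (1 + L))) = h1 * (A * (z * (1 + L))) := by
      rw [e1]; ring
    rw [e2]; linarith
  have h6 := le_of_mul_le_mul_left h5 hzh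
  have h7 : A * (r / l * (1 + L)) ≤ A * (1 / 8) := mul_le_mul_of_nonneg_left h4 hA0
  have e3 : A * ((1 + L) - r / l * (1 + L)) = A * (L + 3 / 8) + A * (5 / 8) - A * (r / l * (1 + L)) := by
    ring
  rw [e3] at h6
  linarith

/-- A good family of patterns with many avoiders can be extended. -/
theorem t2_step {l ρ : ℕ} {μ : ℝ} (hρ : 1 ≤ ρ) (h12 : 12 * ρ ≤ n) (hl : l ≤ n) (hμ0 : 0 < μ)
    (hμ1 : μ ≤ 1) (hA : 8 * ((6 * ρ : ℕ) : ℝ) * (1 + log (1 / μ)) ≤ l)
    (hε : 2 * l * n * eps n l ρ ≤ μ)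
    {Q : Finset (Finset (Fin n))} (hQ : Good l (6 * ρ) Q) (hz : μ * n.choose l ≤ #(nc l Q)) :
    ∃ P ∉ Q, Good l (6 * ρ) (insert P Q) := by
  by_contra hno
  have hno' : ∀ P ∉ Q, ¬ Good l (6 * ρ) (insert P Q) := fun P hP hg => hno ⟨P, hP, hg⟩
  set r : ℕ := 6 * ρ with hrdef
  have hr1 : (6 : ℝ) ≤ r := by
    have : 6 ≤ r := by omega
    exact_mod_cast this
  have hlog : 0 ≤ log (1 / μ) := log_nonneg (by rw [le_div_iff₀ hμ0]; linarith)
  have h8r : 8 * (r : ℝ) ≤ l := by nlinarith only [hA, hlog]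
  have hl48 : (48 : ℝ) ≤ l := by linarith
  have hl0 : (0 : ℝ) < l := by linarith
  have hrl : 8 * r ≤ l := by exact_mod_cast h8r
  have hl1 : 1 ≤ l := by omega
  have hn0 : (0 : ℝ) < n := by exact_mod_cast Nat.pos_of_ne_zero (NeZero.ne n)
  have hC : (0 : ℝ) < n.choose l := by exact_mod_cast Nat.choose_pos hl
  set C : ℝ := (n.choose l : ℝ) with hCdef
  set z : ℝ := (#(nc l Q) : ℝ) with hzdef
  have hz0 : 0 < z := lt_of_lt_of_le (by positivity) hz
  have hsubJ : nc l Q ⊆ powersetCard l (univ : Finset (Fin n)) := (pair_nc hl1 Q).hJ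
  have hzC : z ≤ C := by
    have := card_le_card hsubJ
    rw [card_powersetCard, card_univ, Fintype.card_fin] at this
    rw [hzdef, hCdef]
    exact_mod_cast this
  have hL0 : 0 ≤ log (C / z) := log_nonneg (by rw [le_div_iff₀ hz0]; linarith)
  have hL1 : log (C / z) ≤ log (1 / μ) := by
    refine log_le_log (by positivity) ?_
    rw [div_le_div_iff₀ hz0 hμ0]; linarith
  have hne : (n : ℝ) * eps n l ρ ≤ μ / (2 * l) := by
    rw [le_div_iff₀ (by positivity)]; linarith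
  have hCe : C * ((n : ℝ) * eps n l ρ) ≤ z / (2 * l) := by
    have h1 := mul_le_mul_of_nonneg_left hne hC.le
    have h2 : C * (μ / (2 * l)) = μ * C / (2 * l) := by ring
    have h3 : μ * C / (2 * l) ≤ z / (2 * l) := div_le_div_of_nonneg_right hz (by positivity)
    linarith
  set S := powersetCard r (univ : Finset (Fin n)) \ Q with hS
  set B : ℝ := (exc univ (nc l Q) (nc (l - 1) Q) : ℝ) with hBdef
  have hone : ∀ P ∈ S, 8 * (r : ℝ) * (z * (1 + log (C / z))) - B ≤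
      8 * (r : ℝ) * (log (C / z) + 3 / 8) * (#{X ∈ nc l Q | ∃ s : Fin n, s +ᵥ P ⊆ X} : ℝ) -
        ((∑ k, #{Y ∈ blk (nc l Q) (nc (l - 1) Q) k | ∃ s : Fin n, s +ᵥ P ⊆ Y} : ℕ) : ℝ) := by
    intro P hP
    have hP' := mem_sdiff.1 hP
    have hPr : #P = r := (mem_powersetCard.1 hP'.1).2
    have hbad := hno' P hP'.2
    have hall : ∀ P' ∈ insert P Q, #P' = r := by
      intro P' h
      rcases mem_insert.1 h with h | h
      · rw [h, hPr]
      · exact hQ.1 P' h
    have hlt := not_le.1 fun h => hbad ⟨hall, h⟩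
    have hcard : (#(nc l (insert P Q)) : ℝ) =
        z - (#{X ∈ nc l Q | ∃ s : Fin n, s +ᵥ P ⊆ X} : ℝ) := by
      have := card_nc_insert l Q P
      rw [hzdef, ← this]; push_cast; ring
    rw [hcard] at hlt
    have hstep := nc_step hl Q P
    rw [hPr] at hstep
    have hpe := pow_le_eps hl ρ
    have hΔ : 96 * (#{X ∈ nc l Q | ∃ s : Fin n, s +ᵥ P ⊆ X} : ℝ) ≤ z := by
      have h1 : (n : ℝ) * (C * ((l : ℝ) / n) ^ r) ≤ C * ((n : ℝ) * eps n l ρ) := by
        have := mul_le_mul_of_nonneg_left hpe (mul_pos hC hn0).le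
        calc (n : ℝ) * (C * ((l : ℝ) / n) ^ r) = C * n * ((l : ℝ) / n) ^ r := by ring
          _ ≤ C * n * eps n l ρ := this
          _ = _ := by ring
      have h2 : z / (2 * l) ≤ z / 96 := div_le_div_of_nonneg_left hz0.le (by norm_num) (by linarith)
      linarith
    have hexc := exc_insert l Q P
    rw [hPr] at hexc
    refine ft5_one hC hz0 (by positivity) hΔ (by positivity) rfl hlt ?_
    rw [hBdef]
    exact_mod_cast hexc
  have hsum := sum_le_sum hone
  rw [sum_const, nsmul_eq_mul, sum_sub_distrib, ← mul_sum] at hsum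
  have hh0 : (0 : ℝ) < n * (l.choose r : ℝ) := by
    have : (0 : ℝ) < l.choose r := by exact_mod_cast Nat.choose_pos (by omega)
    positivity
  have hh1 : ((l - 1).choose r : ℝ) * l = (l.choose r : ℝ) * ((l : ℝ) - r) := by
    have h := Nat.choose_mul_succ_eq (l - 1) r
    rw [Nat.sub_add_cancel hl1] at h
    rw [← Nat.cast_sub (by omega)]
    exact_mod_cast h
  have hmono : ((l - 1).choose r : ℝ) ≤ l.choose r := by
    exact_mod_cast Nat.choose_le_choose r (Nat.sub_le l 1)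
  refine ft5_fin (h0 := n * (l.choose r : ℝ)) (h1 := n * ((l - 1).choose r : ℝ)) hz0 hh0 hl0
    (by linarith) rfl hL0 ?_ ?_ ?_ hQ.2 hsum ?_ ?_
  · have := mul_le_mul_of_nonneg_left hL1 (show (0 : ℝ) ≤ 8 * r by positivity)
    nlinarith only [hA, this]
  · rw [mul_assoc, hh1]; ring
  · have hJne : (nc l Q).Nonempty := by
      rw [← card_pos]
      have := hz0
      rw [hzdef] at this
      exact_mod_cast this
    have hs1 : ∑ X ∈ nc l Q, (ov r X : ℝ) ≤ ∑ X ∈ nc l Q, (l.choose r : ℝ) / (2 * l) := by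
      have h1 : ∑ X ∈ nc l Q, (ov r X : ℝ) ≤
          ∑ X ∈ powersetCard l (univ : Finset (Fin n)), (ov r X : ℝ) :=
        sum_le_sum_of_subset_of_nonneg hsubJ fun _ _ _ => by positivity
      have h2 := sum_ov (n := n) (l := l) h12 (by omega) hl
      have h3 := mul_le_mul_of_nonneg_left hCe (show (0 : ℝ) ≤ l.choose r by positivity)
      rw [sum_const, nsmul_eq_mul]
      calc _ ≤ _ := h1
        _ ≤ _ := h2
        _ = (l.choose r : ℝ) * (C * ((n : ℝ) * eps n l ρ)) := by ring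
        _ ≤ _ := h3
        _ = _ := by ring
    obtain ⟨X, hX, hXo⟩ := exists_le_of_sum_le hJne hs1
    have hge := hits_ge r X
    rw [(mem_nc.1 hX).1] at hge
    have hge' : (n : ℝ) * l.choose r ≤ #(hits r X) + n * (ov r X : ℝ) := by exact_mod_cast hge
    have hsub : (#(hits r X) : ℝ) ≤ #S := by
      have : hits r X ⊆ S := by
        rw [← ft5_filter hX]; exact filter_subset _ _
      exact_mod_cast card_le_card this
    have h4 : ((l - 1).choose r : ℝ) + (l.choose r : ℝ) / (2 * l) ≤ l.choose r := by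
      have e : ((l - 1).choose r : ℝ) = l.choose r - l.choose r * (2 * r) / (2 * l) := by
        field_simp; linarith only [hh1]
      have h5 : (l.choose r : ℝ) / (2 * l) ≤ l.choose r * (2 * r) / (2 * l) := by
        refine div_le_div_of_nonneg_right ?_ (by positivity)
        exact le_mul_of_one_le_right (by positivity) (by linarith only [hr1])
      linarith only [e, h5]
    have h6 := mul_le_mul_of_nonneg_left hXo hn0.le
    have h7 := mul_le_mul_of_nonneg_left h4 hn0.le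
    rw [mul_add] at h7
    linarith only [hge', hsub, h6, h7]
  · have h1 := ft5_swap (r := r) (subset_refl (nc l Q))
    have h2 : ∑ Y ∈ nc l Q, #(hits r Y) ≤ #(nc l Q) * (n * l.choose r) := by
      rw [← smul_eq_mul]
      refine sum_le_card_nsmul _ _ _ fun Y hY => ?_
      have := hits_le r Y
      rwa [(mem_nc.1 hY).1] at this
    rw [← h1] at h2
    rw [hzdef]
    exact_mod_cast h2
  · have h1 : ∑ P ∈ S, ∑ k, #{Y ∈ blk (nc l Q) (nc (l - 1) Q) k | ∃ s : Fin n, s +ᵥ P ⊆ Y} =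
        ∑ k, ∑ Y ∈ blk (nc l Q) (nc (l - 1) Q) k, #(hits r Y) := by
      rw [sum_comm]
      exact sum_congr rfl fun k _ => ft5_swap (ft5_blk_sub _ _ k)
    rw [← Nat.cast_sum, h1]
    push_cast
    have h2 : ∀ k : Fin n, (#(blk (nc l Q) (nc (l - 1) Q) k) : ℝ) * (n * ((l - 1).choose r : ℝ)) -
        n * ∑ Y ∈ blk (nc l Q) (nc (l - 1) Q) k, (ov r Y : ℝ) ≤
        ∑ Y ∈ blk (nc l Q) (nc (l - 1) Q) k, (#(hits r Y) : ℝ) := by
      intro k
      rw [mul_sum, ← nsmul_eq_mul, ← sum_const, ← sum_sub_distrib]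
      refine sum_le_sum fun Y hY => ?_
      have hge := hits_ge r Y
      rw [(mem_nc.1 (ft5_blk_sub _ _ k hY)).1] at hge
      have hge' : (n : ℝ) * (l - 1).choose r ≤ #(hits r Y) + n * (ov r Y : ℝ) := by
        exact_mod_cast hge
      linarith only [hge']
    have h3 := sum_le_sum fun k (_ : k ∈ (univ : Finset (Fin n))) => h2 k
    rw [sum_sub_distrib, ← sum_mul, ← mul_sum] at h3
    have hB : ∑ k, (#(blk (nc l Q) (nc (l - 1) Q) k) : ℝ) = B := by
      rw [hBdef, exc]; push_cast; rfl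
    rw [hB] at h3
    have h4 := ft5_ov_blk (r := r) hl1 hl Q
    have h5 := sum_ov (n := n) (l := l - 1) h12 (by omega) (by omega)
    have h6 : eps n (l - 1) ρ ≤ eps n l ρ := eps_mono (Nat.sub_le l 1) ρ
    have h7 : (n.choose (l - 1) : ℝ) * ((n : ℝ) - l + 1) = C * l := by
      have h := Nat.choose_succ_right_eq n (l - 1)
      rw [Nat.sub_add_cancel hl1] at h
      have e : ((n - (l - 1) : ℕ) : ℝ) = (n : ℝ) - l + 1 := by
        rw [Nat.cast_sub (by omega), Nat.cast_sub hl1]; push_cast; ring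
      rw [← e, hCdef]
      exact_mod_cast h.symm
    have hnl : (0 : ℝ) ≤ (n : ℝ) - l + 1 := by
      have : (l : ℝ) ≤ n := by exact_mod_cast hl
      linarith only [this]
    have he0 : 0 ≤ eps n l ρ := by unfold eps; positivity
    have h8 : (n.choose (l - 1) : ℝ) * (l - 1).choose r * (n * eps n (l - 1) ρ) ≤
        (n.choose (l - 1) : ℝ) * l.choose r * (n * eps n l ρ) := by
      have he1 : 0 ≤ eps n (l - 1) ρ := by unfold eps; positivity
      gcongr
    have h9 := mul_le_mul_of_nonneg_left (h5.trans h8) hnl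
    have h10 : ((n : ℝ) - l + 1) * ((n.choose (l - 1) : ℝ) * l.choose r * (n * eps n l ρ)) ≤
        z * l.choose r / 2 := by
      have h11 := mul_le_mul_of_nonneg_left hCe (show (0 : ℝ) ≤ l * l.choose r by positivity)
      calc _ = ((n.choose (l - 1) : ℝ) * ((n : ℝ) - l + 1)) * l.choose r * (n * eps n l ρ) := by ring
        _ = (l * l.choose r) * (C * (n * eps n l ρ)) := by rw [h7]; ring
        _ ≤ _ := h11
        _ = _ := by field_simp
    have h12' := mul_le_mul_of_nonneg_left (h4.trans (h9.trans h10)) hn0.le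
    have e : (n : ℝ) * (z * l.choose r / 2) = z * (n * l.choose r) / 2 := by ring
    linarith only [h3, h12']

end Pool.Agent.P.MP_4f3dfd_co.Ex
end

-- part Pool.Agent.P.MP_4f3dfd_co.FU1
section

set_option autoImplicit false
set_option linter.unusedSectionVars false
set_option linter.unusedVariables false

namespace Pool.Agent.P.MP_4f3dfd_co.Ex

open Finset Real

variable {V : Type*} [DecidableEq V]

theorem fu1_sub {n q d z g : ℕ} (hq : 1 ≤ q) (hz : z ≤ n) (h2 : d ≤ z.choose q)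
    (hg : IsLeast (Off.SG n q d) g) : g ≤ z.choose (q - 1) := by
  classical
  obtain ⟨Z, -, hZ⟩ := exists_subset_card_eq (s := (univ : Finset (Fin n))) (n := z) (by simpa using hz)
  obtain ⟨A, hA, hAc⟩ := exists_subset_card_eq (s := powersetCard q Z) (n := d)
    (by rw [card_powersetCard, hZ]; exact h2)
  have hmem : #(shadow A) ∈ Off.SG n q d :=
    ⟨A, fun X hX => (mem_powersetCard.1 (hA hX)).2, hAc, rfl⟩
  refine (hg.2 hmem).trans ?_
  rw [← hZ, ← card_powersetCard]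
  refine card_le_card fun Y hY => ?_
  obtain ⟨X, hX, a, ha, rfl⟩ := mem_shadow_iff.1 hY
  have := mem_powersetCard.1 (hA hX)
  exact mem_powersetCard.2 ⟨(erase_subset _ _).trans this.1, by rw [card_erase_of_mem ha, this.2]⟩

theorem kk_upper {n q d z g : ℕ} (hq : 1 ≤ q) (hz : z ≤ n) (h1 : (z - 1).choose q ≤ d)
    (h2 : d < z.choose q) (hg : IsLeast (Off.SG n q d) g) : g * (z + 1 - q) ≤ 8 * (q * d) := by
  classical
  have hqz : q ≤ z := by
    by_contra hh
    rw [Nat.choose_eq_zero_of_lt (not_le.1 hh)] at h2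
    omega
  obtain ⟨u, rfl⟩ : ∃ u, z = q + u := ⟨z - q, by omega⟩
  have et : q + u + 1 - q = u + 1 := by omega
  rw [et]
  by_cases hA : u + 1 ≤ 8
  · obtain ⟨A, a1, a2, a3⟩ := hg.1
    have := Off.shadow_le_mul A q a1
    rw [a2, a3] at this
    calc g * (u + 1) ≤ (q * d) * 8 := Nat.mul_le_mul this hA
      _ = 8 * (q * d) := by ring
  have hA' : 8 ≤ u := by omega
  by_cases hB : q ≤ 6 * u
  · have hle := fu1_sub hq hz h2.le hg
    obtain ⟨k, rfl⟩ : ∃ k, q = k + 1 := ⟨q - 1, by omega⟩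
    have e1 : (k + 1 + u).choose (k + 1) * (k + 1) = (k + 1 + u).choose k * (u + 1) := by
      rw [Nat.choose_succ_right_eq]
      congr 1
      omega
    have e2 : (k + 1 + u - 1).choose (k + 1) * (k + 1 + u) = (k + 1 + u).choose (k + 1) * u := by
      have := Nat.choose_mul_succ_eq (k + u) (k + 1)
      have e3 : k + u + 1 - (k + 1) = u := by omega
      have e4 : k + 1 + u - 1 = k + u := by omega
      have e5 : k + 1 + u = k + u + 1 := by omega
      rw [e4, e5, this, e3]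
    have e6 : (k + 1 + u).choose (k + 1) * u ≤ (7 * d) * u := by
      rw [← e2]
      calc (k + 1 + u - 1).choose (k + 1) * (k + 1 + u) ≤ d * (7 * u) :=
            Nat.mul_le_mul h1 (by omega)
        _ = 7 * d * u := by ring
    have e7 : (k + 1 + u).choose (k + 1) ≤ 7 * d := Nat.le_of_mul_le_mul_right e6 (by omega)
    simp only [Nat.add_sub_cancel] at hle
    calc g * (u + 1) ≤ (k + 1 + u).choose k * (u + 1) := Nat.mul_le_mul_right _ hle
      _ = (k + 1 + u).choose (k + 1) * (k + 1) := e1.symm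
      _ ≤ (7 * d) * (k + 1) := Nat.mul_le_mul_right _ e7
      _ ≤ 8 * ((k + 1) * d) := by nlinarith
  · have hB' : 6 * u < q := not_le.1 hB
    obtain ⟨k, rfl⟩ : ∃ k, q = k + 1 := ⟨q - 1, by omega⟩
    obtain ⟨i, hi1, hi2⟩ : ∃ i, 2 * i ≤ u ∧ u ≤ 2 * i + 1 := ⟨u / 2, by omega, by omega⟩
    have hd : d ≤ n.choose (k + 1) := h2.le.trans (Nat.choose_le_choose _ hz)
    obtain ⟨s, hs, hs2⟩ := Off.exists_chain (n := n) (k := k) (i := i) (e := d) (by omega) hd
    have hgs : g ≤ s := hg.2 hs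
    obtain ⟨r, hr⟩ : ∃ r, u = i + 1 + r := ⟨u - (i + 1), by omega⟩
    have hgr := grow (q := k + 1) (t := i + 1) r (by omega)
    have e1 : k + 1 + (i + 1) - 1 = k + 1 + i := by omega
    have e2 : k + 1 + i + r = k + 1 + u - 1 := by omega
    rw [e1, e2] at hgr
    have hfac : ((i : ℝ) + 1) ≤ 1 + ((k + 1 : ℕ) : ℝ) * r / (((i + 1 : ℕ) : ℝ) + r) := by
      have hu : (((i + 1 : ℕ) : ℝ) + r) = u := by rw [hr]; push_cast; ring
      rw [hu]
      have hu0 : (0 : ℝ) < u := by exact_mod_cast (by omega : 0 < u)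
      have : (i : ℝ) ≤ ((k + 1 : ℕ) : ℝ) * r / u := by
        rw [le_div_iff₀ hu0]
        have : i * u ≤ (k + 1) * r := by
          calc i * u ≤ (6 * r) * u := Nat.mul_le_mul_right _ (by omega)
            _ = (6 * u) * r := by ring
            _ ≤ (k + 1) * r := Nat.mul_le_mul_right _ hB'.le
        exact_mod_cast this
      linarith
    have hch : (k + 1 + i).choose (k + 1) * (i + 1) ≤ d := by
      have h0 : (0 : ℝ) ≤ ((k + 1 + i).choose (k + 1) : ℝ) := Nat.cast_nonneg _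
      have h3 := (mul_le_mul_of_nonneg_right hfac h0).trans hgr
      have h4 : (((k + 1 + u - 1).choose (k + 1) : ℕ) : ℝ) ≤ d := by exact_mod_cast h1
      have h5 : (((k + 1 + i).choose (k + 1) * (i + 1) : ℕ) : ℝ) ≤ d := by
        push_cast; linarith
      exact_mod_cast h5
    have h6 : s * (i + 1) ≤ (k + 1) * (d + d) :=
      hs2.trans (Nat.mul_le_mul_left _ (by omega))
    calc g * (u + 1) ≤ s * (2 * (i + 1)) := Nat.mul_le_mul hgs (by omega)
      _ = 2 * (s * (i + 1)) := by ring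
      _ ≤ 2 * ((k + 1) * (d + d)) := Nat.mul_le_mul_left _ h6
      _ ≤ 8 * ((k + 1) * d) := by nlinarith

theorem upper_first : ∃ C : ℝ, 0 < C ∧ ∀ n c m d x : ℕ, Par n c d x → c * m = d * n →
    ∃ J : Finset (Finset (Fin n)), Reg n c m J ∧
      ex n c m #(shadow J) * ((x : ℝ) - c + 2) ≤ C * (((n : ℝ) - c + 1) * (c * m)) := by
  obtain ⟨C, hC⟩ := Off.master
  obtain ⟨K, hK⟩ := hC 1 one_pos
  have hC1 : (0 : ℝ) < max C 1 := lt_of_lt_of_le one_pos (le_max_right _ _)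
  refine ⟨8 * max C 1, by positivity, fun n c m d x h hm => ?_⟩
  obtain ⟨z, hxz, hzn, hz1, hz2⟩ := h.link
  obtain ⟨m1, m2, -, -, -⟩ := h.size hm
  have hc := h.hc
  have hcn := h.hcn
  have hcx := h.c_le
  obtain ⟨f, g, h', hf, hg, -, -, -, hfg, -⟩ := hK n c m d z m1 m2.le (by omega) hm hz1 hz2
  obtain ⟨J, j1, j2, j3, j4⟩ := Off.SR_deg hm hf.1
  refine ⟨J, ⟨j1, j2, d, j3⟩, ?_⟩
  rw [j4]
  have hkk := kk_upper (q := c - 1) (by omega) hzn.le hz1 hz2 hg
  have ht : ((z + 1 - (c - 1) : ℕ) : ℝ) = (z : ℝ) - c + 2 := by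
    rw [Nat.cast_sub (by omega), Nat.cast_sub (by omega)]; push_cast; ring
  have hq : ((c - 1 : ℕ) : ℝ) = (c : ℝ) - 1 := by rw [Nat.cast_sub (by omega)]; simp
  have hkk' : (g : ℝ) * ((z : ℝ) - c + 2) ≤ 8 * (((c : ℝ) - 1) * d) := by
    rw [← ht, ← hq]; exact_mod_cast hkk
  have hm' : (c : ℝ) * m = d * n := by exact_mod_cast hm
  have hc2 : (2 : ℝ) ≤ c := by exact_mod_cast hc
  have hcn2 : (c : ℝ) + 2 ≤ n := by exact_mod_cast hcn
  have hcx2 : (c : ℝ) ≤ x + 1 := by exact_mod_cast hcx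
  have hxz2 : (x : ℝ) ≤ z := by exact_mod_cast hxz
  have hng : (0 : ℝ) ≤ (n : ℝ) * g := by positivity
  have h1 : ((c : ℝ) - 1) * f ≤ max C 1 * (n * g) :=
    hfg.trans (mul_le_mul_of_nonneg_right (le_max_left _ _) hng)
  have htz : (0 : ℝ) ≤ (z : ℝ) - c + 2 := by linarith
  have hn0 : (0 : ℝ) ≤ (n : ℝ) := Nat.cast_nonneg _
  have h2 : ((c : ℝ) - 1) * (f * ((z : ℝ) - c + 2)) ≤ ((c : ℝ) - 1) * (8 * max C 1 * (c * m)) := by
    calc ((c : ℝ) - 1) * (f * ((z : ℝ) - c + 2)) = (((c : ℝ) - 1) * f) * ((z : ℝ) - c + 2) := by ring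
      _ ≤ (max C 1 * (n * g)) * ((z : ℝ) - c + 2) := mul_le_mul_of_nonneg_right h1 htz
      _ = (max C 1 * n) * (g * ((z : ℝ) - c + 2)) := by ring
      _ ≤ (max C 1 * n) * (8 * (((c : ℝ) - 1) * d)) :=
          mul_le_mul_of_nonneg_left hkk' (by positivity)
      _ = ((c : ℝ) - 1) * (8 * max C 1 * (d * n)) := by ring
      _ = ((c : ℝ) - 1) * (8 * max C 1 * (c * m)) := by rw [hm']
  have h3 : (f : ℝ) * ((z : ℝ) - c + 2) ≤ 8 * max C 1 * (c * m) :=
    le_of_mul_le_mul_left h2 (by linarith)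
  have hf0 : (0 : ℝ) ≤ f := Nat.cast_nonneg _
  have h4 : (f : ℝ) * ((x : ℝ) - c + 2) ≤ 8 * max C 1 * (c * m) :=
    (mul_le_mul_of_nonneg_left (by linarith) hf0).trans h3
  have hcm : (0 : ℝ) ≤ (c : ℝ) * m := by positivity
  have htx : (0 : ℝ) ≤ (x : ℝ) - c + 2 := by linarith
  have hk : (0 : ℝ) ≤ (n : ℝ) - c + 1 := by linarith
  unfold ex
  calc (((n : ℝ) - c + 1) * f - c * m) * ((x : ℝ) - c + 2)
      ≤ (((n : ℝ) - c + 1) * f) * ((x : ℝ) - c + 2) :=
        mul_le_mul_of_nonneg_right (by linarith) htx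
    _ = ((n : ℝ) - c + 1) * (f * ((x : ℝ) - c + 2)) := by ring
    _ ≤ ((n : ℝ) - c + 1) * (8 * max C 1 * (c * m)) := mul_le_mul_of_nonneg_left h4 hk
    _ = 8 * max C 1 * (((n : ℝ) - c + 1) * (c * m)) := by ring

end Pool.Agent.P.MP_4f3dfd_co.Ex
end

-- part Pool.Agent.P.MP_4f3dfd_co.FU2
section

set_option autoImplicit false
set_option linter.unusedSectionVars false
set_option linter.unusedVariables false

namespace Pool.Agent.P.MP_4f3dfd_co.Ex

open Finset Real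

variable {V : Type*} [DecidableEq V]

theorem fu2_exc {n : ℕ} [NeZero n] {c y : ℕ} (hc : 1 ≤ c) (hy : y ≤ n)
    (C : Finset (Finset (Fin n))) (h : ∀ B ∈ C, #B = y) :
    (exc univ (Asy.cl c C) (Asy.cl (c - 1) C) : ℝ) ≤ ((n : ℝ) - y) * #(Asy.cl (c - 1) C) := by
  obtain ⟨B0, -, h0⟩ := exists_subset_card_eq (s := (univ : Finset (Fin n))) (n := y)
    (by rwa [card_univ, Fintype.card_fin])
  have e1 := exc_cl (y2 := n) hc C ∅ B0 h h0 (fun B hB => absurd hB (notMem_empty _))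
  rw [union_empty, Nat.sub_self, zero_mul, add_zero] at e1
  rw [← Nat.cast_sub hy]
  exact_mod_cast e1

theorem round_ex {n c m : ℕ} (hcn : c ≤ n) {T D : Finset (Finset (Fin n))}
    (h : Pair univ c T D) {d : ℕ} (hd : ∀ i, deg T i = d) (hm0 : 1 ≤ m) (hm : m ≤ #T)
    (hdvd : n ∣ c * m) : ∃ J : Finset (Finset (Fin n)), Reg n c m J ∧ ex n c m #(shadow J) ≤
      c * ((#T : ℝ) - m) + exc univ T D + ((n : ℝ) - c + 1) * (c * (c * n)) := by
  obtain ⟨J, hJ, hs⟩ := round h hd hm0 hm hdvd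
  refine ⟨J, hJ, ?_⟩
  have hp := pair_card h
  rw [card_univ, Fintype.card_fin] at hp
  have hcn' : (c : ℝ) ≤ n := by exact_mod_cast hcn
  have hs' : ((#(shadow J) : ℕ) : ℝ) ≤ #D + c * (c * n) := by exact_mod_cast hs
  have h0 : (0 : ℝ) ≤ (n : ℝ) - c + 1 := by linarith
  have h1 := mul_le_mul_of_nonneg_left hs' h0
  unfold ex
  nlinarith

theorem round_co {n c k m m' : ℕ} (hk : c + k = n) (hc : 1 ≤ c) (hm : m + m' = n.choose c)
    {T D : Finset (Finset (Fin n))} (h : Pair univ (k + 1) T D) {d : ℕ} (hd : ∀ i, deg D i = d)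
    (hm0 : 1 ≤ m) (hD : #D ≤ m') (hdvd : n ∣ c * m) :
    ∃ J : Finset (Finset (Fin n)), Reg n c m J ∧ ex n c m #(shadow J) ≤
      c * ((m' : ℝ) - #D) + exc univ T D + ((n : ℝ) - c + 1) * (c * (c * n)) := by
  have hkn : k + 1 ≤ n := by omega
  have hq := pair_co hkn h
  have hx := exc_co hkn h
  have hDs := h.hD
  have r1 : n - (k + 1) + 1 = c := by omega
  simp only [Nat.add_sub_cancel] at hDs
  rw [r1] at hq hx
  obtain ⟨d', hd'⟩ := reg_co (k := c) (l := k) hk hDs hd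
  have hcard := card_co (k := c) (l := k) hk hDs
  obtain ⟨J, hJ, hb⟩ := round_ex (by omega) hq hd' hm0 (by omega) hdvd
  refine ⟨J, hJ, hb.trans (le_of_eq ?_)⟩
  rw [hx]
  have e : #(co c D) + #D = m + m' := by omega
  have e' : ((#(co c D) : ℕ) : ℝ) + #D = m + m' := by exact_mod_cast e
  have e2 : ((#(co c D) : ℕ) : ℝ) - m = m' - #D := by linarith
  rw [e2]

theorem star_lo {n c m y : ℕ} (hc : 1 ≤ c) (h1 : c ≤ y) (h2 : y ≤ n) (hm0 : 1 ≤ m)
    (hm : m ≤ n.choose c) (hdvd : n ∣ c * m) :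
    ∃ J : Finset (Finset (Fin n)), Reg n c m J ∧ ex n c m #(shadow J) ≤
      c * (n * (y - 1).choose (c - 1)) +
        ((n : ℝ) - y) * (c * (m + n * (y - 1).choose (c - 1)) / ((y : ℝ) - c + 1)) +
        ((n : ℝ) - c + 1) * (c * (c * n)) := by
  have hcn : c ≤ n := by omega
  have : NeZero n := ⟨by omega⟩
  have r1 : c - 1 + 1 = c := by omega
  obtain ⟨C, a1, t1, t2⟩ := Asy.exists_cl (n := n) (c - 1) y m (by omega) h2 (by rwa [r1])
  rw [r1] at t1 t2
  obtain ⟨d, hd⟩ := reg_cl c C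
  obtain ⟨J, hJ, hb⟩ := round_ex hcn (pair_cl hc C) hd hm0 t1 hdvd
  refine ⟨J, hJ, hb.trans ?_⟩
  have e1 := fu2_exc hc h2 C a1
  have e2 := card_cl_pred hc C a1
  have e4 : #(Asy.cl (c - 1) C) * (y + 1 - c) ≤ c * (m + n * (y - 1).choose (c - 1)) :=
    e2.trans (Nat.mul_le_mul_left _ t2)
  have hpos : (0 : ℝ) < (y : ℝ) - c + 1 := by
    have : (c : ℝ) ≤ y := by exact_mod_cast h1
    linarith
  have e5 : ((#(Asy.cl (c - 1) C) : ℕ) : ℝ) ≤
      c * (m + n * (y - 1).choose (c - 1)) / ((y : ℝ) - c + 1) := by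
    rw [le_div_iff₀ hpos]
    have hc' : ((y + 1 - c : ℕ) : ℝ) = (y : ℝ) - c + 1 := by
      rw [Nat.cast_sub (by omega)]; push_cast; ring
    rw [← hc']
    exact_mod_cast e4
  have hn1 : (0 : ℝ) ≤ (n : ℝ) - y := sub_nonneg.2 (by exact_mod_cast h2)
  have e6 := mul_le_mul_of_nonneg_left e5 hn1
  have t2' : ((#(Asy.cl c C) : ℕ) : ℝ) ≤ m + n * (y - 1).choose (c - 1) := by exact_mod_cast t2
  have e7 : (c : ℝ) * (((#(Asy.cl c C) : ℕ) : ℝ) - m) ≤ c * (n * (y - 1).choose (c - 1)) :=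
    mul_le_mul_of_nonneg_left (by linarith) (Nat.cast_nonneg _)
  linarith

theorem star_hi {n c k m m' y : ℕ} (hk : c + k = n) (hc : 1 ≤ c) (hk1 : 1 ≤ k) (h1 : k ≤ y)
    (h2 : y ≤ n) (hm0 : 1 ≤ m) (hm : m + m' = n.choose c) (hdvd : n ∣ c * m)
    (hS : n * (y - 1).choose (k - 1) ≤ m') :
    ∃ J : Finset (Finset (Fin n)), Reg n c m J ∧ ex n c m #(shadow J) ≤
      c * (n * (y - 1).choose (k - 1)) + ((n : ℝ) - y) * m' + ((n : ℝ) - c + 1) * (c * (c * n)) := by
  have : NeZero n := ⟨by omega⟩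
  have r1 : k - 1 + 1 = k := by omega
  have hsym : n.choose k = n.choose c := by
    rw [← hk, Nat.choose_symm_add]
  obtain ⟨C, a1, t1, t2⟩ := Asy.exists_cl (n := n) (k - 1) y (m' - n * (y - 1).choose (k - 1))
    (by omega) h2 (by rw [r1]; omega)
  rw [r1] at t1 t2
  have hp := pair_cl (c := k + 1) (by omega) C
  have e1 := fu2_exc (c := k + 1) (by omega) h2 C a1
  simp only [Nat.add_sub_cancel] at hp e1
  obtain ⟨d, hd⟩ := reg_cl k C
  have hD : #(Asy.cl k C) ≤ m' := by omega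
  obtain ⟨J, hJ, hb⟩ := round_co hk hc hm hp hd hm0 hD hdvd
  refine ⟨J, hJ, hb.trans ?_⟩
  have hD' : ((#(Asy.cl k C) : ℕ) : ℝ) ≤ m' := by exact_mod_cast hD
  have hn1 : (0 : ℝ) ≤ (n : ℝ) - y := sub_nonneg.2 (by exact_mod_cast h2)
  have e6 := mul_le_mul_of_nonneg_left hD' hn1
  have t3 : m' ≤ #(Asy.cl k C) + n * (y - 1).choose (k - 1) := by omega
  have t3' : (m' : ℝ) ≤ #(Asy.cl k C) + n * (y - 1).choose (k - 1) := by exact_mod_cast t3
  have e7 : (c : ℝ) * ((m' : ℝ) - #(Asy.cl k C)) ≤ c * (n * (y - 1).choose (k - 1)) :=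
    mul_le_mul_of_nonneg_left (by linarith) (Nat.cast_nonneg _)
  linarith

theorem triv_up {n c m m' : ℕ} (hc : 1 ≤ c) (hcn : c ≤ n) (hm0 : 1 ≤ m)
    (hm : m + m' = n.choose c) (hdvd : n ∣ c * m) :
    ∃ J : Finset (Finset (Fin n)), Reg n c m J ∧ ex n c m #(shadow J) ≤ c * m' ∧
      ex n c m #(shadow J) ≤ n * (c * m) := by
  obtain ⟨J, hJ, s1, s2⟩ := exists_reg hc hm0 (by omega : m ≤ n.choose c) hdvd
  have hc1 : (1 : ℝ) ≤ c := by exact_mod_cast hc
  have hcn' : (c : ℝ) ≤ n := by exact_mod_cast hcn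
  have h0 : (0 : ℝ) ≤ (n : ℝ) - c + 1 := by linarith
  have s1' : ((#(shadow J) : ℕ) : ℝ) ≤ c * m := by exact_mod_cast s1
  have s2' : ((#(shadow J) : ℕ) : ℝ) ≤ n.choose (c - 1) := by exact_mod_cast s2
  have hm' : (m : ℝ) + m' = n.choose c := by exact_mod_cast hm
  have hp := choose_pred (z := n) hc
  have hcm : (0 : ℝ) ≤ (c : ℝ) * m := by positivity
  refine ⟨J, hJ, ?_, ?_⟩
  · have h1 := mul_le_mul_of_nonneg_left s2' h0
    unfold ex
    rw [← hp, ← hm'] at h1
    linarith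
  · have h1 := mul_le_mul_of_nonneg_left s1' h0
    have h2 : ((n : ℝ) - c + 1) * (c * m) ≤ n * (c * m) :=
      mul_le_mul_of_nonneg_right (by linarith) hcm
    unfold ex
    linarith

end Pool.Agent.P.MP_4f3dfd_co.Ex
end

-- part Pool.Agent.P.MP_4f3dfd_co.FU5
section

set_option autoImplicit false
set_option linter.unusedSectionVars false
set_option linter.unusedVariables false

namespace Pool.Agent.P.MP_4f3dfd_co.Ex

open Finset Real

variable {V : Type*} [DecidableEq V]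

theorem fu5_real {ε γ δ t w f M : ℝ} (hγ : 0 < γ) (hδ : 0 < δ) (hδ1 : δ ≤ 1)
    (hδε : δ * (3 + 1 / γ) ≤ ε) (ht : 1 / δ + 1 ≤ t) (hw : γ * t ≤ w) (hM : 0 ≤ M) (hf0 : 0 ≤ f)
    (hf : f * (t - 1) ≤ (1 + δ) * M) :
    (w + t - 1) * f - M ≤ (1 + ε) * (M * w / t) := by
  have hd : 0 < 1 / δ := by positivity
  have ht1 : 0 < t - 1 := by linarith
  have ht0 : 0 < t := by linarith
  have hw0 : 0 < w := lt_of_lt_of_le (by positivity) hw
  have h1 : 1 ≤ δ * (t - 1) := by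
    have : 1 / δ ≤ t - 1 := by linarith
    rw [div_le_iff₀ hδ] at this
    linarith
  set u := M * w / t with hu
  have hu0 : 0 ≤ u := by positivity
  have hut : u * t = M * w := by rw [hu]; field_simp
  -- f * t ≤ (1 + δ) ^ 2 * M
  have h2 : f * t ≤ (1 + δ) ^ 2 * M := by
    have h3 : f ≤ δ * (f * (t - 1)) := by nlinarith [mul_le_mul_of_nonneg_left h1 hf0]
    have h4 : δ * (f * (t - 1)) ≤ δ * ((1 + δ) * M) := mul_le_mul_of_nonneg_left hf hδ.le
    nlinarith
  have h5 : w * f ≤ (1 + δ) ^ 2 * u := by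
    have h6 : (w * f) * t ≤ ((1 + δ) ^ 2 * u) * t := by
      have := mul_le_mul_of_nonneg_left h2 hw0.le
      calc (w * f) * t = w * (f * t) := by ring
        _ ≤ w * ((1 + δ) ^ 2 * M) := this
        _ = (1 + δ) ^ 2 * (M * w) := by ring
        _ = ((1 + δ) ^ 2 * u) * t := by rw [← hut]; ring
    exact le_of_mul_le_mul_right h6 ht0
  have h7 : M ≤ 1 / γ * u := by
    have h8 : (γ * M) * t ≤ u * t := by
      rw [hut]
      have := mul_le_mul_of_nonneg_left hw hM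
      linarith
    have h9 : γ * M ≤ u := le_of_mul_le_mul_right h8 ht0
    rw [one_div, ← div_eq_inv_mul, le_div_iff₀ hγ]
    linarith
  have h10 : δ * M ≤ δ * (1 / γ * u) := mul_le_mul_of_nonneg_left h7 hδ.le
  have h11 : (1 + δ) ^ 2 ≤ 1 + 3 * δ := by nlinarith
  have h12 : (1 + δ) ^ 2 * u ≤ (1 + 3 * δ) * u := mul_le_mul_of_nonneg_right h11 hu0
  have h13 : δ * (3 + 1 / γ) * u ≤ ε * u := mul_le_mul_of_nonneg_right hδε hu0
  nlinarith

/-- Wide cliques: the first-order asymptotics suffice. -/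
theorem up_lo_wide (ε γ : ℝ) (hε : 0 < ε) (hγ : 0 < γ) : ∃ K : ℝ, 0 < K ∧
    ∀ n c m d x : ℕ, Par n c d x → c * m = d * n → K ≤ lg n c d → K ≤ (x : ℝ) - c + 2 →
      γ * ((x : ℝ) - c + 2) ≤ (n : ℝ) - x →
      ∃ J : Finset (Finset (Fin n)), Reg n c m J ∧ ex n c m #(shadow J) ≤ (1 + ε) * eL n c m x := by
  have hg : 0 < 3 + 1 / γ := by positivity
  set δ : ℝ := min 1 (ε / (3 + 1 / γ)) with hδdef
  have hδ : 0 < δ := lt_min one_pos (div_pos hε hg)
  have hδ1 : δ ≤ 1 := min_le_left _ _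
  have hδε : δ * (3 + 1 / γ) ≤ ε := by
    have : δ ≤ ε / (3 + 1 / γ) := min_le_right _ _
    rwa [le_div_iff₀ hg] at this
  obtain ⟨K0, hK0⟩ := Asy.asymptotic δ hδ
  obtain ⟨K1, hK1, hsp⟩ := sparse_num K0
  have hd : 0 < 1 / δ := by positivity
  refine ⟨K1 + K0 + 2 + 1 / δ, by positivity, ?_⟩
  intro n c m d x h hm hL ht hw
  have hK0n : (0 : ℝ) ≤ K0 := Nat.cast_nonneg _
  obtain ⟨z, hxz, hzn, hz1, hz2⟩ := h.link
  obtain ⟨hm1, hmC, -, -, -⟩ := h.size hm
  have hcx : c + K0 ≤ x := by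
    have : (c : ℝ) + K0 ≤ x := by linarith
    exact_mod_cast this
  have hor : K0 ≤ c ∨ K0 * z ≤ n := by
    by_cases hc : K0 ≤ c
    · exact Or.inl hc
    · exact Or.inr (hsp n c d z h.hc (by omega) h.hd hzn (by omega) hz1 (by linarith))
  obtain ⟨f, ⟨⟨J, hJ1, hJ2, hJ3, hJ4⟩, -⟩, hf⟩ :=
    hK0 n c m d z hm1 hmC.le hm hz1 hz2 (by omega) hor
  refine ⟨J, ⟨hJ1, hJ2, hJ3⟩, ?_⟩
  have hc0 : (0 : ℝ) < c := by have := h.hc; exact_mod_cast (by omega : 0 < c)
  have hm0 : (0 : ℝ) < m := by exact_mod_cast hm1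
  have hM : (0 : ℝ) < c * m := mul_pos hc0 hm0
  have hf0 : (0 : ℝ) ≤ f := Nat.cast_nonneg _
  have hf1 : (f : ℝ) * (z - c + 1) ≤ (1 + δ) * (c * m) := by
    have := (abs_le.1 hf).2
    have h2 : (f : ℝ) * (z - c + 1) / (c * m) ≤ 1 + δ := by linarith
    rwa [div_le_iff₀ hM] at h2
  have hxz' : (x : ℝ) ≤ z := by exact_mod_cast hxz
  have hf2 : (f : ℝ) * (((x : ℝ) - c + 2) - 1) ≤ (1 + δ) * (c * m) := by
    refine le_trans (mul_le_mul_of_nonneg_left ?_ hf0) hf1
    linarith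
  have key := fu5_real (ε := ε) hγ hδ hδ1 hδε (t := (x : ℝ) - c + 2) (w := (n : ℝ) - x)
    (by linarith) hw hM.le hf0 hf2
  rw [hJ4]
  unfold ex eL
  have e1 : (n : ℝ) - c + 1 = (n : ℝ) - x + ((x : ℝ) - c + 2) - 1 := by ring
  rw [e1]
  exact key

end Pool.Agent.P.MP_4f3dfd_co.Ex
end

-- part Pool.Agent.P.MP_4f3dfd_co.FB3
section

set_option autoImplicit false
set_option linter.unusedSectionVars false
set_option linter.unusedVariables false

namespace Pool.Agent.P.MP_4f3dfd_co.Ex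

open Finset Real

variable {V : Type*} [DecidableEq V]

/-- the exponent at level `N` -/
noncomputable def fb3t (a θ N1 N : ℝ) : ℝ := 1 / ((1 / θ + 6 * a) / N1 * N - 6 * a)

theorem fb3_self {a θ N1 : ℝ} (h : 7 ≤ N1) : fb3t a θ N1 N1 = θ := by
  have : N1 ≠ 0 := by linarith
  unfold fb3t
  rw [div_mul_cancel₀ _ this, add_sub_cancel_right, one_div_one_div]

theorem fb3_num {a θ N1 N : ℝ} (ha : 0 < a) (hθ0 : 0 < θ) (hθ : θ * a ≤ 1) (h19 : 7 ≤ N1)
    (hN : N1 ≤ N) :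
    0 < fb3t a θ N1 N ∧ θ / (1 + 6 * θ * a) * (N1 / N) ≤ fb3t a θ N1 N ∧
      fb3t a θ N1 N ≤ θ * (N1 / N) ∧
      fb3t a θ N1 (N + 1) ≤ fb3t a θ N1 N * (1 - (1 + 3 * fb3t a θ N1 N * a) / (N + 1)) := by
  have hN1 : 0 < N1 := by linarith
  have hN0 : 0 < N := by linarith
  obtain ⟨B, hB⟩ : ∃ B : ℝ, B = 6 * a := ⟨_, rfl⟩
  obtain ⟨u, hu⟩ : ∃ u : ℝ, u = 1 / θ := ⟨_, rfl⟩
  have hB0 : 0 < B := by rw [hB]; positivity
  have hu0 : 0 < u := by rw [hu]; positivity
  have hBu : B ≤ 6 * u := by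
    rw [hB, hu, mul_one_div, le_div_iff₀ hθ0]
    linarith
  obtain ⟨A, hA⟩ : ∃ A : ℝ, A = (u + B) / N1 := ⟨_, rfl⟩
  have hA0 : 0 < A := by rw [hA]; positivity
  have hAN : A * N1 = u + B := by rw [hA]; field_simp
  obtain ⟨v, hv⟩ : ∃ v : ℝ, v = A * N - B := ⟨_, rfl⟩
  have hAv : A ≤ v := by
    have h1 : A * N1 ≤ A * N := mul_le_mul_of_nonneg_left hN hA0.le
    have h2 : A * 7 ≤ A * N1 := mul_le_mul_of_nonneg_left h19 hA0.le
    linarith
  have hv0 : 0 < v := hA0.trans_le hAv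
  have e1 : fb3t a θ N1 N = 1 / v := by unfold fb3t; rw [← hu, ← hB, ← hA, hv]
  have e2 : fb3t a θ N1 (N + 1) = 1 / (v + A) := by
    unfold fb3t; rw [← hu, ← hB, ← hA, hv]; congr 1; ring
  rw [e1, e2]
  refine ⟨by positivity, ?_, ?_, ?_⟩
  · have e3 : θ / (1 + 6 * θ * a) * (N1 / N) = 1 / (A * N) := by
      rw [hA, hu, hB]; field_simp
    rw [e3]
    exact one_div_le_one_div_of_le hv0 (by linarith)
  · have e3 : θ * (N1 / N) = 1 / (u * N / N1) := by rw [hu]; field_simp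
    rw [e3]
    refine one_div_le_one_div_of_le (by positivity) ?_
    rw [div_le_iff₀ hN1, hv]
    have h1 : B * N1 ≤ B * N := mul_le_mul_of_nonneg_left hN hB0.le
    have h2 : (A * N - B) * N1 = (u + B) * N - B * N1 := by rw [← hAN]; ring
    rw [h2]
    linarith
  · have e3 : 3 * (1 / v) * a = B / (2 * v) := by rw [hB]; field_simp; norm_num
    have e4 : N + 1 = (v + B + A) / A := by rw [hv]; field_simp; ring
    rw [e3, e4]
    have key : 1 / v * (1 - (1 + B / (2 * v)) / ((v + B + A) / A)) - 1 / (v + A) =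
        A * B * (v - A) / (2 * v ^ 2 * (v + A) * (v + B + A)) := by
      field_simp
      ring
    have : 0 ≤ A * B * (v - A) / (2 * v ^ 2 * (v + A) * (v + B + A)) := by
      have : 0 ≤ v - A := by linarith
      positivity
    linarith

/-- Erasure hypercontractivity on a slice, uniformly in the level. -/
theorem hcU (G : Finset V) (c N1 : ℕ) (E : Finset (Finset V)) (hE : E ⊆ powersetCard c G)
    {a θ : ℝ} (ha : 0 < a) (h1 : 2 * a * #G ≤ c) (h2 : (c : ℝ) ≤ (1 - 2 * a) * #G)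
    (hθ0 : 0 < θ) (hθ : θ * bt a ≤ 1) (h7 : 7 ≤ N1) (hN1 : N1 ≤ #G)
    (hN : 336 * log (2 * √(#G)) ≤ θ * a * N1) :
    Av G (#G - N1) (pw E G c (1 + θ)) ≤
      2 * (wp ((#G).choose c) #E (1 + tt a θ * (N1 / #G)) +
        #G * (zeta #G 1 (a * N1 / 6) * (#G).choose c)) := by
  have r19 : (7 : ℝ) ≤ N1 := by exact_mod_cast h7
  have rN1 : (N1 : ℝ) ≤ #G := by exact_mod_cast hN1
  have ha4 : a ≤ 1 / 4 := by
    by_contra hc
    have h3 : (1 / 4 : ℝ) * #G < a * #G := mul_lt_mul_of_pos_right (not_le.1 hc) (by linarith)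
    linarith
  have hb30 := bt_ge ha (by linarith)
  have hb0 : 0 < bt a := by linarith
  obtain ⟨-, -, htt, h30⟩ := tt_bounds ha (by linarith) hθ0 hθ
  obtain ⟨C2, hC2⟩ : ∃ C2 : ℝ, C2 = 8 * θ := ⟨_, rfl⟩
  have hC0 : 0 ≤ C2 := by rw [hC2]; positivity
  obtain ⟨Z, hZ⟩ : ∃ Z : ℝ, Z = zeta #G 1 (a * N1 / 6) * (#G).choose c := ⟨_, rfl⟩
  have hZ0 : 0 ≤ Z := by rw [hZ]; unfold zeta; positivity
  rw [← hZ]
  have hpw : ∀ (r : ℕ) (p : ℝ), 0 ≤ Av G r (pw E G c p) := fun r p =>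
    Av_nonneg G r fun S _ _ x _ => wp_nonneg _ _ _
  have main : ∀ N : ℕ, N1 ≤ N → N ≤ #G → Av G (#G - N1) (pw E G c (1 + θ)) ≤
      exp (C2 * (1 - N1 / N)) *
        (Av G (#G - N) (pw E G c (1 + fb3t (bt a) θ N1 N)) + ((N : ℝ) - N1) * Z) := by
    intro N hN'
    induction N, hN' using Nat.le_induction with
    | base =>
      intro _
      rw [fb3_self r19, div_self (by linarith), sub_self, sub_self, mul_zero, exp_zero]
      linarith
    | succ N hN' ih =>
      intro hle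
      have rN : (N1 : ℝ) ≤ N := by exact_mod_cast hN'
      have rle : (N : ℝ) + 1 ≤ #G := by exact_mod_cast hle
      have N0 : (0 : ℝ) < N := by linarith
      obtain ⟨t0, t1, t2, t3⟩ := fb3_num hb0 hθ0 hθ r19 rN
      have t0' := (fb3_num hb0 hθ0 hθ r19 (by linarith : (N1 : ℝ) ≤ N + 1)).1
      have er : (#G : ℝ) - ((#G - (N + 1) : ℕ) : ℝ) = N + 1 := by
        rw [Nat.cast_sub hle]; push_cast; ring
      have q1 : (N1 : ℝ) / N ≤ 1 := by rw [div_le_one N0]; exact rN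
      have t4 : fb3t (bt a) θ N1 N * bt a ≤ 1 := (mul_le_mul_of_nonneg_right
        (t2.trans (mul_le_of_le_one_right hθ0.le q1)) hb0.le).trans hθ
      have t5 : θ / 7 * (N1 / N) ≤ fb3t (bt a) θ N1 N := by
        refine le_trans (mul_le_mul_of_nonneg_right ?_ (by positivity)) t1
        refine div_le_div_of_nonneg_left hθ0.le (by positivity) ?_
        linarith
      have t6 : 48 * log (2 * √((N : ℝ) + 1)) ≤ fb3t (bt a) θ N1 N * a * (N + 1) := by
        have l1 : log (2 * √((N : ℝ) + 1)) ≤ log (2 * √(#G)) :=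
          log_le_log (by positivity)
            (mul_le_mul_of_nonneg_left (sqrt_le_sqrt rle) (by norm_num))
        have l2 : θ / 7 * (N1 / N) * a * N ≤ fb3t (bt a) θ N1 N * a * (N + 1) :=
          mul_le_mul (mul_le_mul_of_nonneg_right t5 ha.le) (by linarith) N0.le (by positivity)
        have l3 : θ / 7 * (N1 / N) * a * N = θ * a * N1 / 7 := by field_simp
        linarith
      have hl := hc_levelU G c (#G - (N + 1)) E hE (θ := fb3t (bt a) θ N1 N)
        (τ := fb3t (bt a) θ N1 (N + 1)) ha h1 h2 (by omega) t0 t4 (by rw [er]; exact t6) t0'.le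
        (by rw [er]; exact t3)
      rw [er, show #G - (N + 1) + 1 = #G - N by omega] at hl
      have hz : zeta #G 1 (a * ((N : ℝ) + 1) / 6) * (#G).choose c ≤ Z := by
        rw [hZ]
        exact mul_le_mul_of_nonneg_right (zeta_mono le_rfl 1 (by nlinarith)) (by positivity)
      have hE1 : exp (8 * fb3t (bt a) θ N1 N / (N + 1)) ≤
          exp (C2 * (N1 / (N * (N + 1)))) := by
        refine exp_le_exp.2 ?_
        have l1 : 8 * fb3t (bt a) θ N1 N ≤ 8 * (θ * (N1 / N)) :=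
          mul_le_mul_of_nonneg_left t2 (by positivity)
        have l2 : C2 * (N1 / (N * (N + 1))) = 8 * (θ * (N1 / N)) / (N + 1) := by
          rw [hC2]; field_simp
        rw [l2]
        exact div_le_div_of_nonneg_right l1 (by positivity)
      have hE2 : 1 ≤ exp (C2 * (N1 / (N * (N + 1)))) := one_le_exp (by positivity)
      have hF : exp (C2 * (1 - N1 / ((N : ℝ) + 1))) =
          exp (C2 * (1 - N1 / N)) * exp (C2 * (N1 / (N * (N + 1)))) := by
        rw [← exp_add]; congr 1; field_simp; ring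
      refine (ih (by omega)).trans ?_
      push_cast
      rw [hF, mul_assoc]
      refine mul_le_mul_of_nonneg_left ?_ (exp_pos _).le
      have hX := hpw (#G - (N + 1)) (1 + fb3t (bt a) θ N1 (N + 1))
      generalize Av G (#G - (N + 1)) (pw E G c (1 + fb3t (bt a) θ N1 (N + 1))) = X at hl hX ⊢
      generalize exp (C2 * (N1 / (N * (N + 1)))) = e at hE1 hE2 ⊢
      have m1 := mul_le_mul_of_nonneg_right hE1 hX
      have m2 : 0 ≤ ((N : ℝ) + 1 - N1) * Z := mul_nonneg (by linarith) hZ0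
      have m3 := le_mul_of_one_le_left m2 hE2
      rw [mul_add]
      linarith
  refine (main #G hN1 le_rfl).trans ?_
  obtain ⟨t0, t1, -, -⟩ := fb3_num hb0 hθ0 hθ r19 rN1
  have G0 : (0 : ℝ) < #G := by linarith
  refine mul_le_mul ?_ (add_le_add ?_ ?_)
    (add_nonneg (hpw _ _) (mul_nonneg (by linarith) hZ0)) (by norm_num)
  · have : (0 : ℝ) ≤ N1 / #G := by positivity
    have h3 : C2 * (1 - N1 / #G) ≤ log 2 :=
      (mul_le_of_le_one_right hC0 (by linarith)).trans (by have := log_two_gt_d9; linarith)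
    exact (exp_le_exp.2 h3).trans_eq (exp_log two_pos)
  · rw [Nat.sub_self, Av_zero]
    have e : pw E G c (1 + fb3t (bt a) θ N1 #G) ∅ ∅ =
        wp ((#G).choose c) #E (1 + fb3t (bt a) θ N1 #G) := by
      simp only [pw, tot, cnt_empty, card_empty, Nat.sub_zero]
    rw [e]
    refine wp_anti ?_ (by positivity) (by unfold tt; linarith)
    rw [← card_powersetCard]
    exact card_le_card hE
  · exact mul_le_mul_of_nonneg_right (by linarith) hZ0

end Pool.Agent.P.MP_4f3dfd_co.Ex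
end

-- part Pool.Agent.P.MP_4f3dfd_co.FN5
section

set_option autoImplicit false
set_option linter.unusedSectionVars false
set_option linter.unusedVariables false

namespace Pool.Agent.P.MP_4f3dfd_co.Ex

open Finset Real

variable {V : Type*} [DecidableEq V]

theorem fn5_le {n c d x z y : ℕ} (h : Par n c d x) (hd : (z - 1).choose (c - 1) ≤ d)
    (hy : lam n c d ((n : ℝ) - x) * x.choose (c - 1) ≤ y.choose (c - 1)) : z ≤ y := by
  by_contra hh
  have h1 : y.choose (c - 1) ≤ d := (Nat.choose_le_choose _ (by omega)).trans hd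
  have h2 : (y.choose (c - 1) : ℝ) ≤ d := by exact_mod_cast h1
  linarith [h.hi]

theorem fn5_grow (q : ℕ) {t : ℕ} (ht : 1 ≤ t) :
    (1 + (q : ℝ) / 2) * (q + t - 1).choose q ≤ (q + 2 * t - 1).choose q := by
  have h := grow (q := q) t ht
  have htR : (0 : ℝ) < t := by exact_mod_cast ht
  have e : (q : ℝ) * t / (t + t) = q / 2 := by
    field_simp
    ring
  rwa [e, show q + t - 1 + t = q + 2 * t - 1 by omega] at h

theorem fn5_lam {n c d x : ℕ} (h : Par n c d x) : 1 ≤ lam n c d ((n : ℝ) - x) := by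
  have : (x : ℝ) < n := by exact_mod_cast h.hx
  exact h.one_le_lam (by linarith) (by linarith [Nat.cast_nonneg (α := ℝ) x])

theorem link_t8 {n c d x : ℕ} (h : Par n c d x) {z : ℕ} (hxz : x ≤ z) (hz : z < n) (hd : (z - 1).choose (c - 1) ≤ d) :
    (z : ℝ) - c + 2 ≤ 8 * ((x : ℝ) - c + 2) := by
  have hc := h.hc
  have hx := h.hx
  have hcx := h.c_le
  obtain ⟨q, rfl⟩ : ∃ q, c = q + 1 := ⟨c - 1, by omega⟩
  obtain ⟨t, ht, rfl⟩ : ∃ t, 1 ≤ t ∧ x = q + t - 1 := ⟨x + 1 - q, by omega, by omega⟩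
  have hxR : ((q + t - 1 : ℕ) : ℝ) = q + t - 1 := by
    rw [Nat.cast_sub (by omega)]
    push_cast
    ring
  suffices hh : z + 1 ≤ q + 8 * t by
    have : (z : ℝ) + 1 ≤ q + 8 * t := by exact_mod_cast hh
    rw [hxR]
    push_cast
    linarith
  rcases le_or_gt n (q + 2 * t) with h1 | h1
  · omega
  have hq : (1 : ℝ) ≤ q := by exact_mod_cast (by omega : 1 ≤ q)
  have htR : (1 : ℝ) ≤ t := by exact_mod_cast ht
  have h1R : (q : ℝ) + 2 * t < n := by exact_mod_cast h1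
  have g1 := fn5_grow q ht
  have g2 := fn5_grow q (t := 2 * t) (by omega)
  have g3 := fn5_grow q (t := 2 * (2 * t)) (by omega)
  have hl : lam n (q + 1) d ((n : ℝ) - (q + t - 1 : ℕ)) ≤ (1 + (q : ℝ) / 2) ^ 3 := by
    refine (min_le_left _ _).trans ?_
    rw [hxR, div_le_iff₀ (by linarith)]
    have a1 : 2 + (q : ℝ) ≤ (1 + (q : ℝ) / 2) ^ 3 := by nlinarith [mul_nonneg (sq_nonneg (q : ℝ)) (show (0 : ℝ) ≤ q by linarith)]
    have a2 := mul_le_mul_of_nonneg_right a1 (show (0 : ℝ) ≤ n - (q + t - 1) by linarith)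
    nlinarith
  have p0 : (0 : ℝ) ≤ 1 + (q : ℝ) / 2 := by positivity
  have := fn5_le h hd (y := q + 2 * (2 * (2 * t)) - 1) (by
    rw [Nat.add_sub_cancel]
    calc _ ≤ (1 + (q : ℝ) / 2) ^ 3 * (q + t - 1).choose q :=
          mul_le_mul_of_nonneg_right hl (by positivity)
      _ = (1 + (q : ℝ) / 2) * ((1 + (q : ℝ) / 2) * ((1 + (q : ℝ) / 2) * (q + t - 1).choose q)) := by
          ring
      _ ≤ _ := (mul_le_mul_of_nonneg_left
          ((mul_le_mul_of_nonneg_left g1 p0).trans g2) p0).trans g3)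
  omega

theorem link_R1 {n c d x : ℕ} (h : Par n c d x) {z : ℕ} (hxz : x ≤ z) (hz : z < n) (hd : (z - 1).choose (c - 1) ≤ d) :
    ((z : ℝ) - x - 1) * lg n c d ≤ ((n : ℝ) - z) * log (lam n c d ((n : ℝ) - x)) := by
  have hl := fn5_lam h
  have hL := h.lg_pos
  have hzR : (z : ℝ) < n := by exact_mod_cast hz
  rcases hxz.eq_or_lt with rfl | hlt
  · have := mul_nonneg (sub_pos.2 hzR).le (log_nonneg hl)
    linarith
  have hdR : ((z - 1).choose (c - 1) : ℝ) ≤ d := by exact_mod_cast hd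
  have h1 := decay (q := c - 1) (z := z - 1) (N := n - 1) (s := z - 1 - x) (Y := lg n c d)
    (by omega) (by omega) (by rw [← h.d_eq]; exact hdR)
  have e1 : ((z - 1 - x : ℕ) : ℝ) = z - x - 1 := by
    rw [Nat.cast_sub (by omega), Nat.cast_sub (by omega)]
    push_cast
    ring
  have e2 : ((n - 1 : ℕ) : ℝ) - (z - 1 : ℕ) = n - z := by
    rw [Nat.cast_sub (by omega), Nat.cast_sub (by omega)]
    ring
  rw [e1, e2, show z - 1 - (z - 1 - x) = x by omega] at h1
  have hd0 : (0 : ℝ) < d := by exact_mod_cast h.hd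
  have h2 := h.hi.trans_le (mul_le_mul_of_nonneg_left
    (h1.trans (mul_le_mul_of_nonneg_left hdR (exp_pos _).le)) (by linarith))
  rw [← mul_assoc, lt_mul_iff_one_lt_left hd0, exp_neg, ← div_eq_mul_inv,
    one_lt_div (exp_pos _), ← lt_log_iff_exp_lt (by linarith), div_lt_iff₀ (by linarith)] at h2
  linarith

theorem link_far {n c d x : ℕ} (h : Par n c d x) {z : ℕ} (hxz : x ≤ z) (hz : z < n) (hd : (z - 1).choose (c - 1) ≤ d)
    (hw : 100 < (n : ℝ) - x) (hf : 10 * ((n : ℝ) - z - 1) < (n : ℝ) - x) :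
    8 * lg n c d ≤ log (lam n c d ((n : ℝ) - x)) := by
  have h1 := link_R1 h hxz hz hd
  have h2 := log_nonneg (fn5_lam h)
  have hL := h.lg_pos
  have h3 := mul_le_mul_of_nonneg_right
    (show (n : ℝ) - z ≤ 11 / 100 * ((n : ℝ) - x) by linarith) h2
  have h4 := mul_le_mul_of_nonneg_right
    (show 88 / 100 * ((n : ℝ) - x) ≤ (z : ℝ) - x - 1 by linarith) hL.le
  refine le_of_mul_le_mul_left ?_ (show 0 < 11 / 100 * ((n : ℝ) - x) by linarith)
  linarith

theorem link_sharp (ε : ℝ) (hε : 0 < ε) : ∃ K1 : ℝ, 0 < K1 ∧ ∀ n c d x z : ℕ, Par n c d x →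
    x ≤ z → z < n → (z - 1).choose (c - 1) ≤ d → K1 * log c ≤ lg n c d →
    (z : ℝ) - x + 1 ≤ ε * ((n : ℝ) - x) ∧
      (K1 ≤ (x : ℝ) - c + 2 → (z : ℝ) - x ≤ ε * ((x : ℝ) - c + 2)) := by
  obtain ⟨e, he0, he1, he2⟩ : ∃ e : ℝ, 0 < e ∧ e ≤ 1 / 2 ∧ 2 * e ≤ ε :=
    ⟨min ε 1 / 2, by positivity, by linarith [min_le_right ε 1], by linarith [min_le_left ε 1]⟩
  refine ⟨6 / e, by positivity, fun n c d x z h hxz hz hd hK => ?_⟩
  have hc := h.hc
  have hx := h.hx
  have hcx := h.c_le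
  have hcR : (2 : ℝ) ≤ c := by exact_mod_cast hc
  have hcxR : (c : ℝ) ≤ x + 1 := by exact_mod_cast hcx
  have hxR : (x : ℝ) < n := by exact_mod_cast hx
  have hxzR : (x : ℝ) ≤ z := by exact_mod_cast hxz
  have hL := h.lg_pos
  have hlc : 1 / 2 ≤ log (c : ℝ) := by
    have := log_le_log two_pos hcR
    linarith [log_two_gt_d9]
  rw [div_mul_eq_mul_div, div_le_iff₀ he0] at hK
  have hw : 6 ≤ ((n : ℝ) - x) * e := by
    have h1 := mul_le_mul_of_nonneg_right h.wL he0.le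
    refine le_of_mul_le_mul_right ?_ (show 0 < log (c : ℝ) by linarith)
    linarith
  have hn : (n : ℝ) ≤ (1 + ((c : ℝ) - 1) * e / 2) * ((n : ℝ) - x) := by
    have h1 := h.tL
    have h2 : 0 ≤ log (lam n c d ((n : ℝ) - x + 1)) :=
      log_nonneg (h.one_le_lam (by linarith) (by linarith))
    have h3 : 0 ≤ (x : ℝ) - c + 1 := by linarith
    have h4 : ((x : ℝ) - c + 1) * 3 ≤ ((x : ℝ) - c + 1) * (lg n c d * e) :=
      mul_le_mul_of_nonneg_left (by linarith) h3
    have h5 : ((x : ℝ) - c + 1) * lg n c d ≤ ((n : ℝ) - x) * ((c : ℝ) - 1) := by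
      have := mul_nonneg h3 h2
      linarith
    have h6 := mul_le_mul_of_nonneg_right h5 he0.le
    have h7 := mul_le_mul_of_nonneg_left hw (show (0 : ℝ) ≤ c - 1 by linarith)
    linarith
  have hl : lam n c d ((n : ℝ) - x) ≤ 1 + ((c : ℝ) - 1) * e / 2 :=
    (min_le_left _ _).trans ((div_le_iff₀ (by linarith)).2 hn)
  have hl1 := fn5_lam h
  constructor
  · have h1 := link_R1 h hxz hz hd
    have h2 : log (lam n c d ((n : ℝ) - x)) ≤ log c :=
      log_le_log (by linarith) (hl.trans (by nlinarith))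
    have h3 : ((n : ℝ) - z) * log (lam n c d ((n : ℝ) - x)) ≤ ((n : ℝ) - x) * log c :=
      mul_le_mul (by linarith) h2 (log_nonneg hl1) (by linarith)
    have h4 := mul_le_mul_of_nonneg_left hK (show (0 : ℝ) ≤ n - x by linarith)
    have h5 : ((z : ℝ) - x - 1) * 6 ≤ ((n : ℝ) - x) * e := by
      refine le_of_mul_le_mul_right ?_ hL
      linarith
    have h6 := mul_le_mul_of_nonneg_right he2 (show (0 : ℝ) ≤ n - x by linarith)
    linarith
  · intro ht
    rw [div_le_iff₀ he0] at ht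
    obtain ⟨q, rfl⟩ : ∃ q, c = q + 1 := ⟨c - 1, by omega⟩
    obtain ⟨t, ht1, rfl⟩ : ∃ t, 1 ≤ t ∧ x = q + t - 1 := ⟨x + 1 - q, by omega, by omega⟩
    have e1 : ((q + t - 1 : ℕ) : ℝ) - (q + 1 : ℕ) + 2 = t := by
      rw [Nat.cast_sub (by omega)]
      push_cast
      ring
    have e2 : ((q + 1 : ℕ) : ℝ) - 1 = q := by
      push_cast
      ring
    rw [e1] at ht ⊢
    rw [e2] at hl
    have htR : (0 : ℝ) < t := by exact_mod_cast ht1
    have s1 : e * t ≤ ⌈e * t⌉₊ := Nat.le_ceil _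
    have s2 : (⌈e * t⌉₊ : ℝ) < e * t + 1 := Nat.ceil_lt_add_one (by positivity)
    generalize ⌈e * t⌉₊ = s at s1 s2
    have s3 : e * t ≤ 1 / 2 * t := mul_le_mul_of_nonneg_right he1 htR.le
    have s4 : (q : ℝ) * e / 2 ≤ q * s / (t + s) := by
      rw [mul_div_assoc, mul_div_assoc]
      refine mul_le_mul_of_nonneg_left ?_ (by positivity)
      rw [div_le_div_iff₀ two_pos (by positivity)]
      have := mul_le_mul_of_nonneg_left (show (s : ℝ) ≤ t by linarith) he0.le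
      linarith
    have h1 := fn5_le h hd (y := q + t - 1 + s) (by
      rw [Nat.add_sub_cancel]
      exact (mul_le_mul_of_nonneg_right (by linarith) (by positivity)).trans (grow s ht1))
    have h2 : (z : ℝ) ≤ (q + t - 1 : ℕ) + s := by exact_mod_cast h1
    have h3 := mul_le_mul_of_nonneg_right he2 htR.le
    linarith

end Pool.Agent.P.MP_4f3dfd_co.Ex
end

-- part Pool.Agent.P.MP_4f3dfd_co.FN6
section

set_option autoImplicit false
set_option linter.unusedSectionVars false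
set_option linter.unusedVariables false

namespace Pool.Agent.P.MP_4f3dfd_co.Ex

open Finset Real

variable {V : Type*} [DecidableEq V]

theorem fn6_pow {n s M : ℝ} (hn : 0 < n) (hM : 0 < M) (hs : s = n ^ (1 / 18 : ℝ))
    (h : 8 * log n ≤ 9 * log M) : s ^ 16 ≤ M := by
  have e : s ^ 16 = exp (8 / 9 * log n) := by
    rw [hs, ← rpow_natCast, ← rpow_mul hn.le, rpow_def_of_pos hn]
    congr 1
    push_cast
    ring
  rw [e, ← exp_log hM]
  exact exp_le_exp.2 (by linarith)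

theorem fn6_bt {a n M : ℝ} (hn : 0 < n) (hM : 0 < M) (h : M / (6 * n) ≤ a) :
    bt a ≤ 40 + 2 * log (n / M) := by
  have h1 : bt a ≤ bt (M / (6 * n)) := bt_anti (by positivity) h
  have e : (1 : ℝ) / (M / (6 * n)) = 6 * (n / M) := by field_simp
  have h2 : log (6 * (n / M)) = log 6 + log (n / M) := log_mul (by norm_num) (by positivity)
  have h3 : log (6 : ℝ) ≤ 6 - 1 := log_le_sub_one_of_pos (by norm_num)
  have h4 : bt (M / (6 * n)) = 30 + 2 * log (6 * (n / M)) := by unfold bt; rw [e]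
  linarith

/-- The range where links lose more than a constant factor. -/
theorem core_num : ∃ C : ℝ, 0 < C ∧ ∃ N : ℕ, ∀ n c d x : ℕ, N ≤ n → Par n c d x →
    100 < (n : ℝ) - x → 8 * lg n c d ≤ log (lam n c d ((n : ℝ) - x)) →
    ∀ a : ℝ, aa n c / 2 ≤ a → a ≤ 1 →
      (n : ℝ) ^ (-(1 / 6) : ℝ) ≤ a ∧ 8 * lg n c d ≤ log n ∧
      4 * ((n : ℝ) - x) ≤ min (c : ℝ) ((n : ℝ) - c) ∧
      (n ≤ 2 * c + 2 → ((n : ℝ) - x) * bt a ≤ C * log n) ∧
      (2 * c ≤ n → c * ((n : ℝ) - x) ≤ C * (n * log n * min 1 (lg n c d / bt a))) := by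
  obtain ⟨N, hN⟩ := ev_pow 18
  refine ⟨600, by norm_num, max N 20, ?_⟩
  intro n c d x hn h hw h8 a ha ha1
  obtain ⟨hl1, hl18, hs⟩ := hN n ((le_max_left _ _).trans hn)
  have hn20 : (20 : ℝ) ≤ n := by exact_mod_cast (le_max_right _ _).trans hn
  have hn0 : (0 : ℝ) < n := by linarith
  have hc2 : (2 : ℝ) ≤ c := by exact_mod_cast h.hc
  have hcn : (c : ℝ) + 2 ≤ n := by exact_mod_cast h.hcn
  have hc0 : (0 : ℝ) < c := by linarith
  have hk0 : (0 : ℝ) < (n : ℝ) - c := by linarith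
  have hx0 : (0 : ℝ) ≤ x := Nat.cast_nonneg x
  have hL := h.lg_pos
  have hwid := h.wid
  have hwid' := h.wid'
  have hLam := h.lg_add_log_Lam
  have hlam1 : 1 ≤ lam n c d ((n : ℝ) - x) := h.one_le_lam (by linarith) (by linarith)
  set w : ℝ := (n : ℝ) - x with hwdef
  set L : ℝ := lg n c d with hLdef
  set s : ℝ := (n : ℝ) ^ (1 / 18 : ℝ) with hsdef
  have hw0 : 0 < w := by linarith
  have hl2 : (1 : ℝ) / 2 ≤ log 2 := by have := log_two_gt_d9; linarith
  have hl2' : log 2 ≤ 1 := by have := log_two_lt_d9; linarith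
  have hA : log (lam n c d w) ≤ log n := by
    refine log_le_log (by linarith) ((min_le_left _ _).trans ?_)
    exact div_le_self hn0.le (by linarith)
  have hB : log (lam n c d w) ≤ log (Lam n c d) :=
    log_le_log (by linarith) (min_le_right _ _)
  have hnc : 0 < log ((n : ℝ) / c) := log_pos (by rw [lt_div_iff₀ hc0]; linarith)
  have hnc' : log ((n : ℝ) / c) = log n - log c := log_div hn0.ne' hc0.ne'
  have hlc : 8 * log n ≤ 9 * log (c : ℝ) := by
    have h1 : 9 * L ≤ L * log n / log ((n : ℝ) / c) := by linarith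
    rw [le_div_iff₀ hnc] at h1
    have h2 : L * (9 * log ((n : ℝ) / c)) ≤ L * log n := by linarith
    have h3 := le_of_mul_le_mul_left h2 hL
    linarith
  have hl0 : 0 ≤ log (((n : ℝ) - 1) / ((n : ℝ) - c)) :=
    log_nonneg (by rw [le_div_iff₀ hk0]; linarith)
  have hsum : L + log (lam n c d w) ≤ 9 / 8 * log n := by linarith
  have hnk : log ((n : ℝ) / ((n : ℝ) - c)) ≤ log 2 + log (((n : ℝ) - 1) / ((n : ℝ) - c)) := by
    rw [← log_mul (by norm_num) (div_pos (by linarith) hk0).ne']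
    refine log_le_log (div_pos hn0 hk0) ?_
    rw [← mul_div_assoc]
    exact div_le_div_of_nonneg_right (by linarith) hk0.le
  have hlk : 8 * log n ≤ 9 * log ((n : ℝ) - c) := by
    have h1 : 99 * log (((n : ℝ) - 1) / ((n : ℝ) - c)) ≤
        (w - 1) * log (((n : ℝ) - 1) / ((n : ℝ) - c)) :=
      mul_le_mul_of_nonneg_right (by linarith) hl0
    have h2 : log ((n : ℝ) / ((n : ℝ) - c)) = log n - log ((n : ℝ) - c) := log_div hn0.ne' hk0.ne'
    linarith only [hl18, h8, hwid, hl2', hA, hnk, h1, h2]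
  have hsc : s ^ 16 ≤ c := fn6_pow hn0 hc0 hsdef hlc
  have hsk : s ^ 16 ≤ (n : ℝ) - c := fn6_pow hn0 hk0 hsdef hlk
  have hsM : s ^ 16 ≤ min (c : ℝ) ((n : ℝ) - c) := le_min hsc hsk
  have hs18 : s ^ 18 = n := by
    rw [hsdef, ← rpow_natCast, ← rpow_mul hn0.le]
    norm_num
  have hs3 : (n : ℝ) ^ (-(1 / 6) : ℝ) = 1 / s ^ 3 := by
    rw [hsdef, ← rpow_natCast, ← rpow_mul hn0.le, rpow_neg hn0.le, one_div]
    norm_num
  have hsl : 18 * log n ≤ s := by
    have h1 : log n ≤ log n ^ 3 := le_self_pow₀ hl1 (by norm_num)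
    linarith only [hs, h1]
  have hs1 : 18 ≤ s := by linarith only [hl18, hsl]
  have hs0 : 0 < s := by linarith only [hl18, hsl]
  have hM0 : 0 < min (c : ℝ) ((n : ℝ) - c) := lt_min hc0 hk0
  have haM : min (c : ℝ) ((n : ℝ) - c) / (6 * n) ≤ a := by
    refine le_trans (le_of_eq ?_) ha
    unfold aa
    field_simp
    norm_num
  have ha0 : 0 < a := lt_of_lt_of_le (by positivity) haM
  have hb30 := bt_ge ha0 ha1
  have hbt := fn6_bt hn0 hM0 haM
  have hcw : c * w ≤ 4 * n * (L + log (lam n c d w)) := by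
    have h1 : (w - 1) * ((c : ℝ) - 1) ≤ (L + log (lam n c d w)) * n := by
      rw [← div_le_iff₀ hn0, mul_div_assoc]; exact hwid'
    have h2 : c * w ≤ (2 * ((c : ℝ) - 1)) * (2 * (w - 1)) :=
      mul_le_mul (by linarith only [hc2]) (by linarith only [hw]) hw0.le (by linarith only [hc2])
    linarith only [h1, h2]
  have hcw1 : c * w ≤ 9 / 2 * (n * log n) := by
    have h1 : 4 * n * (L + log (lam n c d w)) ≤ 4 * n * (9 / 8 * log n) :=
      mul_le_mul_of_nonneg_left hsum (by positivity)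
    linarith only [hcw, h1]
  refine ⟨?_, by linarith only [h8, hA], ?_, ?_, ?_⟩
  · rw [hs3]
    refine le_trans ?_ haM
    rw [div_le_div_iff₀ (by positivity) (by positivity), ← hs18]
    have h1 : 6 * s ^ 18 ≤ s * s ^ 18 := mul_le_mul_of_nonneg_right (by linarith only [hl18, hsl]) (by positivity)
    have h2 : s ^ 16 * s ^ 3 ≤ min (c : ℝ) (s ^ 18 - c) * s ^ 3 :=
      mul_le_mul_of_nonneg_right (by rw [hs18]; exact hsM) (by positivity)
    have h3 : s ^ 16 * s ^ 3 = s * s ^ 18 := by ring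
    linarith only [h1, h2]
  · refine le_trans ?_ hsM
    have h1 : s ^ 16 * w ≤ c * w := mul_le_mul_of_nonneg_right hsc hw0.le
    have h2 : n * (18 * log n) ≤ n * s := mul_le_mul_of_nonneg_left hsl hn0.le
    have h3 : s ^ 16 * (4 * w) ≤ s ^ 16 * s ^ 3 := by
      have h4 : s ^ 16 * s ^ 3 = n * s := by rw [← hs18]; ring
      linarith only [hcw1, h1, h2, h4]
    have h5 : 4 * w ≤ s ^ 3 := le_of_mul_le_mul_left h3 (by positivity)
    exact h5.trans (pow_le_pow_right₀ (by linarith only [hl18, hsl]) (by norm_num))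
  · intro h2c
    have h2c' : (n : ℝ) ≤ 2 * c + 2 := by exact_mod_cast h2c
    have hMk : ((n : ℝ) - c) / 2 ≤ min (c : ℝ) ((n : ℝ) - c) := le_min (by linarith) (by linarith)
    have h1 : log (n / min (c : ℝ) ((n : ℝ) - c)) ≤ log 2 + log ((n : ℝ) / ((n : ℝ) - c)) := by
      rw [← log_mul (by norm_num) (div_pos hn0 hk0).ne']
      refine log_le_log (div_pos hn0 hM0) ?_
      have e : 2 * ((n : ℝ) / ((n : ℝ) - c)) = n / (((n : ℝ) - c) / 2) := by field_simp
      rw [e]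
      exact div_le_div_of_nonneg_left hn0.le (by linarith only [hcn]) hMk
    have h2 : 1 / 3 ≤ log (((n : ℝ) - 1) / ((n : ℝ) - c)) := by
      have h3 := one_sub_inv_le_log_of_pos (div_pos (show (0 : ℝ) < (n : ℝ) - 1 by linarith) hk0)
      have h4 : (((n : ℝ) - 1) / ((n : ℝ) - c))⁻¹ ≤ 2 / 3 := by
        rw [inv_div, div_le_iff₀ (by linarith)]
        linarith
      linarith only [h3, h4]
    have h3 : bt a ≤ 140 * log (((n : ℝ) - 1) / ((n : ℝ) - c)) := by linarith only [hl2', hnk, hbt, h1, h2]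
    have h4 : w * bt a ≤ (2 * (w - 1)) * (140 * log (((n : ℝ) - 1) / ((n : ℝ) - c))) :=
      mul_le_mul (by linarith only [hw]) h3 (by linarith only [hb30]) (by linarith only [hw])
    linarith only [hl18, h8, hwid, hA, h4]
  · intro h2c
    have h2c' : 2 * (c : ℝ) ≤ n := by exact_mod_cast h2c
    have hMc : min (c : ℝ) ((n : ℝ) - c) = c := min_eq_left (by linarith only [h2c'])
    rw [hMc] at hbt
    have h1 : log 2 ≤ log ((n : ℝ) / c) :=
      log_le_log (by norm_num) (by rw [le_div_iff₀ hc0]; linarith only [h2c'])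
    have h2 : bt a ≤ 82 * log ((n : ℝ) / c) := by linarith only [hl2, hbt, h1]
    have hnl : 0 ≤ (n : ℝ) * log n := mul_nonneg hn0.le (by linarith only [hl18])
    rcases le_total 1 (L / bt a) with h3 | h3
    · rw [min_eq_left h3]
      linarith only [hcw1, hnl]
    · rw [min_eq_right h3]
      have h4 : L * log n / log ((n : ℝ) / c) ≤ 82 * (log n * (L / bt a)) := by
        have e : 82 * (log n * (L / bt a)) = L * log n / (bt a / 82) := by field_simp
        rw [e]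
        exact div_le_div_of_nonneg_left (mul_nonneg hL.le (by linarith only [hl18])) (by linarith only [hb30]) (by linarith only [hl2, hbt, h1])
      have h5 : 4 * n * (L + log (lam n c d w)) ≤ 4 * n * (82 * (log n * (L / bt a))) :=
        mul_le_mul_of_nonneg_left (by linarith only [hLam, hB, h4]) (by positivity)
      have h6 : 0 ≤ (n : ℝ) * log n * (L / bt a) := mul_nonneg hnl (div_nonneg hL.le (by linarith only [hb30]))
      have h7 : 4 * n * (82 * (log n * (L / bt a))) = 328 * (n * log n * (L / bt a)) := by ring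
      linarith only [hcw, h5, h6]

end Pool.Agent.P.MP_4f3dfd_co.Ex
end
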