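import Mathlib
import Pool.Agent.K.MP_4f3dfd_co.C10
import Pool.Agent.K.MP_4f3dfd_co.C1
import Pool.Agent.K.MP_4f3dfd_co.C11

-- part Pool.Agent.P.MP_4f3dfd_co.FN8
section

set_option autoImplicit false
set_option linter.unusedSectionVars false
set_option linter.unusedVariables false

namespace Pool.Agent.P.MP_4f3dfd_co.Ex

open Finset Real

variable {V : Type*} [DecidableEq V]

theorem fn8_base {n c d x : ℕ} (h : Par n c d x)
    (ht : 16 * ((n : ℝ) - x) < (x : ℝ) - c + 2) :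
    (1 : ℝ) ≤ (n : ℝ) - x ∧ c + 15 ≤ x ∧ (2 : ℝ) ≤ c ∧ (c : ℝ) + 15 ≤ x ∧
      1 ≤ lam n c d ((n : ℝ) - x + 1) := by
  have hx : (x : ℝ) + 1 ≤ n := by exact_mod_cast h.hx
  have hc : (2 : ℝ) ≤ c := by exact_mod_cast h.hc
  have h1 : (c : ℝ) + 14 < x := by linarith
  have h2 : c + 14 < x := by exact_mod_cast h1
  have h3 : c + 15 ≤ x := h2
  have h4 : (c : ℝ) + 15 ≤ x := by exact_mod_cast h3
  exact ⟨by linarith, h3, hc, h4, h.one_le_lam (by linarith) (by linarith)⟩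

theorem fn8_lognc {n c d x : ℕ} (h : Par n c d x) : 0 < log ((n : ℝ) / c) := by
  have hc : (2 : ℝ) ≤ c := by exact_mod_cast h.hc
  have hn : (c : ℝ) + 2 ≤ n := by exact_mod_cast h.hcn
  apply log_pos
  rw [lt_div_iff₀ (by linarith)]
  linarith

theorem fn8_exp {y : ℝ} (hy : log 2 ≤ y) : 20 * y * exp y * exp (-(7 * y)) ≤ 1 := by
  have h0 : 0 < log 2 := log_pos (by norm_num)
  have h1 : (32 : ℝ) ≤ exp (5 * y) := by
    have e : exp (5 * log 2) = 32 := by
      have : (5 : ℝ) * log 2 = log (2 ^ 5) := by rw [log_pow]; norm_num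
      rw [this, exp_log (by norm_num)]; norm_num
    rw [← e]; exact exp_le_exp.2 (by linarith)
  have h2 : y ≤ exp y := by have := add_one_le_exp y; linarith
  have h3 : exp (5 * y) * exp y * (exp y * exp (-(7 * y))) = 1 := by
    rw [← exp_add, ← exp_add, ← exp_add]
    have : 5 * y + y + (y + -(7 * y)) = 0 := by ring
    rw [this, exp_zero]
  have h4 : 20 * y ≤ exp (5 * y) * exp y :=
    mul_le_mul (by linarith) h2 (by linarith) (exp_pos _).le
  have h5 : 0 ≤ exp y * exp (-(7 * y)) := by positivity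
  have h6 := mul_le_mul_of_nonneg_right h4 h5
  calc 20 * y * exp y * exp (-(7 * y)) = 20 * y * (exp y * exp (-(7 * y))) := by ring
    _ ≤ 1 := by rw [← h3]; exact h6

theorem star_num {n c d x : ℕ} (h : Par n c d x) (h2 : 2 * d ≤ (n - 1).choose (c - 1))
    (ht : 16 * ((n : ℝ) - x) < (x : ℝ) - c + 2)
    (hc : n / ((n : ℝ) - x + 1) ≤ Lam n c d ∨ 2 * log (n / c) ≤ 7 * lg n c d) :
    (c : ℝ) * ((x : ℝ) - c + 2) * (x - 1 - 7 * (n - x)).choose (c - 1) ≤ d * ((n : ℝ) - x) := by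
  obtain ⟨hw, hcx, hc2, hcx', hl1⟩ := fn8_base h ht
  have hL := h.log_two_le h2
  have hlog2 : 0 < log 2 := log_pos (by norm_num)
  have hdec := h.dec (7 * (n - x))
  have hs : ((7 * (n - x) : ℕ) : ℝ) = 7 * ((n : ℝ) - x) := by
    rw [Nat.cast_mul, Nat.cast_sub h.hx.le]; norm_num
  rw [hs] at hdec
  set lp := lam n c d ((n : ℝ) - x + 1) with hlp
  set L1 := lg n c d + log lp with hL1
  have hw0 : (n : ℝ) - x ≠ 0 := by linarith
  have he : L1 * (7 * ((n : ℝ) - x)) / ((n : ℝ) - x) = 7 * L1 := by field_simp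
  rw [he] at hdec
  have hllp : 0 ≤ log lp := log_nonneg hl1
  have hL1' : log 2 ≤ L1 := by rw [hL1]; linarith
  have hd0 : (0 : ℝ) ≤ d := Nat.cast_nonneg d
  set C : ℝ := ((x - 1 - 7 * (n - x)).choose (c - 1) : ℝ) with hC
  have hC0 : 0 ≤ C := Nat.cast_nonneg _
  have hn0 : (0 : ℝ) < n := by linarith
  have ht0 : (0 : ℝ) ≤ (x : ℝ) - c + 2 := by linarith
  have htn : (x : ℝ) - c + 2 ≤ n := by linarith
  have key : (c : ℝ) * ((x : ℝ) - c + 2) * exp (-(7 * L1)) ≤ lp * ((n : ℝ) - x) := by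
    by_cases hcase : n / ((n : ℝ) - x + 1) ≤ Lam n c d
    · have e1 : lp = n / ((n : ℝ) - x + 1) := by rw [hlp]; unfold lam; exact min_eq_left hcase
      have hcw := h.cw hL
      rw [← e1, ← hL1] at hcw
      have hw1 : (0 : ℝ) < (n : ℝ) - x + 1 := by linarith
      have e2 : (n : ℝ) = lp * ((n : ℝ) - x + 1) := by rw [e1]; field_simp
      have hc10 : (c : ℝ) ≤ 10 * lp * L1 := by
        have : (c : ℝ) * ((n : ℝ) - x + 1) ≤ (10 * lp * L1) * ((n : ℝ) - x + 1) := by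
          calc (c : ℝ) * ((n : ℝ) - x + 1) ≤ 10 * n * L1 := hcw
            _ = 10 * (lp * ((n : ℝ) - x + 1)) * L1 := by rw [← e2]
            _ = _ := by ring
        exact le_of_mul_le_mul_right this hw1
      have hlpe : lp ≤ exp L1 := by
        have : exp (log lp) = lp := exp_log (by linarith)
        rw [← this]; exact exp_le_exp.2 (by rw [hL1]; linarith)
      have htw : (x : ℝ) - c + 2 ≤ exp L1 * (2 * ((n : ℝ) - x)) := by
        calc (x : ℝ) - c + 2 ≤ n := htn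
          _ = lp * ((n : ℝ) - x + 1) := e2
          _ ≤ _ := mul_le_mul hlpe (by linarith) hw1.le (exp_pos _).le
      have h3 : (c : ℝ) * ((x : ℝ) - c + 2) ≤ (10 * lp * L1) * (exp L1 * (2 * ((n : ℝ) - x))) :=
        mul_le_mul hc10 htw ht0 (by linarith)
      have h4 := fn8_exp hL1'
      have h5 : 0 ≤ lp * ((n : ℝ) - x) := mul_nonneg (by linarith) (by linarith)
      calc (c : ℝ) * ((x : ℝ) - c + 2) * exp (-(7 * L1))
          ≤ (10 * lp * L1) * (exp L1 * (2 * ((n : ℝ) - x))) * exp (-(7 * L1)) :=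
            mul_le_mul_of_nonneg_right h3 (exp_pos _).le
        _ = (20 * L1 * exp L1 * exp (-(7 * L1))) * (lp * ((n : ℝ) - x)) := by ring
        _ ≤ 1 * (lp * ((n : ℝ) - x)) := mul_le_mul_of_nonneg_right h4 h5
        _ = _ := one_mul _
    · have hc' := hc.resolve_left hcase
      have e1 : lp = Lam n c d := by
        rw [hlp]; unfold lam; exact min_eq_right (not_le.1 hcase).le
      have hp := fn8_lognc h
      have e2 : L1 = lg n c d * log n / log (n / c) := by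
        rw [hL1, e1]; exact h.lg_add_log_Lam
      have hln : 0 ≤ log (n : ℝ) := log_nonneg (by linarith)
      have h3 : 2 * log n ≤ 7 * L1 := by
        rw [e2, ← mul_div_assoc, le_div_iff₀ hp]
        have := mul_le_mul_of_nonneg_right hc' hln
        linarith
      have h4 : (n : ℝ) ^ 2 * exp (-(7 * L1)) ≤ 1 := by
        have e3 : (n : ℝ) ^ 2 = exp (2 * log n) := by
          have : (2 : ℝ) * log n = log ((n : ℝ) ^ 2) := by rw [log_pow]; norm_num
          rw [this, exp_log (by positivity)]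
        rw [e3, ← exp_add, ← exp_zero]
        exact exp_le_exp.2 (by linarith)
      have h5 : (c : ℝ) * ((x : ℝ) - c + 2) ≤ (n : ℝ) ^ 2 := by
        rw [sq]; exact mul_le_mul (by linarith) htn ht0 hn0.le
      calc (c : ℝ) * ((x : ℝ) - c + 2) * exp (-(7 * L1)) ≤ (n : ℝ) ^ 2 * exp (-(7 * L1)) :=
            mul_le_mul_of_nonneg_right h5 (exp_pos _).le
        _ ≤ 1 := h4
        _ ≤ lp * ((n : ℝ) - x) := one_le_mul_of_one_le_of_one_le hl1 hw
  have hct : (0 : ℝ) ≤ c * ((x : ℝ) - c + 2) := mul_nonneg (by linarith) ht0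
  have h7 : (c : ℝ) * ((x : ℝ) - c + 2) * C * lp ≤ d * ((n : ℝ) - x) * lp := by
    calc (c : ℝ) * ((x : ℝ) - c + 2) * C * lp = (c : ℝ) * ((x : ℝ) - c + 2) * (C * lp) := by ring
      _ ≤ (c : ℝ) * ((x : ℝ) - c + 2) * (exp (-(7 * L1)) * d) :=
          mul_le_mul_of_nonneg_left hdec hct
      _ = ((c : ℝ) * ((x : ℝ) - c + 2) * exp (-(7 * L1))) * d := by ring
      _ ≤ (lp * ((n : ℝ) - x)) * d := mul_le_mul_of_nonneg_right key hd0
      _ = _ := by ring
  exact le_of_mul_le_mul_right h7 (by linarith)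

theorem err_num {n c d x : ℕ} (h : Par n c d x) (h2 : 2 * d ≤ (n - 1).choose (c - 1))
    (ht : 16 * ((n : ℝ) - x) < (x : ℝ) - c + 2) :
    (c : ℝ) ^ 3 * ((x : ℝ) - c + 2) ≤ 128 * d ∧ (x : ℝ) - c + 2 ≤ 3 * c * ((n : ℝ) - x) := by
  obtain ⟨hw, hcx, hc2, hcx', hl1⟩ := fn8_base h ht
  have hL := h.log_two_le h2
  have hc2' := h.hc
  constructor
  · have h1 := err_base (q := c - 1) (τ := x - c) (by omega) (by omega)
    have e1 : c - 1 + (x - c) = x - 1 := by omega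
    have e2 : c - 1 + 1 = c := by omega
    rw [e1, e2] at h1
    have h3 : c ^ 3 * (x - 1) ≤ 64 * d := h1.trans (Nat.mul_le_mul_left 64 h.lo')
    have h4 : (c : ℝ) ^ 3 * ((x : ℝ) - 1) ≤ 64 * d := by
      have h5 : ((c ^ 3 * (x - 1) : ℕ) : ℝ) ≤ ((64 * d : ℕ) : ℝ) := by exact_mod_cast h3
      rw [Nat.cast_mul, Nat.cast_sub (by omega : 1 ≤ x)] at h5
      push_cast at h5
      exact h5
    have h6 : (c : ℝ) ^ 3 * ((x : ℝ) - c + 2) ≤ (c : ℝ) ^ 3 * (2 * ((x : ℝ) - 1)) :=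
      mul_le_mul_of_nonneg_left (by linarith) (by positivity)
    linarith
  · have h1 := h.tL
    have hllp := log_nonneg hl1
    have h3 : (1 : ℝ) / 2 ≤ log 2 := by have := log_two_gt_d9; linarith
    have h4 : ((x : ℝ) - c + 1) * (1 / 2) ≤
        ((x : ℝ) - c + 1) * (lg n c d + log (lam n c d ((n : ℝ) - x + 1))) :=
      mul_le_mul_of_nonneg_left (by linarith) (by linarith)
    have h5 : (1 : ℝ) ≤ c * ((n : ℝ) - x) := one_le_mul_of_one_le_of_one_le (by linarith) hw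
    nlinarith

theorem t2_width {n c d x : ℕ} (h : Par n c d x) (h2 : 2 * d ≤ (n - 1).choose (c - 1))
    (ht : 16 * ((n : ℝ) - x) < (x : ℝ) - c + 2)
    (hc : Lam n c d ≤ n / ((n : ℝ) - x + 1)) (hL : 7 * lg n c d ≤ 2 * log (n / c)) :
    n * (log n / log (n / c) * lg n c d) ≤ 2 * (c * ((n : ℝ) - x)) ∧ 8 * c ≤ n ∧
      lg n c d ≤ log n := by
  obtain ⟨hw, hcx, hc2, hcx', hl1⟩ := fn8_base h ht
  have hL2 := h.log_two_le h2
  have hlog2 : 0 < log 2 := log_pos (by norm_num)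
  have hp := fn8_lognc h
  have hn0 : (0 : ℝ) < n := by linarith
  have hc0 : (0 : ℝ) < c := by linarith
  have h8 : (8 : ℝ) * c ≤ n := by
    have e : log 8 = 3 * log 2 := by
      have : (8 : ℝ) = 2 ^ 3 := by norm_num
      rw [this, log_pow]; norm_num
    have h1 : log 8 ≤ log ((n : ℝ) / c) := by rw [e]; linarith
    have h3 := (log_le_log_iff (by norm_num) (div_pos hn0 hc0)).1 h1
    rwa [le_div_iff₀ hc0] at h3
  have e1 : lam n c d ((n : ℝ) - x + 1) = Lam n c d := by unfold lam; exact min_eq_right hc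
  have h1 := h.tL
  rw [e1, h.lg_add_log_Lam] at h1
  have hln : 0 ≤ log (n : ℝ) := log_nonneg (by linarith)
  refine ⟨?_, by exact_mod_cast h8, ?_⟩
  · have e2 : log n / log (n / c) * lg n c d = lg n c d * log n / log ((n : ℝ) / c) := by ring
    rw [e2]
    have h3 : 0 ≤ lg n c d * log n / log ((n : ℝ) / c) :=
      div_nonneg (mul_nonneg (by linarith) hln) hp.le
    have h4 : (n : ℝ) ≤ 2 * ((x : ℝ) - c + 1) := by linarith
    have h5 := mul_le_mul_of_nonneg_right h4 h3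
    nlinarith
  · have h3 : log ((n : ℝ) / c) ≤ log n :=
      log_le_log (div_pos hn0 hc0) (div_le_self hn0.le (by linarith))
    linarith

end Pool.Agent.P.MP_4f3dfd_co.Ex
end

-- part Pool.Agent.P.MP_4f3dfd_co.FN9
section

set_option autoImplicit false
set_option linter.unusedSectionVars false
set_option linter.unusedVariables false

namespace Pool.Agent.P.MP_4f3dfd_co.Ex

open Finset Real

variable {V : Type*} [DecidableEq V]

theorem fn9_exp {c K δ u : ℝ} (hc : 2 ≤ c) (hu : 1 ≤ u) (h : 2 + 4 * u ≤ δ * K) :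
    2 * c ^ 2 * exp (-(δ * (K * log c))) * u ≤ 1 := by
  have hc0 : 0 < c := by linarith
  have hl : 1 / 2 ≤ log c := by
    have h1 := log_two_gt_d9
    have h2 : log 2 ≤ log c := log_le_log (by norm_num) hc
    linarith
  have h1 : 2 * log c + 2 * u ≤ δ * (K * log c) := by
    have : (2 + 4 * u) * log c ≤ δ * K * log c := mul_le_mul_of_nonneg_right h (by linarith)
    nlinarith
  have h2 : c ^ 2 * (2 * u) ≤ exp (δ * (K * log c)) := by
    have e1 : exp (2 * log c) = c ^ 2 := by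
      rw [show (2 : ℝ) * log c = log c + log c by ring, exp_add, exp_log hc0]; ring
    have e2 : 2 * u ≤ exp (2 * u) := by
      have := add_one_le_exp (2 * u); linarith
    calc c ^ 2 * (2 * u) ≤ c ^ 2 * exp (2 * u) := by gcongr
      _ = exp (2 * log c + 2 * u) := by rw [exp_add, e1]
      _ ≤ _ := exp_le_exp.2 h1
  have h3 : exp (-(δ * (K * log c))) * exp (δ * (K * log c)) = 1 := by
    rw [← exp_add]; simp
  have h4 := exp_pos (-(δ * (K * log c)))
  calc 2 * c ^ 2 * exp (-(δ * (K * log c))) * u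
      = exp (-(δ * (K * log c))) * (c ^ 2 * (2 * u)) := by ring
    _ ≤ exp (-(δ * (K * log c))) * exp (δ * (K * log c)) := by gcongr
    _ = 1 := h3

theorem fn9_last {c S N d η u : ℝ} (hη : 0 < η) (hu : η * u = 1) (hu1 : 1 ≤ u) (hc0 : 0 ≤ c)
    (hS0 : 0 ≤ S) (hc : c ≤ N) (hS : S ≤ 2 * u * N) (hN : 4000 * u ^ 3 ≤ N)
    (hd : N ^ 5 ≤ 1000 * d) : c ^ 2 * S ^ 2 ≤ η * d := by
  have hN0 : 0 ≤ N := hc0.trans hc
  have h1 : c ^ 2 * S ^ 2 ≤ N ^ 2 * (2 * u * N) ^ 2 := by gcongr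
  have h2 : 4000 * u ^ 3 * N ^ 4 ≤ N * N ^ 4 := by gcongr
  have h3 : η * (4000 * u ^ 3 * N ^ 4) ≤ η * (1000 * d) := by
    apply mul_le_mul_of_nonneg_left _ hη.le
    calc _ ≤ N * N ^ 4 := h2
      _ = N ^ 5 := by ring
      _ ≤ _ := hd
  have h4 : η * (4000 * u ^ 3 * N ^ 4) = 1000 * (N ^ 2 * (2 * u * N) ^ 2) := by
    have : η * (4000 * u ^ 3 * N ^ 4) = (η * u) * (4000 * u ^ 2 * N ^ 4) := by ring
    rw [this, hu]; ring
  linarith

theorem fn9_core (η u : ℝ) (hη : 0 < η) (hu : η * u = 1) (hu1 : 1 ≤ u) (n c d x : ℕ)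
    (h : Par n c d x) (hK : 4000 * u ^ 4 * log c ≤ lg n c d)
    (hT : η * ((n : ℝ) - x) ≤ (x : ℝ) - c + 2) :
    ∃ y : ℕ, c ≤ y ∧ y ≤ x ∧ (n : ℝ) - y ≤ (1 + η) * ((n : ℝ) - x) ∧
      (1 - η) * ((x : ℝ) - c + 2) ≤ (y : ℝ) - c + 1 ∧
      (c : ℝ) * ((n : ℝ) - c + 2) * (y - 1).choose (c - 1) ≤ η * (d * ((n : ℝ) - x)) ∧
      (c : ℝ) ^ 2 * ((n : ℝ) - c + 2) ^ 2 ≤ η * d := by
  have hc2 : (2 : ℝ) ≤ c := by exact_mod_cast h.hc
  have hη1 : η ≤ 1 := by nlinarith
  have hl : 1 / 2 ≤ log (c : ℝ) := by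
    have h1 := log_two_gt_d9
    have h2 : log 2 ≤ log (c : ℝ) := log_le_log (by norm_num) hc2
    linarith
  have hcx := h.c_le
  have hcN := h.hc
  have hxn := h.hx
  have hx1 : (1 : ℝ) ≤ x := by exact_mod_cast (by omega : 1 ≤ x)
  have hW1 : (1 : ℝ) ≤ (n : ℝ) - x := by
    have : (x : ℝ) + 1 ≤ n := by exact_mod_cast hxn
    linarith
  have hlam := h.one_le_lam (w := (n : ℝ) - x + 1) (by linarith) (by linarith)
  have hll : 0 ≤ log (lam n c d ((n : ℝ) - x + 1)) := log_nonneg hlam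
  have hwL := h.wL
  have htL := h.tL
  have hlo : ((x - 1).choose (c - 1) : ℝ) ≤ d := by exact_mod_cast h.lo'
  have hd0 : (0 : ℝ) ≤ d := Nat.cast_nonneg d
  have hdec := h.dec
  have hnc : (n : ℝ) - c + 2 = ((n : ℝ) - x) + ((x : ℝ) - c + 2) := by ring
  have hxc : (x : ℝ) - c + 1 = ((x : ℝ) - c + 2) - 1 := by ring
  rw [hxc] at htL
  rw [hnc]
  generalize lam n c d ((n : ℝ) - x + 1) = lm at hlam hll htL hdec
  generalize lg n c d = L at hK hwL htL hdec
  obtain ⟨W, hW⟩ : ∃ W : ℝ, W = (n : ℝ) - x := ⟨_, rfl⟩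
  obtain ⟨T, hTd⟩ : ∃ T : ℝ, T = (x : ℝ) - c + 2 := ⟨_, rfl⟩
  rw [← hW] at hT hW1 hwL htL hdec ⊢
  rw [← hTd] at hT htL ⊢
  have hu2 : u ≤ u ^ 2 := by nlinarith only [hu, hu1, hη1]
  have hu3 : u ^ 2 ≤ u ^ 3 := by nlinarith only [hu1]
  have hu4 : u ^ 3 ≤ u ^ 4 := by nlinarith only [hu2]
  have hKW : 4000 * u ^ 4 ≤ W := le_of_mul_le_mul_right (hK.trans hwL) (by linarith)
  have hηW : 4000 * u ^ 3 ≤ η * W := by
    have h1 : η * (4000 * u ^ 4) ≤ η * W := mul_le_mul_of_nonneg_left hKW hη.le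
    have h2 : η * (4000 * u ^ 4) = (η * u) * (4000 * u ^ 3) := by ring
    rw [h2, hu] at h1; linarith
  have hT3 : 4000 * u ^ 3 ≤ T := hηW.trans hT
  have hηT : 4000 * u ^ 2 ≤ η * T := by
    have h1 : η * (4000 * u ^ 3) ≤ η * T := mul_le_mul_of_nonneg_left hT3 hη.le
    have h2 : η * (4000 * u ^ 3) = (η * u) * (4000 * u ^ 2) := by ring
    rw [h2, hu] at h1; linarith
  have hL : 2000 * u ^ 4 ≤ L := by
    have : 4000 * u ^ 4 * (1 / 2) ≤ 4000 * u ^ 4 * log (c : ℝ) := by gcongr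
    linarith
  have hL1 : 1 ≤ L := by linarith
  have htL' : (T - 1) * L ≤ W * ((c : ℝ) - 1) := by
    have : (T - 1) * L ≤ (T - 1) * (L + log lm) :=
      mul_le_mul_of_nonneg_left (by linarith) (by linarith)
    linarith
  have hq : η * L ≤ 2 * ((c : ℝ) - 1) := by
    have h1 : η * W * L ≤ 2 * (T - 1) * L :=
      mul_le_mul_of_nonneg_right (by linarith) (by linarith)
    have h2 : W * (η * L) ≤ W * (2 * ((c : ℝ) - 1)) := by linarith
    exact le_of_mul_le_mul_left h2 (by linarith)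
  have hq5 : (6 : ℝ) ≤ c := by
    have h1 : η * (2000 * u ^ 4) ≤ η * L := mul_le_mul_of_nonneg_left hL hη.le
    have h2 : η * (2000 * u ^ 4) = (η * u) * (2000 * u ^ 3) := by ring
    rw [h2, hu] at h1; linarith
  have hS : W + T ≤ 2 * c * W := by
    have h1 : (T - 1) * 1 ≤ (T - 1) * L := mul_le_mul_of_nonneg_left hL1 (by linarith)
    have h2 : 1 * 1 ≤ (c : ℝ) * W := mul_le_mul (by linarith) hW1 (by norm_num) (by linarith)
    linarith
  obtain ⟨s, hs1, hs2⟩ : ∃ s : ℕ, η ^ 2 / 4 * W ≤ s ∧ (s : ℝ) ≤ η ^ 2 / 4 * W + 1 :=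
    ⟨⌈η ^ 2 / 4 * W⌉₊, Nat.le_ceil _, (Nat.ceil_lt_add_one (by positivity)).le⟩
  have hsW : (s : ℝ) ≤ η * W / 4 + 1 := by
    have : η * (η * W) ≤ 1 * (η * W) := mul_le_mul_of_nonneg_right hη1 (by linarith)
    linarith
  have hsT : (s : ℝ) ≤ η * T / 4 + 1 := by
    have : η * (η * W) ≤ η * T := mul_le_mul_of_nonneg_left hT hη.le
    linarith
  have hηT1 : η * T ≤ T := by
    have : η * T ≤ 1 * T := mul_le_mul_of_nonneg_right hη1 (by linarith)
    linarith
  have hcs : c + s ≤ x := by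
    have : (c : ℝ) + s ≤ x := by linarith
    exact_mod_cast this
  have hy : ((x - s : ℕ) : ℝ) = x - s := by rw [Nat.cast_sub (by omega)]
  refine ⟨x - s, by omega, by omega, ?_, ?_, ?_, ?_⟩
  · rw [hy]; linarith
  · rw [hy]; linarith
  · have e1 : x - s - 1 = x - 1 - s := by omega
    rw [e1]
    have h1 := hdec s
    have hC0 : (0 : ℝ) ≤ (x - 1 - s).choose (c - 1) := Nat.cast_nonneg _
    generalize ((x - 1 - s).choose (c - 1) : ℝ) = C at h1 hC0 ⊢
    have h2 : η ^ 2 / 4 * (4000 * u ^ 4 * log (c : ℝ)) ≤ (L + log lm) * s / W := by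
      rw [le_div_iff₀ (by linarith only [hu1, hu2, hu3, hu4, hKW])]
      calc η ^ 2 / 4 * (4000 * u ^ 4 * log (c : ℝ)) * W
          = (4000 * u ^ 4 * log (c : ℝ)) * (η ^ 2 / 4 * W) := by ring
        _ ≤ (L + log lm) * s :=
          mul_le_mul (by linarith only [hll, hK]) hs1 (by positivity) (by linarith only [hu1, hll, hu2, hu3, hu4, hL])
    have h3 : C ≤ exp (-(η ^ 2 / 4 * (4000 * u ^ 4 * log (c : ℝ)))) * d := by
      calc C = C * 1 := by ring
        _ ≤ C * lm := mul_le_mul_of_nonneg_left hlam hC0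
        _ ≤ _ := h1
        _ ≤ _ := mul_le_mul_of_nonneg_right (exp_le_exp.2 (by linarith only [h2])) hd0
    have h4 : 2 + 4 * u ≤ η ^ 2 / 4 * (4000 * u ^ 4) := by
      have : η ^ 2 / 4 * (4000 * u ^ 4) = (η * u) ^ 2 * (1000 * u ^ 2) := by ring
      rw [this, hu]; linarith only [hu1, hu2]
    have h5 := fn9_exp hc2 hu1 h4
    have hE := exp_pos (-(η ^ 2 / 4 * (4000 * u ^ 4 * log (c : ℝ))))
    generalize exp (-(η ^ 2 / 4 * (4000 * u ^ 4 * log (c : ℝ)))) = E at h3 h5 hE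
    have h6 : 2 * (c : ℝ) ^ 2 * E ≤ η := by
      have h7 : η * (2 * (c : ℝ) ^ 2 * E * u) ≤ η * 1 := mul_le_mul_of_nonneg_left h5 hη.le
      have h8 : η * (2 * (c : ℝ) ^ 2 * E * u) = (η * u) * (2 * (c : ℝ) ^ 2 * E) := by ring
      rw [h8, hu] at h7; linarith only [h7]
    have hW0 : 0 ≤ W := by linarith only [hu1, hu2, hu3, hu4, hKW]
    calc (c : ℝ) * (W + T) * C ≤ c * (2 * c * W) * (E * d) := by gcongr
      _ = (2 * (c : ℝ) ^ 2 * E) * (d * W) := by ring
      _ ≤ η * (d * W) := by gcongr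
  · have hc6 : 6 ≤ c := by exact_mod_cast hq5
    have hx5 : c + 5 ≤ x := by
      have : (c : ℝ) + 5 ≤ x := by linarith
      exact_mod_cast this
    have h1 := err_five (q := c - 1) (τ := x - c) (by omega) (by omega)
    have e1 : c - 1 + (x - c) = x - 1 := by omega
    rw [e1] at h1
    have h2 : (((x - 1 : ℕ) : ℝ)) ^ 5 ≤ 1000 * ((x - 1).choose (c - 1) : ℝ) := by exact_mod_cast h1
    have e2 : ((x - 1 : ℕ) : ℝ) = x - 1 := by rw [Nat.cast_sub (by omega)]; simp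
    rw [e2] at h2
    have hx5' : (c : ℝ) + 5 ≤ x := by exact_mod_cast hx5
    have hTN : T ≤ (x : ℝ) - 1 := by linarith only [hTd, hq5]
    have hWu : W ≤ u * T := by
      have h3 : u * (η * W) ≤ u * T := mul_le_mul_of_nonneg_left hT (by linarith only [hu1])
      have h4 : u * (η * W) = (η * u) * W := by ring
      rw [h4, hu] at h3; linarith only [h3]
    have h5 : 1 * T ≤ u * T := mul_le_mul_of_nonneg_right hu1 (by linarith only [hu1, hT, hu2, hu3, hηW])
    have h6 : u * T ≤ u * ((x : ℝ) - 1) := mul_le_mul_of_nonneg_left hTN (by linarith only [hu1])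
    exact fn9_last (N := (x : ℝ) - 1) hη hu hu1 (by linarith only [hq5]) (by linarith only [hu1, hT, hu2, hu3, hu4, hKW, hηW]) (by linarith only [hu1, hT, hTd, hu2, hu3, hηW]) (by linarith only [hWu, h5, h6])
      (by linarith only [hT, hTd, hηW, hq5]) (by linarith only [hlo, h2])

/-- Choice of the clique size for the one-scale construction. -/
theorem one_scale (ε : ℝ) (hε : 0 < ε) : ∃ K1 : ℝ, 0 < K1 ∧ ∀ n c d x : ℕ, Par n c d x →
    K1 * log c ≤ lg n c d → ε * ((n : ℝ) - x) ≤ (x : ℝ) - c + 2 →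
    ∃ y : ℕ, c ≤ y ∧ y ≤ x ∧ (n : ℝ) - y ≤ (1 + ε) * ((n : ℝ) - x) ∧
      (1 - ε) * ((x : ℝ) - c + 2) ≤ (y : ℝ) - c + 1 ∧
      (c : ℝ) * ((n : ℝ) - c + 2) * (y - 1).choose (c - 1) ≤ ε * (d * ((n : ℝ) - x)) ∧
      (c : ℝ) ^ 2 * ((n : ℝ) - c + 2) ^ 2 ≤ ε * d := by
  have hη : 0 < min ε 1 := lt_min hε one_pos
  have hηε : min ε 1 ≤ ε := min_le_left _ _
  have hη1 : min ε 1 ≤ 1 := min_le_right _ _
  generalize min ε 1 = η at hη hηε hη1
  have hu1 : 1 ≤ 1 / η := by rw [le_div_iff₀ hη]; linarith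
  refine ⟨4000 * (1 / η) ^ 4, by positivity, fun n c d x h hK hT => ?_⟩
  have hW : (0 : ℝ) ≤ (n : ℝ) - x := by
    have : (x : ℝ) ≤ n := by exact_mod_cast h.hx.le
    linarith
  have hT0 : (0 : ℝ) ≤ (x : ℝ) - c + 2 := le_trans (by positivity) hT
  have hd0 : (0 : ℝ) ≤ d := Nat.cast_nonneg d
  obtain ⟨y, h1, h2, h3, h4, h5, h6⟩ := fn9_core η (1 / η) hη (by field_simp) hu1 n c d x h hK
    (le_trans (mul_le_mul_of_nonneg_right hηε hW) hT)
  refine ⟨y, h1, h2, h3.trans ?_, le_trans ?_ h4, h5.trans ?_, h6.trans ?_⟩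
  · exact mul_le_mul_of_nonneg_right (by linarith) hW
  · exact mul_le_mul_of_nonneg_right (by linarith) hT0
  · exact mul_le_mul_of_nonneg_right hηε (mul_nonneg hd0 hW)
  · exact mul_le_mul_of_nonneg_right hηε hd0

end Pool.Agent.P.MP_4f3dfd_co.Ex
end

-- part Pool.Agent.P.MP_4f3dfd_co.FT6
section

set_option autoImplicit false
set_option linter.unusedSectionVars false
set_option linter.unusedVariables false

namespace Pool.Agent.P.MP_4f3dfd_co.Ex

open Finset Real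
open scoped Pointwise

variable {n : ℕ} [NeZero n]

theorem ft6_max {l r k t : ℕ} (hl : 1 ≤ l) (ht : t ≤ n.choose k) :
    ∃ Q : Finset (Finset (Fin n)), Good l r Q ∧ t ≤ #(nc k Q) ∧
      ∀ P ∉ Q, Good l r (insert P Q) → #(nc k (insert P Q)) < t := by
  classical
  have h0 : Good l r (∅ : Finset (Finset (Fin n))) := by
    refine ⟨fun P hP => absurd hP (notMem_empty P), ?_⟩
    have e : exc univ (nc l (∅ : Finset (Finset (Fin n)))) (nc (l - 1) ∅) = 0 := by
      refine sum_eq_zero fun i _ => card_eq_zero.2 (filter_eq_empty_iff.2 fun Y hY h => h.2 ?_)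
      rw [nc_empty, mem_powersetCard] at hY ⊢
      refine ⟨subset_univ _, ?_⟩
      rw [card_insert_of_notMem h.1, hY.2]
      omega
    rw [e, nc_empty, card_powersetCard, card_univ, Fintype.card_fin, Nat.cast_zero]
    have : 0 ≤ log ((n.choose l : ℝ) / n.choose l) := by
      rcases eq_or_ne (n.choose l : ℝ) 0 with h | h
      · simp [h]
      · simp [div_self h]
    positivity
  obtain ⟨Q, hQ, hmax⟩ := exists_max_image
    (univ.filter fun Q : Finset (Finset (Fin n)) => Good l r Q ∧ t ≤ #(nc k Q)) card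
    ⟨∅, mem_filter.2 ⟨mem_univ _, h0, by
      rwa [nc_empty, card_powersetCard, card_univ, Fintype.card_fin]⟩⟩
  refine ⟨Q, (mem_filter.1 hQ).2.1, (mem_filter.1 hQ).2.2, fun P hP hg => ?_⟩
  by_contra hc
  have := hmax _ (mem_filter.2 ⟨mem_univ _, hg, not_lt.1 hc⟩)
  rw [card_insert_of_notMem hP] at this
  omega

theorem ft6_drop {l k ρ : ℕ} {μ : ℝ} (hk : k ≤ l) (hl : l ≤ n) (hε : 2 * l * n * eps n l ρ ≤ μ)
    (Q : Finset (Finset (Fin n))) {P : Finset (Fin n)} (hP : #P = 6 * ρ) :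
    (#(nc k (insert P Q)) : ℝ) ≤ #(nc k Q) ∧
      2 * (l * ((#(nc k Q) : ℝ) - #(nc k (insert P Q)))) ≤ μ * n.choose k := by
  have h1 : (#(nc k (insert P Q)) : ℝ) + #{X ∈ nc k Q | ∃ s : Fin n, s +ᵥ P ⊆ X} = #(nc k Q) := by
    exact_mod_cast card_nc_insert k Q P
  have h2 := nc_step (hk.trans hl) Q P
  rw [hP] at h2
  have h3 := (pow_le_eps (hk.trans hl) ρ).trans (eps_mono hk ρ)
  have h4 : (n : ℝ) * (n.choose k * ((k : ℝ) / n) ^ (6 * ρ)) ≤ n * (n.choose k * eps n l ρ) := by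
    gcongr
  have h5 := mul_le_mul_of_nonneg_left (h2.trans h4) (Nat.cast_nonneg (α := ℝ) l)
  have h6 := mul_le_mul_of_nonneg_right hε (Nat.cast_nonneg (α := ℝ) (n.choose k))
  have h7 : (0 : ℝ) ≤ #{X ∈ nc k Q | ∃ s : Fin n, s +ᵥ P ⊆ X} := Nat.cast_nonneg _
  refine ⟨by linarith, ?_⟩
  rw [← h1, add_sub_cancel_left]
  linarith

theorem ft6_log {C z μ : ℝ} (hC : 0 < C) (hμ : 0 < μ) (hz : μ * C ≤ z) :
    z * (1 + log (C / z)) ≤ (1 + log (1 / μ)) * z := by
  have h0 : 0 < z := (mul_pos hμ hC).trans_le hz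
  have h1 : log (C / z) ≤ log (1 / μ) :=
    log_le_log (div_pos hC h0) (by rw [div_le_div_iff₀ h0 hμ]; linarith)
  nlinarith

theorem ft6_one {l ρ : ℕ} {μ : ℝ} (hρ : 1 ≤ ρ) (hμ0 : 0 < μ) (hμ1 : μ ≤ 1)
    (hA : 8 * ((6 * ρ : ℕ) : ℝ) * (1 + log (1 / μ)) ≤ l) : 1 ≤ l ∧ 0 ≤ log (1 / μ) := by
  have h0 : 0 ≤ log (1 / μ) := log_nonneg (by rw [le_div_iff₀ hμ0]; linarith)
  have h1 : (0 : ℝ) < ((6 * ρ : ℕ) : ℝ) := by exact_mod_cast (by omega : 0 < 6 * ρ)
  have h2 : (0 : ℝ) < l := lt_of_lt_of_le (by positivity) hA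
  exact ⟨by exact_mod_cast h2, h0⟩

theorem t2_up {l ρ : ℕ} {μ : ℝ} (hρ : 1 ≤ ρ) (h12 : 12 * ρ ≤ n) (hl : l ≤ n) (hμ0 : 0 < μ)
    (hμ1 : μ ≤ 1) (hA : 8 * ((6 * ρ : ℕ) : ℝ) * (1 + log (1 / μ)) ≤ l)
    (hε : 2 * l * n * eps n l ρ ≤ μ)
    {t : ℕ} (ht : μ * n.choose l ≤ t) (ht' : t ≤ n.choose l) :
    ∃ J D : Finset (Finset (Fin n)), Pair univ l J D ∧ (∃ d : ℕ, ∀ i, deg J i = d) ∧ t ≤ #J ∧
      l * ((#J : ℝ) - t) ≤ μ * n.choose l ∧
      (exc univ J D : ℝ) ≤ 8 * ((6 * ρ : ℕ) : ℝ) * (1 + log (1 / μ)) * #J := by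
  obtain ⟨l1, L0⟩ := ft6_one hρ hμ0 hμ1 hA
  obtain ⟨Q, hQ, h1, h2⟩ := ft6_max (r := 6 * ρ) l1 ht'
  have h1' : (t : ℝ) ≤ #(nc l Q) := by exact_mod_cast h1
  have hC : (0 : ℝ) < n.choose l := by exact_mod_cast Nat.choose_pos hl
  obtain ⟨P, hP, hg⟩ := t2_step hρ h12 hl hμ0 hμ1 hA hε hQ (ht.trans h1')
  have h3 : (#(nc l (insert P Q)) : ℝ) ≤ t := by exact_mod_cast (h2 P hP hg).le
  have h4 := (ft6_drop le_rfl hl hε Q (hg.1 P (mem_insert_self _ _))).2
  refine ⟨nc l Q, nc (l - 1) Q, pair_nc l1 Q, reg_nc l Q, h1, ?_, hQ.2.trans ?_⟩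
  · have h5 := mul_le_mul_of_nonneg_left (sub_le_sub_left h3 (#(nc l Q) : ℝ))
      (Nat.cast_nonneg (α := ℝ) l)
    have h6 := mul_pos hμ0 hC
    linarith
  · rw [mul_assoc (8 * ((6 * ρ : ℕ) : ℝ))]
    exact mul_le_mul_of_nonneg_left (ft6_log hC hμ0 (ht.trans h1')) (by positivity)

theorem t2_down {l ρ : ℕ} {μ : ℝ} (hρ : 1 ≤ ρ) (h12 : 12 * ρ ≤ n) (hl : l ≤ n) (hμ0 : 0 < μ)
    (hμ1 : μ ≤ 1) (hA : 8 * ((6 * ρ : ℕ) : ℝ) * (1 + log (1 / μ)) ≤ l)
    (hε : 2 * l * n * eps n l ρ ≤ μ)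
    {t : ℕ} (ht : 2 * μ * n.choose (l - 1) ≤ t) (ht' : t ≤ n.choose (l - 1)) :
    ∃ J D : Finset (Finset (Fin n)), Pair univ l J D ∧ (∃ d : ℕ, ∀ i, deg D i = d) ∧ #D ≤ t ∧
      l * ((t : ℝ) - #D) ≤ μ * n.choose (l - 1) ∧
      (l : ℝ) * exc univ J D ≤
        16 * ((6 * ρ : ℕ) : ℝ) * (1 + log (1 / μ)) * (((n : ℝ) - l + 1) * t) := by
  obtain ⟨l1, L0⟩ := ft6_one hρ hμ0 hμ1 hA
  obtain ⟨Q, hQ, h1, h2⟩ := ft6_max (r := 6 * ρ) l1 ht'
  have h1' : (t : ℝ) ≤ #(nc (l - 1) Q) := by exact_mod_cast h1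
  have hC : (0 : ℝ) < n.choose l := by exact_mod_cast Nat.choose_pos hl
  have hC' : (0 : ℝ) < n.choose (l - 1) := by exact_mod_cast Nat.choose_pos (by omega)
  have l1' : (1 : ℝ) ≤ l := by exact_mod_cast l1
  have hw : (0 : ℝ) ≤ (n : ℝ) - l + 1 := by
    have : (l : ℝ) ≤ n := by exact_mod_cast hl
    linarith
  have hp := pair_card (pair_nc l1 Q)
  rw [card_univ, Fintype.card_fin] at hp
  have hcp := choose_pred (z := n) l1
  have hA0 : (0 : ℝ) ≤ 8 * ((6 * ρ : ℕ) : ℝ) := by positivity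
  have hz : μ * n.choose l ≤ #(nc l Q) := by
    by_contra hc
    have a0 := not_le.1 hc
    have a1 := (ent_mono (Nat.cast_nonneg _) a0.le (mul_le_of_le_one_left hC.le hμ1)).trans
      (ft6_log hC hμ0 le_rfl)
    have a2 := hQ.2.trans (mul_le_mul_of_nonneg_left a1 hA0)
    have a3 := mul_le_mul_of_nonneg_right hA (mul_pos hμ0 hC).le
    have a4 := mul_le_mul_of_nonneg_left (ht.trans h1') hw
    have a5 := mul_lt_mul_of_pos_left a0 (lt_of_lt_of_le one_pos l1')
    have a6 : ((n : ℝ) - l + 1) * (2 * μ * n.choose (l - 1)) = 2 * (l * (μ * n.choose l)) := by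
      linear_combination (-2 * μ) * hcp
    linarith
  have hzC : (#(nc l Q) : ℝ) ≤ n.choose l := by
    have := card_le_card (pair_nc l1 Q).hJ
    rw [card_powersetCard, card_univ, Fintype.card_fin] at this
    exact_mod_cast this
  obtain ⟨P, hP, hg⟩ := t2_step hρ h12 hl hμ0 hμ1 hA hε hQ hz
  have h3 : (#(nc (l - 1) (insert P Q)) : ℝ) ≤ t := by exact_mod_cast (h2 P hP hg).le
  have hP6 := hg.1 P (mem_insert_self _ _)
  obtain ⟨h4, h5⟩ := ft6_drop (Nat.sub_le l 1) hl hε Q hP6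
  have h6 := mul_pos hμ0 hC'
  refine ⟨nc l (insert P Q), nc (l - 1) (insert P Q), pair_nc l1 _, reg_nc _ _, (h2 P hP hg).le,
    ?_, ?_⟩
  · have a1 := mul_le_mul_of_nonneg_left
      (sub_le_sub_right h1' (#(nc (l - 1) (insert P Q)) : ℝ)) (Nat.cast_nonneg (α := ℝ) l)
    linarith
  · have a1 := (ent_mono (Nat.cast_nonneg _) (ft6_drop le_rfl hl hε Q hP6).1 hzC).trans
      (ft6_log hC hμ0 hz)
    have a2 := mul_le_mul_of_nonneg_left (hg.2.trans (mul_le_mul_of_nonneg_left a1 hA0))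
      (Nat.cast_nonneg (α := ℝ) l)
    have a3 := le_mul_of_one_le_left (sub_nonneg.2 h4) l1'
    have a4 : (#(nc (l - 1) Q) : ℝ) ≤ 2 * t := by linarith
    have a5 := mul_le_mul_of_nonneg_left a4 hw
    have a6 : (0 : ℝ) ≤ exc univ (nc l Q) (nc (l - 1) Q) := Nat.cast_nonneg _
    have a7 : (l : ℝ) * #(nc l Q) ≤ ((n : ℝ) - l + 1) * (2 * t) := by linarith
    have a8 := mul_le_mul_of_nonneg_left a7
      (mul_nonneg hA0 (show 0 ≤ 1 + log (1 / μ) by linarith))
    linarith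

end Pool.Agent.P.MP_4f3dfd_co.Ex
end

-- part Pool.Agent.P.MP_4f3dfd_co.FC4
section

set_option autoImplicit false
set_option linter.unusedSectionVars false
set_option linter.unusedVariables false

namespace Pool.Agent.P.MP_4f3dfd_co.Ex

open Finset Real

variable {V : Type*} [DecidableEq V]

theorem fc4_wp {T b : ℕ} {W e e' : ℝ} (hW : 0 ≤ W) (he' : 0 ≤ e') (he : e' ≤ e)
    (hb : (b : ℝ) ≤ exp (-W) * T) : wp T b (1 + e) ≤ b * exp (-(W * e')) := by
  unfold wp
  rcases Nat.eq_zero_or_pos b with rfl | hb0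
  · rw [Nat.cast_zero, zero_div, zero_rpow (by linarith), mul_zero, zero_mul]
  have hb1 : (0 : ℝ) < b := by exact_mod_cast hb0
  have hT : (0 : ℝ) < T := pos_of_mul_pos_right (hb1.trans_le hb) (exp_pos _).le
  have h1 : (b : ℝ) / T ≤ exp (-W) := (div_le_iff₀ hT).2 hb
  have h2 : ((b : ℝ) / T) ^ e ≤ exp (-(W * e')) := by
    refine (rpow_le_rpow (by positivity) h1 (by linarith)).trans ?_
    rw [← exp_mul]
    exact exp_le_exp.2 (by nlinarith only [hW, he])
  rw [rpow_add (by positivity), rpow_one, ← mul_assoc, mul_div_cancel₀ _ hT.ne']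
  exact mul_le_mul_of_nonneg_left h2 hb1.le

theorem fc4_exp {l : ℝ} (h0 : 0 < l) (h1 : l ≤ 1) (x : ℝ) :
    2 / l * exp (-(l * (x + 1))) + exp (-(l * x)) ≤ 2 / l * exp (-(l * x)) := by
  have h2 : exp (-l) ≤ 1 - l / 2 := by
    rw [exp_neg, inv_le_comm₀ (exp_pos _) (by linarith)]
    refine le_trans ?_ (add_one_le_exp l)
    rw [inv_le_iff_one_le_mul₀ (by linarith)]
    nlinarith
  have h3 : exp (-(l * (x + 1))) = exp (-l) * exp (-(l * x)) := by
    rw [← exp_add]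
    exact congrArg exp (by ring)
  have h4 : 2 / l * exp (-l) + 1 ≤ 2 / l := by
    have h5 : 2 / l * exp (-l) ≤ 2 / l * (1 - l / 2) :=
      mul_le_mul_of_nonneg_left h2 (by positivity)
    have h6 : 2 / l * (1 - l / 2) = 2 / l - 1 := by field_simp
    linarith
  rw [h3]
  nlinarith [exp_pos (-(l * x))]

theorem fc4_block {G : Finset V} {c : ℕ} {J D : Finset (Finset V)} (h : Pair G c J D) {N1 : ℕ}
    {a θ W : ℝ} (ha : 0 < a) (h1 : 3 * a * #G ≤ c) (h2 : (c : ℝ) ≤ (1 - 3 * a) * #G)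
    (han : 1 ≤ a * #G) (hθ0 : 0 < θ) (hθ : θ * bt a ≤ 1) (h19 : 7 ≤ N1)
    (hN : 336 * log (2 * √(#G)) ≤ θ * a * N1) (hW0 : 0 < W)
    {r : ℕ} (hr : r + 1 + N1 ≤ #G) {k : V} (hk : k ∈ G)
    (hb : (#(blk J D k) : ℝ) ≤ exp (-W) * (#G - 1).choose (c - 1)) :
    Av (G.erase k) r (pw (blk J D k) (G.erase k) (c - 1) (1 + θ)) ≤
      2 *
        (#(blk J D k) * exp (-(tt a θ * W / #G * ((#G : ℝ) - (r + 1)))) +
          #G * (zeta #G 1 (a * N1 / 6) * (#G).choose c)) := by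
  obtain ⟨N', hN'⟩ : ∃ N', #G = r + 1 + N' := ⟨#G - (r + 1), by omega⟩
  have hc1 := h.pos
  have hcard : #(G.erase k) = #G - 1 := card_erase_of_mem hk
  have hn : (#G : ℝ) = r + 1 + N' := by exact_mod_cast hN'
  have hn1 : ((#G - 1 : ℕ) : ℝ) = #G - 1 := by
    rw [Nat.cast_sub (by omega), Nat.cast_one]
  have hc2 : ((c - 1 : ℕ) : ℝ) = c - 1 := by rw [Nat.cast_sub hc1, Nat.cast_one]
  have hNN : (N1 : ℝ) ≤ N' := by exact_mod_cast (by omega : N1 ≤ N')
  have h19' : (7 : ℝ) ≤ N1 := by exact_mod_cast h19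
  have hr0 : (0 : ℝ) ≤ r := Nat.cast_nonneg r
  have hlog : log (2 * √((#G : ℝ) - 1)) ≤ log (2 * √(#G)) :=
    log_le_log (mul_pos two_pos (sqrt_pos.2 (by linarith)))
      (mul_le_mul_of_nonneg_left (sqrt_le_sqrt (by linarith)) two_pos.le)
  have key := hcU (G.erase k) (c - 1) N' (blk J D k) (blk_subset h k) ha
    (by rw [hcard, hn1, hc2]; nlinarith only [ha, h1, han]) (by rw [hcard, hn1, hc2]; nlinarith only [ha, h2, han]) hθ0 hθ (by omega)
    (by omega) (by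
      rw [hcard, hn1]
      have : θ * a * N1 ≤ θ * a * N' := mul_le_mul_of_nonneg_left hNN (by positivity)
      linarith)
  rw [hcard, show #G - 1 - N' = r by omega] at key
  refine key.trans (mul_le_mul_of_nonneg_left (add_le_add ?_ ?_) two_pos.le)
  · have ht : 0 < tt a θ := (tt_bounds ha (by nlinarith only [h2, hn, hNN, h19']) hθ0 hθ).2.2.1
    have h3 := fc4_wp (e := tt a θ * (N' / ((#G - 1 : ℕ) : ℝ)))
      (e' := tt a θ * (N' / #G)) hW0.le (by positivity)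
      (mul_le_mul_of_nonneg_left (div_le_div_of_nonneg_left (by positivity)
        (by rw [hn1]; linarith) (by rw [hn1]; linarith)) ht.le) hb
    refine h3.trans_eq ?_
    have h4 : (#G : ℝ) - (r + 1) = N' := by linarith only [hn]
    rw [h4]
    exact congrArg (fun y => (#(blk J D k) : ℝ) * exp y) (by ring)
  · have h3 : (#G - 1).choose (c - 1) ≤ (#G).choose c := by
      obtain ⟨m, hm⟩ : ∃ m, #G = m + 1 := ⟨#G - 1, by omega⟩
      obtain ⟨d, rfl⟩ : ∃ d, c = d + 1 := ⟨c - 1, by omega⟩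
      rw [hm, Nat.choose_succ_succ]
      simp
    have h4 : (((#G - 1).choose (c - 1) : ℕ) : ℝ) ≤ (#G).choose c := by exact_mod_cast h3
    refine mul_le_mul (by rw [hn1]; linarith)
      (mul_le_mul (zeta_mono (Nat.sub_le _ _) 1 (by nlinarith only [ha, hNN])) h4 (by positivity) (zeta_nonneg _ _ _))
      (mul_nonneg (zeta_nonneg _ _ _) (by positivity)) (by positivity)

theorem teleU {G : Finset V} {c : ℕ} {J D : Finset (Finset V)} (h : Pair G c J D) {N1 : ℕ}
    {a θ θ' Γ W : ℝ} (ha : 0 < a) (h1 : 3 * a * #G ≤ c) (h2 : (c : ℝ) ≤ (1 - 3 * a) * #G)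
    (han : 1 ≤ a * #G) (hθ0 : 0 < θ) (hθ : θ * bt a ≤ 1) (hΓ : 0 ≤ Γ)
    (hs : Step G c J D a θ θ' Γ) (h7 : 7 ≤ N1) (hN1 : N1 ≤ #G)
    (hN : 336 * log (2 * √(#G)) ≤ θ * a * N1) (hW0 : 0 < W) (hW : W ≤ #G)
    (hb : ∀ k ∈ G, (#(blk J D k) : ℝ) ≤ exp (-W) * (#G - 1).choose (c - 1)) :
    Av G (#G - N1) (pw J G c (1 + θ')) ≤ wp ((#G).choose c) #J (1 + θ') +
      4 * Γ / (tt a θ * W) * exc G J D * exp (-(tt a θ * W * N1 / #G)) +
      (2 * Γ + 1) * ((#G : ℝ) ^ 2 * zeta #G 1 (a * N1 / 6) * (#G).choose c) := by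
  have hn19 : (7 : ℝ) ≤ #G := by exact_mod_cast h7.trans hN1
  have hn0 : (0 : ℝ) < #G := by linarith
  have ha6 : 6 * a ≤ 1 := by nlinarith only [ha, h1, h2, han]
  obtain ⟨-, t1, ht, t2⟩ := tt_bounds ha (by linarith) hθ0 hθ
  have ht1 : tt a θ ≤ 1 := by linarith
  have hlev := fun (r : ℕ) (hr : r + 1 + N1 ≤ #G) (k : V) (hk : k ∈ G) =>
    fc4_block h ha h1 h2 han hθ0 hθ h7 hN hW0 hr hk (hb k hk)
  have hZm : ∀ r : ℕ, r + 1 + N1 ≤ #G →
      zeta #G 1 (a * ((#G : ℝ) - r) / 6) * (#G).choose c ≤ zeta #G 1 (a * N1 / 6) * (#G).choose c := fun r hr => by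
    have h3 : (r : ℝ) + 1 + N1 ≤ #G := by exact_mod_cast hr
    exact mul_le_mul_of_nonneg_right (zeta_mono le_rfl 1 (by nlinarith only [ha, hθ0, t2, h3])) (by positivity)
  have hZ : 0 ≤ zeta #G 1 (a * N1 / 6) * (#G).choose c := mul_nonneg (zeta_nonneg _ _ _) (by positivity)
  rw [mul_assoc ((#G : ℝ) ^ 2)]
  generalize zeta #G 1 (a * N1 / 6) * (#G).choose c = Z at *
  generalize tt a θ = t at *
  have hl0 : 0 < t * W / #G := by positivity
  have hl1 : t * W / #G ≤ 1 := by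
    rw [div_le_one hn0]
    nlinarith only [hW0, hW, t2, t1]
  have hB : (0 : ℝ) ≤ exc G J D := Nat.cast_nonneg _
  have ind : ∀ r : ℕ, r + N1 ≤ #G → Av G r (pw J G c (1 + θ')) ≤ wp ((#G).choose c) #J (1 + θ') +
      Γ / #G * 2 * exc G J D * (2 / (t * W / #G) * exp (-(t * W / #G * ((#G : ℝ) - r)))) +
        r * ((Γ * 2 * #G + 1) * Z) := by
    intro r
    induction r with
    | zero =>
      intro _
      rw [Av_zero, pw, cnt_empty, tot, card_empty, Nat.sub_zero, Nat.sub_zero, Nat.cast_zero,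
        zero_mul, add_zero]
      exact le_add_of_nonneg_right (by positivity)
    | succ r ih =>
      intro hr
      have h3 := hs r (by omega)
      have h4 := sum_le_sum (hlev r hr)
      rw [← mul_sum, sum_add_distrib, ← sum_mul, sum_const, nsmul_eq_mul, ← Nat.cast_sum] at h4
      have h5 := mul_le_mul_of_nonneg_left h4 (by positivity : 0 ≤ Γ / #G)
      have h6 := mul_le_mul_of_nonneg_left (fc4_exp hl0 hl1 ((#G : ℝ) - (r + 1)))
        (by positivity : 0 ≤ Γ / #G * 2 * exc G J D)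
      have h7 := ih (by omega)
      have h8 := hZm r hr
      have h9 : Γ / #G * (2 * (#G * (#G * Z))) = Γ * 2 * #G * Z := by field_simp
      rw [show (#G : ℝ) - (r + 1) + 1 = #G - r by ring] at h6
      change Γ / #G * _ ≤ Γ / #G * (2 * ((exc G J D : ℝ) * _ + _)) at h5
      push_cast
      nlinarith only [h3, h6, h7, h8, h9, h5]
  have h3 := ind (#G - N1) (by omega)
  rw [Nat.cast_sub hN1, sub_sub_cancel] at h3
  refine h3.trans (add_le_add (add_le_add le_rfl (le_of_eq ?_)) ?_)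
  · rw [show t * W / #G * N1 = t * W * N1 / #G by ring]
    field_simp
    ring
  · have h4 : (0 : ℝ) ≤ N1 := Nat.cast_nonneg _
    have h5 : 0 ≤ Γ * 2 := by positivity
    have h6 : ((#G : ℝ) - N1) * ((Γ * 2 * #G + 1) * Z) ≤ #G * ((Γ * 2 * #G + 1) * Z) :=
      mul_le_mul_of_nonneg_right (by linarith) (by positivity)
    have h7 : #G * Z ≤ (#G : ℝ) ^ 2 * Z := mul_le_mul_of_nonneg_right (by nlinarith only [han, hθ0, hn19, ha6, t2]) hZ
    nlinarith only [h6, h7]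

end Pool.Agent.P.MP_4f3dfd_co.Ex
end

-- part Pool.Agent.P.MP_4f3dfd_co.FNA
section

set_option autoImplicit false
set_option linter.unusedSectionVars false
set_option linter.unusedVariables false

namespace Pool.Agent.P.MP_4f3dfd_co.Ex

open Finset Real

variable {V : Type*} [DecidableEq V]

theorem fna_small {e L b u : ℝ} (he : 0 < e) (he1 : e ≤ 1 / 3) (hL : 30 / e ^ 3 ≤ L)
    (hb : 30 / e ^ 3 * b ≤ L) (hu : u ≤ 10 * exp b * L) : u ≤ 3 * e * exp (e * L) := by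
  have he3 : 0 < e ^ 3 := by positivity
  have hL0 : 0 < L := lt_of_lt_of_le (by positivity) hL
  have h1 : 30 ≤ L * e ^ 3 := (div_le_iff₀ he3).1 hL
  have h2 : 30 * b ≤ L * e ^ 3 := by
    rw [div_mul_eq_mul_div] at hb
    exact (div_le_iff₀ he3).1 hb
  have h3 : e ^ 3 ≤ e := by
    have : e ^ 2 ≤ 1 := by nlinarith only [he, he1]
    nlinarith only [he, he1, sq_nonneg (e : ℝ)]
  have h4 : L * e ^ 3 ≤ L * e := mul_le_mul_of_nonneg_left h3 hL0.le
  have h5 : 0 < e * L := by positivity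
  have h6 : b ≤ e * L / 2 := by nlinarith only [he, he1, h1, h2, h4]
  have h7 : exp b ≤ exp (e * L / 2) := exp_le_exp.2 h6
  have h8 := quadratic_le_exp_of_nonneg (x := e * L / 2) (by positivity)
  have h9 : 10 * L ≤ 3 * e * exp (e * L / 2) := by
    have a : (e * L / 2) ^ 2 / 2 ≤ exp (e * L / 2) := by linarith
    have a2 : 3 * e * ((e * L / 2) ^ 2 / 2) = 3 / 8 * (L * e ^ 3) * L := by ring
    have a3 : 3 * e * ((e * L / 2) ^ 2 / 2) ≤ 3 * e * exp (e * L / 2) :=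
      mul_le_mul_of_nonneg_left a (by positivity)
    have a4 : 30 * L ≤ L * e ^ 3 * L := mul_le_mul_of_nonneg_right h1 hL0.le
    linarith
  have h10 : exp (e * L) = exp (e * L / 2) * exp (e * L / 2) := by
    rw [← exp_add]
    congr 1
    ring
  calc u ≤ exp b * (10 * L) := by linarith
    _ ≤ exp (e * L / 2) * (3 * e * exp (e * L / 2)) :=
      mul_le_mul h7 h9 (by positivity) (exp_pos _).le
    _ = 3 * e * exp (e * L) := by rw [h10]; ring

theorem fna_lam {n c d x : ℕ} {K1 : ℝ} (h : Par n c d x) (hK1 : 0 < K1)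
    (h2 : 2 * bb n c ≤ lg n c d) (h3 : K1 * bb n c ≤ lg n c d) (hL : lg n c d ≤ K1 * log c) :
    (n : ℝ) / c ≤ exp (bb n c) ∧ lam n c d ((n : ℝ) - x + 1) = n / ((n : ℝ) - x + 1) := by
  have hc : (2 : ℝ) ≤ c := by exact_mod_cast h.hc
  have hcn : (c : ℝ) + 2 ≤ n := by exact_mod_cast h.hcn
  have hx : (x : ℝ) < n := by exact_mod_cast h.hx
  have hc0 : (0 : ℝ) < c := by linarith
  have hn0 : (0 : ℝ) < n := by linarith
  have hk0 : (0 : ℝ) < (n : ℝ) - c := by linarith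
  have a1 : (n : ℝ) / c ≤ (n : ℝ) ^ 2 / (c * ((n : ℝ) - c)) := by
    rw [div_le_div_iff₀ hc0 (by positivity)]
    have : 0 ≤ (n : ℝ) * c * c := by positivity
    nlinarith only [this]
  have a2 : log ((n : ℝ) / c) ≤ bb n c := log_le_log (by positivity) a1
  have a3 : 0 < log ((n : ℝ) / c) := log_pos (by rw [lt_div_iff₀ hc0]; linarith)
  have a4 : log ((n : ℝ) / c) = log n - log c := log_div hn0.ne' hc0.ne'
  have a5 : 0 ≤ log (c : ℝ) := log_nonneg (by linarith)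
  have a6 : log ((n : ℝ) / c) ≤ log c := by
    have : K1 * log ((n : ℝ) / c) ≤ K1 * log c :=
      (mul_le_mul_of_nonneg_left a2 hK1.le).trans (h3.trans hL)
    exact le_of_mul_le_mul_left this hK1
  refine ⟨?_, ?_⟩
  · calc (n : ℝ) / c = exp (log ((n : ℝ) / c)) := (exp_log (by positivity)).symm
      _ ≤ _ := exp_le_exp.2 a2
  · unfold lam
    refine min_eq_left ?_
    have b1 : log (n : ℝ) ≤ lg n c d * log c / log (n / c) := by
      rw [le_div_iff₀ a3]
      have b2 : 2 * log ((n : ℝ) / c) * log c ≤ lg n c d * log c :=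
        mul_le_mul_of_nonneg_right (by linarith) a5
      have b3 : log (n : ℝ) * log (n / c) ≤ 2 * log c * log (n / c) :=
        mul_le_mul_of_nonneg_right (by linarith) a3.le
      linarith
    calc (n : ℝ) / ((n : ℝ) - x + 1) ≤ n := div_le_self hn0.le (by linarith)
      _ = exp (log n) := (exp_log hn0).symm
      _ ≤ Lam n c d := exp_le_exp.2 b1

theorem fna_big {n c d x p : ℕ} {K1 ε : ℝ} (h : Par n c d x) (hK1 : 0 < K1)
    (hL : lg n c d ≤ K1 * log c) (hp : K1 + 6 ≤ p) (hb : n ^ p ≤ (n - 1).choose (c - 1))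
    (hε : 0 < ε) (hn : 1 ≤ ε * n) : (n : ℝ) ^ 5 ≤ ε * d := by
  have hc : (2 : ℝ) ≤ c := by exact_mod_cast h.hc
  have hcn : (c : ℝ) + 2 ≤ n := by exact_mod_cast h.hcn
  have hn0 : (0 : ℝ) < n := by linarith
  have a1 : log (c : ℝ) ≤ log n := log_le_log (by linarith) (by linarith)
  have a2 : 0 ≤ log (n : ℝ) := log_nonneg (by linarith)
  have a3 : (n : ℝ) ^ p ≤ (n - 1).choose (c - 1) := by exact_mod_cast hb
  have a4 : (n : ℝ) ^ p = exp (p * log n) := by rw [exp_nat_mul, exp_log hn0]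
  have a5 : (n : ℝ) ^ 6 = exp ((6 : ℕ) * log n) := by rw [exp_nat_mul, exp_log hn0]
  have a6 : (n : ℝ) ^ 6 ≤ d := by
    rw [h.d_eq]
    refine le_trans ?_ (mul_le_mul_of_nonneg_left a3 (exp_pos _).le)
    rw [a4, a5, ← exp_add]
    refine exp_le_exp.2 ?_
    have b1 : K1 * log c ≤ K1 * log n := mul_le_mul_of_nonneg_left a1 hK1.le
    have b2 : (K1 + 6) * log n ≤ p * log n := mul_le_mul_of_nonneg_right hp a2
    push_cast
    linarith
  calc (n : ℝ) ^ 5 = 1 * (n : ℝ) ^ 5 := (one_mul _).symm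
    _ ≤ ε * n * (n : ℝ) ^ 5 := mul_le_mul_of_nonneg_right hn (by positivity)
    _ = ε * (n : ℝ) ^ 6 := by ring
    _ ≤ ε * d := mul_le_mul_of_nonneg_left a6 hε.le

theorem fna_dec {n c d x : ℕ} (h : Par n c d x) {L A : ℝ} (hL0 : 0 ≤ L)
    (hL : L = lg n c d + log (lam n c d ((n : ℝ) - x + 1))) (s : ℕ)
    (hs : A * ((n : ℝ) - x) ≤ s) :
    ((x - 1 - s).choose (c - 1) : ℝ) * lam n c d ((n : ℝ) - x + 1) * exp (A * L) ≤ d := by
  have hx : (x : ℝ) < n := by exact_mod_cast h.hx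
  have a := h.dec s
  rw [← hL] at a
  have b : A * L ≤ L * s / ((n : ℝ) - x) := by
    rw [le_div_iff₀ (by linarith)]
    have := mul_le_mul_of_nonneg_left hs hL0
    linarith
  have c1 : exp (-(L * s / ((n : ℝ) - x))) * exp (A * L) ≤ 1 := by
    rw [← exp_add]
    exact exp_le_one_iff.2 (by linarith)
  have hd : (0 : ℝ) ≤ d := Nat.cast_nonneg d
  calc _ ≤ exp (-(L * s / ((n : ℝ) - x))) * d * exp (A * L) :=
        mul_le_mul_of_nonneg_right a (exp_pos _).le
    _ = exp (-(L * s / ((n : ℝ) - x))) * exp (A * L) * d := by ring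
    _ ≤ 1 * d := mul_le_mul_of_nonneg_right c1 hd
    _ = d := one_mul _

/-- Choice of the two clique sizes for the two-scale construction. -/
theorem two_scale (ε K1 : ℝ) (hε : 0 < ε) (hK1 : 0 < K1) : ∃ K : ℝ, 0 < K ∧
    ∀ n c d x : ℕ, Par n c d x → K * bb n c ≤ lg n c d → lg n c d ≤ K1 * log c →
    ∃ y1 y2 : ℕ, c ≤ y2 ∧ y2 ≤ y1 ∧ y1 ≤ x ∧ (n : ℝ) - y1 ≤ (1 + ε) * ((n : ℝ) - x) ∧
      (1 - ε) * ((x : ℝ) - c + 2) ≤ (y1 : ℝ) - c + 1 ∧ (n : ℝ) - y2 ≤ 7 * ((n : ℝ) - x) ∧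
      (n : ℝ) ^ 2 * y2.choose (c - 1) ≤ ε * d ∧ (n : ℝ) - x + 1 ≤ n / 2 ∧
      ((x : ℝ) - c + 2) * y1.choose (c - 1) ≤ ε * d ∧ (n : ℝ) ^ 5 ≤ ε * d := by
  obtain ⟨e, he, he1, heε⟩ : ∃ e : ℝ, 0 < e ∧ e ≤ 1 / 3 ∧ 3 * e ≤ ε :=
    ⟨min ε 1 / 3, by have := lt_min hε one_pos; positivity, by linarith [min_le_right ε 1],
      by linarith [min_le_left ε 1]⟩
  obtain ⟨p, hp6, hpK⟩ : ∃ p : ℕ, 6 ≤ p ∧ K1 + 6 ≤ p :=
    ⟨⌈K1⌉₊ + 6, by omega, by push_cast; linarith [Nat.le_ceil K1]⟩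
  obtain ⟨K0, hK0⟩ := Off.big_choose p 2
  obtain ⟨Ks, hKs, hs⟩ := sharp_num (e / (p + 2)) K1 0 (max K0 ⌈1 / ε⌉₊) (by positivity) hK1
  have he3 : 0 < 30 / e ^ 3 := by positivity
  refine ⟨Ks + K1 + 30 / e ^ 3, by positivity, fun n c d x h hK hL => ?_⟩
  have hc : (2 : ℝ) ≤ c := by exact_mod_cast h.hc
  have hcn : (c : ℝ) + 2 ≤ n := by exact_mod_cast h.hcn
  have hxn := h.hx
  have hc2 := h.hc
  have hx : (x : ℝ) + 1 ≤ n := by exact_mod_cast h.hx
  have hc0 : (0 : ℝ) < c := by linarith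
  have hn0 : (0 : ℝ) < n := by linarith
  have hn0' : 0 < n := by omega
  have hb1 : 1 ≤ bb n c := by linarith [h.log_two_le_bb, log_two_gt_d9]
  have hb0 : 0 ≤ bb n c := by linarith
  have h230 : 2 ≤ 30 / e ^ 3 := by
    rw [le_div_iff₀ (by positivity)]
    have : e ^ 3 ≤ 1 := pow_le_one₀ he.le (by linarith)
    linarith
  have hmono : ∀ K' : ℝ, K' ≤ Ks + K1 + 30 / e ^ 3 → K' * bb n c ≤ lg n c d := fun K' hK' =>
    (mul_le_mul_of_nonneg_right hK' hb0).trans hK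
  have k2 := hmono 2 (by linarith)
  have k30 := hmono (30 / e ^ 3) (by linarith)
  obtain ⟨hN, -, -, hw1, hw2, -⟩ := hs n c d x h (hmono Ks (by linarith)) hL 1
    (by linarith [aa_le hn0' c]) le_rfl
  obtain ⟨hexp, hlam⟩ := fna_lam h hK1 k2 (hmono K1 (by linarith)) hL
  obtain ⟨W, hW⟩ : ∃ W : ℕ, n = x + W := ⟨n - x, by omega⟩
  have hWr : (n : ℝ) - x = W := by rw [hW]; push_cast; ring
  have hW1 : (1 : ℝ) ≤ W := by linarith
  have hp2 : (8 : ℝ) ≤ p + 2 := by
    have : (6 : ℝ) ≤ p := by exact_mod_cast hp6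
    linarith
  have heW : 1 ≤ e * W := by
    rw [hWr] at hw1
    exact hw1.trans (mul_le_mul_of_nonneg_right (div_le_self he.le (by linarith)) (by linarith))
  have hmin : ((p : ℝ) + 2) * W ≤ min (c : ℝ) ((n : ℝ) - c) := by
    rw [hWr, div_mul_eq_mul_div, le_div_iff₀ (by linarith)] at hw2
    have a : 0 ≤ min (c : ℝ) ((n : ℝ) - c) := le_min (by linarith) (by linarith)
    have := mul_le_mul_of_nonneg_right (show e ≤ 1 by linarith) a
    linarith
  have hm1 : ((p : ℝ) + 2) * W ≤ c := hmin.trans (min_le_left _ _)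
  have hm2 : ((p : ℝ) + 2) * W ≤ (n : ℝ) - c := hmin.trans (min_le_right _ _)
  have h8 : 8 * (W : ℝ) ≤ ((p : ℝ) + 2) * W := mul_le_mul_of_nonneg_right hp2 (by linarith)
  have hpp : (p : ℝ) + 2 ≤ ((p : ℝ) + 2) * W := le_mul_of_one_le_right (by linarith) hW1
  have n1 : p + 2 ≤ c := by exact_mod_cast hpp.trans hm1
  have n2 : p + 2 + c ≤ n := by
    have : (p : ℝ) + 2 + c ≤ n := by linarith
    exact_mod_cast this
  have n3 : 8 * W + c ≤ n := by
    have : 8 * (W : ℝ) + c ≤ n := by linarith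
    exact_mod_cast this
  have n4 : 1 ≤ W := by omega
  obtain ⟨s, hs1, hs2⟩ : ∃ s : ℕ, e * W ≤ s ∧ (s : ℝ) ≤ e * W + 1 :=
    ⟨⌈e * W⌉₊, Nat.le_ceil _, (Nat.ceil_lt_add_one (by linarith)).le⟩
  have heW3 : e * W ≤ W / 3 := by
    have := mul_le_mul_of_nonneg_right he1 (show (0 : ℝ) ≤ W by linarith only [])
    linarith
  have n5 : s ≤ W := by
    have : (s : ℝ) ≤ W := by linarith
    exact_mod_cast this
  have y1 : ((x - 1 - s : ℕ) : ℝ) = x - 1 - s := by
    rw [Nat.cast_sub (by omega), Nat.cast_sub (by omega), Nat.cast_one]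
  have y2 : ((x - 1 - (s + 4 * W) : ℕ) : ℝ) = x - 1 - (s + 4 * W) := by
    rw [Nat.cast_sub (by omega), Nat.cast_sub (by omega), Nat.cast_one]
    push_cast
    ring
  have hWn : (W : ℝ) + 1 ≤ n / 2 := by linarith only [he, he1, heW, hm1, hm2, h8, heW3]
  obtain ⟨L, hLd⟩ : ∃ L, L = lg n c d + log (lam n c d ((n : ℝ) - x + 1)) := ⟨_, rfl⟩
  have hl1 : 1 ≤ lam n c d ((n : ℝ) - x + 1) := h.one_le_lam (by linarith only [he, he1, hx]) (by linarith only [he, he1, hWr, heW, hm1, hm2, h8, heW3])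
  have hLL : lg n c d ≤ L := by linarith [log_nonneg hl1]
  have hL30 : 30 / e ^ 3 ≤ L :=
    (le_mul_of_one_le_right he3.le hb1).trans (k30.trans hLL)
  have hL0 : 0 ≤ L := by linarith only [he, he1, hb1, k2, hLL]
  have hcw := h.cw (by linarith only [log_two_lt_d9, he, he1, hb1, k2])
  rw [← hlam, ← hLd, hWr] at hcw
  have hu : (W : ℝ) + 1 ≤ 10 * exp (bb n c) * L := by
    have a : (W : ℝ) + 1 ≤ 10 * (n / c) * L := by
      rw [show 10 * ((n : ℝ) / c) * L = 10 * n * L / c by ring, le_div_iff₀ hc0]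
      linarith only [hcw]
    exact a.trans (mul_le_mul_of_nonneg_right (by linarith only [hexp]) hL0)
  have hsm := fna_small he he1 hL30 (k30.trans hLL) hu
  have hE : 0 < exp (e * L) := exp_pos _
  have hsε : (W : ℝ) + 1 ≤ ε * exp (e * L) :=
    hsm.trans (mul_le_mul_of_nonneg_right heε hE.le)
  have hd0 : (0 : ℝ) ≤ d := Nat.cast_nonneg d
  have hεW : 3 * (e * W) ≤ ε * W := by
    have := mul_le_mul_of_nonneg_right heε (show (0 : ℝ) ≤ W by linarith only [he, he1, heW, heW3])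
    linarith only [this]
  refine ⟨x - 1 - s, x - 1 - (s + 4 * W), by omega, by omega, by omega, ?_, ?_, ?_, ?_, ?_, ?_, ?_⟩
  · rw [y1, hWr]
    linarith only [hWr, heW, hs2, hεW]
  · rw [y1]
    have a : 2 * (W : ℝ) ≤ (x : ℝ) - c + 2 := by linarith only [he, he1, hWr, heW, hm2, h8, heW3]
    have := mul_le_mul_of_nonneg_left a hε.le
    linarith only [he, he1, heW, hs2, hεW, this]
  · rw [y2, hWr]
    linarith only [he, he1, hWr, heW, hs2, heW3]
  · have a := fna_dec h hL0 hLd (A := e + 4) (s + 4 * W) (by rw [hWr]; push_cast; linarith only [hs1])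
    have b1 : (W : ℝ) + 1 ≤ exp L := by
      have b2 : exp (e * L) ≤ exp L := exp_le_exp.2 (mul_le_of_le_one_left hL0 (by linarith))
      have b3 : 3 * e * exp (e * L) ≤ 1 * exp (e * L) :=
        mul_le_mul_of_nonneg_right (by linarith) hE.le
      linarith
    have b4 : (n : ℝ) / (W + 1) ≤ exp L := by
      have b5 : log ((n : ℝ) / (W + 1)) ≤ L := by
        rw [hLd, hlam, hWr]
        linarith only [h.lg_pos, he, he1, hb1, k2]
      calc (n : ℝ) / (W + 1) = exp (log ((n : ℝ) / (W + 1))) := (exp_log (by positivity)).symm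
        _ ≤ _ := exp_le_exp.2 b5
    have b6 : (n : ℝ) ≤ exp L * exp L := by
      rw [div_le_iff₀ (by linarith only [he, he1, heW, heW3])] at b4
      exact b4.trans (mul_le_mul_of_nonneg_left b1 (exp_pos _).le)
    have b7 : (n : ℝ) ^ 2 ≤ (exp L * exp L) ^ 2 := pow_le_pow_left₀ hn0.le b6 2
    have b8 : exp ((e + 4) * L) = exp (e * L) * (exp L * exp L) ^ 2 := by
      rw [← exp_add, ← exp_nat_mul, ← exp_add]
      congr 1
      push_cast
      ring
    have b9 : (n : ℝ) ^ 2 ≤ ε * exp ((e + 4) * L) := by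
      rw [b8, ← mul_assoc]
      exact b7.trans (le_mul_of_one_le_left (by positivity) (by linarith only [he, he1, heW, heW3, hsε]))
    generalize ((x - 1 - (s + 4 * W)).choose (c - 1)) = C at a ⊢
    have hC : (0 : ℝ) ≤ C := Nat.cast_nonneg C
    have a2 : (C : ℝ) * exp ((e + 4) * L) ≤ d :=
      (mul_le_mul_of_nonneg_right (le_mul_of_one_le_right hC hl1) (exp_pos _).le).trans a
    calc (n : ℝ) ^ 2 * C ≤ ε * exp ((e + 4) * L) * C := mul_le_mul_of_nonneg_right b9 hC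
      _ = ε * (C * exp ((e + 4) * L)) := by ring
      _ ≤ ε * d := mul_le_mul_of_nonneg_left a2 hε.le
  · rw [hWr]
    exact hWn
  · have a := fna_dec h hL0 hLd (A := e) s (by rw [hWr]; exact hs1)
    rw [hlam, hWr] at a
    generalize ((x - 1 - s).choose (c - 1)) = C at a ⊢
    have hC : (0 : ℝ) ≤ C := Nat.cast_nonneg C
    have b1 : (x : ℝ) - c + 2 ≤ ε * (n / (W + 1) * exp (e * L)) := by
      have b2 : (n : ℝ) = n / (W + 1) * (W + 1) := by field_simp
      have b3 : (n : ℝ) / (W + 1) * (W + 1) ≤ n / (W + 1) * (ε * exp (e * L)) :=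
        mul_le_mul_of_nonneg_left hsε (by positivity)
      linarith only [he, he1, hWr, heW, hm1, h8, heW3, b2, b3]
    calc ((x : ℝ) - c + 2) * C ≤ ε * (n / (W + 1) * exp (e * L)) * C :=
          mul_le_mul_of_nonneg_right b1 hC
      _ = ε * (C * (n / (W + 1)) * exp (e * L)) := by ring
      _ ≤ ε * d := mul_le_mul_of_nonneg_left a hε.le
  · refine fna_big h hK1 hL hpK (hK0 n (n - 1) (c - 1) ((le_max_left _ _).trans hN) (by omega)
      (by omega) (by omega)) hε ?_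
    have a : ((⌈1 / ε⌉₊ : ℕ) : ℝ) ≤ n := by exact_mod_cast (le_max_right _ _).trans hN
    have b := (Nat.le_ceil (1 / ε)).trans a
    rw [div_le_iff₀ hε] at b
    linarith only [b]

end Pool.Agent.P.MP_4f3dfd_co.Ex
end

-- part Pool.Agent.P.MP_4f3dfd_co.FT7
section

set_option autoImplicit false
set_option linter.unusedSectionVars false
set_option linter.unusedVariables false

namespace Pool.Agent.P.MP_4f3dfd_co.Ex

open Finset Real

variable {V : Type*} [DecidableEq V]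

theorem ft7_ev : ∃ N : ℕ, ∀ n : ℕ, N ≤ n → 5184 * (14641 * log n ^ 4) ≤ (n : ℝ) := by
  have h := (isLittleO_pow_log_id_atTop (n := 4)).bound
    (show (0 : ℝ) < 1 / (5184 * 14641) by norm_num)
  obtain ⟨N, hN⟩ := Filter.eventually_atTop.1 (tendsto_natCast_atTop_atTop.eventually h)
  refine ⟨N, fun n hn => ?_⟩
  have h1 := hN n hn
  rw [id, Real.norm_of_nonneg (by positivity), Real.norm_of_nonneg (by positivity)] at h1
  linarith

theorem ft7_lam {n l : ℕ} (hl : 1 ≤ l) (h4 : 4 * l ≤ n) :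
    1 ≤ log ((n : ℝ) / l) ∧ 1 ≤ log n / log ((n : ℝ) / l) := by
  have l1 : (1 : ℝ) ≤ l := by exact_mod_cast hl
  have l4 : 4 * (l : ℝ) ≤ n := by exact_mod_cast h4
  have h1 : log 4 ≤ log ((n : ℝ) / l) :=
    log_le_log (by norm_num) (by rw [le_div_iff₀ (by linarith)]; linarith)
  have h2 : log 4 = 2 * log 2 := by
    rw [show (4 : ℝ) = 2 ^ 2 by norm_num, log_pow]; norm_num
  have h3 := log_two_gt_d9
  have h5 : 1 ≤ log ((n : ℝ) / l) := by linarith
  refine ⟨h5, ?_⟩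
  rw [le_div_iff₀ (by linarith), one_mul]
  exact log_le_log (by apply div_pos <;> linarith) (div_le_self (by linarith) l1)

theorem t2_par : ∃ N : ℕ, ∀ n l : ℕ, N ≤ n → 1 ≤ l → 4 * l ≤ n → ∃ ρ : ℕ, 1 ≤ ρ ∧ 12 * ρ ≤ n ∧
    ((6 * ρ : ℕ) : ℝ) ≤ 66 * (log n / log (n / l)) ∧ 4 * l * (n : ℝ) ^ 2 * eps n l ρ ≤ 1 := by
  obtain ⟨N, hN⟩ := ft7_ev
  refine ⟨max N 3, fun n l hn hl h4 => ?_⟩
  have hev := hN n (le_trans (le_max_left _ _) hn)
  have n3 : (3 : ℝ) ≤ n := by exact_mod_cast le_trans (le_max_right _ _) hn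
  have n0 : (0 : ℝ) < n := by linarith
  obtain ⟨a1, a2⟩ := ft7_lam hl h4
  have l1 : (1 : ℝ) ≤ l := by exact_mod_cast hl
  have l4 : 4 * (l : ℝ) ≤ n := by exact_mod_cast h4
  set b := log ((n : ℝ) / l) with hb
  set lam0 := log n / b with hlam
  have b0 : 0 < b := by linarith
  have e1 : lam0 * b = log n := div_mul_cancel₀ _ b0.ne'
  have a3 : lam0 ≤ log n := by nlinarith only [a1, a2, e1]
  set ρ := ⌈2 * lam0⌉₊ + 8 with hρ
  have r1 : 2 * lam0 ≤ ρ := by
    have := Nat.le_ceil (2 * lam0)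
    rw [hρ]; push_cast; linarith
  have r2 : (ρ : ℝ) ≤ 11 * lam0 := by
    have := Nat.ceil_lt_add_one (show 0 ≤ 2 * lam0 by linarith)
    rw [hρ]; push_cast; linarith
  have r8 : 8 ≤ ρ := by omega
  have r8' : (8 : ℝ) ≤ ρ := by exact_mod_cast r8
  have r4 : 5184 * (ρ : ℝ) ^ 4 ≤ n := by
    have h1 : (ρ : ℝ) ^ 4 ≤ (11 * log n) ^ 4 := pow_le_pow_left₀ (by positivity) (by linarith) 4
    have h2 : (11 * log n) ^ 4 = 14641 * log n ^ 4 := by ring
    linarith
  refine ⟨ρ, by omega, ?_, by push_cast; linarith, ?_⟩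
  · have h1 : (ρ : ℝ) ≤ (ρ : ℝ) ^ 4 := le_self_pow₀ (by linarith) (by norm_num)
    have h2 : 12 * (ρ : ℝ) ≤ n := by nlinarith only [r8', r4, h1]
    exact_mod_cast h2
  · have t1 : ((l : ℝ) / n) ^ (3 * ρ) ≤ (1 / n) ^ 4 := by
      have p1 : (0 : ℝ) < l / n := by positivity
      have p2 : (0 : ℝ) < 1 / n := by positivity
      rw [← log_le_log_iff (pow_pos p1 _) (pow_pos p2 _), log_pow, log_pow, one_div, log_inv]
      have e2 : log ((l : ℝ) / n) = -b := by rw [hb, ← log_inv, inv_div]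
      rw [e2]
      push_cast
      have : 0 ≤ lam0 * b := by positivity
      nlinarith only [a1, e1, r1, r8']
    have t2 : (2 * ((6 * ρ : ℕ) : ℝ) ^ 2 / n) ^ ρ ≤ (1 / n) ^ 4 := by
      set y := 2 * ((6 * ρ : ℕ) : ℝ) ^ 2 / n with hy
      have y0 : 0 ≤ y := by positivity
      have y2 : y ^ 2 ≤ 1 / n := by
        have : y ^ 2 = 5184 * (ρ : ℝ) ^ 4 / n * (1 / n) := by rw [hy]; push_cast; field_simp; ring
        rw [this]
        exact mul_le_of_le_one_left (by positivity) ((div_le_one n0).2 r4)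
      have y1 : y ≤ 1 := by
        have : 1 / (n : ℝ) ≤ 1 := by rw [div_le_one n0]; linarith
        nlinarith only [y0, y2, this]
      calc y ^ ρ ≤ y ^ 8 := pow_le_pow_of_le_one y0 y1 r8
        _ = (y ^ 2) ^ 4 := by ring
        _ ≤ (1 / n) ^ 4 := pow_le_pow_left₀ (by positivity) y2 4
    have t3 : eps n l ρ ≤ 2 * (1 / n) ^ 4 := by unfold eps; linarith
    calc 4 * l * (n : ℝ) ^ 2 * eps n l ρ ≤ n * (n : ℝ) ^ 2 * (2 * (1 / n) ^ 4) := by
          apply mul_le_mul (mul_le_mul_of_nonneg_right l4 (by positivity)) t3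
            (by unfold eps; positivity) (by positivity)
      _ = 2 / (n : ℝ) := by field_simp
      _ ≤ 1 := by rw [div_le_one n0]; linarith

theorem t2_lo : ∃ C : ℝ, 0 < C ∧ ∃ N : ℕ, ∀ n c m : ℕ, N ≤ n → 1 ≤ c → 8 * c ≤ n →
    n ∣ c * m → 2 * m ≤ n.choose c → n.choose c ≤ n * m →
    C * (log n / log (n / c) * log ((n.choose c : ℝ) / m)) ≤ c →
    ∃ J : Finset (Finset (Fin n)), Reg n c m J ∧ ex n c m #(shadow J) ≤
      C * (m * (log n / log (n / c) * log ((n.choose c : ℝ) / m))) := by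
  obtain ⟨N1, h1⟩ := t2_par
  obtain ⟨N2, h2⟩ := Off.big_choose 5 1
  refine ⟨3000, by norm_num, max (max N1 N2) 8, fun n c m hn hc h8 hdvd hm hm' hC => ?_⟩
  have n1 : N1 ≤ n := le_trans (le_trans (le_max_left _ _) (le_max_left _ _)) hn
  have n2 : N2 ≤ n := le_trans (le_trans (le_max_right _ _) (le_max_left _ _)) hn
  have n8 : 8 ≤ n := le_trans (le_max_right _ _) hn
  have : NeZero n := ⟨by omega⟩
  obtain ⟨ρ, r1, r2, r3, r4⟩ := h1 n c n1 hc (by omega)
  obtain ⟨a1, a2⟩ := ft7_lam hc (show 4 * c ≤ n by omega)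
  have hcn : c ≤ n := by omega
  have C0 : 0 < n.choose c := Nat.choose_pos hcn
  have m1 : 1 ≤ m := by
    rcases Nat.eq_zero_or_pos m with h | h
    · rw [h] at hm'; omega
    · exact h
  have n0 : (0 : ℝ) < n := by exact_mod_cast (show 0 < n by omega)
  have C0' : (0 : ℝ) < n.choose c := by exact_mod_cast C0
  have m0 : (0 : ℝ) < m := by exact_mod_cast m1
  have hm2 : 2 * (m : ℝ) ≤ n.choose c := by exact_mod_cast hm
  have hm3 : (n.choose c : ℝ) ≤ n * m := by exact_mod_cast hm'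
  have c1 : (1 : ℝ) ≤ c := by exact_mod_cast hc
  set lam0 := log n / log ((n : ℝ) / c) with hlam
  set L := log ((n.choose c : ℝ) / m) with hL
  have L1 : 0.69 ≤ L := by
    have h3 : log 2 ≤ L := log_le_log (by norm_num) (by rw [le_div_iff₀ m0]; linarith only [hm2])
    have := log_two_gt_d9
    linarith
  have e1 : log (1 / ((m : ℝ) / n.choose c)) = L := by rw [one_div, inv_div]
  have A1 : 8 * ((6 * ρ : ℕ) : ℝ) * (1 + L) ≤ 1300 * (lam0 * L) := by
    have h3 : 1 + L ≤ 2.45 * L := by linarith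
    calc 8 * ((6 * ρ : ℕ) : ℝ) * (1 + L) ≤ 8 * (66 * lam0) * (2.45 * L) :=
          mul_le_mul (by linarith) h3 (by linarith) (by linarith)
      _ ≤ 1300 * (lam0 * L) := by nlinarith only [r3, a2, L1]
  have A0 : 0.69 ≤ lam0 * L := by nlinarith only [r3, a2, L1]
  have eps0 : 0 ≤ eps n c ρ := by unfold eps; positivity
  obtain ⟨J, D, p1, ⟨d, p2⟩, p3, p4, p5⟩ := t2_up (n := n) (l := c) (ρ := ρ)
    (μ := (m : ℝ) / n.choose c) r1 r2 hcn (by positivity) (by rw [div_le_one C0']; linarith only [m0, hm2])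
    (by rw [e1]; linarith)
    (by
      have h3 : 1 / (n : ℝ) ≤ (m : ℝ) / n.choose c := by
        rw [div_le_div_iff₀ n0 C0']; linarith only [hm3]
      refine le_trans ?_ h3
      rw [le_div_iff₀ n0]
      have : 0 ≤ c * (n : ℝ) ^ 2 * eps n c ρ := by positivity
      nlinarith only [r4])
    (t := m) (by rw [div_mul_cancel₀ _ C0'.ne']) (by omega)
  rw [div_mul_cancel₀ _ C0'.ne'] at p4
  rw [e1] at p5
  obtain ⟨J', q1, q2⟩ := round_ex hcn p1 p2 m1 p3 hdvd
  refine ⟨J', q1, q2.trans ?_⟩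
  have p3' : (m : ℝ) ≤ #J := by exact_mod_cast p3
  have j2 : (#J : ℝ) ≤ 2 * m := by nlinarith only [m0, hC, A0, p4]
  have x1 : (exc univ J D : ℝ) ≤ 1300 * (lam0 * L) * (2 * m) :=
    p5.trans (mul_le_mul A1 j2 (by positivity) (by linarith))
  have c6 : 6 ≤ c := by
    have : (6 : ℝ) ≤ c := by linarith
    exact_mod_cast this
  have b1 : n ^ 5 ≤ n.choose c := h2 n n c n2 (by omega) (by omega) (by omega)
  have b2 : (n : ℝ) ^ 5 ≤ n * m := le_trans (by exact_mod_cast b1) hm3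
  have b3 : (n : ℝ) ^ 4 ≤ m := by
    have : n * (n : ℝ) ^ 4 ≤ n * m := by calc n * (n : ℝ) ^ 4 = (n : ℝ) ^ 5 := by ring
      _ ≤ _ := b2
    exact le_of_mul_le_mul_left this n0
  have cn : (c : ℝ) ≤ n := by exact_mod_cast hcn
  have b4 : ((n : ℝ) - c + 1) * (c * (c * n)) ≤ (n : ℝ) ^ 4 := by
    calc ((n : ℝ) - c + 1) * (c * (c * n)) ≤ n * (n * (n * n)) :=
          mul_le_mul (by linarith) (mul_le_mul cn (mul_le_mul_of_nonneg_right cn n0.le)
            (by positivity) n0.le) (by positivity) n0.le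
      _ = (n : ℝ) ^ 4 := by ring
  have b5 : 0.69 * (m : ℝ) ≤ m * (lam0 * L) := by nlinarith only [A0]
  nlinarith only [m0, p4, x1, b3, b4, b5]

end Pool.Agent.P.MP_4f3dfd_co.Ex
end

-- part Pool.Agent.P.MP_4f3dfd_co.FC6
section

set_option autoImplicit false
set_option linter.unusedSectionVars false
set_option linter.unusedVariables false

namespace Pool.Agent.P.MP_4f3dfd_co.Ex

open Finset Real

variable {V : Type*} [DecidableEq V]

/-- The moment of the conditional density stays near its initial value. -/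
theorem momentU (s K : ℝ) (hs : 0 < s) (hK : 0 < K) : ∃ N : ℕ,
    ∀ (n0 : ℕ) (G : Finset (Fin n0)) (c N1 : ℕ) (J D : Finset (Finset (Fin n0)))
      (a θ θ' Γ W Z : ℝ), N ≤ #G → Pair G c J D → (#G : ℝ) ^ (-(1 / 6) : ℝ) ≤ a →
      3 * a * #G ≤ c → (c : ℝ) ≤ (1 - 3 * a) * #G → 0 < θ → θ * bt a ≤ 1 →
      1 ≤ K * θ * log #G → 0 ≤ Γ → Γ ≤ 60 → Step G c J D a θ θ' Γ → N1 ≤ #G →
      (#G : ℝ) ≤ K * log #G * N1 → 0 < W → W ≤ #G →
      (∀ k ∈ G, (#(blk J D k) : ℝ) ≤ exp (-W) * (#G - 1).choose (c - 1)) → 0 ≤ Z →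
      (N1 = #G ∨ 4 * Γ / (tt a θ * W) * exc G J D * exp (-(tt a θ * W * N1 / #G)) ≤ Z) →
      Av G (#G - N1) (pw J G c (1 + θ')) ≤
        wp ((#G).choose c) #J (1 + θ') + Z + s * (#G : ℝ) ^ (-K) * (#G).choose c := by
  obtain ⟨N1', hN1'⟩ := ev_pow (336 * K ^ 2)
  obtain ⟨N2, hN2⟩ := ev_zetaU (6 * K) K (s / 121) (by positivity) (by positivity)
  refine ⟨max 4 (max N1' N2), ?_⟩
  intro n0 G c N1 J D a θ θ' Γ W Z hN hP ha h1 h2 hθ0 hθ hKθ hΓ0 hΓ hS hN1 hn hW0 hW hb hZ hor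
  have hn4 : 4 ≤ #G := (le_max_left _ _).trans hN
  have hnA : N1' ≤ #G := ((le_max_left _ _).trans (le_max_right _ _)).trans hN
  have hnB : N2 ≤ #G := ((le_max_right _ _).trans (le_max_right _ _)).trans hN
  have hn4' : (4 : ℝ) ≤ #G := by exact_mod_cast hn4
  have hn0 : (0 : ℝ) < #G := by linarith
  have hlast : 0 ≤ s * (#G : ℝ) ^ (-K) * (#G).choose c := by positivity
  rcases hor with hE | hE
  · rw [hE, Nat.sub_self, Av_zero, pw, cnt_empty, tot, card_empty, Nat.sub_zero, Nat.sub_zero]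
    linarith
  obtain ⟨hl1, -, hR⟩ := hN1' _ hnA
  have ha0 : 0 < a := lt_of_lt_of_le (by positivity) ha
  have ha6 : 6 * a ≤ 1 := by nlinarith only [h1, h2, hW0, hW]
  have h56 : (#G : ℝ) ^ (5 / 6 : ℝ) ≤ a * #G := by
    have e : (#G : ℝ) ^ (5 / 6 : ℝ) = (#G : ℝ) ^ (-(1 / 6) : ℝ) * #G := by
      rw [← rpow_add_one hn0.ne']
      norm_num
    rw [e]
    exact mul_le_mul_of_nonneg_right ha hn0.le
  have h18 : (#G : ℝ) ^ (1 / 18 : ℝ) ≤ (#G : ℝ) ^ (5 / 6 : ℝ) :=
    rpow_le_rpow_of_exponent_le (by linarith) (by norm_num)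
  have h01 : 1 ≤ (#G : ℝ) ^ (5 / 6 : ℝ) := one_le_rpow (by linarith) (by norm_num)
  have han : 1 ≤ a * #G := h01.trans h56
  have hu : (#G : ℝ) ^ (5 / 6 : ℝ) ≤ K * log #G * (a * N1) := by
    have := mul_le_mul_of_nonneg_left hn ha0.le
    linarith
  have hN0 : (0 : ℝ) ≤ N1 := Nat.cast_nonneg _
  have hmain : 336 * log #G ≤ θ * a * N1 := by
    have h3 : 0 ≤ K * log #G * (a * N1) := by positivity
    have h4 := mul_le_mul_of_nonneg_right hKθ h3
    have h5 : 336 * log #G * (K * log #G) ^ 2 ≤ θ * a * N1 * (K * log #G) ^ 2 := by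
      nlinarith only [hR, h18, hu, h4]
    exact le_of_mul_le_mul_right h5 (by positivity)
  have hsq : 2 * √(#G : ℝ) ≤ #G := by
    have h3 := sq_sqrt hn0.le
    have h4 : 2 ≤ √(#G : ℝ) := le_sqrt_of_sq_le (by linarith)
    nlinarith only [hn4', ha0, ha6, h3, h4]
  have hlog : log (2 * √(#G : ℝ)) ≤ log #G := log_le_log (by positivity) hsq
  obtain ⟨-, -, -, hθ30⟩ := tt_bounds ha0 (by linarith only [ha0, ha6]) hθ0 hθ
  have h7 : 7 ≤ N1 := by
    have h3 : θ * a ≤ 1 := by nlinarith only [h1, h2, hθ0, h56, h01, hθ30]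
    have h4 := mul_le_mul_of_nonneg_right h3 hN0
    have h5 : (7 : ℝ) ≤ N1 := by linarith
    exact_mod_cast h5
  have hT := teleU hP ha0 h1 h2 han hθ0 hθ hΓ0 hS h7 hN1 (by linarith) hW0 hW hb
  have hz := hN2 _ hnB (a * N1 / 6) (by linarith)
  have hC : (0 : ℝ) ≤ (#G).choose c := Nat.cast_nonneg _
  have hz1 := mul_le_mul_of_nonneg_right hz hC
  have hz0 : 0 ≤ (#G : ℝ) ^ 2 * zeta #G 1 (a * N1 / 6) * (#G).choose c :=
    mul_nonneg (mul_nonneg (by positivity) (zeta_nonneg _ _ _)) hC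
  have hz2 := mul_le_mul_of_nonneg_right (show 2 * Γ + 1 ≤ 121 by linarith only [hΓ]) hz0
  linarith only [hE, hT, hz1, hz2]

end Pool.Agent.P.MP_4f3dfd_co.Ex
end

-- part Pool.Agent.P.MP_4f3dfd_co.FT8
section

set_option autoImplicit false
set_option linter.unusedSectionVars false
set_option linter.unusedVariables false

namespace Pool.Agent.P.MP_4f3dfd_co.Ex

open Finset Real

variable {V : Type*} [DecidableEq V]

theorem ft8_log {n k : ℝ} (hk : 1 ≤ k) (h8 : 8 * k ≤ n) :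
    1 ≤ log n / log (n / k) ∧ log n / log (n / (k + 1)) ≤ 3 / 2 * (log n / log (n / k)) := by
  have hk0 : 0 < k := by linarith
  have hn0 : 0 < n := by linarith
  have h2 : 0 < log 2 := log_pos (by norm_num)
  have a1 : 3 * log 2 ≤ log (n / k) := by
    have e : 3 * log 2 = log 8 := by
      rw [show (8 : ℝ) = 2 ^ 3 by norm_num, log_pow]; norm_num
    rw [e]
    exact log_le_log (by norm_num) (by rw [le_div_iff₀ hk0]; linarith)
  have a2 : log (n / k) ≤ log n := log_le_log (by positivity) (div_le_self hn0.le hk)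
  have a3 : log (n / k) - log 2 ≤ log (n / (k + 1)) := by
    rw [← log_div (by positivity) (by norm_num)]
    refine log_le_log (by positivity) ?_
    rw [div_div]
    exact div_le_div_of_nonneg_left hn0.le (by linarith) (by linarith)
  have a4 : 0 < log (n / k) := by linarith
  have a5 : 0 < log (n / (k + 1)) := by linarith
  refine ⟨by rw [le_div_iff₀ a4]; linarith, ?_⟩
  have a6 : 0 ≤ log n := by linarith
  have a7 : log n / log (n / (k + 1)) ≤ log n / (2 / 3 * log (n / k)) :=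
    div_le_div_of_nonneg_left a6 (by linarith) (by linarith)
  refine a7.trans (le_of_eq ?_)
  field_simp

theorem ft8_fin {n k c m e z x R A E : ℝ} (hk : 0 ≤ k) (hc : 0 ≤ c) (hcn : c ≤ n) (hm : 0 ≤ m)
    (hz : z ≤ m) (hx : 0 ≤ x) (hA : 2 / 3 ≤ A) (h1 : (k + 1) * (m - z) ≤ m / 2)
    (h2 : (k + 1) * x ≤ E * (c * m)) (hE : E ≤ 5544 * A) (h3 : k * R ≤ n * m)
    (he : e ≤ c * (m - z) + x + R) : k * e ≤ 6000 * (n * m * A) := by
  have hn : 0 ≤ n := hc.trans hcn
  have b0 : c * m ≤ n * m := mul_le_mul_of_nonneg_right hcn hm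
  have b00 : 0 ≤ c * m := mul_nonneg hc hm
  have b1 : k * (m - z) ≤ m / 2 := by nlinarith only [hz, h1]
  have b2 : c * (k * (m - z)) ≤ c * (m / 2) := mul_le_mul_of_nonneg_left b1 hc
  have b3 : E * (c * m) ≤ 5544 * A * (n * m) :=
    (mul_le_mul_of_nonneg_right hE b00).trans
      (mul_le_mul_of_nonneg_left b0 (by linarith))
  have b4 : k * e ≤ k * (c * (m - z) + x + R) := mul_le_mul_of_nonneg_left he hk
  have b5 : 2 / 3 * (n * m) ≤ A * (n * m) := mul_le_mul_of_nonneg_right hA (by positivity)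
  have b6 : 0 ≤ n * m := by positivity
  nlinarith only [hx, h2, h3, b0, b00, b2, b3, b4, b5]

theorem t2_hi : ∃ C : ℝ, 0 < C ∧ ∃ N : ℕ, ∀ n c k m m' : ℕ, N ≤ n → c + k = n →
    m + m' = n.choose c → 1 ≤ k → 8 * k ≤ n → n ∣ c * m → 2 * m' ≤ n.choose c →
    n.choose c ≤ n * m' → C * (log n / log (n / k) * log ((n.choose c : ℝ) / m')) ≤ k →
    ∃ J : Finset (Finset (Fin n)), Reg n c m J ∧ k * ex n c m #(shadow J) ≤
      C * (n * m' * (log n / log (n / k) * log ((n.choose c : ℝ) / m'))) := by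
  obtain ⟨N1, hpar⟩ := t2_par
  obtain ⟨N2, hbig⟩ := Off.big_choose 5 1
  refine ⟨6000, by norm_num, max N1 N2, ?_⟩
  intro n c k m m' hN hk hm hk1 h8 hdvd h2 hC hA0
  have hN1 : N1 ≤ n := (le_max_left _ _).trans hN
  have hN2 : N2 ≤ n := (le_max_right _ _).trans hN
  haveI : NeZero n := ⟨by omega⟩
  have hsym : n.choose c = n.choose k := Nat.choose_symm_of_eq_add hk.symm
  have hCpos : 0 < n.choose c := Nat.choose_pos (by omega)
  have hm'1 : 1 ≤ m' := by
    rcases Nat.eq_zero_or_pos m' with h | h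
    · rw [h, mul_zero] at hC; omega
    · exact h
  have hm1 : 1 ≤ m := by omega
  have rk : (1 : ℝ) ≤ k := by exact_mod_cast hk1
  have r8 : 8 * (k : ℝ) ≤ n := by exact_mod_cast h8
  have rn : (0 : ℝ) < n := by linarith
  have rm' : (0 : ℝ) < m' := by exact_mod_cast hm'1
  have rC : (0 : ℝ) < n.choose c := by exact_mod_cast hCpos
  have r2 : 2 * (m' : ℝ) ≤ n.choose c := by exact_mod_cast h2
  have rC' : (n.choose c : ℝ) ≤ n * m' := by exact_mod_cast hC
  have rck : (c : ℝ) + k = n := by exact_mod_cast hk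
  obtain ⟨g1, g2⟩ := ft8_log rk r8
  set Λ := log (n : ℝ) / log (n / k) with hΛ
  set L := log ((n.choose c : ℝ) / m') with hL
  have hl2 : 2 / 3 ≤ log 2 := by have := log_two_gt_d9; linarith
  have hL2 : log 2 ≤ L := log_le_log (by norm_num) (by rw [le_div_iff₀ rm']; linarith)
  have hA : 2 / 3 ≤ Λ * L := by nlinarith only [g1, hl2, hL2]
  have hk6 : 6 ≤ k := by
    have : (6 : ℝ) ≤ k := by linarith
    exact_mod_cast this
  obtain ⟨ρ, hρ, h12, hρ66, hε⟩ := hpar n (k + 1) hN1 (by omega) (by omega)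
  set μ : ℝ := m' / (2 * n.choose c) with hμ
  have hμ0 : 0 < μ := by positivity
  have hμ1 : μ ≤ 1 := by rw [hμ, div_le_one (by positivity)]; linarith only [rm', r2]
  have hlog : log (1 / μ) = log 2 + L := by
    rw [hL, ← log_mul (by norm_num) (by positivity), hμ]
    congr 1
    field_simp
  have hρ99 : ((6 * ρ : ℕ) : ℝ) ≤ 99 * Λ := by
    have e : ((k + 1 : ℕ) : ℝ) = k + 1 := by push_cast; ring
    rw [e] at hρ66
    linarith only [g2, hρ66]
  have hprod : ((6 * ρ : ℕ) : ℝ) * (1 + log (1 / μ)) ≤ 99 * Λ * (7 / 2 * L) := by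
    refine mul_le_mul hρ99 (by rw [hlog]; linarith only [hl2, hL2]) (by rw [hlog]; linarith) (by linarith)
  have hμC : μ * n.choose c = m' / 2 := by rw [hμ]; field_simp
  have hε' : 2 * ((k + 1 : ℕ) : ℝ) * n * eps n (k + 1) ρ ≤ μ := by
    have e1 : 1 / (2 * (n : ℝ)) ≤ μ := by
      rw [hμ, div_le_div_iff₀ (by positivity) (by positivity)]
      linarith only [rC']
    refine le_trans ?_ e1
    rw [le_div_iff₀ (by positivity)]
    refine le_trans (le_of_eq ?_) hε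
    ring
  have hAA : 8 * ((6 * ρ : ℕ) : ℝ) * (1 + log (1 / μ)) ≤ ((k + 1 : ℕ) : ℝ) := by
    push_cast at hprod ⊢
    nlinarith only [hA0, hA, hprod]
  obtain ⟨T, D, hP, ⟨d, hd⟩, hD, hgap, hexc⟩ := t2_down (n := n) (l := k + 1) hρ h12 (by omega)
    hμ0 hμ1 hAA hε' (t := m')
    (by rw [Nat.add_sub_cancel, ← hsym, mul_assoc, hμC]; linarith only [])
    (by rw [Nat.add_sub_cancel, ← hsym]; omega)
  obtain ⟨J, hJ, hex⟩ := round_co hk (by omega) hm hP hd hm1 hD hdvd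
  refine ⟨J, hJ, ?_⟩
  rw [Nat.add_sub_cancel, ← hsym, hμC] at hgap
  have e1 : ((k + 1 : ℕ) : ℝ) = k + 1 := by push_cast; ring
  rw [e1] at hgap hexc
  have e2 : (n : ℝ) - (k + 1) + 1 = c := by linarith only [rck]
  rw [e2] at hexc
  have h5 : n ^ 5 ≤ n.choose k := hbig n n k hN2 (by omega) (by omega) (by omega)
  have h3 : (k : ℝ) * (((n : ℝ) - c + 1) * (c * (c * n))) ≤ n * m' := by
    have e3 : (n : ℝ) - c + 1 = k + 1 := by linarith only [rck]
    have h6 : k * ((k + 1) * (c * (c * n))) ≤ n * m' := by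
      refine le_trans ?_ (h5.trans (hsym ▸ hC))
      have : n ^ 5 = n * (n * (n * (n * n))) := by ring
      rw [this]
      gcongr <;> omega
    rw [e3]
    exact_mod_cast h6
  refine ft8_fin (E := 16 * ((6 * ρ : ℕ) : ℝ) * (1 + log (1 / μ))) (by linarith only [hA0, hA])
    (Nat.cast_nonneg c) (by linarith only [rck, hA0, hA]) rm'.le (by exact_mod_cast hD) (Nat.cast_nonneg _) hA hgap
    hexc (by nlinarith only [hprod]) h3 hex

end Pool.Agent.P.MP_4f3dfd_co.Ex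
end

-- part Pool.Agent.P.MP_4f3dfd_co.FU3
section

set_option autoImplicit false
set_option linter.unusedSectionVars false
set_option linter.unusedVariables false

namespace Pool.Agent.P.MP_4f3dfd_co.Ex

open Finset Real

variable {V : Type*} [DecidableEq V]

theorem fu3_real {e c m S n w t u d K : ℝ} (hc : 0 < c) (hm : 0 ≤ m) (hS : 0 ≤ S) (hn : 0 ≤ n)
    (hw : 1 ≤ w) (ht : 16 * w < t) (hu : u = t - 1 - 7 * w) (hK : K = w + t - 1)
    (hd : c * m = d * n) (h1 : c * t * S ≤ d * w) (h2 : c ^ 3 * t ≤ 128 * d) (h3 : t ≤ 3 * c * w)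
    (he : e ≤ c * (n * S) + 8 * w * (c * (m + n * S) / u) + K * (c * (c * n))) :
    e * t ≤ 801 * (c * m * w) := by
  have t0 : 0 < t := by linarith
  have u0 : 0 < u := by linarith
  have a1 : c * (n * S) * t ≤ c * m * w := by
    have := mul_le_mul_of_nonneg_left h1 hn
    rw [hd]
    linarith
  have a2 : c * (n * S) ≤ c * m := by
    refine le_of_mul_le_mul_right (a1.trans ?_) t0
    exact mul_le_mul_of_nonneg_left (by linarith) (by positivity)
  have a3 : c * (m + n * S) / u * t ≤ 4 * (c * m) := by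
    rw [div_mul_eq_mul_div, div_le_iff₀ u0]
    calc c * (m + n * S) * t ≤ 2 * (c * m) * (2 * u) :=
          mul_le_mul (by linarith) (by linarith) t0.le (by positivity)
      _ = _ := by ring
  have a4 : K * (c * (c * n)) * t ≤ 768 * (c * m * w) := by
    calc K * (c * (c * n)) * t ≤ 2 * t * (c * (c * n)) * (3 * c * w) :=
          mul_le_mul (mul_le_mul_of_nonneg_right (by linarith) (by positivity)) h3 t0.le
            (by positivity)
      _ = 6 * n * w * (c ^ 3 * t) := by ring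
      _ ≤ 6 * n * w * (128 * d) := mul_le_mul_of_nonneg_left h2 (by positivity)
      _ = _ := by rw [hd]; ring
  have a5 := mul_le_mul_of_nonneg_left a3 (show 0 ≤ 8 * w by linarith)
  have a6 := mul_le_mul_of_nonneg_right he t0.le
  linarith

theorem fu3_star {n c m d x : ℕ} (h : Par n c d x) (hm : c * m = d * n) (h2m : 2 * m ≤ n.choose c)
    (hB : 16 * ((n : ℝ) - x) < (x : ℝ) - c + 2)
    (hS : n / ((n : ℝ) - x + 1) ≤ Lam n c d ∨ 2 * log (n / c) ≤ 7 * lg n c d) :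
    ∃ J : Finset (Finset (Fin n)), Reg n c m J ∧
      ex n c m #(shadow J) * ((x : ℝ) - c + 2) ≤ 801 * (c * m * ((n : ℝ) - x)) := by
  obtain ⟨hm1, hmC, -, -, hiff⟩ := h.size hm
  have h2d := hiff.1 h2m
  have hc2 := h.hc
  have hx := h.hx
  have hB' : 16 * n + c < 17 * x + 2 := by
    have : (16 : ℝ) * n + c < 17 * x + 2 := by linarith
    exact_mod_cast this
  obtain ⟨y, hy⟩ : ∃ y, y + 7 * n = 8 * x := ⟨8 * x - 7 * n, by omega⟩
  have hyR : (y : ℝ) + 7 * n = 8 * x := by exact_mod_cast hy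
  have h1 := star_num h h2d hB hS
  rw [show x - 1 - 7 * (n - x) = y - 1 by omega] at h1
  obtain ⟨h2, h3⟩ := err_num h h2d hB
  obtain ⟨J, hJ, hle⟩ := star_lo (n := n) (c := c) (m := m) (y := y) (by omega) (by omega)
    (by omega) hm1 hmC.le ⟨d, by rw [hm, mul_comm]⟩
  rw [show (n : ℝ) - y = 8 * ((n : ℝ) - x) by linarith] at hle
  refine ⟨J, hJ, fu3_real (by positivity) (by positivity) (by positivity) (by positivity) ?_ hB
    (by linarith) (by ring) (by exact_mod_cast hm) h1 h2 h3 hle⟩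
  have : (x : ℝ) + 1 ≤ n := by exact_mod_cast hx
  linarith

theorem up_lo_order : ∃ C : ℝ, 0 < C ∧
    ∀ n c m d x : ℕ, Par n c d x → c * m = d * n → 2 * m ≤ n.choose c →
      ∃ J : Finset (Finset (Fin n)), Reg n c m J ∧ ex n c m #(shadow J) ≤ C * eL n c m x := by
  obtain ⟨C1, hC1, H1⟩ := upper_first
  obtain ⟨C2, hC2, N, H2⟩ := t2_lo
  refine ⟨17 * C1 + 801 + (N : ℝ) ^ 2 + 2 * C2 + 2 * C1 * C2, by positivity,
    fun n c m d x h hm h2m => ?_⟩
  obtain ⟨hm1, hmC, -, hlg, hiff⟩ := h.size hm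
  have h2d := hiff.1 h2m
  have hc2 := h.hc
  have hcn := h.hcn
  have hx := h.hx
  have hcx := h.c_le
  have hdvd : n ∣ c * m := ⟨d, by rw [hm, mul_comm]⟩
  have hw : (1 : ℝ) ≤ (n : ℝ) - x := by
    have : (x : ℝ) + 1 ≤ n := by exact_mod_cast hx
    linarith
  have ht : (1 : ℝ) ≤ (x : ℝ) - c + 2 := by
    have : (c : ℝ) ≤ x + 1 := by exact_mod_cast hcx
    linarith
  have hcR : (2 : ℝ) ≤ c := by exact_mod_cast hc2
  have hmR : (1 : ℝ) ≤ m := by exact_mod_cast hm1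
  have hP : (0 : ℝ) ≤ c * m := by positivity
  have hQ : (0 : ℝ) ≤ c * m * ((n : ℝ) - x) := mul_nonneg hP (by linarith)
  have fin : ∀ C' : ℝ, C' ≤ 17 * C1 + 801 + (N : ℝ) ^ 2 + 2 * C2 + 2 * C1 * C2 → ∀ e : ℝ,
      e * ((x : ℝ) - c + 2) ≤ C' * (c * m * ((n : ℝ) - x)) →
      e ≤ (17 * C1 + 801 + (N : ℝ) ^ 2 + 2 * C2 + 2 * C1 * C2) * eL n c m x := fun C' h1 e h2 => by
    rw [eL, ← mul_div_assoc, le_div_iff₀ (by linarith)]
    exact h2.trans (mul_le_mul_of_nonneg_right h1 hQ)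
  have p1 : 0 ≤ (N : ℝ) ^ 2 := by positivity
  have p2 : 0 ≤ C1 * C2 := by positivity
  rcases le_or_gt ((x : ℝ) - c + 2) (16 * ((n : ℝ) - x)) with hA | hB
  · obtain ⟨J, hJ, hle⟩ := H1 n c m d x h hm
    refine ⟨J, hJ, fin (17 * C1) (by linarith) _ (hle.trans ?_)⟩
    have h3 : ((n : ℝ) - c + 1) * (c * m) ≤ 17 * ((n : ℝ) - x) * (c * m) :=
      mul_le_mul_of_nonneg_right (by linarith) hP
    have := mul_le_mul_of_nonneg_left h3 hC1.le
    linarith
  by_cases hS : n / ((n : ℝ) - x + 1) ≤ Lam n c d ∨ 2 * log (n / c) ≤ 7 * lg n c d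
  · obtain ⟨J, hJ, hle⟩ := fu3_star h hm h2m hB hS
    exact ⟨J, hJ, fin 801 (by linarith) _ hle⟩
  obtain ⟨hS1, hS2⟩ := not_or.1 hS
  obtain ⟨w1, w2, w3⟩ := t2_width h h2d hB (not_le.1 hS1).le (not_le.1 hS2).le
  have htn : (x : ℝ) - c + 2 ≤ n := by linarith
  rcases lt_or_ge n N with hN | hN
  · obtain ⟨J, hJ, -, hle⟩ := triv_up (m' := n.choose c - m) (by omega) (by omega) hm1
      (by omega) hdvd
    refine ⟨J, hJ, fin ((N : ℝ) ^ 2) (by linarith) _ ?_⟩
    have hNR : (n : ℝ) ≤ N := by exact_mod_cast hN.le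
    calc _ ≤ n * (c * m) * ((x : ℝ) - c + 2) := mul_le_mul_of_nonneg_right hle (by linarith)
      _ ≤ N * (c * m) * N :=
        mul_le_mul (mul_le_mul_of_nonneg_right hNR hP) (htn.trans hNR) (by linarith) (by positivity)
      _ = (N : ℝ) ^ 2 * (c * m * 1) := by ring
      _ ≤ _ := mul_le_mul_of_nonneg_left (mul_le_mul_of_nonneg_left hw hP) p1
  have hA0 : 0 ≤ log n / log (n / c) * lg n c d := by
    have h8 : (8 : ℝ) * c ≤ n := by exact_mod_cast w2
    exact mul_nonneg (div_nonneg (log_nonneg (by linarith))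
      (log_nonneg (by rw [le_div_iff₀ (by linarith)]; linarith))) h.lg_pos.le
  rcases le_or_gt (C2 * (log n / log (n / c) * lg n c d)) c with hc | hc
  · have hCn : n.choose c ≤ n * m := by
      have hCpos : (0 : ℝ) < n.choose c := by exact_mod_cast (by omega : 0 < n.choose c)
      rw [hlg, log_le_log_iff (by positivity) (by linarith), div_le_iff₀ (by linarith)] at w3
      exact_mod_cast w3
    obtain ⟨J, hJ, hle⟩ := H2 n c m hN (by omega) w2 hdvd h2m hCn (by rwa [← hlg])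
    rw [← hlg] at hle
    refine ⟨J, hJ, fin (2 * C2) (by linarith) _ ?_⟩
    generalize log n / log (n / c) * lg n c d = A0 at *
    calc _ ≤ C2 * (m * A0) * ((x : ℝ) - c + 2) := mul_le_mul_of_nonneg_right hle (by linarith)
      _ ≤ C2 * (m * A0) * n := mul_le_mul_of_nonneg_left htn (by positivity)
      _ = C2 * m * (n * A0) := by ring
      _ ≤ C2 * m * (2 * (c * ((n : ℝ) - x))) := mul_le_mul_of_nonneg_left w1 (by positivity)
      _ = _ := by ring
  · obtain ⟨J, hJ, hle⟩ := H1 n c m d x h hm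
    refine ⟨J, hJ, fin (2 * C1 * C2) (by linarith) _ (hle.trans ?_)⟩
    generalize log n / log (n / c) * lg n c d = A0 at *
    have h3 : ((n : ℝ) - c + 1) * c ≤ C2 * (2 * (c * ((n : ℝ) - x))) :=
      calc _ ≤ n * (C2 * A0) := mul_le_mul (by linarith) hc.le (by linarith) (by linarith)
        _ = C2 * (n * A0) := by ring
        _ ≤ _ := mul_le_mul_of_nonneg_left w1 hC2.le
    calc _ = C1 * m * (((n : ℝ) - c + 1) * c) := by ring
      _ ≤ C1 * m * (C2 * (2 * (c * ((n : ℝ) - x)))) := mul_le_mul_of_nonneg_left h3 (by positivity)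
      _ = _ := by ring

end Pool.Agent.P.MP_4f3dfd_co.Ex
end

-- part Pool.Agent.P.MP_4f3dfd_co.FU6
section

set_option autoImplicit false
set_option linter.unusedSectionVars false
set_option linter.unusedVariables false

namespace Pool.Agent.P.MP_4f3dfd_co.Ex

open Finset Real

variable {V : Type*} [DecidableEq V]

theorem fu6_mid {e w t A u v B : ℝ} (he : 0 < e) (he1 : e ≤ 1 / 16) (ht : 0 < t) (hw : 0 ≤ w)
    (hA : 0 ≤ A) (hu : u ≤ (1 + e) * w) (hv : (1 - e) * t ≤ v) (hB0 : 0 ≤ B)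
    (hB : B ≤ (1 + e) * A) : u * (B / v) ≤ (1 + 4 * e) * (A * w / t) := by
  have h1 : 0 < (1 - e) * t := mul_pos (by linarith) ht
  have hv0 : 0 < v := h1.trans_le hv
  have h2 : B / v ≤ (1 + e) * A / ((1 - e) * t) :=
    div_le_div₀ (by positivity) hB h1 hv
  have h3 : (1 + e) * (1 + e) / (1 - e) ≤ 1 + 4 * e := by
    rw [div_le_iff₀ (by linarith)]
    nlinarith only [he, he1]
  have h4 : 0 < 1 - e := by linarith
  calc u * (B / v) ≤ (1 + e) * w * ((1 + e) * A / ((1 - e) * t)) :=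
        mul_le_mul hu h2 (by positivity) (by positivity)
    _ = (1 + e) * (1 + e) / (1 - e) * (A * w / t) := by field_simp
    _ ≤ _ := mul_le_mul_of_nonneg_right h3 (by positivity)

theorem up_lo_sharp (ε : ℝ) (hε : 0 < ε) : ∃ K : ℝ, 0 < K ∧
    ∀ n c m d x : ℕ, Par n c d x → c * m = d * n → K * min (bb n c) (log c) ≤ lg n c d → K ≤ (x : ℝ) - c + 2 →
      ∃ J : Finset (Finset (Fin n)), Reg n c m J ∧ ex n c m #(shadow J) ≤ (1 + ε) * eL n c m x := by
  obtain ⟨e, he, he1, he2⟩ : ∃ e : ℝ, 0 < e ∧ e ≤ 1 / 16 ∧ 16 * e ≤ ε :=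
    ⟨min ε 1 / 16, by have := lt_min hε one_pos; positivity,
      by have := min_le_right ε 1; linarith, by have := min_le_left ε 1; linarith⟩
  obtain ⟨K0, hK0, H0⟩ := up_lo_wide ε e hε he
  obtain ⟨K1, hK1, H1⟩ := one_scale e he
  obtain ⟨K2, hK2, H2⟩ := two_scale e K1 he hK1
  refine ⟨2 * K0 + K1 + K2 + 1, by positivity, fun n c m d x h hm hL hK => ?_⟩
  obtain ⟨hm1, hmC, hdm, hlg, -⟩ := h.size hm
  have hc2 := h.hc
  have hx := h.hx
  have hcx := h.c_le
  have l2 := Real.log_two_gt_d9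
  have hc2' : (2 : ℝ) ≤ c := by exact_mod_cast hc2
  have hlc : log 2 ≤ log c := log_le_log (by norm_num) hc2'
  have hb := h.log_two_le_bb
  have hmin : log 2 ≤ min (bb n c) (log c) := le_min (by linarith) hlc
  have hL2 : (2 * K0 + K1 + K2 + 1) * log 2 ≤ lg n c d :=
    (mul_le_mul_of_nonneg_left hmin (by positivity)).trans hL
  have hw : (1 : ℝ) ≤ (n : ℝ) - x := by
    have : ((x + 1 : ℕ) : ℝ) ≤ n := by exact_mod_cast hx
    push_cast at this
    linarith
  have ht : (1 : ℝ) ≤ (x : ℝ) - c + 2 := by linarith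
  by_cases hwide : e * ((x : ℝ) - c + 2) ≤ (n : ℝ) - x
  · have f1 : (2 * K0 + K1 + K2 + 1) * (1 / 2) ≤ (2 * K0 + K1 + K2 + 1) * log 2 :=
      mul_le_mul_of_nonneg_left (by linarith) (by positivity)
    exact H0 n c m d x h hm (by linarith) (by linarith) hwide
  have hwide := not_le.1 hwide
  have hdvd : n ∣ c * m := ⟨d, by rw [hm, mul_comm]⟩
  have hmR : (c : ℝ) * m = d * n := by exact_mod_cast hm
  obtain ⟨w, hwd⟩ : ∃ w : ℝ, w = (n : ℝ) - x := ⟨_, rfl⟩
  obtain ⟨t, htd⟩ : ∃ t : ℝ, t = (x : ℝ) - c + 2 := ⟨_, rfl⟩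
  have hE : eL n c m x = c * m * w / t := by rw [hwd, htd]; rfl
  rw [← hwd] at hw hwide
  rw [← htd] at ht hwide
  have ht0 : 0 < t := by linarith
  have hn0 : (0 : ℝ) < n := by
    have : (0 : ℝ) ≤ x := Nat.cast_nonneg _
    linarith
  have hd0 : (0 : ℝ) ≤ d := Nat.cast_nonneg _
  have hm0 : (0 : ℝ) ≤ m := Nat.cast_nonneg _
  have hE0 : 0 ≤ (c : ℝ) * m * w / t := by positivity
  have key : ∀ z : ℝ, z * t ≤ e * (d * n * w) → z ≤ e * (c * m * w / t) := fun z hz => by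
    rw [hmR, ← mul_div_assoc, le_div_iff₀ ht0]
    exact hz
  have hεE := mul_le_mul_of_nonneg_right he2 hE0
  have heE := mul_nonneg he.le hE0
  by_cases hone : K1 * log c ≤ lg n c d
  · obtain ⟨y, a1, a2, a3, a4, a5, a6⟩ := H1 n c d x h hone (by
      rw [← hwd, ← htd]
      have f1 := mul_le_mul_of_nonneg_right he1 ht0.le
      have f2 := mul_le_mul_of_nonneg_right he1 (show 0 ≤ w by linarith)
      linarith)
    obtain ⟨J, hJ, hb⟩ := star_lo (n := n) (m := m) (by omega) a1 (by omega) hm1 hmC.le hdvd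
    refine ⟨J, hJ, hb.trans ?_⟩
    have e1 : (n : ℝ) - c + 2 = w + t := by rw [hwd, htd]; ring
    have e2 : (n : ℝ) - c + 1 = w + t - 1 := by rw [hwd, htd]; ring
    rw [e1] at a5 a6
    rw [← hwd] at a3 a5
    rw [← htd] at a4
    rw [hE, e2]
    obtain ⟨P, hP⟩ : ∃ P : ℝ, P = ((y - 1).choose (c - 1) : ℕ) := ⟨_, rfl⟩
    rw [← hP] at a5 ⊢
    have hP0 : 0 ≤ P := by rw [hP]; positivity
    have b0 : (c : ℝ) * (n * P) * (w + t) ≤ e * (d * n * w) := by
      have := mul_le_mul_of_nonneg_left a5 hn0.le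
      linarith only [this]
    have bp : 0 ≤ (c : ℝ) * (n * P) := by positivity
    have bw := mul_nonneg bp (show 0 ≤ w by linarith)
    have bt' := mul_nonneg bp ht0.le
    have b1 := key ((c : ℝ) * (n * P)) (by linarith)
    have b2 : (c : ℝ) * (n * P) ≤ e * (c * m) := by
      rw [hmR]
      refine le_of_mul_le_mul_right (a := w) ?_ (by linarith only [he, he1, hw])
      linarith
    have b3 := fu6_mid (A := c * m) (B := c * (m + n * P)) he he1 ht0 (by linarith)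
      (by positivity) a3 a4 (by positivity) (by linarith)
    have b4 := key ((w + t - 1) * (c * (c * n))) (by
      have f1 : (w + t - 1) * t ≤ (w + t) ^ 2 := by
        rw [sq]
        exact mul_le_mul (by linarith only [he, he1]) (by linarith only [he, he1, hw]) ht0.le (by linarith only [he, he1, hK0, hK1, hK2, hK, hw, htd])
      have f2 : (0 : ℝ) ≤ (c : ℝ) ^ 2 * n := by positivity
      have f3 := mul_le_mul_of_nonneg_right f1 f2
      have f4 := mul_le_mul_of_nonneg_right a6 hn0.le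
      have f5 : e * d * n * 1 ≤ e * d * n * w := mul_le_mul_of_nonneg_left hw (by positivity)
      linarith only [f3, f4, f5])
    linarith only [hεE, heE, b1, b3, b4]
  · have hone := not_le.1 hone
    have hbL : K2 * bb n c ≤ lg n c d := by
      rcases le_total (bb n c) (log c) with hh | hh
      · rw [min_eq_left hh] at hL
        exact (mul_le_mul_of_nonneg_right (by linarith) (by linarith)).trans hL
      · rw [min_eq_right hh] at hL
        have f1 : K1 * log c ≤ (2 * K0 + K1 + K2 + 1) * log c :=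
          mul_le_mul_of_nonneg_right (by linarith) (by linarith)
        linarith
    obtain ⟨y1, y2, a1, a2, a3, a4, a5, a6, a7, -, a8, a9⟩ := H2 n c d x h hbL hone.le
    have hm0' : (0 : ℝ) < m := by exact_mod_cast hm1
    have h2m : 2 * (m : ℝ) ≤ n.choose c := by
      have f1 : log 2 ≤ log ((n.choose c : ℝ) / m) := by
        rw [← hlg]
        exact (le_mul_of_one_le_left (by linarith) (by linarith)).trans hL2
      have f2 : (0 : ℝ) < n.choose c := hm0'.trans (by exact_mod_cast hmC)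
      rwa [log_le_log_iff (by norm_num) (by positivity), le_div_iff₀ hm0'] at f1
    have hdm' : (d : ℝ) ≤ m := by exact_mod_cast hdm
    have b0 : (c : ℝ) * (n * y2.choose c) ≤ e * d := by
      have f1 : y2.choose c * c = y2.choose (c - 1) * (y2 - (c - 1)) := by
        have := Nat.choose_succ_right_eq y2 (c - 1)
        rwa [Nat.sub_add_cancel (by omega)] at this
      have f2 : y2.choose c * c ≤ y2.choose (c - 1) * n := by
        rw [f1]
        exact Nat.mul_le_mul_left _ (by omega)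
      have f3 : (y2.choose c : ℝ) * c ≤ y2.choose (c - 1) * n := by exact_mod_cast f2
      have f4 := mul_le_mul_of_nonneg_left f3 hn0.le
      linarith only [a7, f4]
    have bp : (0 : ℝ) ≤ n * y2.choose c := by positivity
    have hS : m + n * y2.choose c ≤ n.choose c := by
      have f1 := mul_le_mul_of_nonneg_right hc2' bp
      have f2 := mul_le_mul_of_nonneg_right he1 hd0
      have : (m : ℝ) + n * y2.choose c ≤ n.choose c := by linarith only [hm0', h2m, hdm', b0, f1, f2]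
      exact_mod_cast this
    obtain ⟨J, hJ, hb⟩ := upper_lo_raw (n := n) (m := m) (by omega) a1 a2 (by omega) hm1 hS hdvd
    refine ⟨J, hJ, hb.trans ?_⟩
    rw [← hwd] at a4 a6
    rw [← htd] at a5 a8
    rw [hE]
    have htn : t ≤ n * w := by
      have : t ≤ n := by linarith only [he, he1, hc2', hw, hwd, htd]
      exact this.trans (le_mul_of_one_le_right hn0.le hw)
    have b1 := key (e * d) (by
      have := mul_le_mul_of_nonneg_left htn (show 0 ≤ e * d by positivity)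
      linarith only [this])
    have b3 := fu6_mid (A := c * m) (B := c * (m + n * y2.choose c)) he he1 ht0 (by linarith)
      (by positivity) a4 a5 (by positivity) (by
        have f1 : (d : ℝ) ≤ c * m := hdm'.trans (le_mul_of_one_le_left hm0 (by linarith only [he, he1, hc2']))
        have f2 := mul_le_mul_of_nonneg_left f1 he.le
        linarith only [b0, f2])
    have b4 := key (w * (n * y1.choose (c - 1))) (by
      have := mul_le_mul_of_nonneg_left a8 (show 0 ≤ n * w by positivity)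
      linarith)
    have b5 : ((n : ℝ) - y2) * (n * y1.choose (c - 1)) ≤ 7 * w * (n * y1.choose (c - 1)) :=
      mul_le_mul_of_nonneg_right a6 (by positivity)
    have b6 : (n : ℝ) ^ 4 ≤ (n : ℝ) ^ 5 :=
      pow_le_pow_right₀ (by exact_mod_cast (show 1 ≤ n by omega)) (by norm_num)
    linarith only [hεE, heE, a9, b0, b1, b3, b4, b5, b6]

end Pool.Agent.P.MP_4f3dfd_co.Ex
end

-- part Pool.Agent.P.MP_4f3dfd_co.FU7
section

set_option autoImplicit false
set_option linter.unusedSectionVars false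
set_option linter.unusedVariables false

namespace Pool.Agent.P.MP_4f3dfd_co.Ex

open Finset Real

variable {V : Type*} [DecidableEq V]

theorem fu7_one {e n c k m' d w u B : ℝ} (he : 0 < e) (hn : 0 ≤ n) (hc : 0 ≤ c) (hk : 1 ≤ k)
    (hm : 0 ≤ m') (hd : k * m' = d * n) (hw : 1 ≤ w) (hB : 0 ≤ B) (hu : u ≤ (1 + e) * w)
    (h1 : k * (c + 2) * B ≤ e * (d * w)) (h2 : k ^ 2 * (c + 2) ^ 2 ≤ e * d) :
    c * (n * B) + u * m' + (k + 1) * (c * (c * n)) ≤ (1 + 4 * e) * (m' * w) := by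
  have hk0 : 0 < k := by linarith
  have t1 : c * (n * B) ≤ e * (m' * w) := by
    apply le_of_mul_le_mul_left _ hk0
    have a1 : k * c * B ≤ k * (c + 2) * B :=
      mul_le_mul_of_nonneg_right (mul_le_mul_of_nonneg_left (by linarith) hk0.le) hB
    have a2 : n * (k * c * B) ≤ n * (e * (d * w)) := mul_le_mul_of_nonneg_left (a1.trans h1) hn
    calc k * (c * (n * B)) = n * (k * c * B) := by ring
      _ ≤ n * (e * (d * w)) := a2
      _ = e * (d * n) * w := by ring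
      _ = e * (k * m') * w := by rw [hd]
      _ = k * (e * (m' * w)) := by ring
  have t2 : u * m' ≤ (1 + e) * w * m' := mul_le_mul_of_nonneg_right hu hm
  have t3 : (k + 1) * (c * (c * n)) ≤ 2 * e * m' := by
    apply le_of_mul_le_mul_left _ hk0
    have a1 : c ^ 2 ≤ (c + 2) ^ 2 := by nlinarith
    have a2 : k * (k + 1) ≤ 2 * k ^ 2 := by nlinarith
    have a3 : k * (k + 1) * c ^ 2 ≤ 2 * k ^ 2 * (c + 2) ^ 2 :=
      mul_le_mul a2 a1 (by positivity) (by positivity)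
    have a4 : k * (k + 1) * c ^ 2 ≤ 2 * (e * d) := by linarith
    calc k * ((k + 1) * (c * (c * n))) = k * (k + 1) * c ^ 2 * n := by ring
      _ ≤ 2 * (e * d) * n := mul_le_mul_of_nonneg_right a4 hn
      _ = 2 * e * (d * n) := by ring
      _ = 2 * e * (k * m') := by rw [hd]
      _ = k * (2 * e * m') := by ring
  have t4 : 2 * e * m' * 1 ≤ 2 * e * m' * w := mul_le_mul_of_nonneg_left hw (by positivity)
  nlinarith

theorem fu7_two {e n c k m' d w t u v s1 s2 A1 A2 B1 B2 : ℝ} (he : 0 < e) (hn : 1 ≤ n)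
    (hc : 0 ≤ c) (hcn : c ≤ n) (hk : 1 ≤ k) (hm : 0 ≤ m') (hd : k * m' = d * n) (hdm : d ≤ m')
    (hw : 1 ≤ w) (hu : u ≤ (1 + e) * w) (hv0 : 0 ≤ v) (hv : v ≤ 7 * w)
    (hB1 : 0 ≤ B1) (hB2 : 0 ≤ B2) (hA1 : k * A1 = s1 * B1) (hA2 : k * A2 = s2 * B2)
    (hs10 : 0 ≤ s1) (hs1 : s1 ≤ t) (hs20 : 0 ≤ s2) (hs2 : s2 ≤ n)
    (h1 : n ^ 2 * B2 ≤ e * d) (h2 : t * B1 ≤ e * d) (h3 : n ^ 5 ≤ e * d) :
    c * (n * A2) + u * m' + v * (n * A1) + n ^ 4 ≤ (1 + 10 * e) * (m' * w) := by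
  have hk0 : 0 < k := by linarith
  have hn0 : 0 ≤ n := by linarith
  have t1 : c * (n * A2) ≤ e * m' := by
    apply le_of_mul_le_mul_left _ hk0
    have a1 : c * s2 ≤ n * n := mul_le_mul hcn hs2 hs20 hn0
    have a2 : c * s2 * B2 ≤ n * n * B2 := mul_le_mul_of_nonneg_right a1 hB2
    have a3 : c * s2 * B2 ≤ e * d := by nlinarith
    calc k * (c * (n * A2)) = n * c * (k * A2) := by ring
      _ = n * (c * s2 * B2) := by rw [hA2]; ring
      _ ≤ n * (e * d) := mul_le_mul_of_nonneg_left a3 hn0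
      _ = e * (d * n) := by ring
      _ = e * (k * m') := by rw [hd]
      _ = k * (e * m') := by ring
  have t2 : u * m' ≤ (1 + e) * w * m' := mul_le_mul_of_nonneg_right hu hm
  have t3 : v * (n * A1) ≤ 7 * e * (m' * w) := by
    apply le_of_mul_le_mul_left _ hk0
    have a1 : s1 * B1 ≤ e * d := (mul_le_mul_of_nonneg_right hs1 hB1).trans h2
    have a2 : v * (s1 * B1) ≤ 7 * w * (e * d) :=
      mul_le_mul hv a1 (by positivity) (by linarith)
    calc k * (v * (n * A1)) = n * (v * (k * A1)) := by ring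
      _ = n * (v * (s1 * B1)) := by rw [hA1]
      _ ≤ n * (7 * w * (e * d)) := mul_le_mul_of_nonneg_left a2 hn0
      _ = 7 * e * w * (d * n) := by ring
      _ = 7 * e * w * (k * m') := by rw [hd]
      _ = k * (7 * e * (m' * w)) := by ring
  have t4 : n ^ 4 ≤ e * m' := by
    have a1 : n ^ 4 ≤ n ^ 5 := pow_le_pow_right₀ hn (by norm_num)
    have a2 : e * d ≤ e * m' := mul_le_mul_of_nonneg_left hdm he.le
    linarith
  have t5 : e * m' * 1 ≤ e * m' * w := mul_le_mul_of_nonneg_left hw (by positivity)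
  nlinarith

theorem up_hi_sharp (ε : ℝ) (hε : 0 < ε) : ∃ K : ℝ, 0 < K ∧
    ∀ n c k m m' d y : ℕ, c + k = n → m + m' = n.choose c → Par n k d y → k * m' = d * n →
      n ∣ c * m → K * min (bb n k) (log k) ≤ lg n k d →
      ∃ J : Finset (Finset (Fin n)), Reg n c m J ∧ ex n c m #(shadow J) ≤ (1 + ε) * (m' * ((n : ℝ) - y)) := by
  set e : ℝ := min ε 1 / 16 with he_def
  have hmin : 0 < min ε 1 := lt_min hε one_pos
  have he : 0 < e := by positivity
  have he1 : e ≤ 1 / 16 := by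
    have := min_le_right ε 1
    linarith
  have heε : 16 * e ≤ ε := by
    have := min_le_left ε 1
    linarith
  obtain ⟨K1, hK1, H1⟩ := one_scale e he
  obtain ⟨K2, hK2, H2⟩ := two_scale e K1 he hK1
  refine ⟨max K1 K2, lt_max_of_lt_left hK1, ?_⟩
  intro n c k m m' d y hk hm hP hd hdvd hK
  have hk2 := hP.hc
  have hkn := hP.hcn
  have hyn := hP.hx
  have hky := hP.c_le
  obtain ⟨hm1, hm2, hdm, -, -⟩ := hP.size hd
  have hsym : n.choose k = n.choose c := by
    rw [← hk]; exact (Nat.choose_symm_add).symm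
  have hm0 : 1 ≤ m := by omega
  have hc1 : 1 ≤ c := by omega
  have hcn : c ≤ n := by omega
  have hkR : (c : ℝ) + k = n := by exact_mod_cast hk
  have hdR : (k : ℝ) * m' = d * n := by exact_mod_cast hd
  have hdmR : (d : ℝ) ≤ m' := by exact_mod_cast hdm
  have hw : (1 : ℝ) ≤ (n : ℝ) - y := by
    have : (y : ℝ) + 1 ≤ n := by exact_mod_cast hyn
    linarith
  have hkyR : (k : ℝ) ≤ y + 1 := by exact_mod_cast hky
  have hk1R : (1 : ℝ) ≤ k := by exact_mod_cast (by omega : 1 ≤ k)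
  have hn1R : (1 : ℝ) ≤ n := by exact_mod_cast (by omega : 1 ≤ n)
  have hc0 : (0 : ℝ) ≤ c := Nat.cast_nonneg c
  have hm'0 : (0 : ℝ) ≤ m' := Nat.cast_nonneg m'
  have hd0 : (0 : ℝ) ≤ d := Nat.cast_nonneg d
  have hmw : (0 : ℝ) ≤ m' * ((n : ℝ) - y) := mul_nonneg hm'0 (by linarith)
  by_cases ht : (y : ℝ) - k + 2 ≤ e * ((n : ℝ) - y)
  · obtain ⟨J, hJ, h1, -⟩ := triv_up hc1 hcn hm0 hm hdvd
    refine ⟨J, hJ, h1.trans ?_⟩
    have a1 : (c : ℝ) ≤ (1 + e) * ((n : ℝ) - y) := by linarith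
    have a2 := mul_le_mul_of_nonneg_right a1 hm'0
    have a3 : (1 + e) * (m' * ((n : ℝ) - y)) ≤ (1 + ε) * (m' * ((n : ℝ) - y)) :=
      mul_le_mul_of_nonneg_right (by linarith) hmw
    linarith
  have ht' : e * ((n : ℝ) - y) ≤ (y : ℝ) - k + 2 := (not_le.1 ht).le
  by_cases hL : K1 * log k ≤ lg n k d
  · obtain ⟨y', g1, g2, g3, g4, g5, g6⟩ := H1 n k d y hP hL ht'
    have ec : (n : ℝ) - k + 2 = c + 2 := by linarith
    rw [ec] at g5 g6
    have hB : (0 : ℝ) ≤ (y' - 1).choose (k - 1) := Nat.cast_nonneg _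
    have hS : n * (y' - 1).choose (k - 1) ≤ m' := by
      have b1 : (n : ℝ) - y ≤ c + 2 := by linarith
      have b2 : e * (d * ((n : ℝ) - y)) ≤ 1 * (d * (c + 2)) :=
        mul_le_mul (by linarith) (mul_le_mul_of_nonneg_left b1 hd0)
          (mul_nonneg hd0 (by linarith)) (by norm_num)
      have b3 : ((k : ℝ) * (y' - 1).choose (k - 1)) * (c + 2) ≤ d * (c + 2) := by linarith
      have b4 : (k : ℝ) * (y' - 1).choose (k - 1) ≤ d :=
        le_of_mul_le_mul_right b3 (by linarith)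
      have b5 : (k : ℝ) * (n * (y' - 1).choose (k - 1)) ≤ k * m' := by
        have := mul_le_mul_of_nonneg_right b4 (by linarith : (0 : ℝ) ≤ n)
        linarith
      have b6 : (n : ℝ) * (y' - 1).choose (k - 1) ≤ m' :=
        le_of_mul_le_mul_left b5 (by linarith)
      exact_mod_cast b6
    obtain ⟨J, hJ, h1⟩ := star_hi hk hc1 (by omega) g1 (by omega) hm0 hm hdvd hS
    refine ⟨J, hJ, h1.trans ?_⟩
    have ek : (n : ℝ) - c + 1 = k + 1 := by linarith
    rw [ek]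
    have key := fu7_one (u := (n : ℝ) - y') he (by linarith : (0 : ℝ) ≤ n) hc0 hk1R hm'0 hdR hw hB
      g3 g5 g6
    have a3 : (1 + 4 * e) * (m' * ((n : ℝ) - y)) ≤ (1 + ε) * (m' * ((n : ℝ) - y)) :=
      mul_le_mul_of_nonneg_right (by linarith) hmw
    exact key.trans a3
  · have hL' : lg n k d < K1 * log k := not_le.1 hL
    have hlk : 0 ≤ log (k : ℝ) := log_nonneg hk1R
    have hb0 : 0 ≤ bb n k := by
      have := hP.log_two_le_bb
      have h2 : 0 < log (2 : ℝ) := log_pos (by norm_num)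
      linarith
    have hbb : K2 * bb n k ≤ lg n k d := by
      rcases le_total (bb n k) (log k) with h | h
      · rw [min_eq_left h] at hK
        exact (mul_le_mul_of_nonneg_right (le_max_right K1 K2) hb0).trans hK
      · rw [min_eq_right h] at hK
        have := mul_le_mul_of_nonneg_right (le_max_left K1 K2) hlk
        linarith
    obtain ⟨y1, y2, g1, g2, g3, g4, g5, g6, g7, g8, g9, g10⟩ := H2 n k d y hP hbb hL'.le
    have hnc : n - c = k := by omega
    obtain ⟨J, hJ, h1⟩ := upper_hi_raw (n := n) (c := c) (m := m) (y1 := y1) (y2 := y2) hc1 hcn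
      (by omega) g2 (by omega) hm0 (by omega) hdvd
    refine ⟨J, hJ, h1.trans ?_⟩
    have em : (n.choose c : ℝ) - m = m' := by
      rw [← hm]; push_cast; ring
    rw [hnc, em]
    have g1' : (k : ℝ) ≤ y2 := by exact_mod_cast g1
    have g2' : (y2 : ℝ) ≤ y1 := by exact_mod_cast g2
    have g3' : (y1 : ℝ) ≤ y := by exact_mod_cast g3
    have key := fu7_two (u := (n : ℝ) - y1) (v := (n : ℝ) - y2) (t := (y : ℝ) - k + 2)
      (s1 := (y1 : ℝ) - k + 1) (s2 := (y2 : ℝ) - k + 1) (A1 := y1.choose k) (A2 := y2.choose k)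
      (B1 := y1.choose (k - 1)) (B2 := y2.choose (k - 1)) he hn1R hc0 (by linarith) hk1R hm'0 hdR
      hdmR hw g4 (by linarith) g6 (Nat.cast_nonneg _) (Nat.cast_nonneg _)
      (choose_pred (by omega)) (choose_pred (by omega)) (by linarith) (by linarith) (by linarith)
      (by linarith) g7 g9 g10
    have a3 : (1 + 10 * e) * (m' * ((n : ℝ) - y)) ≤ (1 + ε) * (m' * ((n : ℝ) - y)) :=
      mul_le_mul_of_nonneg_right (by linarith) hmw
    exact key.trans a3

end Pool.Agent.P.MP_4f3dfd_co.Ex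
end

-- part Pool.Agent.P.MP_4f3dfd_co.FE0
section

set_option autoImplicit false
set_option linter.unusedSectionVars false
set_option linter.unusedVariables false

namespace Pool.Agent.P.MP_4f3dfd_co.Ex

open Finset Real

variable {V : Type*} [DecidableEq V]

theorem fe0_wp {C m : ℕ} {μ θ : ℝ} (hC : 0 < C) (hμ : 0 < μ) (h : μ * C = m) :
    wp C m (1 + θ) = m * μ ^ θ := by
  have hC' : (C : ℝ) ≠ 0 := by exact_mod_cast hC.ne'
  rw [wp, ← h, mul_div_assoc, div_self hC', mul_one, rpow_add hμ, rpow_one]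
  ring

theorem fe0_blk {a e n c μ b B m C C1 l0 l L : ℝ} (ha : 0 < a) (hn : 0 < n) (hμ : 0 < μ)
    (hl : l = log n) (hL : L = log (1 / μ)) (hm : μ * C = m) (hC1 : n * C1 = c * C)
    (hC10 : 0 ≤ C1) (hnc : 3 * a * n ≤ n - c) (hl0 : 3 * a ≤ l0) (hΛ0 : 0 ≤ l + L)
    (h1 : a * n * b ≤ B) (h2 : B ≤ c / ((n - c) * l0) * (m * (l + L)))
    (h3 : l + L ≤ exp (e * l)) (h4 : 1 ≤ a ^ 3 * exp (e * L)) :
    b ≤ exp (-((1 - e) * (l + L))) * C1 := by
  have han : 0 < 3 * a * n := by positivity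
  have hd : 0 < n - c := han.trans_le hnc
  have hl1 : 0 < l0 := lt_of_lt_of_le (by positivity) hl0
  have e1 : exp (-(l + L)) * n = μ := by
    rw [hl, hL, ← log_mul hn.ne' (by positivity), exp_neg, exp_log (by positivity)]
    field_simp
  have e2 : exp (-((1 - e) * (l + L))) = exp (-(l + L)) * (exp (e * l) * exp (e * L)) := by
    rw [← exp_add, ← exp_add]
    congr 1
    ring
  have e3 : c / ((n - c) * l0) * (m * (l + L)) = n * C1 * μ * (l + L) / ((n - c) * l0) := by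
    rw [hC1, ← hm]
    field_simp
  have e4 : n * C1 * μ * (l + L) / ((n - c) * l0) ≤
      n * C1 * μ * exp (e * l) / (3 * a * n * (3 * a)) := by
    gcongr
  have e5 : n * C1 * μ * exp (e * l) / (3 * a * n * (3 * a)) =
      C1 * μ * exp (e * l) / (9 * a ^ 2) * 1 := by
    field_simp
    ring
  have e6 : C1 * μ * exp (e * l) / (9 * a ^ 2) * 1 ≤
      C1 * μ * exp (e * l) / (1 * a ^ 2) * (a ^ 3 * exp (e * L)) := by
    gcongr
    norm_num
  have e7 : C1 * μ * exp (e * l) / (1 * a ^ 2) * (a ^ 3 * exp (e * L)) =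
      a * n * (exp (-(l + L)) * (exp (e * l) * exp (e * L)) * C1) := by
    rw [← e1]
    field_simp
  rw [e2]
  refine le_of_mul_le_mul_left (a := a * n) ?_ (by positivity)
  linarith only [h1, h2, e3, e4, e5, e6, e7]

theorem fe0_main {Γ t e K0 Λ B κ m y z : ℝ} (hΓ : 0 ≤ Γ) (ht : 0 < t) (he0 : 0 < e)
    (he : e ≤ 1 / 8) (hK0 : log (10 ^ 5 / e ^ 2) ≤ K0) (hΛ : 0 < Λ) (hB0 : 0 ≤ B) (hm : 0 ≤ m)
    (hB : B ≤ κ * (m * Λ)) (hk : Γ * κ * e ≤ 20250 * t) (hz : y + K0 ≤ z) :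
    4 * Γ / (t * ((1 - e) * Λ)) * B * exp (-z) ≤ e * m * exp (-y) := by
  have h1e : 0 < 1 - e := by linarith
  have e1 : exp (-K0) ≤ e ^ 2 / 10 ^ 5 := by
    refine (exp_le_exp.2 (neg_le_neg hK0)).trans (le_of_eq ?_)
    rw [exp_neg, exp_log (by positivity), inv_div]
  have e2 : exp (-z) ≤ exp (-y) * (e ^ 2 / 10 ^ 5) := by
    calc exp (-z) ≤ exp (-y + -K0) := exp_le_exp.2 (by linarith)
      _ = exp (-y) * exp (-K0) := exp_add _ _
      _ ≤ _ := by gcongr
  have e3 : Γ * κ * e / t ≤ 20250 := by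
    rw [div_le_iff₀ ht]
    exact hk
  have e4 : 1 / (1 - e) ≤ 8 / 7 := by
    rw [div_le_iff₀ h1e]
    linarith only [he]
  have e5 : 0 ≤ e * m * exp (-y) := by positivity
  have e6 : 0 ≤ κ * (m * Λ) := hB0.trans hB
  calc _ ≤ 4 * Γ / (t * ((1 - e) * Λ)) * (κ * (m * Λ)) * (exp (-y) * (e ^ 2 / 10 ^ 5)) := by
        gcongr
    _ = 4 / 10 ^ 5 * (e * m * exp (-y)) * (1 / (1 - e)) * (Γ * κ * e / t) := by
        field_simp
    _ ≤ 4 / 10 ^ 5 * (e * m * exp (-y)) * (1 / (1 - e)) * 20250 := by gcongr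
    _ ≤ 4 / 10 ^ 5 * (e * m * exp (-y)) * (8 / 7) * 20250 := by gcongr
    _ ≤ _ := by linarith

theorem fe0_l0 {n c : ℝ} (hn : 0 < n) (hd : 0 < n - c) : c / n ≤ log (n / (n - c)) := by
  have h := one_sub_inv_le_log_of_pos (div_pos hn hd)
  have e : 1 - (n / (n - c))⁻¹ = c / n := by
    field_simp
    ring
  rwa [e] at h

theorem fe0_small {n c e θ : ℝ} (hn : 0 < n) (hc : 0 < c) (h2 : 2 * c ≤ n) (he0 : 0 < e)
    (he : e ≤ 1 / 8) (hθ : 0 < θ) :
    10 * θ * (c / ((n - c) * log (n / (n - c)))) * e ≤ 20250 * (θ / (1 + e)) := by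
  have hd : 0 < n - c := by linarith
  have h0 := fe0_l0 hn hd
  have h1 : 0 < c / n := div_pos hc hn
  have h3 : c / ((n - c) * log (n / (n - c))) ≤ 2 := by
    calc _ ≤ c / (n / 2 * (c / n)) := by
          gcongr
          linarith
      _ = 2 := by field_simp
  have h4 : θ / 2 ≤ θ / (1 + e) := by
    gcongr
    linarith
  calc _ ≤ 10 * θ * 2 * (1 / 8) := by gcongr
    _ ≤ _ := by linarith

theorem fe0_large {n c e a θ : ℝ} (hn : 0 < n) (hc : 0 < c) (h2 : n ≤ 2 * c) (ha : 0 < a)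
    (h3 : 3 * a * n = n - c) (he0 : 0 < e) (he : e ≤ 1 / 8) (hθ : θ = e / (6 * bt a)) :
    60 * (1 - c / n) * (c / ((n - c) * log (n / (n - c)))) * e ≤ 20250 * (θ / (1 + e)) := by
  have hd : 0 < n - c := by
    rw [← h3]
    positivity
  have l2 := log_two_gt_d9
  have l2' := log_two_lt_d9
  have l3 : log 3 ≤ 2 * log 2 := by
    have : log 3 ≤ log (2 ^ 2) := log_le_log (by norm_num) (by norm_num)
    rwa [log_pow] at this
  have h0 : log 2 ≤ log (n / (n - c)) := by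
    refine log_le_log two_pos ?_
    rw [le_div_iff₀ hd]
    linarith
  have h1 : log (1 / a) = log 3 + log (n / (n - c)) := by
    rw [← log_mul (by norm_num) (div_pos hn hd).ne', ← h3]
    congr 1
    field_simp
  have h4 : bt a = 30 + 2 * (log 3 + log (n / (n - c))) := by rw [bt, h1]
  have l30 : 0 ≤ log 3 := log_nonneg (by norm_num)
  generalize log (n / (n - c)) = l0 at h0 h4
  have hl0 : 0 < l0 := by linarith
  have hb0 : 0 < bt a := by linarith
  have hb1 : bt a ≤ 50 * l0 := by linarith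
  have e1 : 60 * (1 - c / n) * (c / ((n - c) * l0)) * e = 60 * e / l0 * (c / n) := by
    field_simp
  have e2 : c / n ≤ 1 := by
    rw [div_le_one hn]
    linarith
  have e3 : e / (6 * (50 * l0)) / (9 / 8) ≤ θ / (1 + e) := by
    rw [hθ]
    gcongr
    linarith only [he]
  have e4 : 20250 * (e / (6 * (50 * l0)) / (9 / 8)) = 60 * e / l0 * 1 := by
    field_simp
    norm_num
  have e5 : 60 * e / l0 * (c / n) ≤ 60 * e / l0 * 1 := by gcongr
  linarith only [e1, e3, e4, e5]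

/-- The moment bound used by the sharp core. -/
theorem sharp_moment (e K1 : ℝ) (he0 : 0 < e) (he : e ≤ 1 / 8) (hK1 : 0 < K1) :
    ∃ K0 : ℝ, 1 ≤ K0 ∧ ∃ N : ℕ,
    ∀ (n0 : ℕ) (G : Finset (Fin n0)) (c : ℕ) (J D : Finset (Finset (Fin n0))) (μ : ℝ), N ≤ #G →
      Pair G c J D → (#G : ℝ) ^ (-(1 / 6) : ℝ) ≤ aa #G c → μ * (#G).choose c = #J →
      (∀ k ∈ G, aa #G c * #G * #(blk J D k) ≤ exc G J D) →
      (#G : ℝ) ^ (-K1) ≤ μ → 2 / e * bt (aa #G c) ≤ log (1 / μ) →
      (exc G J D : ℝ) ≤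
        c / (((#G : ℝ) - c) * log (#G / ((#G : ℝ) - c))) * (#J * log (#G / μ)) →
      ∀ (θ : ℝ) (N1 : ℕ), θ = e / (6 * bt (aa #G c)) → N1 ≤ #G →
      (N1 = #G ∨ #G * (θ * log (1 / μ) + K0) ≤ θ / (1 + e) * ((1 - e) * log (#G / μ)) * N1) →
      Av G (#G - N1) (pw J G c (1 + θ)) ≤ (1 + 2 * e) * #J * μ ^ θ := by
  have hK : 0 < 2 * K1 + 1 + 6 / e := by positivity
  have q1 : 0 < 6 / e := by positivity
  have q2 : 0 < 2 * (K1 + 1) / e ^ 2 := by positivity
  obtain ⟨N, hN⟩ := momentU e (2 * K1 + 1 + 6 / e) he0 hK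
  obtain ⟨N', hN'⟩ := ev_log (45 + (K1 + 1) + 2 * (K1 + 1) / e ^ 2)
  refine ⟨max 1 (log (10 ^ 5 / e ^ 2)), le_max_left _ _, N + N' + 1, ?_⟩
  intro n0 G c J D μ hG hP hpa hm hb hμ hLb hB θ N1 hθ hN1 hor
  have hK01 := le_max_left 1 (log (10 ^ 5 / e ^ 2))
  have hK02 := le_max_right 1 (log (10 ^ 5 / e ^ 2))
  generalize max 1 (log (10 ^ 5 / e ^ 2)) = K0 at hK01 hK02 hor
  have hn1 : 1 ≤ #G := by omega
  have hn : (0 : ℝ) < #G := by exact_mod_cast hn1
  have hn1' : (1 : ℝ) ≤ #G := by exact_mod_cast hn1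
  have h1 := aa_lo hn1 c
  have h2 := aa_hi hn1 c
  have ha6 := aa_le hn1 c
  have ham := aa_mul hn1 c
  generalize aa #G c = a at hpa hb hLb hθ h1 h2 ha6 ham
  have hp6 : 0 < (#G : ℝ) ^ (-(1 / 6) : ℝ) := rpow_pos_of_pos hn _
  have ha : 0 < a := hp6.trans_le hpa
  have han : 0 < a * #G := by positivity
  have hb30 := bt_ge ha (by linarith only [he0, he, ha6])
  have hlb := log_le_bt a
  have hc0 : (0 : ℝ) < c := by linarith only [h1, han]
  have hd : (0 : ℝ) < #G - c := by linarith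
  have hcn : c ≤ #G := by
    have : (c : ℝ) ≤ #G := by linarith
    exact_mod_cast this
  have hC : 0 < (#G).choose c := Nat.choose_pos hcn
  have hC' : (0 : ℝ) < (#G).choose c := by exact_mod_cast hC
  have hpw : 0 < (#G : ℝ) ^ (-K1) := rpow_pos_of_pos hn _
  have hμ0 : 0 < μ := hpw.trans_le hμ
  have hw := fe0_wp (θ := θ) hC hμ0 hm
  obtain ⟨l1, l2, l3⟩ := hN' #G (by omega)
  have hla : log (1 / a) ≤ log #G / 6 := by
    have := log_le_log hp6 hpa
    rw [log_rpow hn] at this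
    rw [one_div, log_inv]
    linarith only [this]
  have hla0 : 0 ≤ log (1 / a) := log_nonneg (by rw [le_div_iff₀ ha]; linarith only [he0, he, ha6])
  have hbl : bt a ≤ log #G := by
    unfold bt
    linarith only [he0, he, hK1, q2, l2, hla]
  have hθ0 : 0 < θ := by
    rw [hθ]
    positivity
  have hθb : θ * bt a = e / 6 := by
    rw [hθ]
    field_simp
  have hθ1 : θ ≤ 1 := by nlinarith only [he0, he, hb30, hθ0, hθb]
  have ht : tt a θ = θ / (1 + e) := by
    unfold tt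
    rw [mul_assoc, hθb]
    congr 2
    ring
  have ht0 : 0 < θ / (1 + e) := by positivity
  have htθ : θ / (1 + e) ≤ θ := div_le_self hθ0.le (by linarith only [he0])
  have hL : log (1 / μ) = -log μ := by rw [one_div, log_inv]
  have hLb' : 2 * bt a ≤ e * log (1 / μ) := by
    have := mul_le_mul_of_nonneg_left hLb he0.le
    have e1 : e * (2 / e * bt a) = 2 * bt a := by field_simp
    linarith only [this, e1]
  have hL0 : 0 < log (1 / μ) := lt_of_lt_of_le (by positivity) hLb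
  have hμ1 : μ ≤ 1 := by
    by_contra h
    have := log_pos (not_le.1 h)
    linarith only [hL, hL0, this]
  have hLK : -K1 * log #G ≤ log μ := by
    rw [← log_rpow hn]
    exact log_le_log hpw hμ
  have hΛ : log (#G / μ) = log #G + log (1 / μ) := by
    rw [log_div hn.ne' hμ0.ne', hL]
    ring
  have hΛ2 : log (#G / μ) ≤ (K1 + 1) * log #G := by linarith only [hL, hLK, hΛ]
  have hΛ0 : 0 < log (#G / μ) := by linarith only [he0, he, hK1, q2, l2, hL0, hΛ]
  have hW0 : 0 < (1 - e) * log (#G / μ) := mul_pos (by linarith only [he0, he]) hΛ0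
  have hW1 : (1 - e) * log (#G / μ) ≤ (K1 + 1) * log #G := by
    have := mul_nonneg he0.le hΛ0.le
    linarith only [hL, hLK, hΛ, this]
  have hl0 : (0 : ℝ) < log #G := by linarith only [he0, he, hK1, q2, l2]
  have hKn : (K1 + 1) * log #G ≤ #G := by
    have p3 : log (#G : ℝ) ≤ log (#G : ℝ) ^ 3 := le_self_pow₀ l1 three_ne_zero
    exact le_trans (mul_le_mul (by linarith only [he0, he, q2]) p3 hl0.le (by positivity)) l3
  have hKe : (K1 + 1) * log #G ≤ exp (e * log #G) := by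
    have q := quadratic_le_exp_of_nonneg (x := e * log #G) (by positivity)
    have q3 : 2 * (K1 + 1) / e ^ 2 ≤ log #G := by linarith only [he0, he, hK1, l2]
    rw [div_le_iff₀ (by positivity)] at q3
    have q4 := mul_le_mul_of_nonneg_right q3 hl0.le
    have q5 : 0 ≤ e * log #G := by positivity
    nlinarith only [he0, he, q, q4, q5]
  have ha3 : 1 ≤ a ^ 3 * exp (e * log (1 / μ)) := by
    have e1 : exp (3 * log (1 / a)) = (1 / a) ^ 3 := by
      rw [show (3 : ℝ) * log (1 / a) = (3 : ℕ) * log (1 / a) by norm_num, ← log_pow,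
        exp_log (by positivity)]
    have e2 : exp (3 * log (1 / a)) ≤ exp (e * log (1 / μ)) := exp_le_exp.2 (by linarith only [he0, he, hb30, hlb, hLb'])
    calc (1 : ℝ) = a ^ 3 * (1 / a) ^ 3 := by field_simp
      _ ≤ _ := by
        rw [← e1]
        gcongr
  have hl3 : 3 * a ≤ log (#G / ((#G : ℝ) - c)) := by
    refine le_trans ?_ (fe0_l0 hn hd)
    rw [le_div_iff₀ hn]
    exact h1
  have hblk : ∀ k ∈ G, (#(blk J D k) : ℝ) ≤
      exp (-((1 - e) * log (#G / μ))) * (#G - 1).choose (c - 1) := fun k hk => by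
    rw [hΛ]
    rw [hΛ] at hB
    exact fe0_blk ha hn hμ0 rfl rfl hm (choose_pred_pred hn1 hP.pos) (Nat.cast_nonneg _)
      (by linarith only [h2]) hl3 (by linarith only [he0, he, hK1, q2, l2, hL0]) (hb k hk) hB (by linarith only [hL, hLK, hKe]) ha3
  have hKθ : 1 ≤ (2 * K1 + 1 + 6 / e) * θ * log #G := by
    have e1 : 6 / e * θ * bt a = 1 := by
      rw [mul_assoc, hθb]
      field_simp
    calc (1 : ℝ) = 6 / e * θ * bt a := e1.symm
      _ ≤ _ := by
        gcongr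
        linarith only [he0, he, hK1]
  have hN10 : (0 : ℝ) ≤ N1 := Nat.cast_nonneg _
  have hlow : (#G : ℝ) ≤ (2 * K1 + 1 + 6 / e) * log #G * N1 := by
    have e0 : (K1 + 1) * log #G * N1 ≤ (2 * K1 + 1 + 6 / e) * log #G * N1 :=
      mul_le_mul_of_nonneg_right (mul_le_mul_of_nonneg_right (by linarith only [hK1, q1]) hl0.le) hN10
    refine le_trans ?_ e0
    rcases hor with h | h
    · rw [h]
      have : 1 * 1 * (#G : ℝ) ≤ (K1 + 1) * log #G * #G := by
        gcongr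
        linarith only [hK1]
      linarith only [this]
    · have e1 : 0 ≤ θ * log (1 / μ) := mul_nonneg hθ0.le hL0.le
      have e2 : θ / (1 + e) * ((1 - e) * log (#G / μ)) ≤ 1 * ((K1 + 1) * log #G) :=
        mul_le_mul (by linarith only [hθ1, htθ]) hW1 hW0.le zero_le_one
      calc (#G : ℝ) = #G * 1 := (mul_one _).symm
        _ ≤ #G * (θ * log (1 / μ) + K0) := by
          gcongr
          linarith only [hK01, e1]
        _ ≤ _ := h
        _ ≤ 1 * ((K1 + 1) * log #G) * N1 := by gcongr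
        _ = _ := by rw [one_mul]
  have hμθ : exp (-(θ * log (1 / μ))) = μ ^ θ := by
    rw [rpow_def_of_pos hμ0, hL]
    congr 1
    ring
  have hlast : (#G : ℝ) ^ (-(2 * K1 + 1 + 6 / e)) * (#G).choose c ≤ #J * μ ^ θ := by
    have e0 : (#G : ℝ) ^ (-(2 * K1 + 1 + 6 / e)) ≤ (#G : ℝ) ^ (-(2 * K1)) :=
      rpow_le_rpow_of_exponent_le hn1' (by linarith only [he0, he, q1])
    have e1 : (#G : ℝ) ^ (-(2 * K1)) = (#G : ℝ) ^ (-K1) * (#G : ℝ) ^ (-K1) := by
      rw [← rpow_add hn]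
      congr 1
      ring
    have e2 : μ ≤ μ ^ θ := by
      have := rpow_le_rpow_of_exponent_ge hμ0 hμ1 hθ1
      rwa [rpow_one] at this
    have e3 : (#G : ℝ) ^ (-(2 * K1)) ≤ μ * μ ^ θ := by
      rw [e1]
      exact mul_le_mul hμ (hμ.trans e2) hpw.le hμ0.le
    calc _ ≤ μ * μ ^ θ * (#G).choose c := by
          gcongr
          exact e0.trans e3
      _ = _ := by
        rw [← hm]
        ring
  have key : ∀ Γ : ℝ, 0 ≤ Γ → Γ ≤ 60 → Step G c J D a θ θ Γ →
      Γ * (c / (((#G : ℝ) - c) * log (#G / ((#G : ℝ) - c)))) * e ≤ 20250 * (θ / (1 + e)) →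
      Av G (#G - N1) (pw J G c (1 + θ)) ≤ (1 + 2 * e) * #J * μ ^ θ := by
    intro Γ g0 g1 g2 g3
    have hT := hN n0 G c N1 J D a θ θ Γ ((1 - e) * log (#G / μ)) (e * #J * μ ^ θ) (by omega) hP
      hpa h1 h2 hθ0 (by linarith only [he0, he, hθb]) hKθ g0 g1 g2 hN1 hlow hW0 (by linarith only [hW1, hKn]) hblk (by positivity)
      (hor.imp id fun h => by
        rw [ht, ← hμθ]
        refine fe0_main g0 ht0 he0 he hK02 hΛ0 (Nat.cast_nonneg _) (Nat.cast_nonneg _) hB g3 ?_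
        rw [le_div_iff₀ hn]
        linarith only [h])
    rw [hw] at hT
    have := mul_le_mul_of_nonneg_left hlast he0.le
    linarith only [hT, this]
  rcases le_or_gt (2 * c) #G with h | h
  · have h' : 2 * (c : ℝ) ≤ #G := by exact_mod_cast h
    exact key (10 * θ) (by positivity) (by linarith only [he0, he, hθ1])
      (stepS hP ha (by linarith only [h1, han]) h hθ0 le_rfl hθ1) (fe0_small hn hc0 h' he0 he hθ0)
  · have h' : (#G : ℝ) ≤ 2 * c := by exact_mod_cast h.le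
    have g1 : (c : ℝ) / #G ≤ 1 := by
      rw [div_le_one hn]
      linarith only [h2, han]
    have g2 : 0 ≤ (c : ℝ) / #G := by positivity
    have g3 : θ * log (1 / a) ≤ 1 := by
      have : θ * log (1 / a) ≤ θ * bt a := by
        gcongr
        linarith only [he0, he, hb30, hlb]
      linarith only [he0, he, hθb, this]
    rw [min_eq_right (by linarith only [h'])] at ham
    exact key (60 * (1 - (c : ℝ) / #G)) (by linarith only [g1]) (by linarith only [g2])
      (stepG hP ha hn1 (by linarith only [h1, ham]) (by linarith only [h2, han]) hθ0 le_rfl hθ1 g3)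
      (fe0_large hn hc0 h' ha ham he0 he hθ)

end Pool.Agent.P.MP_4f3dfd_co.Ex
end

-- part Pool.Agent.P.MP_4f3dfd_co.FE2
section

set_option autoImplicit false
set_option linter.unusedSectionVars false
set_option linter.unusedVariables false

namespace Pool.Agent.P.MP_4f3dfd_co.Ex

open Finset Real

variable {V : Type*} [DecidableEq V]

theorem fe2_wp {C m : ℕ} {μ : ℝ} (hC : 0 < C) (hμ : 0 < μ) (h : μ * C = m) :
    wp C m (1 + 1) = m * μ := by
  have hC' : (C : ℝ) ≠ 0 := by exact_mod_cast hC.ne'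
  rw [wp, ← h, mul_div_assoc, div_self hC', mul_one, rpow_add hμ, rpow_one]
  ring

theorem fe2_blk {a β l E n b B m C1 : ℝ} (ha : 0 < a) (hβ : 1 ≤ β) (hE : 1 ≤ E) (hl : l ≤ E)
    (hl0 : 0 ≤ l) (hn : n = E ^ 18) (haE : 1 ≤ a * E ^ 3) (hb : 0 ≤ b) (hm0 : 0 ≤ m)
    (hm : m ≤ C1) (h1 : a * n * b ≤ B) (h2 : 3 * a * B * β ≤ m * l) :
    b * E ^ 6 ≤ C1 := by
  have hE0 : 0 < E := by linarith
  have hn0 : 0 < n := by rw [hn]; positivity
  have hB : 0 ≤ B := le_trans (by positivity) h1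
  have e1 : a * B ≤ C1 * E := by
    have q1 : a * B ≤ 3 * a * B * β := by
      have : 0 ≤ a * B := by positivity
      nlinarith only [hβ, this]
    have q2 : m * l ≤ C1 * E := mul_le_mul hm hl hl0 (hm0.trans hm)
    linarith
  have e2 : a * (a * n * b) ≤ C1 * E := (mul_le_mul_of_nonneg_left h1 ha.le).trans e1
  have e3 : 1 ≤ (a * E ^ 3) ^ 2 := one_le_pow₀ haE
  have e4 : (1 : ℝ) ≤ E ^ 5 := one_le_pow₀ hE
  have e5 : b * E ^ 6 * E ≤ a * (a * n * b) := by
    calc b * E ^ 6 * E = b * E ^ 7 * 1 * 1 := by ring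
      _ ≤ b * E ^ 7 * E ^ 5 * (a * E ^ 3) ^ 2 := by gcongr
      _ = a * (a * n * b) := by rw [hn]; ring
  exact le_of_mul_le_mul_right (e5.trans e2) hE0

theorem fe2_exp : exp (-12 : ℝ) ≤ 1 / 80640 := by
  have h1 : (2.7 : ℝ) ≤ exp 1 := by have := exp_one_gt_d9; linarith
  have h2 : (2.7 : ℝ) ^ 12 ≤ exp 1 ^ 12 := pow_le_pow_left₀ (by norm_num) h1 12
  have h3 : exp 1 ^ 12 = exp (12 : ℝ) := by rw [← exp_nat_mul]; norm_num
  rw [exp_neg, ← one_div]
  refine one_div_le_one_div_of_le (by norm_num) ?_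
  rw [← h3]
  refine le_trans ?_ h2
  norm_num

theorem fe2_main {g β l B m n M : ℝ} (hg : 0 ≤ g) (hβ : 0 < β) (hl : 0 < l) (hn : 0 < n)
    (hB : 0 ≤ B) (h2 : g * B * β ≤ m * l) (hM : 252 * β * n / l ≤ M) :
    4 * (60 * g) / (1 / β / 7 * (l / 3)) * B * exp (-(1 / β / 7 * (l / 3) * M / n)) ≤ m / 16 := by
  have e1 : 12 ≤ 1 / β / 7 * (l / 3) * M / n := by
    rw [div_le_iff₀ hl] at hM
    rw [le_div_iff₀ hn]
    have : 1 / β / 7 * (l / 3) * M = M * l / (21 * β) := by field_simp; ring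
    rw [this, le_div_iff₀ (by positivity)]
    linarith
  have e2 : exp (-(1 / β / 7 * (l / 3) * M / n)) ≤ 1 / 80640 :=
    (exp_le_exp.2 (by linarith)).trans fe2_exp
  have e3 : 4 * (60 * g) / (1 / β / 7 * (l / 3)) * B = 5040 * (g * B * β / l) := by
    field_simp; ring
  have e4 : g * B * β / l ≤ m := by rw [div_le_iff₀ hl]; exact h2
  have e5 : 0 ≤ g * B * β / l := by positivity
  rw [e3]
  calc _ ≤ 5040 * m * (1 / 80640) :=
        mul_le_mul (by linarith) e2 (exp_pos _).le (by linarith)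
    _ = m / 16 := by ring

theorem fe2_tt {a : ℝ} (h : 0 < bt a) : tt a (1 / bt a) = 1 / bt a / 7 := by
  unfold tt
  have : 6 * (1 / bt a) * bt a = 6 := by field_simp
  rw [this]; norm_num

theorem fe2_last {a β l m B : ℝ} (ha : 0 < a) (hβ : 0 < β) (hl : 0 < l)
    (h : 1 / (6 * (3 * a)) * (m / 12) ≤ 504 * β / l * B) :
    1 / (72 * 504) * (m * l / β) ≤ 3 * a * B := by
  calc 1 / (72 * 504) * (m * l / β)
      = 3 * a * l / (504 * β) * (1 / (6 * (3 * a)) * (m / 12)) := by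
        field_simp; ring
    _ ≤ 3 * a * l / (504 * β) * (504 * β / l * B) :=
        mul_le_mul_of_nonneg_left h (by positivity)
    _ = 3 * a * B := by field_simp

/-- Order of magnitude, upper half of the levels. -/
theorem core_D : ∃ c0 : ℝ, 0 < c0 ∧ ∃ N : ℕ,
    ∀ (n0 : ℕ) (G : Finset (Fin n0)) (c : ℕ) (J D : Finset (Finset (Fin n0))) (μ : ℝ), N ≤ #G →
      Pair G c J D → (#G : ℝ) ^ (-(1 / 6) : ℝ) ≤ aa #G c → μ * (#G).choose c = #J →
      (∀ k ∈ G, aa #G c * #G * #(blk J D k) ≤ exc G J D) →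
      1 / (#G : ℝ) ≤ μ → μ ≤ 1 / 2 → #G ≤ 2 * c →
      c0 * (#J * log #G / bt (aa #G c)) ≤ (1 - (c : ℝ) / #G) * exc G J D := by
  obtain ⟨N1, hmom⟩ := momentU (1 / 16) 1 (by norm_num) one_pos
  obtain ⟨N2, hN2⟩ := ev_pow 45
  obtain ⟨N3, hN3⟩ := ev_zetaU 4 1 (1 / 12) (by norm_num) (by norm_num)
  refine ⟨1 / (72 * 504), by norm_num, N1 + N2 + N3 + 1, ?_⟩
  intro n0 G c J D μ hn hP ha6 hμ hb hnμ hμ2 hc2
  obtain ⟨hl1, hl45, hl3⟩ := hN2 #G (by omega)
  have hnN : 0 < #G := by omega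
  have hn0 : (0 : ℝ) < #G := by exact_mod_cast hnN
  have hn1 : (1 : ℝ) ≤ #G := by exact_mod_cast (by omega : 1 ≤ #G)
  have hμ0 : 0 < μ := lt_of_lt_of_le (by positivity) hnμ
  have h3a := three_aa hnN c
  have h1 := aa_lo hnN c
  have h2 := aa_hi hnN c
  have hale := aa_le hnN c
  have hatyp := fun (r : ℕ) (h0 : 0 < c) (h1 : c < #G) (hr : r ≤ #G) =>
    Av_atypU G (c := c) (r := r) (η := 1 / 2) h0 h1 hr (by norm_num) (by norm_num)
  generalize aa #G c = a at *
  have hpw : 0 < (#G : ℝ) ^ (-(1 / 6) : ℝ) := rpow_pos_of_pos hn0 _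
  have ha : 0 < a := hpw.trans_le ha6
  have hc2' : (#G : ℝ) ≤ 2 * c := by exact_mod_cast hc2
  have hα : 1 / 2 ≤ (c : ℝ) / #G := by rw [le_div_iff₀ hn0]; linarith
  have hg : 1 - (c : ℝ) / #G = 3 * a := by rw [h3a, min_eq_right (by linarith only [hα])]
  have han : 0 < a * #G := mul_pos ha hn0
  have hcn : c < #G := by
    have : (c : ℝ) < #G := by linarith
    exact_mod_cast this
  have hC : 0 < (#G).choose c := Nat.choose_pos hcn.le
  have hC0 : (0 : ℝ) < (#G).choose c := by exact_mod_cast hC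
  have hJ0 : (0 : ℝ) < #J := by rw [← hμ]; positivity
  have hβ30 := bt_ge ha (by linarith only [ha6, hale, hpw])
  have hβa := log_le_bt a
  have hβl : bt a ≤ log #G := by
    have e1 : log ((#G : ℝ) ^ (-(1 / 6) : ℝ)) ≤ log a := log_le_log hpw ha6
    rw [log_rpow hn0] at e1
    have e2 : log (1 / a) = -log a := by rw [one_div, log_inv]
    unfold bt
    linarith only [hl45, e1, e2]
  have hβ0 : 0 < bt a := by linarith only [ha6, hale, hpw, hβ30]
  have htt := fe2_tt hβ0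
  have hθβ : 1 / bt a * bt a ≤ 1 := by rw [one_div_mul_cancel hβ0.ne']
  have hθ0 : 0 < 1 / bt a := by positivity
  have hB0 : (0 : ℝ) ≤ exc G J D := by positivity
  have hl0 : 0 < log (#G : ℝ) := by linarith only [hl45, ha6, hale, hpw]
  have hln : log (#G : ℝ) ≤ #G := log_le_self hn0.le
  by_cases hB : (1 - (c : ℝ) / #G) * exc G J D * bt a ≤ #J * log #G
  swap
  · have hB := (not_le.1 hB).le
    have e1 : #J * log #G / bt a ≤ (1 - (c : ℝ) / #G) * exc G J D := by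
      rw [div_le_iff₀ hβ0]; exact hB
    have e2 : 0 ≤ #J * log #G / bt a := div_nonneg (mul_nonneg hJ0.le hl0.le) hβ0.le
    linarith only [e1, e2]
  have hstep : Step G c J D a (1 / bt a) 1 (60 * (1 - (c : ℝ) / #G)) :=
    stepG hP ha hnN (by linarith) (by linarith) hθ0 (by rw [div_le_one hβ0]; linarith) le_rfl
      (by rw [one_div_mul_eq_div, div_le_one hβ0]
          have : 0 ≤ log (1 / a) := log_nonneg (by rw [le_div_iff₀ ha]; linarith)
          linarith)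
  obtain ⟨v, hv⟩ : ∃ v : ℝ, v = 252 * bt a * #G / log #G := ⟨_, rfl⟩
  have hvl : v * log #G = 252 * bt a * #G := by rw [hv, div_mul_cancel₀ _ hl0.ne']
  have hv0 : 0 < v := hv ▸ div_pos (mul_pos (by linarith) hn0) hl0
  have hβn : (#G : ℝ) ≤ 252 * bt a * #G := le_mul_of_one_le_left hn0.le (by linarith)
  have hv1 : 1 ≤ v := by rw [hv, le_div_iff₀ hl0]; linarith
  obtain ⟨M, hM⟩ : ∃ M : ℕ, M = min #G ⌈v⌉₊ := ⟨_, rfl⟩
  have hMn : M ≤ #G := hM ▸ min_le_left _ _
  have hMv : (M : ℝ) ≤ 2 * v := by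
    have h3 : (M : ℝ) ≤ ⌈v⌉₊ := by rw [hM]; exact_mod_cast min_le_right _ _
    have := Nat.ceil_lt_add_one hv0.le
    linarith only [hv1, h3, this]
  have hMor : M = #G ∨ v ≤ M := by
    rcases le_total #G ⌈v⌉₊ with h | h
    · exact Or.inl (hM.trans (min_eq_left h))
    · right; rw [hM, min_eq_right h]; exact Nat.le_ceil v
  have hMlow : (#G : ℝ) ≤ log #G * M := by
    rcases hMor with h | h
    · rw [h]; exact le_mul_of_one_le_left hn0.le hl1
    · have := mul_le_mul_of_nonneg_left h hl0.le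
      linarith only [hvl, hβn, this]
  have hM0 : 0 < M := by
    by_contra h
    have : M = 0 := by omega
    rw [this, Nat.cast_zero, mul_zero] at hMlow; linarith only [hl45, ha6, hale, hpw, hln, hMlow]
  have hM' : (0 : ℝ) < M := by exact_mod_cast hM0
  have hblk : ∀ k ∈ G, (#(blk J D k) : ℝ) ≤
      exp (-(log #G / 3)) * (#G - 1).choose (c - 1) := by
    intro k hk
    obtain ⟨E, hE⟩ : ∃ E : ℝ, E = (#G : ℝ) ^ (1 / 18 : ℝ) := ⟨_, rfl⟩
    have hE1 : 1 ≤ E := hE ▸ one_le_rpow hn1 (by norm_num)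
    have hEp : ∀ j : ℕ, E ^ j = (#G : ℝ) ^ ((j : ℝ) / 18) := fun j => by
      rw [hE, ← rpow_mul_natCast hn0.le]; congr 1; ring
    have hlE : log (#G : ℝ) ≤ E := by
      have := le_self_pow₀ hl1 (by norm_num : 3 ≠ 0)
      linarith only [hl45, hl3, ha6, hale, hpw, hE, this]
    have hE18 : (#G : ℝ) = E ^ 18 := by rw [hEp]; norm_num
    have hE3 : 1 ≤ a * E ^ 3 := by
      have e1 : (#G : ℝ) ^ (-(1 / 6) : ℝ) * E ^ 3 = 1 := by
        rw [hEp, ← rpow_add hn0]; norm_num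
      rw [← e1]
      exact mul_le_mul_of_nonneg_right ha6 (by positivity)
    have hE6 : exp (-(log #G / 3)) * E ^ 6 = 1 := by
      rw [hEp, rpow_def_of_pos hn0, ← exp_add, exp_eq_one_iff]; push_cast; ring
    have hm : (#J : ℝ) ≤ (#G - 1).choose (c - 1) := by
      have e := choose_pred_pred (by omega : 1 ≤ #G) hP.pos
      refine le_of_mul_le_mul_left ?_ hn0
      rw [e, ← hμ]
      have q1 : μ * (#G).choose c ≤ 1 / 2 * (#G).choose c :=
        mul_le_mul_of_nonneg_right hμ2 hC0.le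
      have q2 := mul_le_mul_of_nonneg_left q1 hn0.le
      have q3 := mul_le_mul_of_nonneg_right hc2' hC0.le
      linarith only [q2, q3]
    have key := fe2_blk (β := bt a) ha (by linarith only [ha6, hale, hpw, hβ30]) hE1 hlE hl0.le hE18 hE3 (Nat.cast_nonneg _)
      hJ0.le hm (hb k hk) (by rw [← hg]; exact hB)
    calc (#(blk J D k) : ℝ) = exp (-(log #G / 3)) * (#(blk J D k) * E ^ 6) := by
          rw [mul_left_comm, hE6, mul_one]
      _ ≤ _ := mul_le_mul_of_nonneg_left key (exp_pos _).le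
  have hAv := hmom n0 G c M J D a (1 / bt a) 1 (60 * (1 - (c : ℝ) / #G)) (log #G / 3) (#J / 16)
    (by omega) hP ha6 h1 h2 hθ0 hθβ
    (by rw [one_mul, one_div_mul_eq_div, one_le_div hβ0]; exact hβl)
    (by rw [hg]; positivity) (by rw [hg]; linarith only [ha6, hale, hpw]) hstep hMn (by rw [one_mul]; exact hMlow)
    (by linarith only [hl45, ha6, hale, hpw]) (by linarith only [hl45, ha6, hale, hpw, hln]) hblk (by linarith only [hJ0]) (by
      rcases hMor with h | h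
      · exact Or.inl h
      · right
        rw [htt]
        exact fe2_main (by rw [hg]; positivity) hβ0 hl0 hn0 hB0 hB (hv ▸ h))
  rw [fe2_wp hC hμ0 hμ, rpow_neg_one, ← one_div] at hAv
  have hAv2 : Av G (#G - M) (pw J G c (1 + 1)) ≤ 5 / 8 * #J := by
    have q1 : (#J : ℝ) * μ ≤ #J * (1 / 2) := mul_le_mul_of_nonneg_left hμ2 hJ0.le
    have q2 : 1 / (#G : ℝ) * (#G).choose c ≤ μ * (#G).choose c :=
      mul_le_mul_of_nonneg_right hnμ hC0.le
    rw [mul_assoc (1 / 16)] at hAv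
    linarith only [hμ, hAv, q1, q2]
  have hr : ((#G : ℝ) - ((#G - M : ℕ) : ℝ)) = M := by rw [Nat.cast_sub hMn]; ring
  have hZ : Av G (#G - M) (atyp G c (1 / 2 * (3 * a))) ≤ #J / 12 := by
    have q1 := hatyp (#G - M) hP.pos hcn (by omega)
    rw [hr] at q1
    have q2 := hN3 #G (by omega) ((1 / 2) ^ 2 * a * M) (by
      have e1 : (#G : ℝ) ^ (5 / 6 : ℝ) = (#G : ℝ) ^ (-(1 / 6) : ℝ) * #G := by
        rw [← rpow_add_one hn0.ne']; norm_num
      rw [e1]
      calc _ ≤ a * (log #G * M) := mul_le_mul ha6 hMlow hn0.le ha.le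
        _ = _ := by ring)
    rw [rpow_neg_one, ← one_div] at q2
    have q3 := zeta_nonneg #G 1 ((1 / 2) ^ 2 * a * M)
    have q4 := le_mul_of_one_le_left q3 (one_le_pow₀ (n := 2) hn1)
    have q5 : zeta #G 1 ((1 / 2) ^ 2 * a * M) ≤ 1 / 12 * μ := by linarith only [hnμ, q2, q4]
    have q6 := mul_le_mul_of_nonneg_right q5 hC0.le
    rw [mul_assoc (1 / 12) μ, hμ] at q6
    linarith only [q1, q6]
  have hmk := markovU hP (r := #G - M) (by omega) (η := 1 / 2 * (3 * a))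
    (β := 1 / (6 * (1 - (c : ℝ) / #G))) (T := 3 / 4) (θ := 1) (by rw [hg]; positivity)
    (by norm_num) one_pos hZ (by
      intro S hS hSc x hx hxc ht hcnt
      have hN : #(G \ S) = M := by rw [card_sdiff_of_subset hS, hSc]; omega
      have ht' := ht
      rw [hN, abs_le] at ht'
      have e1 : (c : ℝ) / #G = 1 - 3 * a := by linarith only [hg]
      have e2 : 0 < a * M := by positivity
      have e3 : a * M ≤ 1 / 6 * M := mul_le_mul_of_nonneg_right hale hM'.le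
      have e4 := ht'.1
      rw [e1] at e4
      refine fib_varU hP hS hx ?_ (by linarith only [ha6, hpw, hg]) (by omega) ?_ hcnt
      · have h4 : (0 : ℝ) < ((c - #x : ℕ) : ℝ) := by linarith only [e2, e3, e4]
        have : 0 < c - #x := by exact_mod_cast h4
        omega
      · rw [hN, hg]
        linarith only [e4])
  rw [hr, rpow_neg_one, hg] at hmk
  rw [hg]
  have h6 : 1 / (6 * (3 * a)) * (#J / 12) ≤ M / #G * exc G J D := by
    refine le_trans (mul_le_mul_of_nonneg_left ?_ (by positivity)) hmk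
    norm_num at hAv2 ⊢
    linarith only [hAv2]
  have h7 : (M : ℝ) / #G ≤ 504 * bt a / log #G := by
    rw [div_le_div_iff₀ hn0 hl0]
    have := mul_le_mul_of_nonneg_right hMv hl0.le
    linarith only [hvl, this]
  have h8 : 1 / (6 * (3 * a)) * (#J / 12) ≤ 504 * bt a / log #G * exc G J D :=
    h6.trans (mul_le_mul_of_nonneg_right h7 hB0)
  exact fe2_last ha hβ0 hl0 h8

end Pool.Agent.P.MP_4f3dfd_co.Ex
end
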