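import Mathlib
import Pool.Agent.K.MP_4f3dfd_co.C10
import Pool.Agent.K.MP_4f3dfd_co.C12
import Pool.Agent.K.MP_4f3dfd_co.C11

-- part Pool.Agent.P.MP_4f3dfd_co.FE3
section

set_option autoImplicit false
set_option linter.unusedSectionVars false
set_option linter.unusedVariables false

namespace Pool.Agent.P.MP_4f3dfd_co.Ex

open Finset Real

variable {V : Type*} [DecidableEq V]

theorem fe3_wp {C m : ℕ} {μ θ : ℝ} (hC : 0 < C) (hμ : 0 < μ) (h : μ * C = m) :
    wp C m (1 + θ) = m * μ ^ θ := by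
  have hC' : (C : ℝ) ≠ 0 := by exact_mod_cast hC.ne'
  rw [wp, ← h, mul_div_assoc, div_self hC', mul_one, rpow_add hμ, rpow_one]
  ring

theorem fe3_pow {n : ℝ} (hn : 0 < n) (hl : 0 ≤ log n) :
    exp (log n / 6) ^ 6 = n ∧ n ^ (-(1 / 6) : ℝ) = (exp (log n / 6))⁻¹ ∧
      n ^ (5 / 6 : ℝ) = exp (log n / 6) ^ 5 ∧ n ^ (1 / 18 : ℝ) ≤ exp (log n / 6) := by
  refine ⟨?_, ?_, ?_, ?_⟩
  · rw [← exp_nat_mul]
    have : ((6 : ℕ) : ℝ) * (log n / 6) = log n := by push_cast; ring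
    rw [this, exp_log hn]
  · rw [rpow_def_of_pos hn, ← exp_neg]
    congr 1
    ring
  · rw [rpow_def_of_pos hn, ← exp_nat_mul]
    congr 1
    push_cast
    ring
  · rw [rpow_def_of_pos hn]
    exact exp_le_exp.2 (by linarith)

theorem fe3_blk {a l b B C C1 : ℝ} (ha : 0 < a) (haE : 1 ≤ a * exp (l / 6)) (hC : 0 ≤ C)
    (hC1 : 3 * a * C ≤ C1) (h1 : a * exp (l / 6) ^ 6 * b ≤ B) (h2 : B ≤ C * l) :
    b ≤ exp (-(l / 3)) * C1 := by
  have hE := exp_pos (l / 6)
  have e1 : exp (l / 3) = exp (l / 6) ^ 2 := by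
    rw [sq, ← exp_add]
    congr 1
    ring
  have e2 : l ≤ 3 * exp (l / 6) ^ 2 := by
    have := add_one_le_exp (l / 3)
    rw [e1] at this
    linarith
  rw [exp_neg, e1]
  generalize exp (l / 6) = E at *
  have e3 : a * E ^ 6 * b ≤ a * E ^ 6 * ((E ^ 2)⁻¹ * C1) := by
    calc a * E ^ 6 * b ≤ C * (3 * E ^ 2) * 1 := by
          have := mul_le_mul_of_nonneg_left e2 hC
          linarith
      _ ≤ C * (3 * E ^ 2) * (a * E) ^ 2 :=
          mul_le_mul_of_nonneg_left (one_le_pow₀ haE) (by positivity)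
      _ = a * E ^ 4 * (3 * a * C) := by ring
      _ ≤ a * E ^ 4 * C1 := mul_le_mul_of_nonneg_left hC1 (by positivity)
      _ = _ := by field_simp
  exact le_of_mul_le_mul_left e3 (by positivity)

theorem fe3_exp11 : exp (-11) ≤ 1 / 26880 := by
  have h1 : (2.7 : ℝ) ≤ exp 1 := by linarith [exp_one_gt_d9]
  have h2 : (2.7 : ℝ) ^ 11 ≤ exp 11 := by
    have := pow_le_pow_left₀ (by norm_num) h1 11
    rwa [← exp_nat_mul, show ((11 : ℕ) : ℝ) * 1 = 11 by norm_num] at this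
  rw [exp_neg, inv_le_comm₀ (exp_pos _) (by norm_num)]
  refine le_trans ?_ h2
  norm_num

theorem fe3_main {L θ t l ρ B m z : ℝ} (hL : 0 < L) (hθ : 0 < θ) (ht : θ / 7 ≤ t) (hl : 0 < l)
    (hρ : ρ / 2 ≤ θ * L) (hm : 0 ≤ m) (hB0 : 0 ≤ B) (hB : B ≤ m * l * ρ) (hz : 11 ≤ z) :
    4 * (10 * (1 / (2 * L))) / (t * (l / 3)) * B * exp (-z) ≤ m / 32 := by
  have e1 : exp (-z) ≤ 1 / 26880 := (exp_le_exp.2 (by linarith)).trans fe3_exp11
  have e2 : B ≤ m * l * (2 * (θ * L)) :=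
    hB.trans (mul_le_mul_of_nonneg_left (by linarith) (by positivity))
  have ht0 : 0 < t := lt_of_lt_of_le (by positivity) ht
  calc _ ≤ 4 * (10 * (1 / (2 * L))) / (θ / 7 * (l / 3)) * (m * l * (2 * (θ * L))) *
        (1 / 26880) := by gcongr
    _ = m / 32 := by
        field_simp
        ring

theorem fe3_w {α L : ℝ} (hα0 : 0 < α) (hα : α ≤ 1 / 2) (hL : 20 ≤ L) : ∃ w : ℕ,
    w * α ≤ L ∧ exp (-(L / 2)) ≤ exp (-((1 + 6 * (1 / 4)) * w * log (1 / (1 - α)))) ∧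
      L / 80 ≤ (1 - 3 * (1 / 4)) * w * (α / (1 - α)) := by
  have h1 : 0 < 1 - α := by linarith
  obtain ⟨l0, hl0⟩ : ∃ l0, l0 = log (1 / (1 - α)) := ⟨_, rfl⟩
  have a1 : α ≤ l0 := by
    rw [hl0, one_div, log_inv]
    have := log_le_sub_one_of_pos h1
    linarith
  have a2 : l0 ≤ α / (1 - α) := by
    have := log_le_sub_one_of_pos (x := 1 / (1 - α)) (by positivity)
    rw [hl0]
    refine this.trans (le_of_eq ?_)
    field_simp
    ring
  have a3 : l0 ≤ 1 := a2.trans (by rw [div_le_one h1]; linarith)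
  have a4 : 0 < l0 := hα0.trans_le a1
  rw [← hl0]
  have b1 : (⌊L / (5 * l0)⌋₊ : ℝ) ≤ L / (5 * l0) := Nat.floor_le (by positivity)
  have b2 : L / (5 * l0) < ⌊L / (5 * l0)⌋₊ + 1 := Nat.lt_floor_add_one _
  refine ⟨⌊L / (5 * l0)⌋₊, ?_⟩
  have b0 : (0 : ℝ) ≤ ⌊L / (5 * l0)⌋₊ := Nat.cast_nonneg _
  generalize (⌊L / (5 * l0)⌋₊ : ℝ) = w at *
  rw [le_div_iff₀ (by positivity)] at b1
  rw [div_lt_iff₀ (by positivity)] at b2
  have c1 := mul_le_mul_of_nonneg_left a1 b0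
  have c2 := mul_le_mul_of_nonneg_left a2 b0
  have c3 : 0 ≤ w * l0 := by positivity
  refine ⟨by linarith, exp_le_exp.2 (by linarith), by linarith⟩

theorem fe3_T {L : ℝ} (hL : 0 < L) :
    exp (-(L / 2)) ^ (-(1 / (2 * L))) ≤ 4 / 3 ∧
      exp (-(L / 2)) ^ (-(1 / (2 * L))) * exp (-L) ^ (1 / (2 * L)) ≤ 4 / 5 := by
  have e1 : exp (-(L / 2)) ^ (-(1 / (2 * L))) = exp (1 / 4) := by
    rw [← exp_mul]
    congr 1
    field_simp
    ring
  have e2 : exp (-L) ^ (1 / (2 * L)) = exp (-(1 / 2)) := by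
    rw [← exp_mul]
    congr 1
    field_simp
  rw [e1, e2, ← exp_add]
  have h1 := add_one_le_exp (1 / 4 : ℝ)
  have h2 := add_one_le_exp (-(1 / 4) : ℝ)
  have h3 : exp (1 / 4 : ℝ) * exp (-(1 / 4)) = 1 := by rw [← exp_add]; simp
  rw [show (1 / 4 : ℝ) + -(1 / 2) = -(1 / 4) by norm_num]
  have h4 := exp_pos (1 / 4 : ℝ)
  have h5 := exp_pos (-(1 / 4) : ℝ)
  constructor <;> nlinarith only [h1, h2, h3]

theorem fe3_theta {L β l ρ : ℝ} (hL : 2 / 3 ≤ L) (hLl : L ≤ l) (hβ : 30 ≤ β) (hβl : β ≤ l)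
    (hρ : ρ = min 1 (L / β)) : 0 < ρ ∧ ρ ≤ 1 ∧ 1 / (2 * L) ≤ 1 ∧ ∃ θ, 0 < θ ∧ θ ≤ 1 / (2 * L) ∧
      θ * β ≤ 1 ∧ ρ / 2 ≤ θ * L ∧ 1 ≤ 2 * θ * l := by
  have hL0 : 0 < L := by linarith
  have hβ0 : 0 < β := by linarith
  have hl0 : 0 < l := by linarith
  have hρ1 : ρ ≤ 1 := hρ ▸ min_le_left _ _
  have hρ2 : ρ ≤ L / β := hρ ▸ min_le_right _ _
  refine ⟨hρ ▸ lt_min one_pos (by positivity), hρ1, by rw [div_le_one (by positivity)]; linarith,
    min (1 / β) (1 / (2 * L)), lt_min (by positivity) (by positivity), min_le_right _ _, ?_, ?_, ?_⟩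
  · exact (le_div_iff₀ hβ0).1 (min_le_left _ _)
  · rcases min_cases (1 / β) (1 / (2 * L)) with ⟨e, -⟩ | ⟨e, -⟩
    · rw [e, one_div, ← div_eq_inv_mul]
      have := div_pos hL0 hβ0
      linarith
    · rw [e]
      have : 1 / (2 * L) * L = 1 / 2 := by field_simp
      linarith
  · have : 1 / (2 * l) ≤ min (1 / β) (1 / (2 * L)) :=
      le_min (one_div_le_one_div_of_le hβ0 (by linarith))
        (one_div_le_one_div_of_le (by positivity) (by linarith))
    rw [div_le_iff₀ (by positivity)] at this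
    linarith

theorem fe3_M {n : ℕ} {t θ l : ℝ} (hθ0 : 0 < θ) (ht1 : θ / 7 ≤ t) (ht2 : t ≤ 1) (hl : 45 ≤ l)
    (hln : l ≤ n) (h18 : 45 * l ^ 3 ≤ exp (l / 6)) (hE6 : exp (l / 6) ^ 6 = n) :
    ∃ M : ℕ, M ≤ n ∧ (M = n ∨ 11 ≤ t * (l / 3) * M / n) ∧ (n : ℝ) ≤ l * M ∧
      8 * (l * exp (l / 6)) ≤ M ∧ (M : ℝ) / n * (θ * l) ≤ 462 := by
  have hl0 : 0 < l := by linarith
  have hn0 : (0 : ℝ) < n := by linarith
  have ht0 : 0 < t := lt_of_lt_of_le (by positivity) ht1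
  have hE0 := exp_pos (l / 6)
  obtain ⟨v, hv⟩ : ∃ v : ℝ, v = 33 * n / (t * l) := ⟨_, rfl⟩
  have hvw : v * (t * l) = 33 * n := by rw [hv]; field_simp
  have hv0 : 0 < v := by rw [hv]; positivity
  have hv2 : (n : ℝ) ≤ l * v := by
    have : v * (t * l) ≤ v * (1 * l) := by gcongr
    linarith
  have hEE : 45 * l ^ 3 * exp (l / 6) ≤ n := by
    have e1 : 1 ≤ exp (l / 6) := one_le_exp (by positivity)
    calc 45 * l ^ 3 * exp (l / 6) ≤ exp (l / 6) * exp (l / 6) :=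
          mul_le_mul_of_nonneg_right h18 hE0.le
      _ = exp (l / 6) ^ 2 := (sq _).symm
      _ ≤ exp (l / 6) ^ 6 := pow_le_pow_right₀ e1 (by norm_num)
      _ = _ := hE6
  have hv1 : 1 ≤ v := by
    have : v * (t * l) ≤ v * (1 * n) := by gcongr
    have : (n : ℝ) * 1 ≤ n * v := by linarith
    exact le_of_mul_le_mul_left this hn0
  obtain ⟨M, hM⟩ : ∃ M : ℕ, M = min n ⌈v⌉₊ := ⟨_, rfl⟩
  have hMv : (M : ℝ) ≤ 2 * v := by
    have h3 : (M : ℝ) ≤ ⌈v⌉₊ := by rw [hM]; exact_mod_cast min_le_right _ _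
    have := Nat.ceil_lt_add_one hv0.le
    linarith
  have hMor : M = n ∨ v ≤ M := by
    rcases le_total n ⌈v⌉₊ with h | h
    · exact Or.inl (hM.trans (min_eq_left h))
    · right; rw [hM, min_eq_right h]; exact Nat.le_ceil v
  have hMlow : (n : ℝ) ≤ l * M := by
    rcases hMor with h | h
    · rw [h]; exact le_mul_of_one_le_left hn0.le (by linarith)
    · exact hv2.trans (mul_le_mul_of_nonneg_left h hl0.le)
  refine ⟨M, hM ▸ min_le_left _ _, hMor.imp id fun h => ?_, hMlow, ?_, ?_⟩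
  · rw [le_div_iff₀ hn0]
    have := mul_le_mul_of_nonneg_right h (mul_pos ht0 hl0).le
    linarith
  · refine le_of_mul_le_mul_left ?_ hl0
    have e1 : 8 * l ^ 2 ≤ 45 * l ^ 3 := by nlinarith only [sq_nonneg l, hl]
    have e2 := mul_le_mul_of_nonneg_right e1 hE0.le
    linarith
  · rw [div_mul_eq_mul_div, div_le_iff₀ hn0]
    have h8 : (M : ℝ) * (θ * l) ≤ 2 * v * (7 * t * l) := by gcongr; linarith
    linarith

theorem fe3_u {a l M n : ℝ} (hl : 0 < l) (hM : 0 ≤ M) (haE : 1 ≤ a * exp (l / 6))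
    (hE6 : exp (l / 6) ^ 6 = n) (h : n ≤ l * M) :
    exp (l / 6) ^ 5 ≤ 32 * l * ((1 / 4) ^ 2 * a * M) := by
  have hE0 := exp_pos (l / 6)
  refine le_of_mul_le_mul_right ?_ hE0
  have e1 : exp (l / 6) ^ 5 * exp (l / 6) = n := by rw [← hE6]; ring
  have e3 := mul_nonneg hl.le hM
  have e2 := mul_le_mul_of_nonneg_left haE e3
  linarith

theorem fe3_fib {n0 : ℕ} {G : Finset (Fin n0)} {c M : ℕ} {J D : Finset (Finset (Fin n0))}
    (hP : Pair G c J D) {a L l : ℝ} (ha0 : 0 < a) (hαa : 3 * a = (c : ℝ) / #G) (ha6 : a ≤ 1 / 6)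
    (hL : exp (-L) ≤ 1 / 2) (hLl : L ≤ l) (hl : 1 ≤ l) (haE : 1 ≤ a * exp (l / 6))
    (hM : 8 * (l * exp (l / 6)) ≤ M) {S x : Finset (Fin n0)} (hS : S ⊆ G) (hN : #(G \ S) = M)
    (hx : x ⊆ S) (hxc : #x ≤ c)
    (ht : |((c - #x : ℕ) : ℝ) - c / #G * #(G \ S)| ≤ 1 / 4 * (3 * a) * #(G \ S))
    (hcnt : (cnt J S x : ℝ) ≤ exp (-(L / 2)) * tot G c S x) :
    L / 80 * cnt J S x ≤ ∑ k ∈ G \ S, (cnt (blk J D k) S x : ℝ) := by
  have hcnt0 : (0 : ℝ) ≤ cnt J S x := Nat.cast_nonneg _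
  have hE0 := exp_pos (l / 6)
  have hlE : 1 ≤ l * exp (l / 6) := one_le_mul_of_one_le_of_one_le hl (one_le_exp (by linarith))
  have hM' : (0 : ℝ) < M := by linarith
  rw [← hαa] at ht
  rcases le_total L 20 with h20 | h20
  · have hT : exp (-(L / 2)) ≤ 3 / 4 := by
      have e1 : exp (-(L / 2)) ^ 2 = exp (-L) := by
        rw [sq, ← exp_add]
        congr 1
        ring
      exact le_of_pow_le_pow_left₀ two_ne_zero (by norm_num) (by rw [e1]; linarith)
    refine le_trans (mul_le_mul_of_nonneg_right (by linarith) hcnt0) (fib_var hP hS hx ?_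
      (hcnt.trans (mul_le_mul_of_nonneg_right hT (Nat.cast_nonneg _))))
    rw [hN, abs_le] at ht
    have h4 : (0 : ℝ) < ((c - #x : ℕ) : ℝ) := by linarith only [ht.1, mul_pos ha0 hM', ha0, ht, hM']
    have : 0 < c - #x := by exact_mod_cast h4
    omega
  · obtain ⟨w, w1, w2, w3⟩ := fe3_w (α := 3 * a) (by linarith only [ha0]) (by linarith) h20
    have hw0 : (0 : ℝ) ≤ w := Nat.cast_nonneg _
    have hM8 : (M : ℝ) / 8 ≤ 1 / 4 * (1 - 3 * a) * M := by
      have := mul_le_mul_of_nonneg_right ha6 hM'.le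
      linarith
    have hwE : (w : ℝ) ≤ l * exp (l / 6) := by
      have e1 := mul_le_mul_of_nonneg_left haE hw0
      have e2 : (w : ℝ) * a ≤ l := by linarith only [mul_nonneg hw0 ha0.le, ha0, ha6, hLl, h20, w1]
      have e3 := mul_le_mul_of_nonneg_right e2 hE0.le
      linarith
    refine le_trans (mul_le_mul_of_nonneg_right w3 hcnt0)
      (fib_kkU hP hS hx hxc (by norm_num) le_rfl (by linarith) (by linarith) ?_ ?_ ?_ w2 hcnt)
    · rw [min_eq_left (by linarith)]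
      exact ht
    · rw [hN]
      linarith
    · rw [hN]
      linarith

theorem fe3_end {L l ρ θ m B A y Y q : ℝ} (hL : 0 < L) (hl : 0 < l) (hθ : 0 < θ) (hm : 0 ≤ m)
    (hB : 0 ≤ B) (hθL : ρ / 2 ≤ θ * L) (hy : y = exp (-L)) (hY : Y ≤ m)
    (hA : A ≤ m * y ^ (1 / (2 * L)) + m / 32 + 1 / 32 * Y)
    (hk : L / 80 * (m - exp (-(L / 2)) ^ (-(1 / (2 * L))) * A - m / 20) ≤ q * B)
    (hq : q * (θ * l) ≤ 462) : 1 / 2000000 * (m * l * ρ) ≤ B := by
  obtain ⟨hT1, hT2⟩ := fe3_T hL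
  rw [← hy] at hT2
  have hT0 : 0 ≤ exp (-(L / 2)) ^ (-(1 / (2 * L))) := by positivity
  generalize exp (-(L / 2)) ^ (-(1 / (2 * L))) = τ at hk hT1 hT2 hT0
  have hrest : m / 20 ≤ m - τ * A - m / 20 := by
    have e1 : A ≤ m * y ^ (1 / (2 * L)) + m / 16 := by linarith
    have e2 := mul_le_mul_of_nonneg_left e1 hT0
    have e3 := mul_le_mul_of_nonneg_left hT1 hm
    have e4 := mul_le_mul_of_nonneg_left hT2 hm
    linarith only [hm, e2, e3, e4]
  have h6 : L / 80 * (m / 20) ≤ q * B :=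
    (mul_le_mul_of_nonneg_left hrest (by positivity)).trans hk
  calc 1 / 2000000 * (m * l * ρ) ≤ 1 / 2000000 * (m * l * (2 * (θ * L))) := by gcongr; linarith
    _ = 1600 / 1000000 * (L / 80 * (m / 20) * (θ * l)) := by ring
    _ ≤ 1600 / 1000000 * (q * B * (θ * l)) := by gcongr
    _ = 1600 / 1000000 * (q * (θ * l) * B) := by ring
    _ ≤ 1600 / 1000000 * (462 * B) := by gcongr
    _ ≤ B := by linarith

theorem fe3_L {n μ : ℝ} (hn0 : 0 < n) (hnμ : 1 / n ≤ μ) (hμ2 : μ ≤ 1 / 2) :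
    0 < μ ∧ μ = exp (-log (1 / μ)) ∧ 2 / 3 ≤ log (1 / μ) ∧ log (1 / μ) ≤ log n := by
  have hμ0 : 0 < μ := lt_of_lt_of_le (by positivity) hnμ
  have hL2 : log 2 ≤ log (1 / μ) := log_le_log (by norm_num) (by rw [le_div_iff₀ hμ0]; linarith)
  refine ⟨hμ0, by rw [one_div, log_inv, neg_neg, exp_log hμ0], by linarith [log_two_gt_d9], ?_⟩
  refine log_le_log (by positivity) ?_
  rw [div_le_iff₀ hn0] at hnμ
  rw [div_le_iff₀ hμ0]
  linarith

theorem fe3_bt {a l : ℝ} (ha0 : 0 < a) (haE : 1 ≤ a * exp (l / 6)) (hl : 45 ≤ l) : bt a ≤ l := by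
  have : log (1 / a) ≤ l / 6 := by
    rw [log_le_iff_le_exp (by positivity), div_le_iff₀ ha0]
    linarith
  unfold bt
  linarith

/-- Order of magnitude, lower half of the levels. -/
theorem core_S : ∃ c0 : ℝ, 0 < c0 ∧ ∃ N : ℕ,
    ∀ (n0 : ℕ) (G : Finset (Fin n0)) (c : ℕ) (J D : Finset (Finset (Fin n0))) (μ : ℝ), N ≤ #G →
      Pair G c J D → (#G : ℝ) ^ (-(1 / 6) : ℝ) ≤ aa #G c → μ * (#G).choose c = #J →
      (∀ k ∈ G, aa #G c * #G * #(blk J D k) ≤ exc G J D) →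
      1 / (#G : ℝ) ≤ μ → μ ≤ 1 / 2 → 2 * c ≤ #G →
      c0 * (#J * log #G * min 1 (log (1 / μ) / bt (aa #G c))) ≤ exc G J D := by
  obtain ⟨N1, hmom⟩ := momentU (1 / 32) 2 (by norm_num) (by norm_num)
  obtain ⟨N2, hN2⟩ := ev_pow 45
  obtain ⟨N3, hN3⟩ := ev_zetaU 32 1 (1 / 20) (by norm_num) (by norm_num)
  refine ⟨1 / 2000000, by norm_num, N1 + N2 + N3 + 1, ?_⟩
  intro n0 G c J D μ hn hP ha hμ hb hnμ hμ2 hc2
  obtain ⟨-, hl45, hl3⟩ := hN2 #G (by omega)
  have hnpos : 0 < #G := by omega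
  have hn0 : (0 : ℝ) < #G := by exact_mod_cast hnpos
  have hn1 : (1 : ℝ) ≤ #G := by exact_mod_cast hnpos
  have hc1 := hP.pos
  have hcn : c < #G := by omega
  have hc2' : 2 * (c : ℝ) ≤ #G := by exact_mod_cast hc2
  obtain ⟨hμ0, hμL, hL23, hLl⟩ := fe3_L hn0 hnμ hμ2
  have hCpos : 0 < (#G).choose c := Nat.choose_pos hcn.le
  have hC0 : (0 : ℝ) < (#G).choose c := by exact_mod_cast hCpos
  have hJ0 : (0 : ℝ) ≤ #J := Nat.cast_nonneg _
  have hB0 : (0 : ℝ) ≤ exc G J D := Nat.cast_nonneg _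
  obtain ⟨hE6, hE1, hE5, hE18⟩ := fe3_pow hn0 (by linarith only [hμ2, hl45, hμ0])
  have hlo := aa_lo hnpos c
  have hhi := aa_hi hnpos c
  have ha6 := aa_le hnpos c
  have hα2 : (c : ℝ) / #G ≤ 1 / 2 := by rw [div_le_iff₀ hn0]; linarith only [hc2']
  have hαa : 3 * aa #G c = (c : ℝ) / #G := (three_aa hnpos c).trans (min_eq_left (by linarith only [hα2]))
  have hat := fun r (hr : r ≤ #G) =>
    Av_atypU G (η := 1 / 4) hc1 hcn hr (by norm_num) (by norm_num)
  generalize aa #G c = a at ha hb hlo hhi ha6 hαa hat ⊢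
  have ha0 : 0 < a := lt_of_lt_of_le (rpow_pos_of_pos hn0 _) ha
  have hln : log (#G : ℝ) ≤ #G := (log_le_sub_one_of_pos hn0).trans (by linarith only [ha6, ha0])
  have hmom' := fun M θ θ' Γ W Z => hmom n0 G c M J D a θ θ' Γ W Z (by omega) hP ha hlo hhi
  have hzet := hN3 #G (by omega)
  clear hmom hN2 hN3
  generalize log (#G : ℝ) = l at *
  generalize log (1 / μ) = L at *
  have hL0 : 0 < L := by linarith
  have hl0 : 0 < l := by linarith
  have haE : 1 ≤ a * exp (l / 6) := by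
    rw [hE1, inv_le_iff_one_le_mul₀ (exp_pos _)] at ha
    exact ha
  obtain ⟨hρ0, hρ1, hθ', θ, hθ0, hθ1, hθβ, hθL, hθl⟩ :=
    fe3_theta hL23 hLl (bt_ge ha0 (by linarith)) (fe3_bt ha0 haE hl45) rfl
  generalize min 1 (L / bt a) = ρ at *
  have hJl : 0 ≤ (#J : ℝ) * l := mul_nonneg hJ0 hl0.le
  by_cases hB : (exc G J D : ℝ) ≤ #J * l * ρ
  swap
  · have := not_le.1 hB
    have := mul_nonneg hJl hρ0.le
    linarith only [hB, this]
  obtain ⟨ht1, ht2, ht0, hθ30⟩ := tt_bounds ha0 (by linarith) hθ0 hθβ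
  have hstep := stepS hP (a := a) ha0 (by linarith only [mul_pos ha0 hn0, hlo]) hc2 hθ0 hθ1 hθ'
  have hblk : ∀ k ∈ G, (#(blk J D k) : ℝ) ≤ exp (-(l / 3)) * (#G - 1).choose (c - 1) := by
    intro k hk
    refine fe3_blk (B := exc G J D) ha0 haE hC0.le ?_ (by rw [hE6]; exact hb k hk) ?_
    · have e := choose_pred_pred hnpos hP.pos
      refine le_of_mul_le_mul_left ?_ hn0
      rw [e, ← mul_assoc, mul_comm (#G : ℝ)]
      exact mul_le_mul_of_nonneg_right hlo hC0.le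
    · have e1 : (#J : ℝ) ≤ (#G).choose c := by
        rw [← hμ]
        exact mul_le_of_le_one_left hC0.le (by linarith only [hμ2])
      exact hB.trans ((mul_le_of_le_one_right hJl hρ1).trans (mul_le_mul_of_nonneg_right e1 hl0.le))
  obtain ⟨M, hMn, hMor, hMlow, hMbig, hq⟩ :=
    fe3_M hθ0 ht1 (by linarith) hl45 hln (hl3.trans hE18) hE6
  have hM00 : (0 : ℝ) ≤ M := Nat.cast_nonneg _
  have hM0 : 0 < M := by
    refine Nat.pos_of_ne_zero fun h => ?_
    rw [h, Nat.cast_zero, mul_zero] at hMlow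
    linarith only [hl45, hln, hMlow]
  have hθ'0 : 0 < 1 / (2 * L) := hθ0.trans_le hθ1
  have hAv := hmom' M θ (1 / (2 * L)) (10 * (1 / (2 * L))) (l / 3) (#J / 32)
    hθ0 hθβ hθl (by linarith only [hθ0, hθ1]) (by linarith only [hθ']) hstep hMn
    (by linarith only [mul_nonneg hl0.le hM00, hl45, hln, hMlow]) (by linarith only [hl45]) (by linarith only [hl45, hln]) hblk
    (by linarith) (hMor.imp id fun h => fe3_main hL0 hθ0 ht1 hl0 hθL hJ0 hB0 hB h)
  rw [fe3_wp hCpos hμ0 hμ, mul_assoc] at hAv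
  have hn2 : (#G : ℝ) ^ (-(2 : ℝ)) * (#G).choose c ≤ #J := by
    rw [← hμ]
    refine mul_le_mul_of_nonneg_right (le_trans ?_ hnμ) hC0.le
    rw [one_div, ← rpow_neg_one]
    exact rpow_le_rpow_of_exponent_le hn1 (by norm_num)
  have hr : ((#G : ℝ) - ((#G - M : ℕ) : ℝ)) = M := by rw [Nat.cast_sub hMn]; ring
  have hZ : Av G (#G - M) (atyp G c (1 / 4 * (3 * a))) ≤ #J / 20 := by
    refine (hat _ (Nat.sub_le _ _)).trans ?_
    rw [hr]
    have hz := hzet ((1 / 4) ^ 2 * a * M) (hE5 ▸ fe3_u hl0 hM00 haE hE6 hMlow)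
    have hz0 := zeta_nonneg #G 1 ((1 / 4) ^ 2 * a * M)
    have h4 := le_mul_of_one_le_left hz0 (one_le_pow₀ hn1 (n := 2))
    rw [rpow_neg_one, ← one_div] at hz
    have h3 : zeta #G 1 ((1 / 4) ^ 2 * a * M) ≤ 1 / 20 * μ :=
      (h4.trans hz).trans (mul_le_mul_of_nonneg_left hnμ (by norm_num))
    refine (mul_le_mul_of_nonneg_right h3 hC0.le).trans (le_of_eq ?_)
    rw [← hμ]
    ring
  have hmk := markovU hP (r := #G - M) (by omega) (η := 1 / 4 * (3 * a)) (β := L / 80)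
    (T := exp (-(L / 2))) (θ := 1 / (2 * L)) (by linarith only [hL23]) (exp_pos _) hθ'0 hZ
    (fun S hS hSc x hx hxc ht hcnt => fe3_fib hP ha0 hαa ha6 (hμL ▸ hμ2) hLl (by linarith only [hl45]) haE
      hMbig hS (by rw [card_sdiff_of_subset hS, hSc]; omega) hx hxc ht hcnt)
  rw [hr] at hmk
  exact fe3_end hL0 hl0 hθ0 hJ0 hB0 hθL hμL hn2 hAv hmk hq

end Pool.Agent.P.MP_4f3dfd_co.Ex
end

-- part Pool.Agent.P.MP_4f3dfd_co.FU4
section

set_option autoImplicit false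
set_option linter.unusedSectionVars false
set_option linter.unusedVariables false

namespace Pool.Agent.P.MP_4f3dfd_co.Ex

open Finset Real

variable {V : Type*} [DecidableEq V]

theorem fu4_star {k c n t w d m' S : ℝ} (hk : 1 ≤ k) (hw : 1 ≤ w) (ht : w ≤ t) (hc0 : 0 ≤ c)
    (hc : c ≤ 2 * t) (hn : 0 ≤ n) (hm : 0 ≤ m') (hS0 : 0 ≤ S) (hd : k * m' = d * n)
    (hS : t * (n * S) ≤ m' * w) (h3 : k ^ 3 * t ≤ 128 * d) (h4 : t ≤ 3 * k * w) :
    c * (n * S) + 8 * w * m' + (k + 1) * (c * (c * n)) ≤ 3082 * (m' * w) := by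
  have ht0 : 0 ≤ t := by linarith
  have hnS : 0 ≤ n * S := mul_nonneg hn hS0
  have a1 : c * (n * S) ≤ 2 * (m' * w) := by
    have := mul_le_mul_of_nonneg_right hc hnS
    linarith
  have a2 : c * c ≤ 4 * (t * t) := by nlinarith
  have a3 : t * t ≤ t * (3 * k * w) := mul_le_mul_of_nonneg_left h4 ht0
  have a4 : c * c ≤ 12 * (t * k * w) := by linarith
  have a5 : (k + 1) * (c * (c * n)) ≤ (2 * k) * (12 * (t * k * w) * n) := by
    have e : c * (c * n) = c * c * n := by ring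
    rw [e]
    exact mul_le_mul (by linarith) (mul_le_mul_of_nonneg_right a4 hn) (by positivity) (by linarith)
  have a6 : k * ((2 * k) * (12 * (t * k * w) * n)) ≤ k * (3072 * (m' * w)) := by
    have e1 : k * ((2 * k) * (12 * (t * k * w) * n)) = 24 * (k ^ 3 * t) * (w * n) := by ring
    have e2 : k * (3072 * (m' * w)) = 24 * (128 * d) * (w * n) := by
      have : k * (3072 * (m' * w)) = 3072 * (k * m') * w := by ring
      rw [this, hd]; ring
    rw [e1, e2]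
    have hwn : 0 ≤ w * n := mul_nonneg (by linarith) hn
    exact mul_le_mul_of_nonneg_right (by linarith) hwn
  have a7 := le_of_mul_le_mul_left a6 (by linarith : (0 : ℝ) < k)
  linarith

theorem up_hi_order : ∃ C : ℝ, 0 < C ∧
    ∀ n c k m m' d y : ℕ, c + k = n → m + m' = n.choose c → Par n k d y → k * m' = d * n →
      n ∣ c * m → 2 * m' ≤ n.choose c →
      ∃ J : Finset (Finset (Fin n)), Reg n c m J ∧ ex n c m #(shadow J) ≤ C * (m' * ((n : ℝ) - y)) := by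
  obtain ⟨C2, hC2, N, hT⟩ := t2_hi
  refine ⟨3082 + N + 2 * C2, by positivity, ?_⟩
  intro n c k m m' d y hck hm hP hkm hdvd h2m
  have hk2 := hP.hc
  have hkn := hP.hcn
  have hyn := hP.hx
  have hky := hP.c_le
  have hsym : n.choose c = n.choose k := by
    rw [← hck]; exact Nat.choose_symm_add
  obtain ⟨hm1, hmC, hdm, hlg, hiff⟩ := hP.size hkm
  have h2 : 2 * d ≤ (n - 1).choose (k - 1) := hiff.1 (by rw [← hsym]; exact h2m)
  have hm0 : 1 ≤ m := by omega
  have hc1 : 1 ≤ c := by omega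
  have hcn : c ≤ n := by omega
  have hcR : (c : ℝ) + k = n := by exact_mod_cast hck
  have hw : (1 : ℝ) ≤ (n : ℝ) - y := by
    have : ((y + 1 : ℕ) : ℝ) ≤ n := by exact_mod_cast hyn
    push_cast at this; linarith
  have hm'R : (1 : ℝ) ≤ m' := by exact_mod_cast hm1
  have hkR : (2 : ℝ) ≤ k := by exact_mod_cast hk2
  have hc0 : (0 : ℝ) ≤ c := by positivity
  have hn0 : (0 : ℝ) < n := by linarith
  have hN0 : (0 : ℝ) ≤ N := by positivity
  have hF : (0 : ℝ) ≤ m' * ((n : ℝ) - y) := by positivity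
  have hkmR : (k : ℝ) * m' = d * n := by exact_mod_cast hkm
  have fin : ∀ {a b : ℝ}, b ≤ 3082 + N + 2 * C2 → a ≤ b * (m' * ((n : ℝ) - y)) →
      a ≤ (3082 + N + 2 * C2) * (m' * ((n : ℝ) - y)) := fun hb ha =>
    ha.trans (mul_le_mul_of_nonneg_right hb hF)
  by_cases ht : (y : ℝ) - k + 2 ≤ 16 * ((n : ℝ) - y)
  · obtain ⟨J, hJ, hJ1, -⟩ := triv_up hc1 hcn hm0 hm hdvd
    refine ⟨J, hJ, fin (b := 17) (by linarith) (hJ1.trans ?_)⟩
    have : (c : ℝ) ≤ 17 * ((n : ℝ) - y) := by linarith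
    have := mul_le_mul_of_nonneg_right this (by linarith : (0 : ℝ) ≤ m')
    linarith
  have ht := not_le.1 ht
  by_cases hc : n / ((n : ℝ) - y + 1) ≤ Lam n k d ∨ 2 * log (n / k) ≤ 7 * lg n k d
  · have hs := star_num hP h2 ht hc
    obtain ⟨he1, he2⟩ := err_num hP h2 ht
    have htN : 16 * (n - y) + k < y + 2 := by
      have : ((16 * (n - y) + k : ℕ) : ℝ) < ((y + 2 : ℕ) : ℝ) := by
        push_cast [Nat.cast_sub hyn.le]; linarith
      exact_mod_cast this
    have e1 : y - 7 * (n - y) - 1 = y - 1 - 7 * (n - y) := by omega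
    have e2 : (n : ℝ) - ((y - 7 * (n - y) : ℕ) : ℝ) = 8 * ((n : ℝ) - y) := by
      rw [Nat.cast_sub (by omega)]
      push_cast [Nat.cast_sub hyn.le]; ring
    set S : ℕ := (y - 1 - 7 * (n - y)).choose (k - 1) with hSdef
    have hS0 : (0 : ℝ) ≤ S := by positivity
    have hS : ((y : ℝ) - k + 2) * (n * S) ≤ m' * ((n : ℝ) - y) := by
      have h1 := mul_le_mul_of_nonneg_right hs hn0.le
      have h3 : (k : ℝ) * (((y : ℝ) - k + 2) * (n * S)) ≤ k * (m' * ((n : ℝ) - y)) := by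
        have e3 : (k : ℝ) * (m' * ((n : ℝ) - y)) = d * ((n : ℝ) - y) * n := by
          have : (k : ℝ) * (m' * ((n : ℝ) - y)) = k * m' * ((n : ℝ) - y) := by ring
          rw [this, hkmR]; ring
        rw [e3]; linarith only [h1]
      exact le_of_mul_le_mul_left h3 (by linarith only [hkR])
    have hS' : n * (y - 7 * (n - y) - 1).choose (k - 1) ≤ m' := by
      rw [e1]
      have h4 : ((n : ℝ) - y) * (n * S) ≤ ((n : ℝ) - y) * m' := by
        have : ((n : ℝ) - y) * (n * S) ≤ ((y : ℝ) - k + 2) * (n * S) :=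
          mul_le_mul_of_nonneg_right (by linarith) (by positivity)
        linarith only [hS, this]
      have h5 := le_of_mul_le_mul_left h4 (by linarith only [hw])
      exact_mod_cast h5
    obtain ⟨J, hJ, hJ1⟩ := star_hi (y := y - 7 * (n - y)) hck hc1 (by omega) (by omega) (by omega)
      hm0 hm hdvd hS'
    refine ⟨J, hJ, fin (b := 3082) (by linarith only [hC2]) (hJ1.trans ?_)⟩
    rw [e1, e2]
    have e4 : (n : ℝ) - c + 1 = k + 1 := by linarith only [hcR]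
    rw [e4]
    exact fu4_star (by linarith only [hkR]) hw (by linarith) hc0 (by linarith) hn0.le (by linarith only [hm'R]) hS0 hkmR hS
      he1 he2
  · rw [not_or, not_le, not_le] at hc
    obtain ⟨hA, h8, hL⟩ := t2_width hP h2 ht hc.1.le hc.2.le
    rw [hlg, ← hsym] at hA hL
    set A0 : ℝ := log n / log (n / k) * log ((n.choose c : ℝ) / m') with hA0
    have hA' : n * m' * A0 ≤ k * (2 * (m' * ((n : ℝ) - y))) := by
      have := mul_le_mul_of_nonneg_right hA (by linarith only [hm'R] : (0 : ℝ) ≤ m')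
      linarith
    have hA2 : C2 * (n * m' * A0) ≤ k * (2 * C2 * (m' * ((n : ℝ) - y))) := by
      have := mul_le_mul_of_nonneg_left hA' hC2.le
      linarith only [this]
    by_cases hN : N ≤ n
    · by_cases hk : C2 * A0 ≤ k
      · have hCn : n.choose c ≤ n * m' := by
          have hCpos : (0 : ℝ) < n.choose c := by exact_mod_cast Nat.choose_pos hcn
          have h6 := (log_le_log_iff (by positivity) hn0).1 hL
          rw [div_le_iff₀ (by linarith only [hm'R])] at h6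
          exact_mod_cast h6
        obtain ⟨J, hJ, hJ1⟩ := hT n c k m m' hN hck hm (by omega) h8 hdvd h2m hCn hk
        refine ⟨J, hJ, fin (b := 2 * C2) (by linarith only []) ?_⟩
        exact le_of_mul_le_mul_left (hJ1.trans hA2) (by linarith only [hkR])
      · have hk := (not_le.1 hk).le
        obtain ⟨J, hJ, hJ1, -⟩ := triv_up hc1 hcn hm0 hm hdvd
        refine ⟨J, hJ, fin (b := 2 * C2) (by linarith only []) (hJ1.trans ?_)⟩
        have h7 : (k : ℝ) * (c * m') ≤ C2 * (n * m' * A0) := by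
          have h8 : (c : ℝ) * m' ≤ n * m' := mul_le_mul_of_nonneg_right (by linarith) (by linarith only [hm'R])
          have h9 : (k : ℝ) * (c * m') ≤ (C2 * A0) * (n * m') :=
            mul_le_mul hk h8 (by positivity) (by linarith)
          linarith only [h9]
        exact le_of_mul_le_mul_left (h7.trans hA2) (by linarith only [hkR])
    · obtain ⟨J, hJ, hJ1, -⟩ := triv_up hc1 hcn hm0 hm hdvd
      refine ⟨J, hJ, fin (b := N) (by linarith only [hC2]) (hJ1.trans ?_)⟩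
      have h7 : (c : ℝ) ≤ N := by exact_mod_cast (by omega : c ≤ N)
      have h8 : (m' : ℝ) ≤ m' * ((n : ℝ) - y) := le_mul_of_one_le_right (by linarith only [hm'R]) hw
      exact mul_le_mul h7 h8 (by linarith only [hm'R]) hN0

end Pool.Agent.P.MP_4f3dfd_co.Ex
end

-- part Pool.Agent.P.MP_4f3dfd_co.FE1
section

set_option autoImplicit false
set_option linter.unusedSectionVars false
set_option linter.unusedVariables false

namespace Pool.Agent.P.MP_4f3dfd_co.Ex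

open Finset Real

variable {V : Type*} [DecidableEq V]

theorem fe1_final {e Y Λ n N1 κ m B β : ℝ} (he0 : 0 < e) (he : e ≤ 1 / 16) (hY : 0 < Y)
    (hΛ : 0 < Λ) (hn : 0 < n) (hv : N1 * ((1 - e) * Λ) ≤ (1 + e) ^ 2 * (n * Y)) (hκ : 0 ≤ κ)
    (hβ : (1 - 3 * e) * ((1 - e) * Y) * κ ≤ (1 + 6 * e) * β) (hm : 0 ≤ m) (hB : 0 ≤ B)
    (hmain : β * ((1 - e) * m) ≤ N1 / n * B) : (1 - 16 * e) * κ * (m * Λ) ≤ B := by
  have he1 : 0 < 1 - e := by linarith
  have he6 : 0 < 1 + 6 * e := by linarith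
  have h1 : N1 / n * ((1 - e) * Λ) ≤ (1 + e) ^ 2 * Y := by
    rw [div_mul_eq_mul_div, div_le_iff₀ hn]
    linarith
  have h2 : Y * ((1 - 3 * e) * (1 - e) ^ 3 * (κ * (m * Λ))) ≤
      Y * ((1 + 6 * e) * (1 + e) ^ 2 * B) := by
    calc Y * ((1 - 3 * e) * (1 - e) ^ 3 * (κ * (m * Λ)))
        = ((1 - 3 * e) * ((1 - e) * Y) * κ) * (((1 - e) * m) * ((1 - e) * Λ)) := by ring
      _ ≤ ((1 + 6 * e) * β) * (((1 - e) * m) * ((1 - e) * Λ)) :=
          mul_le_mul_of_nonneg_right hβ (by positivity)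
      _ = (β * ((1 - e) * m)) * ((1 + 6 * e) * ((1 - e) * Λ)) := by ring
      _ ≤ (N1 / n * B) * ((1 + 6 * e) * ((1 - e) * Λ)) :=
          mul_le_mul_of_nonneg_right hmain (by positivity)
      _ = (N1 / n * ((1 - e) * Λ)) * ((1 + 6 * e) * B) := by ring
      _ ≤ ((1 + e) ^ 2 * Y) * ((1 + 6 * e) * B) := mul_le_mul_of_nonneg_right h1 (by positivity)
      _ = _ := by ring
  have h3 := le_of_mul_le_mul_left h2 hY
  have h4 : (1 + 6 * e) * (1 + e) ^ 2 * (1 - 16 * e) ≤ (1 - 3 * e) * (1 - e) ^ 3 := by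
    have h5 : 1 + (3 : ℕ) * (-e) ≤ (1 + -e) ^ 3 := one_add_mul_le_pow (by linarith) 3
    have h6 : (1 + -e) = 1 - e := by ring
    rw [h6] at h5
    push_cast at h5
    have h7 : (1 - 3 * e) * (1 - 3 * e) ≤ (1 - 3 * e) * (1 - e) ^ 3 :=
      mul_le_mul_of_nonneg_left (by linarith) (by linarith)
    have h8 : 0 ≤ e ^ 2 := by positivity
    have h9 : 0 ≤ e ^ 3 := by positivity
    have h10 : 0 ≤ e ^ 4 := by positivity
    have h11 : (1 + 6 * e) * (1 + e) ^ 2 * (1 - 16 * e) =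
        1 - 8 * e - 115 * e ^ 2 - 202 * e ^ 3 - 96 * e ^ 4 := by ring
    have h12 : (1 - 3 * e) * (1 - 3 * e) = 1 - 6 * e + 9 * e ^ 2 := by ring
    linarith
  have h5 : 0 ≤ κ * (m * Λ) := by positivity
  have h6 : ((1 + 6 * e) * (1 + e) ^ 2) * ((1 - 16 * e) * κ * (m * Λ)) ≤
      ((1 + 6 * e) * (1 + e) ^ 2) * B := by
    calc ((1 + 6 * e) * (1 + e) ^ 2) * ((1 - 16 * e) * κ * (m * Λ))
        = ((1 + 6 * e) * (1 + e) ^ 2 * (1 - 16 * e)) * (κ * (m * Λ)) := by ring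
      _ ≤ ((1 - 3 * e) * (1 - e) ^ 3) * (κ * (m * Λ)) := mul_le_mul_of_nonneg_right h4 h5
      _ ≤ _ := h3
  exact le_of_mul_le_mul_left h6 (by positivity)

theorem fe1_log_ge {α : ℝ} (h : α < 1) : α ≤ log (1 / (1 - α)) := by
  have h1 : 0 < 1 - α := by linarith
  have h2 := Real.log_le_sub_one_of_pos h1
  rw [one_div, log_inv]
  linarith

theorem fe1_kappa {c n : ℝ} (hn : 0 < n) (hc : c < n) :
    c / ((n - c) * log (n / (n - c))) = c / n / ((1 - c / n) * log (1 / (1 - c / n))) := by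
  have h1 : 0 < n - c := by linarith
  have h2 : 1 - c / n = (n - c) / n := by field_simp
  rw [h2, one_div_div, div_div, ← mul_assoc, mul_div_cancel₀ _ hn.ne']

theorem fe1_n1 {e L k a' b y : ℝ} (he : 0 < e) (hk : 0 < k) (h1 : a' + b + k ≤ e * L)
    (h2 : L - a' - b ≤ y) : (1 - e) * (L + k) ≤ y := by
  nlinarith [mul_pos he hk]

theorem fe1_n2 {e : ℝ} (he : 0 < e) (h : e ≤ 1 / 16) : (1 + 2 * e) * (e / 4) ≤ e / 2 := by
  nlinarith

theorem fe1_n3 {p q x y n : ℝ} (hp : 0 ≤ p) (hq : 0 ≤ q) (hy : 0 ≤ y) (hxy : x ≤ y)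
    (h : (p + q) * y ≤ n) : p * x ≤ n ∧ q * x ≤ n := by
  have h1 := mul_le_mul_of_nonneg_left hxy hp
  have h2 := mul_le_mul_of_nonneg_left hxy hq
  have h3 := mul_nonneg hp hy
  have h4 := mul_nonneg hq hy
  constructor <;> linarith

theorem fe1_n8 {μ θ e : ℝ} (hμ : 0 < μ) (hθ : 0 < θ) (he : 0 < e) :
    (μ * exp (log (4 / e) / θ)) ^ (-θ) * μ ^ θ = e / 4 := by
  have h4 : log (4 / e) / θ * -θ = -log (4 / e) := by field_simp
  rw [mul_rpow hμ.le (exp_pos _).le, ← exp_mul, h4, exp_neg,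
    exp_log (by positivity), rpow_neg hμ.le]
  have h5 : 0 < μ ^ θ := rpow_pos_of_pos hμ _
  field_simp

theorem fe1_pow {n a : ℝ} (hn : 1 ≤ n) (h : n ^ (-(1 / 6) : ℝ) ≤ a) :
    n ^ (5 / 6 : ℝ) ≤ a * n ∧ n ^ (1 / 18 : ℝ) ≤ a * a * n ∧ n ^ (1 / 18 : ℝ) ≤ n := by
  have hn0 : 0 < n := by linarith
  have h0 : 0 < n ^ (-(1 / 6) : ℝ) := rpow_pos_of_pos hn0 _
  have e1 : n ^ (5 / 6 : ℝ) = n ^ (-(1 / 6) : ℝ) * n := by
    rw [← rpow_add_one hn0.ne']; norm_num
  have e2 : n ^ (2 / 3 : ℝ) = n ^ (-(1 / 6) : ℝ) * n ^ (-(1 / 6) : ℝ) * n := by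
    rw [← rpow_add hn0, ← rpow_add_one hn0.ne']; norm_num
  refine ⟨?_, ?_, ?_⟩
  · rw [e1]; exact mul_le_mul_of_nonneg_right h hn0.le
  · refine (rpow_le_rpow_of_exponent_le hn (show (1 / 18 : ℝ) ≤ 2 / 3 by norm_num)).trans ?_
    rw [e2]
    exact mul_le_mul_of_nonneg_right (mul_le_mul h h h0.le (h0.le.trans h)) hn0.le
  · simpa using rpow_le_rpow_of_exponent_le hn (show (1 / 18 : ℝ) ≤ 1 by norm_num)

theorem fe1_win {Q a e n N : ℝ} (hQ : 0 < Q) (ha : 0 < a) (he : 0 < e)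
    (h1 : Q ^ 2 / e ≤ a * a * n) (h2 : n ≤ Q * N) : Q ≤ e * a * N * a := by
  rw [div_le_iff₀ he] at h1
  have h3 : a * a * e * n ≤ a * a * e * (Q * N) := mul_le_mul_of_nonneg_left h2 (by positivity)
  have h4 : Q * Q ≤ Q * (e * a * N * a) := by nlinarith
  exact le_of_mul_le_mul_left h4 hQ

theorem fe1_K {e β lg K0 L l : ℝ} (he : 0 < e) (he1 : e ≤ 1 / 16) (hβ : 0 < β) (hl0 : 0 ≤ l)
    (hl : 2 * l ≤ β) (h : (2 / e + (6 / e * lg + 2 + 6 * K0 / e) / e) * β ≤ L) :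
    lg / (e / (6 * β)) + (1 + 6 * e) * l + K0 / (e / (6 * β)) ≤ e * L := by
  have h1 := mul_le_mul_of_nonneg_left h he.le
  have h2 : e * ((2 / e + (6 / e * lg + 2 + 6 * K0 / e) / e) * β) =
      lg / (e / (6 * β)) + 4 * β + K0 / (e / (6 * β)) := by
    field_simp
    ring
  have h3 : (1 + 6 * e) * l ≤ 2 * l := mul_le_mul_of_nonneg_right (by linarith) hl0
  linarith only [hβ, hl, h1, h2, h3]

theorem fe1_v {e θ L K0 Λ n v N : ℝ} (he : 0 < e) (he1 : e ≤ 1 / 16) (hθ : 0 < θ) (hΛ : 0 < Λ)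
    (hv : v * (θ / (1 + e) * ((1 - e) * Λ)) = n * (θ * L + K0)) (hN : N ≤ (1 + e) * v) :
    N * ((1 - e) * Λ) ≤ (1 + e) ^ 2 * (n * (L + K0 / θ)) := by
  have h0 : 0 < 1 + e := by linarith
  have h1 : 0 < 1 - e := by linarith
  have h2 : n * (L + K0 / θ) = v * ((1 - e) * Λ) / (1 + e) := by
    have h3 : n * (L + K0 / θ) = n * (θ * L + K0) / θ := by field_simp
    rw [h3, ← hv]
    field_simp
  rw [h2]
  calc N * ((1 - e) * Λ) ≤ (1 + e) * v * ((1 - e) * Λ) :=
        mul_le_mul_of_nonneg_right hN (by positivity)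
    _ = _ := by field_simp

/-- Sharp lower bound for the excess of small families with small blocks. -/
theorem core_sharpU (ε K1 : ℝ) (hε : 0 < ε) (hK1 : 0 < K1) : ∃ K : ℝ, 0 < K ∧ ∃ N : ℕ,
    ∀ (n0 : ℕ) (G : Finset (Fin n0)) (c : ℕ) (J D : Finset (Finset (Fin n0))) (μ : ℝ), N ≤ #G →
      Pair G c J D → (#G : ℝ) ^ (-(1 / 6) : ℝ) ≤ aa #G c → μ * (#G).choose c = #J →
      (∀ k ∈ G, aa #G c * #G * #(blk J D k) ≤ exc G J D) →
      (#G : ℝ) ^ (-K1) ≤ μ → K * bt (aa #G c) ≤ log (1 / μ) →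
      (1 - ε) * (c / (((#G : ℝ) - c) * log (#G / ((#G : ℝ) - c)))) * (#J * log (#G / μ)) ≤
        exc G J D := by
  obtain ⟨e, he0, he8, heε⟩ : ∃ e : ℝ, 0 < e ∧ e ≤ 1 / 16 ∧ 16 * e ≤ ε :=
    ⟨min ε 1 / 16, by positivity, by linarith [min_le_right ε 1], by linarith [min_le_left ε 1]⟩
  obtain ⟨K0, hK0, Nm, hmom⟩ := sharp_moment e K1 he0 (by linarith) hK1
  have hlg0 : 0 ≤ log (4 / e) := log_nonneg (by rw [le_div_iff₀ he0]; linarith)
  obtain ⟨Nl, hlog⟩ := ev_pow ((K1 + 1) ^ 2 / e + (K1 + 1) / e)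
  obtain ⟨Nz, hz⟩ := ev_zetaU ((K1 + 1) / e ^ 2) K1 (e / 2) (by positivity) (by positivity)
  refine ⟨2 / e + (6 / e * log (4 / e) + 2 + 6 * K0 / e) / e, by positivity,
    max 1 (max Nm (max Nl Nz)), ?_⟩
  intro n0 G c J D μ hN hP hna hμ hb hμ1 hKL
  have hn1 : 1 ≤ #G := (le_max_left _ _).trans hN
  have hNm : Nm ≤ #G := ((le_max_left _ _).trans (le_max_right _ _)).trans hN
  have hNl : Nl ≤ #G :=
    (((le_max_left _ _).trans (le_max_right _ _)).trans (le_max_right _ _)).trans hN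
  have hNz : Nz ≤ #G :=
    (((le_max_right _ _).trans (le_max_right _ _)).trans (le_max_right _ _)).trans hN
  obtain ⟨hl1, -, hl3⟩ := hlog _ hNl
  have hmom' := hmom n0 G c J D μ hNm hP hna hμ hb hμ1
  have hz' := hz _ hNz
  clear hmom hz hlog
  have hnR : (1 : ℝ) ≤ #G := by exact_mod_cast hn1
  have hn0 : (0 : ℝ) < #G := by linarith only [he0, he8, hnR]
  obtain ⟨hp56, hp18, hp1n⟩ := fe1_pow hnR hna
  have h1 := aa_lo hn1 c
  have h2 := aa_hi hn1 c
  have ha6 := aa_le hn1 c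
  have h3a := three_aa hn1 c
  have hat := fun (r : ℕ) (h0 : 0 < c) (hc : c < #G) (hr : r ≤ #G) =>
    Av_atypU G (η := e) h0 hc hr he0.le (by linarith only [he0, he8])
  obtain ⟨a, had⟩ : ∃ a : ℝ, a = aa #G c := ⟨_, rfl⟩
  rw [← had] at hna hb hKL hmom' hp56 hp18 h1 h2 ha6 h3a hat
  have ha : 0 < a := (rpow_pos_of_pos hn0 _).trans_le hna
  have hβ30 := bt_ge ha (by linarith only [he0, he8, ha6])
  have hβl := log_le_bt a
  obtain ⟨β, hβd⟩ : ∃ β : ℝ, β = bt a := ⟨_, rfl⟩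
  rw [← hβd] at hKL hmom' hβ30 hβl
  have hβ0 : 0 < β := by linarith only [he0, he8, hβ30]
  obtain ⟨θ, hθd⟩ : ∃ θ : ℝ, θ = e / (6 * β) := ⟨_, rfl⟩
  have hθ0 : 0 < θ := by rw [hθd]; positivity
  have hθ1 : θ ≤ 1 := by rw [hθd, div_le_one (by positivity)]; linarith only [he0, he8, hβ30]
  obtain ⟨α, hαd⟩ : ∃ α : ℝ, α = c / #G := ⟨_, rfl⟩
  have hα1 : 3 * a ≤ α := by rw [hαd, le_div_iff₀ hn0]; exact h1
  have hα2 : α ≤ 1 - 3 * a := by rw [hαd, div_le_iff₀ hn0]; exact h2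
  have hcnR : (c : ℝ) < #G := by
    rw [← div_lt_one hn0, ← hαd]; linarith only [ha, hα2]
  have hcn : c < #G := by exact_mod_cast hcnR
  have hc0 : 0 < c := hP.pos
  have hμ0 : 0 < μ := (rpow_pos_of_pos hn0 _).trans_le hμ1
  have hC : (0 : ℝ) < (#G).choose c := by exact_mod_cast Nat.choose_pos hcn.le
  have hm0 : (0 : ℝ) < #J := by rw [← hμ]; positivity
  have hB0 : (0 : ℝ) ≤ exc G J D := Nat.cast_nonneg _
  obtain ⟨L, hLd⟩ : ∃ L : ℝ, L = log (1 / μ) := ⟨_, rfl⟩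
  have hLμ : L = -log μ := by rw [hLd, one_div, log_inv]
  obtain ⟨Λ, hΛd⟩ : ∃ Λ : ℝ, Λ = log (#G / μ) := ⟨_, rfl⟩
  have hΛe : Λ = log #G + L := by rw [hΛd, log_div hn0.ne' hμ0.ne', hLμ]; ring
  rw [← hLd] at hKL hmom'
  rw [← hΛd] at hmom' ⊢
  have hLK : L ≤ K1 * log #G := by
    have := log_le_log (rpow_pos_of_pos hn0 _) hμ1
    rw [log_rpow hn0] at this
    linarith only [hLμ, this]
  have hL2 : 2 / e * β ≤ L := by
    refine le_trans (mul_le_mul_of_nonneg_right ?_ hβ0.le) hKL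
    have : 0 ≤ (6 / e * log (4 / e) + 2 + 6 * K0 / e) / e := by positivity
    linarith only [this]
  have hLnn : 0 ≤ L := le_trans (by positivity) hL2
  have hΛ0 : 0 < Λ := by linarith only [he0, he8, hl1, hΛe, hLnn]
  have hΛK : Λ ≤ (K1 + 1) * log #G := by linarith only [hΛe, hLK]
  have hα0 : 0 < α := by linarith only [ha, hα1]
  have hα3 : 0 < 1 - α := by linarith only [ha, hα2]
  obtain ⟨l, hld⟩ : ∃ l : ℝ, l = log (1 / (1 - α)) := ⟨_, rfl⟩
  have hl0 : α ≤ l := by rw [hld]; exact fe1_log_ge (by linarith only [ha, hα2])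
  have hlpos : 0 < l := by linarith only [ha, hα1, hl0]
  have hlβ : 2 * l ≤ β := by
    have : l ≤ log (1 / a) := by
      rw [hld]
      exact log_le_log (by positivity) (one_div_le_one_div_of_le ha (by linarith only [ha, hα2]))
    linarith only [hβl, this]
  obtain ⟨κ, hκd⟩ : ∃ κ : ℝ, κ = α / ((1 - α) * l) := ⟨_, rfl⟩
  have hκe : c / (((#G : ℝ) - c) * log (#G / ((#G : ℝ) - c))) = κ := by
    rw [hκd, hld, hαd]; exact fe1_kappa hn0 hcnR
  have hκ0 : 0 ≤ κ := by rw [hκd]; positivity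
  rw [hκe] at hmom' ⊢
  have hκmΛ : 0 ≤ κ * (#J * Λ) := by positivity
  suffices hs : (1 - 16 * e) * κ * (#J * Λ) ≤ exc G J D by
    refine le_trans ?_ hs
    rw [mul_assoc, mul_assoc]
    exact mul_le_mul_of_nonneg_right (by linarith only [heε]) hκmΛ
  by_cases hcase : (exc G J D : ℝ) ≤ κ * (#J * Λ)
  swap
  · push Not at hcase
    rw [mul_assoc]
    exact (mul_le_of_le_one_left hκmΛ (by linarith only [he0])).trans hcase.le
  have hmom2 := fun N1 => hmom' hL2 hcase θ N1 hθd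
  clear hmom'
  have he1 : 0 < 1 - e := by linarith only [he0, he8]
  have hθt0 : 0 < θ / (1 + e) := by positivity
  have hθt2 : θ / (1 + e) ≤ 1 := by
    rw [div_le_one (by linarith only [he0, he8])]; linarith only [he0, hθ1]
  have hX : 1 ≤ θ * L + K0 := by linarith only [mul_nonneg hθ0.le hLnn, hK0, hθ0, hLnn]
  have hY0 : 0 < θ / (1 + e) * ((1 - e) * Λ) := by positivity
  obtain ⟨Q, hQd⟩ : ∃ Q : ℝ, Q = (K1 + 1) * log #G := ⟨_, rfl⟩
  have hQ1 : 1 ≤ Q := by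
    rw [hQd]; exact one_le_mul_of_one_le_of_one_le (by linarith only [hK1]) hl1
  have hQ0 : 0 < Q := by linarith only [he0, he8, hl1, hLK, hLnn, hQd]
  have hY1 : θ / (1 + e) * ((1 - e) * Λ) ≤ Q := by
    have h3 : (1 - e) * Λ ≤ Λ := mul_le_of_le_one_left hΛ0.le (by linarith only [he0])
    have h4 : θ / (1 + e) * ((1 - e) * Λ) ≤ 1 * ((1 - e) * Λ) :=
      mul_le_mul_of_nonneg_right hθt2 (by positivity)
    linarith only [hΛe, hLK, hQd, h3, h4]
  obtain ⟨v, hvd⟩ : ∃ v : ℝ, v = #G * (θ * L + K0) / (θ / (1 + e) * ((1 - e) * Λ)) := ⟨_, rfl⟩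
  have hvY : v * (θ / (1 + e) * ((1 - e) * Λ)) = #G * (θ * L + K0) := by
    rw [hvd]; exact div_mul_cancel₀ _ hY0.ne'
  have hv0 : 0 < v := by rw [hvd]; positivity
  have hvn : (#G : ℝ) ≤ Q * v := by
    have h3 : (#G : ℝ) ≤ #G * (θ * L + K0) := le_mul_of_one_le_right hn0.le hX
    have h4 : v * (θ / (1 + e) * ((1 - e) * Λ)) ≤ v * Q := mul_le_mul_of_nonneg_left hY1 hv0.le
    linarith only [hvY, h3, h4]
  have hlg2 : log (#G : ℝ) ^ 2 ≤ log (#G : ℝ) ^ 3 := pow_le_pow_right₀ hl1 (by norm_num)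
  have hlg1 : log (#G : ℝ) ≤ log (#G : ℝ) ^ 3 := by
    simpa using pow_le_pow_right₀ hl1 (show 1 ≤ 3 by norm_num)
  have hp1 : 0 ≤ (K1 + 1) ^ 2 / e := by positivity
  have hp2 : 0 ≤ (K1 + 1) / e := by positivity
  have hlg3 : 0 ≤ log (#G : ℝ) ^ 3 := by positivity
  have hev : 1 ≤ e * v := by
    have h3 : (K1 + 1) / e * log #G ≤ #G := (fe1_n3 hp1 hp2 hlg3 hlg1 hl3).2.trans hp1n
    rw [div_mul_eq_mul_div, ← hQd, div_le_iff₀ he0] at h3
    have h4 : Q * 1 ≤ Q * (e * v) := by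
      calc Q * 1 = Q := mul_one Q
        _ ≤ #G * e := h3
        _ ≤ Q * v * e := mul_le_mul_of_nonneg_right hvn he0.le
        _ = _ := by ring
    exact le_of_mul_le_mul_left h4 hQ0
  obtain ⟨N1, hN1d⟩ : ∃ N1 : ℕ, N1 = min #G ⌈v⌉₊ := ⟨_, rfl⟩
  have hN1n : N1 ≤ #G := by rw [hN1d]; exact min_le_left _ _
  have hN1v : (N1 : ℝ) ≤ (1 + e) * v := by
    have h3 : N1 ≤ ⌈v⌉₊ := by rw [hN1d]; exact min_le_right _ _
    have h4 : (N1 : ℝ) ≤ ⌈v⌉₊ := by exact_mod_cast h3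
    have h5 := (Nat.ceil_lt_add_one hv0.le).le
    linarith only [hev, h4, h5]
  have hN1or : N1 = #G ∨ v ≤ N1 := by
    rcases le_total #G ⌈v⌉₊ with h3 | h3
    · left; rw [hN1d, min_eq_left h3]
    · right; rw [hN1d, min_eq_right h3]; exact Nat.le_ceil v
  have hN1l : (#G : ℝ) ≤ Q * N1 := by
    rcases hN1or with h3 | h3
    · rw [h3]; exact le_mul_of_one_le_left hn0.le hQ1
    · exact hvn.trans (mul_le_mul_of_nonneg_left h3 hQ0.le)
  have hN10 : (0 : ℝ) < N1 := by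
    by_contra h3
    have h4 : Q * N1 ≤ 0 := mul_nonpos_of_nonneg_of_nonpos hQ0.le (not_lt.1 h3)
    linarith only [he0, he8, hnR, hN1l, h4]
  have hN1p : 0 < N1 := by exact_mod_cast hN10
  have hηN : Q ≤ e * (1 - α) * N1 * a := by
    have h3 : (K1 + 1) ^ 2 / e * log (#G : ℝ) ^ 2 ≤ a * a * #G :=
      (fe1_n3 hp1 hp2 hlg3 hlg2 hl3).1.trans hp18
    rw [div_mul_eq_mul_div, ← mul_pow, ← hQd] at h3
    refine (fe1_win hQ0 ha he0 h3 hN1l).trans ?_
    have h4 : a ≤ 1 - α := by linarith only [ha, hα2]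
    gcongr
  have hAv : Av G (#G - N1) (pw J G c (1 + θ)) ≤ (1 + 2 * e) * #J * μ ^ θ := by
    refine hmom2 N1 hN1n (hN1or.imp id fun h3 => ?_)
    rw [← hvY, mul_comm v]
    exact mul_le_mul_of_nonneg_left h3 hY0.le
  obtain ⟨a', ha'd⟩ : ∃ a' : ℝ, a' = log (4 / e) / θ := ⟨_, rfl⟩
  have ha'0 : 0 ≤ a' := by rw [ha'd]; positivity
  have hK0θ : 0 < K0 / θ := by positivity
  have heL : a' + (1 + 6 * e) * l + K0 / θ ≤ e * L := by
    rw [ha'd, hθd]
    exact fe1_K he0 he8 hβ0 hlpos.le hlβ hKL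
  have heL1 : e * L ≤ L := mul_le_of_le_one_left hLnn (by linarith only [he0, he8])
  have hl6 : 0 < (1 + 6 * e) * l := by positivity
  have hl7 : l ≤ (1 + 6 * e) * l := le_mul_of_one_le_left hlpos.le (by linarith only [he0])
  have hLa : 0 ≤ L - a' := by linarith only [ha, hα1, hl0, hK0θ, heL, heL1, hl7]
  obtain ⟨w, hwd⟩ : ∃ w : ℕ, w = ⌊(L - a') / ((1 + 6 * e) * l)⌋₊ := ⟨_, rfl⟩
  have hw1 : (w : ℝ) * ((1 + 6 * e) * l) ≤ L - a' := by
    rw [← le_div_iff₀ hl6, hwd]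
    exact Nat.floor_le (by positivity)
  have hw2 : L - a' - (1 + 6 * e) * l ≤ w * ((1 + 6 * e) * l) := by
    have h3 : (L - a') / ((1 + 6 * e) * l) < w + 1 := by rw [hwd]; exact Nat.lt_floor_add_one _
    rw [div_lt_iff₀ hl6] at h3
    linarith only [h3]
  have hw0 : (0 : ℝ) ≤ w := Nat.cast_nonneg _
  have hwN : (w : ℝ) ≤ e * (1 - α) * N1 := by
    refine le_of_mul_le_mul_right (le_trans ?_ hηN) ha
    have h3 : (w : ℝ) * a ≤ w * ((1 + 6 * e) * l) := mul_le_mul_of_nonneg_left (by linarith only [ha, hα1, hl0, hl7]) hw0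
    linarith only [he0, he8, hl1, hLK, hQd, ha'0, hw1, h3]
  have h1N : 1 ≤ e * (1 - α) * N1 := by
    refine le_of_mul_le_mul_right (le_trans ?_ hηN) ha
    linarith only [he0, he8, hl1, ha, hα1, hLK, hl0, hQd, ha'0, hK0θ, heL, heL1, hl7]
  obtain ⟨T, hTd⟩ : ∃ T : ℝ, T = μ * exp a' := ⟨_, rfl⟩
  have hT0 : 0 < T := by rw [hTd]; positivity
  have hTw : T ≤ exp (-((1 + 6 * e) * w * log (1 / (1 - α)))) := by
    rw [← hld, ← log_le_iff_le_exp hT0, hTd, log_mul hμ0.ne' (exp_pos _).ne', log_exp]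
    linarith only [hLμ, hw1]
  have hf0 : 0 ≤ (1 - 3 * e) * w * (α / (1 - α)) :=
    mul_nonneg (mul_nonneg (by linarith only [he0, he8]) hw0) (by positivity)
  have hr : #G - N1 < #G := Nat.sub_lt hn1 hN1p
  have hcast : (#G : ℝ) - ((#G - N1 : ℕ) : ℝ) = N1 := by
    rw [Nat.cast_sub hN1n]; ring
  have hE2 : Av G (#G - N1) (atyp G c (e * (3 * a))) ≤ e / 2 * #J := by
    refine (hat _ hc0 hcn hr.le).trans ?_
    rw [hcast]
    have h3 := hz' (e ^ 2 * a * N1) (by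
      have h4 : (K1 + 1) / e ^ 2 * log #G * (e ^ 2 * a * N1) = a * (Q * N1) := by
        rw [hQd]; field_simp
      rw [h4]
      exact hp56.trans (mul_le_mul_of_nonneg_left hN1l ha.le))
    have h4 := zeta_nonneg #G 1 (e ^ 2 * a * N1)
    have h5 : zeta #G 1 (e ^ 2 * a * N1) ≤ (#G : ℝ) ^ 2 * zeta #G 1 (e ^ 2 * a * N1) :=
      le_mul_of_one_le_left h4 (one_le_pow₀ hnR)
    have h6 : e / 2 * (#G : ℝ) ^ (-K1) ≤ e / 2 * μ :=
      mul_le_mul_of_nonneg_left hμ1 (by positivity)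
    rw [← hμ, ← mul_assoc]
    exact mul_le_mul_of_nonneg_right (by linarith only [h3, h5, h6]) hC.le
  have hmk := markovU hP hr hf0 hT0 hθ0 hE2 (by
    intro S hS hSr x hx hxc ht hM
    have h3 : #(G \ S) = N1 := by rw [card_sdiff_of_subset hS, hSr]; omega
    rw [h3a, ← hαd] at ht
    exact fib_kkU hP hS hx hxc he0 (by linarith only [he0, he8]) hα0 (by linarith only [ha, hα2]) ht (by rw [h3]; exact h1N)
      (by rw [h3]; exact hwN) hTw hM)
  rw [hcast] at hmk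
  have hE1 : T ^ (-θ) * Av G (#G - N1) (pw J G c (1 + θ)) ≤ e / 2 * #J := by
    have h3 : T ^ (-θ) * μ ^ θ = e / 4 := by
      rw [hTd, ha'd]; exact fe1_n8 hμ0 hθ0 he0
    calc T ^ (-θ) * Av G (#G - N1) (pw J G c (1 + θ))
        ≤ T ^ (-θ) * ((1 + 2 * e) * #J * μ ^ θ) :=
          mul_le_mul_of_nonneg_left hAv (rpow_nonneg hT0.le _)
      _ = (1 + 2 * e) * (T ^ (-θ) * μ ^ θ) * #J := by ring
      _ ≤ e / 2 * #J := by
          rw [h3]
          exact mul_le_mul_of_nonneg_right (fe1_n2 he0 he8) hm0.le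
  refine fe1_final (Y := L + K0 / θ) (β := (1 - 3 * e) * w * (α / (1 - α))) he0 he8
    (by linarith only [ha, hα1, hl0, ha'0, hK0θ, heL, heL1, hl7]) hΛ0 hn0 (fe1_v he0 he8 hθ0 hΛ0 hvY hN1v) hκ0 ?_ hm0.le hB0 ?_
  · have h4 : (1 - e) * (L + K0 / θ) ≤ w * ((1 + 6 * e) * l) := fe1_n1 he0 hK0θ heL hw2
    calc (1 - 3 * e) * ((1 - e) * (L + K0 / θ)) * κ
        ≤ (1 - 3 * e) * (w * ((1 + 6 * e) * l)) * κ :=
          mul_le_mul_of_nonneg_right (mul_le_mul_of_nonneg_left h4 (by linarith only [he0, he8])) hκ0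
      _ = _ := by rw [hκd]; field_simp
  · refine le_trans (mul_le_mul_of_nonneg_left ?_ hf0) hmk
    linarith only [hE1]

end Pool.Agent.P.MP_4f3dfd_co.Ex
end

-- part Pool.Agent.P.MP_4f3dfd_co.FL2
section

set_option autoImplicit false
set_option linter.unusedSectionVars false
set_option linter.unusedVariables false

namespace Pool.Agent.P.MP_4f3dfd_co.Ex

open Finset Real

variable {V : Type*} [DecidableEq V]

theorem fl2_small {c m w t n k B : ℝ} (hm : 0 ≤ m) (hc0 : 0 ≤ c) (hc : c ≤ n) (hw0 : 0 ≤ w)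
    (hw : w ≤ 100) (ht : 1 ≤ t) (hk : w + t = k + 2) (hB : 0 ≤ B) (h : n * m ≤ 2 * (k * B)) :
    c * m * w / t ≤ 20200 * B := by
  rw [div_le_iff₀ (by linarith)]
  have h1 : c * m ≤ n * m := mul_le_mul_of_nonneg_right hc hm
  have h2 : c * m * w ≤ n * m * 100 :=
    mul_le_mul h1 hw hw0 ((mul_nonneg hc0 hm).trans h1)
  have h3 : k * B ≤ 101 * t * B := mul_le_mul_of_nonneg_right (by linarith) hB
  nlinarith

theorem fl2_fin {c m w t n k B N : ℝ} (hm : 0 ≤ m) (hc0 : 0 ≤ c) (hc : c ≤ n) (hw0 : 0 ≤ w)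
    (hw : w ≤ n) (ht : 1 ≤ t) (hk : k ≤ n) (hn0 : 0 < n) (hn : n ≤ N) (hB : 0 ≤ B)
    (h : n * m ≤ 2 * (k * B)) : c * m * w / t ≤ 2 * N ^ 2 * B := by
  have h1 : k * B ≤ n * B := mul_le_mul_of_nonneg_right hk hB
  have h2 : m ≤ 2 * B := le_of_mul_le_mul_left (a := n) (by linarith) hn0
  have h3 : c * m * w / t ≤ c * m * w := div_le_self (by positivity) ht
  have h4 : c * m * w ≤ N * (2 * B) * N :=
    mul_le_mul (mul_le_mul (hc.trans hn) h2 hm (by linarith)) (hw.trans hn) hw0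
      (mul_nonneg (by linarith) (by linarith))
  calc c * m * w / t ≤ N * (2 * B) * N := h3.trans h4
    _ = 2 * N ^ 2 * B := by ring

theorem fl2_link {P w t u s B : ℝ} (hP : 0 ≤ P) (ht : 0 < t) (hs : 0 < s) (hst : s ≤ 8 * t)
    (hw : w ≤ 10 * u) (hB : 0 ≤ B) (h : P * u / s ≤ B) : P * w / t ≤ 80 * B := by
  rw [div_le_iff₀ hs] at h
  rw [div_le_iff₀ ht]
  have h1 : P * w ≤ P * (10 * u) := mul_le_mul_of_nonneg_left hw hP
  have h2 : B * s ≤ B * (8 * t) := mul_le_mul_of_nonneg_left hst hB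
  nlinarith

theorem fl2_D {c m w t n B C c0 l β : ℝ} (hm : 0 ≤ m) (hc0 : 0 ≤ c) (hc : c < n) (hw0 : 0 ≤ w)
    (ht : 3 * (n - c) ≤ 4 * t) (hB : 0 ≤ B) (hC : 0 < C) (h0 : 0 < c0) (hβ : 0 < β)
    (h1 : w * β ≤ C * l) (h2 : c0 * (m * l / β) ≤ (1 - c / n) * B) :
    c * m * w / t ≤ 2 * C / c0 * B := by
  have hn : 0 < n := by linarith
  have ht0 : 0 < t := by linarith
  have h3 : w ≤ C * (l / β) := by
    rw [← mul_div_assoc, le_div_iff₀ hβ]; exact h1
  have h4 : n * (m * (l / β)) ≤ (n - c) * B / c0 := by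
    rw [le_div_iff₀ h0]
    have e : (1 - c / n) * B = (n - c) * B / n := by field_simp
    rw [e, le_div_iff₀ hn, mul_div_assoc] at h2
    linarith
  have h5 : c * m * w ≤ n * m * (C * (l / β)) :=
    mul_le_mul (mul_le_mul_of_nonneg_right hc.le hm) h3 hw0 (by positivity)
  have h6 : (n - c) * B / c0 ≤ 2 * t * B / c0 :=
    div_le_div_of_nonneg_right (mul_le_mul_of_nonneg_right (by linarith) hB) h0.le
  rw [div_le_iff₀ ht0]
  calc c * m * w ≤ C * (n * (m * (l / β))) := by linarith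
    _ ≤ C * (2 * t * B / c0) := mul_le_mul_of_nonneg_left (h4.trans h6) hC.le
    _ = 2 * C / c0 * B * t := by ring

theorem fl2_S {c m w t n B C c0 l ρ : ℝ} (hm : 0 ≤ m) (hn : 0 < n) (hc : 2 * c ≤ n)
    (ht : 3 * (n - c) ≤ 4 * t) (hB : 0 ≤ B) (hC : 0 < C) (h0 : 0 < c0)
    (h1 : c * w ≤ C * (n * l * ρ)) (h2 : c0 * (m * l * ρ) ≤ B) :
    c * m * w / t ≤ 3 * C / c0 * B := by
  have ht0 : 0 < t := by linarith
  have h3 : m * l * ρ ≤ B / c0 := by
    rw [le_div_iff₀ h0]; linarith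
  have h4 : m * (c * w) ≤ m * (C * (n * l * ρ)) := mul_le_mul_of_nonneg_left h1 hm
  have h5 : n * (m * l * ρ) ≤ 3 * t * (B / c0) :=
    (mul_le_mul_of_nonneg_left h3 hn.le).trans
      (mul_le_mul_of_nonneg_right (by linarith) (by positivity))
  rw [div_le_iff₀ ht0]
  calc c * m * w ≤ C * (n * (m * l * ρ)) := by linarith
    _ ≤ C * (3 * t * (B / c0)) := mul_le_mul_of_nonneg_left h5 hC.le
    _ = 3 * C / c0 * B * t := by ring

theorem fl2_blk {n c m : ℕ} (hn : 0 < n) (hc : 1 ≤ c) (hcn : c ≤ n)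
    {J : Finset (Finset (Fin n))} (hJ : Reg n c m J) (k : Fin n) :
    aa n c * n * #(blk J (shadow J) k) ≤ exc univ J (shadow J) := by
  obtain ⟨h1, -, d, hd⟩ := hJ
  have := blk_le_of_regJ (pair_shadow hc h1) (d := d) (fun i _ => hd i) (mem_univ k)
  rw [card_univ, Fintype.card_fin] at this
  refine le_trans (mul_le_mul_of_nonneg_right ?_ (Nat.cast_nonneg _)) this
  have h2 := aa_hi hn c
  have h3 : (c : ℝ) ≤ n := by exact_mod_cast hcn
  linarith

theorem lo_orderU : ∃ C : ℝ, 0 < C ∧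
    ∀ (n c m d x : ℕ) (J : Finset (Finset (Fin n))), Par n c d x → c * m = d * n →
      Reg n c m J → 2 * m ≤ n.choose c → eL n c m x ≤ C * ex n c m #(shadow J) := by
  obtain ⟨C, hC, N1, h1⟩ := core_num
  obtain ⟨c1, hc1, N2, h2⟩ := core_D
  obtain ⟨c2, hc2, N3, h3⟩ := core_S
  obtain ⟨N, hN1, hN2, hN3⟩ : ∃ N : ℕ, N1 ≤ N ∧ N2 ≤ N ∧ N3 ≤ N :=
    ⟨N1 + N2 + N3, by omega, by omega, by omega⟩
  have p1 : (0 : ℝ) ≤ 2 * (N : ℝ) ^ 2 := by positivity
  have p2 : 0 < 2 * C / c1 := by positivity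
  have p3 : 0 < 3 * C / c2 := by positivity
  refine ⟨20200 + 2 * (N : ℝ) ^ 2 + 2 * C / c1 + 3 * C / c2, by linarith,
    fun n c m d x J hP hm hJ hh => ?_⟩
  have c2' := hP.hc
  have cn' := hP.hcn
  have xn' := hP.hx
  have cx' := hP.c_le
  have n0' : 0 < n := by omega
  have c1' : 1 ≤ c := by omega
  have cn'' : c ≤ n := by omega
  have cn : (c : ℝ) + 2 ≤ n := by exact_mod_cast cn'
  have xn : (x : ℝ) + 1 ≤ n := by exact_mod_cast xn'
  have cx : (c : ℝ) ≤ x + 1 := by exact_mod_cast cx'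
  have c0 : (0 : ℝ) ≤ c := Nat.cast_nonneg c
  have x0 : (0 : ℝ) ≤ x := Nat.cast_nonneg x
  have m0 : (0 : ℝ) ≤ m := Nat.cast_nonneg m
  have n0 : (0 : ℝ) < n := by exact_mod_cast n0'
  have hB : 0 ≤ ex n c m #(shadow J) := by
    rw [← exc_shadow c1' hJ]; exact Nat.cast_nonneg _
  have hv := var_lo c1' cn'' hJ hh
  have fin : ∀ A : ℝ, A ≤ 20200 + 2 * (N : ℝ) ^ 2 + 2 * C / c1 + 3 * C / c2 →
      eL n c m x ≤ A * ex n c m #(shadow J) →
      eL n c m x ≤ (20200 + 2 * (N : ℝ) ^ 2 + 2 * C / c1 + 3 * C / c2) * ex n c m #(shadow J) :=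
    fun A hA h => h.trans (mul_le_mul_of_nonneg_right hA hB)
  by_cases hw : (n : ℝ) - x ≤ 100
  · exact fin 20200 (by linarith) (fl2_small (n := n) (k := (n : ℝ) - c) m0 c0 (by linarith)
      (by linarith) hw (by linarith) (by ring) hB hv)
  rcases lt_or_ge n N with hn | hn
  · have hn' : (n : ℝ) ≤ N := by exact_mod_cast hn.le
    exact fin (2 * (N : ℝ) ^ 2) (by linarith) (fl2_fin (n := n) (k := (n : ℝ) - c) m0 c0
      (by linarith) (by linarith) (by linarith) (by linarith) (by linarith) n0 hn' hB hv)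
  obtain ⟨z, xz', zn', hz1, hz2⟩ := hP.link
  have xz : (x : ℝ) ≤ z := by exact_mod_cast xz'
  by_cases hf : (n : ℝ) - x ≤ 10 * ((n : ℝ) - z - 1)
  · exact fin 80 (by linarith) (fl2_link (mul_nonneg c0 m0) (by linarith) (by linarith)
      (link_t8 hP xz' zn' hz1) hf hB (link_loU c2' hJ hm zn' hz2))
  have hw' := not_le.1 hw
  have hfar := link_far hP xz' zn' hz1 hw' (not_le.1 hf)
  have ha0 : 0 < aa n c := by
    have : (2 : ℝ) ≤ c := by exact_mod_cast c2'
    unfold aa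
    exact div_pos (lt_min (by linarith) (by linarith)) (by linarith)
  have ha1 := aa_le n0' c
  obtain ⟨k1, k2, k3, k4, k5⟩ := h1 n c d x (hN1.trans hn) hP hw' hfar (aa n c) (by linarith)
    (by linarith)
  obtain ⟨s1, s2, -, s4, -⟩ := hP.size hm
  have hβ : 0 < bt (aa n c) := by
    have := bt_ge ha0 (by linarith)
    linarith
  have m1 : (0 : ℝ) < m := by exact_mod_cast s1
  have hCh : (0 : ℝ) < n.choose c := by exact_mod_cast Nat.choose_pos cn''
  have hh' : (2 : ℝ) * m ≤ n.choose c := by exact_mod_cast hh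
  have hμ2 : (m : ℝ) / n.choose c ≤ 1 / 2 := (div_le_iff₀ hCh).2 (by linarith)
  have hL := hP.lg_pos
  have hμ1 : 1 / (n : ℝ) ≤ (m : ℝ) / n.choose c := by
    have h4 : log ((n.choose c : ℝ) / m) ≤ log n := by rw [← s4]; linarith
    have h5 : (n.choose c : ℝ) / m ≤ n := (log_le_log_iff (by positivity) n0).1 h4
    rw [div_le_iff₀ m1] at h5
    rw [div_le_div_iff₀ n0 hCh]
    linarith
  have hmin := min_le_right (c : ℝ) ((n : ℝ) - c)
  have ht : 3 * ((n : ℝ) - c) ≤ 4 * ((x : ℝ) - c + 2) := by linarith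
  have hblk : ∀ k ∈ (univ : Finset (Fin n)),
      aa n c * n * #(blk J (shadow J) k) ≤ exc univ J (shadow J) :=
    fun k _ => fl2_blk n0' c1' cn'' hJ k
  rcases le_total n (2 * c) with hc | hc
  · have key := h2 n univ c J (shadow J) (m / n.choose c)
    rw [card_univ, Fintype.card_fin, hJ.2.1] at key
    have key2 := key (hN2.trans hn) (pair_shadow c1' hJ.1) k1 (div_mul_cancel₀ _ hCh.ne') hblk
      hμ1 hμ2 hc
    rw [exc_shadow c1' hJ] at key2
    exact fin (2 * C / c1) (by linarith) (fl2_D m0 c0 (by linarith) (by linarith) ht hB hC hc1 hβ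
      (k4 (by omega)) key2)
  · have key := h3 n univ c J (shadow J) (m / n.choose c)
    rw [card_univ, Fintype.card_fin, hJ.2.1] at key
    have key2 := key (hN3.trans hn) (pair_shadow c1' hJ.1) k1 (div_mul_cancel₀ _ hCh.ne') hblk
      hμ1 hμ2 hc
    rw [exc_shadow c1' hJ, one_div_div, ← s4] at key2
    have hc' : 2 * (c : ℝ) ≤ n := by exact_mod_cast hc
    exact fin (3 * C / c2) (by linarith) (fl2_S m0 n0 hc' ht hB hC hc2 (k5 hc) key2)

end Pool.Agent.P.MP_4f3dfd_co.Ex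
end

-- part Pool.Agent.P.MP_4f3dfd_co.FL3
section

set_option autoImplicit false
set_option linter.unusedSectionVars false
set_option linter.unusedVariables false

namespace Pool.Agent.P.MP_4f3dfd_co.Ex

open Finset Real

variable {V : Type*} [DecidableEq V]

theorem fl3_D {m w β C l Js c0 B k c n : ℝ} (hm : 0 ≤ m) (hβ : 0 < β) (hC : 0 < C) (hl : 0 ≤ l)
    (hc0 : 0 < c0) (hB : 0 ≤ B) (hc : 0 < c) (hn : 0 < n) (hk : 0 ≤ k) (hkn : c + k = n)
    (hc1 : 1 ≤ c) (hJ : 0 ≤ Js) (h1 : w * β ≤ C * l) (h2 : c * m ≤ 2 * ((k + 1) * Js))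
    (h3 : c0 * (Js * l / β) ≤ (1 - (k + 1) / n) * B) : m * w ≤ 2 * C / c0 * B := by
  have e1 : 1 - (k + 1) / n ≤ c / n := by
    rw [sub_le_iff_le_add, ← add_div, le_div_iff₀ hn]
    linarith
  have e2 : c0 * (Js * l / β) ≤ c / n * B := h3.trans (mul_le_mul_of_nonneg_right e1 hB)
  have e3 : c * m ≤ 2 * (n * Js) := by nlinarith only [hkn, hc1, hJ, h2]
  have e4 : w ≤ C * (l / β) := by
    rw [← mul_div_assoc, le_div_iff₀ hβ]
    exact h1
  have e5 : 0 ≤ l / β := by positivity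
  rw [mul_div_assoc] at e2
  generalize l / β = u at e2 e4 e5
  rw [div_mul_eq_mul_div, le_div_iff₀ hn] at e2
  rw [div_mul_eq_mul_div, le_div_iff₀ hc0]
  refine le_of_mul_le_mul_left ?_ hc
  have e6 := mul_le_mul_of_nonneg_left e4 (mul_nonneg (mul_nonneg hc.le hm) hc0.le)
  have e7 := mul_le_mul_of_nonneg_right e3 (mul_nonneg (mul_nonneg hC.le e5) hc0.le)
  have e8 := mul_le_mul_of_nonneg_left e2 hC.le
  linarith

theorem fl3_S {m w ρ C l Js c0 B k c n : ℝ} (hm : 0 ≤ m) (hρ : 0 ≤ ρ) (hC : 0 < C) (hl : 0 ≤ l)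
    (hc0 : 0 < c0) (hB : 0 ≤ B) (hn : 0 < n) (hk : 1 ≤ k) (hcn : n ≤ 2 * c)
    (hJ : 0 ≤ Js) (h1 : k * w ≤ C * (n * l * ρ)) (h2 : c * m ≤ 2 * ((k + 1) * Js))
    (h3 : c0 * (Js * l * ρ) ≤ B) : m * w ≤ 8 * C / c0 * B := by
  have hk0 : 0 < k := by linarith
  have e3 : n * m ≤ 8 * (k * Js) := by nlinarith only [hm, hk, hcn, hJ, h2]
  have e5 : 0 ≤ l * ρ := by positivity
  rw [mul_assoc] at h1 h3
  generalize l * ρ = u at h1 h3 e5
  rw [div_mul_eq_mul_div, le_div_iff₀ hc0]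
  refine le_of_mul_le_mul_left ?_ hk0
  have e6 := mul_le_mul_of_nonneg_left h1 (mul_nonneg hm hc0.le)
  have e7 := mul_le_mul_of_nonneg_right e3 (mul_nonneg (mul_nonneg hC.le e5) hc0.le)
  have e8 := mul_le_mul_of_nonneg_left h3 (mul_nonneg hC.le hk0.le)
  linarith

theorem hi_orderU : ∃ C : ℝ, 0 < C ∧
    ∀ (n c k m m' d y : ℕ) (J : Finset (Finset (Fin n))), c + k = n → m + m' = n.choose c →
      Par n k d y → k * m' = d * n → Reg n c m J → 2 * m' ≤ n.choose c →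
      m' * ((n : ℝ) - y) ≤ C * ex n c m #(shadow J) := by
  obtain ⟨C, hC, N1, hN1⟩ := core_num
  obtain ⟨c1, hc1, N2, hN2⟩ := core_D
  obtain ⟨c2, hc2, N3, hN3⟩ := core_S
  have q0 : (0 : ℝ) ≤ ((N1 + N2 + N3 : ℕ) : ℝ) := Nat.cast_nonneg _
  have q1 : 0 < 2 * C / c1 := by positivity
  have q2 : 0 < 8 * C / c2 := by positivity
  refine ⟨200 + 2 * ((N1 + N2 + N3 : ℕ) : ℝ) + 2 * C / c1 + 8 * C / c2, by positivity,
    fun n c k m m' d y J hk hm hP hd hJ h2 => ?_⟩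
  have k2 := hP.hc
  have k3 := hP.hcn
  have c2' : 2 ≤ c := by omega
  have hc : 1 ≤ c := by omega
  have hv := var_hi hc (by omega) hm hJ h2
  have B0 := ex_nonneg' hc hJ
  have M0 : (0 : ℝ) ≤ m' := Nat.cast_nonneg _
  have p0 := mul_nonneg q0 B0
  have p1 := mul_nonneg q1.le B0
  have p2 := mul_nonneg q2.le B0
  rw [add_mul, add_mul, add_mul, mul_assoc 2]
  rcases le_or_gt ((n : ℝ) - y) 100 with hw | hw
  · have := mul_le_mul_of_nonneg_left hw M0
    linarith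
  rcases lt_or_ge n (N1 + N2 + N3) with hn | hn
  · have e1 : (n : ℝ) - y ≤ ((N1 + N2 + N3 : ℕ) : ℝ) := by
      have e2 : (n : ℝ) ≤ ((N1 + N2 + N3 : ℕ) : ℝ) := by exact_mod_cast hn.le
      have e3 : (0 : ℝ) ≤ y := Nat.cast_nonneg _
      linarith
    have e4 := mul_le_mul_of_nonneg_left e1 M0
    have e5 := mul_le_mul_of_nonneg_left hv q0
    linarith
  obtain ⟨z, z1, z2, z3, z4⟩ := hP.link
  rcases le_or_gt ((n : ℝ) - y) (10 * ((n : ℝ) - z - 1)) with hf | hf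
  · have e1 := link_hiU hk hc k2 hm hJ hd z2 z4
    have e2 := mul_le_mul_of_nonneg_left hf M0
    linarith only [hv, p0, p1, p2, e1, e2]
  have hfar := link_far hP z1 z2 z3 hw hf
  have n0' : 0 < n := by omega
  have n0 : (0 : ℝ) < n := by exact_mod_cast n0'
  have n4 : (4 : ℝ) ≤ n := by exact_mod_cast (show 4 ≤ n by omega)
  have hkR : (c : ℝ) + k = n := by exact_mod_cast hk
  have cR : (2 : ℝ) ≤ c := by exact_mod_cast c2'
  have kR : (2 : ℝ) ≤ k := by exact_mod_cast k2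
  have c0' : (0 : ℝ) < c := by linarith
  have a1 : aa n k / 2 ≤ aa n (k + 1) := by
    unfold aa
    rw [div_right_comm]
    refine div_le_div_of_nonneg_right ?_ (by positivity)
    have e1 := min_le_left (k : ℝ) ((n : ℝ) - k)
    have e2 := min_le_right (k : ℝ) ((n : ℝ) - k)
    push_cast
    exact le_min (by linarith) (by linarith)
  have a2 := aa_le n0' (k + 1)
  obtain ⟨g1, g2, g3, g4, g5⟩ := hN1 n k d y (by omega) hP hw hfar _ a1 (by linarith only [a2])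
  have a0 : 0 < aa n (k + 1) := lt_of_lt_of_le (by positivity) g1
  have b0 : 0 < bt (aa n (k + 1)) := lt_of_lt_of_le (by norm_num) (bt_ge a0 (by linarith only [a2, a0]))
  obtain ⟨Js, Ds, μ, hp, hB, -, -, hblk, hμ, hJs, hμ'⟩ := dual_pack hk hc hm hJ
  rw [← hB] at B0 p0 p1 p2 hv ⊢
  have g6 := g3.trans (min_le_right _ _)
  rcases le_total ((c : ℝ) * m') (2 * exc univ Js Ds) with hb | hb
  · have e1 : (n : ℝ) - y ≤ c := by linarith only [hw, hkR, a2, a0, g6]
    have e2 := mul_le_mul_of_nonneg_left e1 M0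
    linarith only [p2, p1, p0, hb, e2]
  obtain ⟨s1, -, -, s4, -⟩ := hP.size hd
  rw [Nat.choose_symm_of_eq_add (show n = k + c by omega)] at s4
  have M1 : (0 : ℝ) < m' := by exact_mod_cast s1
  have hCh : (0 : ℝ) < n.choose c := by exact_mod_cast Nat.choose_pos (by omega)
  have h2' : 2 * (m' : ℝ) ≤ n.choose c := by exact_mod_cast h2
  have m1 : μ * n.choose c ≤ m' := le_of_mul_le_mul_left (by linarith only [hv, hμ', M1]) c0'
  have m2 : (m' : ℝ) / 2 ≤ μ * n.choose c := le_of_mul_le_mul_left (by linarith only [hμ', hb]) c0'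
  have m4 : μ ≤ 1 / 2 := le_of_mul_le_mul_right (by linarith only [h2', m1]) hCh
  have μ0 : 0 < μ := (mul_pos_iff_of_pos_right hCh).1 (by linarith)
  have l0 : 0 ≤ log (n : ℝ) := log_nonneg (by linarith only [hw, kR, a2, a0, g6])
  have m3 : 1 / (n : ℝ) ≤ μ := by
    have e1 : log 4 ≤ log (n : ℝ) := log_le_log (by norm_num) n4
    have e2 : log 4 = 2 * log 2 := by
      rw [show (4 : ℝ) = 2 ^ 2 by norm_num, log_pow]
      norm_num
    have e3 : log (2 * ((n.choose c : ℝ) / m')) ≤ log (n : ℝ) := by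
      rw [log_mul (by norm_num) (by positivity), ← s4]
      linarith only [g2, l0, e1, e2]
    have e4 := (log_le_log_iff (by positivity) n0).1 e3
    rw [← mul_div_assoc, div_le_iff₀ M1] at e4
    rw [div_le_iff₀ n0]
    refine le_of_mul_le_mul_right ?_ hCh
    have e5 := mul_le_mul_of_nonneg_left m2 n0.le
    linarith only [e4, e5]
  have hblk' : ∀ i ∈ (univ : Finset (Fin n)),
      aa n (k + 1) * n * #(blk Js Ds i) ≤ exc univ Js Ds := fun i _ => by
    refine le_trans (mul_le_mul_of_nonneg_right ?_ (Nat.cast_nonneg _)) (hblk i)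
    have e1 := aa_lo n0' (k + 1)
    push_cast at e1
    linarith only [kR, a2, a0, e1]
  have J0 : (0 : ℝ) ≤ #Js := Nat.cast_nonneg _
  have j1 : (c : ℝ) * m' ≤ 2 * (((k : ℝ) + 1) * #Js) := by linarith only [hJs, hb]
  rcases le_total n (2 * (k + 1)) with hh | hh
  · have core := hN2 n univ (k + 1) Js Ds μ
    rw [card_fin] at core
    have core' := core (by omega) hp g1 hμ hblk' m3 m4 hh
    rw [Nat.cast_add, Nat.cast_one] at core'
    have := fl3_D M0 b0 hC l0 hc1 B0 c0' n0 (by linarith only [kR, a2, a0]) hkR (by linarith only [hw, hkR, a2, a0, g6]) J0 (g4 (by omega)) j1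
      core'
    linarith only [hv, p2, p0, M1, this]
  · have core := hN3 n univ (k + 1) Js Ds μ
    rw [card_fin] at core
    have core' := core (by omega) hp g1 hμ hblk' m3 m4 hh
    have e1 : lg n k d ≤ log (1 / μ) := by
      rw [s4]
      refine log_le_log (by positivity) ?_
      rw [div_le_div_iff₀ M1 μ0]
      linarith only [m1]
    have e2 : min 1 (lg n k d / bt (aa n (k + 1))) ≤ min 1 (log (1 / μ) / bt (aa n (k + 1))) :=
      min_le_min_left _ (div_le_div_of_nonneg_right e1 b0.le)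
    have e3 := mul_le_mul_of_nonneg_left
      (mul_le_mul_of_nonneg_left e2 (mul_nonneg J0 l0)) hc2.le
    have e4 : 0 ≤ min 1 (lg n k d / bt (aa n (k + 1))) :=
      le_min zero_le_one (div_nonneg hP.lg_pos.le b0.le)
    have e5 : (n : ℝ) ≤ 2 * c := by exact_mod_cast (show n ≤ 2 * c by omega)
    have := fl3_S M0 e4 hC l0 hc2 B0 n0 (by linarith only [kR, a2, a0]) e5 J0 (g5 (by omega)) j1 (e3.trans core')
    linarith only [hv, p1, p0, M1, this]

end Pool.Agent.P.MP_4f3dfd_co.Ex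
end

-- part Pool.Agent.P.MP_4f3dfd_co.FL4
section

set_option autoImplicit false
set_option linter.unusedSectionVars false
set_option linter.unusedVariables false

namespace Pool.Agent.P.MP_4f3dfd_co.Ex

open Finset Real

variable {V : Type*} [DecidableEq V]

theorem fl4_real {e ε c m D s l Λ t B : ℝ} (he0 : 0 < e) (he : e ≤ 1 / 4) (hε : 4 * e ≤ ε)
    (hc : 0 ≤ c) (hm : 0 ≤ m) (hD : 0 ≤ D) (hs : 0 < s) (hl : 0 < l) (h1 : D * l ≤ (1 + e) * Λ)
    (h2 : (1 - e) * s ≤ t) (h3 : (1 - e) * (c / (s * l)) * (m * Λ) ≤ B) :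
    (1 - ε) * (c * m * D / t) ≤ B := by
  have he' : 0 < 1 - e := by linarith
  have ht : 0 < t := lt_of_lt_of_le (mul_pos he' hs) h2
  have hX : 0 ≤ c * m * D / t := by positivity
  have h4 : (1 - e) * (c * m * D / t) ≤ c * m * D / s := by
    rw [← mul_div_assoc, div_le_div_iff₀ ht hs]
    have := mul_le_mul_of_nonneg_left h2 (show 0 ≤ c * m * D by positivity)
    linarith
  have h5 : c * m * D / s ≤ c / (s * l) * (m * ((1 + e) * Λ)) := by
    have : c * m * D / s = c / (s * l) * (m * (D * l)) := by field_simp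
    rw [this]
    gcongr
  have h6 : (1 - e) * ((1 - e) * (c * m * D / t)) ≤ (1 + e) * B := by
    calc (1 - e) * ((1 - e) * (c * m * D / t)) ≤ (1 - e) * (c / (s * l) * (m * ((1 + e) * Λ))) :=
          mul_le_mul_of_nonneg_left (h4.trans h5) he'.le
      _ = (1 + e) * ((1 - e) * (c / (s * l)) * (m * Λ)) := by ring
      _ ≤ (1 + e) * B := mul_le_mul_of_nonneg_left h3 (by linarith)
  have h7 : (1 + e) * ((1 - ε) * (c * m * D / t)) ≤ (1 - e) * ((1 - e) * (c * m * D / t)) := by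
    rw [← mul_assoc, ← mul_assoc]
    refine mul_le_mul_of_nonneg_right ?_ hX
    nlinarith [sq_nonneg e]
  exact le_of_mul_le_mul_left (h7.trans h6) (by linarith)

theorem fl4_link {e ε P w t u v : ℝ} (he0 : 0 < e) (he : e ≤ 1 / 4) (hε : 4 * e ≤ ε) (hP : 0 ≤ P)
    (hw : 0 ≤ w) (ht : 0 < t) (hv : 0 < v) (h1 : (1 - e) * w ≤ u) (h2 : v ≤ (1 + e) * t) :
    (1 - ε) * (P * w / t) ≤ P * u / v := by
  rw [← mul_div_assoc, div_le_div_iff₀ ht hv]
  have h3 : (1 - 4 * e) * w * v ≤ u * t := by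
    calc (1 - 4 * e) * w * v ≤ (1 - 4 * e) * w * ((1 + e) * t) :=
          mul_le_mul_of_nonneg_left h2 (mul_nonneg (by linarith) hw)
      _ = ((1 - 4 * e) * (1 + e)) * (w * t) := by ring
      _ ≤ (1 - e) * (w * t) := mul_le_mul_of_nonneg_right (by nlinarith [sq_nonneg e]) (by positivity)
      _ = ((1 - e) * w) * t := by ring
      _ ≤ u * t := mul_le_mul_of_nonneg_right h1 ht.le
  have h4 : (1 - ε) * (w * v) ≤ (1 - 4 * e) * (w * v) :=
    mul_le_mul_of_nonneg_right (by linarith) (by positivity)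
  calc (1 - ε) * (P * w) * v = P * ((1 - ε) * (w * v)) := by ring
    _ ≤ P * (u * t) := mul_le_mul_of_nonneg_left (by linarith) hP
    _ = P * u * t := by ring

theorem lo_sharpU (ε : ℝ) (hε : 0 < ε) : ∃ K : ℝ, 0 < K ∧
    ∀ (n c m d x : ℕ) (J : Finset (Finset (Fin n))), Par n c d x → c * m = d * n →
      Reg n c m J → K * min (bb n c) (log c) ≤ lg n c d → K ≤ (x : ℝ) - c + 2 →
      (1 - ε) * eL n c m x ≤ ex n c m #(shadow J) := by
  obtain ⟨e, he0, he1, he2⟩ : ∃ e : ℝ, 0 < e ∧ e ≤ 1 / 4 ∧ 4 * e ≤ ε :=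
    ⟨min ε 1 / 4, by positivity, by linarith [min_le_right ε 1], by linarith [min_le_left ε 1]⟩
  obtain ⟨K1, hK1, h1⟩ := link_sharp e he0
  obtain ⟨K2, hK2, N, h2⟩ := core_sharpU e K1 he0 hK1
  obtain ⟨K3, hK3, h3⟩ := sharp_num e K1 K2 N he0 hK1
  refine ⟨max K1 K3, lt_max_of_lt_left hK1, fun n c m d x J h hm hJ hL ht => ?_⟩
  have hc2 : (2 : ℝ) ≤ c := by exact_mod_cast h.hc
  have hcn : (c : ℝ) + 2 ≤ n := by exact_mod_cast h.hcn
  have hxn : (x : ℝ) < n := by exact_mod_cast h.hx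
  have hc1 : 1 ≤ c := le_trans (by norm_num) h.hc
  have hlc : 0 ≤ log c := log_nonneg (by linarith)
  have ht0 : 0 < (x : ℝ) - c + 2 := lt_of_lt_of_le (lt_max_of_lt_left hK1) ht
  unfold eL
  by_cases hA : K1 * log c ≤ lg n c d
  · obtain ⟨z, hxz, hz, hd1, hd2⟩ := h.link
    obtain ⟨a1, a2⟩ := h1 n c d x z h hxz hz hd1 hA
    have a3 := a2 (le_trans (le_max_left _ _) ht)
    have hxz' : (x : ℝ) ≤ z := by exact_mod_cast hxz
    refine le_trans ?_ (link_loU h.hc hJ hm hz hd2)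
    exact fl4_link he0 he1 he2 (by positivity) (by linarith) ht0 (by linarith) (by linarith)
      (by linarith)
  · have hA := not_le.1 hA
    have hb0 : 0 ≤ bb n c := le_trans (mul_nonneg (by norm_num) (log_nonneg (by norm_num)))
      h.log_two_le_bb
    have hB : K3 * bb n c ≤ lg n c d := by
      rcases le_total (bb n c) (log c) with hh | hh
      · rw [min_eq_left hh] at hL
        exact le_trans (mul_le_mul_of_nonneg_right (le_max_right _ _) hb0) hL
      · rw [min_eq_right hh] at hL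
        have := mul_le_mul_of_nonneg_right (le_max_left K1 K3) hlc
        linarith
    have hn0' : 0 < n := by have := h.hcn; omega
    have hn0 : (0 : ℝ) < n := by linarith
    have ha0 : 0 ≤ aa n c := by
      unfold aa
      exact div_nonneg (le_min (by linarith) (by linarith)) (by positivity)
    have ha1 := aa_le hn0' c
    obtain ⟨b1, b2, b3, b4, b5, b6⟩ := h3 n c d x h hB hA.le (aa n c) (by linarith) (by linarith)
    obtain ⟨s1, s2, s3, s4, -⟩ := h.size hm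
    have hC : (0 : ℝ) < n.choose c := by exact_mod_cast lt_of_le_of_lt (Nat.zero_le _) s2
    have hm0 : (0 : ℝ) < m := by exact_mod_cast s1
    have hμ0 : (0 : ℝ) < (m : ℝ) / n.choose c := div_pos hm0 hC
    have hlg : log (1 / ((m : ℝ) / n.choose c)) = lg n c d := by rw [one_div_div, s4]
    have hΛ : log (n / ((m : ℝ) / n.choose c)) = log n + lg n c d := by
      rw [← hlg, ← log_mul hn0.ne' (by positivity), mul_one_div]
    have key := h2 n univ c J (shadow J) (m / n.choose c)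
    rw [card_univ, Fintype.card_fin, hJ.2.1, exc_shadow hc1 hJ, hlg, hΛ] at key
    have hdens : (n : ℝ) ^ (-K1) ≤ (m : ℝ) / n.choose c := by
      rw [← log_le_log_iff (rpow_pos_of_pos hn0 _) hμ0, log_rpow hn0]
      have e1 : log ((m : ℝ) / n.choose c) = - lg n c d := by
        rw [← hlg, one_div, log_inv, neg_neg]
      have e2 : log c ≤ log n := log_le_log (by linarith) (by linarith)
      have := mul_le_mul_of_nonneg_left e2 hK1.le
      rw [e1]
      linarith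
    have key2 := key b1 (pair_shadow hc1 hJ.1) b2 (div_mul_cancel₀ _ hC.ne') (fun k _ => by
      rw [← exc_shadow hc1 hJ]
      obtain ⟨d', hd'⟩ := hJ.2.2
      have := blk_le_of_regJ (pair_shadow hc1 hJ.1) (d := d') (fun i _ => hd' i) (mem_univ k)
      rw [card_univ, Fintype.card_fin] at this
      refine le_trans (mul_le_mul_of_nonneg_right ?_ (Nat.cast_nonneg _)) this
      have a1 := aa_hi hn0' c
      have a2 : 0 ≤ aa n c * n := by positivity
      linarith) hdens b3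
    have hk : (n : ℝ) - x ≤ e * ((n : ℝ) - c) :=
      le_trans b5 (mul_le_mul_of_nonneg_left (min_le_right _ _) he0.le)
    refine fl4_real he0 he1 he2 (by linarith) hm0.le (by linarith) (by linarith)
      (log_pos ((one_lt_div (by linarith)).2 (by linarith))) ?_ (by linarith) key2
    refine le_trans (mul_le_mul_of_nonneg_left ?_ (by linarith)) b6
    exact log_le_log (div_pos hn0 (by linarith))
      (div_le_div_of_nonneg_left hn0.le (by linarith) (by linarith))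

end Pool.Agent.P.MP_4f3dfd_co.Ex
end

-- part Pool.Agent.P.MP_4f3dfd_co.FL5
section

set_option autoImplicit false
set_option linter.unusedSectionVars false
set_option linter.unusedVariables false

namespace Pool.Agent.P.MP_4f3dfd_co.Ex

open Finset Real

variable {V : Type*} [DecidableEq V]

theorem fl5_final {B e cs Js c M D l W : ℝ} (hl : 0 < l) (he : 0 < e) (he' : e ≤ 1 / 4)
    (hc : 1 < c) (hM : 0 ≤ M) (hD : 0 ≤ D) (h1 : (1 - e) * (c * M) ≤ cs * Js)
    (h2 : D * l ≤ (1 + e) * W) (h4 : (1 - e) * (cs / ((c - 1) * l)) * (Js * W) ≤ B) :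
    (1 - 3 * e) * (M * D) ≤ B := by
  have e1 : 0 ≤ 1 - e := by linarith
  have e3 : 0 ≤ 1 - 3 * e := by linarith
  have c1 : 0 < c - 1 := by linarith
  have c0 : 0 ≤ c := by linarith
  have hQ : 0 < (c - 1) * l := by positivity
  have hW : 0 ≤ W := by
    have : 0 ≤ (1 + e) * W := (mul_nonneg hD hl.le).trans h2
    exact nonneg_of_mul_nonneg_right this (by linarith)
  have h5 : (1 - e) * (cs / ((c - 1) * l)) * (Js * W) = (1 - e) * (cs * Js * W) / ((c - 1) * l) := by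
    field_simp
  rw [h5, div_le_iff₀ hQ] at h4
  have h6 : (1 - e) * ((1 - e) * (c * M) * W) ≤ (1 - e) * (cs * Js * W) :=
    mul_le_mul_of_nonneg_left (mul_le_mul_of_nonneg_right h1 hW) e1
  have h7 : (c - 1) * (D * l) ≤ c * ((1 + e) * W) :=
    mul_le_mul (by linarith) h2 (mul_nonneg hD hl.le) c0
  have h8 : (1 - 3 * e) * M * ((c - 1) * (D * l)) ≤ (1 - 3 * e) * M * (c * ((1 + e) * W)) :=
    mul_le_mul_of_nonneg_left h7 (mul_nonneg e3 hM)
  have h9 : (1 - 3 * e) * (1 + e) * (c * M * W) ≤ (1 - e) * (1 - e) * (c * M * W) :=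
    mul_le_mul_of_nonneg_right (by nlinarith only [he]) (by positivity)
  refine le_of_mul_le_mul_right ?_ hQ
  linarith

theorem fl5_aa {n k : ℕ} (hk : k + 2 ≤ n) : aa n k / 2 ≤ aa n (k + 1) := by
  have n0 : (0 : ℝ) < n := by exact_mod_cast (by omega : 0 < n)
  have h2 : (k : ℝ) + 2 ≤ n := by exact_mod_cast hk
  have k0 : (0 : ℝ) ≤ k := Nat.cast_nonneg _
  unfold aa
  rw [div_right_comm]
  refine div_le_div_of_nonneg_right ?_ (by positivity)
  push_cast
  have := min_le_left (k : ℝ) ((n : ℝ) - k)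
  have := min_le_right (k : ℝ) ((n : ℝ) - k)
  exact le_min (by linarith) (by linarith)

theorem hi_sharpU (ε : ℝ) (hε : 0 < ε) : ∃ K : ℝ, 0 < K ∧
    ∀ (n c k m m' d y : ℕ) (J : Finset (Finset (Fin n))), c + k = n → m + m' = n.choose c →
      Par n k d y → k * m' = d * n → Reg n c m J → K * min (bb n k) (log k) ≤ lg n k d →
      (1 - ε) * (m' * ((n : ℝ) - y)) ≤ ex n c m #(shadow J) := by
  obtain ⟨e, he, he4, heε⟩ : ∃ e : ℝ, 0 < e ∧ e ≤ 1 / 4 ∧ 3 * e ≤ ε :=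
    ⟨min ε 1 / 4, by positivity, by linarith [min_le_right ε 1],
      by linarith [min_le_left ε 1, hε]⟩
  obtain ⟨K1, hK1, h1⟩ := link_sharp e he
  obtain ⟨K2, hK2, N, h2⟩ := core_sharpU e (K1 + 1) he (by positivity)
  obtain ⟨K3, hK3, h3⟩ := sharp_num e K1 K2 N he hK1
  refine ⟨K1 + K3, by positivity, fun n c k m m' d y J hk hm hP hd hJ hL => ?_⟩
  have k2 := hP.hc
  have kn := hP.hcn
  have c2 : 2 ≤ c := by omega
  have y0 : (0 : ℝ) ≤ (n : ℝ) - y := sub_nonneg.2 (by exact_mod_cast hP.hx.le)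
  have M0' : (0 : ℝ) ≤ m' := Nat.cast_nonneg _
  have p0 : 0 ≤ (m' : ℝ) * ((n : ℝ) - y) := by positivity
  have pe := mul_le_mul_of_nonneg_right heε p0
  have pe' := mul_nonneg he.le p0
  have k2' : (2 : ℝ) ≤ k := by exact_mod_cast k2
  have c2' : (2 : ℝ) ≤ c := by exact_mod_cast c2
  have hn : (c : ℝ) + k = n := by exact_mod_cast hk
  have n0 : (0 : ℝ) < n := by linarith
  have lk : 0 < log (k : ℝ) := log_pos (by linarith)
  rcases le_or_gt (K1 * log k) (lg n k d) with hA | hA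
  · obtain ⟨z, z1, z2, z3, z4⟩ := hP.link
    have l1 := (h1 n k d y z hP z1 z2 z3 hA).1
    have l2 := link_hiU hk (by omega) k2 hm hJ hd z2 z4
    have l3 : (1 - e) * ((n : ℝ) - y) ≤ (n : ℝ) - z - 1 := by linarith
    have l4 := mul_le_mul_of_nonneg_left l3 M0'
    linarith
  have b0 : 0 ≤ bb n k := by
    have := hP.log_two_le_bb
    have : 0 < log (2 : ℝ) := log_pos (by norm_num)
    linarith
  have hb : K3 * bb n k ≤ lg n k d := by
    rcases min_cases (bb n k) (log k) with h | h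
    · rw [h.1] at hL
      have := mul_nonneg hK1.le b0
      linarith
    · rw [h.1] at hL
      have := mul_pos hK3 lk
      linarith
  have npos : 0 < n := by omega
  obtain ⟨s1, s2, s3, s4, s5, s6⟩ := h3 n k d y hP hb hA.le (aa n (k + 1)) (fl5_aa kn)
    ((aa_le npos _).trans (by norm_num))
  obtain ⟨z1, z2, z3, z4, -⟩ := hP.size hd
  have hsym : n.choose k = n.choose c := by
    rw [← hk]; exact Nat.choose_symm_add.symm
  rw [hsym] at z4
  obtain ⟨Js, Ds, μ, hp, hB, hD, -, hblk, hμ, hJs, hμ'⟩ := dual_pack hk (by omega) hm hJ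
  rw [← hB]
  have B0 : (0 : ℝ) ≤ exc univ Js Ds := Nat.cast_nonneg _
  have M0 : (0 : ℝ) < m' := by exact_mod_cast z1
  have c0 : (0 : ℝ) < c := by linarith only [he, he4, c2']
  have hC : (0 : ℝ) < n.choose c := by exact_mod_cast Nat.choose_pos (by omega)
  rcases le_total (e * (c * m')) (exc univ Js Ds : ℝ) with hq | hq
  · have l5 : (n : ℝ) - y ≤ e * c := by
      refine s5.trans (mul_le_mul_of_nonneg_left ((min_le_right _ _).trans ?_) he.le)
      linarith only [hn]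
    have l6 := mul_le_mul_of_nonneg_left l5 M0'
    have l7 := mul_nonneg hε.le p0
    linarith only [l6, l7, hq]
  have m1 : μ * n.choose c ≤ m' := le_of_mul_le_mul_left (by linarith only [hμ', B0]) c0
  have m2 : (1 - e) * m' ≤ μ * n.choose c := le_of_mul_le_mul_left (by linarith only [hμ', hq]) c0
  have μ0 : 0 < μ := by
    have : 0 < (1 - e) * m' := mul_pos (by linarith) M0
    exact (mul_pos_iff_of_pos_right hC).1 (this.trans_le m2)
  have g1 : lg n k d ≤ log (1 / μ) := by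
    rw [z4]
    refine log_le_log (by positivity) ?_
    rw [div_le_div_iff₀ M0 μ0]
    linarith only [m1]
  have m3 : (n : ℝ) ^ (-(K1 + 1)) ≤ μ := by
    have a1 : log (k : ℝ) ≤ log n := log_le_log (by linarith) (by linarith)
    have a2 : log ((n.choose c : ℝ) / m') ≤ log n * K1 := by
      rw [← z4]
      have := mul_le_mul_of_nonneg_left a1 hK1.le
      linarith only [hA, this]
    have a3 : (n.choose c : ℝ) / m' ≤ (n : ℝ) ^ K1 := by
      rw [rpow_def_of_pos n0]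
      exact (log_le_iff_le_exp (by positivity)).1 a2
    rw [div_le_iff₀ M0] at a3
    have a4 : (0 : ℝ) < (n : ℝ) ^ K1 := by positivity
    rw [rpow_neg n0.le, rpow_add n0, rpow_one, inv_le_iff_one_le_mul₀ (by positivity)]
    refine le_of_mul_le_mul_right ?_ hC
    have a5 : (m' : ℝ) ≤ n * (μ * n.choose c) := by
      have : (1 : ℝ) ≤ n * (1 - e) := by nlinarith only [he, he4, k2', c2', hn]
      have b1 := mul_le_mul_of_nonneg_right this M0'
      have b2 := mul_le_mul_of_nonneg_left m2 n0.le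
      linarith only [b1, b2]
    have a6 := mul_le_mul_of_nonneg_left a5 a4.le
    linarith only [a3, a6]
  have core := h2 n univ (k + 1) Js Ds μ
  rw [card_fin] at core
  have core' := core s1 hp s2 hμ (fun i _ => by
    refine (mul_le_mul_of_nonneg_right ?_ (Nat.cast_nonneg _)).trans (hblk i)
    have := aa_lo npos (k + 1)
    push_cast at this
    linarith only [he, he4, k2', this]) m3 (s3.trans g1)
  push_cast at core'
  rw [show (n : ℝ) - ((k : ℝ) + 1) = c - 1 by linarith only [hn]] at core'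
  rw [show (n : ℝ) - k - 1 = c - 1 by linarith only [hn]] at s6
  have g2 : log n + lg n k d ≤ log (n / μ) := by
    rw [log_div n0.ne' μ0.ne']
    rw [one_div, log_inv] at g1
    linarith
  have g3 : 0 < log (n / ((c : ℝ) - 1)) := by
    refine log_pos ?_
    rw [one_lt_div (by linarith)]
    linarith only [he, he4, k2', hn]
  have fin := fl5_final g3 he he4 (by linarith) M0' y0 (by linarith only [hJs, hq])
    (s6.trans (mul_le_mul_of_nonneg_left g2 (by linarith))) core'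
  linarith only [pe, fin]

end Pool.Agent.P.MP_4f3dfd_co.Ex
end

-- part Pool.Agent.P.MP_4f3dfd_co.FMain
section

set_option autoImplicit false
set_option linter.unusedVariables false

namespace Pool.Agent.P.MP_4f3dfd_co.Ex

open Finset Real

theorem ex_mono' {n c m f g : ℕ} (hc : c ≤ n) (h : f ≤ g) : ex n c m f ≤ ex n c m g := by
  unfold ex
  have h1 : (c : ℝ) ≤ n := by exact_mod_cast hc
  have h2 : (f : ℝ) ≤ g := by exact_mod_cast h
  nlinarith

theorem range_c {n c m : ℕ} (hm0 : 1 ≤ m) (hm : m < n.choose c) (hd : n ∣ c * m) :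
    2 ≤ c ∧ c + 2 ≤ n := by
  have hcn : c ≤ n := by
    by_contra h
    rw [Nat.choose_eq_zero_of_lt (by omega)] at hm
    omega
  have h0 : c ≠ 0 := by
    rintro rfl
    rw [Nat.choose_zero_right] at hm
    omega
  have h1 : c ≠ n := by
    rintro rfl
    rw [Nat.choose_self] at hm
    omega
  have h2 : c ≠ 1 := by
    rintro rfl
    rw [Nat.choose_one_right] at hm
    rw [one_mul] at hd
    have := Nat.le_of_dvd (by omega) hd
    omega
  have h3 : c + 1 ≠ n := by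
    rintro rfl
    rw [Nat.choose_succ_self_right] at hm
    have hd' : c + 1 ∣ (c + 1) * m := Dvd.intro _ rfl
    have e : (c + 1) * m = c * m + m := by ring
    rw [e] at hd'
    have := Nat.le_of_dvd (by omega) ((Nat.dvd_add_right hd).1 hd')
    omega
  omega

/-- From the stated window to the internal one. -/
theorem par_of {n c m d x : ℕ} (hc : 2 ≤ c) (hcn : c + 2 ≤ n) (hm0 : 1 ≤ m) (hm : m < n.choose c)
    (hd : c * m = d * n) (hx : x < n)
    (h1 : min ((n : ℝ) / (n - ((x - 1 : ℕ) : ℝ)))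
      (((n.choose c : ℝ) / m) ^ (log c / log (n / c))) * (x - 1).choose (c - 1) ≤ c * m / n)
    (h2 : (c : ℝ) * m / n < min ((n : ℝ) / (n - x))
      (((n.choose c : ℝ) / m) ^ (log c / log (n / c))) * x.choose (c - 1)) : Par n c d x := by
  have hn : (0 : ℝ) < n := by exact_mod_cast (by omega : 0 < n)
  have hc0 : (0 : ℝ) < c := by exact_mod_cast (by omega : 0 < c)
  have hm0' : (0 : ℝ) < m := by exact_mod_cast hm0
  have hdR : (c : ℝ) * m = d * n := by exact_mod_cast hd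
  have hd1 : 1 ≤ d := by
    rcases Nat.eq_zero_or_pos d with rfl | h
    · have : 0 < c * m := Nat.mul_pos (by omega) hm0
      omega
    · exact h
  have hd0 : (0 : ℝ) < d := by exact_mod_cast hd1
  have hpp := choose_pred_pred (n := n) (c := c) (by omega) (by omega)
  have hmR : (m : ℝ) < n.choose c := by exact_mod_cast hm
  have hdC : (d : ℝ) < (n - 1).choose (c - 1) := by
    have : (d : ℝ) * n < (n - 1).choose (c - 1) * n := by nlinarith
    exact lt_of_mul_lt_mul_right this hn.le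
  have e1 : (c : ℝ) * m / n = d := by rw [hdR]; field_simp
  have e2 : ((n.choose c : ℝ) / m) = ((n - 1).choose (c - 1) : ℝ) / d := by
    rw [div_eq_div_iff hm0'.ne' hd0.ne']
    have : (n.choose c : ℝ) * d * n = (n - 1).choose (c - 1) * m * n := by
      rw [mul_assoc, ← hdR]; nlinarith
    exact mul_right_cancel₀ hn.ne' this
  have e3 : ((n.choose c : ℝ) / m) ^ (log c / log (n / c)) = Lam n c d := by
    rw [e2, rpow_def_of_pos (div_pos (hd0.trans hdC) hd0)]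
    unfold Lam lg
    rw [mul_div_assoc]
  rw [e1, e3] at h1 h2
  have hx1 : 1 ≤ x := by
    rcases Nat.eq_zero_or_pos x with rfl | h
    · rw [Nat.choose_eq_zero_of_lt (by omega)] at h2
      simp at h2
      linarith
    · exact h
  have e4 : (n : ℝ) - ((x - 1 : ℕ) : ℝ) = (n : ℝ) - x + 1 := by
    rw [Nat.cast_sub hx1]; push_cast; ring
  rw [e4] at h1
  exact ⟨hc, hcn, hd1, by exact_mod_cast hdC, hx, h1, h2⟩

/-- From the stated density condition to the internal one. -/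
theorem sharp_of {n c m d x K : ℕ} (h : Par n c d x) (hd : c * m = d * n) {K' : ℝ} (hK : K' ≤ K)
    (hm : (m : ℝ) ≤ max (c * ((n : ℝ) - c) / n ^ 2) (1 / c) ^ K * n.choose c) :
    K' * min (bb n c) (log c) ≤ lg n c d := by
  obtain ⟨hm0, hm1, -, hl, -⟩ := h.size hd
  have hc2 : (2 : ℝ) ≤ c := by exact_mod_cast h.hc
  have hcn : (c : ℝ) + 2 ≤ n := by exact_mod_cast h.hcn
  have hm0' : (0 : ℝ) < m := by exact_mod_cast hm0
  have hC : (0 : ℝ) < n.choose c := by exact_mod_cast hm0.trans_lt' zero_lt_one |>.trans hm1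
  have hk : (0 : ℝ) < (n : ℝ) - c := by linarith
  have hn : (0 : ℝ) < n := by linarith
  have hc0 : (0 : ℝ) < c := by linarith
  have hb := h.log_two_le_bb
  have hl2 : 0 < log 2 := log_pos (by norm_num)
  have hlc : 0 ≤ log (c : ℝ) := log_nonneg (by linarith)
  have h0 : 0 ≤ min (bb n c) (log c) := le_min (by linarith) hlc
  refine (mul_le_mul_of_nonneg_right hK h0).trans ?_
  have hu : max (c * ((n : ℝ) - c) / n ^ 2) (1 / c) ≤ exp (-min (bb n c) (log c)) := by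
    refine max_le ?_ ?_
    · refine le_trans ?_ (exp_le_exp.2 (neg_le_neg (min_le_left _ _)))
      unfold bb
      rw [exp_neg, exp_log (by positivity), inv_div]
    · refine le_trans ?_ (exp_le_exp.2 (neg_le_neg (min_le_right _ _)))
      rw [exp_neg, exp_log hc0, one_div]
  have hu0 : 0 ≤ max (c * ((n : ℝ) - c) / n ^ 2) (1 / c) := le_max_of_le_right (by positivity)
  have h2 := hm.trans (mul_le_mul_of_nonneg_right (pow_le_pow_left₀ hu0 hu K) hC.le)
  rw [← exp_nat_mul] at h2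
  rw [hl, le_log_iff_exp_le (by positivity), le_div_iff₀ hm0']
  have h3 := mul_le_mul_of_nonneg_left h2 (exp_pos (K * min (bb n c) (log c))).le
  rw [← mul_assoc, ← exp_add] at h3
  simpa using h3

theorem masterU : ∃ C : ℝ, 0 < C ∧ ∀ ε : ℝ, 0 < ε → ∃ K : ℕ,
    ∀ n c k m m' d d' x y : ℕ, c + k = n → m + m' = n.choose c → c * m = d * n →
      k * m' = d' * n → Par n c d x → Par n k d' y →
      ∃ f : ℕ, IsLeast {k : ℕ | ∃ J : Finset (Finset (Fin n)), (∀ X ∈ J, X.card = c) ∧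
          J.card = m ∧ (∃ d : ℕ, ∀ i : Fin n, (J.filter (fun X => i ∈ X)).card = d) ∧
          (Finset.shadow J).card = k} f ∧
        (2 * m ≤ n.choose c → eL n c m x ≤ C * ex n c m f ∧ ex n c m f ≤ C * eL n c m x) ∧
        (n.choose c ≤ 2 * m → m' * ((n : ℝ) - y) ≤ C * ex n c m f ∧
          ex n c m f ≤ C * (m' * ((n : ℝ) - y))) ∧
        ((m : ℝ) ≤ max (c * ((n : ℝ) - c) / n ^ 2) (1 / c) ^ K * n.choose c → c + K ≤ x →
          |ex n c m f - eL n c m x| ≤ ε * eL n c m x) ∧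
        ((m' : ℝ) ≤ max (k * ((n : ℝ) - k) / n ^ 2) (1 / k) ^ K * n.choose k →
          |ex n c m f - m' * ((n : ℝ) - y)| ≤ ε * (m' * ((n : ℝ) - y))) := by
  classical
  obtain ⟨C1, hC1, h1⟩ := lo_orderU
  obtain ⟨C2, hC2, h2⟩ := hi_orderU
  obtain ⟨C3, hC3, h3⟩ := up_lo_order
  obtain ⟨C4, hC4, h4⟩ := up_hi_order
  refine ⟨C1 + C2 + C3 + C4, by positivity, fun ε hε => ?_⟩
  obtain ⟨K1, hK1, h5⟩ := lo_sharpU ε hε
  obtain ⟨K2, hK2, h6⟩ := hi_sharpU ε hε
  obtain ⟨K3, hK3, h7⟩ := up_lo_sharp ε hε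
  obtain ⟨K4, hK4, h8⟩ := up_hi_sharp ε hε
  obtain ⟨K, hK⟩ := exists_nat_ge (K1 + K2 + K3 + K4)
  refine ⟨K, ?_⟩
  intro n c k m m' d d' x y hk hm hd hd' hx hy
  have hc0 : 1 ≤ c := by have := hx.hc; omega
  have hcn : c ≤ n := by omega
  obtain ⟨hm0, hm1, -⟩ := hx.size hd
  have hdvd : n ∣ c * m := ⟨d, by rw [hd, mul_comm]⟩
  have hE : 0 ≤ eL n c m x := by
    have a1 : (c : ℝ) ≤ x + 1 := by exact_mod_cast hx.c_le
    have a2 : (x : ℝ) ≤ n := by exact_mod_cast hx.hx.le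
    unfold eL
    exact div_nonneg (mul_nonneg (by positivity) (by linarith)) (by linarith)
  have hE' : 0 ≤ (m' : ℝ) * ((n : ℝ) - y) := by
    have a2 : (y : ℝ) ≤ n := by exact_mod_cast hy.hx.le
    exact mul_nonneg (by positivity) (by linarith)
  set S : Set ℕ := {k : ℕ | ∃ J : Finset (Finset (Fin n)), (∀ X ∈ J, X.card = c) ∧
    J.card = m ∧ (∃ d : ℕ, ∀ i : Fin n, (J.filter (fun X => i ∈ X)).card = d) ∧
    (Finset.shadow J).card = k} with hS
  have hmem : ∀ J : Finset (Finset (Fin n)), Reg n c m J → #(shadow J) ∈ S :=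
    fun J hJ => ⟨J, hJ.1, hJ.2.1, hJ.2.2, rfl⟩
  obtain ⟨J0, hJ0, -⟩ := exists_reg hc0 hm0 hm1.le hdvd
  have hne : S.Nonempty := ⟨_, hmem J0 hJ0⟩
  have hL : IsLeast S (sInf S) := ⟨Nat.sInf_mem hne, fun k hk => Nat.sInf_le hk⟩
  obtain ⟨J, g1, g2, g3, g4⟩ := hL.1
  have hJ : Reg n c m J := ⟨g1, g2, g3⟩
  have hup : ∀ J' : Finset (Finset (Fin n)), Reg n c m J' →
      ex n c m (sInf S) ≤ ex n c m #(shadow J') :=
    fun J' hJ' => ex_mono' hcn (hL.2 (hmem J' hJ'))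
  have hB := ex_nonneg' hc0 hJ
  rw [g4] at hB
  refine ⟨sInf S, hL, fun h => ⟨?_, ?_⟩, fun h => ⟨?_, ?_⟩, fun h hx' => ?_, fun h => ?_⟩
  · have := h1 n c m d x J hx hd hJ h
    rw [g4] at this
    nlinarith
  · obtain ⟨J', hJ', hb⟩ := h3 n c m d x hx hd h
    have := hup J' hJ'
    nlinarith
  · have := h2 n c k m m' d' y J hk hm hy hd' hJ (by omega)
    rw [g4] at this
    nlinarith
  · obtain ⟨J', hJ', hb⟩ := h4 n c k m m' d' y hk hm hy hd' hdvd (by omega)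
    have := hup J' hJ'
    nlinarith
  · have ht : (c : ℝ) + K ≤ x := by exact_mod_cast hx'
    have e1 := h5 n c m d x J hx hd hJ (sharp_of hx hd (by linarith) h) (by linarith)
    rw [g4] at e1
    obtain ⟨J', hJ', hb⟩ := h7 n c m d x hx hd (sharp_of hx hd (by linarith) h) (by linarith)
    have := hup J' hJ'
    rw [abs_le]; constructor <;> linarith
  · have e1 := h6 n c k m m' d' y J hk hm hy hd' hJ (sharp_of hy hd' (by linarith) h)
    rw [g4] at e1
    obtain ⟨J', hJ', hb⟩ := h8 n c k m m' d' y hk hm hy hd' hdvd (sharp_of hy hd' (by linarith) h)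
    have := hup J' hJ'
    rw [abs_le]; constructor <;> linarith

end Pool.Agent.P.MP_4f3dfd_co.Ex
end
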