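import Pool.Agent.K.MP_4f3dfd_co.C3

-- part Pool.Agent.P.MP_4f3dfd_co.WDefs
section

set_option autoImplicit false
set_option linter.unusedSectionVars false
set_option linter.unusedVariables false

namespace Pool.Agent.P.MP_4f3dfd_co.Win

open Finset Pool.Agent.P.MP_4f3dfd_co.Asy Pool.Agent.P.MP_4f3dfd_co.Off

/-- The saving of a clique segment of relative size `t`. -/
noncomputable def ph (j : ℕ) (t : ℝ) : ℝ :=
  (1 - t) ^ (1 + 1 / (j : ℝ)) - 1 + (1 + 1 / (j : ℝ)) * t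

/-- The cost of a clique segment of relative size `t`. -/
noncomputable def ps (j : ℕ) (t : ℝ) : ℝ := 1 - (1 - t) ^ (1 + 1 / (j : ℝ))

/-- Packings: weights on the `(c+j)`-sets. -/
def Pk (n c j : ℕ) (d e : ℝ) (t : Finset (Fin n) → ℝ) : Prop :=
  (∀ B, 0 ≤ t B ∧ t B ≤ 1) ∧ ∀ v : Fin n,
    ((c + j).choose j : ℝ) * ∑ B ∈ powersetCard (c + j) univ with v ∈ B, t B ≤ d ∧
    ((c + j).choose j : ℝ) * ∑ B ∈ powersetCard (c + j) univ with v ∉ B, t B ≤ e

/-- The value of a packing. -/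
noncomputable def val (n c j : ℕ) (t : Finset (Fin n) → ℝ) : ℝ :=
  ∑ B ∈ powersetCard (c + j) univ, ph j (t B)

/-- The set of values. -/
def SV (n c j : ℕ) (d e : ℝ) : Set ℝ := {s | ∃ t, Pk n c j d e t ∧ s = val n c j t}

/-- The asymptotic formula. -/
noncomputable def Phi (c m j : ℕ) (S : ℝ) : ℝ := c * m / j - ((c + j).choose (j + 1) : ℝ) * S

/-- Regular families. -/
structure Rg {V : Type*} [DecidableEq V] (c m d : ℕ) (J : Finset (Finset V)) : Prop where
  sz : ∀ X ∈ J, #X = c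
  cd : #J = m
  dg : ∀ v, #{X ∈ J | v ∈ X} = d

variable {V : Type*} [DecidableEq V]

/-- The `c`-subsets of `B` that do not contain `A`. -/
def atm (c : ℕ) (B A : Finset V) : Finset (Finset V) := {X ∈ powersetCard c B | ¬A ⊆ X}

/-- The members of `J` inside `B`. -/
def ins (J : Finset (Finset V)) (B : Finset V) : Finset (Finset V) := {X ∈ J | X ⊆ B}

/-- The sets of size `c + j` with at least `b` members of `J` inside. -/
def big [Fintype V] (c j b : ℕ) (J : Finset (Finset V)) : Finset (Finset V) :=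
  {B ∈ powersetCard (c + j) univ | b ≤ #(ins J B)}

/-- The members of `J` that lie in no set of `F`. -/
def dust (J F : Finset (Finset V)) : Finset (Finset V) := {X ∈ J | ∀ B ∈ F, ¬X ⊆ B}

theorem ps_eq (j : ℕ) (t : ℝ) : ps j t = (1 + 1 / (j : ℝ)) * t - ph j t := by
  unfold ps ph; ring

/-- `C(c+j, j+1) (j+1) = C(c+j, j) c`. -/
theorem W_eq (c j : ℕ) : ((c + j).choose (j + 1) : ℝ) * (j + 1) = (c + j).choose j * c := by
  have := Nat.choose_succ_right_eq (c + j) j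
  rw [Nat.add_sub_cancel] at this
  exact_mod_cast this

/-- `C(c+j-1, c) (c+j) = C(c+j, j) j`. -/
theorem u_eq (c j : ℕ) (hj : 1 ≤ j) :
    ((c + j - 1).choose c : ℝ) * (c + j) = (c + j).choose j * j := by
  obtain ⟨i, rfl⟩ : ∃ i, j = i + 1 := ⟨j - 1, by omega⟩
  have h := Nat.add_one_mul_choose_eq (c + i) i
  have e : (c + (i + 1) - 1).choose c = (c + i).choose i := by
    rw [show c + (i + 1) - 1 = c + i by omega, Nat.choose_symm_add]
  rw [e, show c + (i + 1) = c + i + 1 by omega]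
  have h' : (((c + i + 1) * (c + i).choose i : ℕ) : ℝ) =
      ((c + i + 1).choose (i + 1) * (i + 1) : ℕ) := by rw [h]
  push_cast at h' ⊢
  linarith

theorem Rg.mem_SR {n c m d : ℕ} {J : Finset (Finset (Fin n))} (h : Rg c m d J) :
    #(shadow J) ∈ SR n c m := ⟨J, h.sz, h.cd, ⟨d, h.dg⟩, rfl⟩

end Pool.Agent.P.MP_4f3dfd_co.Win
end

-- part Pool.Agent.P.MP_4f3dfd_co.WAtom
section

set_option autoImplicit false
set_option linter.unusedSectionVars false
set_option linter.unusedVariables false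

namespace Pool.Agent.P.MP_4f3dfd_co.Win

open Finset Pool.Agent.P.MP_4f3dfd_co.Asy Pool.Agent.P.MP_4f3dfd_co.Off

variable {V : Type*} [DecidableEq V]

theorem card_atm {c j : ℕ} {B A : Finset V} (hB : #B = c + j) (hA : A ⊆ B) :
    #(atm c B A) + (c + j - #A).choose j = (c + j).choose j := by
  have h1 := card_filter_add_card_filter_not (s := powersetCard c B) (fun X => A ⊆ X)
  rw [card_powersetCard, hB, Nat.choose_symm_add] at h1
  have h2 : #{X ∈ powersetCard c B | A ⊆ X} = (c + j - #A).choose j := by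
    rcases le_or_gt #A c with k | k
    · rw [card_filter_powersetCard_subset A B c hA k, hB,
        show c + j - #A = (c - #A) + j by omega, Nat.choose_symm_add]
    · have := card_le_card hA
      rw [Nat.choose_eq_zero_of_lt (by omega), card_eq_zero, filter_eq_empty_iff]
      intro X hX h
      have := card_le_card h
      have := (mem_powersetCard.1 hX).2
      omega
  unfold atm
  omega

theorem shadow_atm {c j : ℕ} (hc : 1 ≤ c) {B A : Finset V} (hB : #B = c + j) (hA : A ⊆ B) :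
    #(shadow (atm c B A)) + (c + j - #A).choose (j + 1) ≤ (c + j).choose (j + 1) := by
  have e : c - 1 + (j + 1) = c + j := by omega
  have h1 := card_atm (c := c - 1) (j := j + 1) (hB.trans e.symm) hA
  rw [e] at h1
  have h2 : shadow (atm c B A) ⊆ atm (c - 1) B A := fun Y hY => by
    obtain ⟨X, hX, a, ha, rfl⟩ := mem_shadow_iff.1 hY
    obtain ⟨k1, k2⟩ := mem_filter.1 hX
    obtain ⟨k3, k4⟩ := mem_powersetCard.1 k1
    exact mem_filter.2 ⟨mem_powersetCard.2 ⟨(erase_subset _ _).trans k3, by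
      rw [card_erase_of_mem ha, k4]⟩, fun k => k2 (k.trans (erase_subset _ _))⟩
  have := card_le_card h2
  omega

theorem watom_low {c j y : ℕ} (hj : 1 ≤ j) (hc : 1 ≤ c) {t : ℝ} (h0 : 0 ≤ t) (h1 : t ≤ 1)
    (hy : ((c + j).choose j : ℝ) * (1 - t) ≤ y.choose j) :
    ((c + j).choose (j + 1) : ℝ) * ((1 - t) ^ (1 + 1 / (j : ℝ)) - j / c) ≤ y.choose (j + 1) := by
  have hτ : 0 ≤ 1 - t := sub_nonneg.2 h1
  have hc' : (0 : ℝ) < c := by exact_mod_cast hc
  have hj' : (0 : ℝ) < j := by exact_mod_cast hj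
  set s := (1 - t) ^ (1 / (j : ℝ)) with hs
  have hs0 : 0 ≤ s := Real.rpow_nonneg hτ _
  have hsj : s ^ j = 1 - t := by
    rw [hs, one_div, Real.rpow_inv_natCast_pow hτ (by omega)]
  have e : (1 - t) ^ (1 + 1 / (j : ℝ)) = (1 - t) * s := by
    rw [Real.rpow_add_of_nonneg hτ zero_le_one (by positivity), Real.rpow_one]
  rw [e]
  rcases le_total (c * s) j with k | k
  · refine le_trans (mul_nonpos_of_nonneg_of_nonpos (Nat.cast_nonneg _) ?_) (Nat.cast_nonneg _)
    have : s ≤ j / c := by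
      rw [le_div_iff₀ hc']
      linarith
    nlinarith
  · have a1 : ((c : ℝ)) ^ j ≤ j.factorial * (c + j).choose j := by
      have h2 := Nat.pow_sub_le_descFactorial (c + j) j
      rw [Nat.descFactorial_eq_factorial_mul_choose] at h2
      have h3 : c ^ j ≤ (c + j + 1 - j) ^ j := Nat.pow_le_pow_left (by omega) _
      exact_mod_cast h3.trans h2
    have a2 : (j.factorial : ℝ) * y.choose j ≤ (y : ℝ) ^ j := by
      have h2 := Nat.descFactorial_le_pow y j
      rw [Nat.descFactorial_eq_factorial_mul_choose] at h2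
      exact_mod_cast h2
    have a3 : c * s ≤ y := by
      refine le_of_pow_le_pow_left₀ (n := j) (by omega) (Nat.cast_nonneg _) ?_
      rw [mul_pow, hsj]
      have h2 : (0 : ℝ) ≤ j.factorial := Nat.cast_nonneg _
      calc (c : ℝ) ^ j * (1 - t) ≤ j.factorial * (c + j).choose j * (1 - t) := by gcongr
        _ = j.factorial * ((c + j).choose j * (1 - t)) := by ring
        _ ≤ j.factorial * y.choose j := by gcongr
        _ ≤ _ := a2
    have a4 : j ≤ y := by exact_mod_cast k.trans a3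
    have a5 : (y.choose (j + 1) : ℝ) * (j + 1) = y.choose j * (y - j) := by
      have := Nat.choose_succ_right_eq y j
      rw [← Nat.cast_sub a4]
      exact_mod_cast this
    have hU : (0 : ℝ) ≤ (c + j).choose j := Nat.cast_nonneg _
    refine le_of_mul_le_mul_right ?_ (by positivity : (0 : ℝ) < j + 1)
    rw [a5, mul_right_comm, W_eq]
    calc ((c + j).choose j : ℝ) * c * ((1 - t) * s - j / c)
        = (c + j).choose j * ((1 - t) * (c * s) - j) := by field_simp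
      _ ≤ (c + j).choose j * ((1 - t) * (c * s - j)) := by
          gcongr
          nlinarith
      _ = (c + j).choose j * (1 - t) * (c * s - j) := by ring
      _ ≤ y.choose j * (y - j) := by
          have := sub_nonneg.2 k
          gcongr

/-- A clique segment of prescribed relative size. -/
theorem exists_atm {c j : ℕ} (hj : 1 ≤ j) (hc : 1 ≤ c) (B : Finset V) (hB : #B = c + j) {t : ℝ}
    (h0 : 0 ≤ t) (h1 : t ≤ 1) : ∃ A ⊆ B,
      (c + j).choose j * t - (c + j - 1).choose c ≤ (#(atm c B A) : ℝ) ∧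
      (#(atm c B A) : ℝ) ≤ (c + j).choose j * t ∧
      (#(shadow (atm c B A)) : ℝ) ≤ (c + j).choose (j + 1) * (ps j t + j / c) := by
  classical
  have hU : (0 : ℝ) ≤ (c + j).choose j := Nat.cast_nonneg _
  let P : ℕ → Prop := fun s => ((c + j).choose j : ℝ) * (1 - t) ≤ (c + j - s).choose j
  have hP0 : P 0 := by
    change _ ≤ (((c + j - 0).choose j : ℕ) : ℝ)
    rw [Nat.sub_zero]
    nlinarith
  have hs : P (Nat.findGreatest P (c + j)) := Nat.findGreatest_spec (Nat.zero_le _) hP0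
  have hle := Nat.findGreatest_le (P := P) (c + j)
  have hmax : ∀ k, Nat.findGreatest P (c + j) < k → k ≤ c + j → ¬P k := fun k a b =>
    Nat.findGreatest_is_greatest a b
  generalize Nat.findGreatest P (c + j) = s at hs hle hmax
  obtain ⟨A, hA, rfl⟩ := exists_subset_card_eq (s := B) (n := s) (by omega)
  have e1 : (#(atm c B A) : ℝ) + (c + j - #A).choose j = (c + j).choose j := by
    exact_mod_cast card_atm hB hA
  have e2 : (#(shadow (atm c B A)) : ℝ) + (c + j - #A).choose (j + 1) ≤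
      (c + j).choose (j + 1) := by
    exact_mod_cast shadow_atm hc hB hA
  have hs' : ((c + j).choose j : ℝ) * (1 - t) ≤ (c + j - #A).choose j := hs
  refine ⟨A, hA, ?_, by linarith, ?_⟩
  · have hu : (0 : ℝ) ≤ (c + j - 1).choose c := Nat.cast_nonneg _
    rcases hle.eq_or_lt with k | k
    · rw [k, Nat.sub_self, Nat.choose_eq_zero_of_lt (show 0 < j from hj)] at e1
      push_cast at e1
      nlinarith
    · have h2 : (((c + j - (#A + 1)).choose j : ℕ) : ℝ) < (c + j).choose j * (1 - t) :=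
        not_le.1 (hmax _ (Nat.lt_succ_self _) k)
      have h3 : (c + j - #A).choose j ≤ (c + j - (#A + 1)).choose j + (c + j - 1).choose c := by
        obtain ⟨i, rfl⟩ : ∃ i, j = i + 1 := ⟨j - 1, by omega⟩
        rw [show c + (i + 1) - #A = (c + (i + 1) - (#A + 1)) + 1 by omega, Nat.choose_succ_succ',
          show c + (i + 1) - 1 = c + i by omega, Nat.choose_symm_add (a := c) (b := i), add_comm]
        exact Nat.add_le_add_left (Nat.choose_le_choose _ (by omega)) _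
      have h4 : ((c + j - #A).choose j : ℝ) ≤
          (c + j - (#A + 1)).choose j + (c + j - 1).choose c := by exact_mod_cast h3
      linarith
  · have := watom_low hj hc h0 h1 hs'
    unfold ps
    linarith

end Pool.Agent.P.MP_4f3dfd_co.Win
end

-- part Pool.Agent.P.MP_4f3dfd_co.WBig
section

set_option autoImplicit false
set_option linter.unusedSectionVars false
set_option linter.unusedVariables false

namespace Pool.Agent.P.MP_4f3dfd_co.Win

open Finset Pool.Agent.P.MP_4f3dfd_co.Asy Pool.Agent.P.MP_4f3dfd_co.Off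

/-- The lower bound by links and colinks. -/
theorem big_lower {n c q j m d e : ℕ} (hn : n = c + q) (hc : 2 ≤ c) {J : Finset (Finset (Fin n))}
    (hJ : Rg c m d J) (hde : d + e = m) (h : min d e ≤ (c + j).choose (j + 1)) :
    c * m * q ≤ (j + 2) * (q + 1) * #(shadow J) := by
  have hdm : c * m = d * n := by
    have := sum_deg_nat J c hJ.sz
    rw [sum_congr rfl (fun v _ => hJ.dg v), sum_const, card_univ, Fintype.card_fin, smul_eq_mul,
      hJ.cd] at this
    rw [← this, mul_comm]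
  by_cases hq : q ≤ j + 1
  · have a := le_shadow_of_subset J c univ hJ.sz fun X _ => subset_univ X
    rw [hJ.cd, card_univ, Fintype.card_fin, show n + 1 - c = q + 1 by omega] at a
    calc c * m * q = m * c * q := by ring
      _ ≤ #(shadow J) * (q + 1) * (j + 2) := Nat.mul_le_mul a (by omega)
      _ = _ := by ring
  obtain ⟨k, rfl⟩ : ∃ k, c = k + 1 := ⟨c - 1, by omega⟩
  rcases min_le_iff.1 h with h1 | h1
  · have e1 : (k + 1 + j).choose (j + 1) = (k + 1 + j).choose k :=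
      Nat.choose_symm_of_eq_add (by omega)
    have a := lower (n := n) (k := k) (d := d) (x := k + 1 + j) (by omega) (by omega) J hJ.sz hJ.dg
      (by rwa [← e1])
    rw [show k + 1 + j + 1 - k = j + 2 by omega] at a
    calc (k + 1) * m * q = n * d * q := by rw [hdm]; ring
      _ ≤ #(shadow J) * (j + 2) * (q + 1) := Nat.mul_le_mul a (by omega)
      _ = _ := by ring
  · have e1 : (k + 1 + j + 1).choose (j + 1) = (k + 1 + j + 1).choose (k + 1) :=
      Nat.choose_symm_of_eq_add (by omega)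
    have h2 : e ≤ (k + 1 + j + 1).choose (k + 1) := by
      rw [← e1]
      exact h1.trans (Nat.choose_le_choose _ (by omega))
    obtain ⟨g, hg⟩ := SG_least (n := n) (c := k + 1) (d := e)
      (h2.trans (Nat.choose_le_choose _ (by omega)))
    have a := colink hn hdm hde hJ.mem_SR hg
    obtain ⟨A, a1, a2, a3⟩ := hg.1
    have b := kk_ratio (n := n) (k := k + 1) (x := k + 1 + j + 1) (by omega) A a1 (by rwa [a2])
    rw [a2, a3, show k + 1 + j + 1 + 1 - (k + 1) = j + 2 by omega] at b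
    calc (k + 1) * m * q = (k + 1) * (q * m) := by ring
      _ = e * (k + 1) * n := by rw [qm hn hdm hde]; ring
      _ ≤ g * (j + 2) * n := Nat.mul_le_mul_right _ b
      _ = (j + 2) * (n * g) := by ring
      _ ≤ (j + 2) * ((q + 1) * #(shadow J)) := Nat.mul_le_mul_left _ a
      _ = _ := by ring

theorem wbig_low {ε j q f M : ℝ} (hj : 5 ≤ ε * j) (hq : 5 ≤ ε * q) (hj1 : 1 ≤ j) (hq1 : 1 ≤ q)
    (hf : 0 ≤ f) (h : M * q ≤ (j + 2) * (q + 1) * f) : M / j ≤ (1 + ε) * f := by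
  have a : (j + 2) * (q + 1) ≤ (1 + ε) * j * q := by
    nlinarith [mul_le_mul_of_nonneg_right hj (show 0 ≤ q by linarith),
      mul_le_mul_of_nonneg_right hq (show 0 ≤ j by linarith)]
  rw [div_le_iff₀ (by linarith)]
  refine le_of_mul_le_mul_right (h.trans ((mul_le_mul_of_nonneg_right a hf).trans
    (le_of_eq ?_))) (show 0 < q by linarith)
  ring

theorem wbig_up {ε j f M : ℝ} (hε : 0 < ε) (hj : 5 ≤ ε * j) (hj1 : 1 ≤ j)
    (hf : 0 ≤ f) (hM : 0 ≤ M) (h : f * j ≤ (1 + ε / 2) * M) : (1 - ε) * f ≤ M / (j + 1) := by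
  rcases le_total 1 ε with h1 | h1
  · exact (mul_nonpos_of_nonpos_of_nonneg (by linarith) hf).trans (by positivity)
  rw [le_div_iff₀ (by linarith)]
  have a : f * (j + 1) ≤ (1 + ε / 2) * (f * j) := by nlinarith
  have b : (1 - ε) * ((1 + ε / 2) * (1 + ε / 2)) ≤ 1 := by nlinarith [mul_pos hε hε]
  calc (1 - ε) * f * (j + 1) = (1 - ε) * (f * (j + 1)) := by ring
    _ ≤ (1 - ε) * ((1 + ε / 2) * ((1 + ε / 2) * M)) :=
      mul_le_mul_of_nonneg_left (a.trans (mul_le_mul_of_nonneg_left h (by positivity)))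
        (by linarith)
    _ = (1 - ε) * ((1 + ε / 2) * (1 + ε / 2)) * M := by ring
    _ ≤ M := mul_le_of_le_one_left hM b

/-- High levels. -/
theorem big_case {ε : ℝ} (hε : 0 < ε) : ∃ K : ℕ, ∀ n c m d e j f : ℕ, K ≤ j →
    (K ≤ c ∧ c + K ≤ n) ∨ K * (c + j) ≤ n → 1 ≤ m → m ≤ n.choose c → c * m = d * n → d + e = m →
    (c + j - 2).choose (j - 1) ≤ min d e → min d e < (c + j).choose (j + 1) →
    IsLeast (SR n c m) f →
    (c * m : ℝ) / j ≤ (1 + ε) * f ∧ (1 - ε) * (f : ℝ) ≤ c * m / (j + 1) := by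
  obtain ⟨K0, hK0⟩ := asymptotic (ε / 2) (by positivity)
  obtain ⟨L0, hL0⟩ := exists_nat_ge (12 / ε)
  obtain ⟨L, hL⟩ : ∃ L : ℕ, L = L0 + 2 := ⟨_, rfl⟩
  have hL1 : 12 ≤ ε * L := by
    rw [div_le_iff₀ hε] at hL0
    have : (L0 : ℝ) ≤ L := by exact_mod_cast (show L0 ≤ L by omega)
    nlinarith
  have hbig : ∀ x : ℕ, L ≤ x → 5 ≤ ε * x := fun x hx => by
    have : (L : ℝ) ≤ x := by exact_mod_cast hx
    nlinarith
  refine ⟨K0 + 32 * L ^ 3 + 4 * L + 2, fun n c m d e j f hj hr hm1 hm hdm hde h1 h2 hf => ?_⟩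
  generalize hK : K0 + 32 * L ^ 3 + 4 * L + 2 = K at hj hr
  have hc : 2 ≤ c := by
    by_contra hc
    have : c = 0 ∨ c = 1 := by omega
    rcases this with rfl | rfl
    · rw [zero_add, Nat.choose_succ_self] at h2
      omega
    · rw [show 1 + j - 2 = j - 1 by omega, Nat.choose_self] at h1
      rw [add_comm 1 j, Nat.choose_self] at h2
      omega
  have hq : c + K ≤ n := by
    rcases hr with hr | hr
    · exact hr.2
    · refine le_trans ?_ hr
      rw [mul_add]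
      exact add_le_add (Nat.le_mul_of_pos_left _ (by omega)) (Nat.le_mul_of_pos_right _ (by omega))
  obtain ⟨q, hn⟩ : ∃ q, n = c + q := ⟨n - c, by omega⟩
  have j1 : (1 : ℝ) ≤ j := by exact_mod_cast (show 1 ≤ j by omega)
  have hd : (c + j - 2).choose (c - 1) ≤ d := by
    rw [Nat.choose_symm_of_eq_add (show c + j - 2 = c - 1 + (j - 1) by omega)]
    exact h1.trans (min_le_left _ _)
  constructor
  · obtain ⟨J, a1, a2, a3, a4⟩ := SR_deg hdm hf.1
    have a := big_lower hn hc ⟨a1, a2, a3⟩ hde h2.le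
    rw [a4] at a
    exact wbig_low (q := q) (hbig j (by omega)) (hbig q (by omega)) j1
      (by exact_mod_cast (show 1 ≤ q by omega)) (Nat.cast_nonneg _) (by exact_mod_cast a)
  refine wbig_up hε (hbig j (by omega)) j1 (Nat.cast_nonneg _) (by positivity) ?_
  rcases hr with hr | hr
  · obtain ⟨k, rfl⟩ : ∃ k, c = k + 1 := ⟨c - 1, by omega⟩
    obtain ⟨t, rfl⟩ : ∃ t, j = t + 1 := ⟨j - 1, by omega⟩
    rw [show k + 1 + (t + 1) - 2 = k + t by omega, Nat.add_sub_cancel] at hd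
    have hx := x_le (by omega) hm1 hm hdm hd
    obtain ⟨J, a1, a2, a3, a4⟩ := upperA L n k t m d (by omega) (by omega) (by omega) (by omega)
      hm hm1 hdm hd
    have a5 : (f : ℝ) ≤ #(shadow J) := by exact_mod_cast hf.2 (Rg.mem_SR ⟨a1, a2, a3⟩)
    have a6 : (n : ℝ) * d = ((k + 1 : ℕ) : ℝ) * m := by exact_mod_cast (hdm.trans (mul_comm _ _)).symm
    have a7 : (6 : ℝ) / L ≤ ε / 2 := by
      rw [div_le_iff₀ (by exact_mod_cast (show 0 < L by omega))]
      linarith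
    rw [a6] at a4
    rw [Nat.cast_add t 1, Nat.cast_one]
    exact (mul_le_mul_of_nonneg_right a5 (by positivity)).trans
      (a4.trans (mul_le_mul_of_nonneg_right (by linarith) (by positivity)))
  · have hcn : 2 * c ≤ n := le_trans (Nat.mul_le_mul (by omega) (by omega)) hr
    have hde' : d ≤ e := by
      have a : d * n ≤ e * n := by
        obtain ⟨k, rfl⟩ : ∃ k, c = k + 1 := ⟨c - 1, by omega⟩
        rw [← hdm, ← qm hn hdm hde]
        exact Nat.mul_le_mul_right _ (by omega)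
      exact Nat.le_of_mul_le_mul_right a (by omega)
    rw [min_eq_left hde', Nat.choose_symm_of_eq_add (show c + j = j + 1 + (c - 1) by omega)] at h2
    have key : ∀ x : ℕ, c + j ≤ x + 1 → x ≤ c + j → (x - 1).choose (c - 1) ≤ d →
        d < x.choose (c - 1) → (f : ℝ) * j ≤ (1 + ε / 2) * (c * m) := fun x x1 x2 x3 x4 => by
      obtain ⟨f', b1, b2⟩ := hK0 n c m d x hm1 hm hdm x3 x4 (by omega)
        (Or.inr (le_trans (Nat.mul_le_mul (by omega) x2) hr))
      have b3 : f' = f := b1.unique hf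
      subst b3
      have b4 : (0 : ℝ) < c * m := by
        exact_mod_cast Nat.mul_pos (show 0 < c by omega) hm1
      have b5 := (abs_le.1 b2).2
      rw [sub_le_iff_le_add, div_le_iff₀ b4] at b5
      have b6 : (c : ℝ) + j ≤ x + 1 := by exact_mod_cast x1
      exact (mul_le_mul_of_nonneg_left (by linarith) (Nat.cast_nonneg _)).trans
        (b5.trans (le_of_eq (by ring)))
    by_cases hx : d < (c + j - 1).choose (c - 1)
    · exact key (c + j - 1) (by omega) (by omega) hd hx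
    · exact key (c + j) (by omega) le_rfl (not_lt.1 hx) h2

end Pool.Agent.P.MP_4f3dfd_co.Win
end

-- part Pool.Agent.P.MP_4f3dfd_co.WKK
section

set_option autoImplicit false
set_option linter.unusedSectionVars false
set_option linter.unusedVariables false

namespace Pool.Agent.P.MP_4f3dfd_co.Win

open Finset Pool.Agent.P.MP_4f3dfd_co.Asy Pool.Agent.P.MP_4f3dfd_co.Off

theorem wkk_nat {n j N : ℕ} (hj : 1 ≤ j) (hN : N ≤ n) (G : Finset (Finset (Fin n)))
    (hG : ∀ X ∈ G, #X = j + 1) (hg : #G ≤ N.choose (j + 1)) :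
    ∃ z : ℕ, #G * (j + 1) ≤ #(shadow G) * (z + 1) ∧ z ^ j ≤ j.factorial * #(shadow G) := by
  classical
  rcases Nat.eq_zero_or_pos #G with h0 | h0
  · refine ⟨0, by rw [h0]; omega, ?_⟩
    rw [zero_pow (by omega)]
    exact Nat.zero_le _
  have hex : ∃ x : ℕ, #G ≤ x.choose (j + 1) := ⟨N, hg⟩
  have h1 := Nat.find_spec hex
  have h2 : Nat.find hex ≤ N := Nat.find_min' hex hg
  have h3 : j + 1 ≤ Nat.find hex := by
    by_contra hlt
    rw [Nat.choose_eq_zero_of_lt (by omega)] at h1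
    omega
  obtain ⟨z, hz⟩ : ∃ z, Nat.find hex = z + j + 1 := ⟨Nat.find hex - (j + 1), by omega⟩
  have h4 : ¬ #G ≤ (z + j).choose (j + 1) := Nat.find_min hex (by omega)
  have h5 := kk_ratio (h2.trans hN) G hG h1
  rw [hz, show z + j + 1 + 1 - (j + 1) = z + 1 by omega] at h5
  refine ⟨z, h5, ?_⟩
  have h6 := Nat.choose_succ_right_eq (z + j) j
  rw [Nat.add_sub_cancel] at h6
  have h7 := Nat.pow_sub_le_descFactorial (z + j) j
  rw [show z + j + 1 - j = z + 1 by omega, Nat.descFactorial_eq_factorial_mul_choose] at h7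
  have h8 : (z + j).choose j * z ≤ #(shadow G) * (z + 1) := by
    rw [← h6]
    exact (Nat.mul_le_mul_right _ (by omega)).trans h5
  obtain ⟨i, rfl⟩ : ∃ i, j = i + 1 := ⟨j - 1, by omega⟩
  have h9 : z ^ (i + 1) * (z + 1) ≤ (z + 1) ^ (i + 1) * z := by
    have := Nat.pow_le_pow_left (Nat.le_succ z) i
    calc z ^ (i + 1) * (z + 1) = z ^ i * (z * (z + 1)) := by ring
      _ ≤ (z + 1) ^ i * (z * (z + 1)) := Nat.mul_le_mul_right _ this
      _ = (z + 1) ^ (i + 1) * z := by ring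
  refine Nat.le_of_mul_le_mul_right (c := z + 1) ?_ (by omega)
  calc z ^ (i + 1) * (z + 1) ≤ (z + 1) ^ (i + 1) * z := h9
    _ ≤ (i + 1).factorial * (z + (i + 1)).choose (i + 1) * z := Nat.mul_le_mul_right _ h7
    _ = (i + 1).factorial * ((z + (i + 1)).choose (i + 1) * z) := by ring
    _ ≤ (i + 1).factorial * (#(shadow G) * (z + 1)) := Nat.mul_le_mul_left _ h8
    _ = (i + 1).factorial * #(shadow G) * (z + 1) := by ring

theorem wkk_fam {n c j : ℕ} (hc : 1 ≤ c) (B : Finset (Fin n)) (hB : #B = c + j)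
    (A : Finset (Finset (Fin n))) (hA : ∀ X ∈ A, #X = c ∧ X ⊆ B) :
    ∃ G : Finset (Finset (Fin n)), (∀ X ∈ G, #X = j + 1) ∧ #G ≤ (c + j).choose (j + 1) ∧
      (c + j).choose (j + 1) ≤ #G + #(shadow A) ∧ #(shadow G) + #A ≤ (c + j).choose j := by
  have hW : #(powersetCard (c - 1) B) = (c + j).choose (j + 1) := by
    rw [card_powersetCard, hB]
    exact Nat.choose_symm_of_eq_add (by omega)
  have hU : #(powersetCard c B) = (c + j).choose j := by
    rw [card_powersetCard, hB]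
    exact Nat.choose_symm_add
  have hinj : Set.InjOn (fun Y => B \ Y) (powersetCard (c - 1) B \ shadow A : Finset _) := by
    intro Y hY Y' hY' h
    have a1 := (mem_powersetCard.1 (mem_sdiff.1 (mem_coe.1 hY)).1).1
    have a2 := (mem_powersetCard.1 (mem_sdiff.1 (mem_coe.1 hY')).1).1
    have h' : B \ Y = B \ Y' := h
    rw [← Finset.sdiff_sdiff_eq_self a1, h', Finset.sdiff_sdiff_eq_self a2]
  refine ⟨image (fun Y => B \ Y) (powersetCard (c - 1) B \ shadow A), fun X hX => ?_, ?_, ?_, ?_⟩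
  · obtain ⟨Y, hY, rfl⟩ := mem_image.1 hX
    have a1 := mem_powersetCard.1 (mem_sdiff.1 hY).1
    rw [card_sdiff_of_subset a1.1, hB, a1.2]
    omega
  · rw [← hW]
    exact card_image_le.trans (card_le_card sdiff_subset)
  · rw [card_image_of_injOn hinj, ← hW]
    exact card_le_card_sdiff_add_card
  · have hAs : A ⊆ powersetCard c B := fun X hX => mem_powersetCard.2 ⟨(hA X hX).2, (hA X hX).1⟩
    have key : ∀ Z ∈ shadow (image (fun Y => B \ Y) (powersetCard (c - 1) B \ shadow A)),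
        Z ⊆ B ∧ B \ Z ∈ powersetCard c B \ A := by
      intro Z hZ
      obtain ⟨X, hX, v, hv, rfl⟩ := mem_shadow_iff.1 hZ
      obtain ⟨Y, hY, rfl⟩ := mem_image.1 hX
      have a1 := mem_powersetCard.1 (mem_sdiff.1 hY).1
      have hv' := mem_sdiff.1 hv
      have e : B \ (B \ Y).erase v = insert v Y := by
        ext u
        simp only [mem_sdiff, mem_erase, mem_insert]
        constructor
        · rintro ⟨h1, h2⟩
          by_cases h3 : u = v
          · exact Or.inl h3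
          · right
            by_contra h4
            exact h2 ⟨h3, h1, h4⟩
        · rintro (h1 | h1)
          · rw [h1]
            exact ⟨hv'.1, fun h2 => h2.1 rfl⟩
          · exact ⟨a1.1 h1, fun h2 => h2.2.2 h1⟩
      refine ⟨(erase_subset _ _).trans sdiff_subset, ?_⟩
      rw [e]
      refine mem_sdiff.2 ⟨mem_powersetCard.2 ⟨insert_subset hv'.1 a1.1, ?_⟩, fun h => ?_⟩
      · rw [card_insert_of_notMem hv'.2, a1.2]
        omega
      · refine (mem_sdiff.1 hY).2 (mem_shadow_iff.2 ⟨_, h, v, mem_insert_self _ _, ?_⟩)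
        exact erase_insert hv'.2
    have h1 : #(shadow (image (fun Y => B \ Y) (powersetCard (c - 1) B \ shadow A))) ≤
        #(powersetCard c B \ A) := by
      refine card_le_card_of_injOn (fun Z => B \ Z) (fun Z hZ => (key Z hZ).2) ?_
      intro Z hZ Z' hZ' h
      have h' : B \ Z = B \ Z' := h
      rw [← Finset.sdiff_sdiff_eq_self (key Z hZ).1, h', Finset.sdiff_sdiff_eq_self (key Z' hZ').1]
    have h2 := card_sdiff_add_card_eq_card hAs
    omega

/-- Kruskal-Katona inside one set of size `c + j`. -/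
theorem kkb {n c j : ℕ} (hj : 1 ≤ j) (hc : 1 ≤ c) (B : Finset (Fin n)) (hB : #B = c + j)
    (A : Finset (Finset (Fin n))) (hA : ∀ X ∈ A, #X = c ∧ X ⊆ B) :
    ((c + j).choose (j + 1) : ℝ) * (ps j (#A / (c + j).choose j) - (j + 2) / c) ≤
      #(shadow A) := by
  obtain ⟨G, hG, g1, g2, g3⟩ := wkk_fam hc B hB A hA
  have hn : c + j ≤ n := by
    rw [← hB]
    exact (card_le_univ B).trans (Fintype.card_fin n).le
  obtain ⟨z, z1, z2⟩ := wkk_nat hj hn G hG g1
  have hW := W_eq c j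
  have hf : j.factorial * (c + j).choose j ≤ (c + j) ^ j := by
    rw [← Nat.descFactorial_eq_factorial_mul_choose]
    exact Nat.descFactorial_le_pow _ _
  have hU0 : (0 : ℝ) < (c + j).choose j := by
    exact_mod_cast Nat.choose_pos (by omega)
  have hc0 : (0 : ℝ) < c := by exact_mod_cast hc
  have hj0 : (0 : ℝ) < j := by exact_mod_cast hj
  have z1' : (#G : ℝ) * (j + 1) ≤ #(shadow G) * (z + 1) := by exact_mod_cast z1
  have z2' : (z : ℝ) ^ j ≤ j.factorial * #(shadow G) := by exact_mod_cast z2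
  have g2' : ((c + j).choose (j + 1) : ℝ) ≤ #G + #(shadow A) := by exact_mod_cast g2
  have g3' : (#(shadow G) : ℝ) + #A ≤ (c + j).choose j := by exact_mod_cast g3
  have hf' : (j.factorial : ℝ) * (c + j).choose j ≤ (c + j) ^ j := by exact_mod_cast hf
  unfold ps
  generalize ((c + j).choose (j + 1) : ℝ) = W at *
  generalize ((c + j).choose j : ℝ) = U at *
  have hs0 : (0 : ℝ) ≤ #(shadow G) := Nat.cast_nonneg _
  have ha0 : (0 : ℝ) ≤ #A := Nat.cast_nonneg _
  obtain ⟨q, hq⟩ : ∃ q : ℝ, q = 1 - #A / U := ⟨_, rfl⟩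
  rw [← hq]
  have hUq : U * q = U - #A := by rw [hq]; field_simp
  have hsq : (#(shadow G) : ℝ) ≤ U * q := by linarith
  have hq0 : 0 ≤ q := le_of_mul_le_mul_left (by linarith) hU0
  have hq1 : q ≤ 1 := le_of_mul_le_mul_left (by linarith) hU0
  obtain ⟨s, hs⟩ : ∃ s : ℝ, s = q ^ (1 / (j : ℝ)) := ⟨_, rfl⟩
  have s0 : 0 ≤ s := hs ▸ Real.rpow_nonneg hq0 _
  have s1 : s ≤ 1 := hs ▸ Real.rpow_le_one hq0 hq1 (by positivity)
  have sj : s ^ j = q := by
    rw [hs, one_div]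
    exact Real.rpow_inv_natCast_pow hq0 (by omega)
  have hpow : q ^ (1 + 1 / (j : ℝ)) = q * s := by
    rw [Real.rpow_add_of_nonneg hq0 zero_le_one (by positivity), Real.rpow_one, hs]
  rw [hpow]
  have hz : (z : ℝ) ≤ s * (c + j) := by
    refine le_of_pow_le_pow_left₀ (n := j) (by omega) (by positivity) ?_
    rw [mul_pow, sj]
    have hf0 : (0 : ℝ) ≤ j.factorial := Nat.cast_nonneg _
    calc (z : ℝ) ^ j ≤ j.factorial * #(shadow G) := z2'
      _ ≤ j.factorial * (U * q) := mul_le_mul_of_nonneg_left hsq hf0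
      _ = q * (j.factorial * U) := by ring
      _ ≤ q * (c + j) ^ j := mul_le_mul_of_nonneg_left hf' hq0
  have h1 : (#G : ℝ) * (j + 1) ≤ U * q * (s * (c + j) + 1) :=
    z1'.trans (mul_le_mul hsq (by linarith) (by positivity) (by positivity))
  have hqs : q * s ≤ 1 := mul_le_one₀ hq1 s0 s1
  have h2 : U * q * (s * (c + j) + 1) ≤ U * c * (q * s) + U * (j + 2) := by
    have a1 : U * j * (q * s) ≤ U * j * 1 := mul_le_mul_of_nonneg_left hqs (by positivity)
    have a2 : U * q ≤ U * 1 := mul_le_mul_of_nonneg_left hq1 hU0.le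
    nlinarith only [hU0, hUq, a1]
  have h3 : W * (q * s + (j + 2) / c) * (j + 1) = U * c * (q * s) + U * (j + 2) := by
    rw [mul_right_comm, hW]
    field_simp
  have h4 : (#G : ℝ) ≤ W * (q * s + (j + 2) / c) :=
    le_of_mul_le_mul_right (by linarith) (show (0 : ℝ) < j + 1 by positivity)
  linarith

end Pool.Agent.P.MP_4f3dfd_co.Win
end

-- part Pool.Agent.P.MP_4f3dfd_co.WLoc
section

set_option autoImplicit false
set_option linter.unusedSectionVars false
set_option linter.unusedVariables false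

namespace Pool.Agent.P.MP_4f3dfd_co.Win

open Finset Pool.Agent.P.MP_4f3dfd_co.Asy Pool.Agent.P.MP_4f3dfd_co.Off

variable {V : Type*} [DecidableEq V] [Fintype V]

theorem wloc_sub {c k : ℕ} {S : Finset (Finset V)} {B : Finset V}
    (h : ∀ X ∈ S, X ⊆ B ∧ #X = c) (hB : #B ≤ k) : #S ≤ k.choose c := by
  have h1 : S ⊆ powersetCard c B := fun X hX => mem_powersetCard.2 (h X hX)
  have h2 := card_le_card h1
  rw [card_powersetCard] at h2
  exact h2.trans (Nat.choose_le_choose c hB)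

theorem wloc_cover {S : Finset (Finset V)} {P : Finset V} {g : V → Finset (Finset V)} {d : ℕ}
    (h : ∀ X ∈ S, ∃ v ∈ P, X ∈ g v) (hg : ∀ v, #(g v) = d) : #S ≤ #P * d := by
  have h1 : S ⊆ P.biUnion g := fun X hX => mem_biUnion.2 (h X hX)
  refine (card_le_card h1).trans (card_biUnion_le.trans ?_)
  simp only [hg, sum_const, smul_eq_mul, le_refl]

/-- Few members are close to a given set. -/
theorem loc {c m d e ρ : ℕ} {J : Finset (Finset V)} (hJ : Rg c m d J) (hde : d + e = m)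
    (A : Finset V) (h1 : ρ + 1 ≤ #A) (h2 : #A + ρ + 1 ≤ Fintype.card V) :
    #{X ∈ J | #(A \ X) ≤ ρ ∧ #(X \ A) ≤ ρ} ≤ (ρ + 1) * min d e := by
  rw [← Nat.mul_min_mul_left]
  refine le_min ?_ ?_
  · obtain ⟨P, hP, hc⟩ := exists_subset_card_eq h1
    rw [← hc]
    refine wloc_cover (g := fun v => {X ∈ J | v ∈ X}) (fun X hX => ?_) hJ.dg
    have hX' := mem_filter.1 hX
    by_contra hno
    have : P ⊆ A \ X := fun v hv =>
      mem_sdiff.2 ⟨hP hv, fun h => hno ⟨v, hv, mem_filter.2 ⟨hX'.1, h⟩⟩⟩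
    have := card_le_card this
    omega
  · have h3 : ρ + 1 ≤ #(Aᶜ) := by rw [card_compl]; omega
    obtain ⟨P, hP, hc⟩ := exists_subset_card_eq h3
    rw [← hc]
    refine wloc_cover (g := fun v => {X ∈ J | v ∉ X}) (fun X hX => ?_) fun v => ?_
    · have hX' := mem_filter.1 hX
      by_contra hno
      have : P ⊆ X \ A := fun v hv => mem_sdiff.2 ⟨by
        by_contra h
        exact hno ⟨v, hv, mem_filter.2 ⟨hX'.1, h⟩⟩, mem_compl.1 (hP hv)⟩
      have := card_le_card this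
      omega
    · have h4 := card_filter_add_card_filter_not (s := J) (fun X => v ∈ X)
      rw [hJ.dg, hJ.cd] at h4
      omega

theorem ins_inter {c j : ℕ} {J : Finset (Finset V)} (hJ : ∀ X ∈ J, #X = c) {B B' : Finset V}
    (hB : #B = c + j) (hB' : #B' = c + j) (hne : B ≠ B') :
    #(ins J B ∩ ins J B') ≤ (c + j - 1).choose c := by
  refine wloc_sub (B := B ∩ B') (fun X hX => ?_) ?_
  · have h := mem_inter.1 hX
    have h1 := mem_filter.1 h.1
    have h2 := mem_filter.1 h.2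
    exact ⟨subset_inter h1.2 h2.2, hJ X h1.1⟩
  · have : B ∩ B' ⊂ B := by
      refine Finset.ssubset_iff_subset_ne.2 ⟨inter_subset_left, fun h => hne ?_⟩
      exact eq_of_subset_of_card_le (inter_eq_left.1 h) (by omega)
    have := card_lt_card this
    omega

theorem ins_avoid {c j : ℕ} {J : Finset (Finset V)} (hJ : ∀ X ∈ J, #X = c) {B : Finset V}
    (hB : #B = c + j) {v : V} (hv : v ∈ B) :
    #{X ∈ ins J B | v ∉ X} ≤ (c + j - 1).choose c := by
  refine wloc_sub (B := B.erase v) (fun X hX => ?_) ?_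
  · have h := mem_filter.1 hX
    have h1 := mem_filter.1 h.1
    exact ⟨subset_erase.2 ⟨h1.2, h.2⟩, hJ X h1.1⟩
  · rw [card_erase_of_mem hv, hB]

/-- Bonferroni. -/
theorem bonf_sum {α β : Type*} [DecidableEq α] [DecidableEq β] (F : Finset α) (g : α → Finset β)
    {u : ℕ} (h2 : ∀ B ∈ F, ∀ B' ∈ F, B ≠ B' → #(g B ∩ g B') ≤ u) :
    ∑ B ∈ F, #(g B) ≤ #(F.biUnion g) + #F ^ 2 * u := by
  induction F using Finset.induction_on with
  | empty => simp
  | insert a F ha ih =>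
    have h3 := ih fun B hB B' hB' => h2 B (mem_insert_of_mem hB) B' (mem_insert_of_mem hB')
    have h4 := card_union_add_card_inter (g a) (F.biUnion g)
    have h5 : #(g a ∩ F.biUnion g) ≤ #F * u := by
      have h6 : g a ∩ F.biUnion g ⊆ F.biUnion fun B => g a ∩ g B := by
        intro x hx
        obtain ⟨hx1, hx2⟩ := mem_inter.1 hx
        obtain ⟨B, hB, hx3⟩ := mem_biUnion.1 hx2
        exact mem_biUnion.2 ⟨B, hB, mem_inter.2 ⟨hx1, hx3⟩⟩
      refine (card_le_card h6).trans (card_biUnion_le.trans ?_)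
      rw [← smul_eq_mul]
      exact sum_le_card_nsmul _ _ _ fun B hB => h2 a (mem_insert_self _ _) B
        (mem_insert_of_mem hB) fun h => ha (h ▸ hB)
    rw [sum_insert ha, biUnion_insert, card_insert_of_notMem ha]
    have e : (#F + 1) ^ 2 * u = #F ^ 2 * u + #F * u + (#F + 1) * u := by ring
    omega

theorem bonf {α β : Type*} [DecidableEq α] [DecidableEq β] (F : Finset α) (g : α → Finset β)
    (T : Finset β) {b u r : ℕ} (h1 : ∀ B ∈ F, g B ⊆ T ∧ b ≤ #(g B))
    (h2 : ∀ B ∈ F, ∀ B' ∈ F, B ≠ B' → #(g B ∩ g B') ≤ u) (hr : #T + r ^ 2 * u < r * b) :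
    #F < r := by
  by_contra hno
  obtain ⟨G, hG, hc⟩ := exists_subset_card_eq (not_lt.1 hno)
  have h3 := bonf_sum G g fun B hB B' hB' => h2 B (hG hB) B' (hG hB')
  have h4 : #(G.biUnion g) ≤ #T :=
    card_le_card (biUnion_subset.2 fun B hB => (h1 B (hG hB)).1)
  have h5 : #G • b ≤ ∑ B ∈ G, #(g B) := card_nsmul_le_sum _ _ _ fun B hB => (h1 B (hG hB)).2
  rw [smul_eq_mul, hc] at h5
  rw [hc] at h3
  omega

/-- Few big sets are close to a given set. -/
theorem near {c j m d e b r : ℕ} {J : Finset (Finset V)} (hJ : Rg c m d J) (hde : d + e = m)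
    (hc : 2 * j + 2 ≤ c) (hn : c + 3 * j + 2 ≤ Fintype.card V)
    (hr : (2 * j + 2) * min d e + r ^ 2 * (c + j - 1).choose c < r * b)
    (A : Finset V) (h1 : c ≤ #A) (h2 : #A ≤ c + j) :
    #{B ∈ big c j b J | c ≤ #(A ∩ B) + 1} < r := by
  have hT := loc (ρ := 2 * j + 1) hJ hde A (by omega) (by omega)
  have hB : ∀ B ∈ {B ∈ big c j b J | c ≤ #(A ∩ B) + 1},
      #B = c + j ∧ b ≤ #(ins J B) ∧ c ≤ #(A ∩ B) + 1 := by
    intro B h
    have h3 := mem_filter.1 h
    have h4 := mem_filter.1 h3.1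
    exact ⟨(mem_powersetCard.1 h4.1).2, h4.2, h3.2⟩
  refine bonf _ (ins J) {X ∈ J | #(A \ X) ≤ 2 * j + 1 ∧ #(X \ A) ≤ 2 * j + 1}
    (u := (c + j - 1).choose c) (b := b) (fun B h => ⟨fun X hX => ?_, (hB B h).2.1⟩)
    (fun B h B' h' hne => ins_inter hJ.sz (hB B h).1 (hB B' h').1 hne) ?_
  · obtain ⟨e1, _, e2⟩ := hB B h
    have hX' := mem_filter.1 hX
    have e3 := hJ.sz X hX'.1
    have a1 := card_sdiff_add_card_inter A B
    have a2 := card_sdiff_add_card_inter B A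
    rw [inter_comm] at a2
    have a3 := card_sdiff_add_card_eq_card hX'.2
    have a4 : A \ X ⊆ A \ B ∪ B \ X := by
      intro v hv
      have hv' := mem_sdiff.1 hv
      by_cases hb : v ∈ B
      · exact mem_union_right _ (mem_sdiff.2 ⟨hb, hv'.2⟩)
      · exact mem_union_left _ (mem_sdiff.2 ⟨hv'.1, hb⟩)
    have a5 := (card_le_card a4).trans (card_union_le _ _)
    have a6 : #(X \ A) ≤ #(B \ A) := card_le_card (sdiff_subset_sdiff hX'.2 subset_rfl)
    exact mem_filter.2 ⟨hX'.1, by omega, by omega⟩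
  · exact lt_of_le_of_lt (Nat.add_le_add_right hT _) hr

end Pool.Agent.P.MP_4f3dfd_co.Win
end

-- part Pool.Agent.P.MP_4f3dfd_co.WLowNum
section

set_option autoImplicit false
set_option linter.unusedSectionVars false
set_option linter.unusedVariables false

namespace Pool.Agent.P.MP_4f3dfd_co.Win

open Finset Pool.Agent.P.MP_4f3dfd_co.Asy Pool.Agent.P.MP_4f3dfd_co.Off

theorem wlownum_sq {L M U C : ℝ} (hL : 0 ≤ L) (hM : 0 ≤ M) (hU : 0 ≤ U) (hC : L ^ 2 ≤ C)
    (h : M ^ 2 ≤ U ^ 2 * C) : L * M ≤ U * C := by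
  have hC0 : 0 ≤ C := (sq_nonneg L).trans hC
  rw [← pow_le_pow_iff_left₀ (by positivity) (by positivity) two_ne_zero]
  calc (L * M) ^ 2 = L ^ 2 * M ^ 2 := by ring
    _ ≤ C * (U ^ 2 * C) := mul_le_mul hC h (sq_nonneg M) hC0
    _ = (U * C) ^ 2 := by ring

theorem wlownum_floor {y : ℝ} (hy : 2 ≤ y) :
    y / 2 ≤ (⌊y⌋₊ : ℝ) ∧ y - 1 < (⌊y⌋₊ : ℝ) ∧ (⌊y⌋₊ : ℝ) ≤ y := by
  have h1 := Nat.lt_floor_add_one y
  exact ⟨by linarith, by linarith, Nat.floor_le (by linarith)⟩

/-- The choice of the parameters of the lower bound. -/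
theorem low_num {j : ℕ} (hj : 1 ≤ j) {θ : ℝ} (h0 : 0 < θ) (h1 : θ ≤ 1 / 2) : ∃ K : ℕ,
    ∀ c M : ℕ, K ≤ c → M ^ 2 ≤ (c + j).choose j ^ 2 * c → ∃ s₁ s₂ x r : ℕ,
      2 * (j + 1) ^ 2 * ((j + 2) * M) * j.factorial ^ 2 < s₂ * (s₁ + s₂) ^ j ∧
      2 * (x + 1) < s₁ ∧ x ≤ c ∧
      (2 * j + 2) * M + r ^ 2 * (c + j - 1).choose c < r * ((x + j).choose j + 1) ∧
      ((j + s₁ + s₂ : ℕ) : ℝ) + j * r ≤ θ * c ∧
      ((r : ℝ) + 1) * (c + j - 1).choose c ≤ θ * ((x + j).choose j + 1 : ℕ) ∧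
      (r : ℝ) * (c + j).choose j + (c + j).choose (j + 1) * ((j + 2) / c) ≤
        θ * c * ((x + j).choose j + 1 : ℕ) := by
  have hj1 : (1 : ℝ) ≤ j := by exact_mod_cast hj
  obtain ⟨η, hη⟩ : ∃ η : ℝ, η = (θ / 32) ^ j := ⟨_, rfl⟩
  have hη0 : 0 < η := by rw [hη]; positivity
  have hη1 : η ≤ 1 := by rw [hη]; exact pow_le_one₀ (by positivity) (by linarith)
  obtain ⟨κ, hκ⟩ : ∃ κ : ℝ, κ = θ * η / (8 * j) := ⟨_, rfl⟩
  have hκ0 : 0 < κ := by rw [hκ]; positivity
  have hκj : κ * j = θ * η / 8 := by rw [hκ]; field_simp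
  obtain ⟨τ, hτ⟩ : ∃ τ : ℝ, τ = (θ / 8) ^ (j + 1) := ⟨_, rfl⟩
  have hτ0 : 0 < τ := by rw [hτ]; positivity
  obtain ⟨A, hA⟩ : ∃ A : ℝ, A = 2 * (j + 1) ^ 2 * (j + 2) * (j.factorial : ℝ) ^ 2 := ⟨_, rfl⟩
  have hA0 : 0 ≤ A := by rw [hA]; positivity
  obtain ⟨L1, hL1⟩ : ∃ L : ℝ, L = 2 * A * 2 ^ j / τ := ⟨_, rfl⟩
  have hL10 : 0 ≤ L1 := by rw [hL1]; positivity
  obtain ⟨L2, hL2⟩ : ∃ L : ℝ, L = 8 * (2 * j + 2) / (κ * η) := ⟨_, rfl⟩
  have hL20 : 0 ≤ L2 := by rw [hL2]; positivity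
  refine ⟨⌈32 * j / θ + 2 / κ + L1 ^ 2 + L2 ^ 2⌉₊, ?_⟩
  intro c M hK hM
  have hK' : 32 * j / θ + 2 / κ + L1 ^ 2 + L2 ^ 2 ≤ (c : ℝ) := Nat.ceil_le.1 hK
  have p1 : 0 < 32 * j / θ := by positivity
  have p2 : 0 < 2 / κ := by positivity
  have p3 := sq_nonneg L1
  have p4 := sq_nonneg L2
  have hC0 : (0 : ℝ) < c := by linarith only [hK', p1, p2, p3, p4]
  have hθC : 32 * j ≤ θ * c := by
    have : 32 * j / θ ≤ (c : ℝ) := by linarith only [hK', p2, p3, p4]
    rw [div_le_iff₀ h0] at this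
    linarith only [this]
  have hκC : 2 ≤ κ * c := by
    have : 2 / κ ≤ (c : ℝ) := by linarith
    rw [div_le_iff₀ hκ0] at this
    linarith only [this]
  have hθc : θ * c ≤ c / 2 := by
    have := mul_le_mul_of_nonneg_right h1 hC0.le
    linarith only [this]
  obtain ⟨s1, s2, s3⟩ := wlownum_floor (y := θ * c / 4) (by linarith only [h0, h1, hj1, hθC])
  obtain ⟨x1, x2, x3⟩ := wlownum_floor (y := θ * c / 16) (by linarith only [hj1, hθC])
  obtain ⟨r1, r2, r3⟩ := wlownum_floor hκC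
  generalize ⌊θ * c / 4⌋₊ = s at s1 s2 s3
  generalize ⌊θ * c / 16⌋₊ = x at x1 x2 x3
  generalize ⌊κ * c⌋₊ = r at r1 r2 r3
  have hxc : x ≤ c := by
    have : (x : ℝ) ≤ c := by linarith only [h0, h1, hj1, hθC, hθc, x3]
    exact_mod_cast this
  have hM' : (M : ℝ) ^ 2 ≤ ((c + j).choose j : ℝ) ^ 2 * c := by exact_mod_cast hM
  have hsc : (((c + j).choose j : ℝ)) * (x : ℝ) ^ j ≤ ((x + j).choose j : ℝ) * (c : ℝ) ^ j := by
    exact_mod_cast choose_scale hxc j
  have hUp : (((c + j).choose j : ℝ)) ≤ 2 ^ j * (c : ℝ) ^ j := by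
    have h2 : (((c + j).choose j : ℝ)) ≤ ((c : ℝ) + j) ^ j := by
      exact_mod_cast Nat.choose_le_pow (c + j) j
    rw [← mul_pow]
    exact h2.trans (pow_le_pow_left₀ (by positivity) (by linarith only [h0, h1, hj1, hθC, hθc]) j)
  have hU0 : (0 : ℝ) < (c + j).choose j := by
    exact_mod_cast Nat.choose_pos (Nat.le_add_left j c)
  have hW := W_eq c j
  have hu := u_eq c j hj
  have hu0 : (0 : ℝ) ≤ (c + j - 1).choose c := Nat.cast_nonneg _
  have hW0 : (0 : ℝ) ≤ (c + j).choose (j + 1) := Nat.cast_nonneg _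
  have hM0 : (0 : ℝ) ≤ M := Nat.cast_nonneg _
  have hr0 : (0 : ℝ) ≤ r := Nat.cast_nonneg _
  have m1 := wlownum_sq hL10 hM0 hU0.le (by linarith only [hK', p1, p2, p4]) hM'
  have m2 := wlownum_sq hL20 hM0 hU0.le (by linarith only [hK', p1, p2, p3]) hM'
  have hb : η * ((c + j).choose j : ℝ) ≤ (x + j).choose j := by
    have h2 : η * (c : ℝ) ^ j ≤ (x : ℝ) ^ j := by
      rw [hη, ← mul_pow]
      exact pow_le_pow_left₀ (by positivity) (by linarith only [hj1, hθC, x2]) j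
    have h3 := mul_le_mul_of_nonneg_left h2 hU0.le
    have h4 : η * ((c + j).choose j : ℝ) * (c : ℝ) ^ j ≤ (x + j).choose j * (c : ℝ) ^ j := by
      linarith only [hsc, h3]
    exact le_of_mul_le_mul_right h4 (by positivity)
  have g1 : 2 * (j + 1) ^ 2 * ((j + 2) * M) * j.factorial ^ 2 < s * (s + s) ^ j := by
    have h2 : τ * (c : ℝ) ^ (j + 1) ≤ (s : ℝ) * ((s : ℝ) + s) ^ j := by
      rw [hτ, ← mul_pow, pow_succ']
      exact mul_le_mul (by linarith only [h0, h1, hj1, hθC, s2]) (pow_le_pow_left₀ (by positivity) (by linarith only [h0, h1, hj1, hθC, s2]) j)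
        (by positivity) (Nat.cast_nonneg _)
    have h3 : L1 * M ≤ 2 ^ j * (c : ℝ) ^ (j + 1) := by
      have := mul_le_mul_of_nonneg_right hUp hC0.le
      rw [pow_succ]
      linarith only [m1, this]
    have h4 : 2 * A * M * 2 ^ j ≤ τ * (c : ℝ) ^ (j + 1) * 2 ^ j := by
      have h5 := mul_le_mul_of_nonneg_left h3 hτ0.le
      have h6 : τ * L1 = 2 * A * 2 ^ j := by rw [hL1]; field_simp
      calc 2 * A * M * 2 ^ j = τ * L1 * M := by rw [h6]; ring
        _ ≤ _ := by linarith only [h5]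
    have h5 := le_of_mul_le_mul_right h4 (by positivity)
    have h6 : 0 < τ * (c : ℝ) ^ (j + 1) := by positivity
    have h7 : (2 * ((j : ℝ) + 1) ^ 2 * ((j + 2) * M) * (j.factorial : ℝ) ^ 2) <
        (s : ℝ) * ((s : ℝ) + s) ^ j := by
      have : 2 * ((j : ℝ) + 1) ^ 2 * ((j + 2) * M) * (j.factorial : ℝ) ^ 2 = A * M := by
        rw [hA]; ring
      linarith only [h2, h5, h6, this]
    exact_mod_cast h7
  generalize hUe : (((c + j).choose j : ℕ) : ℝ) = U at *
  generalize hWe : (((c + j).choose (j + 1) : ℕ) : ℝ) = W at *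
  have huC : ((c + j - 1).choose c : ℝ) * c ≤ U * j := by
    have := mul_nonneg hu0 (by linarith only [h0, h1, hj1] : (0 : ℝ) ≤ j)
    linarith only [hu, this]
  have hκu : κ * c * ((c + j - 1).choose c : ℝ) ≤ θ * (η * U) / 8 := by
    have h2 := mul_le_mul_of_nonneg_left huC hκ0.le
    have h3 : κ * (U * j) = θ * (η * U) / 8 := by
      calc κ * (U * j) = κ * j * U := by ring
        _ = _ := by rw [hκj]; ring
    linarith only [h2, h3]
  have hru : (r : ℝ) * ((c + j - 1).choose c : ℝ) ≤ θ * (η * U) / 8 :=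
    (mul_le_mul_of_nonneg_right r3 hu0).trans hκu
  have h2u : 2 * ((c + j - 1).choose c : ℝ) ≤ θ * (η * U) / 8 :=
    (mul_le_mul_of_nonneg_right hκC hu0).trans hκu
  have hηU : 0 < η * U := by positivity
  have hθb : θ * (η * U) ≤ θ * ((x + j).choose j : ℝ) := mul_le_mul_of_nonneg_left hb h0.le
  refine ⟨s, s, x, r, g1, ?_, hxc, ?_, ?_, ?_, ?_⟩
  · have : 2 * ((x : ℝ) + 1) < s := by linarith only [h0, h1, hj1, hθC, s2, x3]
    exact_mod_cast this
  · have h2 : θ * (η * U) ≤ 1 / 2 * (η * U) := mul_le_mul_of_nonneg_right h1 hηU.le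
    have h3 : (r : ℝ) * ((c + j - 1).choose c : ℝ) ≤ ((x + j).choose j : ℝ) / 2 := by linarith only [hb, hru, hηU, h2]
    have h4 := mul_le_mul_of_nonneg_left h3 hr0
    have h5 : κ * η * L2 = 8 * (2 * j + 2) := by rw [hL2]; field_simp
    have h6 := mul_le_mul_of_nonneg_left m2 (mul_pos hκ0 hη0).le
    have h7 : 8 * ((2 * (j : ℝ) + 2) * M) ≤ κ * c * (η * U) := by
      calc 8 * ((2 * (j : ℝ) + 2) * M) = κ * η * L2 * M := by rw [h5]; ring
        _ ≤ _ := by linarith only [h6]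
    have h8 : κ * c / 2 * (η * U) ≤ r * ((x + j).choose j : ℝ) :=
      mul_le_mul r1 hb hηU.le hr0
    have h9 : 0 < κ * c * (η * U) := by positivity
    have h10 : (2 * (j : ℝ) + 2) * M + (r : ℝ) ^ 2 * ((c + j - 1).choose c : ℝ) <
        r * (((x + j).choose j : ℝ) + 1) := by
      have e1 : (r : ℝ) ^ 2 * ((c + j - 1).choose c : ℝ) =
          r * (r * ((c + j - 1).choose c : ℝ)) := by ring
      rw [e1]
      linarith only [h0, h1, hκC, r2, h4, h7, h8, h9]
    exact_mod_cast h10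
  · have h2 := mul_le_mul_of_nonneg_left r3 (by linarith only [h0, h1, hj1] : (0 : ℝ) ≤ j)
    have h3 : (j : ℝ) * (κ * c) = η * (θ * c) / 8 := by
      calc (j : ℝ) * (κ * c) = κ * j * c := by ring
        _ = _ := by rw [hκj]; ring
    have h4 : η * (θ * c) ≤ 1 * (θ * c) := mul_le_mul_of_nonneg_right hη1 (by positivity)
    push_cast
    linarith only [h0, h1, hj1, hθC, s3, h2, h3, h4]
  · have h2 : 0 < θ * (η * U) := by positivity
    push_cast
    linarith only [h0, hru, h2u, hθb, h2]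
  · have h2 : W * ((j + 2) / c) ≤ 2 * U := by
      rw [← mul_div_assoc, div_le_iff₀ hC0]
      have := mul_nonneg hW0 (by linarith only [h0, h1, hj1] : (0 : ℝ) ≤ j)
      linarith only [hW, this]
    have h3 : κ ≤ θ * η / 8 := by
      have := mul_le_mul_of_nonneg_left hj1 hκ0.le
      linarith only [hκj, this]
    have h4 := mul_le_mul_of_nonneg_right h3 (mul_pos hC0 hU0).le
    have h5 := mul_le_mul_of_nonneg_right r3 hU0.le
    have h6 := mul_le_mul_of_nonneg_right hκC hU0.le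
    have h7 := mul_le_mul_of_nonneg_left hθb hC0.le
    have h8 : 0 < θ * c := by positivity
    have h9 := mul_pos hκ0 (mul_pos hC0 hU0)
    push_cast
    linarith only [h0, h1, hj1, hθC, hU0, h2, h4, h5, h6, h7]

end Pool.Agent.P.MP_4f3dfd_co.Win
end

-- part Pool.Agent.P.MP_4f3dfd_co.WPeel
section

set_option autoImplicit false
set_option linter.unusedSectionVars false
set_option linter.unusedVariables false

namespace Pool.Agent.P.MP_4f3dfd_co.Win

open Finset Pool.Agent.P.MP_4f3dfd_co.Asy Pool.Agent.P.MP_4f3dfd_co.Off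

variable {V : Type*} [DecidableEq V]

theorem wpeel_ext {X Z : Finset V} {a : V} (ha : a ∈ X) (hc : #Z = #X) (h : X.erase a ⊆ Z) :
    ∃ b, b ∉ X.erase a ∧ Z = insert b (X.erase a) := by
  have h1 := card_erase_add_one ha
  obtain ⟨b, hb1, hb2⟩ : ∃ b ∈ Z, b ∉ X.erase a := by
    by_contra hh
    push Not at hh
    have := card_le_card (show Z ⊆ X.erase a from hh)
    omega
  exact ⟨b, hb2, eq_insert h (by omega) hb1 hb2⟩

theorem wpeel_sdiff {X X₀ : Finset V} (h : #X = #X₀) : #(X₀ \ X) = #(X \ X₀) := by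
  have h1 := card_sdiff_add_card_inter X X₀
  have h2 := card_sdiff_add_card_inter X₀ X
  rw [inter_comm] at h2
  omega

theorem wpeel_erase_sdiff {X X₀ : Finset V} {a : V} (ha : a ∈ X₀) :
    X.erase a \ X₀ = X \ X₀ := by
  ext x
  simp only [mem_sdiff, mem_erase]
  exact ⟨fun h => ⟨h.1.2, h.2⟩, fun h => ⟨⟨fun e => h.2 (e ▸ ha), h.1⟩, h.2⟩⟩

/-- Counting escaping pairs. -/
theorem esc_le {c i : ℕ} (H : Finset (Finset V)) (hH : ∀ X ∈ H, #X = c) {X₀ : Finset V}
    (h₀ : #X₀ = c) :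
    ∑ X ∈ H with #(X \ X₀) = i, #{a ∈ X ∩ X₀ | ∃ Z ∈ H, X.erase a ⊆ Z ∧ #(Z \ X₀) = i + 1} ≤
      (i + 1) ^ 2 * #{Z ∈ H | #(Z \ X₀) = i + 1} := by
  rw [← card_sigma]
  have h2 : #(({Z ∈ H | #(Z \ X₀) = i + 1} : Finset (Finset V)).sigma
      fun Z => (Z \ X₀) ×ˢ (X₀ \ Z)) = (i + 1) ^ 2 * #{Z ∈ H | #(Z \ X₀) = i + 1} := by
    rw [card_sigma, sum_congr rfl (g := fun _ => (i + 1) ^ 2), sum_const, smul_eq_mul, mul_comm]
    intro Z hZ
    rw [mem_filter] at hZ
    rw [card_product, wpeel_sdiff (X := Z) (X₀ := X₀) (by rw [hH Z hZ.1, h₀]), hZ.2, sq]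
  rw [← h2]
  refine card_le_card_of_surjOn
    (fun p : (Σ _ : Finset V, V × V) =>
      (⟨insert p.2.2 (p.1.erase p.2.1), p.2.2⟩ : Σ _ : Finset V, V)) ?_
  rintro ⟨X, a⟩ hp
  rw [mem_coe, mem_sigma, mem_filter, mem_filter, mem_inter] at hp
  obtain ⟨⟨hX, hi⟩, ⟨haX, ha0⟩, Z, hZ, hs, hZi⟩ := hp
  dsimp only at hX hi haX ha0 hs
  obtain ⟨b, hb, e⟩ := wpeel_ext haX (by rw [hH Z hZ, hH X hX]) hs
  have hb0 : b ∉ X₀ := by
    intro hb0
    rw [e, insert_sdiff_of_mem _ hb0, wpeel_erase_sdiff ha0] at hZi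
    omega
  have hab : a ≠ b := fun h => hb0 (h ▸ ha0)
  refine ⟨⟨Z, b, a⟩, ?_, ?_⟩
  · rw [mem_coe, mem_sigma, mem_filter, mem_product, mem_sdiff, mem_sdiff]
    refine ⟨⟨hZ, hZi⟩, ⟨?_, hb0⟩, ha0, ?_⟩
    · dsimp only
      rw [e]; exact mem_insert_self _ _
    · dsimp only
      rw [e, mem_insert, mem_erase]
      rintro (h | h)
      · exact hab h
      · exact h.1 rfl
  · dsimp only
    rw [e, erase_insert hb, insert_erase haX]

theorem wpeel_escape {c j i : ℕ} (H : Finset (Finset V)) (hH : ∀ X ∈ H, #X = c)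
    {X₀ X : Finset V} (h₀ : #X₀ = c) (hX : #X = c) (hi : #(X \ X₀) = i) (hij : i + 1 ≤ j) {a : V}
    (haX : a ∈ X) (ha0 : a ∈ X₀) (hr : j + 1 ≤ ex H (X.erase a)) :
    ∃ Z ∈ H, X.erase a ⊆ Z ∧ #(Z \ X₀) = i + 1 := by
  by_contra hh
  push Not at hh
  have h1 : {Z ∈ H | X.erase a ⊆ Z} ⊆
      (insert a (X₀ \ X)).image fun b => insert b (X.erase a) := by
    intro Z hZ
    rw [mem_filter] at hZ
    obtain ⟨b, hb, e⟩ := wpeel_ext haX (by rw [hH Z hZ.1, hX]) hZ.2
    refine mem_image.2 ⟨b, ?_, e.symm⟩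
    have hb0 : b ∈ X₀ := by
      by_contra hb0
      apply hh Z hZ.1 hZ.2
      rw [e, insert_sdiff_of_notMem _ hb0, wpeel_erase_sdiff ha0,
        card_insert_of_notMem, hi]
      intro h
      rw [mem_sdiff] at h
      exact hb (mem_erase.2 ⟨fun e' => hb0 (e' ▸ ha0), h.1⟩)
    by_cases hba : b = a
    · rw [hba]; exact mem_insert_self _ _
    · exact mem_insert_of_mem (mem_sdiff.2 ⟨hb0, fun h => hb (mem_erase.2 ⟨hba, h⟩)⟩)
  have h2 := ((card_le_card h1).trans card_image_le).trans (card_insert_le _ _)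
  rw [wpeel_sdiff (by rw [hX, h₀]), hi] at h2
  unfold ex at hr
  omega

/-- The layers around a member grow. -/
theorem layer {c j s : ℕ} (H : Finset (Finset V)) (hH : ∀ X ∈ H, #X = c) {X₀ : Finset V}
    (h₀ : X₀ ∈ H) (hr : ∀ X ∈ H, j + s ≤ #{v ∈ X | j + 1 ≤ ex H (X.erase v)}) :
    ∀ i ≤ j, s ^ i ≤ #{X ∈ H | #(X \ X₀) = i} * i.factorial ^ 2 := by
  intro i
  induction i with
  | zero =>
    intro _
    have : 0 < #{X ∈ H | #(X \ X₀) = 0} :=
      card_pos.2 ⟨X₀, mem_filter.2 ⟨h₀, by rw [sdiff_self, bot_eq_empty, card_empty]⟩⟩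
    simp only [pow_zero, Nat.factorial_zero, one_pow, mul_one]
    omega
  | succ i ih =>
    intro hij
    have h1 := ih (by omega)
    have h2 := esc_le (i := i) H hH (hH X₀ h₀)
    have h3 : #{X ∈ H | #(X \ X₀) = i} * s ≤ ∑ X ∈ H with #(X \ X₀) = i,
        #{a ∈ X ∩ X₀ | ∃ Z ∈ H, X.erase a ⊆ Z ∧ #(Z \ X₀) = i + 1} := by
      rw [← smul_eq_mul]
      refine card_nsmul_le_sum _ _ _ fun X hX => ?_
      rw [mem_filter] at hX
      have a1 : {v ∈ X | j + 1 ≤ ex H (X.erase v)} ⊆ (X \ X₀) ∪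
          {a ∈ X ∩ X₀ | ∃ Z ∈ H, X.erase a ⊆ Z ∧ #(Z \ X₀) = i + 1} := by
        intro v hv
        rw [mem_filter] at hv
        by_cases h : v ∈ X₀
        · exact mem_union_right _ (mem_filter.2 ⟨mem_inter.2 ⟨hv.1, h⟩,
            wpeel_escape H hH (hH X₀ h₀) (hH X hX.1) hX.2 hij hv.1 h hv.2⟩)
        · exact mem_union_left _ (mem_sdiff.2 ⟨hv.1, h⟩)
      have a2 := ((hr X hX.1).trans (card_le_card a1)).trans (card_union_le _ _)
      rw [hX.2] at a2
      omega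
    calc s ^ (i + 1) = s ^ i * s := pow_succ _ _
      _ ≤ #{X ∈ H | #(X \ X₀) = i} * i.factorial ^ 2 * s := by gcongr
      _ = #{X ∈ H | #(X \ X₀) = i} * s * i.factorial ^ 2 := by ring
      _ ≤ (i + 1) ^ 2 * #{Z ∈ H | #(Z \ X₀) = i + 1} * i.factorial ^ 2 :=
          Nat.mul_le_mul_right _ (h3.trans h2)
      _ = _ := by rw [Nat.factorial_succ]; ring

theorem wpeel_step {j : ℕ} (T H : Finset (Finset V)) {X : Finset V} (hX : X ∈ H)
    (hT : ∀ v ∈ X, X.erase v ∈ T) :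
    ∑ Y ∈ T, min (ex (H.erase X) Y) j + #{v ∈ X | ¬ j + 1 ≤ ex H (X.erase v)} ≤
      ∑ Y ∈ T, min (ex H Y) j := by
  have a1 : #{v ∈ X | ¬ j + 1 ≤ ex H (X.erase v)} ≤ #{Y ∈ T | Y ⊆ X ∧ ex H Y ≤ j} := by
    apply card_le_card_of_injOn X.erase
    · intro v hv
      rw [mem_coe, mem_filter] at hv ⊢
      exact ⟨hT v hv.1, erase_subset _ _, by omega⟩
    · intro a ha b hb hab
      rw [mem_coe, mem_filter] at ha hb
      exact erase_injOn X ha.1 hb.1 hab
  refine (Nat.add_le_add_left a1 _).trans ?_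
  rw [card_filter, ← sum_add_distrib]
  refine sum_le_sum fun Y _ => ?_
  have e : ex H Y = ex (H.erase X) Y + if Y ⊆ X then 1 else 0 := by
    unfold ex
    rw [filter_erase]
    split_ifs with h
    · exact (card_erase_add_one (mem_filter.2 ⟨hX, h⟩)).symm
    · rw [erase_eq_of_notMem fun h' => h (mem_filter.1 h').2, add_zero]
  rw [e]
  by_cases h : Y ⊆ X <;> simp only [h, true_and, false_and, if_true, if_false]
  · split_ifs <;> omega
  · omega

/-- Peeling. -/
theorem peel {c j s : ℕ} (D : Finset (Finset V)) (hD : ∀ X ∈ D, #X = c)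
    (h : ∀ H ⊆ D, H.Nonempty → ∃ X ∈ H, #{v ∈ X | j + 1 ≤ ex H (X.erase v)} ≤ s) :
    c * #D ≤ j * #(shadow D) + s * #D := by
  have key : ∀ N : ℕ, ∀ H ⊆ D, #H = N →
      c * N ≤ ∑ Y ∈ shadow D, min (ex H Y) j + s * N := by
    intro N
    induction N with
    | zero => intro H _ _; simp
    | succ N ih =>
      intro H hHD hN
      obtain ⟨X, hX, hs⟩ := h H hHD (card_pos.1 (by omega))
      have a1 := ih (H.erase X) ((erase_subset _ _).trans hHD)
        (by rw [card_erase_of_mem hX, hN]; rfl)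
      have a2 := wpeel_step (j := j) (shadow D) H hX fun v hv => erase_mem_shadow (hHD hX) hv
      have a3 := card_filter_add_card_filter_not (s := X) fun v => j + 1 ≤ ex H (X.erase v)
      rw [hD X (hHD hX)] at a3
      rw [mul_add, mul_add, mul_one, mul_one]
      omega
  refine (key _ D Subset.rfl rfl).trans (Nat.add_le_add_right ?_ _)
  rw [mul_comm, ← smul_eq_mul]
  exact sum_le_card_nsmul _ _ _ fun Y _ => min_le_right _ _

end Pool.Agent.P.MP_4f3dfd_co.Win
end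

-- part Pool.Agent.P.MP_4f3dfd_co.WPhi
section

set_option autoImplicit false
set_option linter.unusedSectionVars false
set_option linter.unusedVariables false

namespace Pool.Agent.P.MP_4f3dfd_co.Win

open Finset Pool.Agent.P.MP_4f3dfd_co.Asy Pool.Agent.P.MP_4f3dfd_co.Off

variable {n c j : ℕ} {d e : ℝ} {t : Finset (Fin n) → ℝ}

theorem ph_nonneg (hj : 1 ≤ j) {t : ℝ} (h1 : t ≤ 1) : 0 ≤ ph j t := by
  have h0 : (0 : ℝ) ≤ 1 / (j : ℝ) := by positivity
  have h := one_add_mul_self_le_rpow_one_add (s := -t) (by linarith) (p := 1 + 1 / (j : ℝ))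
    (by linarith)
  rw [← sub_eq_add_neg] at h
  unfold ph
  linarith

theorem ph_le_sq (hj : 1 ≤ j) {t : ℝ} (h0 : 0 ≤ t) (h1 : t ≤ 1) : ph j t ≤ t ^ 2 / j := by
  have hj' : (1 : ℝ) ≤ j := by exact_mod_cast hj
  have p0 : (0 : ℝ) ≤ 1 / (j : ℝ) := by positivity
  have p1 : 1 / (j : ℝ) ≤ 1 := by
    rw [div_le_one (by linarith)]
    exact hj'
  have ht : 0 ≤ 1 - t := by linarith
  have h := rpow_one_add_le_one_add_mul_self (s := -t) (by linarith) p0 p1
  rw [← sub_eq_add_neg] at h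
  have e : (1 - t) ^ (1 + 1 / (j : ℝ)) = (1 - t) * (1 - t) ^ (1 / (j : ℝ)) := by
    rw [Real.rpow_add_of_nonneg ht zero_le_one p0, Real.rpow_one]
  have h2 := mul_le_mul_of_nonneg_left h ht
  have e2 : t ^ 2 / j = t ^ 2 * (1 / (j : ℝ)) := by ring
  unfold ph
  rw [e, e2]
  generalize 1 / (j : ℝ) = p at h2 ⊢
  nlinarith

theorem ph_zero (j : ℕ) : ph j 0 = 0 := by
  unfold ph
  rw [sub_zero, Real.one_rpow]
  ring

theorem ph_lip (hj : 1 ≤ j) {s t : ℝ} (hs : s ≤ t) (h1 : t ≤ 1) :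
    ph j t ≤ ph j s + 2 * (t - s) := by
  have hj' : (1 : ℝ) ≤ j := by exact_mod_cast hj
  have p0 : (0 : ℝ) ≤ 1 / (j : ℝ) := by positivity
  have p1 : 1 / (j : ℝ) ≤ 1 := by
    rw [div_le_one (by linarith)]
    exact hj'
  have h : (1 - t) ^ (1 + 1 / (j : ℝ)) ≤ (1 - s) ^ (1 + 1 / (j : ℝ)) :=
    Real.rpow_le_rpow (by linarith) (by linarith) (by linarith)
  have h2 := mul_le_mul_of_nonneg_right p1 (sub_nonneg.2 hs)
  unfold ph
  linarith

theorem exists_max (n c j : ℕ) {d e : ℝ} (hd : 0 ≤ d) (he : 0 ≤ e) :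
    ∃ S, IsGreatest (SV n c j d e) S := by
  have hcl : IsClosed {t : Finset (Fin n) → ℝ | Pk n c j d e t} := by
    unfold Pk
    simp only [Set.ofPred_and, Set.ofPred_forall]
    refine IsClosed.inter (isClosed_iInter fun B => IsClosed.inter ?_ ?_)
      (isClosed_iInter fun v => IsClosed.inter ?_ ?_)
    · exact isClosed_le continuous_const (continuous_apply B)
    · exact isClosed_le (continuous_apply B) continuous_const
    · exact isClosed_le (continuous_const.mul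
        (continuous_finsetSum _ fun B _ => continuous_apply B)) continuous_const
    · exact isClosed_le (continuous_const.mul
        (continuous_finsetSum _ fun B _ => continuous_apply B)) continuous_const
  have hcp : IsCompact {t : Finset (Fin n) → ℝ | Pk n c j d e t} :=
    (isCompact_univ_pi fun _ : Finset (Fin n) => isCompact_Icc (a := (0 : ℝ)) (b := 1)).of_isClosed_subset
      hcl fun t ht B _ => ht.1 B
  have hne : {t : Finset (Fin n) → ℝ | Pk n c j d e t}.Nonempty := by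
    refine ⟨fun _ => 0, fun B => ⟨le_rfl, zero_le_one⟩, fun v => ⟨?_, ?_⟩⟩
    · rw [sum_const_zero, mul_zero]
      exact hd
    · rw [sum_const_zero, mul_zero]
      exact he
  have p0 : (0 : ℝ) ≤ 1 + 1 / (j : ℝ) := by positivity
  have hph : Continuous (ph j) := by
    unfold ph
    exact (((continuous_const.sub continuous_id).rpow_const fun _ => Or.inr p0).sub
      continuous_const).add (continuous_const.mul continuous_id)
  have hco : Continuous (val n c j) := by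
    unfold val
    exact continuous_finsetSum _ fun B _ => hph.comp (continuous_apply B)
  obtain ⟨t, ht, hm⟩ := hcp.exists_isMaxOn hne hco.continuousOn
  refine ⟨val n c j t, ⟨t, ht, rfl⟩, ?_⟩
  rintro s ⟨u, hu, rfl⟩
  exact hm hu

end Pool.Agent.P.MP_4f3dfd_co.Win
end

-- part Pool.Agent.P.MP_4f3dfd_co.WReal
section

set_option autoImplicit false
set_option linter.unusedSectionVars false
set_option linter.unusedVariables false

namespace Pool.Agent.P.MP_4f3dfd_co.Win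

open Finset Pool.Agent.P.MP_4f3dfd_co.Asy Pool.Agent.P.MP_4f3dfd_co.Off

variable {V : Type*} [DecidableEq V] [Fintype V]

/-- A large set of points that no set of `F` separates. -/
theorem big_class (F : Finset (Finset V)) : ∃ Q : Finset V,
    Fintype.card V ≤ 2 ^ #F * #Q ∧ ∀ A ∈ F, Q ⊆ A ∨ Disjoint Q A := by
  induction F using Finset.induction_on with
  | empty => exact ⟨univ, by simp, by simp⟩
  | insert A F hA ih =>
    obtain ⟨Q, h1, h2⟩ := ih
    have e := card_inter_add_card_sdiff Q A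
    rw [card_insert_of_notMem hA, pow_succ]
    by_cases h : #(Q \ A) ≤ #(Q ∩ A)
    · refine ⟨Q ∩ A, h1.trans ?_, fun B hB => ?_⟩
      · rw [mul_assoc]
        exact Nat.mul_le_mul_left _ (by omega)
      · rcases mem_insert.1 hB with rfl | hB
        · exact Or.inl inter_subset_right
        · rcases h2 B hB with h3 | h3
          · exact Or.inl (inter_subset_left.trans h3)
          · exact Or.inr (disjoint_of_subset_left inter_subset_left h3)
    · refine ⟨Q \ A, h1.trans ?_, fun B hB => ?_⟩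
      · rw [mul_assoc]
        exact Nat.mul_le_mul_left _ (by omega)
      · rcases mem_insert.1 hB with rfl | hB
        · exact Or.inr sdiff_disjoint
        · rcases h2 B hB with h3 | h3
          · exact Or.inl (sdiff_subset.trans h3)
          · exact Or.inr (disjoint_of_subset_left sdiff_subset h3)

theorem spread (P : Finset V) (h Δ : ℕ) (hΔ : Δ ≤ h * #P) :
    ∃ x : V → ℕ, (∀ v, x v ≤ h) ∧ (∀ v ∉ P, x v = 0) ∧ ∑ v, x v = Δ := by
  induction P using Finset.induction_on generalizing Δ with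
  | empty =>
    refine ⟨fun _ => 0, by simp, by simp, ?_⟩
    simp only [card_empty, mul_zero] at hΔ
    simp only [sum_const_zero]
    omega
  | insert p P hp ih =>
    rw [card_insert_of_notMem hp, mul_add, mul_one] at hΔ
    obtain ⟨x, x1, x2, x3⟩ := ih (Δ - min h Δ) (by omega)
    refine ⟨fun v => x v + if v = p then min h Δ else 0, fun v => ?_, fun v hv => ?_, ?_⟩
    · dsimp only
      split_ifs with hv
      · rw [hv, x2 p hp]; omega
      · have := x1 v; omega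
    · rw [mem_insert, not_or] at hv
      simp [hv.1, x2 v hv.2]
    · rw [sum_add_distrib, x3, sum_ite_eq' univ p, if_pos (mem_univ _)]
      omega

/-- Distinct sets with prescribed degrees. -/
theorem realize (c M ρ : ℕ) (r : V → ℕ) (Q : Finset V) (hr : ∀ v, r v ≤ M)
    (hQ : ∀ v ∈ Q, r v = ρ) (hs : ∑ v, r v = c * M) (h2 : 2 * M ≤ ρ * #Q)
    (hch : ∀ s, ρ * #Q ≤ M * (s + 1) → M * s ≤ ρ * #Q + M → M ≤ (#Q).choose s) :
    ∃ E : Finset (Finset V), #E = M ∧ (∀ v, #{X ∈ E | v ∈ X} = r v) ∧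
      ∀ X ∈ E, #X = c ∧ ρ * #Q ≤ M * (#(X ∩ Q) + 1) ∧ M * #(X ∩ Q) ≤ ρ * #Q + M := by
  obtain ⟨Y, y1, y2, a, y3⟩ := exists_fill M r Qᶜ (fun p _ => hr p)
  have hY : ∑ j, #(Y j) + ρ * #Q = c * M := by
    rw [← sum_deg_idx Qᶜ Y y1, sum_congr rfl y2, ← hs, ← sum_add_sum_compl Q, sum_congr rfl hQ,
      sum_const, smul_eq_mul, mul_comm ρ, add_comm]
  have lo : M * a ≤ ∑ j, #(Y j) := by
    have := card_nsmul_le_sum univ (fun j => #(Y j)) a
      (fun j _ => by rcases y3 j with h | h <;> omega)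
    simpa using this
  have hi : ∑ j, #(Y j) ≤ M * (a + 1) := by
    have := sum_le_card_nsmul univ (fun j => #(Y j)) (a + 1)
      (fun j _ => by rcases y3 j with h | h <;> omega)
    simpa using this
  have hac : ∀ _ : Fin M, a + 2 ≤ c := fun j => by
    have hM0 : 0 < M := j.pos
    apply Nat.le_of_mul_le_mul_left _ hM0
    rw [mul_add, mul_comm M c]; omega
  have hw : ∀ j, ρ * #Q ≤ M * (c - #(Y j) + 1) ∧ M * (c - #(Y j)) ≤ ρ * #Q + M := fun j => by
    have := hac j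
    obtain ⟨b, rfl⟩ : ∃ b, c = a + 2 + b := ⟨c - (a + 2), by omega⟩
    constructor
    · rcases y3 j with h | h <;> rw [h]
      · rw [show a + 2 + b - a + 1 = b + 3 by omega]; nlinarith
      · rw [show a + 2 + b - (a + 1) + 1 = b + 2 by omega]; nlinarith
    · rcases y3 j with h | h <;> rw [h]
      · rw [show a + 2 + b - a = b + 2 by omega]; nlinarith
      · rw [show a + 2 + b - (a + 1) = b + 1 by omega]; nlinarith
  obtain ⟨S, s1, s2, s3⟩ := exists_regular_idx M ρ Q (fun j => c - #(Y j))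
    (fun j => hch _ (hw j).1 (hw j).2)
    (by
      have : ∑ j, (c - #(Y j)) + ∑ j, #(Y j) = c * M := by
        rw [← sum_add_distrib, sum_congr rfl (fun j _ => Nat.sub_add_cancel (by
          have := hac j
          rcases y3 j with h | h <;> omega))]
        simp [mul_comm]
      omega)
  have hdisj : ∀ j, Disjoint (S j) (Y j) := fun j =>
    disjoint_left.2 fun p h1 h2 => mem_compl.1 (y1 j h2) ((s2 j).1 h1)
  have hint : ∀ j, (S j ∪ Y j) ∩ Q = S j := fun j => by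
    ext p
    simp only [mem_inter, mem_union]
    exact ⟨fun h => h.1.resolve_right fun h' => mem_compl.1 (y1 j h') h.2,
      fun h => ⟨Or.inl h, (s2 j).1 h⟩⟩
  have hinj : Function.Injective fun j => S j ∪ Y j := fun i j h =>
    s1 (by rw [← hint i, ← hint j]; exact congrArg (· ∩ Q) h)
  refine ⟨univ.image fun j => S j ∪ Y j, by rw [card_image_of_injective _ hinj]; simp,
    fun v => ?_, fun X hX => ?_⟩
  · rw [filter_image, card_image_of_injective _ hinj]
    by_cases hv : v ∈ Q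
    · rw [hQ v hv, ← s3 v hv]
      congr 1
      ext j
      simp only [mem_filter, mem_univ, true_and, mem_union]
      exact ⟨fun h => h.resolve_right fun h' => mem_compl.1 (y1 j h') hv, Or.inl⟩
    · rw [← y2 v (mem_compl.2 hv)]
      congr 1
      ext j
      simp only [mem_filter, mem_univ, true_and, mem_union]
      exact ⟨fun h => h.resolve_left fun h' => hv ((s2 j).1 h'), Or.inr⟩
  · obtain ⟨j, -, rfl⟩ := mem_image.1 hX
    refine ⟨?_, ?_⟩
    · rw [card_union_of_disjoint (hdisj j), (s2 j).2]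
      have := hac j
      rcases y3 j with h | h <;> omega
    · rw [hint, (s2 j).2]
      exact hw j

end Pool.Agent.P.MP_4f3dfd_co.Win
end

-- part Pool.Agent.P.MP_4f3dfd_co.WCore
section

set_option autoImplicit false
set_option linter.unusedSectionVars false
set_option linter.unusedVariables false

namespace Pool.Agent.P.MP_4f3dfd_co.Win

open Finset Pool.Agent.P.MP_4f3dfd_co.Asy Pool.Agent.P.MP_4f3dfd_co.Off

theorem wcore_kk {n j s x : ℕ} (hj : 1 ≤ j) {A G : Finset (Finset (Fin n))}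
    (hA : ∀ X ∈ A, #X = j) (hG : G ⊆ A) (h2 : #A < 2 * #G) (hs : ∀ Y ∈ shadow G, s ≤ ex A Y)
    (hx : 2 * (x + 1) < s) (hxn : x + j ≤ n) : (x + j).choose j < #A := by
  by_contra hc
  have h1 := kk_ratio hxn G (fun X hX => hA X (hG hX)) ((card_le_card hG).trans (not_lt.1 hc))
  rw [show x + j + 1 - j = x + 1 by omega] at h1
  have h3 : #(shadow G) * s ≤ #A * j :=
    card_mul_le_card_mul' (fun X Y : Finset (Fin n) => Y ⊆ X) (s := A) (t := shadow G)
      (fun Y hY => hs Y hY) (fun X hX => by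
        refine le_trans (card_le_card ?_) (card_below A j hA X hX).le
        exact filter_subset_filter _ (shadow_mono hG))
  have h4 : #G * j * s ≤ #G * j * (2 * (x + 1)) :=
    calc #G * j * s ≤ #(shadow G) * (x + 1) * s := Nat.mul_le_mul_right _ h1
      _ = #(shadow G) * s * (x + 1) := by ring
      _ ≤ #A * j * (x + 1) := Nat.mul_le_mul_right _ h3
      _ ≤ 2 * #G * j * (x + 1) := Nat.mul_le_mul_right _ (Nat.mul_le_mul_right _ h2.le)
      _ = _ := by ring
  have h5 := Nat.le_of_mul_le_mul_left h4 (Nat.mul_pos (by omega) hj)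
  omega

theorem wcore_all {V : Type*} [DecidableEq V] {c j : ℕ} {H : Finset (Finset V)}
    (hH : ∀ X ∈ H, #X = c) {X₀ X : Finset V} (hX : #X = c) (h1 : #(X \ X₀) = j)
    (h2 : #(X₀ \ X) = j) {a b : V} (ha : a ∈ X) (ha0 : a ∈ X₀)
    (hr : j + 1 ≤ ex H (X.erase a)) (hn : ¬∃ Z ∈ H, X.erase a ⊆ Z ∧ #(Z \ X₀) = j + 1)
    (hb : b ∈ X₀ \ X) : insert b (X.erase a) ∈ H := by
  have hsub : {W ∈ H | X.erase a ⊆ W} ⊆
      (insert a (X₀ \ X)).image fun w => insert w (X.erase a) := by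
    intro W hW
    obtain ⟨hW1, hW2⟩ := mem_filter.1 hW
    have hc : #W = #(X.erase a) + 1 := by
      rw [card_erase_add_one ha, hX, hH W hW1]
    obtain ⟨w, hw1, hw2⟩ := exists_mem_notMem_of_card_lt_card (s := X.erase a) (t := W) (by omega)
    have e := eq_insert hW2 hc hw1 hw2
    refine mem_image.2 ⟨w, ?_, e.symm⟩
    by_cases hwa : w = a
    · rw [hwa]
      exact mem_insert_self _ _
    have hwX : w ∉ X := fun h => hw2 (mem_erase.2 ⟨hwa, h⟩)
    refine mem_insert_of_mem (mem_sdiff.2 ⟨?_, hwX⟩)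
    by_contra hw0
    refine hn ⟨W, hW1, hW2, ?_⟩
    have e2 : W \ X₀ = insert w (X \ X₀) := by
      rw [e]
      ext y
      simp only [mem_sdiff, mem_insert, mem_erase]
      constructor
      · rintro ⟨h | h, h'⟩
        · exact Or.inl h
        · exact Or.inr ⟨h.2, h'⟩
      · rintro (h | h)
        · exact ⟨Or.inl h, h ▸ hw0⟩
        · exact ⟨Or.inr ⟨fun h' => h.2 (h' ▸ ha0), h.1⟩, h.2⟩
    rw [e2, card_insert_of_notMem fun h => hwX (mem_sdiff.1 h).1, h1]
  have hle : #((insert a (X₀ \ X)).image fun w => insert w (X.erase a)) ≤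
      #{W ∈ H | X.erase a ⊆ W} :=
    card_image_le.trans ((card_insert_le _ _).trans (h2 ▸ hr))
  have e := eq_of_subset_of_card_le hsub hle
  have : insert b (X.erase a) ∈ {W ∈ H | X.erase a ⊆ W} := by
    rw [e]
    exact mem_image_of_mem _ (mem_insert_of_mem hb)
  exact (mem_filter.1 this).1

theorem wcore_ex {V : Type*} [DecidableEq V] {c j s₁ s₂ : ℕ} {H : Finset (Finset V)}
    (hH : ∀ X ∈ H, #X = c) {X₀ X : Finset V} (h0 : #X₀ = c) (hX : X ∈ H) (h1 : #(X \ X₀) = j)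
    (hr : j + s₁ + s₂ ≤ #{v ∈ X | j + 1 ≤ ex H (X.erase v)})
    (he : ¬s₂ ≤ #{a ∈ X ∩ X₀ | ∃ Z ∈ H, X.erase a ⊆ Z ∧ #(Z \ X₀) = j + 1})
    {b : V} (hb : b ∈ X₀ \ X) :
    s₁ ≤ ex (({W ∈ {W ∈ H | #(W \ X₀) = j} | W \ X₀ = X \ X₀}).image fun W => X₀ \ W)
      ((X₀ \ X).erase b) := by
  have h2 : #(X₀ \ X) = j := by
    rw [← h1]
    exact card_sdiff_comm (h0.trans (hH X hX).symm)
  obtain ⟨T, hT⟩ : ∃ T, T = {a ∈ X ∩ X₀ | j + 1 ≤ ex H (X.erase a) ∧
      ¬∃ Z ∈ H, X.erase a ⊆ Z ∧ #(Z \ X₀) = j + 1} := ⟨_, rfl⟩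
  have hsub : {v ∈ X | j + 1 ≤ ex H (X.erase v)} ⊆ (T ∪ X \ X₀) ∪
      {a ∈ X ∩ X₀ | ∃ Z ∈ H, X.erase a ⊆ Z ∧ #(Z \ X₀) = j + 1} := by
    intro v hv
    obtain ⟨hv1, hv2⟩ := mem_filter.1 hv
    by_cases hv0 : v ∈ X₀
    · by_cases h : ∃ Z ∈ H, X.erase v ⊆ Z ∧ #(Z \ X₀) = j + 1
      · exact mem_union_right _ (mem_filter.2 ⟨mem_inter.2 ⟨hv1, hv0⟩, h⟩)
      · refine mem_union_left _ (mem_union_left _ ?_)
        rw [hT]
        exact mem_filter.2 ⟨mem_inter.2 ⟨hv1, hv0⟩, hv2, h⟩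
    · exact mem_union_left _ (mem_union_right _ (mem_sdiff.2 ⟨hv1, hv0⟩))
  have c1 := (card_le_card hsub).trans ((card_union_le _ _).trans
    (Nat.add_le_add_right (card_union_le _ _) _))
  have c2 : s₁ ≤ #T := by omega
  obtain ⟨hb0, hbX⟩ := mem_sdiff.1 hb
  refine c2.trans (card_le_card_of_injOn (fun a => insert a ((X₀ \ X).erase b))
    (fun a ha => ?_) fun a ha a' ha' e => ?_)
  · rw [hT] at ha
    obtain ⟨ha1, ha2, ha3⟩ := mem_filter.1 (mem_coe.1 ha)
    obtain ⟨haX, ha0⟩ := mem_inter.1 ha1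
    have hW := wcore_all hH (hH X hX) h1 h2 haX ha0 ha2 ha3 hb
    have e1 : insert b (X.erase a) \ X₀ = X \ X₀ := by
      ext y
      simp only [mem_sdiff, mem_insert, mem_erase]
      constructor
      · rintro ⟨h | h, h'⟩
        · exact absurd (h ▸ hb0) h'
        · exact ⟨h.2, h'⟩
      · exact fun h => ⟨Or.inr ⟨fun h' => h.2 (h' ▸ ha0), h.1⟩, h.2⟩
    refine mem_coe.2 (mem_filter.2 ⟨mem_image.2 ⟨_, mem_filter.2
      ⟨mem_filter.2 ⟨hW, e1 ▸ h1⟩, e1⟩, ?_⟩, subset_insert _ _⟩)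
    ext y
    simp only [mem_sdiff, mem_insert, mem_erase, not_or, not_and]
    constructor
    · rintro ⟨h3, h4, h5⟩
      by_cases h : y = a
      · exact Or.inl h
      · exact Or.inr ⟨h4, h3, h5 h⟩
    · rintro (h | h)
      · exact ⟨h ▸ ha0, fun h' => hbX (h' ▸ h ▸ haX), fun h' => absurd h h'⟩
      · exact ⟨h.2.1, h.1, fun _ => h.2.2⟩
  · rw [hT] at ha
    have haX := (mem_inter.1 (mem_filter.1 (mem_coe.1 ha)).1).1
    have e' : insert a ((X₀ \ X).erase b) = insert a' ((X₀ \ X).erase b) := e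
    have : a ∈ insert a' ((X₀ \ X).erase b) := e' ▸ mem_insert_self _ _
    rcases mem_insert.1 this with h | h
    · exact h
    · exact absurd haX (mem_sdiff.1 (mem_of_mem_erase h)).2

/-- A family in which every member has many rich facets has a dense set of size `c + j`. -/
theorem core {n c j s₁ s₂ x Λ : ℕ} (hj : 1 ≤ j) (H : Finset (Finset (Fin n)))
    (hH : ∀ X ∈ H, #X = c) {X₀ : Finset (Fin n)} (h₀ : X₀ ∈ H)
    (hr : ∀ X ∈ H, j + s₁ + s₂ ≤ #{v ∈ X | j + 1 ≤ ex H (X.erase v)})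
    (hΛ : #{X ∈ H | #(X \ X₀) = j + 1} ≤ Λ)
    (hnum : 2 * (j + 1) ^ 2 * Λ * j.factorial ^ 2 < s₂ * (s₁ + s₂) ^ j)
    (hx : 2 * (x + 1) < s₁) (hxn : x + j ≤ n) :
    ∃ B : Finset (Fin n), #B = c + j ∧ (x + j).choose j < #(ins H B) := by
  have h0 := hH X₀ h₀
  have hl := layer (s := s₁ + s₂) H hH h₀ (fun X hX => by rw [← add_assoc]; exact hr X hX) j le_rfl
  have he := (esc_le (i := j) H hH h0).trans (Nat.mul_le_mul_left _ hΛ)
  obtain ⟨Z, hZ⟩ : ∃ Z, Z = {X ∈ H | #(X \ X₀) = j} := ⟨_, rfl⟩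
  obtain ⟨E, hE⟩ : ∃ E : Finset (Fin n) → ℕ, E = fun X =>
      #{a ∈ X ∩ X₀ | ∃ Z ∈ H, X.erase a ⊆ Z ∧ #(Z \ X₀) = j + 1} := ⟨_, rfl⟩
  have he' : ∑ X ∈ Z, E X ≤ (j + 1) ^ 2 * Λ := by rw [hZ, hE]; exact he
  rw [← hZ] at hl
  have hb : #{X ∈ Z | s₂ ≤ E X} * s₂ ≤ (j + 1) ^ 2 * Λ :=
    (card_nsmul_le_sum _ E s₂ fun X hX => (mem_filter.1 hX).2).trans
      ((sum_le_sum_of_subset (filter_subset _ _)).trans he')
  have hs := card_filter_add_card_filter_not (s := Z) fun X => s₂ ≤ E X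
  have h1 : 2 * #{X ∈ Z | s₂ ≤ E X} * (s₂ * j.factorial ^ 2) < #Z * (s₂ * j.factorial ^ 2) :=
    calc 2 * #{X ∈ Z | s₂ ≤ E X} * (s₂ * j.factorial ^ 2)
        = 2 * (#{X ∈ Z | s₂ ≤ E X} * s₂) * j.factorial ^ 2 := by ring
      _ ≤ 2 * ((j + 1) ^ 2 * Λ) * j.factorial ^ 2 :=
        Nat.mul_le_mul_right _ (Nat.mul_le_mul_left _ hb)
      _ = 2 * (j + 1) ^ 2 * Λ * j.factorial ^ 2 := by ring
      _ < s₂ * (s₁ + s₂) ^ j := hnum
      _ ≤ s₂ * (#Z * j.factorial ^ 2) := Nat.mul_le_mul_left _ hl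
      _ = _ := by ring
  have h2 := Nat.lt_of_mul_lt_mul_right h1
  have h3 : #Z < 2 * #{X ∈ Z | ¬s₂ ≤ E X} := by omega
  rw [card_eq_sum_card_fiberwise (f := fun X => X \ X₀) (s := Z) (t := univ)
    (fun _ _ => mem_univ _), card_eq_sum_card_fiberwise (f := fun X => X \ X₀)
    (s := {X ∈ Z | ¬s₂ ≤ E X}) (t := univ) (fun _ _ => mem_univ _), mul_sum] at h3
  obtain ⟨P, -, hP⟩ := exists_lt_of_sum_lt h3
  have hinj : Set.InjOn (fun W => X₀ \ W) ({X ∈ Z | X \ X₀ = P} : Finset (Finset (Fin n))) := by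
    intro X hX Y hY e
    have e1 : X \ X₀ = Y \ X₀ :=
      (mem_filter.1 (mem_coe.1 hX)).2.trans (mem_filter.1 (mem_coe.1 hY)).2.symm
    have e2 : X₀ \ X = X₀ \ Y := e
    ext y
    have a1 := congrArg (y ∈ ·) e1
    have a2 := congrArg (y ∈ ·) e2
    simp only [mem_sdiff, eq_iff_iff] at a1 a2
    tauto
  have hsub : {X ∈ {X ∈ Z | ¬s₂ ≤ E X} | X \ X₀ = P} ⊆ {X ∈ Z | X \ X₀ = P} :=
    filter_subset_filter _ (filter_subset _ _)
  have hk := wcore_kk (s := s₁) (A := ({X ∈ Z | X \ X₀ = P}).image fun W => X₀ \ W)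
    (G := ({X ∈ {X ∈ Z | ¬s₂ ≤ E X} | X \ X₀ = P}).image fun W => X₀ \ W) hj
    (fun Y hY => by
      obtain ⟨X, hX, rfl⟩ := mem_image.1 hY
      have h4 := (mem_filter.1 hX).1
      rw [hZ] at h4
      obtain ⟨h5, h6⟩ := mem_filter.1 h4
      rw [← h6]
      exact card_sdiff_comm (h0.trans (hH X h5).symm))
    (image_subset_image hsub)
    (by
      rw [card_image_of_injOn hinj, card_image_of_injOn (hinj.mono (coe_subset.2 hsub))]
      exact hP)
    (fun Y hY => by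
      obtain ⟨W, hW, b, hb, rfl⟩ := mem_shadow_iff.1 hY
      obtain ⟨X, hX, rfl⟩ := mem_image.1 hW
      obtain ⟨h4, rfl⟩ := mem_filter.1 hX
      obtain ⟨h5, h6⟩ := mem_filter.1 h4
      rw [hE] at h6
      rw [hZ] at h5 ⊢
      obtain ⟨h7, h8⟩ := mem_filter.1 h5
      exact wcore_ex hH h0 h7 h8 (hr X h7) h6 hb) hx hxn
  rw [card_image_of_injOn hinj] at hk
  obtain ⟨X, hX⟩ := card_pos.1 ((Nat.zero_le _).trans_lt hk)
  obtain ⟨h4, h5⟩ := mem_filter.1 hX
  refine ⟨X ∪ X₀, ?_, hk.trans_le (card_le_card fun Y hY => ?_)⟩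
  · rw [hZ] at h4
    rw [← card_sdiff_add_card, (mem_filter.1 h4).2, h0, add_comm]
  · obtain ⟨h6, h7⟩ := mem_filter.1 hY
    rw [hZ] at h6
    refine mem_filter.2 ⟨(mem_filter.1 h6).1, fun y hy => ?_⟩
    by_cases h : y ∈ X₀
    · exact mem_union_right _ h
    · have : y ∈ X \ X₀ := by
        rw [h5, ← h7]
        exact mem_sdiff.2 ⟨hy, h⟩
      exact mem_union_left _ (mem_sdiff.1 this).1

end Pool.Agent.P.MP_4f3dfd_co.Win
end

-- part Pool.Agent.P.MP_4f3dfd_co.WDust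
section

set_option autoImplicit false
set_option linter.unusedSectionVars false
set_option linter.unusedVariables false

namespace Pool.Agent.P.MP_4f3dfd_co.Win

open Finset Pool.Agent.P.MP_4f3dfd_co.Asy Pool.Agent.P.MP_4f3dfd_co.Off

variable {V : Type*} [DecidableEq V] [Fintype V]

/-- New sets with approximately prescribed degrees. -/
theorem dust_sets (R N h : ℕ) {β : ℝ} (hβ : 6 ≤ β * N) : ∃ K : ℕ, ∀ n c : ℕ, K ≤ n →
    ∀ F : Finset (Finset (Fin n)), #F ≤ R → ∀ a : Fin n → ℝ, (∀ v, β ≤ a v ∧ a v ≤ 1 - β) →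
    (∀ u v, (∀ B ∈ F, (u ∈ B ↔ v ∈ B)) → a u = a v) → (c : ℝ) - h ≤ ∑ v, a v → ∑ v, a v ≤ c →
    ∃ F' : Finset (Finset (Fin n)), #F' = N ∧ Disjoint F F' ∧ (∀ B ∈ F', #B = c) ∧
      ∀ v, a v * N - 1 ≤ #{B ∈ F' | v ∈ B} ∧ (#{B ∈ F' | v ∈ B} : ℝ) ≤ a v * N + 5 := by
  refine ⟨2 ^ R * (4 * N + 2) + h * N, fun n c hn F hF a ha hsep hlo hhi => ?_⟩
  have hN0 : (0 : ℝ) ≤ N := Nat.cast_nonneg N
  have hNpos : 0 < N := by
    rcases Nat.eq_zero_or_pos N with h0 | h0
    · subst h0; norm_num at hβ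
    · exact h0
  have hβ0 : 0 < β := by
    by_contra hb
    push Not at hb
    nlinarith
  obtain ⟨Q0, hQ0, hQF⟩ := big_class F
  rw [Fintype.card_fin] at hQ0
  have hQ0c : 4 * N + 2 ≤ #Q0 := by
    have h1 : 2 ^ #F ≤ 2 ^ R := Nat.pow_le_pow_right (by norm_num) hF
    have h2 : 2 ^ R * (4 * N + 2) ≤ 2 ^ R * #Q0 :=
      calc 2 ^ R * (4 * N + 2) ≤ n := by omega
        _ ≤ 2 ^ #F * #Q0 := hQ0
        _ ≤ 2 ^ R * #Q0 := Nat.mul_le_mul_right _ h1
    exact Nat.le_of_mul_le_mul_left h2 (by positivity)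
  obtain ⟨Q, hQsub, hQc⟩ := Finset.exists_subset_card_eq (s := Q0) (n := #Q0 / 2)
    (Nat.div_le_self _ _)
  have hQ0n : #Q0 ≤ n := by simpa using Finset.card_le_univ Q0
  have hQ2 : 2 * N ≤ #Q := by omega
  have hQcc : #Qᶜ + #Q = n := by
    rw [Finset.card_compl, Fintype.card_fin]; omega
  obtain ⟨u0, hu0⟩ : Q.Nonempty := Finset.card_pos.mp (by omega)
  have hconst : ∀ v ∈ Q, a v = a u0 := by
    intro v hv
    refine hsep v u0 fun B hB => ?_
    rcases hQF B hB with h1 | h1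
    · exact iff_of_true (h1 (hQsub hv)) (h1 (hQsub hu0))
    · exact iff_of_false (Finset.disjoint_left.mp h1 (hQsub hv))
        (Finset.disjoint_left.mp h1 (hQsub hu0))
  have ha0 : ∀ v, 0 ≤ a v * N := fun v => mul_nonneg (hβ0.le.trans (ha v).1) hN0
  have ha6 : ∀ v, 6 ≤ a v * N := fun v =>
    hβ.trans (mul_le_mul_of_nonneg_right (ha v).1 hN0)
  have haN : ∀ v, a v * N + 6 ≤ N := fun v => by
    have := mul_le_mul_of_nonneg_right (ha v).2 hN0
    nlinarith only [hβ, this]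
  set r0 : Fin n → ℕ := fun v => ⌊a v * N⌋₊ with hr0
  have hr0le : ∀ v, (r0 v : ℝ) ≤ a v * N := fun v => Nat.floor_le (ha0 v)
  have hr0ge : ∀ v, a v * N - 1 ≤ (r0 v : ℝ) := fun v => by
    have := Nat.lt_floor_add_one (a v * N)
    simp only [hr0]; linarith
  have hr06 : ∀ v, 6 ≤ r0 v := fun v => Nat.le_floor (by exact_mod_cast ha6 v)
  have hr0N : ∀ v, r0 v + 6 ≤ N := fun v => by
    have h1 : ((r0 v + 6 : ℕ) : ℝ) ≤ N := by
      push_cast; linarith [hr0le v, haN v]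
    exact_mod_cast h1
  have hs1 : ∑ v, r0 v ≤ c * N := by
    have h1 : ((∑ v, r0 v : ℕ) : ℝ) ≤ ((c * N : ℕ) : ℝ) := by
      push_cast
      calc ∑ v, (r0 v : ℝ) ≤ ∑ v, a v * N := Finset.sum_le_sum fun v _ => hr0le v
        _ = (∑ v, a v) * N := by rw [Finset.sum_mul]
        _ ≤ c * N := mul_le_mul_of_nonneg_right hhi hN0
    exact_mod_cast h1
  have hs2 : c * N ≤ ∑ v, r0 v + h * N + n := by
    have h1 : ((c * N : ℕ) : ℝ) ≤ ((∑ v, r0 v + h * N + n : ℕ) : ℝ) := by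
      push_cast
      have h2 : ∑ v, (a v * N - 1) ≤ ∑ v, (r0 v : ℝ) := Finset.sum_le_sum fun v _ => hr0ge v
      rw [Finset.sum_sub_distrib, ← Finset.sum_mul] at h2
      simp only [Finset.sum_const, Finset.card_univ, Fintype.card_fin, nsmul_eq_mul,
        mul_one] at h2
      have h3 := mul_le_mul_of_nonneg_right hlo hN0
      nlinarith only [h2, h3]
    exact_mod_cast h1
  have hn2 : h * N ≤ n := le_trans (Nat.le_add_left _ _) hn
  obtain ⟨x, hx5, hxQ, hxs⟩ := spread Qᶜ 5 (c * N - ∑ v, r0 v) (by omega)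
  have hmid : ∀ s, r0 u0 * #Q ≤ N * (s + 1) → N * s ≤ r0 u0 * #Q + N →
      1 ≤ s ∧ s + 1 ≤ #Q := by
    intro s h1 h2
    have h3 := hr06 u0
    have h4 := hr0N u0
    constructor
    · by_contra h5
      have h6 : s = 0 := by omega
      subst h6
      nlinarith only [hQ2, h3, h4, h1]
    · by_contra h5
      have h6 : #Q ≤ s := by omega
      have h7 : N * #Q ≤ N * s := Nat.mul_le_mul_left _ h6
      have h8 : (r0 u0 + 6) * #Q ≤ N * #Q := Nat.mul_le_mul_right _ h4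
      nlinarith only [hQ2, h2, h3, h4, h7, h8]
  obtain ⟨E, hE, hEd, hEX⟩ := realize c N (r0 u0) (fun v => r0 v + x v) Q
    (fun v => by have := hr0N v; have := hx5 v; omega)
    (fun v hv => by
      have h1 : x v = 0 := hxQ v (by simpa using hv)
      simp only [h1, hr0, hconst v hv, add_zero])
    (by rw [Finset.sum_add_distrib, hxs]; omega)
    (by have := hr06 u0; nlinarith only [hNpos, hQ2, this])
    (fun s h1 h2 => by
      obtain ⟨h3, h4⟩ := hmid s h1 h2
      have h5 := choose_mid (x := #Q) h3 h4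
      rw [Nat.choose_one_right] at h5
      omega)
  refine ⟨E, hE, ?_, fun B hB => (hEX B hB).1, fun v => ?_⟩
  · rw [Finset.disjoint_left]
    intro X hXF hXE
    obtain ⟨-, h1, h2⟩ := hEX X hXE
    obtain ⟨h3, h4⟩ := hmid _ h1 h2
    rcases hQF X hXF with h5 | h5
    · rw [Finset.inter_eq_right.mpr (hQsub.trans h5)] at h4
      omega
    · have h6 : X ∩ Q = ∅ :=
        Finset.disjoint_iff_inter_eq_empty.mp (h5.mono_left hQsub).symm
      rw [h6, Finset.card_empty] at h3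
      omega
  · rw [hEd v]
    have h1 : (x v : ℝ) ≤ 5 := by exact_mod_cast hx5 v
    have h2 : (0 : ℝ) ≤ x v := Nat.cast_nonneg _
    push_cast
    constructor
    · linarith only [hr0ge v]
    · linarith only [hr0le v, h1]

end Pool.Agent.P.MP_4f3dfd_co.Win
end

-- part Pool.Agent.P.MP_4f3dfd_co.WPk
section

set_option autoImplicit false
set_option linter.unusedSectionVars false
set_option linter.unusedVariables false

namespace Pool.Agent.P.MP_4f3dfd_co.Win

open Finset Pool.Agent.P.MP_4f3dfd_co.Asy Pool.Agent.P.MP_4f3dfd_co.Off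

variable {n c j : ℕ} {d e : ℝ} {t : Finset (Fin n) → ℝ}

theorem Pk.sum_le (h : Pk n c j d e t) (hn : 1 ≤ n) :
    ((c + j).choose j : ℝ) * ∑ B ∈ powersetCard (c + j) univ, t B ≤ d + e := by
  obtain ⟨h1, h2⟩ := h.2 ⟨0, hn⟩
  rw [← sum_filter_add_sum_filter_not _ fun B => (⟨0, hn⟩ : Fin n) ∈ B, mul_add]
  exact add_le_add h1 h2

theorem val_nonneg (hj : 1 ≤ j) (h : Pk n c j d e t) : 0 ≤ val n c j t := by
  exact sum_nonneg fun B _ => ph_nonneg hj (h.1 B).2

theorem wpk_W (h : Pk n c j d e t) (hn : 1 ≤ n) {G : Finset (Finset (Fin n))}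
    (hG : G ⊆ powersetCard (c + j) univ) :
    ((c + j).choose (j + 1) : ℝ) * (∑ B ∈ G, t B) * (j + 1) ≤ c * (d + e) := by
  have h1 : ∑ B ∈ G, t B ≤ ∑ B ∈ powersetCard (c + j) univ, t B :=
    sum_le_sum_of_subset_of_nonneg hG fun B _ _ => (h.1 B).1
  have h2 := (mul_le_mul_of_nonneg_left h1 (Nat.cast_nonneg _)).trans (h.sum_le hn)
  rw [mul_right_comm, W_eq, mul_right_comm, mul_comm]
  exact mul_le_mul_of_nonneg_left h2 (Nat.cast_nonneg _)

theorem wpk_small (hj : 1 ≤ j) (h : Pk n c j d e t) (hn : 1 ≤ n) {η : ℝ} (hη : 0 ≤ η)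
    {G : Finset (Finset (Fin n))} (hG : G ⊆ powersetCard (c + j) univ) (ht : ∀ B ∈ G, t B ≤ η) :
    ((c + j).choose (j + 1) : ℝ) * ∑ B ∈ G, ph j (t B) ≤ η * (c * (d + e)) / (j * (j + 1)) := by
  have hjR : (0 : ℝ) < j := by exact_mod_cast hj
  have h1 : ∑ B ∈ G, ph j (t B) ≤ η * (∑ B ∈ G, t B) / j := by
    rw [mul_sum, sum_div]
    refine sum_le_sum fun B hB => (ph_le_sq hj (h.1 B).1 (h.1 B).2).trans
      (div_le_div_of_nonneg_right ?_ hjR.le)
    rw [sq]
    exact mul_le_mul_of_nonneg_right (ht B hB) (h.1 B).1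
  refine (mul_le_mul_of_nonneg_left h1 (Nat.cast_nonneg _)).trans ?_
  rw [← mul_div_assoc, ← div_div_eq_mul_div, div_div_eq_mul_div, mul_comm (j : ℝ), ← div_div]
  refine div_le_div_of_nonneg_right ?_ hjR.le
  rw [le_div_iff₀ (by positivity)]
  have := mul_le_mul_of_nonneg_left (wpk_W h hn hG) hη
  linarith

/-- If all weights are at most `η`, the saving is at most `η c m / (j (j+1))`. -/
theorem val_le (hj : 1 ≤ j) (h : Pk n c j d e t) (hn : 1 ≤ n) {η : ℝ} (hη : 0 ≤ η)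
    (ht : ∀ B ∈ powersetCard (c + j) (univ : Finset (Fin n)), t B ≤ η) :
    ((c + j).choose (j + 1) : ℝ) * val n c j t ≤ η * (c * (d + e)) / (j * (j + 1)) := by
  exact wpk_small hj h hn hη subset_rfl ht

theorem Pk.le_min (h : Pk n c j d e t) (hj : 1 ≤ j) (hn : c + j < n)
    {B : Finset (Fin n)} (hB : B ∈ powersetCard (c + j) (univ : Finset (Fin n))) :
    ((c + j).choose j : ℝ) * t B ≤ min d e := by
  have hc := (mem_powersetCard.1 hB).2
  obtain ⟨v, hv⟩ : B.Nonempty := card_pos.1 (by omega)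
  obtain ⟨u, -, hu⟩ := exists_mem_notMem_of_card_lt_card (s := B) (t := univ)
    (by rw [card_univ, Fintype.card_fin]; omega)
  refine _root_.le_min (le_trans (mul_le_mul_of_nonneg_left ?_ (Nat.cast_nonneg _)) (h.2 v).1)
    (le_trans (mul_le_mul_of_nonneg_left ?_ (Nat.cast_nonneg _)) (h.2 u).2)
  · exact single_le_sum (fun B _ => (h.1 B).1) (mem_filter.2 ⟨hB, hv⟩)
  · exact single_le_sum (fun B _ => (h.1 B).1) (mem_filter.2 ⟨hB, hu⟩)

theorem Phi_ge {m : ℕ} (hj : 1 ≤ j) (h : Pk n c j d e t) (hn : 1 ≤ n) (hm : d + e = m) :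
    (c * m : ℝ) / (j + 1) ≤ Phi c m j (val n c j t) := by
  have h1 := val_le hj h hn zero_le_one fun B _ => (h.1 B).2
  have hjR : (0 : ℝ) < j := by exact_mod_cast hj
  have e1 : (c * m : ℝ) / (j + 1) = c * m / j - 1 * (c * m) / (j * (j + 1)) := by
    field_simp
    ring
  rw [hm] at h1
  rw [Phi, e1]
  linarith

theorem Phi_le {m : ℕ} (hj : 1 ≤ j) (h : Pk n c j d e t) :
    Phi c m j (val n c j t) ≤ (c * m : ℝ) / j := by
  exact sub_le_self _ (mul_nonneg (Nat.cast_nonneg _) (val_nonneg hj h))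

/-- Dropping the small weights and shrinking the others. -/
theorem Pk.trim (hj : 1 ≤ j) (h : Pk n c j d e t) (hn : 1 ≤ n) {η : ℝ} (h0 : 0 < η)
    (h1 : η ≤ 1 / 2) : ∃ F : Finset (Finset (Fin n)), (∀ B ∈ F, #B = c + j ∧ η ≤ t B) ∧
      (∀ v, ((c + j).choose j : ℝ) * ∑ B ∈ F with v ∈ B, t B ≤ d ∧
        ((c + j).choose j : ℝ) * ∑ B ∈ F with v ∉ B, t B ≤ e) ∧
      ((c + j).choose (j + 1) : ℝ) * val n c j t ≤
        ((c + j).choose (j + 1) : ℝ) * ∑ B ∈ F, ph j ((1 - η) * t B) + 2 * η * (c * (d + e)) ∧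
      ((c + j).choose (j + 1) : ℝ) * val n c j t ≤
        ((c + j).choose (j + 1) : ℝ) * ∑ B ∈ F, ph j (t B) + η * (c * (d + e)) := by
  have hjR : (1 : ℝ) ≤ j := by exact_mod_cast hj
  have hP : 0 ≤ (c : ℝ) * (d + e) := mul_nonneg (Nat.cast_nonneg _) (le_trans
    (mul_nonneg (Nat.cast_nonneg _) (sum_nonneg fun B _ => (h.1 B).1)) (h.sum_le hn))
  have hQ := mul_nonneg h0.le hP
  have a1 := wpk_small hj h hn h0.le (G := (powersetCard (c + j) univ).filter fun B => ¬η ≤ t B)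
    (filter_subset _ _) fun B hB => (not_le.1 (mem_filter.1 hB).2).le
  have a2 : η * (c * (d + e)) / (j * (j + 1)) ≤ η * (c * (d + e)) / 2 :=
    div_le_div_of_nonneg_left hQ two_pos (by nlinarith)
  have a3 : val n c j t = ∑ B ∈ powersetCard (c + j) univ with η ≤ t B, ph j (t B) +
      ∑ B ∈ powersetCard (c + j) univ with ¬η ≤ t B, ph j (t B) :=
    (sum_filter_add_sum_filter_not _ _ _).symm
  have a4 := wpk_W h hn (filter_subset (fun B => η ≤ t B) _)
  have a5 : ∑ B ∈ powersetCard (c + j) univ with η ≤ t B, ph j (t B) ≤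
      ∑ B ∈ powersetCard (c + j) univ with η ≤ t B, ph j ((1 - η) * t B) +
        2 * η * ∑ B ∈ powersetCard (c + j) univ with η ≤ t B, t B := by
    rw [mul_sum, ← sum_add_distrib]
    refine sum_le_sum fun B _ => ?_
    have b1 := mul_nonneg h0.le (h.1 B).1
    have := ph_lip hj (s := (1 - η) * t B) (by linarith) (h.1 B).2
    linarith
  have a6 := mul_le_mul_of_nonneg_left a5 (Nat.cast_nonneg ((c + j).choose (j + 1)))
  have a7 : 0 ≤ ((c + j).choose (j + 1) : ℝ) *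
      ∑ B ∈ powersetCard (c + j) univ with η ≤ t B, t B :=
    mul_nonneg (Nat.cast_nonneg _) (sum_nonneg fun B _ => (h.1 B).1)
  have a8 := mul_le_mul_of_nonneg_left
    ((mul_le_mul_of_nonneg_left (show (2 : ℝ) ≤ j + 1 by linarith) a7).trans a4) h0.le
  refine ⟨(powersetCard (c + j) univ).filter fun B => η ≤ t B, fun B hB =>
    ⟨(mem_powersetCard.1 (mem_filter.1 hB).1).2, (mem_filter.1 hB).2⟩, fun v => ⟨?_, ?_⟩, ?_, ?_⟩
  · exact le_trans (mul_le_mul_of_nonneg_left (sum_le_sum_of_subset_of_nonneg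
      (filter_subset_filter _ (filter_subset _ _)) fun B _ _ => (h.1 B).1) (Nat.cast_nonneg _))
      (h.2 v).1
  · exact le_trans (mul_le_mul_of_nonneg_left (sum_le_sum_of_subset_of_nonneg
      (filter_subset_filter _ (filter_subset _ _)) fun B _ _ => (h.1 B).1) (Nat.cast_nonneg _))
      (h.2 v).2
  · rw [a3, mul_add]
    linarith
  · rw [a3, mul_add]
    linarith

end Pool.Agent.P.MP_4f3dfd_co.Win
end

-- part Pool.Agent.P.MP_4f3dfd_co.WSplit
section

set_option autoImplicit false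
set_option linter.unusedSectionVars false
set_option linter.unusedVariables false

namespace Pool.Agent.P.MP_4f3dfd_co.Win

open Finset Pool.Agent.P.MP_4f3dfd_co.Asy Pool.Agent.P.MP_4f3dfd_co.Off

variable {V : Type*} [DecidableEq V] [Fintype V]

omit [Fintype V] in
theorem wsplit_dust {J F : Finset (Finset V)} {X : Finset V} :
    X ∈ dust J F ↔ X ∈ J ∧ ∀ B ∈ F, ¬X ⊆ B := mem_filter

omit [Fintype V] in
theorem wsplit_sub {J F : Finset (Finset V)} : dust J F ⊆ J := fun _ h => (wsplit_dust.1 h).1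

theorem wsplit_gen (F F' : Finset (Finset V)) (hF' : F' ⊆ F) (g : Finset V → Finset (Finset V))
    (T E : Finset (Finset V)) (hg : ∀ B ∈ F', ∀ X ∈ g B, X ⊆ B) (k : ℕ)
    (hk : ∀ B ∈ F', #{X ∈ g B | X ∉ T ∨ ∃ B' ∈ F, B' ≠ B ∧ X ⊆ B'} ≤ k) (hE : E ⊆ T)
    (hE' : ∀ X ∈ E, ∀ B ∈ F, ¬X ⊆ B) : ∑ B ∈ F', #(g B) + #E ≤ #T + #F' * k := by
  let P : Finset V → Finset (Finset V) := fun B =>
    {X ∈ g B | ¬(X ∉ T ∨ ∃ B' ∈ F, B' ≠ B ∧ X ⊆ B')}
  have h1 : ∑ B ∈ F', #(g B) ≤ ∑ B ∈ F', #(P B) + #F' * k := by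
    rw [← smul_eq_mul, ← sum_const, ← sum_add_distrib]
    refine sum_le_sum fun B hB => ?_
    rw [← card_filter_add_card_filter_not (s := g B)
      fun X => X ∉ T ∨ ∃ B' ∈ F, B' ≠ B ∧ X ⊆ B', add_comm]
    exact Nat.add_le_add_left (hk B hB) _
  have h2 : #(F'.biUnion P) = ∑ B ∈ F', #(P B) := card_biUnion fun B hB B' hB' hne =>
    disjoint_left.2 fun X h3 h4 => (mem_filter.1 h3).2
      (Or.inr ⟨B', hF' hB', hne.symm, hg B' hB' X (mem_filter.1 h4).1⟩)
  have h3 : #(F'.biUnion P ∪ E) = #(F'.biUnion P) + #E :=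
    card_union_of_disjoint (disjoint_left.2 fun X h3 h4 => by
      obtain ⟨B, hB, h5⟩ := mem_biUnion.1 h3
      exact hE' X h4 B (hF' hB) (hg B hB X (mem_filter.1 h5).1))
  have h4 : #(F'.biUnion P ∪ E) ≤ #T := card_le_card (union_subset (fun X h3 => by
    obtain ⟨B, hB, h5⟩ := mem_biUnion.1 h3
    exact by_contra fun h => (mem_filter.1 h5).2 (Or.inl h)) hE)
  omega

/-- Any subfamily `G` of `J` that contains almost all members inside the sets of `F'`. -/
theorem priv {c j r w : ℕ} {J F : Finset (Finset V)} (hJ : ∀ X ∈ J, #X = c)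
    (hF : ∀ B ∈ F, #B = c + j)
    (hr : ∀ A : Finset V, c ≤ #A → #A ≤ c + j → #{B ∈ F | c ≤ #(A ∩ B) + 1} < r)
    (F' : Finset (Finset V)) (hF' : F' ⊆ F) (G : Finset (Finset V))
    (hG : ∀ B ∈ F', #(ins J B \ G) ≤ w) :
    ∑ B ∈ F', #(ins J B) ≤ #G + #F' * (w + r * (c + j - 1).choose c) := by
  refine wsplit_gen F F' hF' (ins J) G ∅ (fun B _ X hX => (mem_filter.1 hX).2) _ (fun B hB => ?_)
    (empty_subset _) (by simp)
  have h1 := hF B (hF' hB)
  refine (card_le_card (t := ins J B \ G ∪ ({B' ∈ F | c ≤ #(B ∩ B') + 1}.erase B).biUnion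
    fun B' => ins J B ∩ ins J B') fun X hX => ?_).trans ((card_union_le _ _).trans
      (Nat.add_le_add (hG B hB) ((card_biUnion_le_card_mul _ _ _ fun B' h => ?_).trans
        (Nat.mul_le_mul_right _ (card_erase_le.trans (hr B (by omega) h1.le).le)))))
  · obtain ⟨h2, h3 | ⟨B', h3, h4, h5⟩⟩ := mem_filter.1 hX
    · exact mem_union_left _ (mem_sdiff.2 ⟨h2, h3⟩)
    · obtain ⟨h6, h7⟩ := mem_filter.1 h2
      exact mem_union_right _ (mem_biUnion.2 ⟨B', mem_erase.2 ⟨h4, mem_filter.2 ⟨h3,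
        Nat.le_succ_of_le (hJ X h6 ▸ card_le_card (subset_inter h7 h5))⟩⟩,
        mem_inter.2 ⟨h2, mem_filter.2 ⟨h6, h5⟩⟩⟩)
  · exact ins_inter hJ h1 (hF B' (mem_filter.1 (mem_of_mem_erase h)).1) (ne_of_mem_erase h).symm

/-- The shadow splits into the parts inside the sets of `F` and the shadow of the dust. -/
theorem split {c j r : ℕ} (hc : 1 ≤ c) {J F : Finset (Finset V)} (hJ : ∀ X ∈ J, #X = c)
    (hF : ∀ B ∈ F, #B = c + j)
    (hr : ∀ A : Finset V, c ≤ #A → #A ≤ c + j → #{B ∈ F | c ≤ #(A ∩ B) + 1} < r) :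
    ∑ B ∈ F, #(shadow (ins J B)) + #(shadow (dust J F)) ≤
      #(shadow J) + #F * (r * (c + j).choose j) + r * #(dust J F) := by
  have h0 : ∀ (A : Finset (Finset V)), A ⊆ J → ∀ Y ∈ shadow A, ∃ X ∈ A, Y ⊆ X ∧ #Y + 1 = c :=
    fun A hA Y hY => by
      obtain ⟨X, h1, h2, h3⟩ := mem_shadow_iff_exists_mem_card_add_one.1 hY
      exact ⟨X, h1, h2, h3.symm.trans (hJ X (hA h1))⟩
  have h1 := wsplit_gen F F Subset.rfl (fun B => shadow (ins J B)) (shadow J)
    {Y ∈ shadow (dust J F) | ∀ B ∈ F, ¬Y ⊆ B} (fun B _ Y hY => by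
      obtain ⟨X, h1, h2, -⟩ := h0 _ (filter_subset _ _) Y hY
      exact h2.trans (mem_filter.1 h1).2) (r * (c + j).choose j) (fun B hB => ?_)
    ((filter_subset _ _).trans (shadow_mono wsplit_sub)) fun Y hY => (mem_filter.1 hY).2
  · have h2 : #{Y ∈ shadow (dust J F) | ¬∀ B ∈ F, ¬Y ⊆ B} ≤ #(dust J F) * r := by
      refine (card_le_card (t := (dust J F).biUnion fun X =>
        {B ∈ F | c ≤ #(X ∩ B) + 1}.image fun B => X ∩ B) fun Y hY => ?_).trans
        (card_biUnion_le_card_mul _ _ _ fun X hX => card_image_le.trans (hr X ?_ ?_).le)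
      · obtain ⟨h2, h3⟩ := mem_filter.1 hY
        push Not at h3
        obtain ⟨B, h3, h4⟩ := h3
        obtain ⟨X, h5, h6, h7⟩ := h0 _ wsplit_sub Y h2
        have h8 := subset_inter h6 h4
        have h9 := card_lt_card (show X ∩ B ⊂ X from ⟨inter_subset_left, fun h =>
          (wsplit_dust.1 h5).2 B h3 (h.trans inter_subset_right)⟩)
        rw [hJ X (wsplit_sub h5)] at h9
        have h10 := card_le_card h8
        exact mem_biUnion.2 ⟨X, h5, mem_image.2 ⟨B, mem_filter.2 ⟨h3, by omega⟩,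
          (eq_of_subset_of_card_le h8 (by omega)).symm⟩⟩
      · exact (hJ X (wsplit_sub hX)).ge
      · exact (hJ X (wsplit_sub hX)).trans_le (Nat.le_add_right _ _)
    have h3 := card_filter_add_card_filter_not (s := shadow (dust J F)) fun Y => ∀ B ∈ F, ¬Y ⊆ B
    rw [mul_comm] at h2
    omega
  have h1 := hF B hB
  refine (card_le_card (t := ({B' ∈ F | c ≤ #(B ∩ B') + 1}.erase B).biUnion
    fun B' => powersetCard (c - 1) (B ∩ B')) fun Y hY => ?_).trans
      ((card_biUnion_le_card_mul _ _ _ fun B' h => ?_).trans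
        (Nat.mul_le_mul_right _ (card_erase_le.trans (hr B (by omega) h1.le).le)))
  · obtain ⟨h2, h3 | ⟨B', h3, h4, h5⟩⟩ := mem_filter.1 hY
    · exact absurd (shadow_mono (filter_subset _ _) h2) h3
    · obtain ⟨X, h6, h7, h8⟩ := h0 _ (filter_subset _ _) Y h2
      have h9 := subset_inter (h7.trans (mem_filter.1 h6).2) h5
      have h10 := card_le_card h9
      exact mem_biUnion.2 ⟨B', mem_erase.2 ⟨h4, mem_filter.2 ⟨h3, by omega⟩⟩,
        mem_powersetCard.2 ⟨h9, by omega⟩⟩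
  · have h2 := hF B' (mem_filter.1 (mem_of_mem_erase h)).1
    have h3 := card_lt_card (show B ∩ B' ⊂ B from ⟨inter_subset_left, fun h' =>
      ne_of_mem_erase h (eq_of_subset_of_card_le (h'.trans inter_subset_right) (by omega)).symm⟩)
    obtain ⟨c, rfl⟩ : ∃ c', c = c' + 1 := ⟨c - 1, by omega⟩
    rw [card_powersetCard, Nat.add_sub_cancel]
    refine (Nat.choose_le_choose c (by omega : _ ≤ c + j)).trans ?_
    rw [Nat.choose_symm_add]
    exact Nat.choose_le_choose j (by omega)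

theorem card_le_dust (J F : Finset (Finset V)) :
    #J ≤ ∑ B ∈ F, #(ins J B) + #(dust J F) := by
  refine (card_le_card (t := F.biUnion (ins J) ∪ dust J F) fun X hX => ?_).trans
    ((card_union_le _ _).trans (Nat.add_le_add_right card_biUnion_le _))
  by_cases h : ∀ B ∈ F, ¬X ⊆ B
  · exact mem_union_right _ (wsplit_dust.2 ⟨hX, h⟩)
  · push Not at h
    obtain ⟨B, h1, h2⟩ := h
    exact mem_union_left _ (mem_biUnion.2 ⟨B, h1, mem_filter.2 ⟨hX, h2⟩⟩)

end Pool.Agent.P.MP_4f3dfd_co.Win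
end

-- part Pool.Agent.P.MP_4f3dfd_co.WUnion
section

set_option autoImplicit false
set_option linter.unusedSectionVars false
set_option linter.unusedVariables false

namespace Pool.Agent.P.MP_4f3dfd_co.Win

open Finset Pool.Agent.P.MP_4f3dfd_co.Asy Pool.Agent.P.MP_4f3dfd_co.Off

variable {V : Type*} [DecidableEq V] [Fintype V]

theorem wunion_pc {c : ℕ} {B : Finset V} {g : Finset (Finset V)} (hg : g ⊆ powersetCard c B) :
    g ⊆ ins (powersetCard c (univ : Finset V)) B := fun X hX => by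
  have h := mem_powersetCard.1 (hg hX)
  exact mem_filter.2 ⟨mem_powersetCard.2 ⟨subset_univ _, h.2⟩, h.1⟩

theorem wunion_bonf {c j : ℕ} (G : Finset (Finset V)) (hG : ∀ B ∈ G, #B = c + j)
    (g : Finset V → Finset (Finset V)) (hg : ∀ B ∈ G, g B ⊆ powersetCard c B) :
    ∑ B ∈ G, (#(g B) : ℝ) ≤ #(G.biUnion g) + (#G : ℝ) ^ 2 * (c + j - 1).choose c := by
  have h := bonf_sum G g (u := (c + j - 1).choose c) fun B hB B' hB' hne =>
    (card_le_card (inter_subset_inter (wunion_pc (hg B hB)) (wunion_pc (hg B' hB')))).trans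
      (ins_inter (fun X hX => (mem_powersetCard.1 hX).2) (hG B hB) (hG B' hB') hne)
  exact_mod_cast h

theorem wunion_avoid {c j : ℕ} {B : Finset V} (hB : #B = c + j) {g : Finset (Finset V)}
    (hg : g ⊆ powersetCard c B) {v : V} (hv : v ∈ B) :
    (#g : ℝ) ≤ #{X ∈ g | v ∈ X} + (c + j - 1).choose c := by
  have h1 := card_filter_add_card_filter_not (s := g) (fun X => v ∈ X)
  have h2 : #{X ∈ g | v ∉ X} ≤ (c + j - 1).choose c :=
    (card_le_card (filter_subset_filter _ (wunion_pc hg))).trans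
      (ins_avoid (fun X hX => (mem_powersetCard.1 hX).2) hB hv)
  have h3 : #g ≤ #{X ∈ g | v ∈ X} + (c + j - 1).choose c := by omega
  exact_mod_cast h3

theorem wunion_up (G : Finset (Finset V)) (g : Finset V → Finset (Finset V)) (f : Finset V → ℝ)
    (hf : ∀ B ∈ G, (#(g B) : ℝ) ≤ f B) : (#(G.biUnion g) : ℝ) ≤ ∑ B ∈ G, f B := by
  have h : (#(G.biUnion g) : ℝ) ≤ ∑ B ∈ G, (#(g B) : ℝ) := by
    exact_mod_cast card_biUnion_le (s := G) (t := g)
  exact h.trans (sum_le_sum hf)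

theorem wunion_swap_mem {S : Finset V} {u v : V} (h : u ∈ S ↔ v ∈ S) (x : V) :
    Equiv.swap u v x ∈ S ↔ x ∈ S := by
  by_cases h1 : x = u
  · subst h1
    rw [Equiv.swap_apply_left]
    exact h.symm
  by_cases h2 : x = v
  · subst h2
    rw [Equiv.swap_apply_right]
    exact h
  rw [Equiv.swap_apply_of_ne_of_ne h1 h2]

theorem wunion_swap_atm {c : ℕ} {B A X : Finset V} {u v : V} (h1 : u ∈ B ↔ v ∈ B)
    (h2 : u ∈ A ↔ v ∈ A) (hX : X ∈ atm c B A) :
    X.map (Equiv.swap u v).toEmbedding ∈ atm c B A := by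
  obtain ⟨ha, hb⟩ := mem_filter.1 hX
  obtain ⟨hc, hd⟩ := mem_powersetCard.1 ha
  refine mem_filter.2 ⟨mem_powersetCard.2 ⟨fun x hx => ?_, by rw [card_map, hd]⟩, fun hs => hb ?_⟩
  · rw [mem_map_equiv, Equiv.symm_swap] at hx
    exact (wunion_swap_mem h1 x).1 (hc hx)
  · intro x hx
    have := hs ((wunion_swap_mem h2 x).2 hx)
    rwa [mem_map_equiv, Equiv.symm_swap, Equiv.swap_apply_self] at this

theorem wunion_swap_le (J : Finset (Finset V)) (u v : V)
    (h : ∀ X ∈ J, X.map (Equiv.swap u v).toEmbedding ∈ J) :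
    #{X ∈ J | u ∈ X} ≤ #{X ∈ J | v ∈ X} := by
  refine card_le_card_of_injOn (fun X => X.map (Equiv.swap u v).toEmbedding) (fun X hX => ?_)
    (fun X _ Y _ hXY => map_injective _ hXY)
  obtain ⟨h1, h2⟩ := mem_filter.1 (mem_coe.1 hX)
  refine mem_coe.2 (mem_filter.2 ⟨h X h1, ?_⟩)
  rw [mem_map_equiv, Equiv.symm_swap, Equiv.swap_apply_right]
  exact h2

/-- A union of clique segments. -/
theorem exists_union {c j : ℕ} (hj : 1 ≤ j) (hc : 1 ≤ c) (F : Finset (Finset V))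
    (hF : ∀ B ∈ F, #B = c + j) (t : Finset V → ℝ) (ht : ∀ B ∈ F, 0 ≤ t B ∧ t B ≤ 1) :
    ∃ (J : Finset (Finset V)) (A : Finset V → Finset V), (∀ X ∈ J, #X = c ∧ ∃ B ∈ F, X ⊆ B) ∧
      (c + j).choose j * ∑ B ∈ F, t B - #F * (#F + 2) * (c + j - 1).choose c ≤ (#J : ℝ) ∧
      (#J : ℝ) ≤ (c + j).choose j * ∑ B ∈ F, t B ∧
      (∀ v, (c + j).choose j * ∑ B ∈ F with v ∈ B, t B - #F * (#F + 2) * (c + j - 1).choose c ≤
          (#{X ∈ J | v ∈ X} : ℝ) ∧
        (#{X ∈ J | v ∈ X} : ℝ) ≤ (c + j).choose j * ∑ B ∈ F with v ∈ B, t B) ∧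
      (#(shadow J) : ℝ) ≤ (c + j).choose (j + 1) * (∑ B ∈ F, ps j (t B) + #F * (j / c)) ∧
      ∀ u v, (∀ B ∈ F, (u ∈ B ↔ v ∈ B) ∧ (u ∈ A B ↔ v ∈ A B)) →
        #{X ∈ J | u ∈ X} = #{X ∈ J | v ∈ X} := by
  choose! A hA using fun B (hB : B ∈ F) =>
    exists_atm hj hc B (hF B hB) (ht B hB).1 (ht B hB).2
  have hsub : ∀ B, atm c B (A B) ⊆ powersetCard c B := fun B => filter_subset _ _
  have hu : (0 : ℝ) ≤ (c + j - 1).choose c := Nat.cast_nonneg _
  have hR : (0 : ℝ) ≤ #F := Nat.cast_nonneg _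
  refine ⟨F.biUnion fun B => atm c B (A B), A, fun X hX => ?_, ?_, ?_, fun v => ?_, ?_,
    fun u v h => ?_⟩
  · obtain ⟨B, hB, hX⟩ := mem_biUnion.1 hX
    have := mem_powersetCard.1 (hsub B hX)
    exact ⟨this.2, B, hB, this.1⟩
  · have h1 := wunion_bonf F hF (fun B => atm c B (A B)) fun B _ => hsub B
    have h2 := sum_le_sum fun B (hB : B ∈ F) => (hA B hB).2.1
    rw [sum_sub_distrib, ← mul_sum, sum_const, nsmul_eq_mul] at h2
    have h3 := mul_nonneg hR hu
    linarith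
  · rw [mul_sum]
    exact wunion_up F _ _ fun B hB => (hA B hB).2.2.1
  · have e : {X ∈ F.biUnion fun B => atm c B (A B) | v ∈ X} =
        ({B ∈ F | v ∈ B}).biUnion fun B => {X ∈ atm c B (A B) | v ∈ X} := by
      ext X
      simp only [mem_filter, mem_biUnion]
      constructor
      · rintro ⟨⟨B, hB, hX⟩, hv⟩
        exact ⟨B, ⟨hB, (mem_powersetCard.1 (hsub B hX)).1 hv⟩, hX, hv⟩
      · rintro ⟨B, ⟨hB, _⟩, hX, hv⟩
        exact ⟨⟨B, hB, hX⟩, hv⟩
    rw [e]
    constructor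
    · have h1 := wunion_bonf ({B ∈ F | v ∈ B}) (fun B hB => hF B (mem_filter.1 hB).1)
        (fun B => {X ∈ atm c B (A B) | v ∈ X}) fun B _ => (filter_subset _ _).trans (hsub B)
      have h2 : ∑ B ∈ F with v ∈ B, (((c + j).choose j : ℝ) * t B - 2 * (c + j - 1).choose c) ≤
          ∑ B ∈ F with v ∈ B, (#{X ∈ atm c B (A B) | v ∈ X} : ℝ) := by
        refine sum_le_sum fun B hB => ?_
        obtain ⟨hB, hv⟩ := mem_filter.1 hB
        have h3 := wunion_avoid (hF B hB) (hsub B) hv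
        have h4 := (hA B hB).2.1
        linarith
      rw [sum_sub_distrib, ← mul_sum, sum_const, nsmul_eq_mul] at h2
      have h3 : (#{B ∈ F | v ∈ B} : ℝ) ≤ #F := by exact_mod_cast card_filter_le _ _
      have h4 : (0 : ℝ) ≤ #{B ∈ F | v ∈ B} := Nat.cast_nonneg _
      have h5 := mul_le_mul_of_nonneg_right h3 hu
      have h6 := mul_le_mul_of_nonneg_right (pow_le_pow_left₀ h4 h3 2) hu
      linarith
    · rw [mul_sum]
      refine wunion_up _ _ _ fun B hB => le_trans ?_ (hA B (mem_filter.1 hB).1).2.2.1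
      exact_mod_cast card_filter_le _ _
  · have e : shadow (F.biUnion fun B => atm c B (A B)) ⊆
        F.biUnion fun B => shadow (atm c B (A B)) := fun Y hY => by
      obtain ⟨X, hX, a, ha, rfl⟩ := mem_shadow_iff.1 hY
      obtain ⟨B, hB, hX⟩ := mem_biUnion.1 hX
      exact mem_biUnion.2 ⟨B, hB, mem_shadow_iff.2 ⟨X, hX, a, ha, rfl⟩⟩
    have h1 := wunion_up F (fun B => shadow (atm c B (A B))) _ fun B hB => (hA B hB).2.2.2
    rw [← mul_sum, sum_add_distrib, sum_const, nsmul_eq_mul] at h1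
    exact le_trans (by exact_mod_cast card_le_card e) h1
  · refine le_antisymm (wunion_swap_le _ u v fun X hX => ?_) (wunion_swap_le _ v u fun X hX => ?_)
    · obtain ⟨B, hB, hX⟩ := mem_biUnion.1 hX
      exact mem_biUnion.2 ⟨B, hB, wunion_swap_atm (h B hB).1 (h B hB).2 hX⟩
    · obtain ⟨B, hB, hX⟩ := mem_biUnion.1 hX
      exact mem_biUnion.2 ⟨B, hB, wunion_swap_atm (h B hB).1.symm (h B hB).2.symm hX⟩

end Pool.Agent.P.MP_4f3dfd_co.Win
end

-- part Pool.Agent.P.MP_4f3dfd_co.WFin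
section

set_option autoImplicit false
set_option linter.unusedSectionVars false
set_option linter.unusedVariables false

namespace Pool.Agent.P.MP_4f3dfd_co.Win

open Finset Pool.Agent.P.MP_4f3dfd_co.Asy Pool.Agent.P.MP_4f3dfd_co.Off

theorem wfin_range {β w M ρ q s L : ℝ} (hβ : 0 < β) (hw : 0 < w) (hM1 : w ≤ M) (hM2 : M ≤ 2 * w)
    (hρ1 : β * w ≤ ρ) (hρ2 : ρ ≤ M - β * w / 2) (hq : 0 ≤ q) (hs : 0 ≤ s) (hL : 4 * L ≤ β * q)
    (h1 : ρ * q ≤ M * (s + 1)) (h2 : M * s ≤ ρ * q + M) : 2 * L ≤ s + 1 ∧ s + L ≤ q + 1 := by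
  constructor
  · have a1 : β * w * q ≤ ρ * q := mul_le_mul_of_nonneg_right hρ1 hq
    have a2 : M * (s + 1) ≤ 2 * w * (s + 1) := mul_le_mul_of_nonneg_right hM2 (by linarith)
    have a3 : w * (4 * L) ≤ w * (β * q) := mul_le_mul_of_nonneg_left hL hw.le
    have a4 : w * (2 * L) ≤ w * (s + 1) := by nlinarith only [h1, a1, a2, a3]
    exact le_of_mul_le_mul_left a4 hw
  · have hM0 : 0 < M := by linarith
    have a1 : ρ * q ≤ (M - β * M / 4) * q := by
      apply mul_le_mul_of_nonneg_right _ hq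
      have : β * M ≤ β * (2 * w) := mul_le_mul_of_nonneg_left hM2 hβ.le
      linarith
    have a2 : M * (4 * L) ≤ M * (β * q) := mul_le_mul_of_nonneg_left hL hM0.le
    have a3 : M * (s + L) ≤ M * (q + 1) := by nlinarith only [h2, a1, a2]
    exact le_of_mul_le_mul_left a3 hM0

theorem wfin_err {r R j c u U w γ δ : ℝ} (hr0 : 0 ≤ r) (hr : r ≤ R) (hj : 0 ≤ j) (hc : 0 < c)
    (hu0 : 0 ≤ u) (hu : u * (c + j) = U * j) (hU : 0 ≤ U) (hγ : 0 < γ) (hw : γ * U ≤ w)
    (hδ : 0 < δ) (hK : R * (R + 2) * j / (γ * δ) ≤ c) : r * (r + 2) * u ≤ δ * w := by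
  have a1 : u * c ≤ U * j := by nlinarith only [mul_nonneg hu0 hj, hj, hu0, hu]
  have a2 : r * (r + 2) ≤ R * (R + 2) := by nlinarith
  have hR : 0 ≤ R * (R + 2) := le_trans (by positivity) a2
  have a3 : R * (R + 2) * j ≤ c * (γ * δ) := (div_le_iff₀ (by positivity)).1 hK
  have a4 : r * (r + 2) * u * c ≤ δ * w * c := by
    calc r * (r + 2) * u * c = r * (r + 2) * (u * c) := by ring
      _ ≤ R * (R + 2) * (U * j) := mul_le_mul a2 a1 (by positivity) hR
      _ = R * (R + 2) * j * U := by ring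
      _ ≤ c * (γ * δ) * U := mul_le_mul_of_nonneg_right a3 hU
      _ = δ * (γ * U) * c := by ring
      _ ≤ δ * w * c := by gcongr
  exact le_of_mul_le_mul_right a4 hc

theorem wfin_sh {r R j c W U w γ ε : ℝ} (hr0 : 0 ≤ r) (hr : r ≤ R) (hj : 0 ≤ j) (hc : 0 < c)
    (hW0 : 0 ≤ W) (hW : W * (j + 1) = U * c) (hγ : 0 < γ) (hw : γ * U ≤ w) (hw0 : 0 ≤ w)
    (hε : 0 < ε) (hK : 2 * R / (γ * ε) ≤ c) : W * (r * (j / c)) ≤ ε / 2 * (c * w) := by
  have a1 : W * (j / c) ≤ U := by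
    rw [← mul_div_assoc, div_le_iff₀ hc]; nlinarith
  have a0 : 0 ≤ W * (j / c) := by positivity
  have a2 : 2 * R ≤ c * (γ * ε) := (div_le_iff₀ (by positivity)).1 hK
  have hU : 0 ≤ U := a0.trans a1
  calc W * (r * (j / c)) = r * (W * (j / c)) := by ring
    _ ≤ R * U := mul_le_mul hr a1 a0 (hr0.trans hr)
    _ ≤ c * (γ * ε) / 2 * U := mul_le_mul_of_nonneg_right (by linarith) hU
    _ = ε / 2 * (c * (γ * U)) := by ring
    _ ≤ ε / 2 * (c * w) := by gcongr

/-- Completing a union of boundedly many segments to a regular family. -/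
theorem finish {j : ℕ} (hj : 1 ≤ j) (R P : ℕ) {β γ ε : ℝ} (hβ : 0 < β) (hγ : 0 < γ) (hε : 0 < ε) :
    ∃ K : ℕ, ∀ n c m d e : ℕ, K ≤ c → c ≤ n → m ≤ n ^ P → c * m = d * n → d + e = m →
    ∀ F : Finset (Finset (Fin n)), #F ≤ R → (∀ B ∈ F, #B = c + j) →
    ∀ t : Finset (Fin n) → ℝ, (∀ B ∈ F, 0 ≤ t B ∧ t B ≤ 1) →
    ∀ w : ℝ, w = m - (c + j).choose j * ∑ B ∈ F, t B → γ * (c + j).choose j ≤ w →
    (∀ v, β * w ≤ d - (c + j).choose j * ∑ B ∈ F with v ∈ B, t B ∧
      β * w ≤ e - (c + j).choose j * ∑ B ∈ F with v ∉ B, t B) →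
    ∃ J : Finset (Finset (Fin n)), Rg c m d J ∧
      (#(shadow J) : ℝ) ≤ (c + j).choose (j + 1) * ∑ B ∈ F, ps j (t B) + (1 + ε) * (c * w) := by
  obtain ⟨δ, hδ, hδ1, hδ2, hδ3⟩ : ∃ δ : ℝ, 0 < δ ∧ δ ≤ β / 2 ∧ δ ≤ ε / 2 ∧ δ ≤ 1 :=
    ⟨min (β / 2) (min (ε / 2) 1), by positivity, min_le_left _ _,
      (min_le_right _ _).trans (min_le_left _ _), (min_le_right _ _).trans (min_le_right _ _)⟩
  obtain ⟨K1, hK1⟩ := big_choose P (4 ^ R)
  obtain ⟨K2, hK2⟩ := exists_nat_ge ((R : ℝ) * (R + 2) * j / (γ * δ))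
  obtain ⟨K3, hK3⟩ := exists_nat_ge (2 * (R : ℝ) / (γ * ε))
  obtain ⟨K4, hK4⟩ := exists_nat_ge ((4 : ℝ) ^ R * (4 * (P + 2 + j)) / β)
  refine ⟨K1 + K2 + K3 + K4 + 1, fun n c m d e hK hcn hmP hcm hde F hFR hF t ht w hw hγw hv => ?_⟩
  have hc1 : 1 ≤ c := by omega
  have hc0 : (0 : ℝ) < c := by exact_mod_cast hc1
  have c2 : (K2 : ℝ) ≤ c := by exact_mod_cast (by omega : K2 ≤ c)
  have c3 : (K3 : ℝ) ≤ c := by exact_mod_cast (by omega : K3 ≤ c)
  have c4 : (K4 : ℝ) ≤ n := by exact_mod_cast (by omega : K4 ≤ n)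
  have hU : (0 : ℝ) < (c + j).choose j := by exact_mod_cast Nat.choose_pos (by omega)
  have hw0 : 0 < w := lt_of_lt_of_le (mul_pos hγ hU) hγw
  have hFR' : (#F : ℝ) ≤ R := by exact_mod_cast hFR
  obtain ⟨J0, A, j1, j2, j3, j4, j5, j6⟩ := exists_union hj hc1 F hF t ht
  have hE : (#F : ℝ) * (#F + 2) * (c + j - 1).choose c ≤ δ * w :=
    wfin_err (by positivity) hFR' (by positivity) hc0 (by positivity) (u_eq c j hj) hU.le hγ hγw
      hδ (hK2.trans c2)
  have hE1 : δ * w ≤ β / 2 * w := mul_le_mul_of_nonneg_right hδ1 hw0.le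
  have hE2 : δ * w ≤ ε / 2 * w := mul_le_mul_of_nonneg_right hδ2 hw0.le
  have hE3 : δ * w ≤ 1 * w := mul_le_mul_of_nonneg_right hδ3 hw0.le
  have hJm : #J0 ≤ m := by
    have : (#J0 : ℝ) ≤ m := by linarith only [hw, hw0, j3]
    exact_mod_cast this
  obtain ⟨M, hM⟩ : ∃ M, m = #J0 + M := ⟨m - #J0, by omega⟩
  have hM' : (m : ℝ) = #J0 + M := by exact_mod_cast hM
  have hM1 : w ≤ M := by linarith
  have hM2 : (M : ℝ) ≤ w + δ * w := by linarith
  have hde' : (d : ℝ) + e = m := by exact_mod_cast hde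
  have hβw : 0 < β * w := mul_pos hβ hw0
  have dlo : ∀ v, β * w ≤ (d : ℝ) - #{X ∈ J0 | v ∈ X} := fun v => by
    linarith [(hv v).1, (j4 v).2]
  have dhi : ∀ v, (d : ℝ) - #{X ∈ J0 | v ∈ X} ≤ M - β * w / 2 := fun v => by
    have e1 := sum_filter_add_sum_filter_not F (fun B => v ∈ B) t
    have e2 : ((c + j).choose j : ℝ) * ∑ B ∈ F, t B =
        (c + j).choose j * ∑ B ∈ F with v ∈ B, t B +
          (c + j).choose j * ∑ B ∈ F with v ∉ B, t B := by rw [← e1, mul_add]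
    linarith only [(hv v).2, (j4 v).1, j3, hE, hE1, hM', hde', e2]
  obtain ⟨Q, q1, q2⟩ := big_class (F ∪ F.image A)
  rw [Fintype.card_fin] at q1
  have q3 : n ≤ 4 ^ R * #Q := by
    refine q1.trans (Nat.mul_le_mul_right _ ?_)
    rw [show (4 : ℕ) = 2 ^ 2 by norm_num, ← pow_mul]
    apply Nat.pow_le_pow_right (by norm_num)
    have h1 := card_union_le F (F.image A)
    have h2 : #(F.image A) ≤ #F := card_image_le
    omega
  have hq : 4 * ((P : ℝ) + 2 + j) ≤ β * #Q := by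
    have h1 : (4 : ℝ) ^ R * (4 * (P + 2 + j)) ≤ n * β := (div_le_iff₀ hβ).1 (hK4.trans c4)
    have h2 : (n : ℝ) ≤ 4 ^ R * #Q := by exact_mod_cast q3
    have h3 : (n : ℝ) * β ≤ 4 ^ R * #Q * β := mul_le_mul_of_nonneg_right h2 hβ.le
    have h4 : (4 : ℝ) ^ R * (4 * (P + 2 + j)) ≤ 4 ^ R * (β * #Q) := by linarith
    exact le_of_mul_le_mul_left h4 (by positivity)
  obtain ⟨v0, hv0⟩ : Q.Nonempty := by
    rw [← card_pos]
    rcases Nat.eq_zero_or_pos #Q with h | h
    · rw [h] at q3; omega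
    · exact h
  have same : ∀ B ∈ F ∪ F.image A, ∀ v ∈ Q, (v ∈ B ↔ v0 ∈ B) := fun B hB v hvQ => by
    rcases q2 B hB with h | h
    · exact ⟨fun _ => h hv0, fun _ => h hvQ⟩
    · exact ⟨fun h' => absurd h' (disjoint_left.1 h hvQ), fun h' => absurd h' (disjoint_left.1 h hv0)⟩
  have hdeg : ∀ v, #{X ∈ J0 | v ∈ X} ≤ d := fun v => by
    have : (#{X ∈ J0 | v ∈ X} : ℝ) ≤ d := by linarith only [dlo v, hβw]
    exact_mod_cast this
  have hρ : ((d - #{X ∈ J0 | v0 ∈ X} : ℕ) : ℝ) = d - #{X ∈ J0 | v0 ∈ X} := Nat.cast_sub (hdeg v0)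
  obtain ⟨J, k1, k2, k3, k4⟩ := complete c d M #{X ∈ J0 | v0 ∈ X} J0 Q (fun X hX => (j1 X hX).1)
    hdeg
    (fun v => by
      have : (d : ℝ) ≤ #{X ∈ J0 | v ∈ X} + M := by linarith only [dhi v, hβw]
      exact_mod_cast this)
    (fun v hvQ => j6 v v0 fun B hB => ⟨same B (mem_union_left _ hB) v hvQ,
      same (A B) (mem_union_right _ (mem_image_of_mem A hB)) v hvQ⟩)
    (hdeg v0) (by rw [← hM, Fintype.card_fin, hcm])
    (by
      have h1 : β * w * #Q ≤ (d - #{X ∈ J0 | v0 ∈ X}) * (#Q : ℝ) :=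
        mul_le_mul_of_nonneg_right (dlo v0) (by positivity)
      have h0 : (4 : ℝ) ≤ β * #Q := by
        have : (0 : ℝ) ≤ P := by positivity
        have : (0 : ℝ) ≤ j := by positivity
        linarith
      have h2 : w * 4 ≤ w * (β * #Q) := mul_le_mul_of_nonneg_left h0 hw0.le
      have h3 : (2 : ℝ) * M ≤ ((d - #{X ∈ J0 | v0 ∈ X} : ℕ) : ℝ) * #Q := by
        rw [hρ]; linarith only [hw, j2, hE, hE3, hM', h1, h2]
      exact_mod_cast h3)
    (fun s s1 s2 => by
      have s1' : ((d - #{X ∈ J0 | v0 ∈ X} : ℕ) : ℝ) * #Q ≤ M * (s + 1) := by exact_mod_cast s1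
      have s2' : (M : ℝ) * s ≤ ((d - #{X ∈ J0 | v0 ∈ X} : ℕ) : ℝ) * #Q + M := by exact_mod_cast s2
      rw [hρ] at s1' s2'
      obtain ⟨r1, r2⟩ := wfin_range hβ hw0 hM1 (by linarith only [hw, j2, hE, hE3, hM']) (dlo v0) (dhi v0) (by positivity)
        (by positivity) hq s1' s2'
      have r1' : 2 * (P + 2 + j) ≤ s + 1 := by exact_mod_cast r1
      have r2' : s + (P + 2 + j) ≤ #Q + 1 := by exact_mod_cast r2
      refine ⟨le_trans (by omega) (hmP.trans (hK1 n #Q s (by omega) q3 (by omega) (by omega))),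
        fun X hX => ?_⟩
      obtain ⟨x1, B, hB, hXB⟩ := j1 X hX
      rcases q2 B (mem_union_left _ hB) with h | h
      · have h1 : #(Q \ X) ≤ #(B \ X) := card_le_card (sdiff_subset_sdiff h subset_rfl)
        have h2 := card_sdiff_add_card_inter Q X
        have h3 : #(B \ X) = j := by
          rw [card_sdiff_of_subset hXB, hF B hB, x1]; omega
        rw [inter_comm] at h2
        omega
      · have h1 : X ∩ Q = ∅ :=
          disjoint_iff_inter_eq_empty.1 (Disjoint.mono_left hXB h.symm)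
        rw [h1, card_empty]
        omega)
  refine ⟨J, ⟨k1, by rw [k2, hM], k3⟩, ?_⟩
  have k4' : (#(shadow J) : ℝ) ≤ #(shadow J0) + c * M := by exact_mod_cast k4
  have h1 := wfin_sh (W := (c + j).choose (j + 1)) (by positivity) hFR' (by positivity) hc0
    (by positivity) (W_eq c j) hγ hγw hw0.le hε (hK3.trans c3)
  have h2 : (c : ℝ) * M ≤ c * (w + ε / 2 * w) := mul_le_mul_of_nonneg_left (by linarith only [hw, j2, hE, hE2, hM']) hc0.le
  rw [mul_add] at j5
  linarith only [j5, k4', h1, h2]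

end Pool.Agent.P.MP_4f3dfd_co.Win
end

-- part Pool.Agent.P.MP_4f3dfd_co.WLowFin
section

set_option autoImplicit false
set_option linter.unusedSectionVars false
set_option linter.unusedVariables false

namespace Pool.Agent.P.MP_4f3dfd_co.Win

open Finset Pool.Agent.P.MP_4f3dfd_co.Asy Pool.Agent.P.MP_4f3dfd_co.Off

theorem wlowfin_dust {V : Type*} [DecidableEq V] {J F : Finset (Finset V)} {X : Finset V}
    (h : X ∈ dust J F) : X ∈ J ∧ ∀ B ∈ F, ¬X ⊆ B := mem_filter.1 h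

/-- The dust has almost the shadow of cliques of the previous level. -/
theorem dust_ge {n c j m d e s₁ s₂ x : ℕ} (hj : 1 ≤ j) {J : Finset (Finset (Fin n))}
    (hJ : Rg c m d J) (hde : d + e = m) (hc : 2 * j + 2 ≤ c) (hn : c + 3 * j + 2 ≤ n)
    (hnum : 2 * (j + 1) ^ 2 * ((j + 2) * min d e) * j.factorial ^ 2 < s₂ * (s₁ + s₂) ^ j)
    (hx : 2 * (x + 1) < s₁) (hxn : x + j ≤ n) :
    c * #(dust J (big c j ((x + j).choose j + 1) J)) ≤
      j * #(shadow (dust J (big c j ((x + j).choose j + 1) J))) +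
        (j + s₁ + s₂) * #(dust J (big c j ((x + j).choose j + 1) J)) := by
  refine peel _ (fun X hX => hJ.sz X (wlowfin_dust hX).1) fun H hH hne => ?_
  by_contra hcon
  push Not at hcon
  obtain ⟨X₀, h₀⟩ := hne
  have hHJ : H ⊆ J := fun X hX => (wlowfin_dust (hH hX)).1
  have hX₀ : #X₀ = c := hJ.sz _ (hHJ h₀)
  have hl := loc (ρ := j + 1) hJ hde X₀ (by omega) (by rw [Fintype.card_fin]; omega)
  obtain ⟨B, hB, hb⟩ := core (Λ := (j + 2) * min d e) hj H (fun X hX => hJ.sz X (hHJ hX)) h₀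
    (fun X hX => (hcon X hX).le) (le_trans (card_le_card fun X hX => by
      obtain ⟨h1, h2⟩ := mem_filter.1 hX
      refine mem_filter.2 ⟨hHJ h1, ?_, h2.le⟩
      rw [card_sdiff_comm (hX₀.trans (hJ.sz X (hHJ h1)).symm)]
      exact h2.le) hl) hnum hx hxn
  have hbig : B ∈ big c j ((x + j).choose j + 1) J := by
    refine mem_filter.2 ⟨mem_powersetCard.2 ⟨subset_univ _, hB⟩, ?_⟩
    exact le_trans hb (card_le_card (filter_subset_filter _ hHJ))
  obtain ⟨X, hX⟩ := card_pos.1 (lt_of_le_of_lt (Nat.zero_le _) hb)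
  obtain ⟨h1, h2⟩ := mem_filter.1 hX
  exact (wlowfin_dust (hH h1)).2 B hbig h2

theorem wlowfin_sum {α : Type*} [DecidableEq α] {P F : Finset α} (h : F ⊆ P) (p : α → Prop)
    [DecidablePred p] (f : α → ℝ) :
    ∑ B ∈ P with p B, (if B ∈ F then f B else 0) = ∑ B ∈ F with p B, f B := by
  rw [sum_ite_mem]
  congr 1
  ext B
  simp only [mem_inter, mem_filter]
  exact ⟨fun h1 => ⟨h1.2, h1.1.2⟩, fun h1 => ⟨⟨h h1.1, h1.2⟩, h1.1⟩⟩

theorem wlowfin_priv {n c j b r w : ℕ} {J : Finset (Finset (Fin n))} (hJ : ∀ X ∈ J, #X = c)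
    (hr : ∀ A : Finset (Fin n), c ≤ #A → #A ≤ c + j →
      #{B ∈ big c j b J | c ≤ #(A ∩ B) + 1} < r)
    {θ : ℝ} (h0 : 0 < θ) (hu : ((r : ℝ) + 1) * (c + j - 1).choose c ≤ θ * b)
    (hw : w ≤ (c + j - 1).choose c) (F' : Finset (Finset (Fin n))) (hF' : F' ⊆ big c j b J)
    (G : Finset (Finset (Fin n))) (hG : ∀ B ∈ F', #(ins J B \ G) ≤ w) :
    (1 - θ) * ∑ B ∈ F', (#(ins J B) : ℝ) ≤ #G := by
  have h1 := priv hJ (fun B hB => (mem_powersetCard.1 (mem_filter.1 hB).1).2) hr F' hF' G hG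
  have h2 : (∑ B ∈ F', (#(ins J B) : ℝ)) ≤
      #G + #F' * (w + r * ((c + j - 1).choose c : ℝ)) := by exact_mod_cast h1
  have h3 : (#F' : ℝ) * b ≤ ∑ B ∈ F', (#(ins J B) : ℝ) := by
    rw [← nsmul_eq_mul]
    exact card_nsmul_le_sum _ _ _ fun B hB => by exact_mod_cast (mem_filter.1 (hF' hB)).2
  have h4 : (w : ℝ) ≤ (c + j - 1).choose c := by exact_mod_cast hw
  have h5 : (#F' : ℝ) * (w + r * ((c + j - 1).choose c : ℝ)) ≤ #F' * (θ * b) :=
    mul_le_mul_of_nonneg_left (by linarith) (Nat.cast_nonneg _)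
  have h6 := mul_le_mul_of_nonneg_left h3 h0.le
  linarith

/-- The lower bound with explicit parameters. -/
theorem lower_fin {n c j m d e b r s : ℕ} (hj : 1 ≤ j) {J : Finset (Finset (Fin n))}
    (hJ : Rg c m d J) (hde : d + e = m) (hc : 2 * j + 2 ≤ c) (hn : c + 3 * j + 2 ≤ n)
    (hr : (2 * j + 2) * min d e + r ^ 2 * (c + j - 1).choose c < r * b)
    (hD : c * #(dust J (big c j b J)) ≤
      j * #(shadow (dust J (big c j b J))) + s * #(dust J (big c j b J)))
    {θ : ℝ} (h0 : 0 < θ) (h1 : θ ≤ 1 / 2) (hs : (s : ℝ) + j * r ≤ θ * c)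
    (hu : ((r : ℝ) + 1) * (c + j - 1).choose c ≤ θ * b)
    (hw : (r : ℝ) * (c + j).choose j + (c + j).choose (j + 1) * ((j + 2) / c) ≤ θ * c * b) :
    ∃ t, Pk n c j d e t ∧ Phi c m j (val n c j t) ≤ #(shadow J) + 5 * θ * (c * m) := by
  have hnear := near (b := b) (r := r) hJ hde hc (by rw [Fintype.card_fin]; exact hn) hr
  set F := big c j b J with hF
  set U : ℝ := ((c + j).choose j : ℝ) with hU
  set W : ℝ := ((c + j).choose (j + 1) : ℝ) with hW
  have hFP : F ⊆ powersetCard (c + j) univ := filter_subset _ _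
  have hFc : ∀ B ∈ F, #B = c + j := fun B hB => (mem_powersetCard.1 (hFP hB)).2
  have hU0 : 0 < U := by rw [hU]; exact_mod_cast Nat.choose_pos (by omega)
  have hW0 : 0 ≤ W := Nat.cast_nonneg _
  have hj0 : (1 : ℝ) ≤ j := by exact_mod_cast hj
  have hc0 : (0 : ℝ) < c := by exact_mod_cast (by omega : 0 < c)
  have hWU : W * (j + 1) = U * c := W_eq c j
  have hle : ∀ B ∈ F, (#(ins J B) : ℝ) ≤ U := fun B hB => by
    have : #(ins J B) ≤ (c + j).choose j := by
      rw [← Nat.choose_symm_add, ← hFc B hB, ← card_powersetCard]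
      exact card_le_card fun X hX =>
        mem_powersetCard.2 ⟨(mem_filter.1 hX).2, hJ.sz X (mem_filter.1 hX).1⟩
    rw [hU]; exact_mod_cast this
  have hfr : ∀ B ∈ F, (#(ins J B) : ℝ) / U ≤ 1 := fun B hB => (div_le_one hU0).2 (hle B hB)
  have hfr0 : ∀ B, 0 ≤ (#(ins J B) : ℝ) / U := fun B => div_nonneg (Nat.cast_nonneg _) hU0.le
  have hmul : ∀ F' : Finset (Finset (Fin n)),
      U * ∑ B ∈ F', (1 - θ) * ((#(ins J B) : ℝ) / U) = (1 - θ) * ∑ B ∈ F', (#(ins J B) : ℝ) := by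
    intro F'
    rw [mul_sum, mul_sum]
    exact sum_congr rfl fun B _ => by field_simp
  refine ⟨fun B => if B ∈ F then (1 - θ) * ((#(ins J B) : ℝ) / U) else 0,
    ⟨fun B => ?_, fun v => ⟨?_, ?_⟩⟩, ?_⟩
  · dsimp only
    split_ifs with hB
    · exact ⟨mul_nonneg (by linarith) (hfr0 B),
        mul_le_one₀ (by linarith) (hfr0 B) (hfr B hB)⟩
    · exact ⟨le_rfl, zero_le_one⟩
  · rw [wlowfin_sum hFP, hmul, ← hJ.dg v]
    refine wlowfin_priv hJ.sz hnear h0 hu le_rfl _ (filter_subset _ _) _ fun B hB => ?_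
    obtain ⟨b1, b2⟩ := mem_filter.1 hB
    refine le_trans (card_le_card fun X hX => ?_) (ins_avoid hJ.sz (hFc B b1) b2)
    obtain ⟨x1, x2⟩ := mem_sdiff.1 hX
    exact mem_filter.2 ⟨x1, fun hv => x2 (mem_filter.2 ⟨(mem_filter.1 x1).1, hv⟩)⟩
  · have he : #{X ∈ J | v ∉ X} = e := by
      have := card_filter_add_card_filter_not (s := J) (fun X => v ∈ X)
      rw [hJ.dg v, hJ.cd] at this
      omega
    rw [wlowfin_sum hFP, hmul, ← he]
    refine wlowfin_priv (w := 0) hJ.sz hnear h0 hu (Nat.zero_le _) _ (filter_subset _ _) _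
      fun B hB => ?_
    obtain ⟨b1, b2⟩ := mem_filter.1 hB
    rw [Nat.le_zero, card_eq_zero, sdiff_eq_empty_iff_subset]
    exact fun X hX => mem_filter.2 ⟨(mem_filter.1 hX).1, fun hv => b2 ((mem_filter.1 hX).2 hv)⟩
  have hval : val n c j (fun B => if B ∈ F then (1 - θ) * ((#(ins J B) : ℝ) / U) else 0) =
      ∑ B ∈ F, ph j ((1 - θ) * ((#(ins J B) : ℝ) / U)) := by
    have := wlowfin_sum hFP (fun _ => True) fun B => ph j ((1 - θ) * ((#(ins J B) : ℝ) / U))
    rw [filter_true, filter_true] at this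
    rw [← this, val]
    refine sum_congr rfl fun B _ => ?_
    split_ifs
    · rfl
    · exact ph_zero j
  rw [hval, Phi, ← hW]
  set S : ℝ := ∑ B ∈ F, (#(ins J B) : ℝ) with hS
  set T : ℝ := ∑ B ∈ F, ph j ((1 - θ) * ((#(ins J B) : ℝ) / U)) with hT
  have hS0 : 0 ≤ S := sum_nonneg fun _ _ => Nat.cast_nonneg _
  have a1 : (1 - θ) * S ≤ m := by
    rw [← hJ.cd]
    refine wlowfin_priv (w := 0) hJ.sz hnear h0 hu (Nat.zero_le _) _ subset_rfl _ fun B _ => ?_
    rw [Nat.le_zero, card_eq_zero, sdiff_eq_empty_iff_subset]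
    exact filter_subset _ _
  have a2 : S ≤ 2 * m := by
    have := mul_le_mul_of_nonneg_right h1 hS0
    linarith
  have a3 : (#F : ℝ) * b ≤ S := by
    rw [← nsmul_eq_mul]
    exact card_nsmul_le_sum _ _ _ fun B hB => by exact_mod_cast (mem_filter.1 hB).2
  have a4 : (∑ B ∈ F, (#(shadow (ins J B)) : ℝ)) + #(shadow (dust J F)) ≤
      #(shadow J) + #F * (r * U) + r * #(dust J F) := by
    rw [hU]; exact_mod_cast split (by omega) hJ.sz hFc hnear
  have a5 : (m : ℝ) ≤ S + #(dust J F) := by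
    rw [← hJ.cd, hS]; exact_mod_cast card_le_dust J F
  have a6 : (#(dust J F) : ℝ) ≤ m := by
    rw [← hJ.cd]; exact_mod_cast card_le_card fun X hX => (wlowfin_dust hX).1
  have a7 : (c : ℝ) * #(dust J F) ≤ j * #(shadow (dust J F)) + s * #(dust J F) := by
    exact_mod_cast hD
  have a8 : ∀ B ∈ F, c / j * (#(ins J B) : ℝ) - W * ph j ((1 - θ) * ((#(ins J B) : ℝ) / U)) -
      θ * c * (#(ins J B) : ℝ) - W * ((j + 2) / c) ≤ #(shadow (ins J B)) := by
    intro B hB
    have k1 := kkb hj (by omega) B (hFc B hB) (ins J B)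
      fun X hX => ⟨hJ.sz X (mem_filter.1 hX).1, (mem_filter.1 hX).2⟩
    rw [← hW, ← hU, ps_eq] at k1
    have f0 := hfr0 B
    have k2 := ph_lip hj (s := (1 - θ) * ((#(ins J B) : ℝ) / U))
      (by have := mul_nonneg h0.le f0; linarith only [this]) (hfr B hB)
    have k3 : W * ((1 + 1 / (j : ℝ)) * ((#(ins J B) : ℝ) / U)) = c / j * (#(ins J B) : ℝ) := by
      have : W = U * c / (j + 1) := by rw [← hWU]; field_simp
      rw [this]; field_simp
    have k4 : W * (2 * ((#(ins J B) : ℝ) / U)) ≤ c * (#(ins J B) : ℝ) := by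
      have e1 : c * (#(ins J B) : ℝ) = W * (j + 1) * ((#(ins J B) : ℝ) / U) := by
        rw [hWU]; field_simp
      rw [e1]
      have := mul_le_mul_of_nonneg_left hj0 (mul_nonneg hW0 f0)
      linarith only [this]
    have k5 := mul_le_mul_of_nonneg_left k2 hW0
    have k6 := mul_le_mul_of_nonneg_left k4 h0.le
    linarith only [k1, k3, k5, k6]
  have a9 := sum_le_sum a8
  simp only [sum_sub_distrib, ← mul_sum, sum_const, nsmul_eq_mul] at a9
  rw [← hS, ← hT] at a9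
  have hD0 : (0 : ℝ) ≤ #(dust J F) := Nat.cast_nonneg _
  have hj1 : (0 : ℝ) < j := by linarith only [h0, h1, hj0]
  have hθc : 0 ≤ θ * c := by positivity
  have b1 : c / j * (#(dust J F) : ℝ) - θ * c * #(dust J F) ≤
      #(shadow (dust J F)) - r * #(dust J F) := by
    refine le_of_mul_le_mul_left ?_ hj1
    have e1 : (j : ℝ) * (c / j * (#(dust J F) : ℝ)) = c * #(dust J F) := by field_simp
    have e2 := mul_le_mul_of_nonneg_right hs hD0
    have e3 : θ * c * #(dust J F) ≤ j * (θ * c * #(dust J F)) :=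
      le_mul_of_one_le_left (mul_nonneg hθc hD0) hj0
    linarith only [a7, e1, e2, e3]
  have b2 : (#F : ℝ) * (r * U + W * ((j + 2) / c)) ≤ θ * c * S := by
    have := mul_le_mul_of_nonneg_left hw (Nat.cast_nonneg (α := ℝ) #F)
    have := mul_le_mul_of_nonneg_left a3 hθc
    linarith
  have b3 : (c : ℝ) * m / j ≤ c / j * S + c / j * #(dust J F) := by
    have := mul_le_mul_of_nonneg_left a5 (div_nonneg hc0.le hj1.le)
    rw [mul_div_right_comm]
    linarith only [this]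
  have b4 := mul_le_mul_of_nonneg_left a2 hθc
  have b5 := mul_le_mul_of_nonneg_left a6 hθc
  linarith only [a4, a9, b1, b2, b3, b4, b5]

end Pool.Agent.P.MP_4f3dfd_co.Win
end

-- part Pool.Agent.P.MP_4f3dfd_co.WNon
section

set_option autoImplicit false
set_option linter.unusedSectionVars false
set_option linter.unusedVariables false

namespace Pool.Agent.P.MP_4f3dfd_co.Win

open Finset Pool.Agent.P.MP_4f3dfd_co.Asy Pool.Agent.P.MP_4f3dfd_co.Off

theorem wnon_core {j n k N T r : ℕ} (hj : 1 ≤ j) (hk : 1 ≤ k) (hn : k + T ≤ n) (hT : j + 1 ≤ T)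
    (hrT : r ≤ T) {ι : Type} [Fintype ι] (hr : Fintype.card ι ≤ r) (s : ι → ℝ)
    (hs : ∀ i, 0 ≤ s i ∧ s i ≤ 1) (hN : (k + j).choose j * ∑ i, s i = N)
    (hW : N ≤ (k + j).choose (j + 1)) :
    ∃ G : Finset (Finset (Fin n)), (∀ X ∈ G, #X = k ∧ ∀ a ∈ X, a.val < k + T) ∧ #G = N ∧
      (#(shadow G) : ℝ) ≤ k * N / j - (k + j).choose (j + 1) * ∑ i, ph j (s i) +
        (r + r * (r + 2) * j) * (k + j).choose j := by
  classical
  let P : Finset (Fin n) := univ.filter fun a => a.val < k + T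
  have hP : #P = k + T := by
    simp only [P]
    rw [Fin.card_filter_val_lt, min_eq_right hn]
  obtain ⟨β⟩ : Nonempty (ι ↪ powersetCard (k + j) P) := by
    refine Function.Embedding.nonempty_of_card_le ?_
    have := choose_mid (x := k + T) (s := 1) (t := k + j) (by omega) (by omega)
    rw [Nat.choose_one_right] at this
    rw [Fintype.card_coe, card_powersetCard, hP]
    omega
  let B : ι → Finset (Fin n) := fun i => (β i).1
  have hB : Function.Injective B := Subtype.val_injective.comp β.injective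
  have hBP : ∀ i, B i ⊆ P ∧ #(B i) = k + j := fun i => mem_powersetCard.1 (β i).2
  have hsum : ∀ f : ℝ → ℝ, ∑ X ∈ univ.image B, f (Function.extend B s 0 X) = ∑ i, f (s i) :=
    fun f => by
      rw [sum_image fun _ _ _ _ h => hB h]
      exact sum_congr rfl fun i _ => by rw [hB.extend_apply]
  obtain ⟨J, A, j1, j2, j3, -, j5, -⟩ := exists_union hj hk (univ.image B)
    (fun X hX => by
      obtain ⟨i, -, rfl⟩ := mem_image.1 hX
      exact (hBP i).2) (Function.extend B s 0) (fun X hX => by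
      obtain ⟨i, -, rfl⟩ := mem_image.1 hX
      rw [hB.extend_apply]
      exact hs i)
  have h1 := hsum id
  simp only [id] at h1
  rw [h1, hN] at j2 j3
  rw [hsum (ps j)] at j5
  have hc : (#(univ.image B) : ℝ) ≤ r := by
    exact_mod_cast card_image_le.trans (card_univ.trans_le hr)
  have hJ : J ⊆ powersetCard k P := fun X hX => by
    obtain ⟨a1, Y, hY, a2⟩ := j1 X hX
    obtain ⟨i, -, rfl⟩ := mem_image.1 hY
    exact mem_powersetCard.2 ⟨a2.trans (hBP i).1, a1⟩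
  have hNP : N ≤ #(powersetCard k P) := by
    rw [card_powersetCard, hP]
    calc N ≤ (k + (j + 1)).choose (j + 1) := hW.trans (Nat.choose_le_choose _ (by omega))
      _ = (k + (j + 1)).choose k := Nat.choose_symm_add.symm
      _ ≤ _ := Nat.choose_le_choose _ (by omega)
  obtain ⟨G, g1, g2, g3⟩ := exists_subsuperset_card_eq hJ (by exact_mod_cast j3) hNP
  have hG : ∀ X ∈ G, #X = k ∧ ∀ a ∈ X, a.val < k + T := fun X hX =>
    ⟨(mem_powersetCard.1 (g2 hX)).2, fun a ha =>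
      (mem_filter.1 ((mem_powersetCard.1 (g2 hX)).1 ha)).2⟩
  refine ⟨G, hG, g3, ?_⟩
  have b1 := shadow_union_le J (G \ J) k fun X hX => (hG X (mem_sdiff.1 hX).1).1
  rw [union_sdiff_of_subset g1] at b1
  have b2 := card_sdiff_add_card_eq_card g1
  rw [g3] at b2
  have b1' : (#(shadow G) : ℝ) ≤ #(shadow J) + k * #(G \ J) := by exact_mod_cast b1
  have b2' : (#(G \ J) : ℝ) + #J = N := by exact_mod_cast b2
  have eW := W_eq k j
  have eu := u_eq k j hj
  have j0 : (0 : ℝ) < j := by exact_mod_cast hj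
  have k0 : (0 : ℝ) < k := by exact_mod_cast hk
  have r0 : (0 : ℝ) ≤ r := Nat.cast_nonneg r
  have f0 : (0 : ℝ) ≤ #(univ.image B) := Nat.cast_nonneg _
  have U0 : (0 : ℝ) ≤ (k + j).choose j := Nat.cast_nonneg _
  have W0 : (0 : ℝ) ≤ (k + j).choose (j + 1) := Nat.cast_nonneg _
  have u0 : (0 : ℝ) ≤ (k + j - 1).choose k := Nat.cast_nonneg _
  simp only [ps_eq] at j5
  rw [sum_sub_distrib, ← mul_sum] at j5
  generalize ((k + j).choose j : ℝ) = U at *
  generalize ((k + j).choose (j + 1) : ℝ) = W at *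
  generalize ((k + j - 1).choose k : ℝ) = u at *
  generalize (#(univ.image B) : ℝ) = f at *
  have c1 : W * ((1 + 1 / (j : ℝ)) * ∑ i, s i) = k * N / j := by
    rw [← hN, eq_div_iff j0.ne']
    have : W * ((1 + 1 / (j : ℝ)) * ∑ i, s i) * j = W * (j + 1) * ∑ i, s i := by field_simp
    rw [this, eW]
    ring
  have c2 : W * (f * ((j : ℝ) / k)) ≤ r * U := by
    have : W * (j / k) ≤ U := by
      rw [← mul_div_assoc, div_le_iff₀ k0]
      linarith
    calc W * (f * ((j : ℝ) / k)) = f * (W * (j / k)) := by ring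
      _ ≤ r * U := mul_le_mul hc this (by positivity) r0
  have c3 : k * (f * (f + 2) * u) ≤ r * (r + 2) * j * U := by
    have a1 : k * u ≤ j * U := by nlinarith only [mul_nonneg u0 j0.le, j0, u0, eu]
    have a2 : f * (f + 2) ≤ r * (r + 2) := mul_le_mul hc (by linarith) (by linarith) r0
    calc k * (f * (f + 2) * u) = f * (f + 2) * (k * u) := by ring
      _ ≤ r * (r + 2) * (j * U) := mul_le_mul a2 a1 (by positivity) (by positivity)
      _ = _ := by ring
  have c4 := mul_le_mul_of_nonneg_left (show (#(G \ J) : ℝ) ≤ f * (f + 2) * u by linarith only [b2', j2]) k0.le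
  linarith only [b1', j5, c1, c2, c3, c4]

/-- Families without regularity. -/
theorem nonreg {j : ℕ} (hj : 1 ≤ j) (R : ℕ) {η L ε : ℝ} (hη : 0 < η) (hε : 0 < ε) :
    ∃ T K : ℕ, ∀ n k N : ℕ, K ≤ k → k + T ≤ n → ∀ (I : Finset (Finset (Fin n)))
    (t : Finset (Fin n) → ℝ), #I ≤ R → (∀ i ∈ I, 0 ≤ t i ∧ t i ≤ 1) →
    (k + j).choose j * ∑ i ∈ I, t i ≤ N → η * (k + j).choose j ≤ N →
    N ≤ L * (k + j).choose j →
    ∃ G : Finset (Finset (Fin n)), (∀ X ∈ G, #X = k ∧ ∀ a ∈ X, a.val < k + T) ∧ #G = N ∧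
      (#(shadow G) : ℝ) ≤ k * N / j - (k + j).choose (j + 1) * ∑ i ∈ I, ph j (t i) +
        ε * (k * N) := by
  obtain ⟨R', hR'⟩ : ∃ R' : ℕ, R' = ⌈L⌉₊ + 1 := ⟨_, rfl⟩
  have hL : L ≤ R' := by
    rw [hR']
    push_cast
    linarith [Nat.le_ceil L]
  have R0 : (0 : ℝ) < R' := by exact_mod_cast (by omega : 0 < R')
  obtain ⟨r, hr⟩ : ∃ r : ℕ, r = R + R' := ⟨_, rfl⟩
  obtain ⟨K, hK⟩ := exists_nat_ge (((r : ℝ) + r * (r + 2) * j) / (η * ε))
  refine ⟨j + 1 + r, K + R' * (j + 1) + 1, fun n k N hk hn I t hI ht h1 h2 h3 => ?_⟩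
  have U0 : (0 : ℝ) < (k + j).choose j := by exact_mod_cast Nat.choose_pos (Nat.le_add_left j k)
  have s0 : 0 ≤ ∑ i ∈ I, t i := sum_nonneg fun i hi => (ht i hi).1
  obtain ⟨τ, hτ⟩ : ∃ τ : ℝ, τ = (N / (k + j).choose j - ∑ i ∈ I, t i) / R' := ⟨_, rfl⟩
  have τ0 : 0 ≤ τ := by
    rw [hτ]
    refine div_nonneg (sub_nonneg.2 ?_) R0.le
    rw [le_div_iff₀ U0]
    linarith
  have τ1 : τ ≤ 1 := by
    rw [hτ, div_le_one R0]
    have := (div_le_iff₀ U0).2 h3
    linarith
  have hW : N ≤ (k + j).choose (j + 1) := by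
    have a1 : (R' : ℝ) * (j + 1) ≤ k := by exact_mod_cast (by omega : R' * (j + 1) ≤ k)
    have a2 := mul_le_mul_of_nonneg_left a1 U0.le
    have a3 := mul_le_mul_of_nonneg_right hL U0.le
    rw [← W_eq, ← mul_assoc] at a2
    have a4 := le_of_mul_le_mul_right a2 (by positivity)
    have : (N : ℝ) ≤ (k + j).choose (j + 1) := by linarith
    exact_mod_cast this
  obtain ⟨G, g1, g2, g3⟩ := wnon_core (n := n) (N := N) (r := r) hj (by omega) hn (by omega)
    (by omega) (ι := I ⊕ Fin R')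
    (by rw [Fintype.card_sum, Fintype.card_coe, Fintype.card_fin]; omega)
    (Sum.elim (fun i => t i) fun _ => τ) (by
      rintro (i | i)
      · exact ht i i.2
      · exact ⟨τ0, τ1⟩) (by
      rw [Fintype.sum_sum_type]
      simp only [Sum.elim_inl, Sum.elim_inr]
      rw [sum_coe_sort I t, sum_const, card_univ, Fintype.card_fin, nsmul_eq_mul, hτ]
      field_simp
      ring) hW
  refine ⟨G, g1, g2, g3.trans ?_⟩
  rw [Fintype.sum_sum_type]
  simp only [Sum.elim_inl, Sum.elim_inr]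
  rw [sum_coe_sort I fun i => ph j (t i)]
  have c1 : 0 ≤ ((k + j).choose (j + 1) : ℝ) * ∑ _i : Fin R', ph j τ :=
    mul_nonneg (Nat.cast_nonneg _) (sum_nonneg fun _ _ => ph_nonneg hj τ1)
  have c2 : (K : ℝ) ≤ k := by exact_mod_cast (by omega : K ≤ k)
  have c3 := mul_le_mul_of_nonneg_right ((div_le_iff₀ (mul_pos hη hε)).1 (hK.trans c2)) U0.le
  have c4 := mul_le_mul_of_nonneg_left h2 (by positivity : 0 ≤ ε * k)
  linarith

end Pool.Agent.P.MP_4f3dfd_co.Win
end
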