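import Pool.Agent.K.MP_4f3dfd_co.C14

-- part Pool.Agent.P.MP_4f3dfd_co.WHi
section

set_option autoImplicit false
set_option linter.unusedSectionVars false
set_option linter.unusedVariables false

namespace Pool.Agent.P.MP_4f3dfd_co.Win

open Finset Pool.Agent.P.MP_4f3dfd_co.Asy Pool.Agent.P.MP_4f3dfd_co.Off

theorem whi_sum {n c j q : ℕ} (hn : n = c + q) (F : Finset (Finset (Fin n)))
    (hF : ∀ B ∈ F, #B = c + j) (f : Finset (Fin n) → ℝ) :
    ∑ v : Fin n, ∑ B ∈ F with v ∉ B, f B = ((q : ℝ) - j) * ∑ B ∈ F, f B := by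
  simp only [sum_filter]
  rw [sum_comm, mul_sum]
  refine sum_congr rfl fun B hB => ?_
  rw [← sum_filter, sum_const, nsmul_eq_mul]
  congr 1
  have h1 : ({v ∈ (univ : Finset (Fin n)) | v ∉ B}) = Bᶜ := by
    ext v
    simp
  have h2 := card_add_card_compl B
  rw [Fintype.card_fin, hF B hB] at h2
  have h3 : ((c + j + #Bᶜ : ℕ) : ℝ) = ((c + q : ℕ) : ℝ) := by rw [h2, hn]
  rw [h1]
  push_cast at h3
  linarith

theorem whi_point {n c j q : ℕ} (hn : n = c + q) (h0 : 1 ≤ n) (F : Finset (Finset (Fin n)))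
    (hF : ∀ B ∈ F, #B = c + j) (f : Finset (Fin n) → ℝ) :
    ∃ v : Fin n, ((q : ℝ) - j) * ∑ B ∈ F, f B ≤ n * ∑ B ∈ F with v ∉ B, f B := by
  have hne : (univ : Finset (Fin n)).Nonempty := ⟨⟨0, h0⟩, mem_univ _⟩
  have h1 : ∑ _v : Fin n, ((q : ℝ) - j) * ∑ B ∈ F, f B ≤
      ∑ v : Fin n, (n : ℝ) * ∑ B ∈ F with v ∉ B, f B := by
    rw [← mul_sum, ← mul_sum, whi_sum hn F hF f, sum_const, card_univ, Fintype.card_fin,
      nsmul_eq_mul]
    exact le_of_eq (by ring)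
  obtain ⟨v, -, hv⟩ := exists_le_of_sum_le hne h1
  exact ⟨v, hv⟩

theorem whi_U {c j : ℕ} (hj : 1 ≤ j) : c + 1 ≤ (c + j).choose j := by
  rw [← Nat.choose_symm_add]
  calc c + 1 = (c + 1).choose c := (Nat.choose_succ_self_right c).symm
    _ ≤ (c + j).choose c := Nat.choose_le_choose c (by omega)

theorem whi_alg {n q j c m e W S S' SI g ε δ : ℝ} (hq : 0 < q) (hn : 0 ≤ n) (hj : 1 ≤ j)
    (hW : 0 ≤ W) (hcm : 0 ≤ c * m) (hne : n * e = q * m)
    (hg : g ≤ c * e / j - W * SI + ε / 4 * (c * e)) (hv : (q - j) * S' ≤ n * SI)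
    (hS : j * (W * S') ≤ c * m) (htr : W * S ≤ W * S' + δ * (c * m)) (hδ : δ ≤ ε / 4)
    (hqε : 4 ≤ ε * q) :
    n * g / q ≤ c * m / j - W * S + 3 * ε / 4 * (c * m) := by
  rw [div_le_iff₀ hq]
  have a1 := mul_le_mul_of_nonneg_left hg hn
  have a2 : n * (c * e / j - W * SI + ε / 4 * (c * e)) =
      c * (n * e) / j - W * (n * SI) + ε / 4 * (c * (n * e)) := by ring
  rw [a2, hne] at a1
  have a3 := mul_le_mul_of_nonneg_left hv hW
  have a4 := mul_le_mul_of_nonneg_left htr hq.le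
  have a5 := mul_le_mul_of_nonneg_right hδ (mul_nonneg hq.le hcm)
  have a6 := mul_le_mul_of_nonneg_right hqε hcm
  have a7 : c * (q * m) / j = c * m / j * q := by ring
  rw [a7] at a1
  linarith only [hS, a1, a3, a4, a5, a6]

/-- The upper bound in a window, `c / n` close to `1`. -/
theorem up_hi {j : ℕ} (hj : 1 ≤ j) {η L ε : ℝ} (hη : 0 < η) (hε : 0 < ε) :
    ∃ K : ℕ, ∀ n c q m d e : ℕ, n = c + q → K ≤ q → K * q ≤ n → c * m = d * n →
    d + e = m → η * (c + j).choose j ≤ e → (e : ℝ) ≤ L * (c + j).choose j →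
    ∀ t, Pk n c j d e t → ∃ J : Finset (Finset (Fin n)), Rg c m d J ∧
      (#(shadow J) : ℝ) ≤ Phi c m j (val n c j t) + ε * (c * m) := by
  obtain ⟨δ, hδ0, hδ1, hδ2⟩ : ∃ δ : ℝ, 0 < δ ∧ δ ≤ 1 / 2 ∧ δ ≤ ε / 4 :=
    ⟨min (1 / 2) (ε / 4), lt_min (by norm_num) (by positivity), min_le_left _ _,
      min_le_right _ _⟩
  obtain ⟨T, K1, hK1⟩ := nonreg (L := L) hj ⌈L / δ⌉₊ hη (show 0 < ε / 4 by positivity)
  obtain ⟨L0, hL6, hL0⟩ : ∃ L0 : ℕ, 6 ≤ L0 ∧ 20 / ε ≤ L0 :=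
    ⟨⌈20 / ε⌉₊ + 6, by omega, by
      have := Nat.le_ceil (20 / ε)
      push_cast
      linarith⟩
  obtain ⟨K2, hK2⟩ := upper_co L0 (T + j + 1) hL6
  refine ⟨K1 + K2 + T + j + ⌈4 / ε⌉₊ + ⌈(L0 : ℝ) / η⌉₊ + ⌈L⌉₊ + 2, ?_⟩
  intro n c q m d e hn hq hqn hdm hde hlo hhi t ht
  obtain ⟨K, hK⟩ : ∃ K, K = K1 + K2 + T + j + ⌈4 / ε⌉₊ + ⌈(L0 : ℝ) / η⌉₊ + ⌈L⌉₊ + 2 := ⟨_, rfl⟩
  rw [← hK] at hq hqn
  have hc : K ≤ c := by
    have h1 : 2 * q ≤ K * q := Nat.mul_le_mul_right _ (by omega)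
    omega
  have hn1 : 1 ≤ n := by omega
  have hq0 : (0 : ℝ) < q := by exact_mod_cast (show 0 < q by omega)
  have hU1 : c + 1 ≤ (c + j).choose j := whi_U hj
  have hU0 : (0 : ℝ) < (c + j).choose j := by exact_mod_cast (show 0 < (c + j).choose j by omega)
  have hW0 : (0 : ℝ) ≤ (c + j).choose (j + 1) := Nat.cast_nonneg _
  have hj' : (1 : ℝ) ≤ j := by exact_mod_cast hj
  have hm : (d : ℝ) + e = m := by exact_mod_cast hde
  have hcm : (0 : ℝ) ≤ c * m := by positivity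
  have hne : (n : ℝ) * e = q * m := by
    have h1 : (c : ℝ) * m = d * n := by exact_mod_cast hdm
    have h2 : (n : ℝ) = c + q := by exact_mod_cast hn
    have h3 : (n : ℝ) * m = c * m + q * m := by rw [h2]; ring
    have h4 : (n : ℝ) * m = n * d + n * e := by rw [← hm]; ring
    linarith only [h1, h3, h4]
  obtain ⟨F, hF, hFv, -, htr⟩ := ht.trim hj hn1 hδ0 hδ1
  rw [hm] at htr
  obtain ⟨v, hv⟩ := whi_point hn hn1 F (fun B hB => (hF B hB).1) (fun B => ph j (t B))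
  have hI : #{B ∈ F | v ∉ B} ≤ ⌈L / δ⌉₊ := by
    have h1 : (#{B ∈ F | v ∉ B} : ℝ) * δ ≤ ∑ B ∈ F with v ∉ B, t B := by
      rw [← nsmul_eq_mul]
      exact card_nsmul_le_sum _ _ _ fun B hB => (hF B (mem_filter.1 hB).1).2
    have h2 : ∑ B ∈ F with v ∉ B, t B ≤ L := by
      refine le_of_mul_le_mul_left ?_ hU0
      have := (hFv v).2
      linarith
    have h3 : (#{B ∈ F | v ∉ B} : ℝ) ≤ ⌈L / δ⌉₊ :=
      ((le_div_iff₀ hδ0).2 (h1.trans h2)).trans (Nat.le_ceil _)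
    exact_mod_cast h3
  obtain ⟨G, hG, hGe, hGs⟩ := hK1 n c e (by omega) (by omega) {B ∈ F | v ∉ B} t hI
    (fun B _ => ht.1 B) (hFv v).2 hlo hhi
  have hLe : L0 ≤ e := by
    have h1 : (L0 : ℝ) / η ≤ (c + j).choose j := by
      refine (Nat.le_ceil _).trans ?_
      exact_mod_cast (show ⌈(L0 : ℝ) / η⌉₊ ≤ (c + j).choose j by omega)
    have h2 := (div_le_iff₀ hη).1 h1
    have h3 : (L0 : ℝ) ≤ e := by linarith only [hlo, h2]
    exact_mod_cast h3
  have heT : e ≤ n ^ (T + j + 1) := by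
    have h1 : (c + j).choose j ≤ n ^ j :=
      (Nat.choose_le_pow _ _).trans (Nat.pow_le_pow_left (by omega) _)
    have h2 : L ≤ n := by
      refine (Nat.le_ceil _).trans ?_
      exact_mod_cast (show ⌈L⌉₊ ≤ n by omega)
    have h3 : (e : ℝ) ≤ (n * (c + j).choose j : ℕ) := by
      push_cast
      exact hhi.trans (mul_le_mul_of_nonneg_right h2 hU0.le)
    have h4 : e ≤ n * (c + j).choose j := by exact_mod_cast h3
    calc e ≤ n * n ^ j := h4.trans (Nat.mul_le_mul_left _ h1)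
      _ = n ^ (j + 1) := by ring
      _ ≤ n ^ (T + j + 1) := Nat.pow_le_pow_right hn1 (by omega)
  obtain ⟨J, hJ1, hJ2, hJ3, hJ4⟩ := hK2 n c q m d e hn (by omega)
    ((Nat.mul_le_mul_right _ (by omega)).trans hqn) hdm hde hLe heT G
    (fun X hX => ⟨(hG X hX).1, fun a ha => by have := (hG X hX).2 a ha; omega⟩) hGe
  refine ⟨J, ⟨hJ1, hJ2, hJ3⟩, hJ4.trans ?_⟩
  have hS : (j : ℝ) * (((c + j).choose (j + 1) : ℝ) * ∑ B ∈ F, ph j (t B)) ≤ c * m := by
    have h1 : (j : ℝ) * ∑ B ∈ F, ph j (t B) ≤ ∑ B ∈ F, t B := by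
      rw [mul_sum]
      refine sum_le_sum fun B _ => ?_
      have a1 := ph_le_sq hj (ht.1 B).1 (ht.1 B).2
      rw [le_div_iff₀ (by linarith only [hδ0, hδ1, hj'])] at a1
      have a2 : t B ^ 2 ≤ t B := by nlinarith only [(ht.1 B).1, (ht.1 B).2, hδ0, hδ1]
      linarith only [a1, a2]
    have h2 : ((c + j).choose j : ℝ) * ∑ B ∈ F, t B ≤ m := by
      rw [← sum_filter_add_sum_filter_not F (fun B => v ∈ B), mul_add, ← hm]
      exact add_le_add (hFv v).1 (hFv v).2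
    have h3 : ((c + j).choose (j + 1) : ℝ) ≤ (c + j).choose j * c := by
      rw [← W_eq]
      exact le_mul_of_one_le_right hW0 (by linarith only [hδ0, hδ1, hj'])
    have h4 : 0 ≤ ∑ B ∈ F, t B := sum_nonneg fun B _ => (ht.1 B).1
    have h5 := mul_le_mul_of_nonneg_left h1 hW0
    have h6 := mul_le_mul_of_nonneg_right h3 h4
    have h7 := mul_le_mul_of_nonneg_left h2 (Nat.cast_nonneg (α := ℝ) c)
    linarith only [h5, h6, h7]
  have hqε : 4 ≤ ε * q := by
    have h1 : 4 / ε ≤ q := by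
      refine (Nat.le_ceil _).trans ?_
      exact_mod_cast (show ⌈4 / ε⌉₊ ≤ q by omega)
    have h2 := (div_le_iff₀ hε).1 h1
    linarith only [h2]
  have key := whi_alg hq0 (Nat.cast_nonneg n) hj' hW0 hcm hne hGs hv hS htr hδ2 hqε
  have hL5 : 5 / (L0 : ℝ) ≤ ε / 4 := by
    have h1 : (0 : ℝ) < L0 := by exact_mod_cast (show 0 < L0 by omega)
    have h2 := (div_le_iff₀ hε).1 hL0
    rw [div_le_iff₀ h1]
    linarith only [h2]
  have h8 := mul_le_mul_of_nonneg_right hL5 hcm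
  unfold Phi
  linarith only [key, h8]

end Pool.Agent.P.MP_4f3dfd_co.Win
end

-- part Pool.Agent.P.MP_4f3dfd_co.WLo
section

set_option autoImplicit false
set_option linter.unusedSectionVars false
set_option linter.unusedVariables false

namespace Pool.Agent.P.MP_4f3dfd_co.Win

open Finset Pool.Agent.P.MP_4f3dfd_co.Asy Pool.Agent.P.MP_4f3dfd_co.Off

theorem wlo_avg {n N : ℕ} (hn : 1 ≤ n) (F : Finset (Finset (Fin n))) (hF : ∀ B ∈ F, #B = N)
    (f : Finset (Fin n) → ℝ) :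
    ∃ v : Fin n, (N : ℝ) * ∑ B ∈ F, f B ≤ n * ∑ B ∈ F with v ∈ B, f B := by
  have : Nonempty (Fin n) := ⟨⟨0, hn⟩⟩
  have h1 : ∑ v : Fin n, ∑ B ∈ F with v ∈ B, f B = N * ∑ B ∈ F, f B := by
    simp only [sum_filter]
    rw [sum_comm, mul_sum]
    refine sum_congr rfl fun B hB => ?_
    rw [← sum_filter, sum_const, filter_mem_eq_inter, univ_inter, hF B hB, nsmul_eq_mul]
  obtain ⟨v, -, hv⟩ := exists_le_of_sum_le (s := (univ : Finset (Fin n)))
    (f := fun _ => (N : ℝ) * ∑ B ∈ F, f B) (g := fun v => n * ∑ B ∈ F with v ∈ B, f B)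
    univ_nonempty (by
      rw [sum_const, ← mul_sum univ, h1, card_univ, Fintype.card_fin, nsmul_eq_mul])
  exact ⟨v, hv⟩

theorem wlo_U (k j : ℕ) :
    ((k + j).choose j : ℝ) * (k + j + 1) = (k + 1 + j).choose j * (k + 1) := by
  have h := Nat.choose_mul_succ_eq (k + j) j
  rw [show k + j + 1 - j = k + 1 by omega] at h
  rw [show k + 1 + j = k + j + 1 by omega]
  exact_mod_cast h

theorem wlo_W (k j : ℕ) :
    ((k + j).choose (j + 1) : ℝ) * (k + j + 1) = (k + 1 + j).choose (j + 1) * k := by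
  have h := Nat.choose_mul_succ_eq (k + j) (j + 1)
  rw [show k + j + 1 - (j + 1) = k by omega] at h
  rw [show k + 1 + j = k + j + 1 by omega]
  exact_mod_cast h

/-- The upper bound in a window, `c / n` small. -/
theorem up_lo {j : ℕ} (hj : 1 ≤ j) {η L ε : ℝ} (hη : 0 < η) (hε : 0 < ε) :
    ∃ K : ℕ, ∀ n c m d e : ℕ, K ≤ c → K * c ≤ n → c * m = d * n →
    d + e = m → η * (c + j).choose j ≤ d → (d : ℝ) ≤ L * (c + j).choose j →
    ∀ t, Pk n c j d e t → ∃ J : Finset (Finset (Fin n)), Rg c m d J ∧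
      (#(shadow J) : ℝ) ≤ Phi c m j (val n c j t) + ε * (c * m) := by
  obtain ⟨δ, hδ0, hδ1, hδ2⟩ : ∃ δ : ℝ, 0 < δ ∧ δ ≤ 1 / 2 ∧ δ ≤ ε / 4 :=
    ⟨min (1 / 2) (ε / 4), by positivity, min_le_left _ _, min_le_right _ _⟩
  obtain ⟨T, K1, h1⟩ := nonreg hj ⌈L / δ⌉₊ (L := 2 * |L|) hη hδ0
  obtain ⟨K2, h2⟩ := upperC' ⌈2 / δ⌉₊ j
  refine ⟨K1 + 2 * K2 + T + j + ⌈L * (j + 1)⌉₊ + 2, ?_⟩
  intro n c m d e hc hn hcm hde hlo hhi t ht
  obtain ⟨k, rfl⟩ : ∃ k, c = k + 1 := ⟨c - 1, by omega⟩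
  have hn1 : (T + 1) * (k + 1) ≤ n := le_trans (Nat.mul_le_mul_right _ (by omega)) hn
  have hn2 : 2 * K2 * (k + 1) ≤ n := le_trans (Nat.mul_le_mul_right _ (by omega)) hn
  have hkT : k + T + 1 ≤ n := by nlinarith only [hn1]
  have hK2 : K2 * (k + 1 + j) ≤ n :=
    le_trans (Nat.mul_le_mul_left K2 (show k + 1 + j ≤ 2 * (k + 1) by omega)) (by linarith)
  obtain ⟨F, hF, hv, -, hval⟩ := ht.trim hj (by omega) hδ0 hδ1
  obtain ⟨v, hS⟩ := wlo_avg (by omega) F (fun B hB => (hF B hB).1) fun B => ph j (t B)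
  have hI := (hv v).1
  have hS0 : 0 ≤ ∑ B ∈ F, ph j (t B) := sum_nonneg fun B _ => ph_nonneg hj (ht.1 B).2
  set I := F.filter (fun B => v ∈ B) with hIdef
  have ht0 : 0 ≤ ∑ B ∈ I, t B := sum_nonneg fun B _ => (ht.1 B).1
  have eU := wlo_U k j
  have eW := wlo_W k j
  have eV := W_eq (k + 1) j
  have hU0 : (0 : ℝ) < (k + 1 + j).choose j := by
    exact_mod_cast Nat.choose_pos (by omega)
  have hUk : (0 : ℝ) ≤ (k + j).choose j := Nat.cast_nonneg _
  have hk0 : (0 : ℝ) < k := by exact_mod_cast (by omega : 0 < k)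
  have hj1 : (1 : ℝ) ≤ j := by exact_mod_cast hj
  have hjk : (j : ℝ) ≤ k + 1 := by exact_mod_cast (by omega : j ≤ k + 1)
  have hU1 : ((k + j).choose j : ℝ) ≤ (k + 1 + j).choose j := by
    exact_mod_cast Nat.choose_le_choose j (by omega)
  have hU2 : ((k + 1 + j).choose j : ℝ) ≤ 2 * (k + j).choose j := by
    refine le_of_mul_le_mul_right ?_ (show (0 : ℝ) < k + 1 by positivity)
    nlinarith only [eU, hjk]
  have hR : #I ≤ ⌈L / δ⌉₊ := by
    have a1 : δ * #I ≤ ∑ B ∈ I, t B := by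
      rw [mul_comm, ← nsmul_eq_mul]
      exact card_nsmul_le_sum _ _ _ fun B hB => (hF B (mem_filter.1 hB).1).2
    have a2 : ∑ B ∈ I, t B ≤ L := le_of_mul_le_mul_left (by linarith) hU0
    have a3 : (#I : ℝ) ≤ L / δ := by
      rw [le_div_iff₀ hδ0]
      linarith
    exact_mod_cast a3.trans (Nat.le_ceil _)
  obtain ⟨G, hG, hGd, hg⟩ := h1 n k d (by omega) (by omega) I t hR (fun B _ => ht.1 B)
    ((mul_le_mul_of_nonneg_right hU1 ht0).trans hI)
    ((mul_le_mul_of_nonneg_left hU1 hη.le).trans hlo)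
    (by
      have a1 := mul_le_mul_of_nonneg_right (le_abs_self L) hU0.le
      have a2 := mul_le_mul_of_nonneg_left hU2 (abs_nonneg L)
      linarith)
  have hdW : d ≤ (k + 1 + j).choose k := by
    have a1 : L * (j + 1) ≤ (k : ℝ) + 1 :=
      (Nat.le_ceil _).trans (by exact_mod_cast (by omega : ⌈L * (j + 1)⌉₊ ≤ k + 1))
    have a2 : (d : ℝ) ≤ (k + 1 + j).choose (j + 1) := by
      refine le_of_mul_le_mul_right ?_ (show (0 : ℝ) < j + 1 by positivity)
      have a3 := mul_le_mul_of_nonneg_left a1 hU0.le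
      have a4 := mul_le_mul_of_nonneg_right hhi (show (0 : ℝ) ≤ j + 1 by positivity)
      push_cast at eV
      linarith only [a3, a4, eV]
    rw [Nat.choose_symm_of_eq_add (show k + 1 + j = k + (j + 1) by omega)]
    exact_mod_cast a2
  obtain ⟨J, j1, j2, j3, j4⟩ := h2 n k j m d (by omega) le_rfl hK2 hcm hdW G
    (fun X hX => (hG X hX).1) hGd
  refine ⟨J, ⟨j1, j2, j3⟩, ?_⟩
  have j5 : (⌈2 / δ⌉₊ : ℝ) * (k * #(shadow J)) ≤ (⌈2 / δ⌉₊ + 2) * (n * #(shadow G)) := by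
    exact_mod_cast j4
  have hL0 : 2 ≤ δ * ⌈2 / δ⌉₊ := by
    have := Nat.le_ceil (2 / δ)
    rw [div_le_iff₀ hδ0] at this
    linarith only [this]
  have hL1 : (0 : ℝ) < ⌈2 / δ⌉₊ := by
    by_contra a
    nlinarith only [not_lt.1 a, hδ0, hδ1, hL0, a]
  have hcm' : ((k : ℝ) + 1) * m = d * n := by exact_mod_cast hcm
  have hde' : (d : ℝ) + e = m := by exact_mod_cast hde
  unfold Phi
  push_cast at hS hval ⊢
  rw [hde'] at hval
  generalize (⌈2 / δ⌉₊ : ℝ) = L0 at j5 hL0 hL1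
  generalize ((k + 1 + j).choose (j + 1) : ℝ) * val n (k + 1) j t = A at hval ⊢
  have hW0 : (0 : ℝ) ≤ (k + 1 + j).choose (j + 1) := Nat.cast_nonneg _
  have hWk : (0 : ℝ) ≤ (k + j).choose (j + 1) := Nat.cast_nonneg _
  have hM0 : (0 : ℝ) ≤ ((k : ℝ) + 1) * m := by positivity
  have hn0 : (0 : ℝ) ≤ n := Nat.cast_nonneg n
  set M : ℝ := ((k : ℝ) + 1) * m with hM
  set S := ∑ B ∈ F, ph j (t B)
  set Y : ℝ := M / j - (k + 1 + j).choose (j + 1) * S + δ * M with hY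
  have b1 : (n : ℝ) * #(shadow G) ≤ k * Y := by
    have a1 := mul_le_mul_of_nonneg_left hg hn0
    have a2 := mul_le_mul_of_nonneg_left hS hWk
    have a3 : (n : ℝ) * (k * d / j - (k + j).choose (j + 1) * ∑ i ∈ I, ph j (t i) + δ * (k * d)) =
        k * (M / j) - (k + j).choose (j + 1) * (n * ∑ i ∈ I, ph j (t i)) + k * (δ * M) := by
      rw [hcm']
      ring
    have a4 : ((k + j).choose (j + 1) : ℝ) * ((k + 1 + j) * S) =
        k * ((k + 1 + j).choose (j + 1) * S) := by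
      linear_combination S * eW
    rw [hY]
    linarith only [a1, a2, a3, a4]
  have b2 : L0 * #(shadow J) ≤ (L0 + 2) * Y := by
    refine le_of_mul_le_mul_left ?_ hk0
    have a1 := mul_le_mul_of_nonneg_left b1 (show 0 ≤ L0 + 2 by linarith only [hδ0, hδ1, hL1])
    linarith only [j5, a1]
  have b3 : Y ≤ 2 * M := by
    have a1 : M / j ≤ M := div_le_self hM0 hj1
    have a2 := mul_nonneg hW0 hS0
    have a3 := mul_le_mul_of_nonneg_right hδ1 hM0
    linarith only [hM0, a1, a2, a3]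
  have b4 : (#(shadow J) : ℝ) ≤ Y + 2 * (δ * M) := by
    refine le_of_mul_le_mul_left ?_ hL1
    have a1 := mul_le_mul_of_nonneg_right hL0 hM0
    linarith only [b2, b3, a1]
  have b5 := mul_le_mul_of_nonneg_right hδ2 hM0
  linarith only [hval, b4, b5]

end Pool.Agent.P.MP_4f3dfd_co.Win
end

-- part Pool.Agent.P.MP_4f3dfd_co.WMid
section

set_option autoImplicit false
set_option linter.unusedSectionVars false
set_option linter.unusedVariables false

namespace Pool.Agent.P.MP_4f3dfd_co.Win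

open Finset Pool.Agent.P.MP_4f3dfd_co.Asy Pool.Agent.P.MP_4f3dfd_co.Off

theorem wmid_sum {n k : ℕ} (F : Finset (Finset (Fin n))) (hF : ∀ B ∈ F, #B = k)
    (f : Finset (Fin n) → ℝ) :
    ∑ v : Fin n, ∑ B ∈ F with v ∈ B, f B = k * ∑ B ∈ F, f B := by
  simp_rw [sum_filter]
  rw [sum_comm, mul_sum]
  refine sum_congr rfl fun B hB => ?_
  rw [sum_ite_mem, univ_inter, sum_const, hF B hB, nsmul_eq_mul]

theorem wmid_union {n : ℕ} {F F' G G' : Finset (Finset (Fin n))} (h : Disjoint F F')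
    (hG : G ⊆ F) (hG' : G' ⊆ F') (f : Finset (Fin n) → ℝ) (τ : ℝ) (g : ℝ → ℝ) :
    ∑ B ∈ G ∪ G', g (if B ∈ F then f B else τ) = ∑ B ∈ G, g (f B) + #G' * g τ := by
  rw [sum_union (h.mono hG hG')]
  congr 1
  · exact sum_congr rfl fun B hB => by rw [if_pos (hG hB)]
  · rw [← nsmul_eq_mul, ← sum_const]
    exact sum_congr rfl fun B hB => by rw [if_neg (disjoint_right.1 h (hG' hB))]

theorem wmid_pow {n c j m : ℕ} {a L : ℝ} (ha : 0 < a) (h1 : c + j ≤ n) (h2 : L ≤ a * c)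
    (h3 : a * m ≤ L * (c + j).choose j) : m ≤ n ^ (j + 1) := by
  have hU : (c + j).choose j ≤ n ^ j :=
    (Nat.choose_le_pow _ _).trans (Nat.pow_le_pow_left h1 j)
  have hU0 : (0 : ℝ) ≤ (c + j).choose j := Nat.cast_nonneg _
  have h4 : a * m ≤ a * (c * (c + j).choose j) := by
    have := mul_le_mul_of_nonneg_right h2 hU0
    linarith
  have h5 : (m : ℝ) ≤ c * (c + j).choose j := le_of_mul_le_mul_left h4 ha
  have h6 : m ≤ c * (c + j).choose j := by exact_mod_cast h5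
  calc m ≤ c * (c + j).choose j := h6
    _ ≤ n * n ^ j := Nat.mul_le_mul (by omega) hU
    _ = n ^ (j + 1) := by ring

theorem wmid_margin {δ b N x y w : ℝ} (hδ : 0 < δ) (hδ1 : δ ≤ 1) (hw : 0 ≤ w) (hN0 : 0 < N)
    (hN : 10 ≤ δ * b * N) (hx : b ≤ x) (hy : y ≤ x * N + 5) (hy0 : 0 ≤ y) :
    b / 2 * (δ * w) ≤ x * w - (1 - δ) * w / N * y := by
  have h0 : 0 ≤ (1 - δ) * w / N := div_nonneg (mul_nonneg (by linarith) hw) hN0.le
  have h1 : (1 - δ) * w / N * y ≤ (1 - δ) * w / N * (x * N + 5) :=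
    mul_le_mul_of_nonneg_left hy h0
  have h2 : (1 - δ) * w / N * (x * N + 5) = (1 - δ) * w * x + 5 * ((1 - δ) * w / N) := by
    field_simp
  have h3 : (1 - δ) * w / N ≤ δ * b * w / 10 := by
    rw [div_le_iff₀ hN0]
    have := mul_le_mul_of_nonneg_right hN hw
    have h4 : 0 ≤ δ * w := mul_nonneg hδ.le hw
    nlinarith only [this, h4]
  have h5 : b * (δ * w) ≤ x * (δ * w) := mul_le_mul_of_nonneg_right hx (mul_nonneg hδ.le hw)
  nlinarith only [h1, h2, h3, h5]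

/-- The upper bound in a window, `c / n` bounded away from `0` and `1`. -/
theorem up_mid {j : ℕ} (hj : 1 ≤ j) {a η L ε : ℝ} (ha : 0 < a) (hη : 0 < η) (hε : 0 < ε) :
    ∃ K : ℕ, ∀ n c m d e : ℕ, K ≤ c → a * n ≤ c → (c : ℝ) ≤ (1 - a) * n → c * m = d * n →
    d + e = m → η * (c + j).choose j ≤ min (d : ℝ) e → min (d : ℝ) e ≤ L * (c + j).choose j →
    ∀ t, Pk n c j d e t → ∃ J : Finset (Finset (Fin n)), Rg c m d J ∧
      (#(shadow J) : ℝ) ≤ Phi c m j (val n c j t) + ε * (c * m) := by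
  obtain ⟨δ, hδ0, hδ1, hδ2⟩ : ∃ δ : ℝ, 0 < δ ∧ δ ≤ 1 / 2 ∧ δ ≤ ε / 4 :=
    ⟨min (1 / 2) (ε / 4), lt_min (by norm_num) (by linarith), min_le_left _ _, min_le_right _ _⟩
  have hb0 : 0 < δ * a := mul_pos hδ0 ha
  obtain ⟨R, hR⟩ : ∃ R : ℕ, L ≤ a * δ * R := by
    obtain ⟨R, hR⟩ := exists_nat_ge (L / (a * δ))
    exact ⟨R, by rw [div_le_iff₀ (mul_pos ha hδ0)] at hR; linarith⟩
  obtain ⟨N, hN1, hN2⟩ : ∃ N : ℕ, L ≤ a * N ∧ 10 ≤ δ * (δ * a) * N := by
    obtain ⟨N1, h1⟩ := exists_nat_ge (L / a)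
    obtain ⟨N2, h2⟩ := exists_nat_ge (10 / (δ * (δ * a)))
    rw [div_le_iff₀ ha] at h1
    rw [div_le_iff₀ (mul_pos hδ0 hb0)] at h2
    refine ⟨N1 + N2, ?_, ?_⟩
    · have : 0 ≤ a * (N2 : ℝ) := mul_nonneg ha.le (Nat.cast_nonneg _)
      push_cast; linarith
    · have : 0 ≤ δ * (δ * a) * (N1 : ℝ) := mul_nonneg (mul_pos hδ0 hb0).le (Nat.cast_nonneg _)
      push_cast; linarith
  obtain ⟨h, hh⟩ : ∃ h : ℕ, (j : ℝ) ≤ δ * h := by
    obtain ⟨h, hh⟩ := exists_nat_ge ((j : ℝ) / δ)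
    exact ⟨h, by rw [div_le_iff₀ hδ0] at hh; linarith⟩
  have hN0 : (0 : ℝ) < N := by
    by_contra hc
    have : δ * (δ * a) * (N : ℝ) ≤ 0 :=
      mul_nonpos_of_nonneg_of_nonpos (mul_pos hδ0 hb0).le (not_lt.1 hc)
    linarith
  have hN6 : 6 ≤ δ * a * N := by
    have : δ * (δ * a * N) ≤ 1 / 2 * (δ * a * N) :=
      mul_le_mul_of_nonneg_right hδ1 (mul_pos hb0 hN0).le
    linarith
  obtain ⟨K1, hK1⟩ := dust_sets R N (j + h) hN6
  obtain ⟨K2, hK2⟩ := finish hj (R + N) (j + 1) (β := δ * a / 2) (γ := δ * δ * η) (ε := 1)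
    (by linarith) (mul_pos (mul_pos hδ0 hδ0) hη) one_pos
  obtain ⟨K3, hK3⟩ : ∃ K3 : ℕ, (j : ℝ) ≤ a * K3 := by
    obtain ⟨h, hh⟩ := exists_nat_ge ((j : ℝ) / a)
    exact ⟨h, by rw [div_le_iff₀ ha] at hh; linarith⟩
  refine ⟨K1 + K2 + K3 + N + 1, fun n c m d e hK hc1 hc2 hcm hde hlo hhi t ht => ?_⟩
  have hc0 : (1 : ℝ) ≤ c := by exact_mod_cast (by omega : 1 ≤ c)
  have hn0' : (0 : ℝ) ≤ n := Nat.cast_nonneg _
  have han : 0 ≤ a * n := mul_nonneg ha.le hn0'
  have hcn : (c : ℝ) ≤ n := by linarith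
  have hcn' : c ≤ n := by exact_mod_cast hcn
  have hn0 : (0 : ℝ) < n := by linarith
  have hn1 : 1 ≤ n := by omega
  have hcj : c + j ≤ n := by
    have h1 : (K3 : ℝ) ≤ n := by exact_mod_cast (by omega : K3 ≤ n)
    have h2 : a * K3 ≤ a * n := mul_le_mul_of_nonneg_left h1 ha.le
    have h3 : (c : ℝ) + j ≤ n := by linarith
    exact_mod_cast h3
  have hLc : L ≤ a * c := by
    have h1 : (N : ℝ) ≤ c := by exact_mod_cast (by omega : N ≤ c)
    exact hN1.trans (mul_le_mul_of_nonneg_left h1 ha.le)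
  have hcm' : (c : ℝ) * m = d * n := by exact_mod_cast hcm
  have hde' : (d : ℝ) + e = m := by exact_mod_cast hde
  have hm0 : (0 : ℝ) ≤ m := Nat.cast_nonneg _
  have hd0 : (0 : ℝ) ≤ d := Nat.cast_nonneg _
  have he0 : (0 : ℝ) ≤ e := Nat.cast_nonneg _
  have hda : a * m ≤ d := by
    have h1 : a * n * m ≤ c * m := mul_le_mul_of_nonneg_right hc1 hm0
    have h2 : a * m * n ≤ d * n := by linarith
    exact le_of_mul_le_mul_right h2 hn0
  have hea : a * m ≤ e := by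
    have h1 : (c : ℝ) * m ≤ (1 - a) * n * m := mul_le_mul_of_nonneg_right hc2 hm0
    have h3 : (e : ℝ) * n = m * n - d * n := by rw [← hde']; ring
    have h2 : a * m * n ≤ e * n := by linarith
    exact le_of_mul_le_mul_right h2 hn0
  have hmL : a * m ≤ L * (c + j).choose j := (le_min hda hea).trans hhi
  have hmη : η * (c + j).choose j ≤ m := hlo.trans ((min_le_left _ _).trans (by linarith))
  have hmP := wmid_pow ha hcj hLc hmL
  have hW := W_eq c j
  have hU0 : (0 : ℝ) < (c + j).choose j := by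
    exact_mod_cast Nat.choose_pos (by omega : j ≤ c + j)
  have hW0 : (0 : ℝ) ≤ (c + j).choose (j + 1) := Nat.cast_nonneg _
  obtain ⟨F, hF1, hF2, hF3, -⟩ := ht.trim hj hn1 hδ0 hδ1
  set U : ℝ := ((c + j).choose j : ℝ) with hUdef
  set W : ℝ := ((c + j).choose (j + 1) : ℝ) with hWdef
  have hm1 : 0 < (m : ℝ) := lt_of_lt_of_le (mul_pos hη hU0) hmη
  have hsplit : ∀ v : Fin n, ∑ B ∈ F with v ∈ B, t B + ∑ B ∈ F with v ∉ B, t B = ∑ B ∈ F, t B :=
    fun v => sum_filter_add_sum_filter_not F (fun B => v ∈ B) t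
  set T : ℝ := ∑ B ∈ F, t B with hTdef
  have hT0 : 0 ≤ T := sum_nonneg fun B _ => (ht.1 B).1
  have hUT : U * T ≤ m := by
    have h1 := hF2 ⟨0, by omega⟩
    rw [← hsplit ⟨0, by omega⟩]
    linarith [h1.1, h1.2]
  have hUT0 : 0 ≤ U * T := mul_nonneg hU0.le hT0
  have hFR : #F ≤ R := by
    have h1 : (#F : ℝ) * δ ≤ T := by
      have := card_nsmul_le_sum F t δ fun B hB => (hF1 B hB).2
      rwa [nsmul_eq_mul] at this
    have h2 : a * (U * (#F * δ)) ≤ a * (U * T) :=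
      mul_le_mul_of_nonneg_left (mul_le_mul_of_nonneg_left h1 hU0.le) ha.le
    have h3 : a * (U * T) ≤ a * m := mul_le_mul_of_nonneg_left hUT ha.le
    have h4 : L * U ≤ a * δ * R * U := mul_le_mul_of_nonneg_right hR hU0.le
    have h5 : (#F : ℝ) * (a * δ * U) ≤ R * (a * δ * U) := by linarith
    have h6 := le_of_mul_le_mul_right h5 (mul_pos (mul_pos ha hδ0) hU0)
    exact_mod_cast h6
  obtain ⟨w, hw⟩ : ∃ w : ℝ, w = m - (1 - δ) * (U * T) := ⟨_, rfl⟩
  have hδT : (1 - δ) * (U * T) ≤ (1 - δ) * m := mul_le_mul_of_nonneg_left hUT (by linarith)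
  have hδT0 : 0 ≤ (1 - δ) * (U * T) := mul_nonneg (by linarith) hUT0
  have hw1 : δ * m ≤ w := by linarith
  have hw2 : w ≤ m := by linarith
  have hw0 : 0 < w := lt_of_lt_of_le (mul_pos hδ0 hm1) hw1
  obtain ⟨A, hA⟩ : ∃ A : Fin n → ℝ, ∀ v, A v = (d - (1 - δ) * (U * ∑ B ∈ F with v ∈ B, t B)) / w :=
    ⟨_, fun v => rfl⟩
  have hA1 : ∀ v, A v * w = d - (1 - δ) * (U * ∑ B ∈ F with v ∈ B, t B) := fun v => by
    rw [hA v, div_mul_cancel₀ _ hw0.ne']
  have hA2 : ∀ v, (1 - A v) * w = e - (1 - δ) * (U * ∑ B ∈ F with v ∉ B, t B) := fun v => by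
    have h1 := hA1 v
    have h2 : (1 - δ) * (U * T) = (1 - δ) * (U * ∑ B ∈ F with v ∈ B, t B) +
        (1 - δ) * (U * ∑ B ∈ F with v ∉ B, t B) := by rw [← hsplit v]; ring
    linarith only [hde', hw, h1, h2]
  have hbw : δ * a * w ≤ δ * (a * m) := by
    have := mul_le_mul_of_nonneg_left hw2 hb0.le
    linarith
  have hA3 : ∀ v, δ * a ≤ A v ∧ A v ≤ 1 - δ * a := fun v => by
    constructor
    · have h1 := mul_le_mul_of_nonneg_left (hF2 v).1 (by linarith : 0 ≤ 1 - δ)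
      have h2 := mul_le_mul_of_nonneg_left hda hδ0.le
      have h3 : δ * a * w ≤ A v * w := by rw [hA1 v]; linarith
      exact le_of_mul_le_mul_right h3 hw0
    · have h1 := mul_le_mul_of_nonneg_left (hF2 v).2 (by linarith : 0 ≤ 1 - δ)
      have h2 := mul_le_mul_of_nonneg_left hea hδ0.le
      have h3 : δ * a * w ≤ (1 - A v) * w := by rw [hA2 v]; linarith
      have := le_of_mul_le_mul_right h3 hw0
      linarith
  have hA4 : ∀ u v, (∀ B ∈ F, (u ∈ B ↔ v ∈ B)) → A u = A v := fun u v huv => by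
    rw [hA u, hA v, filter_congr huv]
  have hA5 : (∑ v, A v) * w = c * w - j * ((1 - δ) * (U * T)) := by
    rw [sum_mul, sum_congr rfl fun v _ => hA1 v, sum_sub_distrib, ← mul_sum, ← mul_sum,
      wmid_sum F (fun B hB => (hF1 B hB).1), sum_const, card_univ, Fintype.card_fin,
      nsmul_eq_mul, hw]
    push_cast
    linarith only [hcm']
  have hj0 : (0 : ℝ) ≤ j := Nat.cast_nonneg _
  have hA6 : ((c + j : ℕ) : ℝ) - ((j + h : ℕ) : ℝ) ≤ ∑ v, A v := by
    have h1 : (j : ℝ) * ((1 - δ) * (U * T)) ≤ j * m :=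
      mul_le_mul_of_nonneg_left (by linarith) hj0
    have h2 : (j : ℝ) * m ≤ δ * h * m := mul_le_mul_of_nonneg_right hh hm0
    have h3 : (h : ℝ) * (δ * m) ≤ h * w := mul_le_mul_of_nonneg_left hw1 (Nat.cast_nonneg _)
    have h4 : ((c : ℝ) - h) * w ≤ (∑ v, A v) * w := by linarith
    have := le_of_mul_le_mul_right h4 hw0
    push_cast
    linarith
  have hA7 : ∑ v, A v ≤ ((c + j : ℕ) : ℝ) := by
    have h1 : 0 ≤ (j : ℝ) * ((1 - δ) * (U * T)) := mul_nonneg hj0 hδT0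
    have h4 : (∑ v, A v) * w ≤ c * w := by linarith
    have := le_of_mul_le_mul_right h4 hw0
    push_cast
    linarith
  obtain ⟨F', hF'1, hF'2, hF'3, hF'4⟩ := hK1 n (c + j) (by omega) F hFR A hA3 hA4 hA6 hA7
  obtain ⟨τ, hτ⟩ : ∃ τ : ℝ, τ = (1 - δ) * w / N / U := ⟨_, rfl⟩
  have hτ1 : U * τ = (1 - δ) * w / N := by rw [hτ, mul_div_cancel₀ _ hU0.ne']
  have hτ2 : U * (N * τ) = (1 - δ) * w := by
    rw [mul_left_comm, hτ1, mul_div_cancel₀ _ hN0.ne']
  have hτ0 : 0 ≤ τ := by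
    rw [hτ]
    exact div_nonneg (div_nonneg (mul_nonneg (by linarith) hw0.le) hN0.le) hU0.le
  have hτ3 : τ ≤ 1 := by
    rw [hτ, div_le_one hU0, div_le_iff₀ hN0]
    have h1 : L * U ≤ a * N * U := mul_le_mul_of_nonneg_right hN1 hU0.le
    have h2 : a * m ≤ a * (U * N) := by linarith
    have h3 := le_of_mul_le_mul_left h2 ha
    have h4 : 0 ≤ δ * w := mul_nonneg hδ0.le hw0.le
    linarith only [hw, hδT0, h3, h4]
  have hsum : ∀ G G' : Finset (Finset (Fin n)), G ⊆ F → G' ⊆ F' →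
      U * ∑ B ∈ G ∪ G', (if B ∈ F then (1 - δ) * t B else τ) =
        (1 - δ) * (U * ∑ B ∈ G, t B) + (1 - δ) * w / N * #G' := fun G G' hG hG' => by
    have h1 := wmid_union hF'2 hG hG' (fun B => (1 - δ) * t B) τ id
    simp only [id] at h1
    rw [h1, ← mul_sum, ← hτ1]
    ring
  have hNw : (1 - δ) * w / N * N = (1 - δ) * w := div_mul_cancel₀ _ hN0.ne'
  obtain ⟨J, hJ1, hJ2⟩ := hK2 n c m d e (by omega) hcn' hmP hcm hde (F ∪ F')
    ((card_union_le _ _).trans (by omega))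
    (fun B hB => (mem_union.1 hB).elim (fun h => (hF1 B h).1) (hF'3 B))
    (fun B => if B ∈ F then (1 - δ) * t B else τ)
    (fun B _ => by
      by_cases hB : B ∈ F
      · rw [if_pos hB]
        have h1 := ht.1 B
        have h2 : 0 ≤ δ * t B := mul_nonneg hδ0.le h1.1
        exact ⟨mul_nonneg (by linarith) h1.1, by linarith [h1.2]⟩
      · rw [if_neg hB]
        exact ⟨hτ0, hτ3⟩)
    (δ * w)
    (by
      rw [hsum F F' Subset.rfl Subset.rfl, hF'1, hNw]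
      linarith only [hw])
    (by
      have h1 : δ * (δ * m) ≤ δ * w := mul_le_mul_of_nonneg_left hw1 hδ0.le
      have h2 : δ * δ * (η * U) ≤ δ * δ * m :=
        mul_le_mul_of_nonneg_left hmη (mul_pos hδ0 hδ0).le
      linarith)
    (fun v => by
      constructor
      · rw [filter_union, hsum _ _ (filter_subset _ _) (filter_subset _ _)]
        have h1 := wmid_margin hδ0 (by linarith) hw0.le hN0 hN2 (hA3 v).1 (hF'4 v).2
          (Nat.cast_nonneg _)
        have h2 := hA1 v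
        linarith only [h1, h2]
      · rw [filter_union, hsum _ _ (filter_subset _ _) (filter_subset _ _)]
        have h0 : (#{B ∈ F' | v ∈ B} : ℝ) + #{B ∈ F' | v ∉ B} = N := by
          rw [← hF'1]
          exact_mod_cast card_filter_add_card_filter_not (s := F') (fun B => v ∈ B)
        have h1 := wmid_margin (x := 1 - A v) (y := (#{B ∈ F' | v ∉ B} : ℝ)) hδ0 (by linarith)
          hw0.le hN0 hN2 (by linarith [(hA3 v).2]) (by linarith [(hF'4 v).1]) (Nat.cast_nonneg _)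
        have h2 := hA2 v
        linarith only [h1, h2])
  refine ⟨J, hJ1, hJ2.trans ?_⟩
  have h1 := wmid_union hF'2 Subset.rfl Subset.rfl (fun B => (1 - δ) * t B) τ (ps j)
  rw [h1, hF'1]
  simp_rw [ps_eq]
  rw [sum_sub_distrib, ← mul_sum, ← mul_sum, Phi]
  have hj1 : (0 : ℝ) < j := by exact_mod_cast hj
  have hp : W * (1 + 1 / (j : ℝ)) = U * (c / j) := by
    field_simp
    linarith only [hW]
  have hph : 0 ≤ W * (N * ph j τ) := mul_nonneg hW0 (mul_nonneg hN0.le (ph_nonneg hj hτ3))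
  have hcj0 : (0 : ℝ) ≤ c / j := div_nonneg (by linarith) hj0
  have h2 : W * ((1 + 1 / (j : ℝ)) * ((1 - δ) * T)) + W * (N * ((1 + 1 / (j : ℝ)) * τ)) =
      c / j * ((1 - δ) * (U * T) + U * (N * τ)) := by
    calc _ = W * (1 + 1 / (j : ℝ)) * ((1 - δ) * T + N * τ) := by ring
      _ = _ := by rw [hp]; ring
  have hδw : 0 ≤ δ * w := mul_nonneg hδ0.le hw0.le
  have h3 : (c : ℝ) / j * ((1 - δ) * (U * T) + U * (N * τ)) ≤ c / j * m :=
    mul_le_mul_of_nonneg_left (by rw [hτ2]; linarith only [hw, hδw]) hcj0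
  have h4 : (c : ℝ) * (δ * w) ≤ c * (δ * m) :=
    mul_le_mul_of_nonneg_left (mul_le_mul_of_nonneg_left hw2 hδ0.le) (by linarith only [hδ0, hδ1, hc0])
  have h5 : δ * ((c : ℝ) * m) ≤ ε / 4 * (c * m) :=
    mul_le_mul_of_nonneg_right hδ2 (mul_nonneg (by linarith only [hδ0, hδ1, hc0]) hm0)
  have h6 : (c : ℝ) * m / j = c / j * m := by ring
  rw [hde'] at hF3
  rw [h6]
  linarith only [hF3, hph, h2, h3, h4, h5]

end Pool.Agent.P.MP_4f3dfd_co.Win
end

-- part Pool.Agent.P.MP_4f3dfd_co.WMain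
section

set_option autoImplicit false
set_option linter.unusedSectionVars false
set_option linter.unusedVariables false

namespace Pool.Agent.P.MP_4f3dfd_co.Win

open Finset Pool.Agent.P.MP_4f3dfd_co.Asy Pool.Agent.P.MP_4f3dfd_co.Off

/-- The lower bound at a fixed level. -/
theorem fixed_low {j : ℕ} (hj : 1 ≤ j) {θ : ℝ} (h0 : 0 < θ) : ∃ K : ℕ, ∀ n c m d e : ℕ,
    K ≤ c → c + K ≤ n → d + e = m → min d e ^ 2 ≤ (c + j).choose j ^ 2 * c →
    ∀ J : Finset (Finset (Fin n)), Rg c m d J →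
    ∃ t, Pk n c j d e t ∧ Phi c m j (val n c j t) ≤ #(shadow J) + θ * (c * m) := by
  obtain ⟨K, hK⟩ := low_num hj (θ := min (θ / 5) (1 / 2)) (by positivity) (min_le_right _ _)
  refine ⟨K + 4 * j + 4, fun n c m d e h1 h2 hde hM J hJ => ?_⟩
  obtain ⟨s₁, s₂, x, r, a1, a2, a3, a4, a5, a6, a7⟩ := hK c (min d e) (by omega) hM
  by_cases hxn : x + j ≤ n
  · have b1 := dust_ge hj hJ hde (by omega) (by omega) a1 a2 hxn
    obtain ⟨t, t1, t2⟩ := lower_fin hj hJ hde (by omega) (by omega) a4 b1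
      (θ := min (θ / 5) (1 / 2)) (by positivity) (min_le_right _ _) a5 a6 a7
    refine ⟨t, t1, t2.trans ?_⟩
    have : 5 * min (θ / 5) (1 / 2) ≤ θ := by linarith only [min_le_left (θ / 5) (1 / 2)]
    gcongr
  · omega

theorem prev_le {c j M K : ℕ} (hj : 1 ≤ j) (hc : 2 * j * K ^ 2 + j ≤ c)
    (h : (c + j - 2).choose (j - 1) * (c + j - 1).choose j ≤ M ^ 2) :
    K * (c + (j - 1)).choose (j - 1) ≤ M := by
  obtain ⟨i, rfl⟩ : ∃ i, j = i + 1 := ⟨j - 1, by omega⟩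
  obtain ⟨k, rfl⟩ : ∃ k, c = k + 1 := ⟨c - 1, by omega⟩
  simp only [Nat.add_sub_cancel] at h ⊢
  rw [show k + 1 + (i + 1) - 2 = k + i by omega, show k + 1 + (i + 1) - 1 = k + 1 + i by omega] at h
  have a1 := Nat.choose_succ_right_eq (k + 1 + i) i
  rw [Nat.add_sub_cancel] at a1
  have a2 := Nat.choose_mul_succ_eq (k + i) i
  rw [show k + i + 1 - i = k + 1 by omega, show k + i + 1 = k + 1 + i by omega] at a2
  generalize (k + 1 + i).choose i = U at *
  generalize (k + 1 + i).choose (i + 1) = W at *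
  generalize (k + i).choose i = u at *
  have a3 : U ≤ 2 * u := by
    apply Nat.le_of_mul_le_mul_right (c := k + 1) _ (by omega)
    rw [← a2, mul_comm 2 u, mul_assoc]
    exact Nat.mul_le_mul_left _ (by omega)
  have a4 : 2 * K ^ 2 * U ≤ W := by
    apply Nat.le_of_mul_le_mul_right (c := i + 1) _ (by omega)
    rw [a1]
    calc _ = U * (2 * (i + 1) * K ^ 2) := by ring
      _ ≤ _ := Nat.mul_le_mul_left _ (by omega)
  refine Nat.le_of_not_lt fun hlt => ?_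
  have a5 : M ^ 2 < (K * U) ^ 2 := Nat.pow_lt_pow_left hlt (by norm_num)
  have a6 : (K * U) ^ 2 ≤ u * W := by
    calc (K * U) ^ 2 = K ^ 2 * U * U := by ring
      _ ≤ K ^ 2 * U * (2 * u) := Nat.mul_le_mul_left _ a3
      _ = u * (2 * K ^ 2 * U) := by ring
      _ ≤ _ := Nat.mul_le_mul_left _ a4
  omega

theorem step_le (c : ℕ) {j : ℕ} (hj : 1 ≤ j) :
    (c + j - 1).choose j ≤ (c + j).choose (j + 1) ∧ (c + j - 1).choose j ≤ (c + j).choose j ∧
      (c + j).choose (j + 1) ≤ (c + j).choose j * c := by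
  refine ⟨?_, Nat.choose_le_choose _ (by omega), ?_⟩
  · obtain ⟨N, hN⟩ : ∃ N, c + j = N + 1 := ⟨c + j - 1, by omega⟩
    rw [hN, Nat.add_sub_cancel, Nat.choose_succ_succ']
    omega
  · have a1 := Nat.choose_succ_right_eq (c + j) j
    rw [Nat.add_sub_cancel] at a1
    rw [← a1]
    exact Nat.le_mul_of_pos_right _ (by omega)

theorem lt_next {c j M : ℕ} (hj : 1 ≤ j)
    (h : M ^ 2 < (c + j - 1).choose j * (c + j).choose (j + 1)) : M < (c + j).choose (j + 1) := by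
  have a1 := (step_le c hj).1
  refine lt_of_not_ge fun hle => ?_
  have : (c + j - 1).choose j * (c + j).choose (j + 1) ≤ M * M := Nat.mul_le_mul (by omega) hle
  rw [sq] at h
  omega

/-- The upper bound at a fixed level. -/
theorem fixed_up {j : ℕ} (hj : 1 ≤ j) {ε : ℝ} (hε : 0 < ε) : ∃ K : ℕ, ∀ n c m d e f : ℕ,
    K ≤ c → c + K ≤ n → 1 ≤ m → m ≤ n.choose c → c * m = d * n → d + e = m →
    (j = 1 ∨ (c + j - 2).choose (j - 1) * (c + j - 1).choose j ≤ min d e ^ 2) →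
    min d e ^ 2 < (c + j - 1).choose j * (c + j).choose (j + 1) → IsLeast (SR n c m) f →
    ∀ t, Pk n c j d e t → (f : ℝ) ≤ Phi c m j (val n c j t) + ε * (c * m) := by
  have hε2 : 0 < ε / 2 := by positivity
  obtain ⟨K1, hK1⟩ := upper_off (j - 1) hε2
  obtain ⟨K2, hK2⟩ := upper_off j hε
  have hη : 0 < min (ε / 2) 1 := by positivity
  obtain ⟨K3, hK3⟩ := up_lo hj (L := K2) hη hε
  obtain ⟨K4, hK4⟩ := up_hi hj (L := K2) hη hε
  obtain ⟨A, hA⟩ : ∃ A, A = K3 + K4 + 2 := ⟨_, rfl⟩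
  have A0 : (0 : ℝ) < A := by exact_mod_cast (show 0 < A by omega)
  obtain ⟨K5, hK5⟩ := up_mid hj (a := 1 / A) (L := K2) (by positivity) hη hε
  refine ⟨2 * j * K1 ^ 2 + j + K1 + K2 + A + K5 + 2,
    fun n c m d e f h1 h2 hm1 hm hdm hde h3 h4 hf t ht => ?_⟩
  obtain ⟨k, hk⟩ : ∃ k, c = k + 1 := ⟨c - 1, by omega⟩
  obtain ⟨q, hq⟩ : ∃ q, n = c + q := ⟨n - c, by omega⟩
  have hqe : q * m = e * n := qm (hk ▸ hq) (hk ▸ hdm) hde
  have j1 : (1 : ℝ) ≤ j := by exact_mod_cast hj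
  have cm0 : (0 : ℝ) ≤ c * m := by positivity
  have rde : (d : ℝ) + e = m := by exact_mod_cast hde
  have U0 : (0 : ℝ) < (c + j).choose j := by
    exact_mod_cast Nat.choose_pos (show j ≤ c + j by omega)
  have fin : ∀ J : Finset (Finset (Fin n)), Rg c m d J ∧
      (#(shadow J) : ℝ) ≤ Phi c m j (val n c j t) + ε * (c * m) →
      (f : ℝ) ≤ Phi c m j (val n c j t) + ε * (c * m) := fun J hJ =>
    le_trans (by exact_mod_cast hf.2 hJ.1.mem_SR) hJ.2
  have hlt := lt_next hj h4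
  by_cases hbig : K2 * (c + j).choose j ≤ min d e
  · have a1 := hK2 n k q m d e f (hk ▸ hq) hm1 (hk ▸ hm) (hk ▸ hdm) hde (by omega)
      (.inr (hk ▸ hbig)) (by omega)
      (hlt.le.trans (hk ▸ Nat.choose_le_choose _ (by omega))) (hk ▸ hf)
    have a2 := Phi_ge (m := m) hj ht (by omega) rde
    rw [show (k : ℝ) + 1 = c by rw [hk]; push_cast; ring] at a1
    rw [div_le_iff₀ (by linarith only [j1])] at a2
    apply le_of_mul_le_mul_right _ (show (0 : ℝ) < j + 1 by linarith only [j1])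
    have : ε * (c * m) ≤ ε * (c * m) * (j + 1) := le_mul_of_one_le_right (by positivity) (by linarith only [j1])
    linarith only [a1, a2, this]
  have rbig : min (d : ℝ) e ≤ K2 * (c + j).choose j := by
    exact_mod_cast (not_le.1 hbig).le
  by_cases hsm : min (d : ℝ) e ≤ min (ε / 2) 1 * (c + j).choose j
  · have b0 : min d e ≤ (c + j).choose j := by
      have : min (d : ℝ) e ≤ (c + j).choose j :=
        hsm.trans (mul_le_of_le_one_left U0.le (min_le_right _ _))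
      exact_mod_cast this
    have a1 := hK1 n k q m d e f (hk ▸ hq) hm1 (hk ▸ hm) (hk ▸ hdm) hde (by omega)
      (h3.imp (by omega) fun h => hk ▸ prev_le hj (by omega) h) (by omega)
      (by rwa [show k + 1 + (j - 1) + 1 = c + j by omega, show j - 1 + 1 = j by omega]) (hk ▸ hf)
    rw [show (k : ℝ) + 1 = c by rw [hk]; push_cast; ring,
      show ((j - 1 : ℕ) : ℝ) + 1 = j by rw [Nat.cast_sub hj]; simp] at a1
    have a2 := val_le hj ht (by omega) hε2.le fun B hB => by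
      have := (ht.le_min hj (by omega) hB).trans
        (hsm.trans (mul_le_mul_of_nonneg_right (min_le_left _ _) U0.le))
      rw [mul_comm] at this
      exact le_of_mul_le_mul_right this U0
    rw [rde] at a2
    have a3 : ε / 2 * (c * m) / (j * (j + 1)) ≤ ε / 2 * (c * m) :=
      div_le_self (by positivity) (by nlinarith only [j1])
    have a4 : (f : ℝ) ≤ c * m / j + ε / 2 * (c * m) := by
      apply le_of_mul_le_mul_right _ (show (0 : ℝ) < j by linarith only [j1])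
      rw [add_mul, div_mul_cancel₀ _ (by linarith only [j1])]
      have : ε / 2 * (c * m) ≤ ε / 2 * (c * m) * j := le_mul_of_one_le_right (by positivity) j1
      linarith only [a1, this]
    unfold Phi
    linarith only [a2, a3, a4]
  replace hsm := (not_le.1 hsm).le
  by_cases hlo : A * c ≤ n
  · have b1 : 2 * c ≤ n := le_trans (Nat.mul_le_mul_right _ (by omega)) hlo
    have b2 : d ≤ e := Nat.le_of_mul_le_mul_right (c := n)
      (by rw [← hqe, ← hdm]; exact Nat.mul_le_mul_right _ (by omega)) (by omega)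
    rw [min_eq_left (a := (d : ℝ)) (b := e) (by exact_mod_cast b2)] at hsm rbig
    obtain ⟨J, hJ⟩ := hK3 n c m d e (by omega)
      (le_trans (Nat.mul_le_mul_right _ (by omega)) hlo) hdm hde hsm rbig t ht
    exact fin J hJ
  by_cases hhi : A * q ≤ n
  · have b1 : 2 * q ≤ n := le_trans (Nat.mul_le_mul_right _ (by omega)) hhi
    have b2 : e ≤ d := Nat.le_of_mul_le_mul_right (c := n)
      (by rw [← hqe, ← hdm]; exact Nat.mul_le_mul_right _ (by omega)) (by omega)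
    rw [min_eq_right (a := (d : ℝ)) (b := e) (by exact_mod_cast b2)] at hsm rbig
    obtain ⟨J, hJ⟩ := hK4 n c q m d e hq (by omega)
      (le_trans (Nat.mul_le_mul_right _ (by omega)) hhi) hdm hde hsm rbig t ht
    exact fin J hJ
  have b1 : (n : ℝ) ≤ A * c := by exact_mod_cast (not_le.1 hlo).le
  have b2 : (n : ℝ) ≤ A * q := by exact_mod_cast (not_le.1 hhi).le
  have b3 : (n : ℝ) = c + q := by exact_mod_cast hq
  have b4 : 1 / (A : ℝ) * n ≤ q := by rwa [one_div, inv_mul_le_iff₀ A0]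
  obtain ⟨J, hJ⟩ := hK5 n c m d e (by omega) (by rwa [one_div, inv_mul_le_iff₀ A0])
    (by linarith only [b3, b4]) hdm hde hsm rbig t ht
  exact fin J hJ

theorem master {ε : ℝ} (hε : 0 < ε) : ∃ K : ℕ, ∀ n c m d j : ℕ,
    (K ≤ c ∧ c + K ≤ n) ∨ (K ≤ j ∧ K * (c + j) ≤ n) → 1 ≤ m → m ≤ n.choose c →
    c * m = d * n → 1 ≤ j →
    (j = 1 ∨ (c + j - 2).choose (j - 1) * (c + j - 1).choose j ≤ min d (m - d) ^ 2) →
    min d (m - d) ^ 2 < (c + j - 1).choose j * (c + j).choose (j + 1) →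
    ∃ f : ℕ, IsLeast (SR n c m) f ∧ ∃ S : ℝ, IsGreatest (SV n c j d (m - d)) S ∧
      |(f : ℝ) - Phi c m j S| ≤ ε * f := by
  obtain ⟨T, hT⟩ := big_case hε
  have hθ : ∀ i : ℕ, 0 < min ε 1 / (2 * ((i + 1 : ℕ) + 1 : ℝ)) := fun i => by positivity
  choose K1 hK1 using fun i => fixed_low (j := i + 1) (by omega) (hθ i)
  choose K2 hK2 using fun i => fixed_up (j := i + 1) (by omega) (hθ i)
  refine ⟨∑ i ∈ range (T + 1), (K1 i + K2 i) + T + 2, fun n c m d j hR hm1 hm hdm hj h3 h4 => ?_⟩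
  generalize hK : ∑ i ∈ range (T + 1), (K1 i + K2 i) = K at hR
  have hcn : c ≤ n := by
    by_contra h
    rw [Nat.choose_eq_zero_of_lt (by omega)] at hm
    omega
  have hc : 1 ≤ c := by
    by_contra h
    rw [Nat.choose_eq_zero_of_lt (show c + j < j + 1 by omega)] at h4
    omega
  have hdm' : d ≤ m := Nat.le_of_mul_le_mul_right (c := n)
    (by rw [← hdm, mul_comm]; exact Nat.mul_le_mul_left _ hcn) (by omega)
  obtain ⟨e, hde⟩ : ∃ e, d + e = m := ⟨m - d, by omega⟩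
  have rde : (d : ℝ) + e = m := by exact_mod_cast hde
  rw [show m - d = e by omega] at h3 h4
  rw [show (m : ℝ) - d = e by linarith only [rde]]
  obtain ⟨k, hk⟩ : ∃ k, c = k + 1 := ⟨c - 1, by omega⟩
  have : NeZero n := ⟨by omega⟩
  obtain ⟨J0, j1, j2, j3, -⟩ := upper_cl (n := n) k (k + 1) m d le_rfl (hk ▸ hcn) (hk ▸ hm) hm1
    (hk ▸ hdm)
  obtain ⟨f, hf⟩ := least (S := SR n c m) ⟨_, J0, hk ▸ j1, j2, ⟨d, j3⟩, rfl⟩
  obtain ⟨S, hS⟩ := exists_max n c j (d := d) (e := e) (by positivity) (by positivity)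
  refine ⟨f, hf, S, hS, ?_⟩
  obtain ⟨t, ht, rfl⟩ := hS.1
  have a1 := Phi_ge (m := m) hj ht (by omega) rde
  have a2 := Phi_le (m := m) hj ht
  by_cases hjT : T + 1 < j
  · obtain ⟨b1, b2⟩ := hT n c m d e j f (by omega)
      (hR.imp (by omega) fun h => le_trans (Nat.mul_le_mul_right _ (by omega)) h.2) hm1 hm hdm hde
      (by
        replace h3 := h3.resolve_left (by omega)
        refine Nat.le_of_not_lt fun hlt => ?_
        have b1 : (c + j - 2).choose (j - 1) ≤ (c + j - 1).choose j := by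
          obtain ⟨i, rfl⟩ : ∃ i, j = i + 1 := ⟨j - 1, by omega⟩
          rw [show c + (i + 1) - 1 = c + (i + 1) - 2 + 1 by omega, Nat.choose_succ_succ']
          exact Nat.le_add_right _ _
        have b2 : min d e ^ 2 < (c + j - 2).choose (j - 1) * (c + j - 2).choose (j - 1) := by
          rw [← sq]; exact Nat.pow_lt_pow_left hlt (by norm_num)
        have b3 := Nat.mul_le_mul_left ((c + j - 2).choose (j - 1)) b1
        omega) (lt_next hj h4) hf
    rw [abs_le]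
    constructor <;> linarith only [a2, b1, a1, b2]
  obtain ⟨i, rfl⟩ : ∃ i, j = i + 1 := ⟨j - 1, by omega⟩
  have b0 : K1 i + K2 i ≤ K := hK ▸
    single_le_sum (f := fun i => K1 i + K2 i) (fun _ _ => Nat.zero_le _) (mem_range.2 (by omega))
  obtain ⟨b1, b2⟩ := hR.resolve_right (by omega)
  obtain ⟨J, k1, k2, k3, k4⟩ := SR_deg hdm hf.1
  obtain ⟨t', c1, c2⟩ := hK1 i n c m d e (by omega) (by omega) hde (h4.le.trans (by
    rw [sq, mul_assoc]
    exact Nat.mul_le_mul (step_le c hj).2.1 (step_le c hj).2.2)) J ⟨k1, k2, k3⟩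
  have c3 := hK2 i n c m d e f (by omega) (by omega) hm1 hm hdm hde h3 h4 hf t ht
  have c4 := Phi_ge (m := m) hj c1 (by omega) rde
  have c5 : Phi c m (i + 1) (val n c (i + 1) t) ≤ Phi c m (i + 1) (val n c (i + 1) t') := by
    have := hS.2 ⟨t', c1, rfl⟩
    unfold Phi
    gcongr
  rw [k4] at c2
  have y0 : (0 : ℝ) < (i + 1 : ℕ) + 1 := by positivity
  generalize ((i + 1 : ℕ) + 1 : ℝ) = y at *
  have cm0 : (0 : ℝ) ≤ c * m := by positivity
  generalize (c * m : ℝ) = z at *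
  have d1 : min ε 1 / (2 * y) * z = min ε 1 * (z / y) / 2 := by field_simp
  have d0 : 0 ≤ z / y := by positivity
  rw [d1] at c2 c3
  generalize z / y = w at *
  have d2 : min ε 1 * w ≤ 1 * w := by gcongr; exact min_le_right _ _
  have d3 : min ε 1 * w ≤ ε * w := by gcongr; exact min_le_left _ _
  have d4 : ε * w ≤ ε * (2 * f) := by gcongr; linarith only [c5, a1, c2, d2]
  rw [abs_le]
  constructor <;> linarith only [c5, c2, d3, d4, c3]

end Pool.Agent.P.MP_4f3dfd_co.Win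
end
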