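import Mathlib

set_option autoImplicit false
set_option linter.unusedSectionVars false

namespace Pool.Agent.P.MP_4f3dfd_co

open Finset

variable {V : Type*} [Fintype V] [Nonempty V]

/-- uniform average -/
noncomputable def E (f : V → ℝ) : ℝ := (∑ x, f x) / Fintype.card V

theorem card_pos' : (0 : ℝ) < Fintype.card V := by exact_mod_cast Fintype.card_pos

theorem E_add (f g : V → ℝ) : E (fun x => f x + g x) = E f + E g := by
  simp only [E, Finset.sum_add_distrib, add_div]

theorem E_sub (f g : V → ℝ) : E (fun x => f x - g x) = E f - E g := by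
  simp only [E, Finset.sum_sub_distrib, sub_div]

theorem E_mul_left (a : ℝ) (f : V → ℝ) : E (fun x => a * f x) = a * E f := by
  simp only [E, ← Finset.mul_sum, mul_div_assoc]

theorem E_mul_right (a : ℝ) (f : V → ℝ) : E (fun x => f x * a) = E f * a := by
  simp only [E, ← Finset.sum_mul]
  ring

theorem E_const (a : ℝ) : E (fun _ : V => a) = a := by
  have := card_pos' (V := V)
  simp only [E, Finset.sum_const, Finset.card_univ, nsmul_eq_mul]
  field_simp

theorem E_comm (f : V → V → ℝ) :
    E (fun x => E (fun y => f x y)) = E (fun y => E (fun x => f x y)) := by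
  simp only [E, ← Finset.sum_div]
  rw [Finset.sum_comm]

theorem E_mono {f g : V → ℝ} (h : ∀ x, f x ≤ g x) : E f ≤ E g := by
  have := card_pos' (V := V)
  simp only [E]
  gcongr with x
  exact h x

theorem E_nonneg {f : V → ℝ} (h : ∀ x, 0 ≤ f x) : 0 ≤ E f := by
  have := E_mono (f := fun _ => 0) (g := f) h
  rwa [E_const] at this

theorem E_congr {f g : V → ℝ} (h : ∀ x, f x = g x) : E f = E g := by
  have : f = g := funext h
  rw [this]

theorem E_cs (f g : V → ℝ) :
    E (fun x => f x * g x) ^ 2 ≤ E (fun x => f x ^ 2) * E (fun x => g x ^ 2) := by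
  have hN := card_pos' (V := V)
  simp only [E]
  rw [div_pow, div_mul_div_comm, ← sq]
  gcongr
  exact Finset.sum_mul_sq_le_sq_mul_sq _ _ _

theorem exists_le_E (f : V → ℝ) : ∃ x, f x ≤ E f := by
  obtain ⟨x, _, hx⟩ := Finset.exists_min_image Finset.univ f Finset.univ_nonempty
  refine ⟨x, ?_⟩
  have := E_mono (f := fun _ => f x) (g := f) (fun y => hx y (Finset.mem_univ y))
  rwa [E_const] at this

/-- double average -/
noncomputable def E2 (f : V → V → ℝ) : ℝ := E (fun x => E (fun y => f x y))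

/-- triple average -/
noncomputable def E3 (f : V → V → V → ℝ) : ℝ := E (fun x => E (fun y => E (fun z => f x y z)))

theorem E2_swap (f : V → V → ℝ) : E2 f = E2 (fun x y => f y x) := E_comm f

theorem E2_mono {f g : V → V → ℝ} (h : ∀ x y, f x y ≤ g x y) : E2 f ≤ E2 g :=
  E_mono fun x => E_mono fun y => h x y

theorem E2_congr {f g : V → V → ℝ} (h : ∀ x y, f x y = g x y) : E2 f = E2 g :=
  E_congr fun x => E_congr fun y => h x y

theorem E2_add (f g : V → V → ℝ) : E2 (fun x y => f x y + g x y) = E2 f + E2 g := by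
  simp only [E2, E_add]

theorem E2_sub (f g : V → V → ℝ) : E2 (fun x y => f x y - g x y) = E2 f - E2 g := by
  simp only [E2, E_sub]

theorem E2_mul_left (a : ℝ) (f : V → V → ℝ) : E2 (fun x y => a * f x y) = a * E2 f := by
  simp only [E2, E_mul_left]

theorem E2_prod (f g : V → ℝ) : E2 (fun x y => f x * g y) = E f * E g := by
  simp only [E2, E_mul_left, E_mul_right]

theorem E3_swap12 (f : V → V → V → ℝ) : E3 f = E3 (fun x y z => f y x z) :=
  E_comm (fun x y => E (fun z => f x y z))

theorem E3_swap23 (f : V → V → V → ℝ) : E3 f = E3 (fun x y z => f x z y) :=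
  E_congr fun x => E_comm (fun y z => f x y z)

theorem E3_mono {f g : V → V → V → ℝ} (h : ∀ x y z, f x y z ≤ g x y z) : E3 f ≤ E3 g :=
  E_mono fun x => E_mono fun y => E_mono fun z => h x y z

theorem E3_congr {f g : V → V → V → ℝ} (h : ∀ x y z, f x y z = g x y z) : E3 f = E3 g :=
  E_congr fun x => E_congr fun y => E_congr fun z => h x y z

theorem E3_add (f g : V → V → V → ℝ) :
    E3 (fun x y z => f x y z + g x y z) = E3 f + E3 g := by
  simp only [E3, E_add]

theorem E3_sub (f g : V → V → V → ℝ) :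
    E3 (fun x y z => f x y z - g x y z) = E3 f - E3 g := by
  simp only [E3, E_sub]

theorem E3_mul_left (a : ℝ) (f : V → V → V → ℝ) :
    E3 (fun x y z => a * f x y z) = a * E3 f := by
  simp only [E3, E_mul_left]

theorem E3_prod (f g k : V → ℝ) : E3 (fun x y z => f x * g y * k z) = E f * E g * E k := by
  simp only [E3, E_mul_left, E_mul_right]

theorem E3_nonneg {f : V → V → V → ℝ} (h : ∀ x y z, 0 ≤ f x y z) : 0 ≤ E3 f :=
  E_nonneg fun x => E_nonneg fun y => E_nonneg fun z => h x y z

/-- weighted Cauchy-Schwarz -/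
theorem E_cs_div (g a : V → ℝ) (hg : ∀ x, 0 ≤ g x) (ha : ∀ x, 0 < a x) :
    E g ^ 2 ≤ E (fun x => g x * a x) * E (fun x => g x / a x) := by
  have h := E_cs (fun x => Real.sqrt (g x * a x)) (fun x => Real.sqrt (g x / a x))
  have e1 : E (fun x => Real.sqrt (g x * a x) * Real.sqrt (g x / a x)) = E g := by
    apply E_congr
    intro x
    have hx := ha x
    rw [← Real.sqrt_mul (mul_nonneg (hg x) hx.le)]
    have : g x * a x * (g x / a x) = g x * g x := by field_simp
    rw [this, Real.sqrt_mul_self (hg x)]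
  have e2 : E (fun x => Real.sqrt (g x * a x) ^ 2) = E (fun x => g x * a x) :=
    E_congr fun x => Real.sq_sqrt (mul_nonneg (hg x) (ha x).le)
  have e3 : E (fun x => Real.sqrt (g x / a x) ^ 2) = E (fun x => g x / a x) :=
    E_congr fun x => Real.sq_sqrt (div_nonneg (hg x) (ha x).le)
  rwa [e1, e2, e3] at h

/-- The degree inequality: a weighted graph with many edges has a large sum of square roots
of degrees. -/
theorem degree_ineq (g : V → V → ℝ) (a b : V → ℝ) (hs : ∀ x y, g x y = g y x)
    (hg : ∀ x y, 0 ≤ g x y) (ha : ∀ x, 0 < a x) (hb : ∀ x, 0 ≤ b x)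
    (h1 : ∀ x y, g x y * a y ≤ b y) (h2 : ∀ y, E (g y) ≤ a y * b y)
    (h3 : ∀ y, E (g y) ≤ b y ^ 2) (l : ℝ) (hl : 0 ≤ l) :
    3 * l ^ 2 * E2 g ≤ 2 * l ^ 3 * E b + E b ^ 2 := by
  have hP : 0 ≤ E b := E_nonneg hb
  have hdeg : ∀ x, 0 ≤ E (g x) := fun x => E_nonneg (hg x)
  have k1 : ∀ x, E (g x) ^ 2 ≤ E b * E (fun y => g x y / a y) := by
    intro x
    refine (E_cs_div (g x) a (hg x) ha).trans ?_
    apply mul_le_mul_of_nonneg_right (E_mono (h1 x))
    exact E_nonneg fun y => div_nonneg (hg x y) (ha y).le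
  have k2 : E (fun x => E (fun y => g x y / a y)) ≤ E b := by
    rw [E_comm]
    apply E_mono
    intro y
    have : E (fun x => g x y / a y) = E (g y) / a y := by
      simp only [div_eq_mul_inv]
      rw [E_mul_right]
      congr 1
      exact E_congr fun x => hs x y
    rw [this, div_le_iff₀ (ha y)]
    linarith [h2 y]
  have k3 : E (fun x => E (g x) ^ 2) ≤ E b ^ 2 := by
    refine (E_mono k1).trans ?_
    rw [E_mul_left, sq]
    exact mul_le_mul_of_nonneg_left k2 hP
  have k4 : ∀ x, 3 * l ^ 2 * E (g x) ≤ 2 * l ^ 3 * b x + E (g x) ^ 2 := by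
    intro x
    set u := Real.sqrt (E (g x)) with hu
    have hu0 : 0 ≤ u := Real.sqrt_nonneg _
    have hu2 : u ^ 2 = E (g x) := Real.sq_sqrt (hdeg x)
    have hub : u ≤ b x := by
      rw [hu]
      exact Real.sqrt_le_iff.mpr ⟨hb x, h3 x⟩
    rw [← hu2]
    have p1 : 0 ≤ u * (u - l) ^ 2 * (u + 2 * l) := by positivity
    have p2 : l ^ 3 * u ≤ l ^ 3 * b x := mul_le_mul_of_nonneg_left hub (by positivity)
    nlinarith
  have k5 := E_mono k4
  rw [E_mul_left, E_add, E_mul_left] at k5
  simp only [E2]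
  linarith

end Pool.Agent.P.MP_4f3dfd_co
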