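import Mathlib

set_option autoImplicit false
set_option maxHeartbeats 400000

namespace Pool.Agent.P.MP_4f3dfd_co

theorem params_u (t : ℝ) (ht : 0 < t) (ht' : t ≤ 1 / 10) :
    0 < t * (1 + 3 * t ^ 2) ∧ t * (1 + 3 * t ^ 2) ≤ 103 / 1000 ∧
      3 * t ^ 4 + 26 * (t * (1 + 3 * t ^ 2)) ^ 6 ≤ 3 * (t * (1 + 3 * t ^ 2)) ^ 4 ∧
      (t * (1 + 3 * t ^ 2)) ^ 3 ≤ t ^ 3 + 10 * t ^ 5 := by
  have h2 : t ^ 2 ≤ 1 / 100 := by nlinarith only [ht, ht']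
  have h2' : 0 < t ^ 2 := by positivity
  set q := t ^ 2 with hq
  refine ⟨by positivity, by nlinarith, ?_, ?_⟩
  · have e1 : (t * (1 + 3 * q)) ^ 6 = q ^ 3 * (1 + 3 * q) ^ 6 := by rw [hq]; ring
    have e2 : (t * (1 + 3 * q)) ^ 4 = q ^ 2 * (1 + 3 * q) ^ 4 := by rw [hq]; ring
    have e3 : t ^ 4 = q ^ 2 := by rw [hq]; ring
    rw [e1, e2, e3]
    have b1 : (1 + 3 * q) ^ 6 ≤ (103 / 100) ^ 6 := by gcongr; linarith
    have b2 : 1 + 12 * q ≤ (1 + 3 * q) ^ 4 := by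
      have := one_add_mul_le_pow (a := 3 * q) (by linarith) 4
      push_cast at this
      linarith
    have b3 : q ^ 3 * (1 + 3 * q) ^ 6 ≤ q ^ 3 * (103 / 100) ^ 6 := by gcongr
    have b4 : q ^ 2 * (1 + 12 * q) ≤ q ^ 2 * (1 + 3 * q) ^ 4 := by gcongr
    have b5 : 0 < q ^ 3 := by positivity
    norm_num at b3
    nlinarith only [b4, b5, b3]
  · have e1 : (t * (1 + 3 * q)) ^ 3 = t ^ 3 * (1 + 3 * q) ^ 3 := by ring
    have e2 : t ^ 5 = t ^ 3 * q := by rw [hq]; ring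
    rw [e1, e2]
    have b0 : q * q ≤ q * (1 / 100) := by gcongr
    have b0' : q * q * q ≤ q * (1 / 100) * (1 / 100) := by gcongr
    have b1 : (1 + 3 * q) ^ 3 ≤ 1 + 10 * q := by nlinarith only [h2', b0, b0']
    have b2 : 0 < t ^ 3 := by positivity
    nlinarith

theorem aux_sq_le (p a ν k : ℝ) (h0 : 0 ≤ p) (h1 : p ≤ a - k * ν) (hν : 0 ≤ ν) (j : ℝ)
    (hj : j ≤ k) : p ^ 2 ≤ (a - j * ν) * (a - k * ν) := by
  have : p ≤ a - j * ν := by nlinarith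
  rw [sq]
  exact mul_le_mul this h1 h0 (by linarith)

theorem aux_cube (a ν : ℝ) (ha0 : 0 ≤ a) (ha : a ≤ 1 / 2) (hν : 0 ≤ ν) :
    a ^ 3 - ν ≤ a * (a - ν) * (a - 2 * ν) := by
  have e : a * (a - ν) * (a - 2 * ν) = a ^ 3 - 3 * (a ^ 2 * ν) + 2 * (a * ν ^ 2) := by ring
  have h1 : a ^ 2 ≤ 1 / 4 := by nlinarith
  have h2 : a ^ 2 * ν ≤ 1 / 4 * ν := by gcongr
  have h3 : 0 ≤ a * ν ^ 2 := by positivity
  linarith

theorem params_norm (u ε ν D r b g c : ℝ) (hu : 0 < u) (hu' : u ≤ 103 / 1000)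
    (hν : 0 < ν) (hνε : 10 * ν ≤ ε) (hε : 2 * ε + 26 * u ^ 6 ≤ 3 * u ^ 4)
    (hD1 : D ≤ 1 / 4 + ε - 10 * ν) (hD2 : 1 / 4 - 3 * ν ≤ D)
    (hr1 : u ^ 2 ≤ r) (hr2 : r ≤ u ^ 2 + ν)
    (hb1 : 1 / 2 - (ε + u ^ 4 + 26 * u ^ 6) - ν ≤ b) (hb2 : b ≤ 1 / 2 - (ε + u ^ 4 + 26 * u ^ 6))
    (hg1 : u ≤ g) (hg2 : g ≤ u + ν) (hc1 : g * r ≤ b * c) (hc2 : b * c ≤ g * r + b * ν)
    (hc3 : c ≤ r) (hc0 : 0 ≤ c) :
    D - 2 * (c * (g - ν)) ≤ (b - ν) * (b - 2 * ν) ∧ 2 * (c * (g - ν)) ≤ D ∧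
    D - g * (g - ν) ≤ (1 - r - b) * ((1 - r - b) - ν) ∧ b * (g - ν) ≤ D ∧
    D * (1 - r - b) - 2 * (D * r) + 2 * ((g - ν) * (b * c)) ≤
      (1 - r - b) * ((1 - r - b) - ν) * ((1 - r - b) - 2 * ν) ∧
    2 * r ≤ 1 - r - b ∧
    (1 - r - b) * ((1 - r - b) - ν) + 2 * ((1 - r - b) * r) + 2 * (b * c) + b * (b - ν) + 18 * ν ≤
      1 / 2 + 2 * u ^ 3 + 21 * ν ∧
    2 * ν < 1 - r - b ∧ 2 * ν < b ∧ ν < g := by
  obtain ⟨ρ, hρ⟩ : ∃ ρ, ρ = u ^ 2 := ⟨_, rfl⟩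
  have hρ0 : 0 < ρ := by rw [hρ]; positivity
  have hρu : ρ ≤ 103 / 1000 * u := by rw [hρ, sq]; gcongr
  have hρ1 : ρ ≤ 11 / 1000 := by linarith
  have e4 : u ^ 4 = ρ ^ 2 := by rw [hρ]; ring
  have e6 : u ^ 6 = ρ ^ 3 := by rw [hρ]; ring
  have e3 : u ^ 3 = u * ρ := by rw [hρ]; ring
  have e2 : u * u = ρ := by rw [hρ]; ring
  rw [e4, e6] at hε hb1 hb2
  rw [← hρ] at hr1 hr2
  rw [e3]
  have p2 : 0 < ρ ^ 2 := by positivity
  have p3 : 0 < ρ ^ 3 := by positivity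
  have q2 : ρ ^ 2 ≤ 11 / 1000 * ρ := by rw [sq]; gcongr
  have q3 : ρ ^ 3 ≤ 11 / 1000 * ρ ^ 2 := by
    rw [pow_succ']; gcongr
  obtain ⟨x, hx⟩ : ∃ x, x = ε + ρ ^ 2 + 26 * ρ ^ 3 := ⟨_, rfl⟩
  rw [← hx] at hb1 hb2
  have hx4 : x ≤ 3 * ρ ^ 2 := by linarith
  have hx0 : 0 < x := by linarith
  have hνρ : ν ≤ 3 / 20 * ρ ^ 2 := by linarith
  have hb0 : 0.49 ≤ b := by linarith
  have hbh : b ≤ 1 / 2 := by linarith only [hν, hνε, p3, q3, hb2, hx]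
  have hgν : 0 < g - ν := by linarith
  have hgb : g ≤ 0.11 := by linarith
  have hr0 : 0 < r := by linarith
  have hc4 : 2 * (g * r) ≤ c := by
    have : b * c ≤ 1 / 2 * c := by gcongr
    linarith
  have hgr : u * ρ ≤ g * r := by gcongr; linarith
  have huν : u * ν ≤ 103 / 1000 * ν := by gcongr
  have hρν : ρ * ν ≤ 11 / 1000 * ν := by gcongr
  have hνν : ν * ν ≤ 1 / 1000 * ν := by gcongr; linarith only [hu', hνε, hε, hρu, p3, q2, q3]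
  have hbν : b * ν ≤ 1 / 2 * ν := by gcongr
  have hgr2 : g * r ≤ u * ρ + ν / 4 := by
    have : g * r ≤ (u + ν) * (ρ + ν) := by gcongr
    have e : (u + ν) * (ρ + ν) = u * ρ + u * ν + ρ * ν + ν * ν := by ring
    linarith only [hν, huν, hρν, hνν, this]
  refine ⟨?_, ?_, ?_, ?_, ?_, ?_, ?_, ?_, ?_, ?_⟩
  · have a1 : 2 * (u * ρ) * (u - ν) ≤ c * (g - ν) := by
      apply mul_le_mul _ _ _ hc0 <;> linarith only [hc4, hgr, hg1, hνε, hε, hρu, p3, q2, q3]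
    have a2 : 2 * (u * ρ) * (u - ν) = 2 * ρ ^ 2 - 2 * (u * (ρ * ν)) := by rw [hρ]; ring
    have a3 : u * (ρ * ν) ≤ 1 * (11 / 1000 * ν) := by gcongr; linarith
    have a4 := aux_sq_le (1 / 2 - x - 3 * ν) b ν 2 (by linarith only [hu', hνε, hε, hρu, p3, q2, q3, hx]) (by linarith only [hb1]) hν.le 1
      (by norm_num)
    have a5 : (1 / 2 - x - 3 * ν) ^ 2 = 1 / 4 - (x + 3 * ν) + (x + 3 * ν) ^ 2 := by ring
    have a6 := sq_nonneg (x + 3 * ν)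
    rw [one_mul] at a4
    linarith only [hν, hD1, hε, hx, a1, a2, a3, a4, a6]
  · have a1 : c * (g - ν) ≤ r * 1 := by
      apply mul_le_mul hc3 _ hgν.le hr0.le
      linarith only [hu', hg2, hρu, p3, q2, q3]
    linarith only [hu', hνε, hD2, hr2, hε, hρu, p3, q2, q3, a1]
  · have a1 : u * (u - ν) ≤ g * (g - ν) := by
      apply mul_le_mul hg1 _ _ _ <;> linarith only [hg1, hνε, hε, hρu, p3, q2, q3]
    have a2 := aux_sq_le (1 / 2 + x - ρ - 2 * ν) (1 - r - b) ν 1 (by linarith only [hu', hν, hνε, hρu, p3, q2, q3, hx]) (by linarith only [hr2, hb2])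
      hν.le 0 (by norm_num)
    have a5 : (1 / 2 + x - ρ - 2 * ν) ^ 2 =
        1 / 4 + (x - ρ - 2 * ν) + (x - ρ - 2 * ν) ^ 2 := by ring
    have a6 := sq_nonneg (x - ρ - 2 * ν)
    have a7 : u * (u - ν) = ρ - u * ν := by rw [← e2]; ring
    rw [one_mul, zero_mul, sub_zero] at a2
    linarith only [hν, hD1, hρ, p3, q3, hx, huν, a1, a2, a6]
  · have a1 : b * (g - ν) ≤ 1 / 2 * 0.11 := by
      apply mul_le_mul hbh _ hgν.le <;> linarith only [hu', hρu, p3, q2, q3, hg2]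
    linarith only [hu', hνε, hD2, hε, hρu, p3, q2, q3, a1]
  · obtain ⟨a, ha⟩ : ∃ a, a = 1 - r - b := ⟨_, rfl⟩
    rw [← ha]
    have ha1 : 1 / 2 + x - ρ - ν ≤ a := by linarith only [hr2, hb2, ha]
    have ha2 : a ≤ 1 / 2 + x - ρ + ν := by linarith only [hr1, hb1, ha]
    have ha3 : a ≤ 1 / 2 := by linarith only [hνε, hr1, hε, p3, q2, q3, hb1, hx, ha]
    have ha4 : 0.48 ≤ a := by linarith only [hu', hν, hνε, hr2, hρu, p3, q2, q3, hb2, hx, ha]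
    have a1 := aux_cube a ν (by linarith only [hu', hν, hνε, hr2, hρu, p3, q2, q3, hb2, hx, ha]) ha3 hν.le
    have a2 : (g - ν) * (b * c) ≤ u * (u * ρ + ν) := by
      apply mul_le_mul _ _ _ hu.le
      · linarith only [hg2]
      · linarith only [hν, hc2, hbν, hgr2]
      · positivity
    have a3 : u * (u * ρ + ν) = ρ ^ 2 + u * ν := by rw [hρ]; ring
    obtain ⟨y, hy⟩ : ∃ y, y = 1 / 2 - a := ⟨_, rfl⟩
    have hy0 : 0 ≤ y := by linarith only [hνε, hr1, hε, p3, q2, q3, hb1, hx, ha, hy]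
    have hy1 : ρ - x - ν ≤ y := by linarith only [hr1, hb1, ha, hy]
    have hy2 : y ≤ ρ - x + ν := by linarith only [hr2, hb2, ha, hy]
    have hy3 : y ≤ ρ := by linarith only [hν, hνε, hr2, p3, q3, hb2, hx, ha, hy]
    obtain ⟨e, he⟩ : ∃ e, e = D - 1 / 4 := ⟨_, rfl⟩
    have hD : D = 1 / 4 + e := by linarith only [he]
    have hae : a = 1 / 2 - y := by linarith only [hy]
    have b1 : D * a - a ^ 3 = e / 2 + y / 2 - 3 / 2 * y ^ 2 + y ^ 3 - y * e := by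
      rw [hD, hae]; ring
    have b2 : (ρ - x - ν) ^ 2 ≤ y ^ 2 := by gcongr; linarith only [hνε, hε, p3, q2, q3, hx]
    have b2' : (ρ - x - ν) ^ 2 = ρ ^ 2 - 2 * (ρ * (x + ν)) + (x + ν) ^ 2 := by ring
    have b2'' := sq_nonneg (x + ν)
    have b3 : y ^ 3 ≤ ρ ^ 3 := by gcongr
    have b4 : y * (- e) ≤ y * (3 * ν) := by gcongr; linarith only [hD2, he]
    have b4' : y * (3 * ν) ≤ 11 / 1000 * (3 * ν) := by gcongr; linarith only [hu', hν, hνε, hr2, hρu, p3, q2, q3, hb2, hx, ha, hy]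
    have b5 : (1 / 4 - 3 * ν) * ρ ≤ D * r := by
      apply mul_le_mul hD2 hr1 hρ0.le
      linarith only [hu', hνε, hD2, hε, hρu, p3, q2, q3]
    have b5' : (1 / 4 - 3 * ν) * ρ = ρ / 4 - 3 * (ρ * ν) := by ring
    have b6 : ρ * (x + ν) ≤ ρ * (4 * ρ ^ 2) := by gcongr; linarith only [hνε, hε, p3, q3, hx]
    have b6' : ρ * (4 * ρ ^ 2) = 4 * ρ ^ 3 := by ring
    have b7 : y * (- e) = - (y * e) := by ring
    linarith only [hν, hD1, hr2, hb2, hx, huν, hρν, ha, a1, a2, a3, hy, he, b1, b2, b2'', b3, b4, b4', b5, b6]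
  · linarith only [hu', hν, hνε, hr2, hρu, p3, q2, q3, hb2, hx]
  · have a1 : (1 - r - b) * ((1 - r - b) - ν) + 2 * ((1 - r - b) * r) + b * (b - ν) =
        1 / 2 + 2 * (1 / 2 - b) ^ 2 - r ^ 2 - (1 - r) * ν := by ring
    have a1' : 0 ≤ (1 - r) * ν := mul_nonneg (by linarith only [hu', hνε, hr2, hε, hρu, p3, q2, q3]) hν.le
    have a2 : (1 / 2 - b) ^ 2 ≤ (4 * ρ ^ 2) ^ 2 := by gcongr <;> linarith only [hνε, hε, p3, q3, hb1, hx]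
    have a3 : ρ ^ 2 ≤ r ^ 2 := by gcongr
    have a5 : (4 * ρ ^ 2) ^ 2 = 16 * (ρ ^ 2 * ρ ^ 2) := by ring
    have a6 : ρ ^ 2 * ρ ^ 2 ≤ (1 / 1000) * ρ ^ 2 := by gcongr; linarith only [hu', hρu, p3, q2, q3]
    linarith only [hν, hc2, p3, q3, hbν, hgr2, a1', a2, a3, a6]
  · linarith only [hu', hν, hνε, hr2, hρu, p3, q2, q3, hb2, hx]
  · linarith only [hu', hνε, hε, hρu, p3, q2, q3, hb1, hx]
  · linarith only [hνε, hg1, hε, hρu, p3, q2, q3]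

end Pool.Agent.P.MP_4f3dfd_co
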