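import Pool.Agent.K.MP_4f3dfd_co.C4

set_option autoImplicit false
set_option linter.unusedSectionVars false

namespace Pool.Agent.P.MP_4f3dfd_co

variable {V : Type*} [Fintype V] [Nonempty V]

/-- Weighted graph `W` with a symmetric weight `h` on its triangles in which every vertex has
normalised degree `t`. -/
structure Setup (W : V → V → ℝ) (h : V → V → V → ℝ) (t : ℝ) : Prop where
  symm : ∀ x y, W x y = W y x
  nonneg : ∀ x y, 0 ≤ W x y
  le_one : ∀ x y, W x y ≤ 1
  h12 : ∀ x y z, h x y z = h y x z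
  h23 : ∀ x y z, h x y z = h x z y
  h_nonneg : ∀ x y z, 0 ≤ h x y z
  h_le : ∀ x y z, h x y z ≤ W x y * W x z * W y z
  deg : ∀ x, E2 (h x) = t

/-- weight of monochromatic triples not used by `h` -/
def Mw (W : V → V → ℝ) (h : V → V → V → ℝ) (x y z : V) : ℝ :=
  W x y * W x z * W y z - h x y z + (1 - W x y) * (1 - W x z) * (1 - W y z)

namespace Setup

variable {W : V → V → ℝ} {h : V → V → V → ℝ} {t : ℝ} (S : Setup W h t)
include S

theorem M12 (x y z : V) : Mw W h x y z = Mw W h y x z := by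
  simp only [Mw]
  rw [S.symm y x, S.h12 y x z]
  ring

theorem M23 (x y z : V) : Mw W h x y z = Mw W h x z y := by
  simp only [Mw]
  rw [S.symm z y, S.h23 x z y]
  ring

theorem HHH_nonneg (x y z : V) : 0 ≤ (1 - W x y) * (1 - W x z) * (1 - W y z) := by
  have := S.le_one x y
  have := S.le_one x z
  have := S.le_one y z
  apply mul_nonneg (mul_nonneg _ _) <;> linarith

theorem HHH_le_M (x y z : V) : (1 - W x y) * (1 - W x z) * (1 - W y z) ≤ Mw W h x y z := by
  simp only [Mw]
  linarith [S.h_le x y z]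

theorem M_nonneg (x y z : V) : 0 ≤ Mw W h x y z :=
  (S.HHH_nonneg x y z).trans (S.HHH_le_M x y z)

theorem M_le (x y z : V) : Mw W h x y z ≤ W x y * W x z + (1 - W x y) * (1 - W x z) := by
  simp only [Mw]
  have a1 := S.le_one x y
  have a2 := S.le_one x z
  have a3 := S.le_one y z
  have b1 := S.nonneg x y
  have b2 := S.nonneg x z
  have b3 := S.nonneg y z
  have c1 : 0 ≤ W x y * W x z * (1 - W y z) := mul_nonneg (mul_nonneg b1 b2) (by linarith)
  have c2 : 0 ≤ (1 - W x y) * (1 - W x z) * W y z :=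
    mul_nonneg (mul_nonneg (by linarith) (by linarith)) b3
  nlinarith [S.h_nonneg x y z]

theorem M_le_one (x y z : V) : Mw W h x y z ≤ 1 := by
  have a1 := S.le_one x y
  have a2 := S.le_one x z
  have b1 := S.nonneg x y
  have b2 := S.nonneg x z
  have := S.M_le x y z
  nlinarith [mul_nonneg b1 (sub_nonneg.mpr a2), mul_nonneg b2 (sub_nonneg.mpr a1)]

theorem D_nonneg (x : V) : 0 ≤ E (W x) := E_nonneg (S.nonneg x)

theorem D_le_one (x : V) : E (W x) ≤ 1 := by
  have := E_mono (f := W x) (g := fun _ => 1) (S.le_one x)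
  rwa [E_const] at this

theorem t_le_D_sq (x : V) : t ≤ E (W x) ^ 2 := by
  rw [← S.deg x, sq, ← E2_prod]
  apply E2_mono
  intro y z
  refine (S.h_le x y z).trans ?_
  have := mul_nonneg (S.nonneg x y) (S.nonneg x z)
  nlinarith [S.le_one y z]

/-- the exact formula for the degree of `Mw` -/
theorem M_deg (x : V) : E2 (Mw W h x) =
    (1 - E (W x)) ^ 2 + 2 * E (fun y => W x y * E (W y)) - E2 W - t := by
  have e : E2 (Mw W h x) = E2 (fun y z => ((1 - W x y) * (1 - W x z) + W x y * W y z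
      + W x z * W z y - W y z) - h x y z) := by
    apply E2_congr
    intro y z
    simp only [Mw]
    rw [S.symm z y]
    ring
  rw [e, E2_sub, S.deg x, E2_sub, E2_add, E2_add, E2_prod,
    E2_swap (fun y z => W x z * W z y)]
  have e1 : E (fun y => 1 - W x y) = 1 - E (W x) := by rw [E_sub, E_const]
  have e2 : E2 (fun y z => W x y * W y z) = E (fun y => W x y * E (W y)) := by
    simp only [E2, E_mul_left]
  rw [e1, e2]
  have e3 : E2 (fun y z => W y z) = E2 W := rfl
  rw [e3]
  ring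

end Setup

theorem final_algebra (s η σ X SSO SSS T U e P : ℝ) (hs : 0 < s) (hs' : s ≤ 1 / 20)
    (hη0 : 0 ≤ η) (hη : η ≤ 2 * s ^ 9) (hσ0 : 0 ≤ σ) (hσ : σ * s ^ 4 ≤ η)
    (hA : 3 / 2 * s ^ 12 - 3 * (s ^ 4 * η) - 3 * (σ * (η + 3 / 2 * s ^ 12)) ≤
      3 * SSO + 2 * SSS - T)
    (hT0 : 0 ≤ T) (hSSS : SSS ≤ σ ^ 3) (hSSO : SSO ≤ σ ^ 2)
    (he : 2 * SSO - 2 * (σ * η) ≤ e)
    (hK : 3 * (s ^ 3) ^ 2 * e ≤ 2 * (s ^ 3) ^ 3 * P + P ^ 2) (hP0 : 0 ≤ P)
    (hP : P = X + σ * s ^ 5)
    (hG : 2 * U ^ 2 - (1 - σ) ^ 2 * U ≤ (1 - σ) * T)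
    (hη2 : (1 - σ) ^ 2 - U + σ + 2 * X - σ ^ 2 - 1 / 2 ≤ η) :
    2 * s ^ 9 - 42 * s ^ 10 ≤ η := by
  have s4 : 0 < s ^ 4 := by positivity
  have hσ5 : σ ≤ 2 * s ^ 5 := by
    have : σ * s ^ 4 ≤ 2 * s ^ 5 * s ^ 4 := by nlinarith only [hη, hσ]
    exact le_of_mul_le_mul_right this s4
  have pw : ∀ k : ℕ, s ^ (k + 1) ≤ s ^ k / 20 := by
    intro k
    have : 0 < s ^ k := by positivity
    rw [pow_succ]
    nlinarith only [hs', this]
  have p10 : 0 < s ^ 10 := by positivity
  have q11 := pw 10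
  have q12 := pw 11
  have q13 := pw 12
  have q14 := pw 13
  have q15 := pw 14
  have q16 := pw 15
  have q17 := pw 16
  norm_num at q11 q12 q13 q14 q15 q16 q17
  have hση : σ * η ≤ 4 * s ^ 14 := by
    calc σ * η ≤ (2 * s ^ 5) * (2 * s ^ 9) := by gcongr
      _ = 4 * s ^ 14 := by ring
  have hσε : σ * s ^ 12 ≤ 2 * s ^ 17 := by
    calc σ * s ^ 12 ≤ (2 * s ^ 5) * s ^ 12 := by gcongr
      _ = 2 * s ^ 17 := by ring
  have hθη : s ^ 4 * η ≤ 2 * s ^ 13 := by
    calc s ^ 4 * η ≤ s ^ 4 * (2 * s ^ 9) := by gcongr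
      _ = 2 * s ^ 13 := by ring
  have hσ2 : σ ^ 2 ≤ 4 * s ^ 10 := by
    calc σ ^ 2 ≤ (2 * s ^ 5) ^ 2 := by gcongr
      _ = 4 * s ^ 10 := by ring
  have hσ3 : σ ^ 3 ≤ 8 * s ^ 15 := by
    calc σ ^ 3 ≤ (2 * s ^ 5) ^ 3 := by gcongr
      _ = 8 * s ^ 15 := by ring
  have hσ10 : σ * s ^ 5 ≤ 2 * s ^ 10 := by
    calc σ * s ^ 5 ≤ (2 * s ^ 5) * s ^ 5 := by gcongr
      _ = 2 * s ^ 10 := by ring
  have p13 : 0 < s ^ 13 := by positivity
  have p12 : 0 < s ^ 12 := by positivity
  have p17 : 0 < s ^ 17 := by positivity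
  have he2 : s ^ 12 - 5 * s ^ 13 ≤ e := by nlinarith only [hA, hT0, hSSS, he, q14, q15, q16, q17, hση, hσε, hθη, hσ3, p17]
  have hP2 : s ^ 9 - 5 * s ^ 10 ≤ P := by
    by_contra hcon
    push Not at hcon
    have p9 : 0 < s ^ 9 := by positivity
    have b1 : P ≤ s ^ 9 := by linarith
    have b2 : P ^ 2 ≤ s ^ 9 * P := by nlinarith only [hs, hs', hP0, p10, hcon]
    have b3 : s ^ 9 * P < s ^ 9 * (s ^ 9 - 5 * s ^ 10) := by gcongr
    have b4 : s ^ 6 * (s ^ 12 - 5 * s ^ 13) ≤ s ^ 6 * e := by gcongr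
    have b5 : (s ^ 3) ^ 2 = s ^ 6 := by ring
    have b6 : (s ^ 3) ^ 3 = s ^ 9 := by ring
    rw [b5, b6] at hK
    have b7 : s ^ 6 * (s ^ 12 - 5 * s ^ 13) = s ^ 9 * (s ^ 9 - 5 * s ^ 10) := by ring
    nlinarith only [hK, b2, b3, b4]
  have hT : T ≤ 13 * s ^ 10 := by nlinarith only [hA, hSSS, hSSO, q11, q12, q13, q14, q15, q16, q17, hση, hσε, hθη, hσ2, hσ3, p17]
  have hs5 : s ^ 5 ≤ 1 / 4 := by
    have : s ^ 5 ≤ (1 / 20) ^ 5 := by gcongr
    norm_num at this
    linarith only [hs, hs', this]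
  have hω : 1 / 2 ≤ 1 - σ := by linarith only [hσ5, hs5]
  have hU : U ≤ (1 - σ) ^ 2 / 2 + 2 * T := by
    by_contra hcon
    push Not at hcon
    set w := 1 - σ with hw
    have w0 : 0 < w := by linarith only [hs, hs', hσ5, hs5]
    have c1 : 4 * T ≤ 2 * U - w ^ 2 := by linarith only [hcon]
    have c2 : w ^ 2 / 2 ≤ U := by linarith only [hT0, hcon]
    have c3 : w ^ 2 / 2 * (2 * U - w ^ 2) ≤ U * (2 * U - w ^ 2) := by
      apply mul_le_mul_of_nonneg_right c2
      linarith only [hT0, hcon]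
    have c4 : w * (w / 2 * (2 * U - w ^ 2)) ≤ w * T := by nlinarith only [hG, c3]
    have c5 : w / 2 * (2 * U - w ^ 2) ≤ T := le_of_mul_le_mul_left c4 w0
    have c6 : 1 / 4 * (2 * U - w ^ 2) ≤ w / 2 * (2 * U - w ^ 2) := by
      apply mul_le_mul_of_nonneg_right _ (by linarith only [hT0, hcon])
      linarith only [hσ5, hs5]
    linarith only [hcon, c5, c6]
  nlinarith only [hA, hSSS, hSSO, hP, hη2, q11, q12, q13, q14, q15, q16, q17, hση, hσε, hθη, hσ2, hσ3, hσ10, p17, hP2, hU]

theorem lower_small {W : V → V → ℝ} {h : V → V → V → ℝ} (s : ℝ) (hs : 0 < s)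
    (hs' : s ≤ 1 / 20) (S : Setup W h (1 / 4 + 3 / 2 * s ^ 12)) (hη : E2 W - 1 / 2 ≤ 2 * s ^ 9) :
    2 * s ^ 9 - 42 * s ^ 10 ≤ E2 W - 1 / 2 := by
  classical
  set ε : ℝ := 3 / 2 * s ^ 12 with hε
  have hε0 : 0 ≤ ε := by positivity
  set δ : V → ℝ := fun x => E (W x) - 1 / 2 with hδ
  have hD : ∀ x, E (W x) = 1 / 2 + δ x := fun x => by simp only [hδ]; ring
  have hδ0 : ∀ x, 0 ≤ δ x := by
    intro x
    have h1 := S.t_le_D_sq x
    have h2 := S.D_nonneg x
    simp only [hδ]
    nlinarith only [hε0, h1, h2]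
  set η : ℝ := E2 W - 1 / 2 with hηdef
  have hηE : E δ = η := by
    simp only [hδ, hηdef, E_sub, E_const, E2]
  have hη0 : 0 ≤ η := hηE ▸ E_nonneg hδ0
  set θ : ℝ := s ^ 4 with hθ
  have hθ0 : 0 < θ := by positivity
  set c : V → ℝ := fun x => if θ < δ x then 1 else 0 with hc
  have hc01 : ∀ x, (c x = 1 ∧ θ < δ x) ∨ (c x = 0 ∧ δ x ≤ θ) := by
    intro x
    by_cases hx : θ < δ x
    · left; simp [hc, hx]
    · right; simp [hc, hx, not_lt.mp hx]
  have hc0 : ∀ x, 0 ≤ c x := fun x => by rcases hc01 x with h | h <;> simp [h.1]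
  have hc1 : ∀ x, c x ≤ 1 := fun x => by rcases hc01 x with h | h <;> simp [h.1]
  set σ : ℝ := E c with hσ
  have hσ0 : 0 ≤ σ := E_nonneg hc0
  have hω : E (fun x => 1 - c x) = 1 - σ := by rw [E_sub, E_const]
  set M := Mw W h with hM
  -- degree of M
  have hWδ : ∀ x, 0 ≤ E (fun y => W x y * δ y) ∧ E (fun y => W x y * δ y) ≤ η := by
    intro x
    constructor
    · exact E_nonneg fun y => mul_nonneg (S.nonneg x y) (hδ0 y)
    · rw [← hηE]
      apply E_mono
      intro y
      nlinarith only [S.le_one x y, hδ0 y, hs, hs']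
  have hm1 : ∀ x, E2 (M x) = δ x ^ 2 + 2 * E (fun y => W x y * δ y) - η - ε := by
    intro x
    rw [hM, S.M_deg x]
    have e1 : E (fun y => W x y * E (W y)) = E (W x) * (1 / 2) + E (fun y => W x y * δ y) := by
      rw [← E_mul_right, ← E_add]
      apply E_congr
      intro y
      rw [hD y]
      ring
    have e2 : E2 W = 1 / 2 + η := by simp only [hηdef]; ring
    rw [e1, e2, hD x]
    ring
  have hMtot : E3 M = 3 * E (fun x => δ x ^ 2) - ε := by
    have e0 : E3 M = E (fun x => E2 (M x)) := rfl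
    have e1 : E (fun x => E (fun y => W x y * δ y)) = E (fun x => δ x ^ 2) + η * (1 / 2) := by
      rw [E_comm, ← hηE, ← E_mul_right, ← E_add]
      apply E_congr
      intro y
      rw [E_mul_right]
      have : E (fun x => W x y) = E (W y) := E_congr fun x => S.symm x y
      rw [this, hD y]
      ring
    rw [e0, E_congr hm1, E_sub, E_sub, E_add, E_mul_left, e1, E_const, E_const]
    ring
  set SSO := E3 (fun x y z => c x * c y * (1 - c z) * M x y z) with hSSO
  set SSS := E3 (fun x y z => c x * c y * c z * M x y z) with hSSS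
  set T := E3 (fun x y z => (1 - c x) * (1 - c y) * (1 - c z) * M x y z) with hT
  set X := E (fun x => c x * δ x) with hX
  have hcM : E3 (fun x y z => c x * M x y z) = E (fun x => c x * E2 (M x)) := by
    simp only [E3, E2, E_mul_left]
  have hA0 : 3 * SSO + 2 * SSS - T = 3 * E (fun x => c x * E2 (M x)) - E3 M := by
    have a1 : E3 (fun x y z => c y * M x y z) = E3 (fun x y z => c x * M x y z) := by
      rw [E3_swap12]
      exact E3_congr fun x y z => by rw [hM, S.M12 y x z]
    have a2 : E3 (fun x y z => c z * M x y z) = E3 (fun x y z => c x * M x y z) := by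
      rw [E3_swap23, ← a1]
      exact E3_congr fun x y z => by rw [hM, S.M23 x z y]
    have a3 : E3 (fun x y z => c x * c z * (1 - c y) * M x y z) = SSO := by
      rw [E3_swap23]
      exact E3_congr fun x y z => by rw [hM, S.M23 x z y]
    have a4 : E3 (fun x y z => c y * c z * (1 - c x) * M x y z) = SSO := by
      rw [E3_swap12, ← a3]
      exact E3_congr fun x y z => by rw [hM, S.M12 y x z]
    have a5 : E3 (fun x y z => c x * c y * (1 - c z) * M x y z + c x * c z * (1 - c y) * M x y z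
        + c y * c z * (1 - c x) * M x y z + 2 * (c x * c y * c z * M x y z)
        - (1 - c x) * (1 - c y) * (1 - c z) * M x y z) =
        E3 (fun x y z => c x * M x y z + c y * M x y z + c z * M x y z - M x y z) :=
      E3_congr fun x y z => by ring
    rw [E3_sub, E3_add, E3_add, E3_add, E3_mul_left, E3_sub, E3_add, E3_add, a1, a2, a3, a4,
      hcM] at a5
    have a6 : E3 (fun x y z => M x y z) = E3 M := rfl
    rw [a6] at a5
    linarith
  have hA : ε - 3 * (θ * η) - 3 * (σ * (η + ε)) ≤ 3 * SSO + 2 * SSS - T := by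
    rw [hA0, hMtot]
    have a1 : E (fun x => δ x ^ 2 - θ * δ x - c x * (η + ε)) ≤ E (fun x => c x * E2 (M x)) := by
      apply E_mono
      intro x
      rw [hm1 x]
      have := (hWδ x).1
      have := hδ0 x
      rcases hc01 x with h | h
      · rw [h.1]; nlinarith
      · rw [h.1]; nlinarith only [h.2, hs, hs', this, h]
    rw [E_sub, E_sub, E_mul_left, E_mul_right, hηE] at a1
    linarith
  have hσθ : σ * θ ≤ η := by
    rw [← hηE, hσ, ← E_mul_right]
    apply E_mono
    intro x
    have := hδ0 x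
    rcases hc01 x with h | h
    · rw [h.1]; linarith [h.2]
    · rw [h.1]; linarith
  have hT0 : 0 ≤ T := E3_nonneg fun x y z =>
    mul_nonneg (mul_nonneg (mul_nonneg (by linarith [hc1 x]) (by linarith [hc1 y]))
      (by linarith [hc1 z])) (S.M_nonneg x y z)
  have hSSS' : SSS ≤ σ ^ 3 := by
    have : σ ^ 3 = E3 (fun x y z => c x * c y * c z) := by rw [E3_prod]; ring
    rw [this]
    apply E3_mono
    intro x y z
    have := mul_nonneg (mul_nonneg (hc0 x) (hc0 y)) (hc0 z)
    nlinarith only [S.M_le_one x y z, hs, hs', this]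
  have hSSO' : SSO ≤ σ ^ 2 := by
    have : σ ^ 2 = E3 (fun x y (_ : V) => c x * c y * 1) := by
      rw [E3_prod c c (fun _ => 1), E_const]; ring
    rw [this]
    apply E3_mono
    intro x y z
    have a := mul_nonneg (hc0 x) (hc0 y)
    have b : (1 - c z) * M x y z ≤ 1 := by
      nlinarith only [S.M_le_one x y z, S.M_nonneg x y z, hc0 z, hc1 z, hs, hs']
    nlinarith
  -- the auxiliary graph
  set u : V → V → ℝ := fun x y => E (fun z => (1 - c z) * M x y z) with hu
  have hu0 : ∀ x y, 0 ≤ u x y := fun x y =>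
    E_nonneg fun z => mul_nonneg (by linarith [hc1 z]) (S.M_nonneg x y z)
  have hus : ∀ x y, u x y = u y x := fun x y =>
    E_congr fun z => by rw [hM, S.M12 x y z]
  have hule : ∀ x y, u x y ≤ 1 / 2 + δ x := by
    intro x y
    have a1 : u x y ≤ E (fun z => W x y * W x z + (1 - W x y) * (1 - W x z)) := by
      apply E_mono
      intro z
      nlinarith only [S.M_le x y z, S.M_nonneg x y z, hc0 z, hs, hs']
    rw [E_add, E_mul_left, E_mul_left, E_sub, E_const] at a1
    have e : E (fun z => W x z) = 1 / 2 + δ x := hD x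
    rw [e] at a1
    nlinarith only [S.le_one x y, hδ0 x, hs, hs', a1]
  set g : V → V → ℝ := fun x y => c x * c y * min 1 (2 * u x y) with hg
  have hmin0 : ∀ x y, 0 ≤ min 1 (2 * u x y) := fun x y =>
    le_min zero_le_one (by linarith [hu0 x y])
  have hg0 : ∀ x y, 0 ≤ g x y := fun x y => mul_nonneg (mul_nonneg (hc0 x) (hc0 y)) (hmin0 x y)
  have hgs : ∀ x y, g x y = g y x := fun x y => by simp only [hg]; rw [hus x y]; ring
  have he : 2 * SSO - 2 * (σ * η) ≤ E2 g := by
    have a1 : SSO = E2 (fun x y => c x * c y * u x y) := by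
      simp only [hSSO, E3, E2, hu]
      apply E_congr; intro x
      apply E_congr; intro y
      rw [← E_mul_left]
      apply E_congr; intro z
      ring
    have a2 : σ * η = E2 (fun x y => δ x * c y) := by rw [E2_prod, hηE]; ring
    rw [a1, a2, ← E2_mul_left, ← E2_mul_left, ← E2_sub]
    apply E2_mono
    intro x y
    simp only [hg]
    have b1 : 2 * u x y - 2 * δ x ≤ min 1 (2 * u x y) :=
      le_min (by linarith [hule x y]) (by linarith [hδ0 x])
    have b2 := mul_le_mul_of_nonneg_left b1 (mul_nonneg (hc0 x) (hc0 y))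
    have b3 : 0 ≤ (1 - c x) * (δ x * c y) :=
      mul_nonneg (by linarith [hc1 x]) (mul_nonneg (hδ0 x) (hc0 y))
    nlinarith only [b2, b3]
  have hdeg : ∀ x, E (g x) ≤ c x * (δ x ^ 2 + η) := by
    intro x
    have a1 : E (g x) ≤ c x * (2 * E2 (fun y z => c y * (1 - c z) * M x y z)) := by
      have : E2 (fun y z => c y * (1 - c z) * M x y z) = E (fun y => c y * u x y) := by
        simp only [E2, hu]
        apply E_congr; intro y
        rw [← E_mul_left]
        apply E_congr; intro z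
        ring
      rw [this, ← E_mul_left, ← E_mul_left]
      apply E_mono
      intro y
      simp only [hg]
      have b := mul_le_mul_of_nonneg_left (min_le_right 1 (2 * u x y))
        (mul_nonneg (hc0 x) (hc0 y))
      linarith
    have a2 : 2 * E2 (fun y z => c y * (1 - c z) * M x y z) ≤ E2 (M x) := by
      have b1 : E2 (fun y z => c z * (1 - c y) * M x y z) =
          E2 (fun y z => c y * (1 - c z) * M x y z) := by
        rw [E2_swap]
        exact E2_congr fun y z => by rw [hM, S.M23 x z y]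
      have b2 : E2 (fun y z => c y * (1 - c z) * M x y z + c z * (1 - c y) * M x y z)
          ≤ E2 (M x) := by
        apply E2_mono
        intro y z
        have := S.M_nonneg x y z
        rcases hc01 y with h | h <;> rcases hc01 z with h' | h' <;> rw [h.1, h'.1] <;>
          simp [hM, this]
      rw [E2_add, b1] at b2
      linarith
    have a3 : E2 (M x) ≤ δ x ^ 2 + η := by
      rw [hm1 x]
      linarith [(hWδ x).2]
    refine a1.trans (mul_le_mul_of_nonneg_left (a2.trans a3) (hc0 x))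
  set a : V → ℝ := fun x => max (δ x) θ + s ^ 5 with ha
  have s5 : 0 < s ^ 5 := by positivity
  have ha0 : ∀ x, 0 < a x := fun x => by
    have := le_max_right (δ x) θ
    simp only [ha]
    linarith
  have hdeg2 : ∀ x, E (g x) ≤ c x * a x ^ 2 := by
    intro x
    refine (hdeg x).trans ?_
    rcases hc01 x with h | h
    · rw [h.1]
      simp only [ha]
      rw [max_eq_left h.2.le]
      have b1 : θ * s ^ 5 ≤ δ x * s ^ 5 := by gcongr; exact h.2.le
      have b2 : θ * s ^ 5 = s ^ 9 := by rw [hθ]; ring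
      nlinarith only [hs, hη, hη0, b1]
    · rw [h.1]; simp
  have hK := degree_ineq g a (fun x => c x * a x) hgs hg0 ha0
    (fun x => mul_nonneg (hc0 x) (ha0 x).le)
    (fun x y => by
      apply mul_le_mul_of_nonneg_right _ (ha0 y).le
      simp only [hg]
      have b1 : c x * min 1 (2 * u x y) ≤ 1 := by
        nlinarith only [hc0 x, hc1 x, hmin0 x y, min_le_left 1 (2 * u x y), hs, hs']
      nlinarith only [hc0 y, hs, hs', b1])
    (fun y => by have := hdeg2 y; nlinarith only [this])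
    (fun y => by
      have := hdeg2 y
      rcases hc01 y with h | h <;> rw [h.1] at this ⊢ <;> simpa using this)
    (s ^ 3) (by positivity)
  have hP : E (fun x => c x * a x) = X + σ * s ^ 5 := by
    rw [hX, hσ, ← E_mul_right, ← E_add]
    apply E_congr
    intro x
    rcases hc01 x with h | h
    · simp only [ha]
      rw [h.1, max_eq_left h.2.le]
      ring
    · rw [h.1]; ring
  -- Goodman bound on the ordinary vertices
  set v : V → ℝ := fun x => E (fun y => (1 - c y) * (1 - W x y)) with hv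
  set U := E (fun x => (1 - c x) * v x) with hU
  have hG : 2 * U ^ 2 - (1 - σ) ^ 2 * U ≤ (1 - σ) * T := by
    have a1 : E3 (fun x y z => (1 - c x) * ((1 - c y) * (1 - W x y)) * ((1 - c z) * (1 - W x z)))
        = E (fun x => (1 - c x) * v x ^ 2) := by
      simp only [E3]
      apply E_congr; intro x
      simp only [E_mul_left, E_mul_right, hv]
      ring
    have a2 : E3 (fun x y z => (1 - c y) * ((1 - c x) * (1 - W y x)) * ((1 - c z) * (1 - W y z)))
        = E (fun x => (1 - c x) * v x ^ 2) := by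
      rw [E3_swap12, a1]
    have a3 : E3 (fun x y z => (1 - c x) * ((1 - c y) * (1 - W x y)) * (1 - c z))
        = U * (1 - σ) := by
      simp only [E3]
      simp only [E_mul_left, E_mul_right, hω]
      rfl
    have a4 : E3 (fun x y z =>
        (1 - c x) * ((1 - c y) * (1 - W x y)) * ((1 - c z) * (1 - W x z)) +
        (1 - c y) * ((1 - c x) * (1 - W y x)) * ((1 - c z) * (1 - W y z)) -
        (1 - c x) * ((1 - c y) * (1 - W x y)) * (1 - c z)) ≤ T := by
      apply E3_mono
      intro x y z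
      rw [S.symm y x]
      have b0 : 0 ≤ (1 - c x) * (1 - c y) * (1 - c z) :=
        mul_nonneg (mul_nonneg (by linarith [hc1 x]) (by linarith [hc1 y])) (by linarith [hc1 z])
      have b1 := mul_le_mul_of_nonneg_left (S.HHH_le_M x y z) b0
      have b2 : 0 ≤ (1 - c x) * (1 - c y) * (1 - c z) * ((1 - W x y) * (W x z * W y z)) :=
        mul_nonneg b0 (mul_nonneg (by linarith [S.le_one x y])
          (mul_nonneg (S.nonneg x z) (S.nonneg y z)))
      rw [hM]
      nlinarith only [b1, b2]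
    rw [E3_sub, E3_add, a1, a2, a3] at a4
    have a5 : U ^ 2 ≤ (1 - σ) * E (fun x => (1 - c x) * v x ^ 2) := by
      have b := E_cs (fun x => 1 - c x) (fun x => (1 - c x) * v x)
      have e1 : E (fun x => (1 - c x) * ((1 - c x) * v x)) = U :=
        E_congr fun x => by rcases hc01 x with h | h <;> simp [h.1]
      have e2 : E (fun x => (1 - c x) ^ 2) = 1 - σ := by
        rw [← hω]
        exact E_congr fun x => by rcases hc01 x with h | h <;> simp [h.1]
      have e3 : E (fun x => ((1 - c x) * v x) ^ 2) = E (fun x => (1 - c x) * v x ^ 2) :=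
        E_congr fun x => by rcases hc01 x with h | h <;> simp [h.1]
      rwa [e1, e2, e3] at b
    have hω0 : 0 ≤ 1 - σ := hω ▸ E_nonneg fun x => by linarith [hc1 x]
    have a6 := mul_le_mul_of_nonneg_left a4 hω0
    nlinarith only [a5, a6]
  have hη2 : (1 - σ) ^ 2 - U + σ + 2 * X - σ ^ 2 - 1 / 2 ≤ η := by
    have a1 : E2 (fun x y => (1 - c x) * (1 - c y)) = (1 - σ) ^ 2 := by
      rw [E2_prod, hω]; ring
    have a2 : E2 (fun x y => (1 - c x) * ((1 - c y) * (1 - W x y))) = U := by
      simp only [E2, E_mul_left]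
      rfl
    have a3 : E2 (fun x y => c x * W x y) = σ * (1 / 2) + X := by
      simp only [E2, E_mul_left]
      rw [hσ, hX, ← E_mul_right, ← E_add]
      apply E_congr; intro x
      have e : E (fun z => W x z) = 1 / 2 + δ x := hD x
      rw [e]; ring
    have a4 : E2 (fun x y => c y * W y x) = σ * (1 / 2) + X := by
      rw [E2_swap, a3]
    have a5 : E2 (fun x y => c x * c y) = σ ^ 2 := by rw [E2_prod]; ring
    have a6 : E2 (fun x y => (1 - c x) * (1 - c y) - (1 - c x) * ((1 - c y) * (1 - W x y))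
        + c x * W x y + c y * W y x - c x * c y) ≤ E2 W := by
      apply E2_mono
      intro x y
      rw [S.symm y x]
      have := mul_nonneg (mul_nonneg (hc0 x) (hc0 y)) (sub_nonneg.mpr (S.le_one x y))
      nlinarith only [this]
    rw [E2_sub, E2_add, E2_add, E2_sub, a1, a2, a3, a4, a5] at a6
    simp only [hηdef]
    linarith
  exact final_algebra s η σ X SSO SSS T U (E2 g) _ hs hs' hη0 hη hσ0 hσθ hA hT0 hSSS' hSSO' he
    hK (E_nonneg fun x => mul_nonneg (hc0 x) (ha0 x).le) hP hG hη2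

theorem Setup.half_le {W : V → V → ℝ} {h : V → V → V → ℝ} {t : ℝ} (S : Setup W h t)
    (r : ℝ) (hr : r ^ 2 ≤ t) : r ≤ E2 W := by
  have : ∀ x, r ≤ E (W x) := fun x =>
    (abs_le_of_sq_le_sq' (hr.trans (S.t_le_D_sq x)) (S.D_nonneg x)).2
  have h2 := E_mono (f := fun _ => r) (g := fun x => E (W x)) this
  rwa [E_const] at h2

/-- the lower bound near density one quarter -/
theorem lower_cusp {W : V → V → ℝ} {h : V → V → V → ℝ} (s : ℝ) (hs : 0 < s)
    (S : Setup W h (1 / 4 + 3 / 2 * s ^ 12)) :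
    1 / 2 + 2 * s ^ 9 - 42 * s ^ 10 ≤ E2 W := by
  have h0 : 1 / 2 ≤ E2 W := S.half_le (1 / 2) (by
    have : 0 ≤ s ^ 12 := by positivity
    nlinarith)
  have p9 : 0 < s ^ 9 := by positivity
  have p10 : s ^ 10 = s ^ 9 * s := by ring
  by_cases hs' : s ≤ 1 / 20
  · by_cases hη : E2 W - 1 / 2 ≤ 2 * s ^ 9
    · linarith [lower_small s hs hs' S hη]
    · nlinarith
  · nlinarith

end Pool.Agent.P.MP_4f3dfd_co
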