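import Pool.Agent.K.MP_4f3dfd_co.C8

set_option autoImplicit false
set_option maxHeartbeats 800000

namespace Pool.Agent.P.MP_4f3dfd_co

open Finset

theorem mul_rpow_le (k x p : ℝ) (hk : 1 ≤ k) (hx : 0 ≤ x) (hp : p ≤ 1) :
    (k * x) ^ p ≤ k * x ^ p := by
  rw [Real.mul_rpow (by linarith) hx]
  apply mul_le_mul_of_nonneg_right _ (Real.rpow_nonneg hx _)
  exact Real.rpow_le_self_of_one_le hk hp

theorem rpow_pow (x p : ℝ) (hx : 0 ≤ x) (k : ℕ) : (x ^ p) ^ k = x ^ (p * k) := by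
  rw [Real.rpow_mul hx, Real.rpow_natCast]

theorem lower_real (ε ν τ F : ℝ) (hε : 0 ≤ ε) (hν : 0 < ν) (hν1 : ν ≤ 1) (h1 : τ ≤ 1 / 4 + ε)
    (h2 : 1 / 4 + ε - 3 * ν ≤ τ) (hF0 : 0 ≤ F)
    (hA : ∀ s : ℝ, 0 < s → τ = 1 / 4 + 3 / 2 * s ^ 12 → 1 / 2 + 2 * s ^ 9 - 42 * s ^ 10 ≤ F)
    (hB : ∀ r : ℝ, r ^ 2 ≤ τ → r ≤ F) :
    1 / 2 + 2 * (2 / 3 * ε) ^ (3 / 4 : ℝ) - 42 * (ε ^ (5 / 6 : ℝ) + ν ^ (3 / 4 : ℝ)) ≤ F := by
  have n1 : ν ≤ ν ^ (3 / 4 : ℝ) := Real.self_le_rpow_of_le_one hν.le hν1 (by norm_num)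
  have n2 : (2 * ν) ^ (3 / 4 : ℝ) ≤ 2 * ν ^ (3 / 4 : ℝ) :=
    mul_rpow_le 2 ν _ (by norm_num) hν.le (by norm_num)
  have n3 : 0 ≤ ε ^ (5 / 6 : ℝ) := Real.rpow_nonneg hε _
  by_cases hτ : 1 / 4 < τ
  · set y := 2 / 3 * (τ - 1 / 4) with hy
    have hy0 : 0 < y := by linarith only [hτ, hy]
    have hs := hA (y ^ (1 / 12 : ℝ)) (Real.rpow_pos_of_pos hy0 _) (by
      rw [rpow_pow y _ hy0.le]
      norm_num
      linarith only [hy])
    rw [rpow_pow y _ hy0.le, rpow_pow y _ hy0.le] at hs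
    norm_num at hs
    have a1 : (2 / 3 * ε) ^ (3 / 4 : ℝ) ≤ (y + 2 * ν) ^ (3 / 4 : ℝ) := by
      apply Real.rpow_le_rpow (by positivity) (by linarith only [h2, hy]) (by norm_num)
    have a2 := Real.rpow_add_le_add_rpow (p := 3 / 4) hy0.le (by linarith only [hν] : 0 ≤ 2 * ν)
      (by norm_num) (by norm_num)
    have a3 : y ^ (5 / 6 : ℝ) ≤ ε ^ (5 / 6 : ℝ) := by
      apply Real.rpow_le_rpow hy0.le (by linarith only [h1, hτ, hy]) (by norm_num)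
    linarith only [hν, n1, n2, hs, a1, a2, a3]
  · have a1 : (2 / 3 * ε) ^ (3 / 4 : ℝ) ≤ (2 * ν) ^ (3 / 4 : ℝ) := by
      apply Real.rpow_le_rpow (by positivity) (by linarith) (by norm_num)
    have a2 : 1 / 2 - 6 * ν ≤ F := by
      by_cases h : ν ≤ 1 / 12
      · apply hB
        nlinarith only [hε, hν, h2, h]
      · linarith only [hF0, h]
    linarith only [hν, n1, n2, n3, a1, a2]

theorem upper_real (ε ν F : ℝ) (hε : 0 ≤ ε) (hε1 : ε ≤ 3 / 4) (hν : 0 < ν) (hν1 : ν ≤ 1)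
    (hF1 : F ≤ 1)
    (hA : ∀ t : ℝ, 0 < t → t ≤ 1 / 10 → 3 / 2 * t ^ 4 = ε + 10 * ν →
      F ≤ 1 / 2 + 2 * t ^ 3 + 20 * t ^ 5 + 22 * ν) :
    F ≤ 1 / 2 + 2 * (2 / 3 * ε) ^ (3 / 4 : ℝ) + 10 ^ 5 * (ε ^ (5 / 6 : ℝ) + ν ^ (3 / 4 : ℝ)) := by
  have n1 : ν ≤ ν ^ (3 / 4 : ℝ) := Real.self_le_rpow_of_le_one hν.le hν1 (by norm_num)
  have n2 : ε ≤ ε ^ (5 / 6 : ℝ) := Real.self_le_rpow_of_le_one hε (by linarith) (by norm_num)
  have n3 : 0 ≤ (2 / 3 * ε) ^ (3 / 4 : ℝ) := Real.rpow_nonneg (by positivity) _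
  set y := 2 / 3 * (ε + 10 * ν) with hy
  have hy0 : 0 < y := by positivity
  have ht4 : (y ^ (1 / 4 : ℝ)) ^ 4 = y := by
    rw [rpow_pow y _ hy0.le]
    norm_num
  by_cases hsmall : y ≤ 1 / 10 ^ 4
  · have ht0 := Real.rpow_pos_of_pos hy0 (1 / 4 : ℝ)
    have hs := hA (y ^ (1 / 4 : ℝ)) ht0
      (by
        by_contra hcon
        push Not at hcon
        have : ((1 : ℝ) / 10) ^ 4 < (y ^ (1 / 4 : ℝ)) ^ 4 := by gcongr
        rw [ht4] at this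
        norm_num at this hsmall
        linarith only [this, hsmall])
      (by rw [ht4, hy]; ring)
    rw [rpow_pow y _ hy0.le, rpow_pow y _ hy0.le] at hs
    norm_num at hs
    have a1 : y ^ (3 / 4 : ℝ) ≤ (2 / 3 * ε + 7 * ν) ^ (3 / 4 : ℝ) := by
      apply Real.rpow_le_rpow hy0.le (by linarith only [hν, hy]) (by norm_num)
    have a2 := Real.rpow_add_le_add_rpow (p := 3 / 4) (by positivity : 0 ≤ 2 / 3 * ε)
      (by linarith only [hν] : 0 ≤ 7 * ν) (by norm_num) (by norm_num)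
    have a3 := mul_rpow_le 7 ν (3 / 4) (by norm_num) hν.le (by norm_num)
    have a4 : y ^ (5 / 4 : ℝ) ≤ y ^ (5 / 6 : ℝ) :=
      Real.rpow_le_rpow_of_exponent_ge hy0 (by norm_num at hsmall; linarith only [hε, hν, hy, hsmall]) (by norm_num)
    have a5 : y ^ (5 / 6 : ℝ) ≤ (ε + 7 * ν) ^ (5 / 6 : ℝ) := by
      apply Real.rpow_le_rpow hy0.le (by linarith only [hε, hν, hy]) (by norm_num)
    have a6 := Real.rpow_add_le_add_rpow (p := 5 / 6) hε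
      (by linarith only [hν] : 0 ≤ 7 * ν) (by norm_num) (by norm_num)
    have a7 := mul_rpow_le 7 ν (5 / 6) (by norm_num) hν.le (by norm_num)
    have a8 : ν ^ (5 / 6 : ℝ) ≤ ν ^ (3 / 4 : ℝ) :=
      Real.rpow_le_rpow_of_exponent_ge hν hν1 (by norm_num)
    linarith only [hε, hν, n1, n2, hs, a1, a2, a3, a4, a5, a6, a7, a8]
  · norm_num at hsmall
    linarith only [hε, hν, hF1, n1, n2, n3, hy, hsmall]

theorem cast_choose_three (n : ℕ) : ((n.choose 3 : ℕ) : ℝ) = n * (n - 1) * (n - 2) / 6 := by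
  induction n with
  | zero => simp
  | succ k ih =>
    rw [Nat.choose_succ_succ' k 2]
    push_cast
    rw [ih, Nat.cast_choose_two]
    ring

theorem degree_unique {n c m d d' : ℕ} (hn : 0 < n) (hdm : c * m = d * n)
    (J : Finset (Finset (Fin n))) (hJ : ∀ X ∈ J, #X = c) (hm : #J = m)
    (hd : ∀ v, #{X ∈ J | v ∈ X} = d') : d' = d := by
  have h := sum_deg J c hJ
  simp only [hd, Finset.sum_const, Finset.card_univ, Fintype.card_fin, nsmul_eq_mul, hm] at h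
  have h2 : n * d' = c * m := by exact_mod_cast h
  rw [hdm, mul_comm] at h2
  exact Nat.eq_of_mul_eq_mul_right hn h2

theorem cusp : ∃ C : ℝ, ∀ n m : ℕ, 3 ≤ n → n ∣ 3 * m → n.choose 3 ≤ 4 * m → m ≤ n.choose 3 →
    ∃ f : ℕ, IsLeast {k : ℕ | ∃ J : Finset (Finset (Fin n)), (∀ X ∈ J, X.card = 3) ∧
        J.card = m ∧ (∃ d : ℕ, ∀ i : Fin n, (J.filter (fun X => i ∈ X)).card = d) ∧
        (Finset.shadow J).card = k} f ∧
      |(f : ℝ) / (n.choose 2 : ℝ) -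
          (1 / 2 + 2 * (2 / 3 * ((m : ℝ) / (n.choose 3 : ℝ) - 1 / 4)) ^ (3 / 4 : ℝ))| ≤
        C * (((m : ℝ) / (n.choose 3 : ℝ) - 1 / 4) ^ (5 / 6 : ℝ) + (n : ℝ) ^ (-(3 / 4) : ℝ)) := by
  refine ⟨10 ^ 5, fun n m hn hdvd hm1 hm2 => ?_⟩
  obtain ⟨d, hd⟩ := hdvd
  have hdm : 3 * m = d * n := by rw [hd, mul_comm]
  set S : Set ℕ := {k : ℕ | ∃ J : Finset (Finset (Fin n)), (∀ X ∈ J, X.card = 3) ∧
        J.card = m ∧ (∃ d : ℕ, ∀ i : Fin n, (J.filter (fun X => i ∈ X)).card = d) ∧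
        (Finset.shadow J).card = k} with hS
  have hne : S.Nonempty := by
    obtain ⟨J, h1, h2, h3⟩ := exists_regular n 3 d m (by norm_num) hn hdm hm2
    exact ⟨_, J, h1, h2, ⟨d, h3⟩, rfl⟩
  have hleast : IsLeast S (sInf S) := ⟨Nat.sInf_mem hne, fun k hk => Nat.sInf_le hk⟩
  refine ⟨sInf S, hleast, ?_⟩
  obtain ⟨⟨J, hJ, hJm, ⟨d', hd'⟩, hJf⟩, hmin⟩ := hleast
  set f := sInf S with hf
  have hdd : d' = d := degree_unique (by omega) hdm J hJ hJm hd'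
  subst hdd
  have hN : (3 : ℝ) ≤ n := by exact_mod_cast hn
  have hN0 : (0 : ℝ) < n := by linarith
  have hc3 : (0 : ℝ) < n.choose 3 := by exact_mod_cast Nat.choose_pos hn
  have hc2 : (0 : ℝ) < n.choose 2 := by exact_mod_cast Nat.choose_pos (by omega : 2 ≤ n)
  obtain ⟨μ, hμ⟩ : ∃ μ : ℝ, μ = (m : ℝ) / (n.choose 3 : ℝ) := ⟨_, rfl⟩
  rw [← hμ]
  have hμ1 : 1 / 4 ≤ μ := by
    rw [hμ, le_div_iff₀ hc3]
    have : (n.choose 3 : ℝ) ≤ 4 * m := by exact_mod_cast hm1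
    linarith
  have hμ2 : μ ≤ 1 := by
    rw [hμ, div_le_one hc3]
    exact_mod_cast hm2
  obtain ⟨ν, hν⟩ : ∃ ν : ℝ, ν = 1 / n := ⟨_, rfl⟩
  have hν0 : 0 < ν := by rw [hν]; positivity
  have hν1 : ν ≤ 1 / 3 := by
    rw [hν]
    exact one_div_le_one_div_of_le (by norm_num) hN
  have hνp : (n : ℝ) ^ (-(3 / 4) : ℝ) = ν ^ (3 / 4 : ℝ) := by
    rw [Real.rpow_neg hN0.le, hν, one_div, Real.inv_rpow hN0.le]
  rw [hνp]
  have hτ : 2 * (d' : ℝ) / (n : ℝ) ^ 2 = μ * ((1 - ν) * (1 - 2 * ν)) := by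
    have e : (3 : ℝ) * m = d' * n := by exact_mod_cast hdm
    have h1 : (n : ℝ) - 1 ≠ 0 := by linarith only [hN, hν0, hν1]
    have h2 : (n : ℝ) - 2 ≠ 0 := by linarith
    rw [hμ, hν, cast_choose_three]
    field_simp
    linarith only [e]
  have hτ1 : 2 * (d' : ℝ) / (n : ℝ) ^ 2 ≤ μ := by
    rw [hτ]
    have : (1 - ν) * (1 - 2 * ν) ≤ 1 := by nlinarith only [hν0, hν1]
    nlinarith only [hμ1, this]
  have hτ2 : μ - 3 * ν ≤ 2 * (d' : ℝ) / (n : ℝ) ^ 2 := by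
    rw [hτ]
    have : 1 - 3 * ν ≤ (1 - ν) * (1 - 2 * ν) := by nlinarith only [hν0]
    nlinarith only [hμ1, hμ2, hν0, this]
  have hF : 2 * (f : ℝ) / (n : ℝ) ^ 2 = (f : ℝ) / (n.choose 2 : ℝ) * (1 - ν) := by
    have h1 : (n : ℝ) - 1 ≠ 0 := by linarith
    rw [hν, Nat.cast_choose_two]
    field_simp
  have hF0 : 0 ≤ (f : ℝ) / (n.choose 2 : ℝ) := by positivity
  have hF1 : (f : ℝ) / (n.choose 2 : ℝ) ≤ 1 := by
    rw [div_le_one hc2, ← hJf]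
    have : shadow J ⊆ Finset.powersetCard 2 Finset.univ := fun Y hY =>
      Finset.mem_powersetCard.mpr ⟨Finset.subset_univ _, shadow_card_two J hJ Y hY⟩
    have := Finset.card_le_card this
    rw [Finset.card_powersetCard, Finset.card_univ, Fintype.card_fin] at this
    exact_mod_cast this
  obtain ⟨F, hFdef⟩ : ∃ F : ℝ, F = (f : ℝ) / (n.choose 2 : ℝ) := ⟨_, rfl⟩
  rw [← hFdef] at hF hF0 hF1 ⊢
  haveI : Nonempty (Fin n) := ⟨⟨0, by omega⟩⟩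
  obtain ⟨W, h, St, hW⟩ := setup_of_regular J hJ d' hd'
  rw [Fintype.card_fin] at St hW
  rw [hJf, hF] at hW
  have hFν : 0 ≤ F * ν := by positivity
  have hFν1 : F * ν ≤ ν := by nlinarith only [hν0, hF1]
  have low := lower_real (μ - 1 / 4) ν (2 * (d' : ℝ) / (n : ℝ) ^ 2) F (by linarith) hν0
    (by linarith) (by linarith) (by linarith) hF0
    (by
      intro s hs hτs
      rw [hτs] at St
      have := lower_cusp s hs St
      linarith only [hW, hFν, this])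
    (by
      intro r hr
      have := St.half_le r hr
      linarith)
  have up := upper_real (μ - 1 / 4) ν F (by linarith only [hμ1]) (by linarith only [hμ2]) hν0 (by linarith only [hν0, hν1]) hF1
    (by
      intro t ht ht' h4
      obtain ⟨J', j1, j2, j3, j4⟩ := upper_cusp n d' m hdm (by omega) t ht ht'
        (by rw [← hν]; linarith only [hμ1, h4]) (by rw [← hν]; linarith only [hτ1, h4]) (by rw [← hν]; linarith only [hμ1, hτ2])
      have hle : f ≤ #(shadow J') := hmin ⟨J', j1, j2, ⟨d', j3⟩, rfl⟩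
      have hle' : 2 * (f : ℝ) / (n : ℝ) ^ 2 ≤ 2 * (#(shadow J') : ℝ) / (n : ℝ) ^ 2 := by
        gcongr
      rw [← hν] at j4
      linarith only [hF, hFν1, j4, hle'])
  have p1 : 0 ≤ (μ - 1 / 4) ^ (5 / 6 : ℝ) := Real.rpow_nonneg (by linarith only [hμ1]) _
  have p2 : 0 ≤ ν ^ (3 / 4 : ℝ) := Real.rpow_nonneg hν0.le _
  rw [abs_le]
  constructor <;> linarith only [low, up]

end Pool.Agent.P.MP_4f3dfd_co
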